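import Pool.Agent.HPP.APP

/-!
# HPP/ALev: the level of a character mod `b^m`

`lv χ` = least `j` such that `χ` factors through `b^j` (`≤ m`). If `χ` does not factor through `b` then
`2 ≤ lv χ ≤ m`, `χ` factors through `b^(lv χ)` and not through `b^(lv χ - 1)`.

`sum_level`: for `G ≥ 0` and `1 ≤ m' ≤ m`: the sum over the `χ mod b^m` with `lv χ = m'` of `G(χ₀)`,
`χ₀ mod b^m'` the character inducing `χ`, is at most the sum of `G` over all nontrivial characters mod
`b^m'` (if `m' ≥ 2`): `χ ↦ χ₀` is injective (`FactorsThrough.eq_changeLevel`), and `χ₀ = 1` would give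
`χ = 1`, level `0`. For `sum_base` (characters mod `b`) the same without `≠ 1`.
To avoid dependent types the function is given as `G : DirichletCharacter ℂ (b^m) → ℝ` and
`G' : DirichletCharacter ℂ (b^m') → ℝ` with `G χ = G' (h.χ₀)`.
-/

namespace Pool.Agent.HPP

open Complex

open Classical in
/-- the level -/
noncomputable def lv {b m : ℕ} (χ : DirichletCharacter ℂ (b ^ m)) : ℕ :=
  Nat.find (⟨m, DirichletCharacter.FactorsThrough.same_level χ⟩ : ∃ j, χ.FactorsThrough (b ^ j))

theorem lv_factors {b m : ℕ} (χ : DirichletCharacter ℂ (b ^ m)) :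
    χ.FactorsThrough (b ^ lv χ) := by
  classical
  unfold lv
  exact Nat.find_spec (⟨m, DirichletCharacter.FactorsThrough.same_level χ⟩ :
    ∃ j, χ.FactorsThrough (b ^ j))

theorem lv_le {b m : ℕ} (χ : DirichletCharacter ℂ (b ^ m)) {j : ℕ}
    (h : χ.FactorsThrough (b ^ j)) : lv χ ≤ j := by
  classical
  unfold lv
  exact Nat.find_min' _ h

theorem lv_spec {b m : ℕ} (hb : 2 ≤ b) (hm : 1 ≤ m) (χ : DirichletCharacter ℂ (b ^ m))
    (h : ¬ χ.FactorsThrough b) : 2 ≤ lv χ ∧ lv χ ≤ m ∧ χ.FactorsThrough (b ^ lv χ) ∧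
      ¬ χ.FactorsThrough (b ^ (lv χ - 1)) := by
  have hb0 : b ^ m ≠ 0 := pow_ne_zero m (by omega)
  have : NeZero (b ^ m) := ⟨hb0⟩
  have hd : b ∣ b ^ m := dvd_pow_self b (by omega)
  have hspec : χ.FactorsThrough (b ^ lv χ) := lv_factors χ
  refine ⟨?_, lv_le χ (DirichletCharacter.FactorsThrough.same_level χ), hspec, ?_⟩
  · by_contra h2
    apply h
    have h3 : lv χ = 0 ∨ lv χ = 1 := by omega
    rcases h3 with h3 | h3
    · rw [h3, pow_zero] at hspec
      exact DirichletCharacter.FactorsThrough.mono χ hspec (one_dvd b) hd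
    · rw [h3, pow_one] at hspec
      exact hspec
  · intro h4
    have h5 := lv_le χ h4
    have h6 : lv χ = 0 := by omega
    apply h
    rw [h6, pow_zero] at hspec
    exact DirichletCharacter.FactorsThrough.mono χ hspec (one_dvd b) hd

open Classical in
theorem sum_level {b m m' : ℕ} (hb : 2 ≤ b) (hm : 2 ≤ m') (G : DirichletCharacter ℂ (b ^ m) → ℝ)
    (G' : DirichletCharacter ℂ (b ^ m') → ℝ) (h0 : ∀ χ, 0 ≤ G' χ)
    (h : ∀ (χ : DirichletCharacter ℂ (b ^ m)) (hχ : χ.FactorsThrough (b ^ m')), G χ = G' hχ.χ₀) :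
    ∑ χ ∈ (Finset.univ : Finset (DirichletCharacter ℂ (b ^ m))).filter
      (fun χ => lv χ = m'), G χ ≤
    ∑ χ ∈ (Finset.univ : Finset (DirichletCharacter ℂ (b ^ m'))).filter (fun χ => χ ≠ 1), G' χ := by
  set e : DirichletCharacter ℂ (b ^ m) → DirichletCharacter ℂ (b ^ m') := fun χ =>
    if h : χ.FactorsThrough (b ^ m') then h.χ₀ else 1 with he
  have hfac : ∀ χ ∈ (Finset.univ : Finset (DirichletCharacter ℂ (b ^ m))).filter
      (fun χ => lv χ = m'), χ.FactorsThrough (b ^ m') := by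
    intro χ hχ
    have h1 := lv_factors χ
    rwa [(Finset.mem_filter.1 hχ).2] at h1
  have hev : ∀ χ (hχ : χ.FactorsThrough (b ^ m')), e χ = hχ.χ₀ := by
    intro χ hχ
    simp only [he]
    exact dif_pos hχ
  have hinj : Set.InjOn e ((Finset.univ : Finset (DirichletCharacter ℂ (b ^ m))).filter
      (fun χ => lv χ = m') : Finset (DirichletCharacter ℂ (b ^ m))) := by
    intro χ hχ ψ hψ hEq
    have h1 := hfac χ (Finset.mem_coe.1 hχ)
    have h2 := hfac ψ (Finset.mem_coe.1 hψ)
    rw [hev χ h1, hev ψ h2] at hEq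
    rw [h1.eq_changeLevel, h2.eq_changeLevel, hEq]
  calc ∑ χ ∈ (Finset.univ : Finset (DirichletCharacter ℂ (b ^ m))).filter
        (fun χ => lv χ = m'), G χ
      = ∑ χ ∈ (Finset.univ : Finset (DirichletCharacter ℂ (b ^ m))).filter
        (fun χ => lv χ = m'), G' (e χ) := by
        refine Finset.sum_congr rfl fun χ hχ => ?_
        rw [hev χ (hfac χ hχ)]
        exact h χ (hfac χ hχ)
    _ = ∑ ψ ∈ ((Finset.univ : Finset (DirichletCharacter ℂ (b ^ m))).filter
        (fun χ => lv χ = m')).image e, G' ψ := (Finset.sum_image hinj).symm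
    _ ≤ ∑ χ ∈ (Finset.univ : Finset (DirichletCharacter ℂ (b ^ m'))).filter (fun χ => χ ≠ 1),
        G' χ := by
        refine Finset.sum_le_sum_of_subset_of_nonneg ?_ fun χ _ _ => h0 χ
        intro ψ hψ
        obtain ⟨χ, hχ, rfl⟩ := Finset.mem_image.1 hψ
        refine Finset.mem_filter.2 ⟨Finset.mem_univ _, fun h1 => ?_⟩
        have hf := hfac χ hχ
        have h2 : χ = 1 := by
          rw [hf.eq_changeLevel, ← hev χ hf, h1, DirichletCharacter.changeLevel_one]
        have h3 : χ.FactorsThrough (b ^ 0) := by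
          rw [pow_zero]
          exact ⟨one_dvd _, 1, by rw [h2, DirichletCharacter.changeLevel_one]⟩
        have h4 := lv_le χ h3
        have h5 := (Finset.mem_filter.1 hχ).2
        omega

open Classical in
theorem sum_base {b m : ℕ} (hb : 2 ≤ b) (G : DirichletCharacter ℂ (b ^ m) → ℝ)
    (G' : DirichletCharacter ℂ (b ^ 1) → ℝ) (h0 : ∀ χ, 0 ≤ G' χ)
    (h : ∀ (χ : DirichletCharacter ℂ (b ^ m)) (hχ : χ.FactorsThrough (b ^ 1)), G χ = G' hχ.χ₀) :
    ∑ χ ∈ (Finset.univ : Finset (DirichletCharacter ℂ (b ^ m))).filter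
      (fun χ => χ.FactorsThrough b), G χ ≤ ∑ χ : DirichletCharacter ℂ (b ^ 1), G' χ := by
  set e : DirichletCharacter ℂ (b ^ m) → DirichletCharacter ℂ (b ^ 1) := fun χ =>
    if h : χ.FactorsThrough (b ^ 1) then h.χ₀ else 1 with he
  have hfac : ∀ χ ∈ (Finset.univ : Finset (DirichletCharacter ℂ (b ^ m))).filter
      (fun χ => χ.FactorsThrough b), χ.FactorsThrough (b ^ 1) := by
    intro χ hχ
    rw [pow_one]
    exact (Finset.mem_filter.1 hχ).2
  have hev : ∀ χ (hχ : χ.FactorsThrough (b ^ 1)), e χ = hχ.χ₀ := by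
    intro χ hχ
    simp only [he]
    exact dif_pos hχ
  have hinj : Set.InjOn e ((Finset.univ : Finset (DirichletCharacter ℂ (b ^ m))).filter
      (fun χ => χ.FactorsThrough b) : Finset (DirichletCharacter ℂ (b ^ m))) := by
    intro χ hχ ψ hψ hEq
    have h1 := hfac χ (Finset.mem_coe.1 hχ)
    have h2 := hfac ψ (Finset.mem_coe.1 hψ)
    rw [hev χ h1, hev ψ h2] at hEq
    rw [h1.eq_changeLevel, h2.eq_changeLevel, hEq]
  calc ∑ χ ∈ (Finset.univ : Finset (DirichletCharacter ℂ (b ^ m))).filter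
        (fun χ => χ.FactorsThrough b), G χ
      = ∑ χ ∈ (Finset.univ : Finset (DirichletCharacter ℂ (b ^ m))).filter
        (fun χ => χ.FactorsThrough b), G' (e χ) := by
        refine Finset.sum_congr rfl fun χ hχ => ?_
        rw [hev χ (hfac χ hχ)]
        exact h χ (hfac χ hχ)
    _ = ∑ ψ ∈ ((Finset.univ : Finset (DirichletCharacter ℂ (b ^ m))).filter
        (fun χ => χ.FactorsThrough b)).image e, G' ψ := (Finset.sum_image hinj).symm
    _ ≤ ∑ χ : DirichletCharacter ℂ (b ^ 1), G' χ :=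
        Finset.sum_le_sum_of_subset_of_nonneg (Finset.subset_univ _) fun χ _ _ => h0 χ

end Pool.Agent.HPP
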