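import Mathlib

/-!
# HPP/AThree: three regions

`μ` finite measure, `c, P : Ω → ℝ` measurable, `0 ≤ c ≤ s ≤ 1`, `0 ≤ P ≤ B`, `∫ c^4 ≤ E`,
`∫_{P ≥ y} P^p' ≤ A`, `∫ P^p₁ ≤ A`, `1 ≤ p' < 4/3`, `1 ≤ p₁ < 4/3`, `1 ≤ U`, `0 < y ≤ 1/U`. Then
`∫ c P ≤ s U^(p'-1) A + E^(1/4) (U^(-(4/3-p')) A)^(3/4) + E^(1/4) (y^(4/3-p₁) A)^(3/4)`.

Proof. Region I `P ≥ 1/U` (`⊂ {P ≥ y}`): `c P ≤ s P = s P^p' P^(1-p') ≤ s U^(p'-1) P^p'`. Region II
`y ≤ P < 1/U`: Hölder with exponents `4, 4/3` (`MeasureTheory.integral_mul_le_Lp_mul_Lq_of_nonneg`)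
on the restricted measure: `∫ c P ≤ (∫ c^4)^(1/4) (∫ P^(4/3))^(3/4)`, and `P^(4/3) = P^p' P^(4/3-p') ≤
U^(-(4/3-p')) P^p'`. Region III `P < y`: `P^(4/3) ≤ y^(4/3-p₁) P^p₁`. Everything is bounded, so integrable.
(`0 ≤ s` is a hypothesis because `Ω` may be empty.)
-/

namespace Pool.Agent.HPP

open MeasureTheory

/-- Hölder with exponents `4, 4/3` for bounded nonnegative functions, the second factor dominated. -/
private theorem holder_part {Ω : Type*} [MeasurableSpace Ω] (μ : Measure Ω) [IsFiniteMeasure μ]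
    {c g h : Ω → ℝ} (hc : Measurable c) (hg : Measurable g) {s B E K : ℝ}
    (hc0 : ∀ z, 0 ≤ c z) (hcs : ∀ z, c z ≤ s) (hg0 : ∀ z, 0 ≤ g z) (hgB : ∀ z, g z ≤ B)
    (hE : ∫ z, c z ^ 4 ∂μ ≤ E) (hh : Integrable h μ)
    (hgh : ∀ z, g z ^ (4 / 3 : ℝ) ≤ h z) (hK : ∫ z, h z ∂μ ≤ K) :
    ∫ z, c z * g z ∂μ ≤ E ^ (1 / 4 : ℝ) * K ^ (3 / 4 : ℝ) := by
  have hpq : (4 : ℝ).HolderConjugate (4 / 3) := by
    rw [Real.holderConjugate_iff]
    norm_num
  have hcL : MemLp c (ENNReal.ofReal 4) μ :=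
    MemLp.of_bound hc.aestronglyMeasurable s (Filter.Eventually.of_forall fun z => by
      rw [Real.norm_eq_abs, abs_of_nonneg (hc0 z)]; exact hcs z)
  have hgL : MemLp g (ENNReal.ofReal (4 / 3)) μ :=
    MemLp.of_bound hg.aestronglyMeasurable B (Filter.Eventually.of_forall fun z => by
      rw [Real.norm_eq_abs, abs_of_nonneg (hg0 z)]; exact hgB z)
  have h1 := integral_mul_le_Lp_mul_Lq_of_nonneg hpq
    (Filter.Eventually.of_forall hc0) (Filter.Eventually.of_forall hg0) hcL hgL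
  have e4 : (1 / (4 / 3) : ℝ) = 3 / 4 := by norm_num
  rw [e4] at h1
  have h2 : ∫ z, c z ^ (4 : ℝ) ∂μ ≤ E := by
    refine le_trans (le_of_eq (integral_congr_ae (Filter.Eventually.of_forall fun z => ?_))) hE
    have : ((4 : ℕ) : ℝ) = (4 : ℝ) := by norm_num
    simp only
    rw [← this, Real.rpow_natCast]
  have h20 : 0 ≤ ∫ z, c z ^ (4 : ℝ) ∂μ :=
    integral_nonneg fun z => Real.rpow_nonneg (hc0 z) _
  have h3 : ∫ z, g z ^ (4 / 3 : ℝ) ∂μ ≤ K := by
    refine le_trans (integral_mono_of_nonneg (Filter.Eventually.of_forall fun z => ?_) hh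
      (Filter.Eventually.of_forall hgh)) hK
    exact Real.rpow_nonneg (hg0 z) _
  have h30 : 0 ≤ ∫ z, g z ^ (4 / 3 : ℝ) ∂μ :=
    integral_nonneg fun z => Real.rpow_nonneg (hg0 z) _
  refine h1.trans ?_
  exact mul_le_mul (Real.rpow_le_rpow h20 h2 (by norm_num))
    (Real.rpow_le_rpow h30 h3 (by norm_num)) (Real.rpow_nonneg h30 _)
    (Real.rpow_nonneg (h20.trans h2) _)

theorem three_regions {Ω : Type*} [MeasurableSpace Ω] (μ : Measure Ω) [IsFiniteMeasure μ]
    {c P : Ω → ℝ} (hc : Measurable c) (hP : Measurable P) {s E A B U y p' p₁ : ℝ}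
    (hc0 : ∀ z, 0 ≤ c z) (hcs : ∀ z, c z ≤ s) (hP0 : ∀ z, 0 ≤ P z) (hPB : ∀ z, P z ≤ B)
    (hp' : 1 ≤ p') (hp'' : p' < 4 / 3) (hp₁ : 1 ≤ p₁) (hp₁' : p₁ < 4 / 3) (hU : 1 ≤ U)
    (hy : 0 < y) (hyU : y ≤ U⁻¹) (hE : ∫ z, c z ^ 4 ∂μ ≤ E)
    (hA' : ∫ z in {z | y ≤ P z}, P z ^ p' ∂μ ≤ A) (hA : ∫ z, P z ^ p₁ ∂μ ≤ A) (hs0 : 0 ≤ s) :
    ∫ z, c z * P z ∂μ ≤ s * U ^ (p' - 1) * A +
      E ^ (1 / 4 : ℝ) * (U ^ (-(4 / 3 - p')) * A) ^ (3 / 4 : ℝ) +
      E ^ (1 / 4 : ℝ) * (y ^ (4 / 3 - p₁) * A) ^ (3 / 4 : ℝ) := by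
  have hU0 : 0 < U := lt_of_lt_of_le one_pos hU
  set B' : ℝ := max B 0 with hB'
  have hB0 : 0 ≤ B' := le_max_right _ _
  have hPB' : ∀ z, P z ≤ B' := fun z => (hPB z).trans (le_max_left _ _)
  set S : Set Ω := {z | y ≤ P z} with hS
  have hSm : MeasurableSet S := measurableSet_le measurable_const hP
  set S2 : Set Ω := {z | y ≤ P z ∧ P z < U⁻¹} with hS2
  have hS2m : MeasurableSet S2 :=
    (measurableSet_le measurable_const hP).inter (measurableSet_lt hP measurable_const)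
  set S3 : Set Ω := {z | P z < y} with hS3
  have hS3m : MeasurableSet S3 := measurableSet_lt hP measurable_const
  -- the functions
  set F1 : Ω → ℝ := S.indicator (fun z => P z ^ p') with hF1
  set g2 : Ω → ℝ := S2.indicator P with hg2
  set g3 : Ω → ℝ := S3.indicator P with hg3
  have mF1 : Measurable F1 := (hP.pow_const p').indicator hSm
  have mg2 : Measurable g2 := hP.indicator hS2m
  have mg3 : Measurable g3 := hP.indicator hS3m
  have hF10 : ∀ z, 0 ≤ F1 z := fun z =>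
    Set.indicator_nonneg (fun w _ => Real.rpow_nonneg (hP0 w) _) z
  have hg20 : ∀ z, 0 ≤ g2 z := fun z => Set.indicator_nonneg (fun w _ => hP0 w) z
  have hg30 : ∀ z, 0 ≤ g3 z := fun z => Set.indicator_nonneg (fun w _ => hP0 w) z
  have hg2B : ∀ z, g2 z ≤ B' := by
    intro z
    rw [hg2]
    by_cases hz : z ∈ S2
    · rw [Set.indicator_of_mem hz]; exact hPB' z
    · rw [Set.indicator_of_notMem hz]; exact hB0
  have hg3B : ∀ z, g3 z ≤ B' := by
    intro z
    rw [hg3]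
    by_cases hz : z ∈ S3
    · rw [Set.indicator_of_mem hz]; exact hPB' z
    · rw [Set.indicator_of_notMem hz]; exact hB0
  have hpowB : ∀ (q : ℝ), 0 ≤ q → ∀ z, P z ^ q ≤ B' ^ q := fun q hq z =>
    Real.rpow_le_rpow (hP0 z) (hPB' z) hq
  have hF1B : ∀ z, F1 z ≤ B' ^ p' := by
    intro z
    rw [hF1]
    by_cases hz : z ∈ S
    · rw [Set.indicator_of_mem hz]; exact hpowB p' (by linarith) z
    · rw [Set.indicator_of_notMem hz]; exact Real.rpow_nonneg hB0 _
  -- integrability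
  have intB : ∀ (f : Ω → ℝ) (M : ℝ), Measurable f → (∀ z, 0 ≤ f z) → (∀ z, f z ≤ M) →
      Integrable f μ := by
    intro f M hf hf0 hfM
    refine Integrable.of_bound hf.aestronglyMeasurable M (Filter.Eventually.of_forall fun z => ?_)
    rw [Real.norm_eq_abs, abs_of_nonneg (hf0 z)]
    exact hfM z
  have iF1 : Integrable F1 μ := intB F1 _ mF1 hF10 hF1B
  have icg2 : Integrable (fun z => c z * g2 z) μ :=
    intB _ (s * B') (hc.mul mg2) (fun z => mul_nonneg (hc0 z) (hg20 z))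
      (fun z => mul_le_mul (hcs z) (hg2B z) (hg20 z) hs0)
  have icg3 : Integrable (fun z => c z * g3 z) μ :=
    intB _ (s * B') (hc.mul mg3) (fun z => mul_nonneg (hc0 z) (hg30 z))
      (fun z => mul_le_mul (hcs z) (hg3B z) (hg30 z) hs0)
  have iP1 : Integrable (fun z => P z ^ p₁) μ :=
    intB _ (B' ^ p₁) (hP.pow_const p₁) (fun z => Real.rpow_nonneg (hP0 z) _)
      (hpowB p₁ (by linarith))
  have hF1A : ∫ z, F1 z ∂μ ≤ A := by
    rw [hF1, integral_indicator hSm]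
    exact hA'
  -- pointwise bound
  have hpt : ∀ z, c z * P z ≤ s * U ^ (p' - 1) * F1 z + c z * g2 z + c z * g3 z := by
    intro z
    have hU1 : 0 < U ^ (p' - 1) := Real.rpow_pos_of_pos hU0 _
    have hz1 : 0 ≤ s * U ^ (p' - 1) * F1 z := mul_nonneg (mul_nonneg hs0 hU1.le) (hF10 z)
    have hz2 : 0 ≤ c z * g2 z := mul_nonneg (hc0 z) (hg20 z)
    have hz3 : 0 ≤ c z * g3 z := mul_nonneg (hc0 z) (hg30 z)
    rcases lt_or_ge (P z) y with h3 | h3
    · have : g3 z = P z := by rw [hg3, Set.indicator_of_mem (show z ∈ S3 from h3)]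
      rw [this]
      linarith
    · rcases lt_or_ge (P z) U⁻¹ with h2 | h2
      · have : g2 z = P z := by rw [hg2, Set.indicator_of_mem (show z ∈ S2 from ⟨h3, h2⟩)]
        rw [this]
        linarith
      · have hF : F1 z = P z ^ p' := by rw [hF1, Set.indicator_of_mem (show z ∈ S from h3)]
        have hPp : 0 < P z := lt_of_lt_of_le hy h3
        have h4 : P z ≤ U ^ (p' - 1) * P z ^ p' := by
          have h5 : 1 ≤ U * P z := by
            have := mul_le_mul_of_nonneg_left h2 hU0.le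
            rwa [mul_inv_cancel₀ hU0.ne'] at this
          have h6 : 1 ≤ (U * P z) ^ (p' - 1) := Real.one_le_rpow h5 (by linarith)
          rw [Real.mul_rpow hU0.le hPp.le] at h6
          have h7 : P z ^ p' = P z ^ (p' - 1) * P z := by
            rw [← Real.rpow_add_one hPp.ne']
            congr 1
            ring
          rw [h7]
          have h8 := mul_le_mul_of_nonneg_right h6 hPp.le
          linarith [h8]
        have h9 : c z * P z ≤ s * (U ^ (p' - 1) * P z ^ p') :=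
          mul_le_mul (hcs z) h4 hPp.le hs0
        rw [hF]
        rw [hF] at hz1
        nlinarith [h9]
  have hsum : ∫ z, c z * P z ∂μ ≤
      s * U ^ (p' - 1) * ∫ z, F1 z ∂μ + ∫ z, c z * g2 z ∂μ + ∫ z, c z * g3 z ∂μ := by
    have e1 : ∫ z, (s * U ^ (p' - 1) * F1 z + c z * g2 z + c z * g3 z) ∂μ =
        s * U ^ (p' - 1) * ∫ z, F1 z ∂μ + ∫ z, c z * g2 z ∂μ + ∫ z, c z * g3 z ∂μ := by
      have i1 : Integrable (fun z => s * U ^ (p' - 1) * F1 z) μ := iF1.const_mul _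
      have i12 : Integrable (fun z => s * U ^ (p' - 1) * F1 z + c z * g2 z) μ := i1.add icg2
      rw [integral_add i12 icg3, integral_add i1 icg2, integral_const_mul]
    rw [← e1]
    refine integral_mono_of_nonneg (Filter.Eventually.of_forall fun z =>
      mul_nonneg (hc0 z) (hP0 z)) (((iF1.const_mul _).add icg2).add icg3)
      (Filter.Eventually.of_forall hpt)
  -- the second and the third term
  have hUm : 0 ≤ U ^ (-(4 / 3 - p')) := (Real.rpow_pos_of_pos hU0 _).le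
  have t2 : ∫ z, c z * g2 z ∂μ ≤ E ^ (1 / 4 : ℝ) * (U ^ (-(4 / 3 - p')) * A) ^ (3 / 4 : ℝ) := by
    refine holder_part μ hc mg2 hc0 hcs hg20 hg2B hE (h := fun z => U ^ (-(4 / 3 - p')) * F1 z)
      (iF1.const_mul _) (fun z => ?_) ?_
    · by_cases hz : z ∈ S2
      · have hz' : z ∈ S := hz.1
        have hPp : 0 < P z := lt_of_lt_of_le hy hz.1
        simp only [hg2, hF1, Set.indicator_of_mem hz, Set.indicator_of_mem hz']
        have h7 : P z ^ (4 / 3 : ℝ) = P z ^ (4 / 3 - p') * P z ^ p' := by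
          rw [← Real.rpow_add hPp]
          congr 1
          ring
        rw [h7]
        refine mul_le_mul_of_nonneg_right ?_ (Real.rpow_nonneg hPp.le _)
        rw [Real.rpow_neg hU0.le, ← Real.inv_rpow hU0.le]
        exact Real.rpow_le_rpow hPp.le hz.2.le (by linarith)
      · simp only [hg2, Set.indicator_of_notMem hz]
        rw [Real.zero_rpow (by norm_num)]
        exact mul_nonneg hUm (hF10 z)
    · rw [integral_const_mul]
      exact mul_le_mul_of_nonneg_left hF1A hUm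
  have hym : 0 ≤ y ^ (4 / 3 - p₁) := (Real.rpow_pos_of_pos hy _).le
  have t3 : ∫ z, c z * g3 z ∂μ ≤ E ^ (1 / 4 : ℝ) * (y ^ (4 / 3 - p₁) * A) ^ (3 / 4 : ℝ) := by
    refine holder_part μ hc mg3 hc0 hcs hg30 hg3B hE (h := fun z => y ^ (4 / 3 - p₁) * P z ^ p₁)
      (iP1.const_mul _) (fun z => ?_) ?_
    · by_cases hz : z ∈ S3
      · simp only [hg3, Set.indicator_of_mem hz]
        rcases eq_or_lt_of_le (hP0 z) with h0 | hPp
        · rw [← h0, Real.zero_rpow (by norm_num)]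
          exact mul_nonneg hym (Real.rpow_nonneg le_rfl _)
        · have h7 : P z ^ (4 / 3 : ℝ) = P z ^ (4 / 3 - p₁) * P z ^ p₁ := by
            rw [← Real.rpow_add hPp]
            congr 1
            ring
          rw [h7]
          refine mul_le_mul_of_nonneg_right ?_ (Real.rpow_nonneg hPp.le _)
          exact Real.rpow_le_rpow hPp.le (le_of_lt hz) (by linarith)
      · simp only [hg3, Set.indicator_of_notMem hz]
        rw [Real.zero_rpow (by norm_num)]
        exact mul_nonneg hym (Real.rpow_nonneg (hP0 z) _)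
    · rw [integral_const_mul]
      exact mul_le_mul_of_nonneg_left hA hym
  have t1 : s * U ^ (p' - 1) * ∫ z, F1 z ∂μ ≤ s * U ^ (p' - 1) * A :=
    mul_le_mul_of_nonneg_left hF1A (mul_nonneg hs0 (Real.rpow_pos_of_pos hU0 _).le)
  linarith

end Pool.Agent.HPP
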