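import Pool.Agent.HPP.ADefs
import Pool.Agent.HPP.ALev
import Pool.Agent.HPP.AThree

/-!
# HPP/ACell: the contribution of one cell

`S` a finite set of characters mod `b^m`, `J` an interval or measurable set of `t`, `|t| ≤ T`.
`c = ‖cc‖/#RR ≤ s` on `S × J`, the energy `∑_{all χ} ∫_{-T}^T ‖cc‖^4 ≤ E #RR^4`, and for
`P = ‖PP‖/x`: `∑_{χ ∈ S} ∫_J P^p₁ ≤ A`, `∑_{χ ∈ S} ∫_{J ∩ {P ≥ y}} P^p' ≤ A`. Then
`∑_{χ ∈ S} ∫_J ‖cc‖ ‖PP‖ ≤ #RR x (s U^(p'-1) A + E^(1/4) (U^(-(4/3-p')) A)^(3/4) + E^(1/4) (y^(4/3-p₁) A)^(3/4))`.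

Proof. `three_regions` on `Ω = X × ℝ`, `X` the finite type of characters with the discrete measurable space `⊤`,
`μ = ∑_{χ ∈ S}` of the images of `volume.restrict J` under `t ↦ (χ, t)` (`cell_abs`); `c` is replaced by `min c s`.
Measurability in `t` for each `χ` from `PP_continuous`, `cc_continuous`; boundedness `PP_bound`, `cc_le`.
-/

namespace Pool.Agent.HPP

open MeasureTheory

/-- integrals over finitely many copies of `J` -/
private theorem int_fin {X : Type*} [MeasurableSpace X] [Countable X] [MeasurableSingletonClass X]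
    (S : Finset X) {J : Set ℝ} (hfin : volume J ≠ ⊤) {f : X × ℝ → ℝ} (hf : Measurable f) {M : ℝ}
    (hM : ∀ z, |f z| ≤ M) :
    ∫ z, f z ∂(∑ χ ∈ S, Measure.map (fun t : ℝ => (χ, t)) (volume.restrict J)) =
      ∑ χ ∈ S, ∫ t in J, f (χ, t) := by
  haveI : IsFiniteMeasure (volume.restrict J : Measure ℝ) := ⟨by simpa using hfin.lt_top⟩
  rw [integral_finsetSum_measure]
  · refine Finset.sum_congr rfl fun χ _ => ?_
    rw [integral_map measurable_prodMk_left.aemeasurable hf.aestronglyMeasurable]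
  · intro χ _
    haveI : IsFiniteMeasure (Measure.map (fun t : ℝ => (χ, t)) (volume.restrict J)) :=
      Measure.isFiniteMeasure_map _ _
    exact Integrable.of_bound hf.aestronglyMeasurable M (Filter.Eventually.of_forall hM)

private theorem cell_abs {X : Type*} [Fintype X] (S : Finset X) {J : Set ℝ}
    (hJ : MeasurableSet J) {T : ℝ} (hT : 0 < T) (hJT : J ⊆ Set.Icc (-T) T)
    {c P : X → ℝ → ℝ} {s E A B U y p' p₁ : ℝ} (hc : ∀ χ, Continuous (c χ))
    (hP : ∀ χ, Continuous (P χ)) (hc0 : ∀ χ t, 0 ≤ c χ t) (hP0 : ∀ χ t, 0 ≤ P χ t)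
    (hPB : ∀ χ t, P χ t ≤ B) (hs : ∀ χ ∈ S, ∀ t ∈ J, c χ t ≤ s)
    (hp' : 1 ≤ p') (hp'' : p' < 4 / 3) (hp₁ : 1 ≤ p₁) (hp₁' : p₁ < 4 / 3) (hU : 1 ≤ U)
    (hy : 0 < y) (hyU : y ≤ U⁻¹) (hs0 : 0 ≤ s)
    (hE : ∑ χ, ∫ t in (-T)..T, c χ t ^ 4 ≤ E)
    (hA' : ∑ χ ∈ S, ∫ t in J ∩ {t | y ≤ P χ t}, P χ t ^ p' ≤ A)
    (hA : ∑ χ ∈ S, ∫ t in J, P χ t ^ p₁ ≤ A) :
    ∑ χ ∈ S, ∫ t in J, c χ t * P χ t ≤ s * U ^ (p' - 1) * A +
      E ^ (1 / 4 : ℝ) * (U ^ (-(4 / 3 - p')) * A) ^ (3 / 4 : ℝ) +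
      E ^ (1 / 4 : ℝ) * (y ^ (4 / 3 - p₁) * A) ^ (3 / 4 : ℝ) := by
  classical
  letI : MeasurableSpace X := ⊤
  haveI : MeasurableSingletonClass X := ⟨fun _ => trivial⟩
  have hfin : volume J ≠ ⊤ := by
    refine ne_top_of_le_ne_top ?_ (measure_mono hJT)
    rw [Real.volume_Icc]; exact ENNReal.ofReal_ne_top
  haveI : IsFiniteMeasure (volume.restrict J : Measure ℝ) := ⟨by simpa using hfin.lt_top⟩
  set μ : Measure (X × ℝ) := ∑ χ ∈ S, Measure.map (fun t : ℝ => (χ, t)) (volume.restrict J) with hμ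
  haveI : IsFiniteMeasure μ := by
    constructor
    rw [hμ, Measure.finsetSum_apply]
    refine ENNReal.sum_lt_top.2 fun χ _ => ?_
    haveI : IsFiniteMeasure (Measure.map (fun t : ℝ => (χ, t)) (volume.restrict J)) :=
      Measure.isFiniteMeasure_map _ _
    exact measure_lt_top _ _
  set c1 : X × ℝ → ℝ := fun z => min (c z.1 z.2) s with hc1
  set P1 : X × ℝ → ℝ := fun z => P z.1 z.2 with hP1
  have mc1 : Measurable c1 :=
    measurable_from_prod_countable_right fun χ => ((hc χ).measurable.min measurable_const)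
  have mP1 : Measurable P1 := measurable_from_prod_countable_right fun χ => (hP χ).measurable
  have c10 : ∀ z, 0 ≤ c1 z := fun z => le_min (hc0 _ _) hs0
  have c1s : ∀ z, c1 z ≤ s := fun z => min_le_right _ _
  have hB0 : ∀ z, |P1 z| ≤ max B 0 := fun z => by
    rw [abs_of_nonneg (hP0 _ _)]; exact (hPB _ _).trans (le_max_left _ _)
  have hpow : ∀ q : ℝ, 0 ≤ q → ∀ z, |P1 z ^ q| ≤ (max B 0) ^ q := by
    intro q hq z
    rw [abs_of_nonneg (Real.rpow_nonneg (hP0 _ _) _)]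
    exact Real.rpow_le_rpow (hP0 _ _) ((hPB _ _).trans (le_max_left _ _)) hq
  -- the energy
  have e1 : ∫ z, c1 z ^ 4 ∂μ ≤ E := by
    have h1 := int_fin S hfin (f := fun z => c1 z ^ 4) (mc1.pow_const 4) (M := s ^ 4) (fun z => by
      rw [abs_of_nonneg (pow_nonneg (c10 z) 4)]; exact pow_le_pow_left₀ (c10 z) (c1s z) 4)
    rw [← hμ] at h1
    rw [h1]
    refine le_trans ?_ hE
    have h2 : ∀ χ, (∫ t in J, c1 (χ, t) ^ 4) ≤ ∫ t in (-T)..T, c χ t ^ 4 := by
      intro χ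
      have hcont : Continuous fun t => c χ t ^ 4 := (hc χ).pow 4
      have hint : IntegrableOn (fun t => c χ t ^ 4) (Set.Icc (-T) T) :=
        hcont.continuousOn.integrableOn_Icc
      rw [intervalIntegral.integral_of_le (by linarith), ← integral_Icc_eq_integral_Ioc]
      calc (∫ t in J, c1 (χ, t) ^ 4) ≤ ∫ t in J, c χ t ^ 4 := by
            refine setIntegral_mono_on ?_ (hint.mono_set hJT) hJ ?_
            · refine Integrable.of_bound (C := s ^ 4)
                (((mc1.comp measurable_prodMk_left).pow_const 4).aestronglyMeasurable)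
                (Filter.Eventually.of_forall fun t => ?_)
              rw [Real.norm_eq_abs, abs_of_nonneg (pow_nonneg (c10 _) 4)]
              exact pow_le_pow_left₀ (c10 _) (c1s _) 4
            · intro t _
              exact pow_le_pow_left₀ (c10 _) (min_le_left _ _) 4
        _ ≤ ∫ t in Set.Icc (-T) T, c χ t ^ 4 := by
            refine setIntegral_mono_set hint ?_ (HasSubset.Subset.eventuallyLE hJT)
            exact Filter.Eventually.of_forall fun t => pow_nonneg (hc0 _ _) 4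
    have h3 : ∀ χ, 0 ≤ ∫ t in (-T)..T, c χ t ^ 4 := fun χ =>
      intervalIntegral.integral_nonneg (by linarith) fun t _ => pow_nonneg (hc0 _ _) 4
    exact (Finset.sum_le_sum fun χ _ => h2 χ).trans
      (Finset.sum_le_sum_of_subset_of_nonneg (Finset.subset_univ S) fun χ _ _ => h3 χ)
  have e2 : ∫ z in {z | y ≤ P1 z}, P1 z ^ p' ∂μ ≤ A := by
    have hset : MeasurableSet {z | y ≤ P1 z} := measurableSet_le measurable_const mP1
    have h0 : ∀ z, |({z | y ≤ P1 z} : Set (X × ℝ)).indicator (fun z => P1 z ^ p') z| ≤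
        (max B 0) ^ p' := by
      intro z
      by_cases hz : z ∈ ({z | y ≤ P1 z} : Set (X × ℝ))
      · rw [Set.indicator_of_mem hz]; exact hpow p' (by linarith) z
      · rw [Set.indicator_of_notMem hz, abs_zero]
        exact Real.rpow_nonneg (le_max_right _ _) _
    have h1 := int_fin S hfin (f := ({z | y ≤ P1 z} : Set (X × ℝ)).indicator
      (fun z => P1 z ^ p')) ((mP1.pow_const p').indicator hset) (M := (max B 0) ^ p') h0
    rw [← hμ, integral_indicator hset] at h1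
    rw [h1]
    refine le_trans (le_of_eq ?_) hA'
    refine Finset.sum_congr rfl fun χ _ => ?_
    have hs2 : MeasurableSet {t | y ≤ P χ t} :=
      measurableSet_le measurable_const (hP χ).measurable
    rw [← setIntegral_indicator hs2]
    rfl
  have e3 : ∫ z, P1 z ^ p₁ ∂μ ≤ A := by
    have h1 := int_fin S hfin (f := fun z => P1 z ^ p₁) (mP1.pow_const p₁)
      (M := (max B 0) ^ p₁) (hpow p₁ (by linarith))
    rw [← hμ] at h1
    rw [h1]
    exact hA
  have h1 := three_regions μ mc1 mP1 c10 c1s (fun z => hP0 _ _) (fun z => hPB z.1 z.2)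
    hp' hp'' hp₁ hp₁' hU hy hyU e1 e2 e3 hs0
  refine le_trans (le_of_eq ?_) h1
  have h2 := int_fin S hfin (f := fun z => c1 z * P1 z) (mc1.mul mP1) (M := s * max B 0) (fun z => by
    rw [abs_mul, abs_of_nonneg (c10 z)]
    exact mul_le_mul (c1s z) (hB0 z) (abs_nonneg _) hs0)
  rw [← hμ] at h2
  rw [h2]
  refine Finset.sum_congr rfl fun χ hχ => ?_
  refine setIntegral_congr_fun hJ fun t ht => ?_
  simp only [hc1, hP1]
  rw [min_eq_left (hs χ hχ t ht)]

private theorem RR_pos {b p m : ℕ} (hb : Bas b p) (F : Finset ℕ) : 0 < (RR b p m F).card := by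
  rw [Finset.card_pos]
  unfold RR
  rw [Fintype.piFinset_nonempty]
  intro i
  have h3 := hb.three
  unfold Sd
  split_ifs
  · exact Finset.singleton_nonempty _
  · exact ⟨(0, 0), by simp; omega⟩
  · refine Finset.Nonempty.image ⟨0, ?_⟩ _
    rw [Finset.mem_range]; omega

theorem cell {b p m : ℕ} (hb : Bas b p) (hm : 1 ≤ m) {F : Finset ℕ} {V : ℝ → ℝ}
    (hV : ∀ y, 0 ≤ V y ∧ V y ≤ 1) (S : Finset (DirichletCharacter ℂ (b ^ m))) {J : Set ℝ}
    (hJ : MeasurableSet J) {T x : ℝ} (hx : 1 ≤ x) (hT : 0 < T) (hJT : J ⊆ Set.Icc (-T) T)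
    {s E A U y p' p₁ : ℝ}
    (hs : ∀ χ ∈ S, ∀ t ∈ J, ‖cc b p F V χ t‖ ≤ s * (RR b p m F).card)
    (hp' : 1 ≤ p') (hp'' : p' < 4 / 3) (hp₁ : 1 ≤ p₁) (hp₁' : p₁ < 4 / 3) (hU : 1 ≤ U)
    (hy : 0 < y) (hyU : y ≤ U⁻¹) (hs0 : 0 ≤ s)
    (hE : ∑ χ : DirichletCharacter ℂ (b ^ m), ∫ t in (-T)..T, ‖cc b p F V χ t‖ ^ 4 ≤
      E * ((RR b p m F).card : ℝ) ^ 4)
    (hA' : ∑ χ ∈ S, ∫ t in J ∩ {t | y ≤ ‖PP χ t x‖ / x}, (‖PP χ t x‖ / x) ^ p' ≤ A)
    (hA : ∑ χ ∈ S, ∫ t in J, (‖PP χ t x‖ / x) ^ p₁ ≤ A) :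
    ∑ χ ∈ S, ∫ t in J, ‖cc b p F V χ t‖ * ‖PP χ t x‖ ≤
      (RR b p m F).card * x * (s * U ^ (p' - 1) * A +
      E ^ (1 / 4 : ℝ) * (U ^ (-(4 / 3 - p')) * A) ^ (3 / 4 : ℝ) +
      E ^ (1 / 4 : ℝ) * (y ^ (4 / 3 - p₁) * A) ^ (3 / 4 : ℝ)) := by
  set R : ℝ := ((RR b p m F).card : ℝ) with hR
  have hR0 : 0 < R := by rw [hR]; exact_mod_cast RR_pos hb F
  have hx0 : 0 < x := by linarith
  obtain ⟨C, hC1, hC⟩ := PP_bound
  have hE' : ∑ χ : DirichletCharacter ℂ (b ^ m), ∫ t in (-T)..T, (‖cc b p F V χ t‖ / R) ^ 4 ≤ E := by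
    have h1 : ∀ χ : DirichletCharacter ℂ (b ^ m), (∫ t in (-T)..T, (‖cc b p F V χ t‖ / R) ^ 4) =
        (∫ t in (-T)..T, ‖cc b p F V χ t‖ ^ 4) / R ^ 4 := by
      intro χ
      rw [← intervalIntegral.integral_div]
      refine intervalIntegral.integral_congr fun t _ => ?_
      simp only [div_pow]
    rw [Finset.sum_congr rfl fun χ _ => h1 χ, ← Finset.sum_div, div_le_iff₀ (pow_pos hR0 4)]
    exact hE
  have h1 := cell_abs S hJ hT hJT (c := fun χ t => ‖cc b p F V χ t‖ / R)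
    (P := fun χ t => ‖PP χ t x‖ / x) (s := s) (E := E) (A := A) (B := C) (U := U) (y := y)
    (p' := p') (p₁ := p₁)
    (fun χ => (cc_continuous hb hm F V χ).norm.div_const R)
    (fun χ => (PP_continuous χ hx0).norm.div_const x)
    (fun χ t => div_nonneg (norm_nonneg _) hR0.le)
    (fun χ t => div_nonneg (norm_nonneg _) hx0.le)
    (fun χ t => by rw [div_le_iff₀ hx0]; exact hC _ χ t x hx)
    (fun χ hχ t ht => by rw [div_le_iff₀ hR0]; exact hs χ hχ t ht)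
    hp' hp'' hp₁ hp₁' hU hy hyU hs0 hE' hA' hA
  have h2 : ∑ χ ∈ S, ∫ t in J, ‖cc b p F V χ t‖ * ‖PP χ t x‖ =
      R * x * ∑ χ ∈ S, ∫ t in J, ‖cc b p F V χ t‖ / R * (‖PP χ t x‖ / x) := by
    rw [Finset.mul_sum]
    refine Finset.sum_congr rfl fun χ _ => ?_
    rw [← integral_const_mul]
    refine integral_congr_ae (Filter.Eventually.of_forall fun t => ?_)
    simp only
    field_simp
  rw [h2]
  exact mul_le_mul_of_nonneg_left h1 (mul_nonneg hR0.le hx0.le)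

end Pool.Agent.HPP
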