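import Pool.Agent.HPP.ADefs
import Pool.Agent.HPP.EBas

/-!
# HPP/ACount: from the weighted sum to the number of primes (`CountProp`)

If `nw n ≠ 0` there is `ω ∈ RR` with `n ≡ low mod b^m`, `wt ω ≠ 0` and `η(q (log n - log(h top))) ≠ 0`,
`q = b^m`, `h = b^(k-m)`: `0 < q log(n/(h top)) < 1/2`, so `h top < n < h top e^(1/(2q)) < h (top + 1)`
because `top < b^m = q` (`e^(1/(2q)) < 1 + 1/q ≤ 1 + 1/top`). So `n / b^(k-m) = top` and `n % b^m = low`
(`low < b^m`): the last `m` digits of `n` are `(ω i).1` and the first `m` digits `(ω i).2`, i.e.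
`digit i = (ω i).1`, `digit (k-1-i) = (ω i).2` for `i < m` (`2m ≤ k`; `b^(k-1) ≤ n < b^k` as
`p b^(m-1) ≤ top < b^m`), equal for `i ∉ F` (definition of `Sd`). `n` determines `ω` (low_inj, top_inj), so
`nw n ≤ 1` (one term, `wt ≤ 1`, `η ≤ 1`). Hence `SSum = ∑_{b^(k-1) ≤ n < b^k} Λ(n) (weight ≤ 1) nw n ≤
(k log b) #{n prime with the digit property} + ∑_{n < b^k, n prime power, not prime} Λ(n)`, and the number
of the latter is `≤ ∑_{j=2}^{log₂ b^k} b^(k/j) ≤ (k log b/log 2) b^(k/2) ≤ 2 k log b b^(k/2)`. (`digit` =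
`(Nat.digits b n).getD i 0 = n / b^i % b`: `Nat.getD_digits`.)
-/

namespace Pool.Agent.HPP

private theorem digit_ext64 {b : ℕ} : ∀ {m : ℕ} (f : Fin m → ℕ), (∀ i, f i < b) → ∀ j : Fin m,
    (∑ i, f i * b ^ (i : ℕ)) / b ^ (j : ℕ) % b = f j := by
  intro m
  induction m with
  | zero => intro f _ j; exact j.elim0
  | succ n ih =>
    intro f hf j
    have hb : 0 < b := lt_of_le_of_lt (Nat.zero_le _) (hf 0)
    have hs : ∑ i, f i * b ^ (i : ℕ)
        = f 0 + b * ∑ i : Fin n, f (Fin.succ i) * b ^ (i : ℕ) := by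
      rw [Fin.sum_univ_succ, Finset.mul_sum]
      congr 1
      · simp
      · refine Finset.sum_congr rfl fun i _ => ?_
        rw [Fin.val_succ]
        ring
    rw [hs]
    refine Fin.cases ?_ (fun j => ?_) j
    · simp only [Fin.val_zero, pow_zero, Nat.div_one]
      rw [Nat.add_mul_mod_self_left, Nat.mod_eq_of_lt (hf 0)]
    · rw [Fin.val_succ, pow_succ', ← Nat.div_div_eq_div_mul, Nat.add_mul_div_left _ _ hb,
        Nat.div_eq_of_lt (hf 0), zero_add]
      exact ih (fun i => f (Fin.succ i)) (fun i => hf _) j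

private theorem topv_rev64 (b : ℕ) {m : ℕ} (ω : Fin m → ℕ × ℕ) :
    topv b ω = ∑ i : Fin m, (ω (Fin.rev i)).2 * b ^ (i : ℕ) := by
  unfold topv
  rw [← Equiv.sum_comp Fin.revPerm]
  refine Finset.sum_congr rfl fun i _ => ?_
  rw [Fin.revPerm_apply, Fin.val_rev]
  have : m - 1 - (m - ((i : ℕ) + 1)) = i := by have := i.isLt; omega
  rw [this]

private theorem low_digit64 {b p m : ℕ} {F : Finset ℕ} (h : Bas b p) {ω : Fin m → ℕ × ℕ}
    (hω : ω ∈ RR b p m F) (i : Fin m) : lowv b ω / b ^ (i : ℕ) % b = (ω i).1 :=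
  digit_ext64 (fun i => (ω i).1) (fun i => (digit_lt h hω i).1) i

private theorem top_digit64 {b p m : ℕ} {F : Finset ℕ} (h : Bas b p) {ω : Fin m → ℕ × ℕ}
    (hω : ω ∈ RR b p m F) (i : Fin m) : topv b ω / b ^ (m - 1 - (i : ℕ)) % b = (ω i).2 := by
  rw [topv_rev64]
  have h1 := digit_ext64 (fun i => (ω (Fin.rev i)).2) (fun i => (digit_lt h hω _).2) (Fin.rev i)
  rw [Fin.val_rev] at h1
  have h2 : m - ((i : ℕ) + 1) = m - 1 - (i : ℕ) := by omega
  rw [h2] at h1
  simpa only [Fin.rev_rev] using h1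

/-- the basic localisation -/
private theorem loc64 {V₀ η : ℝ → ℝ} (hB : Bp V₀ η) {b p m k : ℕ} {F : Finset ℕ} (h : Bas b p)
    (hm : 1 ≤ m) (hk : 2 * m ≤ k) {ω : Fin m → ℕ × ℕ} (hω : ω ∈ RR b p m F) {n : ℕ}
    (hη : η ((b : ℝ) ^ m * (Real.log n - Real.log ((b : ℝ) ^ (k - m) * topv b ω))) ≠ 0) :
    b ^ (k - m) * topv b ω < n ∧ n < b ^ (k - m) * (topv b ω + 1) := by
  have hb3 := h.three
  have hbR : (3 : ℝ) ≤ (b : ℝ) := by exact_mod_cast hb3
  have hb0 : (0 : ℝ) < (b : ℝ) := by linarith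
  have hp1 : 1 ≤ p := h.prime.one_lt.le
  obtain ⟨ht1, ht2, ht3⟩ := top_bounds h hm hω
  have hτ1 : 1 ≤ topv b ω := by
    refine le_trans ?_ ht1
    have : 0 < p * b ^ (m - 1) := Nat.mul_pos hp1 (pow_pos (by omega) _)
    omega
  have hτR : (1 : ℝ) ≤ (topv b ω : ℝ) := by exact_mod_cast hτ1
  have hτ0 : (0 : ℝ) < (topv b ω : ℝ) := by linarith
  have hq : (topv b ω : ℝ) + 1 ≤ (b : ℝ) ^ m := by exact_mod_cast ht3
  have hq0 : (0 : ℝ) < (b : ℝ) ^ m := pow_pos hb0 _
  have hh1 : (1 : ℝ) ≤ (b : ℝ) ^ (k - m) := one_le_pow₀ (by linarith)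
  have hh0 : (0 : ℝ) < (b : ℝ) ^ (k - m) := by linarith
  have hprod : (1 : ℝ) ≤ (b : ℝ) ^ (k - m) * topv b ω := by nlinarith
  have hmem : (b : ℝ) ^ m * (Real.log n - Real.log ((b : ℝ) ^ (k - m) * topv b ω)) ∈
      Set.Ioo (0 : ℝ) (1 / 2) := hB.e_supp (subset_tsupport _ hη)
  obtain ⟨hl, hr⟩ := hmem
  have hl' : 0 < Real.log n - Real.log ((b : ℝ) ^ (k - m) * topv b ω) := by
    by_contra hc
    push Not at hc
    have := mul_nonpos_of_nonneg_of_nonpos hq0.le hc
    linarith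
  have hlog0 : 0 ≤ Real.log ((b : ℝ) ^ (k - m) * topv b ω) := Real.log_nonneg hprod
  have hn0 : (0 : ℝ) < (n : ℝ) := by
    rcases Nat.eq_zero_or_pos n with h0 | h0
    · exfalso
      rw [h0, Nat.cast_zero, Real.log_zero] at hl'
      linarith
    · exact_mod_cast h0
  have h1 : (b : ℝ) ^ (k - m) * topv b ω < (n : ℝ) := by
    rw [← Real.log_lt_log_iff (by linarith) hn0]
    linarith
  have h2 : (n : ℝ) < (b : ℝ) ^ (k - m) * (topv b ω + 1) := by
    rw [← Real.log_lt_log_iff hn0 (by positivity), Real.log_mul hh0.ne' (by linarith)]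
    rw [Real.log_mul hh0.ne' hτ0.ne'] at hr
    have h3 : 1 / (b : ℝ) ^ m ≤ Real.log ((topv b ω : ℝ) + 1) - Real.log (topv b ω) := by
      rw [← Real.log_div (by linarith) hτ0.ne']
      have h4 := Real.one_sub_inv_le_log_of_pos (x := ((topv b ω : ℝ) + 1) / topv b ω)
        (by positivity)
      have h5 : 1 - (((topv b ω : ℝ) + 1) / topv b ω)⁻¹ = 1 / ((topv b ω : ℝ) + 1) := by
        field_simp
        ring
      rw [h5] at h4
      refine le_trans ?_ h4
      exact one_div_le_one_div_of_le (by linarith) hq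
    have h6 : (b : ℝ) ^ m * (Real.log n - (Real.log ((b : ℝ) ^ (k - m)) +
        Real.log (topv b ω))) < (b : ℝ) ^ m * (1 / (b : ℝ) ^ m) := by
      rw [mul_one_div_cancel hq0.ne']
      linarith
    have h7 := lt_of_mul_lt_mul_left h6 hq0.le
    linarith
  constructor
  · exact_mod_cast h1
  · exact_mod_cast h2

private theorem div64 {V₀ η : ℝ → ℝ} (hB : Bp V₀ η) {b p m k : ℕ} {F : Finset ℕ} (h : Bas b p)
    (hm : 1 ≤ m) (hk : 2 * m ≤ k) {ω : Fin m → ℕ × ℕ} (hω : ω ∈ RR b p m F) {n : ℕ}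
    (hη : η ((b : ℝ) ^ m * (Real.log n - Real.log ((b : ℝ) ^ (k - m) * topv b ω))) ≠ 0) :
    n / b ^ (k - m) = topv b ω := by
  obtain ⟨h1, h2⟩ := loc64 hB h hm hk hω hη
  refine Nat.div_eq_of_lt_le ?_ ?_
  · rw [mul_comm]; exact h1.le
  · rw [mul_comm]; exact h2

private theorem mod64 {b p m : ℕ} {F : Finset ℕ} (h : Bas b p)
    {ω : Fin m → ℕ × ℕ} (hω : ω ∈ RR b p m F) {n : ℕ}
    (hn : n ≡ lowv b ω [MOD b ^ m]) : n % b ^ m = lowv b ω := by
  unfold Nat.ModEq at hn
  rw [hn, Nat.mod_eq_of_lt (low_lt h hω)]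

/-- the digit property -/
private theorem digits64 {V₀ η : ℝ → ℝ} (hB : Bp V₀ η) {b p m k : ℕ} {F : Finset ℕ} (h : Bas b p)
    (hm : 1 ≤ m) (hk : 2 * m ≤ k) {ω : Fin m → ℕ × ℕ} (hω : ω ∈ RR b p m F) {n : ℕ}
    (hn : n ≡ lowv b ω [MOD b ^ m])
    (hη : η ((b : ℝ) ^ m * (Real.log n - Real.log ((b : ℝ) ^ (k - m) * topv b ω))) ≠ 0)
    (hF0 : 0 ∉ F) :
    n < b ^ k ∧ b ^ (k - 1) ≤ n ∧
      ∀ i < m, i ∉ F → (Nat.digits b n).getD i 0 = (Nat.digits b n).getD (k - 1 - i) 0 := by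
  have hb3 := h.three
  have hp1 : 1 ≤ p := h.prime.one_lt.le
  obtain ⟨h1, h2⟩ := loc64 hB h hm hk hω hη
  have hd := div64 hB h hm hk hω hη
  have hmod := mod64 h hω hn
  obtain ⟨ht1, ht2, ht3⟩ := top_bounds h hm hω
  refine ⟨?_, ?_, ?_⟩
  · refine lt_of_lt_of_le h2 ?_
    calc b ^ (k - m) * (topv b ω + 1) ≤ b ^ (k - m) * b ^ m := Nat.mul_le_mul_left _ ht3
      _ = b ^ k := by rw [← pow_add]; congr 1; omega
  · refine le_trans ?_ h1.le
    calc b ^ (k - 1) = b ^ (k - m) * (1 * b ^ (m - 1)) := by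
          rw [one_mul, ← pow_add]; congr 1; omega
      _ ≤ b ^ (k - m) * (p * b ^ (m - 1)) :=
          Nat.mul_le_mul_left _ (Nat.mul_le_mul_right _ hp1)
      _ ≤ b ^ (k - m) * topv b ω := Nat.mul_le_mul_left _ ht1
  · intro i hi hiF
    rw [Nat.getD_digits n i (by omega), Nat.getD_digits n (k - 1 - i) (by omega)]
    have e1 : n / b ^ i % b = (ω ⟨i, hi⟩).1 := by
      have h3 := low_digit64 h hω ⟨i, hi⟩
      simp only at h3
      rw [← h3, ← hmod]
      have h4 : n = n % b ^ m + b ^ i * (b ^ (m - i) * (n / b ^ m)) := by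
        rw [← mul_assoc, ← pow_add]
        have : i + (m - i) = m := by omega
        rw [this]
        exact (Nat.mod_add_div n (b ^ m)).symm
      have h5 : n / b ^ i = n % b ^ m / b ^ i + b ^ (m - i) * (n / b ^ m) := by
        conv_lhs => rw [h4]
        rw [Nat.add_mul_div_left _ _ (pow_pos (by omega) i)]
      rw [h5]
      obtain ⟨c, hc⟩ : ∃ c, m - i = c + 1 := ⟨m - i - 1, by omega⟩
      rw [hc, pow_succ', mul_assoc, Nat.add_mul_mod_self_left]
    have e2 : n / b ^ (k - 1 - i) % b = (ω ⟨i, hi⟩).2 := by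
      have h3 := top_digit64 h hω ⟨i, hi⟩
      simp only at h3
      rw [← h3, ← hd, Nat.div_div_eq_div_mul, ← pow_add]
      congr 3
      omega
    rw [e1, e2]
    have h1 : ω ⟨i, hi⟩ ∈ Sd b p F i := (Fintype.mem_piFinset.mp hω) ⟨i, hi⟩
    unfold Sd at h1
    split_ifs at h1 with h0
    · rw [Finset.mem_singleton] at h1
      rw [h1]
    · rw [Finset.mem_image] at h1
      obtain ⟨d, hd, he⟩ := h1
      rw [← he]

/-- the weight is `0`, or in `[0, 1]` and `n` has the digit property -/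
private theorem nw_cases64 {V₀ η : ℝ → ℝ} (hB : Bp V₀ η) {b p m k : ℕ} {F : Finset ℕ}
    (h : Bas b p) (hF : F ⊆ Finset.Ico 1 m) (hm : 1 ≤ m) (hk : 2 * m ≤ k) (n : ℕ) :
    nw b p m k F (fun y => V₀ (y - p)) η n = 0 ∨
    (0 ≤ nw b p m k F (fun y => V₀ (y - p)) η n ∧ nw b p m k F (fun y => V₀ (y - p)) η n ≤ 1 ∧
      n < b ^ k ∧ b ^ (k - 1) ≤ n ∧
      ∀ i < m, i ∉ F → (Nat.digits b n).getD i 0 = (Nat.digits b n).getD (k - 1 - i) 0) := by
  by_cases hex : ∃ ω ∈ RR b p m F, wt b (fun y => V₀ (y - p)) ω *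
      (if n ≡ lowv b ω [MOD b ^ m] then
      η ((b : ℝ) ^ m * (Real.log n - Real.log ((b : ℝ) ^ (k - m) * topv b ω))) else 0) ≠ 0
  · right
    obtain ⟨ω, hω, hne⟩ := hex
    have hne2 := right_ne_zero_of_mul hne
    have hmodω : n ≡ lowv b ω [MOD b ^ m] := by
      by_contra hc
      exact hne2 (if_neg hc)
    rw [if_pos hmodω] at hne2
    have hF0 : 0 ∉ F := by
      intro h0
      have := Finset.mem_Ico.mp (hF h0)
      omega
    have hval : nw b p m k F (fun y => V₀ (y - p)) η n = wt b (fun y => V₀ (y - p)) ω *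
        (if n ≡ lowv b ω [MOD b ^ m] then
        η ((b : ℝ) ^ m * (Real.log n - Real.log ((b : ℝ) ^ (k - m) * topv b ω))) else 0) := by
      unfold nw
      refine Finset.sum_eq_single_of_mem ω hω fun ω' hω' hne' => ?_
      by_contra hc
      apply hne'
      have hc2 := right_ne_zero_of_mul hc
      have hmodω' : n ≡ lowv b ω' [MOD b ^ m] := by
        by_contra hc3
        exact hc2 (if_neg hc3)
      rw [if_pos hmodω'] at hc2
      have hl : lowv b ω' = lowv b ω := by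
        rw [← mod64 h hω hmodω, ← mod64 h hω' hmodω']
      have ht : topv b ω' = topv b ω := by
        rw [← div64 hB h hm hk hω hne2, ← div64 hB h hm hk hω' hc2]
      funext i
      exact Prod.ext (low_inj h hω' hω hl i) (top_inj h hω' hω ht i)
    rw [hval, if_pos hmodω]
    have hV := hB.V_range ((topv b ω : ℝ) / (b : ℝ) ^ (m - 1) - p)
    have he := hB.e_range
      ((b : ℝ) ^ m * (Real.log n - Real.log ((b : ℝ) ^ (k - m) * topv b ω)))
    refine ⟨?_, ?_, digits64 hB h hm hk hω hmodω hne2 hF0⟩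
    · unfold wt
      exact mul_nonneg hV.1 he.1
    · unfold wt
      exact mul_le_one₀ hV.2 he.1 he.2
  · left
    push Not at hex
    unfold nw
    exact Finset.sum_eq_zero hex

theorem countProp : CountProp := by
  intro V₀ η hB b p m k F h hF hm hk
  have hb3 := h.three
  have hbR : (3 : ℝ) ≤ (b : ℝ) := by exact_mod_cast hb3
  have hb0 : (0 : ℝ) < (b : ℝ) := by linarith
  have hk2 : 2 ≤ k := by omega
  have hkR : (2 : ℝ) ≤ (k : ℝ) := by exact_mod_cast hk2
  have hlogb : 1 ≤ Real.log b := by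
    rw [Real.le_log_iff_exp_le hb0]
    have := Real.exp_one_lt_d9
    linarith
  have hkl : 1 ≤ k * Real.log b := by nlinarith
  set A : Finset ℕ := (Finset.range (b ^ k)).filter fun n => n.Prime ∧ b ^ (k - 1) ≤ n ∧
      ∀ i < m, i ∉ F → (Nat.digits b n).getD i 0 = (Nat.digits b n).getD (k - 1 - i) 0 with hA
  have hcases := fun n => nw_cases64 hB h hF hm hk n
  have hS : SSum b p m k F (fun y => V₀ (y - p)) η =
      ∑ n ∈ Finset.Ioc 0 (b ^ k), ArithmeticFunction.vonMangoldt n *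
        Real.exp (-(Real.log (n / (b : ℝ) ^ (k - 1))) ^ 2) *
          nw b p m k F (fun y => V₀ (y - p)) η n := by
    unfold SSum
    refine tsum_eq_sum fun n hn => ?_
    rcases Nat.eq_zero_or_pos n with h0 | h0
    · rw [h0, ArithmeticFunction.map_zero, zero_mul, zero_mul]
    · have h1 : b ^ k < n := by
        by_contra hc
        push Not at hc
        exact hn (Finset.mem_Ioc.mpr ⟨h0, hc⟩)
      rcases hcases n with h2 | h2
      · rw [h2, mul_zero]
      · exact absurd h2.2.2.1 (by omega)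
  rw [hS]
  have hterm : ∀ n ∈ Finset.Ioc 0 (b ^ k), ArithmeticFunction.vonMangoldt n *
        Real.exp (-(Real.log (n / (b : ℝ) ^ (k - 1))) ^ 2) *
          nw b p m k F (fun y => V₀ (y - p)) η n ≤
      (if n ∈ A then k * Real.log b else 0) +
        (if ¬ n.Prime then ArithmeticFunction.vonMangoldt n else 0) := by
    intro n hn
    have hΛ : 0 ≤ ArithmeticFunction.vonMangoldt n := ArithmeticFunction.vonMangoldt_nonneg
    have hE0 : 0 ≤ Real.exp (-(Real.log (n / (b : ℝ) ^ (k - 1))) ^ 2) := (Real.exp_pos _).le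
    have hE1 : Real.exp (-(Real.log (n / (b : ℝ) ^ (k - 1))) ^ 2) ≤ 1 := by
      rw [Real.exp_le_one_iff]
      have := sq_nonneg (Real.log (n / (b : ℝ) ^ (k - 1)))
      linarith
    have hA0 : (0 : ℝ) ≤ (if n ∈ A then k * Real.log b else 0) := by
      split_ifs
      · linarith
      · exact le_rfl
    have hB0 : (0 : ℝ) ≤ (if ¬ n.Prime then ArithmeticFunction.vonMangoldt n else 0) := by
      split_ifs
      · exact le_rfl
      · exact hΛ
    rcases hcases n with h2 | ⟨h2, h3, h4, h5, h6⟩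
    · rw [h2, mul_zero]
      exact add_nonneg hA0 hB0
    · have hle : ArithmeticFunction.vonMangoldt n *
          Real.exp (-(Real.log (n / (b : ℝ) ^ (k - 1))) ^ 2) *
          nw b p m k F (fun y => V₀ (y - p)) η n ≤ ArithmeticFunction.vonMangoldt n := by
        have h7 : ArithmeticFunction.vonMangoldt n *
            Real.exp (-(Real.log (n / (b : ℝ) ^ (k - 1))) ^ 2) ≤
            ArithmeticFunction.vonMangoldt n := mul_le_of_le_one_right hΛ hE1
        exact le_trans (mul_le_of_le_one_right (mul_nonneg hΛ hE0) h3) h7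
      by_cases hp : n.Prime
      · have hmemA : n ∈ A := by
          rw [hA, Finset.mem_filter, Finset.mem_range]
          exact ⟨h4, hp, h5, h6⟩
        rw [if_pos hmemA, if_neg (by simpa using hp), add_zero]
        refine hle.trans ?_
        rw [ArithmeticFunction.vonMangoldt_apply_prime hp, ← Real.log_pow]
        refine Real.log_le_log (by exact_mod_cast hp.pos) ?_
        exact_mod_cast h4.le
      · rw [if_pos hp]
        linarith
  refine (Finset.sum_le_sum hterm).trans ?_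
  rw [Finset.sum_add_distrib]
  have hfirst : ∑ n ∈ Finset.Ioc 0 (b ^ k), (if n ∈ A then k * Real.log b else 0) ≤
      (k * Real.log b) * (A.card : ℝ) := by
    rw [Finset.sum_ite_mem, Finset.sum_const, nsmul_eq_mul, mul_comm]
    refine mul_le_mul_of_nonneg_left ?_ (by linarith)
    exact_mod_cast Finset.card_le_card Finset.inter_subset_right
  have hsecond : ∑ n ∈ Finset.Ioc 0 (b ^ k),
      (if ¬ n.Prime then ArithmeticFunction.vonMangoldt n else 0) ≤
      (k * Real.log b) * (2 * k * Real.log b * (b : ℝ) ^ ((k : ℝ) / 2)) := by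
    rw [← Finset.sum_filter]
    have h1 := Chebyshev.psi_sub_theta_eq_sum_not_prime ((b ^ k : ℕ) : ℝ)
    rw [Nat.floor_natCast] at h1
    rw [← h1]
    have hbk : (1 : ℝ) ≤ ((b ^ k : ℕ) : ℝ) := by
      exact_mod_cast Nat.one_le_pow _ _ (by omega)
    have h2 := Chebyshev.psi_sub_theta_le hbk
    refine h2.trans ?_
    have hs : √((b ^ k : ℕ) : ℝ) = (b : ℝ) ^ ((k : ℝ) / 2) := by
      rw [Real.sqrt_eq_rpow, Nat.cast_pow, ← Real.rpow_natCast, ← Real.rpow_mul hb0.le]
      congr 1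
      ring
    have hl : Real.log ((b ^ k : ℕ) : ℝ) = k * Real.log b := by
      rw [Nat.cast_pow, Real.log_pow]
    rw [hs, hl]
    have hX : 0 ≤ (b : ℝ) ^ ((k : ℝ) / 2) := Real.rpow_nonneg hb0.le _
    have h3 : 0 ≤ 2 * (b : ℝ) ^ ((k : ℝ) / 2) * (k * Real.log b) := by positivity
    calc 2 * (b : ℝ) ^ ((k : ℝ) / 2) * (k * Real.log b)
        ≤ 2 * (b : ℝ) ^ ((k : ℝ) / 2) * (k * Real.log b) * (k * Real.log b) :=
          le_mul_of_one_le_right h3 hkl
      _ = _ := by ring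
  calc _ ≤ (k * Real.log b) * (A.card : ℝ) +
        (k * Real.log b) * (2 * k * Real.log b * (b : ℝ) ^ ((k : ℝ) / 2)) :=
        add_le_add hfirst hsecond
    _ = _ := by ring

end Pool.Agent.HPP
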