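import Pool.Agent.HPP.Iface

/-!
# HPP/ADefs: definitions for the assembly

`m = 2^J w`, `q = b^m`, `x = b^(k-1)`, `h = b^(k-m)`, `T = b^(m + w/4)` (natural division), `F = Fr J w`.
-/

namespace Pool.Agent.HPP

open Complex MeasureTheory

/-- the two smooth bumps -/
structure Bp (V₀ η : ℝ → ℝ) : Prop where
  V_smooth : ∀ n : ℕ, ContDiff ℝ n V₀
  V_supp : tsupport V₀ ⊆ Set.Ioo 0 1
  V_range : ∀ y, 0 ≤ V₀ y ∧ V₀ y ≤ 1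
  V_ne : ∃ y, V₀ y ≠ 0
  e_smooth : ∀ n : ℕ, ContDiff ℝ n η
  e_supp : tsupport η ⊆ Set.Ioo 0 (1 / 2)
  e_range : ∀ y, 0 ≤ η y ∧ η y ≤ 1
  e_ne : ∃ y, η y ≠ 0

/-- the weight of `n`: patterns `ω` with `n ≡ low mod b^m` and `n` just above `h top` -/
noncomputable def nw (b p m k : ℕ) (F : Finset ℕ) (V η : ℝ → ℝ) (n : ℕ) : ℝ :=
  ∑ ω ∈ RR b p m F, wt b V ω * (if n ≡ lowv b ω [MOD b ^ m] then
    η ((b : ℝ) ^ m * (Real.log n - Real.log ((b : ℝ) ^ (k - m) * topv b ω))) else 0)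

/-- the weighted sum over prime powers -/
noncomputable def SSum (b p m k : ℕ) (F : Finset ℕ) (V η : ℝ → ℝ) : ℝ :=
  ∑' n : ℕ, ArithmeticFunction.vonMangoldt n *
    Real.exp (-(Real.log (n / (b : ℝ) ^ (k - 1))) ^ 2) * nw b p m k F V η n

open Classical in
/-- error terms: characters not defined mod `b`, and characters mod `b` with `|t| ≥ b^(w/3)` -/
noncomputable def Err (b p J w k : ℕ) (V : ℝ → ℝ) : ℝ :=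
  (∑ χ ∈ (Finset.univ : Finset (DirichletCharacter ℂ (b ^ (2 ^ J * w)))).filter
      (fun χ => ¬ χ.FactorsThrough b),
    ∫ t in (-(b : ℝ) ^ (2 ^ J * w + w / 4))..((b : ℝ) ^ (2 ^ J * w + w / 4)),
      ‖cc b p (Fr J w) V χ t‖ * ‖PP χ t ((b : ℝ) ^ (k - 1))‖) +
  ∑ χ ∈ (Finset.univ : Finset (DirichletCharacter ℂ (b ^ (2 ^ J * w)))).filter
      (fun χ => χ.FactorsThrough b),
    ∫ t in {t : ℝ | (b : ℝ) ^ ((w : ℝ) / 3) ≤ |t| ∧ |t| ≤ (b : ℝ) ^ (2 ^ J * w + w / 4)},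
      ‖cc b p (Fr J w) V χ t‖ * ‖PP χ t ((b : ℝ) ^ (k - 1))‖

/-- (A1, A2, A5): main term. `c₀` may depend on everything but `w`, `k`. -/
def MainProp : Prop := ∀ V₀ η : ℝ → ℝ, Bp V₀ η → ∀ b p J : ℕ, Bas b p → 5 ≤ J →
  ∃ c₀ : ℝ, 0 < c₀ ∧ ∃ w₀ : ℕ, ∀ w : ℕ, w₀ ≤ w → ∀ k : ℕ, 2 * (2 ^ J * w) ≤ k →
  c₀ * ((RR b p (2 ^ J * w) (Fr J w)).card * (b : ℝ) ^ (k - 1) /
      ((b : ℝ) ^ (2 ^ J * w) * (b ^ (2 ^ J * w)).totient)) ≤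
    SSum b p (2 ^ J * w) k (Fr J w) (fun y => V₀ (y - p)) η +
    Err b p J w k (fun y => V₀ (y - p)) / ((b : ℝ) ^ (2 ^ J * w) * (b ^ (2 ^ J * w)).totient)

/-- (A6): from the weighted sum to the number of primes -/
def CountProp : Prop := ∀ V₀ η : ℝ → ℝ, Bp V₀ η → ∀ b p m k : ℕ, ∀ F : Finset ℕ, Bas b p →
  F ⊆ Finset.Ico 1 m → 1 ≤ m → 2 * m ≤ k →
  SSum b p m k F (fun y => V₀ (y - p)) η ≤ (k * Real.log b) *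
    ((((Finset.range (b ^ k)).filter fun n => n.Prime ∧ b ^ (k - 1) ≤ n ∧
      ∀ i < m, i ∉ F → (Nat.digits b n).getD i 0 = (Nat.digits b n).getD (k - 1 - i) 0).card : ℝ) +
      2 * k * Real.log b * (b : ℝ) ^ ((k : ℝ) / 2))

/-- (A3, A4): all error terms. -/
def ErrProp (f₀ : ℝ) : Prop := ∀ V₀ η : ℝ → ℝ, Bp V₀ η → ∀ f : ℝ, 5 / 12 < f → f < f₀ →
  ∃ J₀ : ℕ, ∀ J : ℕ, J₀ ≤ J → ∃ b₀ : ℕ, ∀ b p : ℕ, b₀ ≤ b → Bas b p →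
  ∀ A : ℝ, 0 < A → ∃ w₀ : ℕ, ∀ w : ℕ, w₀ ≤ w → ∀ k : ℕ,
  (2 : ℝ) * (2 ^ J * w) ≤ f * (k - 1 - w) → (k : ℝ) ≤ A * w →
  Err b p J w k (fun y => V₀ (y - p)) ≤
    (b : ℝ) ^ (-(w : ℝ) / 60) * (RR b p (2 ^ J * w) (Fr J w)).card * (b : ℝ) ^ (k - 1)

end Pool.Agent.HPP
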