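import Pool.Agent.HPP.ADefs

set_option autoImplicit false

/-!
# HPP/AEh : the Fourier transform of the bump `η` (helper14)

PROOFS. `η` is smooth with compact support in `(0, 1/2)` (`Bp`), `0 ≤ η ≤ 1`. `eh η t = 𝓕 η (t / (2π))` (Mathlib normalisation
`Real.fourier_eq'` / `fourierIntegral_eq'`). `eh_le`: the integrand has norm `≤ η y ≤ 1` on `(0, 1/2)` and is `0` outside. `eh_zero`: `η` is
continuous, `≥ 0` and not `0`. `eh_continuous`: dominated convergence (`continuous_of_dominated`) or `Real.fourierIntegral_continuous`.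
`eh_decay`: `η` gives a Schwartz map (smooth with compact support), its Fourier transform is a Schwartz map, so `|t|^j |eh t|` is bounded
for all `j`; or integrate by parts `j` times: `|t|^j |eh t| ≤ ∫ |η^(j)|`. `(1 + |t|)^j ≤ 2^j (1 + |t|^j)`.
`eh_inv`: Fourier inversion for a continuous integrable function with integrable transform
(`Continuous.fourierInv_fourier_eq` or `MeasureTheory.Integrable.fourierInv_fourier_eq` …), substitution `t = 2π ξ`.
-/

namespace Pool.Agent.HPP

open Complex MeasureTheory Filter Topology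
open scoped FourierTransform ContDiff

/-- Fourier transform of `η`, `η y = (2π)^{-1} ∫ eh η t e^{ity} dt` -/
noncomputable def eh (η : ℝ → ℝ) (t : ℝ) : ℂ := ∫ y : ℝ, (η y : ℂ) * cexp (-(t * y * I))

variable {V₀ η : ℝ → ℝ}

private theorem eta_cs (h : Bp V₀ η) : HasCompactSupport (fun y => (η y : ℂ)) := by
  have h1 : HasCompactSupport η := by
    apply HasCompactSupport.intro (isCompact_Icc (a := (0 : ℝ)) (b := 1 / 2))
    intro y hy
    by_contra hne
    have := h.e_supp (subset_tsupport _ hne)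
    exact hy ⟨this.1.le, this.2.le⟩
  exact h1.comp_left (g := fun x : ℝ => (x : ℂ)) (by simp)

private theorem eta_cd (h : Bp V₀ η) : ContDiff ℝ ∞ (fun y => (η y : ℂ)) :=
  Complex.ofRealCLM.contDiff.comp (contDiff_infty.2 h.e_smooth)

private noncomputable def etaS (h : Bp V₀ η) : SchwartzMap ℝ ℂ :=
  (eta_cs h).toSchwartzMap (eta_cd h)

private theorem etaS_apply (h : Bp V₀ η) (y : ℝ) : etaS h y = (η y : ℂ) := rfl

private theorem eh_eq (h : Bp V₀ η) (t : ℝ) : eh η t = (𝓕 (etaS h)) (t / (2 * Real.pi)) := by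
  rw [SchwartzMap.fourier_coe, Real.fourier_real_eq_integral_exp_smul]
  unfold eh
  congr 1
  ext y
  rw [etaS_apply, smul_eq_mul, mul_comm]
  congr 2
  have : (Real.pi : ℂ) ≠ 0 := by exact_mod_cast Real.pi_ne_zero
  push_cast
  field_simp

theorem eh_le (h : Bp V₀ η) (t : ℝ) : ‖eh η t‖ ≤ 1 / 2 := by
  unfold eh
  have h1 : ∀ y : ℝ, ‖(η y : ℂ) * cexp (-(t * y * I))‖ ≤ Set.indicator (Set.Ioo (0 : ℝ) (1 / 2)) (fun _ => (1 : ℝ)) y := by
    intro y
    rw [norm_mul, show (-(t * y * I) : ℂ) = ((-(t * y) : ℝ) : ℂ) * I by push_cast; ring,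
      Complex.norm_exp_ofReal_mul_I, mul_one, Complex.norm_real, Real.norm_of_nonneg (h.e_range y).1]
    by_cases hy : y ∈ Set.Ioo (0 : ℝ) (1 / 2)
    · rw [Set.indicator_of_mem hy]
      exact (h.e_range y).2
    · rw [Set.indicator_of_notMem hy]
      by_contra hne
      push Not at hne
      exact hy (h.e_supp (subset_tsupport _ hne.ne'))
  have hI : Integrable (Set.indicator (Set.Ioo (0 : ℝ) (1 / 2)) (fun _ => (1 : ℝ))) := by
    rw [integrable_indicator_iff measurableSet_Ioo]
    exact integrableOn_const (by simp) (by simp)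
  refine (norm_integral_le_of_norm_le hI (Eventually.of_forall h1)).trans ?_
  rw [integral_indicator measurableSet_Ioo]
  simp

theorem eh_zero (h : Bp V₀ η) : ∃ c : ℝ, 0 < c ∧ eh η 0 = (c : ℂ) := by
  refine ⟨∫ y : ℝ, η y, ?_, ?_⟩
  · have hc : Continuous η := (h.e_smooth 0).continuous
    obtain ⟨y, hy⟩ := h.e_ne
    have hcs : HasCompactSupport η := by
      have := eta_cs h
      apply HasCompactSupport.intro (isCompact_Icc (a := (0 : ℝ)) (b := 1 / 2))
      intro y hy
      by_contra hne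
      have := h.e_supp (subset_tsupport _ hne)
      exact hy ⟨this.1.le, this.2.le⟩
    exact hc.integral_pos_of_hasCompactSupport_nonneg_nonzero hcs (fun y => (h.e_range y).1) hy
  · unfold eh
    simp only [ofReal_zero, zero_mul, neg_zero, Complex.exp_zero, mul_one]
    exact integral_complex_ofReal

theorem eh_continuous (h : Bp V₀ η) : Continuous (eh η) := by
  have e : eh η = fun t => (𝓕 (etaS h)) (t / (2 * Real.pi)) := funext (eh_eq h)
  rw [e]
  exact (𝓕 (etaS h)).continuous.comp (by fun_prop)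

theorem eh_decay (h : Bp V₀ η) (j : ℕ) : ∃ C : ℝ, 0 ≤ C ∧ ∀ t, ‖eh η t‖ ≤ C / (1 + |t|) ^ j := by
  have hpi := Real.pi_gt_three
  refine ⟨(2 * Real.pi) ^ j * (2 ^ j * ((Finset.Iic (j, 0)).sup
    (fun m : ℕ × ℕ => SchwartzMap.seminorm ℝ m.1 m.2)) (𝓕 (etaS h))), ?_, ?_⟩
  · apply mul_nonneg (by positivity)
    apply mul_nonneg (by positivity)
    exact apply_nonneg _ _
  · intro t
    have h1 := SchwartzMap.one_add_le_sup_seminorm_apply (𝕜 := ℝ) (m := (j, 0)) (k := j) (n := 0)
      le_rfl le_rfl (𝓕 (etaS h)) (t / (2 * Real.pi))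
    rw [norm_iteratedFDeriv_zero, ← eh_eq] at h1
    rw [le_div_iff₀ (by positivity)]
    have h2 : (1 + |t|) ≤ 2 * Real.pi * (1 + ‖t / (2 * Real.pi)‖) := by
      rw [Real.norm_eq_abs, abs_div, abs_of_pos (by positivity : 0 < 2 * Real.pi)]
      have : 2 * Real.pi * (1 + |t| / (2 * Real.pi)) = 2 * Real.pi + |t| := by
        field_simp
      rw [this]
      linarith
    have h3 : (1 + |t|) ^ j ≤ (2 * Real.pi) ^ j * (1 + ‖t / (2 * Real.pi)‖) ^ j := by
      rw [← mul_pow]
      exact pow_le_pow_left₀ (by positivity) h2 j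
    calc ‖eh η t‖ * (1 + |t|) ^ j ≤ ‖eh η t‖ * ((2 * Real.pi) ^ j * (1 + ‖t / (2 * Real.pi)‖) ^ j) :=
          mul_le_mul_of_nonneg_left h3 (norm_nonneg _)
      _ = (2 * Real.pi) ^ j * ((1 + ‖t / (2 * Real.pi)‖) ^ j * ‖eh η t‖) := by ring
      _ ≤ _ := mul_le_mul_of_nonneg_left h1 (by positivity)

theorem eh_integrable (h : Bp V₀ η) : Integrable (eh η) := by
  obtain ⟨C, hC, hb⟩ := eh_decay h 2
  have h1 : Integrable (fun t : ℝ => C * (1 + t ^ 2)⁻¹) := integrable_inv_one_add_sq.const_mul C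
  refine h1.mono' (eh_continuous h).aestronglyMeasurable (Eventually.of_forall fun t => ?_)
  refine (hb t).trans ?_
  rw [div_eq_mul_inv]
  apply mul_le_mul_of_nonneg_left _ hC
  apply inv_anti₀ (by positivity)
  have := abs_nonneg t
  nlinarith [sq_abs t]

theorem eh_inv (h : Bp V₀ η) (y : ℝ) :
    (η y : ℂ) = (1 / (2 * Real.pi) : ℝ) * ∫ t : ℝ, eh η t * cexp (t * y * I) := by
  have hpi : (0 : ℝ) < 2 * Real.pi := by positivity
  have hF : Integrable (𝓕 (fun y => (η y : ℂ)) : ℝ → ℂ) := by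
    have := (𝓕 (etaS h)).integrable (μ := volume)
    rw [SchwartzMap.fourier_coe] at this
    exact this
  have h1 := congrFun (Continuous.fourierInv_fourier_eq (f := fun y => (η y : ℂ))
    (eta_cd h).continuous ((etaS h).integrable (μ := volume)) hF) y
  rw [Real.fourierInv_eq'] at h1
  have h2 : ∀ v : ℝ, cexp (↑(2 * Real.pi * inner ℝ v y) * I) • (𝓕 (fun y => (η y : ℂ)) : ℝ → ℂ) v =
      (fun t : ℝ => eh η t * cexp (t * y * I)) (2 * Real.pi * v) := by
    intro v
    simp only [smul_eq_mul]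
    rw [eh_eq h, SchwartzMap.fourier_coe, mul_div_cancel_left₀ _ hpi.ne', mul_comm]
    congr 1
    congr 1
    simp
    ring
  rw [integral_congr_ae (Eventually.of_forall h2),
    Measure.integral_comp_mul_left (fun t : ℝ => eh η t * cexp (t * y * I)), abs_of_pos (by positivity)] at h1
  rw [← h1, real_smul]
  congr 2
  rw [one_div]

end Pool.Agent.HPP
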