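import Pool.Agent.HPP.ACell

/-!
# HPP/AErr: all error terms are small (`ErrProp`)

Inputs: `EnergyProp`, `SupLowProp`, `VanProp`, `SupTopProp`, `SmallProp`, and for every `f < f₀` some
`p₁ < 4/3` with `BigAt f p₁`. Notation `m = 2^J w`, `q = b^m`, `x = b^(k-1)`, `T = b^(m+w/4)`, `F = Fr J w`,
`#F + 1 ≤ 3 J w` (the free positions are `≥ 1` in `3J` blocks of length `w`), `V = V₀(· - p)` with Lipschitz
constant `K` (`V₀` is smooth with compact support).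

CHOICES. Given `f`: `p₁` with `BigAt f p₁`, `γ = 4/3 - p₁ > 0`; `u₂` = minimum of the `u₂` of `SmallProp` at
`(f, 10/9)` (`2f < 10/9`) and at `(43/100, 1)`; `J₀` so large that for `J ≥ J₀`, with `w ≤ f k 2^(-J-1)`:
`b^((27J/2 + 8) w) ≤ x^(u₂)` and `(9J+1) w / 4 + w ≤ (3/4) u₂ γ (k-1)`, and `3 f + small ≤ ..`:
`(3/2) m + w/4 ≤ (43/100)(k-1)` (because `2m ≤ f (k-1-w)`, `f < 5/9`, so `(3/2) m ≤ (5/12)(k-1-w)`); `b₀` so
large that `C^(2^J w) ≤ b^(w/48)` for the constants `C` of the sup bounds and of the energy. `ε` tiny: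
`x^ε ≤ b^(w/200)` (`k ≤ A w`), `κ` with `x^κ ≤ b^(w/3)`. `w₀` large absorbs `b²`, `K`, `m log b + 1`, `m`.

ENERGY: `∑_χ ∫_{-T}^T ‖cc‖^4 ≤ C^m b^(w/4) b^(9Jw) #RR^4 ≤ E #RR^4`, `E = b^((9J+1)w)`.

CELLS (`cell` with `U = b^((27J/2+8)w)`, `y = x^(-u₂)`, `A = x^ε`):
(β) `2^(J-1) w < m' ≤ m`, `S = {lv χ = m'}`, `J = [-T, T]`: `s = b^(-2Jw + w/24)` by `SupLowProp` with
`i₀ = 2^(J-1) w`, `l = 2Jw` (free: the units `2^(J-1), ..., 2^(J-1)+2J-1` are in `Bk J`), `p' = 10/9`, the moment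
inputs from `BigAt f p₁`, `SmallProp` for modulus `b^m'`, `b^m' T ≤ b^(2m + w/4) ≤ x^f` via `sum_level`
(`PP_induced`; for `χ ≠ 1` the set `Gt` is `[-T, T]`). The three terms: `b^(-2Jw + w/24) b^((3J/2+8/9)w) x^ε`,
`b^((9J+1)w/4) (b^(-(27J/2+8)w (2/9)) x^ε)^(3/4) = b^(((9J+1)/4 - (9J/4) - 4/3) w) x^(3ε/4)`,
`b^((9J+1)w/4) (x^(-u₂γ) x^ε)^(3/4)`.
(α) `w < m' ≤ 2^(J-1) w`, i.e. `2^l w < m' ≤ 2^(l+1) w`, `l ≤ J-2`: `SupLowProp` with `i₀ = 2^l w`, block length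
`w`: `s = b^(-w + w/24)`; `p' = 1`, `f` replaced by `43/100` in `SmallProp`, but `BigAt f p₁` still used
(`b^m' T ≤ x^f`). Terms `b^(-w+w/24) x^ε`, `b^((9J+1)w/4) U^(-1/4) x^..`, third as before.
(α0) `χ` mod `b`, `b^(w/3) ≤ |t| ≤ T`: `SupTopProp` with block length `l = w/12` at `i`: if
`b^(w/3) ≤ |t| ≤ b^(3w/2)`: `i = ⌈(log_b |t|)/2⌉`; if `b^(2^j w + w/2) ≤ |t| ≤ b^(2^(j+1) w + w/2)`, `0 ≤ j < J`:
`i = 2^j w + ⌈w/4⌉`. `s = b^(-w/12 + w/24)`; modulus `b^1` (`sum_base`), `|t| ≥ x^κ`.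
`2 ≤ lv χ ≤ w`: `cc = 0` by `VanProp` (`[1, w)` free).
Sum over `m' ≤ m` values: `≤ (m+1) b^(-w/24 + w/100) ≤ b^(-w/60)/...`; total `≤ b^(-w/60) #RR x`.
This module may be split further by its owner (parameters / β / α / α0 / sum).
-/

namespace Pool.Agent.HPP

open Complex MeasureTheory Filter

theorem ae_lin_exp {β c : ℝ} (hβ : 1 < β) (hc : 0 < c) (a d : ℝ) :
    ∀ᶠ w : ℕ in atTop, a * w + d ≤ β ^ (c * (w : ℝ)) := by
  have hr : 1 < β ^ c := Real.one_lt_rpow hβ hc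
  have h1 : Tendsto (fun n : ℕ => (n : ℝ) ^ 1 / (β ^ c) ^ n) atTop (nhds 0) :=
    tendsto_pow_const_div_const_pow_of_one_lt 1 hr
  have h2 : Tendsto (fun n : ℕ => (n : ℝ) ^ 0 / (β ^ c) ^ n) atTop (nhds 0) :=
    tendsto_pow_const_div_const_pow_of_one_lt 0 hr
  have h3 : Tendsto (fun n : ℕ => a * ((n : ℝ) ^ 1 / (β ^ c) ^ n) + d * ((n : ℝ) ^ 0 / (β ^ c) ^ n))
      atTop (nhds (a * 0 + d * 0)) := (h1.const_mul a).add (h2.const_mul d)
  have h4 : ∀ᶠ n : ℕ in atTop,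
      a * ((n : ℝ) ^ 1 / (β ^ c) ^ n) + d * ((n : ℝ) ^ 0 / (β ^ c) ^ n) < 1 :=
    h3.eventually_lt_const (by norm_num)
  filter_upwards [h4] with n hn
  have hp : 0 < (β ^ c) ^ n := pow_pos (by linarith) n
  have h5 : a * ((n : ℝ) ^ 1 / (β ^ c) ^ n) + d * ((n : ℝ) ^ 0 / (β ^ c) ^ n) =
      (a * n + d) / (β ^ c) ^ n := by
    rw [pow_one, pow_zero]; ring
  rw [h5, div_lt_one hp] at hn
  rw [Real.rpow_mul (by linarith), Real.rpow_natCast]
  exact hn.le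

theorem ae_Fr_sub (J w : ℕ) : Fr J w ⊆ Finset.Ico 1 (2 ^ J * w) := Finset.filter_subset _ _

theorem ae_block {J w u i l : ℕ} (hw : 0 < w) (hu : u ∈ Bk J) (h1 : 1 ≤ i) (h2 : u * w ≤ i)
    (h3 : i + l ≤ (u + 1) * w) (h4 : i + l ≤ 2 ^ J * w) : Finset.Ico i (i + l) ⊆ Fr J w := by
  intro j hj
  rw [Finset.mem_Ico] at hj
  unfold Fr
  rw [Finset.mem_filter, Finset.mem_Ico]
  refine ⟨⟨by omega, by omega⟩, ?_⟩
  have h5 : j / w = u := by
    rw [Nat.div_eq_iff hw]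
    constructor
    · omega
    · have : (u + 1) * w = u * w + w := by ring
      omega
  rw [h5]; exact hu

theorem ae_card {J w : ℕ} (hJ : 1 ≤ J) (hw : 0 < w) : (Fr J w).card + 1 ≤ 3 * J * w := by
  classical
  have h0 : 0 ∉ Fr J w := fun h => by
    have := ae_Fr_sub J w h
    rw [Finset.mem_Ico] at this; omega
  rw [← Finset.card_insert_of_notMem h0]
  have h1 : insert 0 (Fr J w) ⊆ (Bk J ×ˢ Finset.range w).image (fun z : ℕ × ℕ => z.1 * w + z.2) := by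
    intro j hj
    rw [Finset.mem_insert] at hj
    rw [Finset.mem_image]
    rcases hj with rfl | hj
    · refine ⟨(0, 0), ?_, by simp⟩
      rw [Finset.mem_product]
      exact ⟨by unfold Bk; simp, by simpa using hw⟩
    · unfold Fr at hj
      rw [Finset.mem_filter] at hj
      refine ⟨(j / w, j % w), ?_, ?_⟩
      · rw [Finset.mem_product]
        exact ⟨hj.2, by simpa using Nat.mod_lt _ hw⟩
      · show j / w * w + j % w = j
        rw [mul_comm]; exact Nat.div_add_mod j w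
  have h2 : (Bk J).card ≤ 3 * J := by
    have h3 : Bk J ⊆ {0} ∪ (Finset.range (J - 1)).image (fun l => 2 ^ l) ∪
        Finset.Ico (2 ^ (J - 1)) (2 ^ (J - 1) + 2 * J) := by
      intro u hu
      unfold Bk at hu
      simp only [Finset.mem_union, Finset.mem_singleton, Finset.mem_image, Finset.mem_range,
        Finset.mem_Ico] at hu ⊢
      rcases hu with (hu | ⟨l, hl, rfl⟩) | hu
      · exact Or.inl (Or.inl hu)
      · by_cases h : l < J - 1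
        · exact Or.inl (Or.inr ⟨l, h, rfl⟩)
        · have : l = J - 1 := by omega
          subst this
          right; constructor
          · exact le_refl _
          · omega
      · exact Or.inr hu
    refine (Finset.card_le_card h3).trans ?_
    refine (Finset.card_union_le _ _).trans ?_
    have h4 := Finset.card_union_le {0} ((Finset.range (J - 1)).image (fun l => 2 ^ l))
    have h5 : ((Finset.range (J - 1)).image (fun l => 2 ^ l)).card ≤ J - 1 := by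
      refine Finset.card_image_le.trans ?_
      rw [Finset.card_range]
    rw [Finset.card_singleton] at h4
    rw [Nat.card_Ico]
    omega
  calc (insert 0 (Fr J w)).card ≤ _ := Finset.card_le_card h1
    _ ≤ (Bk J ×ˢ Finset.range w).card := Finset.card_image_le
    _ = (Bk J).card * w := by rw [Finset.card_product, Finset.card_range]
    _ ≤ 3 * J * w := Nat.mul_le_mul_right _ h2

/-- numerical part of a cell -/
theorem ae_num {β W A U E y s : ℝ} {σ μ ν τ e p' p₁ : ℝ} (hβ : 1 < β) (hW : 0 ≤ W) (hA0 : 0 ≤ A)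
    (hA : A ≤ β ^ (1 / 200 * W)) (hU : U = β ^ (μ * W)) (hE : E = β ^ (ν * W)) (hy : 0 ≤ y)
    (hy' : y ^ (4 / 3 - p₁) ≤ β ^ (-(τ * W))) (hs : s ≤ β ^ (σ * W))
    (h1 : σ + μ * (p' - 1) + 1 / 200 ≤ -e) (h2 : ν / 4 - μ * (4 / 3 - p') * (3 / 4) + 3 / 800 ≤ -e)
    (h3 : ν / 4 - 3 / 4 * τ + 3 / 800 ≤ -e) :
    s * U ^ (p' - 1) * A + E ^ (1 / 4 : ℝ) * (U ^ (-(4 / 3 - p')) * A) ^ (3 / 4 : ℝ) +
      E ^ (1 / 4 : ℝ) * (y ^ (4 / 3 - p₁) * A) ^ (3 / 4 : ℝ) ≤ 3 * β ^ (-e * W) := by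
  have hβ0 : 0 < β := by linarith
  have hr : ∀ a : ℝ, 0 < β ^ a := fun a => Real.rpow_pos_of_pos hβ0 a
  have hmono : ∀ a c : ℝ, a ≤ c → β ^ (a * W) ≤ β ^ (c * W) := fun a c h =>
    Real.rpow_le_rpow_of_exponent_le hβ.le (mul_le_mul_of_nonneg_right h hW)
  have t1 : s * U ^ (p' - 1) * A ≤ β ^ (-e * W) := by
    have : U ^ (p' - 1) = β ^ (μ * (p' - 1) * W) := by
      rw [hU, ← Real.rpow_mul hβ0.le]; ring_nf
    rw [this]
    calc s * β ^ (μ * (p' - 1) * W) * A ≤ β ^ (σ * W) * β ^ (μ * (p' - 1) * W) * β ^ (1 / 200 * W) := by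
          refine mul_le_mul (mul_le_mul_of_nonneg_right hs (hr _).le) hA hA0 ?_
          exact mul_nonneg (hr _).le (hr _).le
      _ = β ^ ((σ + μ * (p' - 1) + 1 / 200) * W) := by
          rw [← Real.rpow_add hβ0, ← Real.rpow_add hβ0]; ring_nf
      _ ≤ _ := hmono _ _ h1
  have hE4 : E ^ (1 / 4 : ℝ) = β ^ (ν / 4 * W) := by
    rw [hE, ← Real.rpow_mul hβ0.le]; ring_nf
  have t2 : E ^ (1 / 4 : ℝ) * (U ^ (-(4 / 3 - p')) * A) ^ (3 / 4 : ℝ) ≤ β ^ (-e * W) := by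
    have : U ^ (-(4 / 3 - p')) = β ^ (-(μ * (4 / 3 - p') * W)) := by
      rw [hU, ← Real.rpow_mul hβ0.le]; ring_nf
    rw [this, hE4]
    calc β ^ (ν / 4 * W) * (β ^ (-(μ * (4 / 3 - p') * W)) * A) ^ (3 / 4 : ℝ) ≤
        β ^ (ν / 4 * W) * (β ^ (-(μ * (4 / 3 - p') * W)) * β ^ (1 / 200 * W)) ^ (3 / 4 : ℝ) := by
          refine mul_le_mul_of_nonneg_left ?_ (hr _).le
          refine Real.rpow_le_rpow (mul_nonneg (hr _).le hA0) ?_ (by norm_num)
          exact mul_le_mul_of_nonneg_left hA (hr _).le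
      _ = β ^ ((ν / 4 - μ * (4 / 3 - p') * (3 / 4) + 3 / 800) * W) := by
          rw [← Real.rpow_add hβ0, ← Real.rpow_mul hβ0.le, ← Real.rpow_add hβ0]; ring_nf
      _ ≤ _ := hmono _ _ h2
  have t3 : E ^ (1 / 4 : ℝ) * (y ^ (4 / 3 - p₁) * A) ^ (3 / 4 : ℝ) ≤ β ^ (-e * W) := by
    rw [hE4]
    calc β ^ (ν / 4 * W) * (y ^ (4 / 3 - p₁) * A) ^ (3 / 4 : ℝ) ≤
        β ^ (ν / 4 * W) * (β ^ (-(τ * W)) * β ^ (1 / 200 * W)) ^ (3 / 4 : ℝ) := by
          refine mul_le_mul_of_nonneg_left ?_ (hr _).le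
          refine Real.rpow_le_rpow (mul_nonneg (Real.rpow_nonneg hy _) hA0) ?_ (by norm_num)
          exact mul_le_mul hy' hA hA0 (hr _).le
      _ = β ^ ((ν / 4 - 3 / 4 * τ + 3 / 800) * W) := by
          rw [← Real.rpow_add hβ0, ← Real.rpow_mul hβ0.le, ← Real.rpow_add hβ0]; ring_nf
      _ ≤ _ := hmono _ _ h3
  linarith


theorem ae_int {Q : ℕ} (χ : DirichletCharacter ℂ Q) {x T q : ℝ} (hx : 0 < x) (hq : 0 ≤ q) {s : Set ℝ}
    (hs : s ⊆ Set.Icc (-T) T) : IntegrableOn (fun t => (‖PP χ t x‖ / x) ^ q) s := by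
  have h : Continuous fun t => (‖PP χ t x‖ / x) ^ q :=
    ((PP_continuous χ hx).norm.div_const x).rpow_const fun t => Or.inr hq
  exact (h.continuousOn.integrableOn_Icc).mono_set hs

theorem ae_mono {Q : ℕ} (χ : DirichletCharacter ℂ Q) {x T q : ℝ} (hx : 0 < x) (hq : 0 ≤ q)
    {s u : Set ℝ} (hu : u ⊆ Set.Icc (-T) T) (h : s ⊆ u) :
    ∫ t in s, (‖PP χ t x‖ / x) ^ q ≤ ∫ t in u, (‖PP χ t x‖ / x) ^ q :=
  setIntegral_mono_set (ae_int χ hx hq hu)
    (Filter.Eventually.of_forall fun t => Real.rpow_nonneg (div_nonneg (norm_nonneg _) hx.le) _)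
    (LE.le.eventuallyLE h)

theorem ae_nonneg {Q : ℕ} (χ : DirichletCharacter ℂ Q) {x q : ℝ} (hx : 0 < x) (s : Set ℝ) :
    0 ≤ ∫ t in s, (‖PP χ t x‖ / x) ^ q :=
  integral_nonneg fun t => Real.rpow_nonneg (div_nonneg (norm_nonneg _) hx.le) _

theorem ae_Gt_sub {Q : ℕ} (χ : DirichletCharacter ℂ Q) (κ T : ℝ) : Gt χ κ T ⊆ Set.Icc (-T) T :=
  fun _ ht => Set.mem_Icc.2 (abs_le.1 ht.1)

open Classical in
/-- moments over the characters of one level -/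
theorem ae_mom_level {b m m' : ℕ} (hb : 2 ≤ b) (hm' : 2 ≤ m') {T x κ q y y' A : ℝ} (hx : 0 < x)
    (hq : 0 ≤ q) (hyy : y' ≤ y)
    (h : ∑ χ : DirichletCharacter ℂ (b ^ m'),
      ∫ t in Gt χ κ T ∩ {t | y' ≤ ‖PP χ t x‖ / x}, (‖PP χ t x‖ / x) ^ q ≤ A) :
    ∑ χ ∈ (Finset.univ : Finset (DirichletCharacter ℂ (b ^ m))).filter (fun χ => lv χ = m'),
      ∫ t in Set.Icc (-T) T ∩ {t | y ≤ ‖PP χ t x‖ / x}, (‖PP χ t x‖ / x) ^ q ≤ A := by
  have h1 := sum_level (m := m) hb hm'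
    (fun χ => ∫ t in Set.Icc (-T) T ∩ {t | y ≤ ‖PP χ t x‖ / x}, (‖PP χ t x‖ / x) ^ q)
    (fun χ => ∫ t in Set.Icc (-T) T ∩ {t | y ≤ ‖PP χ t x‖ / x}, (‖PP χ t x‖ / x) ^ q)
    (fun χ => ae_nonneg χ hx _) (fun χ hχ => by
      simp only [PP_induced hb (by omega : 1 ≤ m') χ hχ])
  refine h1.trans (le_trans ?_ h)
  refine le_trans (Finset.sum_le_sum (f := fun χ : DirichletCharacter ℂ (b ^ m') =>
      ∫ t in Set.Icc (-T) T ∩ {t | y ≤ ‖PP χ t x‖ / x}, (‖PP χ t x‖ / x) ^ q)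
      (g := fun χ => ∫ t in Gt χ κ T ∩ {t | y' ≤ ‖PP χ t x‖ / x}, (‖PP χ t x‖ / x) ^ q)
      fun χ hχ => ?_) (Finset.sum_le_sum_of_subset_of_nonneg (Finset.subset_univ _)
      fun χ _ _ => ae_nonneg χ hx _)
  refine ae_mono χ hx hq (T := T) (Set.inter_subset_left.trans (ae_Gt_sub _ _ _)) ?_
  rintro t ⟨ht1, ht2⟩
  rw [Finset.mem_filter] at hχ
  exact ⟨⟨abs_le.2 (Set.mem_Icc.1 ht1), fun h => absurd h hχ.2⟩, le_trans hyy ht2⟩

open Classical in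
/-- moments over the characters mod `b` -/
theorem ae_mom_base {b m : ℕ} (hb : 2 ≤ b) {T x κ t₀ q y y' A : ℝ} (hx : 0 < x) (hκ : κ ≤ t₀)
    (hq : 0 ≤ q) (hyy : y' ≤ y)
    (h : ∑ χ : DirichletCharacter ℂ (b ^ 1),
      ∫ t in Gt χ κ T ∩ {t | y' ≤ ‖PP χ t x‖ / x}, (‖PP χ t x‖ / x) ^ q ≤ A) :
    ∑ χ ∈ (Finset.univ : Finset (DirichletCharacter ℂ (b ^ m))).filter
      (fun χ => χ.FactorsThrough b),
      ∫ t in {t : ℝ | t₀ ≤ |t| ∧ |t| ≤ T} ∩ {t | y ≤ ‖PP χ t x‖ / x}, (‖PP χ t x‖ / x) ^ q ≤ A := by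
  have h1 := sum_base (m := m) hb
    (fun χ => ∫ t in {t : ℝ | t₀ ≤ |t| ∧ |t| ≤ T} ∩ {t | y ≤ ‖PP χ t x‖ / x},
      (‖PP χ t x‖ / x) ^ q)
    (fun χ => ∫ t in {t : ℝ | t₀ ≤ |t| ∧ |t| ≤ T} ∩ {t | y ≤ ‖PP χ t x‖ / x},
      (‖PP χ t x‖ / x) ^ q)
    (fun χ => ae_nonneg χ hx _) (fun χ hχ => by
      simp only [PP_induced hb (le_refl 1) χ hχ])
  refine h1.trans (le_trans (Finset.sum_le_sum fun χ _ => ?_) h)
  refine ae_mono χ hx hq (T := T) (Set.inter_subset_left.trans (ae_Gt_sub _ _ _)) ?_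
  rintro t ⟨ht1, ht2⟩
  exact ⟨⟨ht1.2, fun _ => hκ.trans ht1.1⟩, le_trans hyy ht2⟩

open Classical in
theorem ae_level {b p m m' : ℕ} (hb : Bas b p) (hm : 1 ≤ m) (hm' : 2 ≤ m') {F : Finset ℕ}
    {V : ℝ → ℝ} (hV : ∀ y, 0 ≤ V y ∧ V y ≤ 1) {T x κ : ℝ} (hx : 1 ≤ x) (hT : 0 < T)
    {s E A U y y' p' p₁ : ℝ}
    (hs : ∀ χ : DirichletCharacter ℂ (b ^ m), lv χ = m' → ¬ χ.FactorsThrough b → ∀ t : ℝ,
      ‖cc b p F V χ t‖ ≤ s * (RR b p m F).card)
    (hp' : 1 ≤ p') (hp'' : p' < 4 / 3) (hp₁ : 1 ≤ p₁) (hp₁' : p₁ < 4 / 3) (hU : 1 ≤ U)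
    (hy : 0 < y) (hyU : y ≤ U⁻¹) (hs0 : 0 ≤ s) (hyy : y' ≤ y)
    (hE : ∑ χ : DirichletCharacter ℂ (b ^ m), ∫ t in (-T)..T, ‖cc b p F V χ t‖ ^ 4 ≤
      E * ((RR b p m F).card : ℝ) ^ 4)
    (hA' : ∑ χ : DirichletCharacter ℂ (b ^ m'),
      ∫ t in Gt χ κ T ∩ {t | y' ≤ ‖PP χ t x‖ / x}, (‖PP χ t x‖ / x) ^ p' ≤ A)
    (hA : ∑ χ : DirichletCharacter ℂ (b ^ m'), ∫ t in Gt χ κ T, (‖PP χ t x‖ / x) ^ p₁ ≤ A) :
    ∑ χ ∈ ((Finset.univ : Finset (DirichletCharacter ℂ (b ^ m))).filter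
      (fun χ => ¬ χ.FactorsThrough b)).filter (fun χ => lv χ = m'),
      ∫ t in (-T)..T, ‖cc b p F V χ t‖ * ‖PP χ t x‖ ≤
      (RR b p m F).card * x * (s * U ^ (p' - 1) * A +
      E ^ (1 / 4 : ℝ) * (U ^ (-(4 / 3 - p')) * A) ^ (3 / 4 : ℝ) +
      E ^ (1 / 4 : ℝ) * (y ^ (4 / 3 - p₁) * A) ^ (3 / 4 : ℝ)) := by
  have hb2 : 2 ≤ b := by have := hb.three; omega
  have hx0 : 0 < x := by linarith
  have hsub : ((Finset.univ : Finset (DirichletCharacter ℂ (b ^ m))).filter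
      (fun χ => ¬ χ.FactorsThrough b)).filter (fun χ => lv χ = m') ⊆
      (Finset.univ : Finset (DirichletCharacter ℂ (b ^ m))).filter (fun χ => lv χ = m') := by
    intro χ hχ
    rw [Finset.mem_filter] at hχ ⊢
    exact ⟨Finset.mem_univ _, hχ.2⟩
  have h1 := cell hb hm hV (((Finset.univ : Finset (DirichletCharacter ℂ (b ^ m))).filter
      (fun χ => ¬ χ.FactorsThrough b)).filter (fun χ => lv χ = m'))
      (J := Set.Icc (-T) T) measurableSet_Icc hx hT (subset_refl _)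
      (s := s) (E := E) (A := A) (U := U) (y := y) (p' := p') (p₁ := p₁)
      (fun χ hχ t _ => by
        rw [Finset.mem_filter, Finset.mem_filter] at hχ
        exact hs χ hχ.2 hχ.1.2 t)
      hp' hp'' hp₁ hp₁' hU hy hyU hs0 hE
      ((Finset.sum_le_sum_of_subset_of_nonneg hsub fun χ _ _ => ae_nonneg χ hx0 _).trans
        (ae_mom_level hb2 hm' hx0 (by linarith) hyy hA'))
      ((Finset.sum_le_sum_of_subset_of_nonneg hsub fun χ _ _ => ae_nonneg χ hx0 _).trans (by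
        have h2 := ae_mom_level (m := m) (y := -1) (y' := -1) (κ := κ) (T := T) (A := A) (q := p₁)
          hb2 hm' hx0 (by linarith) (le_refl _) (by
            refine le_trans (le_of_eq ?_) hA
            refine Finset.sum_congr rfl fun χ _ => ?_
            have : {t : ℝ | (-1 : ℝ) ≤ ‖PP χ t x‖ / x} = Set.univ := by
              ext t; simp only [Set.mem_ofPred_eq, Set.mem_univ, iff_true]
              have : 0 ≤ ‖PP χ t x‖ / x := div_nonneg (norm_nonneg _) hx0.le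
              linarith
            rw [this, Set.inter_univ])
        refine le_trans (le_of_eq ?_) h2
        refine Finset.sum_congr rfl fun χ _ => ?_
        have : {t : ℝ | (-1 : ℝ) ≤ ‖PP χ t x‖ / x} = Set.univ := by
          ext t; simp only [Set.mem_ofPred_eq, Set.mem_univ, iff_true]
          have : 0 ≤ ‖PP χ t x‖ / x := div_nonneg (norm_nonneg _) hx0.le
          linarith
        rw [this, Set.inter_univ]))
  refine le_trans (le_of_eq ?_) h1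
  refine Finset.sum_congr rfl fun χ _ => ?_
  rw [intervalIntegral.integral_of_le (by linarith), ← integral_Icc_eq_integral_Ioc]

open Classical in
theorem ae_base {b p m : ℕ} (hb : Bas b p) (hm : 1 ≤ m) {F : Finset ℕ}
    {V : ℝ → ℝ} (hV : ∀ y, 0 ≤ V y ∧ V y ≤ 1) {T x κ t₀ : ℝ} (hx : 1 ≤ x) (hT : 0 < T)
    (hκ : κ ≤ t₀) {s E A U y y' p' p₁ : ℝ}
    (hs : ∀ χ : DirichletCharacter ℂ (b ^ m), χ.FactorsThrough b → ∀ t : ℝ, t₀ ≤ |t| → |t| ≤ T →
      ‖cc b p F V χ t‖ ≤ s * (RR b p m F).card)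
    (hp' : 1 ≤ p') (hp'' : p' < 4 / 3) (hp₁ : 1 ≤ p₁) (hp₁' : p₁ < 4 / 3) (hU : 1 ≤ U)
    (hy : 0 < y) (hyU : y ≤ U⁻¹) (hs0 : 0 ≤ s) (hyy : y' ≤ y)
    (hE : ∑ χ : DirichletCharacter ℂ (b ^ m), ∫ t in (-T)..T, ‖cc b p F V χ t‖ ^ 4 ≤
      E * ((RR b p m F).card : ℝ) ^ 4)
    (hA' : ∑ χ : DirichletCharacter ℂ (b ^ 1),
      ∫ t in Gt χ κ T ∩ {t | y' ≤ ‖PP χ t x‖ / x}, (‖PP χ t x‖ / x) ^ p' ≤ A)
    (hA : ∑ χ : DirichletCharacter ℂ (b ^ 1), ∫ t in Gt χ κ T, (‖PP χ t x‖ / x) ^ p₁ ≤ A) :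
    ∑ χ ∈ (Finset.univ : Finset (DirichletCharacter ℂ (b ^ m))).filter
      (fun χ => χ.FactorsThrough b),
      ∫ t in {t : ℝ | t₀ ≤ |t| ∧ |t| ≤ T}, ‖cc b p F V χ t‖ * ‖PP χ t x‖ ≤
      (RR b p m F).card * x * (s * U ^ (p' - 1) * A +
      E ^ (1 / 4 : ℝ) * (U ^ (-(4 / 3 - p')) * A) ^ (3 / 4 : ℝ) +
      E ^ (1 / 4 : ℝ) * (y ^ (4 / 3 - p₁) * A) ^ (3 / 4 : ℝ)) := by
  have hb2 : 2 ≤ b := by have := hb.three; omega
  have hx0 : 0 < x := by linarith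
  have hJ : MeasurableSet {t : ℝ | t₀ ≤ |t| ∧ |t| ≤ T} :=
    (measurableSet_le measurable_const continuous_abs.measurable).inter
      (measurableSet_le continuous_abs.measurable measurable_const)
  have hun : ∀ χ : DirichletCharacter ℂ (b ^ m),
      {t : ℝ | (-1 : ℝ) ≤ ‖PP χ t x‖ / x} = Set.univ := by
    intro χ
    ext t; simp only [Set.mem_ofPred_eq, Set.mem_univ, iff_true]
    have : 0 ≤ ‖PP χ t x‖ / x := div_nonneg (norm_nonneg _) hx0.le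
    linarith
  have hun' : ∀ χ : DirichletCharacter ℂ (b ^ 1),
      {t : ℝ | (-1 : ℝ) ≤ ‖PP χ t x‖ / x} = Set.univ := by
    intro χ
    ext t; simp only [Set.mem_ofPred_eq, Set.mem_univ, iff_true]
    have : 0 ≤ ‖PP χ t x‖ / x := div_nonneg (norm_nonneg _) hx0.le
    linarith
  exact cell hb hm hV ((Finset.univ : Finset (DirichletCharacter ℂ (b ^ m))).filter
      (fun χ => χ.FactorsThrough b)) hJ hx hT
      (fun t ht => Set.mem_Icc.2 (abs_le.1 ht.2))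
      (s := s) (E := E) (A := A) (U := U) (y := y) (p' := p') (p₁ := p₁)
      (fun χ hχ t ht => by
        rw [Finset.mem_filter] at hχ
        exact hs χ hχ.2 t ht.1 ht.2)
      hp' hp'' hp₁ hp₁' hU hy hyU hs0 hE
      (ae_mom_base hb2 hx0 hκ (by linarith) hyy hA')
      (by
        have h2 := ae_mom_base (m := m) (y := -1) (y' := -1) (κ := κ) (T := T) (A := A) (q := p₁)
          (t₀ := t₀) hb2 hx0 hκ (by linarith) (le_refl _) (by
            refine le_trans (le_of_eq ?_) hA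
            refine Finset.sum_congr rfl fun χ _ => ?_
            rw [hun' χ, Set.inter_univ])
        refine le_trans (le_of_eq ?_) h2
        refine Finset.sum_congr rfl fun χ _ => ?_
        rw [hun χ, Set.inter_univ])


theorem ae_block2 {J w i l : ℕ} (h1 : 1 ≤ i) (h4 : i + l ≤ 2 ^ J * w)
    (hu : ∀ j, i ≤ j → j < i + l → j / w ∈ Bk J) : Finset.Ico i (i + l) ⊆ Fr J w := by
  intro j hj
  rw [Finset.mem_Ico] at hj
  unfold Fr
  rw [Finset.mem_filter, Finset.mem_Ico]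
  exact ⟨⟨by omega, by omega⟩, hu j hj.1 hj.2⟩

theorem ae_dyad {J : ℕ} {τ W : ℝ} (h0 : W + W / 2 < τ) (hJ : τ ≤ 2 ^ J * W + W / 2) :
    ∃ j < J, 2 ^ j * W + W / 2 < τ ∧ τ ≤ 2 ^ (j + 1) * W + W / 2 := by
  classical
  have hex : ∃ j : ℕ, τ ≤ 2 ^ j * W + W / 2 := ⟨J, hJ⟩
  have h1 := Nat.find_spec hex
  have h2 : Nat.find hex ≤ J := Nat.find_min' hex hJ
  have h3 : Nat.find hex ≠ 0 := by
    intro h
    rw [h, pow_zero, one_mul] at h1
    linarith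
  obtain ⟨j, hj⟩ := Nat.exists_eq_succ_of_ne_zero h3
  refine ⟨j, by omega, ?_, ?_⟩
  · have := Nat.find_min hex (m := j) (by omega)
    exact not_le.1 this
  · rw [hj] at h1; exact h1

theorem ae_find {b J w : ℕ} (hb : 2 ≤ b) (hw : 12 ≤ w) {t : ℝ}
    (h1 : (b : ℝ) ^ ((w : ℝ) / 3) ≤ |t|) (h2 : |t| ≤ (b : ℝ) ^ (2 ^ J * w + w / 4)) :
    ∃ i, 1 ≤ i ∧ i + w / 12 ≤ 2 ^ J * w ∧ Finset.Ico i (i + w / 12) ⊆ Fr J w ∧
      (b : ℝ) ^ (i + w / 12) ≤ |t| ∧ |t| ≤ (b : ℝ) ^ (2 * i) := by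
  have hβ : (1 : ℝ) < b := by exact_mod_cast (by omega : 1 < b)
  have hβ0 : (0 : ℝ) < b := by linarith
  have ht0 : 0 < |t| := lt_of_lt_of_le (Real.rpow_pos_of_pos hβ0 _) h1
  have hW : (12 : ℝ) ≤ w := by exact_mod_cast hw
  set τ : ℝ := Real.logb b |t| with hτ
  have htt : |t| = (b : ℝ) ^ τ := (Real.rpow_logb hβ0 (by linarith [hβ]) ht0).symm
  have ha : (w : ℝ) / 3 ≤ τ := by
    rw [htt] at h1; exact (Real.rpow_le_rpow_left_iff hβ).1 h1
  have hc : τ ≤ 2 ^ J * w + ((w / 4 : ℕ) : ℝ) := by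
    rw [htt, ← Real.rpow_natCast, Real.rpow_le_rpow_left_iff hβ] at h2
    push_cast at h2
    exact h2
  have hw4 : ((w / 4 : ℕ) : ℝ) ≤ (w : ℝ) / 4 := by exact_mod_cast Nat.cast_div_le
  have hw12 : ((w / 12 : ℕ) : ℝ) ≤ (w : ℝ) / 12 := by exact_mod_cast Nat.cast_div_le
  have fin : ∀ i : ℕ, ((i : ℝ) + ((w / 12 : ℕ) : ℝ) ≤ τ) → τ ≤ 2 * (i : ℝ) →
      (b : ℝ) ^ (i + w / 12) ≤ |t| ∧ |t| ≤ (b : ℝ) ^ (2 * i) := by
    intro i hi1 hi2
    constructor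
    · rw [htt, ← Real.rpow_natCast]
      refine Real.rpow_le_rpow_of_exponent_le hβ.le ?_
      push_cast; exact hi1
    · rw [htt, ← Real.rpow_natCast]
      refine Real.rpow_le_rpow_of_exponent_le hβ.le ?_
      push_cast; exact hi2
  have h2J : 1 ≤ 2 ^ J := Nat.one_le_two_pow
  by_cases hcase : τ ≤ (w : ℝ) + (w : ℝ) / 2
  · refine ⟨⌈τ / 2⌉₊, ?_, ?_, ?_, ?_⟩
    · have : τ / 2 ≤ ⌈τ / 2⌉₊ := Nat.le_ceil _
      have h3 : (1 : ℝ) ≤ ⌈τ / 2⌉₊ := by linarith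
      exact_mod_cast h3
    · have h3 : (⌈τ / 2⌉₊ : ℝ) < τ / 2 + 1 := Nat.ceil_lt_add_one (by linarith)
      have h4 : ((⌈τ / 2⌉₊ + w / 12 : ℕ) : ℝ) ≤ ((w : ℕ) : ℝ) := by push_cast; linarith
      have h5 : ⌈τ / 2⌉₊ + w / 12 ≤ w := by exact_mod_cast h4
      exact h5.trans (by nlinarith)
    · have h3 : (⌈τ / 2⌉₊ : ℝ) < τ / 2 + 1 := Nat.ceil_lt_add_one (by linarith)
      have h4 : ((⌈τ / 2⌉₊ + w / 12 : ℕ) : ℝ) ≤ ((w : ℕ) : ℝ) := by push_cast; linarith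
      have h5 : ⌈τ / 2⌉₊ + w / 12 ≤ w := by exact_mod_cast h4
      have h6 : (1 : ℝ) ≤ ⌈τ / 2⌉₊ := by
        have : τ / 2 ≤ ⌈τ / 2⌉₊ := Nat.le_ceil _
        linarith
      refine ae_block (u := 0) (by omega) (by unfold Bk; simp) (by exact_mod_cast h6) (by omega)
        (by omega) (h5.trans (by nlinarith))
    · have h3 : (⌈τ / 2⌉₊ : ℝ) < τ / 2 + 1 := Nat.ceil_lt_add_one (by linarith)
      have h7 : τ / 2 ≤ ⌈τ / 2⌉₊ := Nat.le_ceil _
      exact fin _ (by linarith) (by linarith)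
  · rw [not_le] at hcase
    obtain ⟨j, hjJ, hj1, hj2⟩ := ae_dyad (J := J) (τ := τ) (W := w) hcase (by linarith)
    have h3 : 2 ^ j * w + w ≤ 2 ^ J * w := by
      have h4 : 2 ^ (j + 1) ≤ 2 ^ J := Nat.pow_le_pow_right (by norm_num) hjJ
      have h5 : 1 ≤ 2 ^ j := Nat.one_le_two_pow
      calc 2 ^ j * w + w ≤ 2 ^ j * w + 2 ^ j * w := by nlinarith
        _ = 2 ^ (j + 1) * w := by ring
        _ ≤ 2 ^ J * w := Nat.mul_le_mul_right _ h4
    have h5 : 1 ≤ 2 ^ j := Nat.one_le_two_pow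
    have h6 : w ≤ 2 ^ j * w := by nlinarith
    refine ⟨2 ^ j * w + (w + 3) / 4, by omega, by omega, ?_, ?_⟩
    · refine ae_block (u := 2 ^ j) (by omega) ?_ (by omega) (by omega) ?_ (by omega)
      · unfold Bk
        rw [Finset.mem_union, Finset.mem_union]
        exact Or.inl (Or.inr (Finset.mem_image.2 ⟨j, Finset.mem_range.2 hjJ, rfl⟩))
      · have : (2 ^ j + 1) * w = 2 ^ j * w + w := by ring
        omega
    · have h7 : (((w + 3) / 4 : ℕ) : ℝ) ≤ ((w : ℝ) + 3) / 4 := by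
        have : (((w + 3) / 4 : ℕ) : ℝ) ≤ (((w + 3 : ℕ) : ℝ)) / 4 := by exact_mod_cast Nat.cast_div_le
        push_cast at this ⊢; exact this
      have h8 : (w : ℝ) / 4 ≤ (((w + 3) / 4 : ℕ) : ℝ) := by
        rw [div_le_iff₀ (by norm_num)]
        have : w ≤ (w + 3) / 4 * 4 := by omega
        exact_mod_cast this
      refine fin _ ?_ ?_
      · push_cast at h7 h8 ⊢
        linarith
      · push_cast at h7 h8 ⊢
        have : (2 : ℝ) ^ (j + 1) = 2 * 2 ^ j := by ring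
        rw [this] at hj2
        nlinarith

/-- the level of `m'` between powers of two -/
theorem ae_pow {J w m' : ℕ} (h1 : w < m') (h2 : m' ≤ 2 ^ J * w) :
    ∃ l < J, 2 ^ l * w < m' ∧ m' ≤ 2 ^ (l + 1) * w := by
  classical
  have hex : ∃ j : ℕ, m' ≤ 2 ^ j * w := ⟨J, h2⟩
  have g1 := Nat.find_spec hex
  have g2 : Nat.find hex ≤ J := Nat.find_min' hex h2
  have g3 : Nat.find hex ≠ 0 := by
    intro h
    rw [h, pow_zero, one_mul] at g1
    omega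
  obtain ⟨j, hj⟩ := Nat.exists_eq_succ_of_ne_zero g3
  refine ⟨j, by omega, ?_, ?_⟩
  · have := Nat.find_min hex (m := j) (by omega)
    exact not_le.1 this
  · rw [hj] at g1; exact g1

theorem ae_two {J : ℕ} (hJ : 5 ≤ J) : 2 ^ (J - 1) + 2 * J ≤ 2 ^ J := by
  induction J, hJ using Nat.le_induction with
  | base => norm_num
  | succ n hn ih =>
    have h1 : 2 ^ n = 2 ^ (n - 1) * 2 := by
      rw [← pow_succ]; congr 1; omega
    have h2 : 2 ^ (n + 1) = 2 ^ n * 2 := pow_succ _ _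
    have h3 : n + 1 - 1 = n := by omega
    have h4 : 16 ≤ 2 ^ (n - 1) := by
      calc 16 = 2 ^ 4 := by norm_num
        _ ≤ 2 ^ (n - 1) := Nat.pow_le_pow_right (by norm_num) (by omega)
    rw [h3]
    omega

/-- choice of `J₀` -/
theorem ae_J {u γ : ℝ} (hu : 0 < u) (hγ : 0 < γ) : ∃ J₀ : ℕ, ∀ J : ℕ, J₀ ≤ J →
    5 ≤ J ∧ 27 * (J : ℝ) / 2 + 8 ≤ u * 2 ^ J ∧ 9 * (J : ℝ) + 5 ≤ 3 * (u * γ) * 2 ^ J := by
  have key : ∀ c : ℝ, 0 < c → ∀ a d : ℝ, ∀ᶠ J : ℕ in atTop, a * (J : ℝ) + d ≤ c * 2 ^ J := by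
    intro c hc a d
    have h := ae_lin_exp (β := 2) (c := 1) (by norm_num) one_pos (a / c) (d / c)
    filter_upwards [h] with n hn
    rw [one_mul, Real.rpow_natCast] at hn
    have h2 : a * (n : ℝ) + d = c * (a / c * n + d / c) := by field_simp
    rw [h2]
    exact mul_le_mul_of_nonneg_left hn hc.le
  have h1 := key u hu (27 / 2) 8
  have h2 := key (3 * (u * γ)) (by positivity) 9 5
  have h3 : ∀ᶠ J : ℕ in atTop, 5 ≤ J := eventually_ge_atTop 5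
  obtain ⟨J₀, hJ₀⟩ := eventually_atTop.1 (h1.and (h2.and h3))
  refine ⟨J₀, fun J hJ => ?_⟩
  obtain ⟨a1, a2, a3⟩ := hJ₀ J hJ
  exact ⟨a3, by linarith, a2⟩


theorem errProp_of {f₀ : ℝ} (h₀ : 5 / 12 < f₀) (h₀' : f₀ ≤ 5 / 9) (hE : EnergyProp)
    (hL : SupLowProp) (hV : VanProp) (hT : SupTopProp) (hS : SmallProp)
    (hB : ∀ f, 5 / 12 < f → f < f₀ → ∃ p₁, 1 ≤ p₁ ∧ p₁ < 4 / 3 ∧ BigAt f p₁) : ErrProp f₀ := by
  classical
  obtain ⟨CE, hCE1, hE⟩ := hE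
  obtain ⟨CL, hCL1, hL⟩ := hL
  obtain ⟨CT, hCT1, hT⟩ := hT
  intro V₀ η hBp f hf1 hf2
  obtain ⟨p₁, hp1, hp1', hbig⟩ := hB f hf1 hf2
  obtain ⟨ua, hua, hSa⟩ := hS f (10 / 9) (by linarith) (by linarith) (by linarith) (by norm_num)
  obtain ⟨ub, hub, hSb⟩ := hS (43 / 100) 1 (by norm_num) (by norm_num) (by norm_num) (by norm_num)
  set u : ℝ := min ua ub with hu_def
  have hu : 0 < u := lt_min hua hub
  have hua' : u ≤ ua := min_le_left _ _
  have hub' : u ≤ ub := min_le_right _ _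
  have hγ : 0 < 4 / 3 - p₁ := by linarith
  -- Lipschitz constant
  obtain ⟨K, hK0, hK⟩ : ∃ K : ℝ, 0 ≤ K ∧ ∀ y z, |V₀ y - V₀ z| ≤ K * |y - z| := by
    have hcs : HasCompactSupport V₀ := by
      refine HasCompactSupport.intro (K := Set.Icc 0 1) isCompact_Icc fun y hy => ?_
      by_contra h
      have h1 : y ∈ tsupport V₀ := subset_tsupport _ (Function.mem_support.2 h)
      exact hy (Set.Ioo_subset_Icc_self (hBp.V_supp h1))
    obtain ⟨K, hK⟩ := (hBp.V_smooth 1).lipschitzWith_of_hasCompactSupport hcs (by norm_num)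
    refine ⟨K, K.2, fun y z => ?_⟩
    have := hK.dist_le_mul y z
    rwa [Real.dist_eq, Real.dist_eq] at this
  obtain ⟨J₀, hJ₀⟩ := ae_J hu hγ
  refine ⟨J₀, fun J hJ => ?_⟩
  obtain ⟨hJ5, hJa, hJb⟩ := hJ₀ J hJ
  set CC : ℝ := max CE (max CL CT) with hCC
  have hCE : CE ≤ CC := le_max_left _ _
  have hCL : CL ≤ CC := (le_max_left _ _).trans (le_max_right _ _)
  have hCT : CT ≤ CC := (le_max_right _ _).trans (le_max_right _ _)
  have hCC1 : 1 ≤ CC := hCE1.trans hCE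
  refine ⟨⌈(CC ^ 2 ^ J) ^ 48⌉₊ + 3, fun b p hbb hbas A hA => ?_⟩
  have hb3 : 3 ≤ b := hbas.three
  have hb2 : 2 ≤ b := by omega
  have hβ : (1 : ℝ) < b := by exact_mod_cast (by omega : 1 < b)
  have hβ0 : (0 : ℝ) < b := by linarith
  have hCb : ∀ C : ℝ, 1 ≤ C → C ≤ CC → ∀ w : ℕ, C ^ (2 ^ J * w) ≤ (b : ℝ) ^ (1 / 48 * (w : ℝ)) := by
    intro C hC1 hC2 w
    have h1 : (CC ^ 2 ^ J) ^ 48 ≤ (b : ℝ) := by
      have h2 : (CC ^ 2 ^ J) ^ 48 ≤ (⌈(CC ^ 2 ^ J) ^ 48⌉₊ : ℝ) := Nat.le_ceil _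
      have h3 : ((⌈(CC ^ 2 ^ J) ^ 48⌉₊ + 3 : ℕ) : ℝ) ≤ b := by exact_mod_cast hbb
      push_cast at h3
      linarith
    have h2 : CC ^ 2 ^ J ≤ (b : ℝ) ^ (1 / 48 : ℝ) := by
      have h3 : 0 ≤ CC ^ 2 ^ J := by positivity
      have h4 := Real.rpow_le_rpow (by positivity) h1 (by norm_num : (0 : ℝ) ≤ 1 / 48)
      have h5 : ((CC ^ 2 ^ J) ^ 48) ^ (1 / 48 : ℝ) = CC ^ 2 ^ J := by
        rw [← Real.rpow_natCast (CC ^ 2 ^ J) 48, ← Real.rpow_mul h3]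
        norm_num
      rwa [h5] at h4
    calc C ^ (2 ^ J * w) ≤ CC ^ (2 ^ J * w) := pow_le_pow_left₀ (by linarith) hC2 _
      _ = (CC ^ 2 ^ J) ^ w := by rw [pow_mul]
      _ ≤ ((b : ℝ) ^ (1 / 48 : ℝ)) ^ w := pow_le_pow_left₀ (by positivity) h2 _
      _ = (b : ℝ) ^ (1 / 48 * (w : ℝ)) := by
          rw [← Real.rpow_natCast, ← Real.rpow_mul hβ0.le]
  obtain ⟨xa, hxa⟩ := hbig b hb2 (1 / (200 * A)) (by positivity) (1 / (3 * A)) (by positivity)
  obtain ⟨xb, hxb⟩ := hSa b hb2 (1 / (200 * A)) (by positivity) (1 / (3 * A)) (by positivity)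
  obtain ⟨xc, hxc⟩ := hSb b hb2 (1 / (200 * A)) (by positivity) (1 / (3 * A)) (by positivity)
  have e1 := ae_lin_exp hβ (by norm_num : (0 : ℝ) < 1 / 48)
    ((1 + K) * (2 ^ J * Real.log b) * b ^ 3) ((1 + K) * b ^ 3)
  have e2 := ae_lin_exp hβ one_pos 0 (max xa (max xb xc))
  have e3 := ae_lin_exp hβ (by norm_num : (0 : ℝ) < 14 / 15) (6 * 2 ^ J) 6
  have e4 := ae_lin_exp hβ (by norm_num : (0 : ℝ) < 1 / 50) 0 6
  have e5 : ∀ᶠ w : ℕ in atTop, 12 ≤ w := eventually_ge_atTop 12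
  obtain ⟨w₀, hw₀⟩ := eventually_atTop.1 (e1.and (e2.and (e3.and (e4.and e5))))
  refine ⟨w₀, fun w hw k hk1 hk2 => ?_⟩
  obtain ⟨g1, g2, g3, g4, hw12⟩ := hw₀ w hw
  have hW : (12 : ℝ) ≤ w := by exact_mod_cast hw12
  set W : ℝ := (w : ℝ) with hWdef
  have hW0 : 0 ≤ W := by linarith
  set m : ℕ := 2 ^ J * w with hm
  have h2J : 1 ≤ 2 ^ J := Nat.one_le_two_pow
  have h2J' : (1 : ℝ) ≤ 2 ^ J := by exact_mod_cast h2J
  have hwm : w ≤ m := by rw [hm]; nlinarith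
  have hm1 : 1 ≤ m := by omega
  have hmr : (m : ℝ) = 2 ^ J * W := by rw [hm]; push_cast; rfl
  have hlogb : 0 ≤ Real.log b := Real.log_nonneg hβ.le
  have hr : ∀ a : ℝ, 0 < (b : ℝ) ^ a := fun a => Real.rpow_pos_of_pos hβ0 a
  have hmono : ∀ a c : ℝ, a ≤ c → (b : ℝ) ^ a ≤ (b : ℝ) ^ c := fun a c h =>
    Real.rpow_le_rpow_of_exponent_le hβ.le h
  -- `k`
  have hkk : 18 / 5 * (2 ^ J * W) + W ≤ (k : ℝ) - 1 := by
    have h1 : 0 ≤ (k : ℝ) - 1 - W := by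
      by_contra h
      rw [not_le] at h
      have : f * ((k : ℝ) - 1 - W) < 0 := mul_neg_of_pos_of_neg (by linarith) h
      have h3 : 0 ≤ 2 * (2 ^ J * W) := by positivity
      linarith
    have h2 : f * ((k : ℝ) - 1 - W) ≤ 5 / 9 * ((k : ℝ) - 1 - W) :=
      mul_le_mul_of_nonneg_right (by linarith) h1
    linarith
  have hkW : 2 ^ J * W ≤ (k : ℝ) - 1 := by
    have : 0 ≤ 2 ^ J * W := by positivity
    linarith
  have hWJ : W ≤ 2 ^ J * W := by nlinarith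
  have hk1' : 1 ≤ k := by
    have : (1 : ℝ) ≤ k := by linarith
    exact_mod_cast this
  set x : ℝ := (b : ℝ) ^ (k - 1) with hx
  have hxr : x = (b : ℝ) ^ ((k : ℝ) - 1) := by
    rw [hx, ← Real.rpow_natCast, Nat.cast_sub hk1', Nat.cast_one]
  have hx0 : 0 < x := by rw [hxr]; exact hr _
  have hx1 : 1 ≤ x := by rw [hx]; exact one_le_pow₀ hβ.le
  have hxpow : ∀ a : ℝ, x ^ a = (b : ℝ) ^ (((k : ℝ) - 1) * a) := by
    intro a; rw [hxr, ← Real.rpow_mul hβ0.le]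
  have hxbig : max xa (max xb xc) ≤ x := by
    have h1 : (b : ℝ) ^ (1 * W) ≤ x := by
      rw [hxr]; exact hmono _ _ (by linarith)
    linarith
  have hxa' : xa ≤ x := (le_max_left _ _).trans hxbig
  have hxb' : xb ≤ x := (le_max_left _ _).trans ((le_max_right _ _).trans hxbig)
  have hxc' : xc ≤ x := (le_max_right _ _).trans ((le_max_right _ _).trans hxbig)
  set Aε : ℝ := x ^ (1 / (200 * A)) with hAε
  have hAε0 : 0 ≤ Aε := Real.rpow_nonneg hx0.le _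
  have hAε1 : Aε ≤ (b : ℝ) ^ (1 / 200 * W) := by
    rw [hAε, hxpow]
    refine hmono _ _ ?_
    rw [mul_one_div, div_le_iff₀ (by positivity)]
    have : 1 / 200 * W * (200 * A) = A * W := by ring
    linarith
  set κx : ℝ := x ^ (1 / (3 * A)) with hκx
  have hκx1 : κx ≤ (b : ℝ) ^ (W / 3) := by
    rw [hκx, hxpow]
    refine hmono _ _ ?_
    rw [mul_one_div, div_le_iff₀ (by positivity)]
    have : W / 3 * (3 * A) = A * W := by ring
    linarith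
  set T : ℝ := (b : ℝ) ^ (m + w / 4) with hTdef
  have hT0 : 0 < T := by positivity
  have hTr : T = (b : ℝ) ^ ((m : ℝ) + ((w / 4 : ℕ) : ℝ)) := by
    rw [hTdef, ← Real.rpow_natCast]; push_cast; rfl
  have hw4 : ((w / 4 : ℕ) : ℝ) ≤ W / 4 := by exact_mod_cast Nat.cast_div_le
  have hmT : (b : ℝ) ^ m ≤ T := pow_le_pow_right₀ hβ.le (by omega)
  set F := Fr J w with hF
  have hFs : F ⊆ Finset.Ico 1 m := ae_Fr_sub J w
  set V : ℝ → ℝ := fun y => V₀ (y - p) with hVdef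
  have hVr : ∀ y, 0 ≤ V y ∧ V y ≤ 1 := fun y => hBp.V_range _
  have hVK : ∀ y z, |V y - V z| ≤ K * |y - z| := by
    intro y z
    have := hK (y - p) (z - p)
    rwa [sub_sub_sub_cancel_right] at this
  -- size of `b^m' T`
  have hlow : ∀ m' : ℕ, m' ≤ m → (b : ℝ) ^ m' ≤ T := fun m' h =>
    (pow_le_pow_right₀ hβ.le h).trans hmT
  have hszf : ∀ m' : ℕ, m' ≤ m → (b : ℝ) ^ m' * T ≤ x ^ f := by
    intro m' h
    rw [hTr, ← Real.rpow_natCast, ← Real.rpow_add hβ0, hxpow]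
    refine hmono _ _ ?_
    have h1 : (m' : ℝ) ≤ m := by exact_mod_cast h
    have h2 : f * ((k : ℝ) - 1 - W) = ((k : ℝ) - 1) * f - f * W := by ring
    have h3 : 5 / 12 * W ≤ f * W := mul_le_mul_of_nonneg_right hf1.le hW0
    rw [hmr] at h1 ⊢
    linarith
  have hsz43 : ∀ m' : ℕ, 2 * m' ≤ m → (b : ℝ) ^ m' * T ≤ x ^ (43 / 100 : ℝ) := by
    intro m' h
    rw [hTr, ← Real.rpow_natCast, ← Real.rpow_add hβ0, hxpow]
    refine hmono _ _ ?_
    have h1 : 2 * (m' : ℝ) ≤ m := by exact_mod_cast h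
    rw [hmr] at h1 ⊢
    linarith
  -- energy
  set Eb : ℝ := (b : ℝ) ^ ((9 * (J : ℝ) + 1) * W) with hEb
  have hEn : ∑ χ : DirichletCharacter ℂ (b ^ m), ∫ t in (-T)..T, ‖cc b p F V χ t‖ ^ 4 ≤
      Eb * ((RR b p m F).card : ℝ) ^ 4 := by
    refine (hE b p m F V hbas hm1 hFs hVr T hmT).trans ?_
    refine mul_le_mul_of_nonneg_right ?_ (by positivity)
    have h1 : CE ^ m ≤ (b : ℝ) ^ (1 / 48 * W) := hCb CE hCE1 hCE w
    have h2 : T / (b : ℝ) ^ m ≤ (b : ℝ) ^ (W / 4) := by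
      rw [div_le_iff₀ (by positivity), hTr, ← Real.rpow_natCast (b : ℝ) m, ← Real.rpow_add hβ0]
      exact hmono _ _ (by linarith)
    have h3 : (b : ℝ) ^ (3 * (F.card + 1)) ≤ (b : ℝ) ^ (9 * (J : ℝ) * W) := by
      rw [← Real.rpow_natCast]
      refine hmono _ _ ?_
      have h4 : (F.card + 1 : ℕ) ≤ 3 * J * w := ae_card (by omega) (by omega)
      have h5 : ((F.card + 1 : ℕ) : ℝ) ≤ ((3 * J * w : ℕ) : ℝ) := by exact_mod_cast h4
      push_cast at h5 ⊢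
      linarith
    calc CE ^ m * (T / (b : ℝ) ^ m) * (b : ℝ) ^ (3 * (F.card + 1)) ≤
        (b : ℝ) ^ (1 / 48 * W) * (b : ℝ) ^ (W / 4) * (b : ℝ) ^ (9 * (J : ℝ) * W) := by
          refine mul_le_mul (mul_le_mul h1 h2 (by positivity) (hr _).le) h3 (by positivity) ?_
          exact mul_nonneg (hr _).le (hr _).le
      _ = (b : ℝ) ^ (1 / 48 * W + W / 4 + 9 * (J : ℝ) * W) := by
          rw [← Real.rpow_add hβ0, ← Real.rpow_add hβ0]
      _ ≤ Eb := hmono _ _ (by linarith)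
  -- parameters of the cells
  have hJr : (5 : ℝ) ≤ J := by exact_mod_cast hJ5
  set U : ℝ := (b : ℝ) ^ ((27 * (J : ℝ) / 2 + 8) * W) with hUdef
  have hU1 : 1 ≤ U := Real.one_le_rpow hβ.le (by positivity)
  set y : ℝ := x ^ (-u) with hy
  have hy0 : 0 < y := Real.rpow_pos_of_pos hx0 _
  have huk : (27 * (J : ℝ) / 2 + 8) * W ≤ ((k : ℝ) - 1) * u := by
    have h1 : (27 * (J : ℝ) / 2 + 8) * W ≤ u * 2 ^ J * W := mul_le_mul_of_nonneg_right hJa hW0
    have h2 : u * (2 ^ J * W) ≤ u * ((k : ℝ) - 1) := mul_le_mul_of_nonneg_left hkW hu.le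
    linarith
  have hyU : y ≤ U⁻¹ := by
    rw [hy, hxpow, hUdef, ← Real.rpow_neg hβ0.le]
    exact hmono _ _ (by linarith)
  have hyτ : y ^ (4 / 3 - p₁) ≤ (b : ℝ) ^ (-((u * (4 / 3 - p₁) * 2 ^ J) * W)) := by
    rw [hy, ← Real.rpow_mul hx0.le, hxpow]
    refine hmono _ _ ?_
    have h2 : (u * (4 / 3 - p₁)) * (2 ^ J * W) ≤ (u * (4 / 3 - p₁)) * ((k : ℝ) - 1) :=
      mul_le_mul_of_nonneg_left hkW (by positivity)
    linarith
  have hya : x ^ (-ua) ≤ y := Real.rpow_le_rpow_of_exponent_le hx1 (by linarith)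
  have hyb : x ^ (-ub) ≤ y := Real.rpow_le_rpow_of_exponent_le hx1 (by linarith)
  have hR0 : (0 : ℝ) ≤ (RR b p m F).card := by positivity
  -- the sup factor
  have hlogm : 0 ≤ (m : ℝ) * Real.log b + 1 := by positivity
  have hb1 : (1 : ℝ) ≤ b := hβ.le
  have hsup : ((m : ℝ) * Real.log b + 1) * b ≤ (b : ℝ) ^ (1 / 48 * W) := by
    refine le_trans ?_ g1
    have h1 : (1 + K) * (2 ^ J * Real.log b) * (b : ℝ) ^ 3 * W + (1 + K) * (b : ℝ) ^ 3 =
        ((m : ℝ) * Real.log b + 1) * ((1 + K) * (b : ℝ) ^ 3) := by rw [hmr]; ring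
    rw [h1]
    refine mul_le_mul_of_nonneg_left ?_ hlogm
    have h2 : (b : ℝ) ≤ (b : ℝ) ^ 3 := by
      calc (b : ℝ) = (b : ℝ) ^ 1 := (pow_one _).symm
        _ ≤ _ := pow_le_pow_right₀ hb1 (by norm_num)
    have h3 : 0 ≤ (b : ℝ) ^ 3 := by positivity
    nlinarith
  have hsup2 : (1 + K) * ((m : ℝ) * Real.log b + 1) * (b : ℝ) ^ 2 * b ≤ (b : ℝ) ^ (1 / 48 * W) := by
    refine le_trans (le_of_eq ?_) g1
    rw [hmr]; ring
  have hsupL : ∀ l : ℕ, CL ^ m * ((m : ℝ) * Real.log b + 1) * b * ((b : ℝ) ^ l)⁻¹ ≤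
      (b : ℝ) ^ (1 / 24 * W - l) := by
    intro l
    have h1 : CL ^ m ≤ (b : ℝ) ^ (1 / 48 * W) := hCb CL hCL1 hCL w
    have h2 : ((b : ℝ) ^ l)⁻¹ = (b : ℝ) ^ (-(l : ℝ)) := by
      rw [Real.rpow_neg hβ0.le, Real.rpow_natCast]
    calc CL ^ m * ((m : ℝ) * Real.log b + 1) * b * ((b : ℝ) ^ l)⁻¹ =
        CL ^ m * (((m : ℝ) * Real.log b + 1) * b) * ((b : ℝ) ^ l)⁻¹ := by ring
      _ ≤ (b : ℝ) ^ (1 / 48 * W) * (b : ℝ) ^ (1 / 48 * W) * ((b : ℝ) ^ l)⁻¹ := by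
          refine mul_le_mul_of_nonneg_right (mul_le_mul h1 hsup ?_ (hr _).le) (by positivity)
          exact mul_nonneg hlogm hβ0.le
      _ = _ := by
          rw [h2, ← Real.rpow_add hβ0, ← Real.rpow_add hβ0]; ring_nf
  -- cells of a level
  have hcell : ∀ m' ∈ Finset.Icc 2 m,
      ∑ χ ∈ ((Finset.univ : Finset (DirichletCharacter ℂ (b ^ m))).filter
        (fun χ => ¬ χ.FactorsThrough b)).filter (fun χ => lv χ = m'),
        ∫ t in (-T)..T, ‖cc b p F V χ t‖ * ‖PP χ t x‖ ≤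
      (RR b p m F).card * x * (3 * (b : ℝ) ^ (-(19 / 20) * W)) := by
    intro m' hm'
    rw [Finset.mem_Icc] at hm'
    obtain ⟨hm'2, hm'm⟩ := hm'
    rcases le_or_gt m' w with hcase | hcase
    · -- level at most `w`: zero
      have h1 : ∀ χ ∈ ((Finset.univ : Finset (DirichletCharacter ℂ (b ^ m))).filter
        (fun χ => ¬ χ.FactorsThrough b)).filter (fun χ => lv χ = m'),
        (∫ t in (-T)..T, ‖cc b p F V χ t‖ * ‖PP χ t x‖) = 0 := by
        intro χ hχ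
        rw [Finset.mem_filter, Finset.mem_filter] at hχ
        obtain ⟨_, _, q3, q4⟩ := lv_spec hb2 hm1 χ hχ.1.2
        rw [hχ.2] at q3 q4
        have hsub : Finset.Ico 1 m' ⊆ F := by
          intro j hj
          rw [Finset.mem_Ico] at hj
          have := ae_block (J := J) (w := w) (u := 0) (i := 1) (l := m' - 1) (by omega)
            (by unfold Bk; simp) (le_refl _) (by omega) (by omega) (by omega)
          exact this (Finset.mem_Ico.2 ⟨hj.1, by omega⟩)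
        have h2 : ∀ t : ℝ, cc b p F V χ t = 0 :=
          hV b p m m' F V hbas hFs hm'2 hm'm hsub χ q3 q4
        simp only [h2, norm_zero, zero_mul, intervalIntegral.integral_zero]
      rw [Finset.sum_eq_zero h1]
      exact mul_nonneg (mul_nonneg hR0 hx0.le) (mul_nonneg (by norm_num) (hr _).le)
    · rcases le_or_gt m' (2 ^ (J - 1) * w) with hcase2 | hcase2
      · -- (α)
        obtain ⟨l, hlJ, hl1, hl2⟩ := ae_pow hcase hcase2
        have h2m : 2 * m' ≤ m := by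
          have h1 : 2 ^ J = 2 * 2 ^ (J - 1) := by
            rw [← pow_succ']; congr 1; omega
          have h2 : m = 2 * (2 ^ (J - 1) * w) := by rw [hm, h1]; ring
          omega
        have hll : 1 ≤ 2 ^ l := Nat.one_le_two_pow
        have hlw : w ≤ 2 ^ l * w := by nlinarith
        have h2l : 2 ^ (l + 1) * w = 2 * (2 ^ l * w) := by ring
        have hlm : 2 ^ l * w + w ≤ m := by omega
        have hsub : Finset.Ico (2 ^ l * w) (2 ^ l * w + w) ⊆ F := by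
          refine ae_block (u := 2 ^ l) (by omega) ?_ (by omega) (le_refl _) ?_ hlm
          · unfold Bk
            rw [Finset.mem_union, Finset.mem_union]
            exact Or.inl (Or.inr (Finset.mem_image.2 ⟨l, Finset.mem_range.2 (by omega), rfl⟩))
          · have : (2 ^ l + 1) * w = 2 ^ l * w + w := by ring
            omega
        have h1 := ae_level (T := T) (x := x) (κ := κx) (m' := m') (F := F) (V := V)
          (s := (b : ℝ) ^ ((-1 + 1 / 24) * W)) (E := Eb) (A := Aε) (U := U) (y := y)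
          (y' := x ^ (-ub)) (p' := 1) (p₁ := p₁) hbas hm1 hm'2 hVr hx1 hT0
          (fun χ hχ hχ' t => by
            obtain ⟨_, _, q3, q4⟩ := lv_spec hb2 hm1 χ hχ'
            rw [hχ] at q3 q4
            refine (hL b p m m' (2 ^ l * w) w F V hbas hFs hVr (by omega) hl1 (by omega) hm'm hlm
              hsub χ q3 q4 t).trans ?_
            refine mul_le_mul_of_nonneg_right ((hsupL w).trans (hmono _ _ ?_)) hR0
            linarith)
          (le_refl _) (by norm_num) hp1 hp1' hU1 hy0 hyU (hr _).le hyb hEn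
          (hxc x hxc' m' T (by omega) (hlow m' hm'm) (hsz43 m' h2m))
          (hxa x hxa' m' T (by omega) (hlow m' hm'm) (hszf m' hm'm))
        refine h1.trans (mul_le_mul_of_nonneg_left ?_ (mul_nonneg hR0 hx0.le))
        refine ae_num hβ hW0 hAε0 hAε1 hUdef hEb hy0.le hyτ (le_refl _) ?_ ?_ ?_
        · norm_num
        · linarith
        · linarith
      · -- (β)
        have h2J2 := ae_two hJ5
        have h1 : 2 ^ J = 2 * 2 ^ (J - 1) := by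
          rw [← pow_succ']; congr 1; omega
        have h2 : m = 2 * (2 ^ (J - 1) * w) := by rw [hm, h1]; ring
        have h3 : 2 ^ (J - 1) * w + 2 * J * w ≤ m := by
          calc 2 ^ (J - 1) * w + 2 * J * w = (2 ^ (J - 1) + 2 * J) * w := by ring
            _ ≤ m := Nat.mul_le_mul_right _ h2J2
        have h4 : 1 ≤ 2 ^ (J - 1) := Nat.one_le_two_pow
        have h5 : w ≤ 2 ^ (J - 1) * w := by nlinarith
        have hsub : Finset.Ico (2 ^ (J - 1) * w) (2 ^ (J - 1) * w + 2 * J * w) ⊆ F := by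
          refine ae_block2 (by omega) h3 fun j hj1 hj2 => ?_
          unfold Bk
          rw [Finset.mem_union]
          right
          rw [Finset.mem_Ico]
          constructor
          · rw [Nat.le_div_iff_mul_le (by omega)]; exact hj1
          · rw [Nat.div_lt_iff_lt_mul (by omega)]
            calc j < 2 ^ (J - 1) * w + 2 * J * w := hj2
              _ = (2 ^ (J - 1) + 2 * J) * w := by ring
        have h6 := ae_level (T := T) (x := x) (κ := κx) (m' := m') (F := F) (V := V)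
          (s := (b : ℝ) ^ ((-2 * (J : ℝ) + 1 / 24) * W)) (E := Eb) (A := Aε) (U := U) (y := y)
          (y' := x ^ (-ua)) (p' := 10 / 9) (p₁ := p₁) hbas hm1 hm'2 hVr hx1 hT0
          (fun χ hχ hχ' t => by
            obtain ⟨_, _, q3, q4⟩ := lv_spec hb2 hm1 χ hχ'
            rw [hχ] at q3 q4
            refine (hL b p m m' (2 ^ (J - 1) * w) (2 * J * w) F V hbas hFs hVr (by omega) hcase2
              (by omega) hm'm h3 hsub χ q3 q4 t).trans ?_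
            refine mul_le_mul_of_nonneg_right ((hsupL (2 * J * w)).trans (hmono _ _ ?_)) hR0
            push_cast
            linarith)
          (by norm_num) (by norm_num) hp1 hp1' hU1 hy0 hyU (hr _).le hya hEn
          (hxb x hxb' m' T (by omega) (hlow m' hm'm) (hszf m' hm'm))
          (hxa x hxa' m' T (by omega) (hlow m' hm'm) (hszf m' hm'm))
        refine h6.trans (mul_le_mul_of_nonneg_left ?_ (mul_nonneg hR0 hx0.le))
        refine ae_num hβ hW0 hAε0 hAε1 hUdef hEb hy0.le hyτ (le_refl _) ?_ ?_ ?_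
        · linarith
        · linarith
        · linarith
  -- characters mod `b`
  have hbase : ∑ χ ∈ (Finset.univ : Finset (DirichletCharacter ℂ (b ^ m))).filter
      (fun χ => χ.FactorsThrough b),
      ∫ t in {t : ℝ | (b : ℝ) ^ (W / 3) ≤ |t| ∧ |t| ≤ T}, ‖cc b p F V χ t‖ * ‖PP χ t x‖ ≤
      (RR b p m F).card * x * (3 * (b : ℝ) ^ (-(11 / 300) * W)) := by
    have h1m : 2 * 1 ≤ m := by omega
    have h6 := ae_base (T := T) (x := x) (κ := κx) (t₀ := (b : ℝ) ^ (W / 3)) (F := F) (V := V)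
      (s := (b : ℝ) ^ ((-(1 / 24)) * W)) (E := Eb) (A := Aε) (U := U) (y := y)
      (y' := x ^ (-ub)) (p' := 1) (p₁ := p₁) hbas hm1 hVr hx1 hT0 hκx1
      (fun χ hχ t ht1 ht2 => by
        obtain ⟨i, i1, i2, i3, i4, i5⟩ := ae_find (J := J) hb2 hw12 ht1 ht2
        refine (hT b p m i (w / 12) F V K hbas hFs hVr hK0 hVK i1 i2 i3 χ hχ t i4 i5).trans ?_
        refine mul_le_mul_of_nonneg_right ?_ hR0
        have h1 : CT ^ m ≤ (b : ℝ) ^ (1 / 48 * W) := hCb CT hCT1 hCT w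
        have h2 : ((b : ℝ) ^ (w / 12))⁻¹ ≤ b * (b : ℝ) ^ (-(1 / 12) * W) := by
          have h3 : (b : ℝ) ^ (1 : ℝ) = b := Real.rpow_one _
          have h4 : W / 12 ≤ ((w / 12 : ℕ) : ℝ) + 1 := by
            rw [div_le_iff₀ (by norm_num)]
            have h := (Nat.cast_le (α := ℝ)).2 (by omega : w ≤ (w / 12 + 1) * 12)
            push_cast at h
            exact h
          have h5 : ((b : ℝ) ^ (w / 12))⁻¹ = (b : ℝ) ^ (-((w / 12 : ℕ) : ℝ)) := by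
            rw [Real.rpow_neg hβ0.le, Real.rpow_natCast]
          rw [h5]
          calc (b : ℝ) ^ (-((w / 12 : ℕ) : ℝ)) ≤ (b : ℝ) ^ (1 + -(1 / 12) * W) :=
                hmono _ _ (by linarith)
            _ = b * (b : ℝ) ^ (-(1 / 12) * W) := by rw [Real.rpow_add hβ0, h3]
        calc CT ^ m * (1 + K) * ((m : ℝ) * Real.log b + 1) * (b : ℝ) ^ 2 * ((b : ℝ) ^ (w / 12))⁻¹ ≤
            CT ^ m * (1 + K) * ((m : ℝ) * Real.log b + 1) * (b : ℝ) ^ 2 *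
              (b * (b : ℝ) ^ (-(1 / 12) * W)) := by
              refine mul_le_mul_of_nonneg_left h2 ?_
              have : 0 ≤ CT := by linarith
              positivity
          _ = CT ^ m * ((1 + K) * ((m : ℝ) * Real.log b + 1) * (b : ℝ) ^ 2 * b) *
              (b : ℝ) ^ (-(1 / 12) * W) := by ring
          _ ≤ (b : ℝ) ^ (1 / 48 * W) * (b : ℝ) ^ (1 / 48 * W) * (b : ℝ) ^ (-(1 / 12) * W) := by
              refine mul_le_mul_of_nonneg_right (mul_le_mul h1 hsup2 ?_ (hr _).le) (hr _).le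
              positivity
          _ = (b : ℝ) ^ ((-(1 / 24)) * W) := by
              rw [← Real.rpow_add hβ0, ← Real.rpow_add hβ0]; ring_nf)
      (le_refl _) (by norm_num) hp1 hp1' hU1 hy0 hyU (hr _).le hyb hEn
      (hxc x hxc' 1 T (le_refl _) (hlow 1 hm1) (hsz43 1 h1m))
      (hxa x hxa' 1 T (le_refl _) (hlow 1 hm1) (hszf 1 hm1))
    refine h6.trans (mul_le_mul_of_nonneg_left ?_ (mul_nonneg hR0 hx0.le))
    refine ae_num hβ hW0 hAε0 hAε1 hUdef hEb hy0.le hyτ (le_refl _) ?_ ?_ ?_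
    · norm_num
    · linarith
    · linarith
  -- sum
  have hsum : ∑ χ ∈ (Finset.univ : Finset (DirichletCharacter ℂ (b ^ m))).filter
        (fun χ => ¬ χ.FactorsThrough b),
        ∫ t in (-T)..T, ‖cc b p F V χ t‖ * ‖PP χ t x‖ ≤
      (m : ℝ) * ((RR b p m F).card * x * (3 * (b : ℝ) ^ (-(19 / 20) * W))) := by
    rw [← Finset.sum_fiberwise_of_maps_to (t := Finset.Icc 2 m) (g := fun χ => lv χ)
      (fun χ hχ => by
        rw [Finset.mem_filter] at hχ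
        obtain ⟨q1, q2, _, _⟩ := lv_spec hb2 hm1 χ hχ.2
        exact Finset.mem_Icc.2 ⟨q1, q2⟩)]
    refine (Finset.sum_le_sum hcell).trans ?_
    rw [Finset.sum_const, nsmul_eq_mul]
    refine mul_le_mul_of_nonneg_right ?_ ?_
    · rw [Nat.card_Icc]
      exact_mod_cast (by omega : m + 1 - 2 ≤ m)
    · exact mul_nonneg (mul_nonneg hR0 hx0.le) (mul_nonneg (by norm_num) (hr _).le)
  have hErr : Err b p J w k V ≤
      (m : ℝ) * ((RR b p m F).card * x * (3 * (b : ℝ) ^ (-(19 / 20) * W))) +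
      (RR b p m F).card * x * (3 * (b : ℝ) ^ (-(11 / 300) * W)) := by
    unfold Err
    refine add_le_add ?_ ?_
    · refine le_trans (le_of_eq ?_) hsum
      congr
    · refine le_trans (le_of_eq ?_) hbase
      congr
  refine hErr.trans ?_
  have hfin : 3 * (m : ℝ) * (b : ℝ) ^ (-(19 / 20) * W) + 3 * (b : ℝ) ^ (-(11 / 300) * W) ≤
      (b : ℝ) ^ (-W / 60) := by
    have h1 : (b : ℝ) ^ (-(19 / 20) * W) = (b : ℝ) ^ (-W / 60) * ((b : ℝ) ^ (14 / 15 * W))⁻¹ := by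
      rw [← Real.rpow_neg hβ0.le, ← Real.rpow_add hβ0]; ring_nf
    have h2 : (b : ℝ) ^ (-(11 / 300) * W) = (b : ℝ) ^ (-W / 60) * ((b : ℝ) ^ (1 / 50 * W))⁻¹ := by
      rw [← Real.rpow_neg hβ0.le, ← Real.rpow_add hβ0]; ring_nf
    have h3 : 3 * (m : ℝ) * ((b : ℝ) ^ (14 / 15 * W))⁻¹ ≤ 1 / 2 := by
      rw [mul_inv_le_iff₀ (hr _), hmr]
      linarith
    have h4 : 3 * ((b : ℝ) ^ (1 / 50 * W))⁻¹ ≤ 1 / 2 := by
      rw [mul_inv_le_iff₀ (hr _)]
      linarith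
    rw [h1, h2]
    have h5 := mul_le_mul_of_nonneg_left h3 (hr (-W / 60)).le
    have h6 := mul_le_mul_of_nonneg_left h4 (hr (-W / 60)).le
    linarith
  calc (m : ℝ) * ((RR b p m F).card * x * (3 * (b : ℝ) ^ (-(19 / 20) * W))) +
      (RR b p m F).card * x * (3 * (b : ℝ) ^ (-(11 / 300) * W)) =
      (RR b p m F).card * x * (3 * (m : ℝ) * (b : ℝ) ^ (-(19 / 20) * W) +
        3 * (b : ℝ) ^ (-(11 / 300) * W)) := by ring
    _ ≤ (RR b p m F).card * x * (b : ℝ) ^ (-W / 60) :=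
        mul_le_mul_of_nonneg_left hfin (mul_nonneg hR0 hx0.le)
    _ = _ := by ring

end Pool.Agent.HPP
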