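import Pool.Agent.HPP.Defs

/-!
# HPP/APP: the prime polynomial `PP`: convergence, continuity, size, induced characters

`Λ(n) exp(-log²(n/x))` is summable (for `x > 0`): `exp(-s²) ≤ min 1 (e exp(-2s))`, and
`min 1 (e (x/n)²) ≤ ∑_j 12 · 4^(-j) 1[n ≤ 2^j x]`; Chebyshev's bound `ψ(y) ≤ C y` gives
`∑_{n < N} ≤ 24 C x`. Continuity in `t`: `continuous_tsum` (each term is continuous, norm bounded by
the summable majorant; the term `n = 0` is `0` because `Λ 0 = 0`). `PP_induced`: if `χ` factors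
through `d` with `d ∣ Q` and `d`, `Q` have the same prime factors then `χ n = χ₀ n` for all `n` (both
`0` if `n` is not prime to `Q`; `changeLevel_eq_cast_of_dvd`).
-/

namespace Pool.Agent.HPP

open Complex

/-- one dyadic step: for every `n ≥ 1` there is `j ≤ n + J` with `n ≤ 2^j x` and weight `≤ 12 · 4^(-j)` -/
private theorem app_dyadic {x : ℝ} (hx : 0 < x) {n : ℕ} (hn : 1 ≤ n) {J : ℕ}
    (hJ : (n : ℝ) ≤ 2 ^ J * x) :
    ∃ j ∈ Finset.range (J + 1), (n : ℝ) ≤ 2 ^ j * x ∧
      Real.exp (-(Real.log (n / x)) ^ 2) ≤ 12 * (1 / 4) ^ j := by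
  classical
  have hex : ∃ j : ℕ, (n : ℝ) ≤ 2 ^ j * x := ⟨J, hJ⟩
  set j := Nat.find hex with hj
  have hj1 : (n : ℝ) ≤ 2 ^ j * x := Nat.find_spec hex
  have hjJ : j ≤ J := Nat.find_min' hex hJ
  refine ⟨j, Finset.mem_range.2 (by omega), hj1, ?_⟩
  have hn0 : (0 : ℝ) < n := by exact_mod_cast hn
  rcases Nat.eq_zero_or_pos j with h0 | hpos
  · rw [h0]
    have : Real.exp (-(Real.log (n / x)) ^ 2) ≤ 1 := by
      rw [Real.exp_le_one_iff]
      nlinarith [sq_nonneg (Real.log (n / x))]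
    simp only [pow_zero, mul_one]
    linarith
  · have hlt : 2 ^ (j - 1) * x < n := by
      have := Nat.find_min hex (m := j - 1) (by omega)
      exact not_le.1 this
    -- exp(-s²) ≤ exp (1 - 2 s) = e (x/n)²
    set s := Real.log (n / x) with hs
    have h1 : Real.exp (-s ^ 2) ≤ Real.exp 1 * Real.exp (-(2 * s)) := by
      rw [← Real.exp_add]
      exact Real.exp_le_exp.2 (by nlinarith [sq_nonneg (s - 1)])
    have h2 : Real.exp (-(2 * s)) = (x / n) ^ 2 := by
      have : Real.exp s = n / x := Real.exp_log (by positivity)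
      have h3 : Real.exp (-(2 * s)) = (Real.exp s)⁻¹ ^ 2 := by
        rw [← Real.exp_neg, ← Real.exp_nat_mul]
        congr 1
        push_cast
        ring
      rw [h3, this, inv_div]
    have h3 : x / n ≤ (1 / 2) ^ (j - 1) := by
      rw [div_le_iff₀ hn0, one_div, inv_pow, inv_mul_eq_div, le_div_iff₀ (by positivity)]
      linarith
    have h4 : (x / n) ^ 2 ≤ 4 * (1 / 4) ^ j := by
      calc (x / n) ^ 2 ≤ ((1 / 2) ^ (j - 1)) ^ 2 := by
            gcongr
        _ = (1 / 4) ^ (j - 1) := by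
            rw [← pow_mul, mul_comm, pow_mul]
            norm_num
        _ = 4 * (1 / 4) ^ j := by
            obtain ⟨i, hi⟩ : ∃ i, j = i + 1 := ⟨j - 1, by omega⟩
            rw [hi]
            simp only [Nat.add_sub_cancel, pow_succ]
            ring
    have h5 : Real.exp 1 ≤ 3 := by
      have := Real.exp_one_lt_d9
      linarith
    calc Real.exp (-s ^ 2) ≤ Real.exp 1 * Real.exp (-(2 * s)) := h1
      _ = Real.exp 1 * (x / n) ^ 2 := by rw [h2]
      _ ≤ 3 * (4 * (1 / 4) ^ j) := by gcongr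
      _ = 12 * (1 / 4) ^ j := by ring

/-- partial sums -/
private theorem app_partial {x : ℝ} (hx : 0 < x) (N : ℕ) :
    ∑ n ∈ Finset.range N, ArithmeticFunction.vonMangoldt n * Real.exp (-(Real.log (n / x)) ^ 2) ≤
      24 * (Real.log 4 + 4) * x := by
  classical
  obtain ⟨J, hJ⟩ : ∃ J : ℕ, (N : ℝ) ≤ 2 ^ J * x := by
    obtain ⟨J, hJ⟩ := pow_unbounded_of_one_lt ((N : ℝ) / x) (by norm_num : (1 : ℝ) < 2)
    exact ⟨J, by rw [div_lt_iff₀ hx] at hJ; exact hJ.le⟩
  have hΛ : ∀ n : ℕ, 0 ≤ ArithmeticFunction.vonMangoldt n := fun n =>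
    ArithmeticFunction.vonMangoldt_nonneg
  have hstep : ∀ n ∈ Finset.range N,
      ArithmeticFunction.vonMangoldt n * Real.exp (-(Real.log (n / x)) ^ 2) ≤
      ∑ j ∈ Finset.range (J + 1), (12 * (1 / 4) ^ j) *
        (if (n : ℝ) ≤ 2 ^ j * x then ArithmeticFunction.vonMangoldt n else 0) := by
    intro n hn
    rcases Nat.eq_zero_or_pos n with h0 | hpos
    · subst h0
      simp
    · have hnN : (n : ℝ) ≤ N := by exact_mod_cast (Finset.mem_range.1 hn).le
      obtain ⟨j, hj, hj1, hj2⟩ := app_dyadic hx hpos (J := J) (hnN.trans hJ)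
      calc ArithmeticFunction.vonMangoldt n * Real.exp (-(Real.log (n / x)) ^ 2)
          ≤ ArithmeticFunction.vonMangoldt n * (12 * (1 / 4) ^ j) :=
            mul_le_mul_of_nonneg_left hj2 (hΛ n)
        _ = (12 * (1 / 4) ^ j) *
            (if (n : ℝ) ≤ 2 ^ j * x then ArithmeticFunction.vonMangoldt n else 0) := by
            rw [if_pos hj1, mul_comm]
        _ ≤ _ := Finset.single_le_sum (f := fun j : ℕ => (12 * (1 / 4 : ℝ) ^ j) *
            (if (n : ℝ) ≤ 2 ^ j * x then ArithmeticFunction.vonMangoldt n else 0))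
            (fun i _ => by
              refine mul_nonneg (by positivity) ?_
              split_ifs
              · exact hΛ n
              · exact le_refl _) hj
  calc ∑ n ∈ Finset.range N, ArithmeticFunction.vonMangoldt n *
        Real.exp (-(Real.log (n / x)) ^ 2)
      ≤ ∑ n ∈ Finset.range N, ∑ j ∈ Finset.range (J + 1), (12 * (1 / 4) ^ j) *
        (if (n : ℝ) ≤ 2 ^ j * x then ArithmeticFunction.vonMangoldt n else 0) :=
        Finset.sum_le_sum hstep
    _ = ∑ j ∈ Finset.range (J + 1), (12 * (1 / 4) ^ j) * ∑ n ∈ Finset.range N,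
        (if (n : ℝ) ≤ 2 ^ j * x then ArithmeticFunction.vonMangoldt n else 0) := by
        rw [Finset.sum_comm]
        refine Finset.sum_congr rfl fun j _ => ?_
        rw [Finset.mul_sum]
    _ ≤ ∑ j ∈ Finset.range (J + 1), (12 * (1 / 4) ^ j) * ((Real.log 4 + 4) * (2 ^ j * x)) := by
        refine Finset.sum_le_sum fun j _ => mul_le_mul_of_nonneg_left ?_ (by positivity)
        refine le_trans ?_ (Chebyshev.psi_le_const_mul_self (x := 2 ^ j * x) (by positivity))
        rw [Chebyshev.psi_eq_sum_Icc, ← Finset.sum_filter]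
        refine Finset.sum_le_sum_of_subset_of_nonneg ?_ fun n _ _ => hΛ n
        intro n hn
        rw [Finset.mem_filter] at hn
        exact Finset.mem_Icc.2 ⟨Nat.zero_le _, Nat.le_floor hn.2⟩
    _ = 12 * (Real.log 4 + 4) * x * ∑ j ∈ Finset.range (J + 1), (1 / 2 : ℝ) ^ j := by
        rw [Finset.mul_sum]
        refine Finset.sum_congr rfl fun j _ => ?_
        have : (1 / 4 : ℝ) ^ j * 2 ^ j = (1 / 2) ^ j := by
          rw [← mul_pow]; norm_num
        rw [← this]
        ring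
    _ ≤ 12 * (Real.log 4 + 4) * x * 2 := by
        have h4 : 0 ≤ Real.log 4 := Real.log_nonneg (by norm_num)
        refine mul_le_mul_of_nonneg_left ?_ (by positivity)
        have := Summable.sum_le_tsum (Finset.range (J + 1)) (fun i _ => by positivity)
          (summable_geometric_of_lt_one (by norm_num : (0 : ℝ) ≤ 1 / 2) (by norm_num))
        rw [tsum_geometric_of_lt_one (by norm_num : (0 : ℝ) ≤ 1 / 2) (by norm_num)] at this
        norm_num at this ⊢
        exact this
    _ = 24 * (Real.log 4 + 4) * x := by ring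

private theorem app_term_nonneg (x : ℝ) (n : ℕ) :
    0 ≤ ArithmeticFunction.vonMangoldt n * Real.exp (-(Real.log (n / x)) ^ 2) :=
  mul_nonneg ArithmeticFunction.vonMangoldt_nonneg (Real.exp_pos _).le

private theorem app_summable {x : ℝ} (hx : 0 < x) :
    Summable fun n : ℕ => ArithmeticFunction.vonMangoldt n * Real.exp (-(Real.log (n / x)) ^ 2) :=
  summable_of_sum_range_le (app_term_nonneg x) (app_partial hx)

private theorem app_tsum_le {x : ℝ} (hx : 0 < x) :
    ∑' n : ℕ, ArithmeticFunction.vonMangoldt n * Real.exp (-(Real.log (n / x)) ^ 2) ≤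
      24 * (Real.log 4 + 4) * x :=
  Real.tsum_le_of_sum_range_le (app_term_nonneg x) (app_partial hx)

private theorem app_norm_le {Q : ℕ} (χ : DirichletCharacter ℂ Q) (t x : ℝ) (n : ℕ) :
    ‖(ArithmeticFunction.vonMangoldt n : ℂ) * χ (n : ZMod Q) *
      (n : ℂ) ^ (t * I) * (Real.exp (-(Real.log (n / x)) ^ 2) : ℂ)‖ ≤
    ArithmeticFunction.vonMangoldt n * Real.exp (-(Real.log (n / x)) ^ 2) := by
  rcases Nat.eq_zero_or_pos n with h0 | hpos
  · subst h0
    simp
  · have h1 : ‖(n : ℂ) ^ (t * I)‖ = 1 := by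
      rw [Complex.norm_natCast_cpow_of_pos hpos]
      simp
    rw [norm_mul, norm_mul, norm_mul, h1, mul_one]
    have h2 : ‖(Real.exp (-(Real.log (n / x)) ^ 2) : ℂ)‖ = Real.exp (-(Real.log (n / x)) ^ 2) := by
      rw [Complex.norm_real, Real.norm_eq_abs, abs_of_pos (Real.exp_pos _)]
    have h3 : ‖(ArithmeticFunction.vonMangoldt n : ℂ)‖ = ArithmeticFunction.vonMangoldt n := by
      rw [Complex.norm_real, Real.norm_eq_abs, abs_of_nonneg ArithmeticFunction.vonMangoldt_nonneg]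
    rw [h2, h3]
    refine mul_le_mul_of_nonneg_right ?_ (Real.exp_pos _).le
    exact mul_le_of_le_one_right ArithmeticFunction.vonMangoldt_nonneg (χ.norm_le_one _)

theorem PP_summable {Q : ℕ} (χ : DirichletCharacter ℂ Q) (t : ℝ) {x : ℝ} (hx : 0 < x) :
    Summable fun n : ℕ => (ArithmeticFunction.vonMangoldt n : ℂ) * χ (n : ZMod Q) *
      (n : ℂ) ^ (t * I) * (Real.exp (-(Real.log (n / x)) ^ 2) : ℂ) :=
  Summable.of_norm_bounded (app_summable hx) fun n => app_norm_le χ t x n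

theorem PP_continuous {Q : ℕ} (χ : DirichletCharacter ℂ Q) {x : ℝ} (hx : 0 < x) :
    Continuous fun t : ℝ => PP χ t x := by
  unfold PP
  refine continuous_tsum (fun n => ?_) (app_summable hx) fun n t => app_norm_le χ t x n
  rcases Nat.eq_zero_or_pos n with h0 | hpos
  · subst h0
    simp only [ArithmeticFunction.map_zero, Complex.ofReal_zero, zero_mul]
    exact continuous_const
  · refine Continuous.mul (Continuous.mul continuous_const ?_) continuous_const
    refine Continuous.const_cpow (by fun_prop) (Or.inl ?_)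
    exact_mod_cast hpos.ne'

theorem weight_sum_le : ∃ C : ℝ, 1 ≤ C ∧ ∀ x : ℝ, 1 ≤ x →
    (Summable fun n : ℕ => ArithmeticFunction.vonMangoldt n * Real.exp (-(Real.log (n / x)) ^ 2)) ∧
    ∑' n : ℕ, ArithmeticFunction.vonMangoldt n * Real.exp (-(Real.log (n / x)) ^ 2) ≤ C * x := by
  refine ⟨24 * (Real.log 4 + 4), ?_, fun x hx => ⟨app_summable (by linarith),
    app_tsum_le (by linarith)⟩⟩
  have h4 : 0 ≤ Real.log 4 := Real.log_nonneg (by norm_num)
  linarith

theorem PP_bound : ∃ C : ℝ, 1 ≤ C ∧ ∀ (Q : ℕ) (χ : DirichletCharacter ℂ Q) (t x : ℝ), 1 ≤ x →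
    ‖PP χ t x‖ ≤ C * x := by
  obtain ⟨C, hC, h⟩ := weight_sum_le
  refine ⟨C, hC, fun Q χ t x hx => ?_⟩
  obtain ⟨hs, hle⟩ := h x hx
  exact (tsum_of_norm_bounded hs.hasSum fun n => app_norm_le χ t x n).trans hle

theorem PP_induced {b m m' : ℕ} (hb : 2 ≤ b) (hm : 1 ≤ m') (χ : DirichletCharacter ℂ (b ^ m))
    (h : χ.FactorsThrough (b ^ m')) (t x : ℝ) : PP χ t x = PP h.χ₀ t x := by
  have hval : ∀ n : ℕ, χ (n : ZMod (b ^ m)) = h.χ₀ (n : ZMod (b ^ m')) := by
    intro n
    have hm0 : 1 ≤ m := by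
      by_contra hcon
      have h0 : m = 0 := by omega
      have := h.dvd
      rw [h0, pow_zero, Nat.dvd_one] at this
      have h2 : 1 < b ^ m' := Nat.one_lt_pow (by omega) (by omega)
      omega
    by_cases hc : n.Coprime b
    · have hcm : n.Coprime (b ^ m) := hc.pow_right m
      have h1 := DirichletCharacter.changeLevel_eq_cast_of_dvd h.χ₀ h.dvd (ZMod.unitOfCoprime n hcm)
      rw [← h.eq_changeLevel, ZMod.coe_unitOfCoprime, ZMod.cast_natCast h.dvd] at h1
      exact h1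
    · have e1 : ¬ IsUnit (n : ZMod (b ^ m)) := by
        rw [ZMod.isUnit_iff_coprime]
        intro hcon
        exact hc ((Nat.coprime_pow_right_iff (by omega) _ _).1 hcon)
      have e2 : ¬ IsUnit (n : ZMod (b ^ m')) := by
        rw [ZMod.isUnit_iff_coprime]
        intro hcon
        exact hc ((Nat.coprime_pow_right_iff (by omega) _ _).1 hcon)
      rw [χ.map_nonunit e1, h.χ₀.map_nonunit e2]
  unfold PP
  refine tsum_congr fun n => ?_
  rw [hval n]

private theorem app_topv_pos {b p m : ℕ} (hb : Bas b p) (hm : 1 ≤ m) (F : Finset ℕ)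
    {ω : Fin m → ℕ × ℕ} (hω : ω ∈ RR b p m F) : 0 < topv b ω := by
  have h0 : ω ⟨0, hm⟩ = (p, p) := by
    have := Fintype.mem_piFinset.1 hω ⟨0, hm⟩
    simpa [Sd] using this
  unfold topv
  refine Finset.sum_pos' (fun i _ => Nat.zero_le _) ⟨⟨0, hm⟩, Finset.mem_univ _, ?_⟩
  rw [h0]
  exact Nat.mul_pos hb.prime.pos (pow_pos (by have := hb.three; omega) _)

theorem cc_continuous {b p m : ℕ} (hb : Bas b p) (hm : 1 ≤ m) (F : Finset ℕ) (V : ℝ → ℝ)
    (χ : DirichletCharacter ℂ (b ^ m)) : Continuous fun t : ℝ => cc b p F V χ t := by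
  unfold cc
  refine continuous_finsetSum _ fun ω hω => Continuous.mul continuous_const ?_
  refine Continuous.const_cpow (by fun_prop) (Or.inl ?_)
  exact_mod_cast (app_topv_pos hb hm F hω).ne'

theorem cc_le {b p m : ℕ} (hb : Bas b p) (hm : 1 ≤ m) (F : Finset ℕ) {V : ℝ → ℝ}
    (hV : ∀ y, 0 ≤ V y ∧ V y ≤ 1) (χ : DirichletCharacter ℂ (b ^ m)) (t : ℝ) :
    ‖cc b p F V χ t‖ ≤ (RR b p m F).card := by
  unfold cc
  refine (norm_sum_le _ _).trans ?_
  have : ∀ ω ∈ RR b p m F, ‖(wt b V ω : ℂ) * (starRingEnd ℂ) (χ (lowv b ω : ZMod (b ^ m))) *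
      (topv b ω : ℂ) ^ (-(t * I))‖ ≤ 1 := by
    intro ω hω
    have h1 : ‖(topv b ω : ℂ) ^ (-(t * I))‖ = 1 := by
      rw [Complex.norm_natCast_cpow_of_pos (app_topv_pos hb hm F hω)]
      simp
    rw [norm_mul, norm_mul, h1, mul_one]
    have h2 : ‖(wt b V ω : ℂ)‖ ≤ 1 := by
      rw [Complex.norm_real, Real.norm_eq_abs]
      unfold wt
      rw [abs_of_nonneg (hV _).1]
      exact (hV _).2
    have h3 : ‖(starRingEnd ℂ) (χ (lowv b ω : ZMod (b ^ m)))‖ ≤ 1 := by
      rw [RCLike.norm_conj]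
      exact χ.norm_le_one _
    calc _ ≤ (1 : ℝ) * 1 := mul_le_mul h2 h3 (norm_nonneg _) zero_le_one
      _ = 1 := one_mul 1
  calc _ ≤ ∑ ω ∈ RR b p m F, (1 : ℝ) := Finset.sum_le_sum this
    _ = (RR b p m F).card := by simp

end Pool.Agent.HPP
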