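import Pool.Agent.HPP.AEh
import Pool.Agent.HPP.APP
import Pool.Agent.HPP.EBas

set_option autoImplicit false

/-!
# HPP/AExp : expansion of `SSum` in characters and `n^{it}` (A1) (helper14)

PROOF of `expansion`. `q = b^m`, `x = b^(k-1)`, `H = b^(k-m)`. For `n ≥ 1` and `ω ∈ RR b p m F`: `low = lowv b ω` is prime to `b` (`low ≡ p mod b`, see
`HPP/EBas`; `p` is a prime `< b`, `p > b/2`, so `p` does not divide `b`), so
`∑_χ conj (χ low) χ n = φ(q) 1[n = low mod q]` (`DirichletCharacter.sum_char_inv_mul_char_eq`, `ZMod.natCast_eq_natCast_iff`), and by `eh_inv`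
and the substitution `t → t/q` (`integral_comp_div` / `integral_comp_mul_left`)
`η (q (log n - log (H top))) = (2π q)^{-1} ∫ eh η (t/q) e^{it (log n - log (H top))} dt`,
`e^{it (log n - log (H top))} = n^{it} H^{-it} top^{-it}` (all numbers are positive: `topv ≥ b^(m-1) > 0`). Multiply by `wt b V ω Λ(n) exp (-(log (n/x))^2)`,
sum over `ω`, `χ` (finite sums) and over `n` (exchange with the integral: `hasSum_integral_of_summable_integral_norm`, the
norms are `≤ C Λ(n) exp (-(log (n/x))^2) ‖eh η (t/q)‖`, summable and integrable). The term `n = 0` vanishes (`Λ 0 = 0`).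
-/

namespace Pool.Agent.HPP

open Complex MeasureTheory Filter Topology

/-- the integrand -/
noncomputable def itg (b p m k : ℕ) (F : Finset ℕ) (V η : ℝ → ℝ)
    (χ : DirichletCharacter ℂ (b ^ m)) (t : ℝ) : ℂ :=
  eh η (t / (b : ℝ) ^ m) * ((b : ℂ) ^ (k - m)) ^ (-(t * I)) * (cc b p F V χ t *
    PP χ t ((b : ℝ) ^ (k - 1)))

theorem ax_norm_cpow {y : ℝ} (hy : 0 < y) (t : ℝ) : ‖((y : ℝ) : ℂ) ^ (-(t * I))‖ = 1 := by
  rw [norm_cpow_eq_rpow_re_of_pos hy]
  simp

theorem ax_Hnorm {b : ℕ} (hb : 0 < b) (j : ℕ) (t : ℝ) : ‖((b : ℂ) ^ j) ^ (-(t * I))‖ = 1 := by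
  have h : ((b : ℂ) ^ j) = (((b : ℝ) ^ j : ℝ) : ℂ) := by push_cast; rfl
  rw [h]
  exact ax_norm_cpow (by positivity) t

theorem ax_Hcont {b : ℕ} (hb : 0 < b) (j : ℕ) :
    Continuous fun t : ℝ => ((b : ℂ) ^ j) ^ (-(t * I)) := by
  refine Continuous.const_cpow (by fun_prop) (Or.inl ?_)
  have : (b : ℂ) ≠ 0 := by exact_mod_cast hb.ne'
  exact pow_ne_zero _ this

theorem ax_conj {q : ℕ} [NeZero q] (χ : DirichletCharacter ℂ q) {a : ZMod q} (ha : IsUnit a) :
    (starRingEnd ℂ) (χ a) = χ a⁻¹ := by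
  have h1 : ‖χ a‖ = 1 := by
    obtain ⟨u, rfl⟩ := ha
    exact χ.unit_norm_eq_one u
  have h2 : χ a⁻¹ * χ a = 1 := by
    rw [← map_mul, ZMod.inv_mul_of_unit a ha, map_one]
  have h3 : (starRingEnd ℂ) (χ a) * χ a = 1 := by
    rw [mul_comm, mul_conj, normSq_eq_norm_sq, h1]
    simp
  have h4 : χ a ≠ 0 := right_ne_zero_of_mul_eq_one h2
  exact mul_right_cancel₀ h4 (h3.trans h2.symm)

theorem ax_orth {q : ℕ} [NeZero q] {l n : ℕ} (hl : Nat.Coprime l q) :
    ∑ χ : DirichletCharacter ℂ q, (starRingEnd ℂ) (χ (l : ZMod q)) * χ (n : ZMod q) =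
      if n ≡ l [MOD q] then (q.totient : ℂ) else 0 := by
  have ha : IsUnit (l : ZMod q) := (ZMod.isUnit_iff_coprime l q).2 hl
  rw [Finset.sum_congr rfl fun χ _ => by rw [ax_conj χ ha],
    DirichletCharacter.sum_char_inv_mul_char_eq ℂ ha]
  by_cases hc : n ≡ l [MOD q]
  · rw [if_pos hc, if_pos ((ZMod.natCast_eq_natCast_iff _ _ _).2 hc).symm]
  · rw [if_neg hc, if_neg fun he => hc ((ZMod.natCast_eq_natCast_iff _ _ _).1 he.symm)]

theorem ax_ehdiv_int {V₀ η : ℝ → ℝ} (hB : Bp V₀ η) {q : ℝ} (hq : 0 < q) :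
    Integrable fun t : ℝ => eh η (t / q) :=
  (eh_integrable hB).comp_div hq.ne'

theorem ax_ehdiv_cont {V₀ η : ℝ → ℝ} (hB : Bp V₀ η) (q : ℝ) :
    Continuous fun t : ℝ => eh η (t / q) :=
  (eh_continuous hB).comp (continuous_id.div_const q)

/-- the inversion formula at scale `q` -/
theorem ax_inv {V₀ η : ℝ → ℝ} (hB : Bp V₀ η) {q : ℝ} (hq : 0 < q) (y : ℝ) :
    ((2 * Real.pi * q * η (q * y) : ℝ) : ℂ) = ∫ t : ℝ, eh η (t / q) * cexp (t * y * I) := by
  have h1 := eh_inv hB (q * y)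
  have h2 : (∫ t : ℝ, eh η (t / q) * cexp (t * y * I)) =
      q * ∫ t : ℝ, eh η t * cexp (t * (q * y : ℝ) * I) := by
    have := Measure.integral_comp_div (fun t : ℝ => eh η t * cexp (t * (q * y : ℝ) * I)) q
    rw [abs_of_pos hq, real_smul] at this
    rw [← this]
    refine integral_congr_ae (Eventually.of_forall fun t => ?_)
    simp only
    congr 2
    have hq' : (q : ℂ) ≠ 0 := by exact_mod_cast hq.ne'
    push_cast
    field_simp
  have hpi : (Real.pi : ℂ) ≠ 0 := by exact_mod_cast Real.pi_ne_zero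
  have h3 : ((2 * Real.pi * q * η (q * y) : ℝ) : ℂ) = 2 * Real.pi * q * (η (q * y) : ℂ) := by
    push_cast
    ring
  rw [h2, h3, h1]
  generalize (∫ t : ℝ, eh η t * cexp (t * (q * y : ℝ) * I)) = Z
  push_cast
  field_simp

theorem ax_exp {n : ℕ} (hn : 0 < n) {H T : ℝ} (hH : 0 < H) (hT : 0 < T) (t : ℝ) :
    cexp (t * ((Real.log n - Real.log (H * T) : ℝ) : ℂ) * I) =
      (n : ℂ) ^ (t * I) * (H : ℂ) ^ (-(t * I)) * (T : ℂ) ^ (-(t * I)) := by
  have hn' : (0 : ℝ) < n := by exact_mod_cast hn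
  have e1 : (n : ℂ) ^ (t * I) = cexp (Real.log n * (t * I)) := by
    rw [cpow_def_of_ne_zero (by exact_mod_cast hn.ne'), natCast_log]
  have e2 : (H : ℂ) ^ (-(t * I)) = cexp (Real.log H * (-(t * I))) := by
    rw [cpow_def_of_ne_zero (by exact_mod_cast hH.ne'), ofReal_log hH.le]
  have e3 : (T : ℂ) ^ (-(t * I)) = cexp (Real.log T * (-(t * I))) := by
    rw [cpow_def_of_ne_zero (by exact_mod_cast hT.ne'), ofReal_log hT.le]
  rw [e1, e2, e3, ← Complex.exp_add, ← Complex.exp_add, Real.log_mul hH.ne' hT.ne']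
  congr 1
  push_cast
  ring

/-- the `n`-th term of the integrand -/
noncomputable def ax_G (b p m k : ℕ) (F : Finset ℕ) (V η : ℝ → ℝ)
    (χ : DirichletCharacter ℂ (b ^ m)) (n : ℕ) (t : ℝ) : ℂ :=
  eh η (t / (b : ℝ) ^ m) * ((b : ℂ) ^ (k - m)) ^ (-(t * I)) * (cc b p F V χ t *
    ((ArithmeticFunction.vonMangoldt n : ℂ) * χ (n : ZMod (b ^ m)) * (n : ℂ) ^ (t * I) *
      (Real.exp (-(Real.log (n / (b : ℝ) ^ (k - 1))) ^ 2) : ℂ)))

theorem ax_G_norm {b p m k : ℕ} (hb : Bas b p) (hm : 1 ≤ m)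
    (F : Finset ℕ) {V : ℝ → ℝ} (hV : ∀ y, 0 ≤ V y ∧ V y ≤ 1) (η : ℝ → ℝ)
    (χ : DirichletCharacter ℂ (b ^ m)) (n : ℕ) (t : ℝ) :
    ‖ax_G b p m k F V η χ n t‖ ≤ (ArithmeticFunction.vonMangoldt n *
      Real.exp (-(Real.log (n / (b : ℝ) ^ (k - 1))) ^ 2) * (RR b p m F).card) *
      ‖eh η (t / (b : ℝ) ^ m)‖ := by
  have hb0 : 0 < b := by have := hb.three; omega
  have hc := cc_le hb hm F hV χ t
  have hL : (0 : ℝ) ≤ ArithmeticFunction.vonMangoldt n := ArithmeticFunction.vonMangoldt_nonneg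
  have hE := Real.exp_nonneg (-(Real.log (n / (b : ℝ) ^ (k - 1))) ^ 2)
  unfold ax_G
  rw [norm_mul, norm_mul, ax_Hnorm hb0, mul_one, norm_mul, mul_comm]
  refine mul_le_mul_of_nonneg_right ?_ (norm_nonneg _)
  rcases Nat.eq_zero_or_pos n with h0 | h0
  · subst h0
    simp
  have h1 : ‖(ArithmeticFunction.vonMangoldt n : ℂ) * χ (n : ZMod (b ^ m)) *
      (n : ℂ) ^ (t * I) * (Real.exp (-(Real.log (n / (b : ℝ) ^ (k - 1))) ^ 2) : ℂ)‖ ≤
      ArithmeticFunction.vonMangoldt n * Real.exp (-(Real.log (n / (b : ℝ) ^ (k - 1))) ^ 2) := by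
    have h2 : ‖(n : ℂ) ^ (t * I)‖ = 1 := by
      rw [norm_natCast_cpow_of_pos h0]
      simp
    rw [norm_mul, norm_mul, norm_mul, h2, mul_one, norm_real, norm_real,
      Real.norm_of_nonneg hL, Real.norm_of_nonneg hE]
    refine mul_le_mul_of_nonneg_right ?_ hE
    calc _ ≤ ArithmeticFunction.vonMangoldt n * 1 :=
          mul_le_mul_of_nonneg_left (χ.norm_le_one _) hL
      _ = _ := mul_one _
  calc _ ≤ ((RR b p m F).card : ℝ) * (ArithmeticFunction.vonMangoldt n *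
        Real.exp (-(Real.log (n / (b : ℝ) ^ (k - 1))) ^ 2)) :=
        mul_le_mul hc h1 (norm_nonneg _) (Nat.cast_nonneg _)
    _ = _ := by ring

theorem ax_G_cont {V₀ η : ℝ → ℝ} (hB : Bp V₀ η) {b p m k : ℕ} (hb : Bas b p) (hm : 1 ≤ m)
    (F : Finset ℕ) (V : ℝ → ℝ) (χ : DirichletCharacter ℂ (b ^ m)) (n : ℕ) :
    Continuous (ax_G b p m k F V η χ n) := by
  have hb0 : 0 < b := by have := hb.three; omega
  unfold ax_G
  refine ((ax_ehdiv_cont hB _).mul (ax_Hcont hb0 _)).mul ((cc_continuous hb hm F V χ).mul ?_)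
  rcases Nat.eq_zero_or_pos n with h0 | h0
  · subst h0
    simp only [ArithmeticFunction.map_zero, ofReal_zero, zero_mul]
    exact continuous_const
  · refine (continuous_const.mul ?_).mul continuous_const
    exact Continuous.const_cpow (by fun_prop) (Or.inl (by exact_mod_cast h0.ne'))

theorem ax_G_int {V₀ η : ℝ → ℝ} (hB : Bp V₀ η) {b p m k : ℕ} (hb : Bas b p) (hm : 1 ≤ m)
    (F : Finset ℕ) {V : ℝ → ℝ} (hV : ∀ y, 0 ≤ V y ∧ V y ≤ 1)
    (χ : DirichletCharacter ℂ (b ^ m)) (n : ℕ) :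
    Integrable (ax_G b p m k F V η χ n) := by
  have hb0 : (0 : ℝ) < b := by have := hb.three; positivity
  exact ((ax_ehdiv_int hB (pow_pos hb0 m)).norm.const_mul _).mono'
    (ax_G_cont hB hb hm F V χ n).aestronglyMeasurable
    (Eventually.of_forall fun t => ax_G_norm hb hm F hV η χ n t)

theorem ax_one_le {b p : ℕ} (hb : Bas b p) (j : ℕ) : (1 : ℝ) ≤ (b : ℝ) ^ j := by
  have h3 := hb.three
  have : (1 : ℝ) ≤ b := by exact_mod_cast (by omega : 1 ≤ b)
  exact one_le_pow₀ this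

theorem ax_hasSum {V₀ η : ℝ → ℝ} (hB : Bp V₀ η) {b p m k : ℕ} (hb : Bas b p) (hm : 1 ≤ m)
    (F : Finset ℕ) {V : ℝ → ℝ} (hV : ∀ y, 0 ≤ V y ∧ V y ≤ 1)
    (χ : DirichletCharacter ℂ (b ^ m)) :
    HasSum (fun n => ∫ t, ax_G b p m k F V η χ n t) (∫ t, itg b p m k F V η χ t) := by
  obtain ⟨C, hC, hW⟩ := weight_sum_le
  obtain ⟨hW1, -⟩ := hW _ (ax_one_le hb (k - 1))
  have hb0 : (0 : ℝ) < b := by have := hb.three; positivity
  have key := hasSum_integral_of_summable_integral_norm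
    (F := fun n t => ax_G b p m k F V η χ n t) (μ := volume)
    (fun n => ax_G_int hB hb hm F hV χ n) (by
      refine Summable.of_nonneg_of_le (fun n => integral_nonneg fun t => norm_nonneg _)
        (fun n => ?_) ((hW1.mul_right ((RR b p m F).card : ℝ)).mul_right
          (∫ t, ‖eh η (t / (b : ℝ) ^ m)‖))
      rw [← integral_const_mul]
      exact integral_mono (ax_G_int hB hb hm F hV χ n).norm
        ((ax_ehdiv_int hB (pow_pos hb0 m)).norm.const_mul _)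
        (fun t => ax_G_norm hb hm F hV η χ n t))
  have he : (∫ t, itg b p m k F V η χ t) = ∫ t, ∑' n, ax_G b p m k F V η χ n t := by
    refine integral_congr_ae (Eventually.of_forall fun t => ?_)
    simp only [ax_G, itg, PP]
    rw [tsum_mul_left, tsum_mul_left]
  rw [he]
  exact key

theorem itg_integrable {V₀ η : ℝ → ℝ} (hB : Bp V₀ η) {b p m k : ℕ} (hb : Bas b p) (hm : 1 ≤ m)
    (F : Finset ℕ) (hF : F ⊆ Finset.Ico 1 m) {V : ℝ → ℝ} (hV : ∀ y, 0 ≤ V y ∧ V y ≤ 1)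
    (χ : DirichletCharacter ℂ (b ^ m)) : Integrable (itg b p m k F V η χ) := by
  obtain ⟨C, hC, hP⟩ := PP_bound
  have hb0 : (0 : ℝ) < b := by have := hb.three; positivity
  have hb0' : 0 < b := by have := hb.three; omega
  have hx := ax_one_le hb (k - 1)
  have hcont : Continuous (itg b p m k F V η χ) := by
    unfold itg
    exact ((ax_ehdiv_cont hB _).mul (ax_Hcont hb0' _)).mul ((cc_continuous hb hm F V χ).mul
      (PP_continuous χ (by linarith)))
  refine ((ax_ehdiv_int hB (pow_pos hb0 m)).norm.const_mul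
    ((RR b p m F).card * (C * (b : ℝ) ^ (k - 1)))).mono' hcont.aestronglyMeasurable
    (Eventually.of_forall fun t => ?_)
  unfold itg
  rw [norm_mul, norm_mul, ax_Hnorm hb0', mul_one, norm_mul, mul_comm]
  refine mul_le_mul_of_nonneg_right ?_ (norm_nonneg _)
  exact mul_le_mul (cc_le hb hm F hV χ t) (hP _ χ t _ hx) (norm_nonneg _) (Nat.cast_nonneg _)

/-- one value of `n` -/
theorem ax_term {V₀ η : ℝ → ℝ} (hB : Bp V₀ η) {b p m k : ℕ} (hb : Bas b p) (hm : 1 ≤ m)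
    (F : Finset ℕ) {V : ℝ → ℝ} (hV : ∀ y, 0 ≤ V y ∧ V y ≤ 1) (n : ℕ) :
    ((2 * Real.pi * ((b : ℝ) ^ m * (b ^ m).totient) * (ArithmeticFunction.vonMangoldt n *
      Real.exp (-(Real.log (n / (b : ℝ) ^ (k - 1))) ^ 2) * nw b p m k F V η n) : ℝ) : ℂ) =
      ∑ χ : DirichletCharacter ℂ (b ^ m), ∫ t, ax_G b p m k F V η χ n t := by
  have hb3 := hb.three
  have hb0' : 0 < b := by omega
  have hb0 : (0 : ℝ) < b := by exact_mod_cast hb0'
  have hq0 : (0 : ℝ) < (b : ℝ) ^ m := pow_pos hb0 m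
  haveI : NeZero (b ^ m) := ⟨(pow_pos hb0' m).ne'⟩
  rcases Nat.eq_zero_or_pos n with h0 | h0
  · subst h0
    simp [ax_G]
  set A : ℝ := ArithmeticFunction.vonMangoldt n *
    Real.exp (-(Real.log (n / (b : ℝ) ^ (k - 1))) ^ 2) with hA
  have hH : (0 : ℝ) < (b : ℝ) ^ (k - m) := pow_pos hb0 _
  have hHc : ((((b : ℝ) ^ (k - m) : ℝ)) : ℂ) = (b : ℂ) ^ (k - m) := by push_cast; rfl
  -- integral of one term
  have hint : ∀ y : ℝ, Integrable fun t : ℝ => eh η (t / (b : ℝ) ^ m) * cexp (t * y * I) := by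
    intro y
    refine (ax_ehdiv_int hB hq0).norm.mono' ?_ (Eventually.of_forall fun t => ?_)
    · exact ((ax_ehdiv_cont hB _).mul (by fun_prop)).aestronglyMeasurable
    · rw [norm_mul]
      have : ‖cexp (t * y * I)‖ = 1 := by
        have h := norm_exp_ofReal_mul_I (t * y)
        push_cast at h
        exact h
      rw [this, mul_one]
  have hG : ∀ χ : DirichletCharacter ℂ (b ^ m), ∫ t, ax_G b p m k F V η χ n t =
      ∑ ω ∈ RR b p m F, (A * wt b V ω : ℝ) * ((starRingEnd ℂ) (χ (lowv b ω : ZMod (b ^ m))) *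
        χ (n : ZMod (b ^ m))) * ∫ t : ℝ, eh η (t / (b : ℝ) ^ m) * cexp (t *
          ((Real.log n - Real.log ((b : ℝ) ^ (k - m) * topv b ω) : ℝ) : ℂ) * I) := by
    intro χ
    have hpt : ∀ t : ℝ, ax_G b p m k F V η χ n t =
        ∑ ω ∈ RR b p m F, ((A * wt b V ω : ℝ) *
          ((starRingEnd ℂ) (χ (lowv b ω : ZMod (b ^ m))) * χ (n : ZMod (b ^ m)))) *
          (eh η (t / (b : ℝ) ^ m) * cexp (t *
          ((Real.log n - Real.log ((b : ℝ) ^ (k - m) * topv b ω) : ℝ) : ℂ) * I)) := by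
      intro t
      unfold ax_G cc
      rw [Finset.sum_mul, Finset.mul_sum]
      refine Finset.sum_congr rfl fun ω hω => ?_
      have hT : (0 : ℝ) < topv b ω := by
        have h1 := (top_bounds hb hm hω).1
        have hp : 0 < p := hb.prime.pos
        have : 0 < topv b ω := lt_of_lt_of_le (Nat.mul_pos hp (pow_pos hb0' _)) h1
        exact_mod_cast this
      rw [ax_exp h0 hH hT t, hHc, hA]
      push_cast
      ring
    rw [integral_congr_ae (Eventually.of_forall hpt), integral_finsetSum]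
    · refine Finset.sum_congr rfl fun ω _ => ?_
      rw [integral_const_mul]
    · intro ω _
      exact (hint _).const_mul _
  simp only [hG]
  rw [Finset.sum_comm]
  unfold nw
  rw [Finset.mul_sum, Finset.mul_sum, ofReal_sum]
  refine Finset.sum_congr rfl fun ω hω => ?_
  have hcop : Nat.Coprime (lowv b ω) (b ^ m) := (low_coprime hb hm hω).pow_right m
  have ho := ax_orth (q := b ^ m) (n := n) hcop
  have hi := ax_inv hB hq0 (Real.log n - Real.log ((b : ℝ) ^ (k - m) * topv b ω))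
  rw [← Finset.sum_mul, ← Finset.mul_sum, ho, ← hi]
  by_cases hc : n ≡ lowv b ω [MOD b ^ m]
  · rw [if_pos hc, if_pos hc, hA]
    push_cast
    ring
  · rw [if_neg hc, if_neg hc]
    push_cast
    ring

theorem expansion {V₀ η : ℝ → ℝ} (hB : Bp V₀ η) {b p m k : ℕ} (hb : Bas b p) (hm : 1 ≤ m)
    (hk : m ≤ k) (F : Finset ℕ) (hF : F ⊆ Finset.Ico 1 m) {V : ℝ → ℝ}
    (hV : ∀ y, 0 ≤ V y ∧ V y ≤ 1) :
    (2 * Real.pi * ((b : ℝ) ^ m * (b ^ m).totient) * SSum b p m k F V η : ℝ) =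
      ∑ χ : DirichletCharacter ℂ (b ^ m), ∫ t : ℝ, itg b p m k F V η χ t := by
  unfold SSum
  rw [← tsum_mul_left, ofReal_tsum]
  have hs : HasSum (fun n => ∑ χ : DirichletCharacter ℂ (b ^ m),
      ∫ t, ax_G b p m k F V η χ n t)
      (∑ χ : DirichletCharacter ℂ (b ^ m), ∫ t : ℝ, itg b p m k F V η χ t) :=
    hasSum_sum fun χ _ => ax_hasSum hB hb hm F hV χ
  rw [← hs.tsum_eq]
  exact tsum_congr fun n => ax_term hB hb hm F hV n

end Pool.Agent.HPP
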