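import Pool.Agent.HPP.Defs

/-!
# HPP/EGl: splitting a pattern into free digits `φ` and matched digits `μ`

`gl p F φ μ` has `(p, p)` at position `0`, `φ i` at the free positions `i ∈ F` and `(μ i, μ i)` at the
matched positions. `MM` = the matched digit strings (value `0` at the other positions), `FF` = the
free digit strings (value `(0, 0)` at the other positions).

Proofs. `sum_RR`: `ω ↦ (φ, μ)`, `φ i = ω i` if `i ≠ 0 ∧ i ∈ F`, else `(0, 0)`; `μ i = (ω i).1` if `i ≠ 0 ∧
i ∉ F`, else `0` is a bijection of `RR` with `FF × MM` whose inverse is `gl` (`Finset.sum_nbij'` on the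
product `FF ×ˢ MM`, membership by `Fintype.mem_piFinset`). `card_MM`: `Fintype.card_piFinset`, a product
over `i` of `1` (if `i = 0 ∨ i ∈ F`) or `b / 2`; number of `i : Fin m` with `i ≠ 0 ∧ i ∉ F` is
`m - 1 - F.card` since `F ⊆ Ico 1 m` (`Finset.prod_ite`, transfer to `Finset.range m`). `card_FF` the
same. `low_gl`, `top_gl`: termwise; for `μ ∈ MM` the value is `0` at `0` and on `F`.
-/

namespace Pool.Agent.HPP

open Finset

/-- matched digit strings -/
def MM (b m : ℕ) (F : Finset ℕ) : Finset (Fin m → ℕ) :=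
  Fintype.piFinset fun i => if (i : ℕ) = 0 ∨ (i : ℕ) ∈ F then {0} else range (b / 2)

/-- free digit strings -/
def FF (b m : ℕ) (F : Finset ℕ) : Finset (Fin m → ℕ × ℕ) :=
  Fintype.piFinset fun i => if (i : ℕ) ≠ 0 ∧ (i : ℕ) ∈ F then range b ×ˢ range b else {(0, 0)}

/-- the pattern with free digits `φ` and matched digits `μ` -/
def gl (p : ℕ) (F : Finset ℕ) {m : ℕ} (φ : Fin m → ℕ × ℕ) (μ : Fin m → ℕ) : Fin m → ℕ × ℕ :=
  fun i => if (i : ℕ) = 0 then (p, p) else if (i : ℕ) ∈ F then φ i else (μ i, μ i)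

/-- value of the matched digits, low side -/
def Lw (b : ℕ) {m : ℕ} (μ : Fin m → ℕ) : ℕ := ∑ i, μ i * b ^ (i : ℕ)

/-- value of the matched digits, top side -/
def Tw (b : ℕ) {m : ℕ} (μ : Fin m → ℕ) : ℕ := ∑ i, μ i * b ^ (m - 1 - (i : ℕ))

theorem sum_RR {b p m : ℕ} {F : Finset ℕ} {α : Type*} [AddCommMonoid α]
    (G : (Fin m → ℕ × ℕ) → α) :
    ∑ ω ∈ RR b p m F, G ω = ∑ φ ∈ FF b m F, ∑ μ ∈ MM b m F, G (gl p F φ μ) := by
  rw [← Finset.sum_product']
  refine Finset.sum_nbij'
    (i := fun ω => ((fun i => if (i : ℕ) ≠ 0 ∧ (i : ℕ) ∈ F then ω i else (0, 0)),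
      (fun i => if (i : ℕ) = 0 ∨ (i : ℕ) ∈ F then 0 else (ω i).1)))
    (j := fun x => gl p F x.1 x.2) ?_ ?_ ?_ ?_ ?_
  · intro ω hω
    simp only [RR, Fintype.mem_piFinset] at hω
    rw [Finset.mem_product]
    constructor
    · simp only [FF, Fintype.mem_piFinset]
      intro i
      have h := hω i
      by_cases h0 : (i : ℕ) = 0
      · simp [h0]
      · by_cases hF : (i : ℕ) ∈ F
        · simpa [Sd, h0, hF] using h
        · simp [hF]
    · simp only [MM, Fintype.mem_piFinset]
      intro i
      have h := hω i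
      by_cases h0 : (i : ℕ) = 0
      · simp [h0]
      · by_cases hF : (i : ℕ) ∈ F
        · simp [hF]
        · simp only [Sd, h0, hF, if_false, Finset.mem_image, Finset.mem_range] at h
          obtain ⟨d, hd, hd2⟩ := h
          simp only [h0, hF, or_self, if_false, Finset.mem_range]
          rw [← hd2]
          exact hd
  · intro x hx
    rw [Finset.mem_product] at hx
    obtain ⟨h1, h2⟩ := hx
    simp only [FF, Fintype.mem_piFinset] at h1
    simp only [MM, Fintype.mem_piFinset] at h2
    simp only [RR, Fintype.mem_piFinset]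
    intro i
    have h1 := h1 i
    have h2 := h2 i
    by_cases h0 : (i : ℕ) = 0
    · simp [Sd, gl, h0]
    · by_cases hF : (i : ℕ) ∈ F
      · simp only [Sd, gl, h0, hF, if_true, if_false]
        simpa [h0, hF] using h1
      · simp only [Sd, gl, h0, hF, if_false, Finset.mem_image, Finset.mem_range]
        simp only [h0, hF, or_self, if_false, Finset.mem_range] at h2
        exact ⟨x.2 i, h2, rfl⟩
  · intro ω hω
    simp only [RR, Fintype.mem_piFinset] at hω
    funext i
    have h := hω i
    by_cases h0 : (i : ℕ) = 0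
    · simp only [Sd, h0, if_true, Finset.mem_singleton] at h
      simp [gl, h0, h]
    · by_cases hF : (i : ℕ) ∈ F
      · simp [gl, h0, hF]
      · simp only [Sd, h0, hF, if_false, Finset.mem_image, Finset.mem_range] at h
        obtain ⟨d, hd, hd2⟩ := h
        simp only [gl, h0, hF, if_false, or_self]
        rw [← hd2]
  · intro x hx
    rw [Finset.mem_product] at hx
    obtain ⟨h1, h2⟩ := hx
    simp only [FF, Fintype.mem_piFinset] at h1
    simp only [MM, Fintype.mem_piFinset] at h2
    refine Prod.ext ?_ ?_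
    · funext i
      have h1 := h1 i
      by_cases h0 : (i : ℕ) = 0
      · simp only [h0, ne_eq, not_true_eq_false, false_and, if_false, Finset.mem_singleton] at h1
        simp [h0, h1]
      · by_cases hF : (i : ℕ) ∈ F
        · simp [gl, h0, hF]
        · simp only [hF, and_false, if_false, Finset.mem_singleton] at h1
          simp [hF, h1]
    · funext i
      have h2 := h2 i
      by_cases h0 : (i : ℕ) = 0
      · simp only [h0, true_or, if_true, Finset.mem_singleton] at h2
        simp [h0, h2]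
      · by_cases hF : (i : ℕ) ∈ F
        · simp only [hF, or_true, if_true, Finset.mem_singleton] at h2
          simp [hF, h2]
        · simp [gl, h0, hF]
  · intro ω hω
    simp only [RR, Fintype.mem_piFinset] at hω
    congr 1
    funext i
    have h := hω i
    by_cases h0 : (i : ℕ) = 0
    · simp only [Sd, h0, if_true, Finset.mem_singleton] at h
      simp [gl, h0, h]
    · by_cases hF : (i : ℕ) ∈ F
      · simp [gl, h0, hF]
      · simp only [Sd, h0, hF, if_false, Finset.mem_image, Finset.mem_range] at h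
        obtain ⟨d, hd, hd2⟩ := h
        simp only [gl, h0, hF, if_false, or_self]
        rw [← hd2]

/-- a product over `Fin m` of a two-valued function -/
theorem prod_two {m : ℕ} {F : Finset ℕ} (hF : F ⊆ Ico 1 m) (x y z : ℕ) (hm : 1 ≤ m) :
    (∏ i : Fin m, if (i : ℕ) = 0 then z else if (i : ℕ) ∈ F then x else y) =
      z * (x ^ F.card * y ^ (m - 1 - F.card)) := by
  rw [Fin.prod_univ_eq_prod_range
    (fun i => if i = 0 then z else if i ∈ F then x else y) m]
  have h1 : range m = insert 0 (Ico 1 m) := by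
    ext i
    simp only [Finset.mem_range, Finset.mem_insert, Finset.mem_Ico]
    omega
  rw [h1, Finset.prod_insert (by simp)]
  simp only [if_true]
  congr 1
  have h2 : ∀ i ∈ Ico 1 m, (if i = 0 then z else if i ∈ F then x else y) =
      if i ∈ F then x else y := by
    intro i hi
    have := (Finset.mem_Ico.1 hi).1
    rw [if_neg (by omega)]
  rw [Finset.prod_congr rfl h2, Finset.prod_ite, Finset.prod_const, Finset.prod_const]
  have h3 : (Ico 1 m).filter (fun i => i ∈ F) = F := by
    ext i
    simp only [Finset.mem_filter]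
    exact ⟨fun h => h.2, fun h => ⟨hF h, h⟩⟩
  have h4 : (Ico 1 m).filter (fun i => ¬ i ∈ F) = Ico 1 m \ F := by
    ext i
    simp only [Finset.mem_filter, Finset.mem_sdiff]
  rw [h3, h4, Finset.card_sdiff_of_subset hF, Nat.card_Ico]

theorem card_MM {b m : ℕ} {F : Finset ℕ} (hm : 1 ≤ m) (hF : F ⊆ Ico 1 m) :
    (MM b m F).card = (b / 2) ^ (m - 1 - F.card) := by
  rw [MM, Fintype.card_piFinset]
  have h := prod_two hF 1 (b / 2) 1 hm
  rw [one_pow, one_mul, one_mul] at h
  rw [← h]
  refine Finset.prod_congr rfl fun i _ => ?_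
  by_cases h0 : (i : ℕ) = 0
  · simp [h0]
  · by_cases hF : (i : ℕ) ∈ F
    · simp [hF]
    · simp [h0, hF]

theorem card_FF {b m : ℕ} {F : Finset ℕ} (hF : F ⊆ Ico 1 m) :
    (FF b m F).card = (b ^ 2) ^ F.card := by
  rcases Nat.eq_zero_or_pos m with h0 | hm
  · subst h0
    have : F = ∅ := by
      rw [← Finset.subset_empty]
      simpa using hF
    subst this
    simp [FF]
  · rw [FF, Fintype.card_piFinset]
    have h := prod_two hF (b ^ 2) 1 1 hm
    rw [one_pow, mul_one, one_mul] at h
    rw [← h]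
    refine Finset.prod_congr rfl fun i _ => ?_
    by_cases h0 : (i : ℕ) = 0
    · simp [h0]
    · by_cases hF : (i : ℕ) ∈ F
      · simp [h0, hF, pow_two]
      · simp [h0, hF]

theorem card_RR {b p m : ℕ} {F : Finset ℕ} (hm : 1 ≤ m) (hF : F ⊆ Ico 1 m) :
    (RR b p m F).card = (b ^ 2) ^ F.card * (b / 2) ^ (m - 1 - F.card) := by
  have h := sum_RR (b := b) (p := p) (m := m) (F := F) (fun _ => (1 : ℕ))
  rw [Finset.sum_const, smul_eq_mul, mul_one, Finset.sum_const, Finset.sum_const, smul_eq_mul,
    smul_eq_mul, mul_one, card_FF hF, card_MM hm hF] at h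
  exact h

theorem low_gl {b p m : ℕ} {F : Finset ℕ} (φ : Fin m → ℕ × ℕ) {μ : Fin m → ℕ}
    (hμ : μ ∈ MM b m F) : lowv b (gl p F φ μ) = lowv b (gl p F φ 0) + Lw b μ := by
  simp only [MM, Fintype.mem_piFinset] at hμ
  rw [lowv, lowv, Lw, ← Finset.sum_add_distrib]
  refine Finset.sum_congr rfl fun i _ => ?_
  rw [← add_mul]
  congr 1
  have h := hμ i
  by_cases h0 : (i : ℕ) = 0
  · simp only [h0, true_or, if_true, Finset.mem_singleton] at h
    simp [gl, h0, h]
  · by_cases hF : (i : ℕ) ∈ F
    · simp only [hF, or_true, if_true, Finset.mem_singleton] at h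
      simp [gl, h0, hF, h]
    · simp [gl, h0, hF]

theorem top_gl {b p m : ℕ} {F : Finset ℕ} (φ : Fin m → ℕ × ℕ) {μ : Fin m → ℕ}
    (hμ : μ ∈ MM b m F) : topv b (gl p F φ μ) = topv b (gl p F φ 0) + Tw b μ := by
  simp only [MM, Fintype.mem_piFinset] at hμ
  rw [topv, topv, Tw, ← Finset.sum_add_distrib]
  refine Finset.sum_congr rfl fun i _ => ?_
  rw [← add_mul]
  congr 1
  have h := hμ i
  by_cases h0 : (i : ℕ) = 0
  · simp only [h0, true_or, if_true, Finset.mem_singleton] at h
    simp [gl, h0, h]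
  · by_cases hF : (i : ℕ) ∈ F
    · simp only [hF, or_true, if_true, Finset.mem_singleton] at h
      simp [gl, h0, hF, h]
    · simp [gl, h0, hF]

theorem gl_mem {b p m : ℕ} {F : Finset ℕ} {φ : Fin m → ℕ × ℕ} {μ : Fin m → ℕ}
    (hφ : φ ∈ FF b m F) (hμ : μ ∈ MM b m F) : gl p F φ μ ∈ RR b p m F := by
  simp only [FF, Fintype.mem_piFinset] at hφ
  simp only [MM, Fintype.mem_piFinset] at hμ
  simp only [RR, Fintype.mem_piFinset]
  intro i
  have h1 := hφ i
  have h2 := hμ i
  by_cases h0 : (i : ℕ) = 0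
  · simp [Sd, gl, h0]
  · by_cases hF : (i : ℕ) ∈ F
    · simp only [Sd, gl, h0, hF, if_true, if_false]
      simpa [h0, hF] using h1
    · simp only [Sd, gl, h0, hF, if_false, Finset.mem_image, Finset.mem_range]
      simp only [h0, hF, or_self, if_false, Finset.mem_range] at h2
      exact ⟨μ i, h2, rfl⟩

end Pool.Agent.HPP
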