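import Pool.Agent.HPP.ADefs
import Pool.Agent.HPP.EGl

/-!
# HPP/AFin: choice of the parameters

`FinalAt f₀` from `MainProp`, `CountProp`, `ErrProp f₀` (`5/12 < f₀ ≤ 5/9`). Given `ε > 0` (wlog small).
`f := f₀ - ε/4` (if `> 5/12`; otherwise replace `ε` by a smaller one: the statement is monotone in `ε`),
`J ≥ J₀(f), 5` with `3 J 2^(-J) ≤ ε/8` and `2^(-J) ≤ ε/8`; `b₀` = max of the `b₀` of `ErrProp` and of
`b^((f₀ - f)/4) ≥ 3`, `b₀ ≥ 3`. `b ≥ b₀`: `p` by Bertrand (`Nat.exists_prime_lt_and_le_two_mul (b/2)`: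
`b/2 < p ≤ 2 (b/2)`, `p ≠ b` : if `p = b` then `b` even prime, `b = 2`), so `Bas b p`. `V₀, η` from
`exists_Bp`. For `k` large `w := ⌊f (k-1)/(2^(J+1)+1)⌋`, `m = 2^J w`: `2 m ≤ f (k-1-w)`, `2m ≤ k`,
`k ≤ A w` with `A = 2^(J+3)`, `w → ∞`. `MainProp`, `CountProp`, `ErrProp`:
`c₀ N₀ ≤ SSum + Err/(q φ(q)) ≤ (k log b)(#good + 2 k log b b^(k/2)) + b^(-w/60) N₀`,
`N₀ = #RR x/(q φ(q)) ≥ (b²)^f' (b/3)^(m-1-f') b^(k-1) b^(-2m)`, `f' = #F`, (`card_RR`, `b/2 ≥ b/3`)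
`≥ b^(k - m - 2) 3^(-m)`, and `m ≤ f k/2`, so `N₀ ≥ b^((1-f/2)k - 2) 3^(-k/3) ≥ b^((1-f₀/2) k) b^((f₀-f)k/4 ..)`:
much larger than `b^((1-f₀/2)k) k log b · 2/c₀` and than `b^(k/2)(k log b)²` (`1 - f₀/2 > 1/2`).
The good primes satisfy the digit condition: `i < f₀ k/2` with different digits lie in `F` or in
`[m, f₀ k/2)`: at most `3 J w + (f₀ k/2 - m + 1) ≤ ε k` of them (`m ≥ (f/2) k (1 - 2^(-J)) - 2^J - 1`...,
`3 J w ≤ 3 J 2^(-J) k`).
`exists_Bp`: smooth bumps, e.g. `Real.smoothTransition` products or `ContDiffBump`.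
-/

namespace Pool.Agent.HPP

open Filter

theorem exists_Bp : ∃ V₀ η : ℝ → ℝ, Bp V₀ η := by
  let g₁ : ContDiffBump (1 / 2 : ℝ) := ⟨1 / 8, 1 / 4, by norm_num, by norm_num⟩
  let g₂ : ContDiffBump (1 / 4 : ℝ) := ⟨1 / 16, 1 / 8, by norm_num, by norm_num⟩
  refine ⟨g₁, g₂, ?_⟩
  constructor
  · intro n; exact g₁.contDiff
  · rw [g₁.tsupport_eq, Real.closedBall_eq_Icc]
    intro x hx
    have h1 : g₁.rOut = 1 / 4 := rfl
    rw [h1] at hx
    constructor <;> [have := hx.1; have := hx.2] <;> linarith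
  · intro y; exact ⟨g₁.nonneg, g₁.le_one⟩
  · refine ⟨1 / 2, ?_⟩
    rw [g₁.one_of_mem_closedBall (Metric.mem_closedBall_self g₁.rIn_pos.le)]
    exact one_ne_zero
  · intro n; exact g₂.contDiff
  · rw [g₂.tsupport_eq, Real.closedBall_eq_Icc]
    intro x hx
    have h1 : g₂.rOut = 1 / 8 := rfl
    rw [h1] at hx
    constructor <;> [have := hx.1; have := hx.2] <;> linarith
  · intro y; exact ⟨g₂.nonneg, g₂.le_one⟩
  · refine ⟨1 / 4, ?_⟩
    rw [g₂.one_of_mem_closedBall (Metric.mem_closedBall_self g₂.rIn_pos.le)]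
    exact one_ne_zero

theorem Fr_subset (J w : ℕ) : Fr J w ⊆ Finset.Ico 1 (2 ^ J * w) :=
  Finset.filter_subset _ _

private theorem AFin_Bk_card (J : ℕ) (hJ : 1 ≤ J) : (Bk J).card ≤ 3 * J := by
  have hsub : Bk J ⊆ ({0} ∪ (Finset.range (J - 1)).image (fun l => 2 ^ l)) ∪
      Finset.Ico (2 ^ (J - 1)) (2 ^ (J - 1) + 2 * J) := by
    intro x hx
    unfold Bk at hx
    simp only [Finset.mem_union, Finset.mem_singleton, Finset.mem_image, Finset.mem_range,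
      Finset.mem_Ico] at hx ⊢
    rcases hx with (h | ⟨l, hl, h⟩) | h
    · left; left; exact h
    · by_cases hl' : l < J - 1
      · left; right; exact ⟨l, hl', h⟩
      · right
        have : l = J - 1 := by omega
        subst this
        rw [← h]
        omega
    · right; exact h
  refine (Finset.card_le_card hsub).trans ?_
  refine (Finset.card_union_le _ _).trans ?_
  have h1 : (({0} : Finset ℕ) ∪ (Finset.range (J - 1)).image (fun l => 2 ^ l)).card ≤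
      1 + (J - 1) := by
    refine (Finset.card_union_le _ _).trans ?_
    have := Finset.card_image_le (s := Finset.range (J - 1)) (f := fun l => 2 ^ l)
    rw [Finset.card_range] at this
    rw [Finset.card_singleton]
    omega
  rw [Nat.card_Ico]
  omega

theorem Fr_card (J w : ℕ) (hJ : 1 ≤ J) : (Fr J w).card ≤ 3 * J * w := by
  rcases Nat.eq_zero_or_pos w with hw | hw
  · subst hw
    simp [Fr]
  · have h := Finset.card_le_mul_card_image_of_maps_to (s := Fr J w) (t := Bk J)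
      (f := fun i => i / w) (fun i hi => (Finset.mem_filter.mp hi).2) w (by
        intro c _
        have : (Fr J w).filter (fun a => a / w = c) ⊆ Finset.Ico (c * w) (c * w + w) := by
          intro a ha
          have ha := (Finset.mem_filter.mp ha).2
          rw [Finset.mem_Ico]
          constructor
          · rw [← ha]; exact Nat.div_mul_le_self a w
          · rw [← ha]; exact Nat.lt_div_mul_add hw
        refine (Finset.card_le_card this).trans ?_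
        rw [Nat.card_Ico]; omega)
    have hB := AFin_Bk_card J hJ
    calc (Fr J w).card ≤ w * (Bk J).card := h
      _ ≤ w * (3 * J) := Nat.mul_le_mul_left w hB
      _ = 3 * J * w := by ring

/-- the final statement with a fixed set of matched positions -/
def FinalAtM (f₀ : ℝ) : Prop := ∀ ε : ℝ, 0 < ε → ∃ b₀ : ℕ, ∀ b : ℕ, b₀ ≤ b →
  ∃ k₀ : ℕ, ∀ k : ℕ, k₀ ≤ k → ∃ M : Finset ℕ, (∀ i ∈ M, (i : ℝ) < f₀ / 2 * k) ∧
  (f₀ / 2 - ε) * k ≤ (M.card : ℝ) ∧
  (b : ℝ) ^ ((1 - f₀ / 2) * k : ℝ) ≤ (((Finset.range (b ^ k)).filter fun n => n.Prime ∧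
    b ^ (k - 1) ≤ n ∧ ∀ i ∈ M,
      (Nat.digits b n).getD i 0 = (Nat.digits b n).getD (k - 1 - i) 0).card : ℝ)

private theorem AFin_bas (b : ℕ) (hb : 3 ≤ b) : ∃ p, Bas b p := by
  obtain ⟨p, hp, h1, h2⟩ := Nat.exists_prime_lt_and_le_two_mul (b / 2) (by omega)
  refine ⟨p, hb, hp, ?_, by omega⟩
  have h3 : p ≤ b := by omega
  rcases h3.lt_or_eq with h | h
  · exact h
  · exfalso
    have h4 : p = 2 * (b / 2) := by omega
    have h5 : 2 ∣ p := ⟨b / 2, h4⟩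
    have h6 := (Nat.prime_dvd_prime_iff_eq Nat.prime_two hp).mp h5
    omega

private theorem AFin_N0 {b p m k : ℕ} {F : Finset ℕ} (hb : 3 ≤ b) (hm : 1 ≤ m) (hmk : 2 * m ≤ k)
    (hF : F ⊆ Finset.Ico 1 m) :
    (b : ℝ) ^ ((k : ℝ) - m - 2) / 3 ^ k ≤
      (RR b p m F).card * (b : ℝ) ^ (k - 1) / ((b : ℝ) ^ m * (b ^ m).totient) := by
  have hB : (0 : ℝ) < b := by positivity
  have hB3 : (3 : ℝ) ≤ b := by exact_mod_cast hb
  have hFc : F.card ≤ m - 1 := by
    have := Finset.card_le_card hF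
    rwa [Nat.card_Ico] at this
  have hcard : ((b : ℝ) / 3) ^ (m - 1) ≤ ((RR b p m F).card : ℝ) := by
    rw [card_RR hm hF]
    push_cast
    have h1 : ((b : ℝ) / 3) ≤ ((b / 2 : ℕ) : ℝ) := by
      have : b ≤ 3 * (b / 2) := by omega
      have : (b : ℝ) ≤ 3 * ((b / 2 : ℕ) : ℝ) := by exact_mod_cast this
      linarith
    have h2 : (b : ℝ) / 3 ≤ (b : ℝ) ^ 2 := by nlinarith
    have h3 : (0 : ℝ) ≤ (b : ℝ) / 3 := by positivity
    calc ((b : ℝ) / 3) ^ (m - 1) = ((b : ℝ) / 3) ^ F.card * ((b : ℝ) / 3) ^ (m - 1 - F.card) := by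
          rw [← pow_add]; congr 1; omega
      _ ≤ ((b : ℝ) ^ 2) ^ F.card * ((b / 2 : ℕ) : ℝ) ^ (m - 1 - F.card) := by
          gcongr
  have htot : ((b ^ m).totient : ℝ) ≤ (b : ℝ) ^ m := by
    have := Nat.totient_le (b ^ m)
    exact_mod_cast this
  have htot0 : (0 : ℝ) < ((b ^ m).totient : ℝ) := by
    have : 0 < (b ^ m).totient := Nat.totient_pos.mpr (by positivity)
    exact_mod_cast this
  have e1 : (b : ℝ) ^ ((k : ℝ) - m - 2) = (b : ℝ) ^ k / ((b : ℝ) ^ m * (b : ℝ) ^ 2) := by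
    rw [Real.rpow_sub hB, Real.rpow_sub hB, Real.rpow_natCast, Real.rpow_natCast]
    have : (b : ℝ) ^ (2 : ℝ) = (b : ℝ) ^ 2 := by
      rw [← Real.rpow_natCast]; norm_num
    rw [this, div_div]
  have e2 : (b : ℝ) ^ k = (b : ℝ) * (b : ℝ) ^ (k - 1) := by
    rw [← pow_succ']; congr 1; omega
  have e3 : (b : ℝ) ^ m = (b : ℝ) * (b : ℝ) ^ (m - 1) := by
    rw [← pow_succ']; congr 1; omega
  have h3k : (3 : ℝ) ^ (m - 1) ≤ 3 ^ k := pow_le_pow_right₀ (by norm_num) (by omega)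
  calc (b : ℝ) ^ ((k : ℝ) - m - 2) / 3 ^ k
      ≤ (b : ℝ) ^ ((k : ℝ) - m - 2) / 3 ^ (m - 1) := by
        gcongr
    _ = ((b : ℝ) / 3) ^ (m - 1) * (b : ℝ) ^ (k - 1) / ((b : ℝ) ^ m * (b : ℝ) ^ m) := by
        rw [e1, div_pow, e2, e3]
        field_simp
    _ ≤ ((RR b p m F).card : ℝ) * (b : ℝ) ^ (k - 1) / ((b : ℝ) ^ m * (b ^ m).totient) := by
        gcongr

private theorem AFin_J (ε : ℝ) (hε : 0 < ε) (J₀ : ℕ) : ∃ J : ℕ, J₀ ≤ J ∧ 5 ≤ J ∧
    (1 / 2 : ℝ) ^ J ≤ ε / 8 ∧ 3 * J * (1 / 2 : ℝ) ^ J ≤ ε / 8 := by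
  have h1 : Tendsto (fun n : ℕ => (1 / 2 : ℝ) ^ n) atTop (nhds 0) :=
    tendsto_pow_atTop_nhds_zero_of_lt_one (by norm_num) (by norm_num)
  have h2 : Tendsto (fun n : ℕ => (n : ℝ) * (1 / 2 : ℝ) ^ n) atTop (nhds 0) :=
    tendsto_self_mul_const_pow_of_lt_one (by norm_num) (by norm_num)
  have e1 := h1.eventually (gt_mem_nhds (show (0 : ℝ) < ε / 8 by positivity))
  have e2 := h2.eventually (gt_mem_nhds (show (0 : ℝ) < ε / 24 by positivity))
  obtain ⟨J, ⟨⟨a1, a2⟩, a3⟩, a4⟩ :=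
    (((e1.and e2).and (eventually_ge_atTop J₀)).and (eventually_ge_atTop 5)).exists
  refine ⟨J, a3, a4, a1.le, ?_⟩
  nlinarith

private theorem AFin_growth (L a C : ℝ) (hL : 0 < L) (ha : 0 < a) (hC : 0 < C) :
    ∀ᶠ k : ℕ in atTop, (k : ℝ) * L * (1 + 2 * k * L) ≤ C * Real.exp (a * k) := by
  have h := isLittleO_pow_exp_pos_mul_atTop 2 ha
  have h1 := h.bound (show 0 < C / (L + 2 * L ^ 2) by positivity)
  have h2 := (tendsto_natCast_atTop_atTop (R := ℝ)).eventually h1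
  filter_upwards [h2, eventually_ge_atTop 1] with k hk hk1
  have hk1' : (1 : ℝ) ≤ k := by exact_mod_cast hk1
  rw [Real.norm_of_nonneg (by positivity), Real.norm_of_nonneg (Real.exp_pos _).le] at hk
  have hD : 0 < L + 2 * L ^ 2 := by positivity
  have h3 : (L + 2 * L ^ 2) * (k : ℝ) ^ 2 ≤ C * Real.exp (a * k) := by
    have := mul_le_mul_of_nonneg_left hk hD.le
    calc (L + 2 * L ^ 2) * (k : ℝ) ^ 2 ≤ (L + 2 * L ^ 2) * (C / (L + 2 * L ^ 2) *
          Real.exp (a * k)) := this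
      _ = C * Real.exp (a * k) := by field_simp
  have h4 : (k : ℝ) * L ≤ k ^ 2 * L :=
    mul_le_mul_of_nonneg_right (by nlinarith only [hk1']) hL.le
  calc (k : ℝ) * L * (1 + 2 * k * L) = k * L + 2 * L ^ 2 * (k : ℝ) ^ 2 := by ring
    _ ≤ k ^ 2 * L + 2 * L ^ 2 * (k : ℝ) ^ 2 := by linarith only [h4]
    _ = (L + 2 * L ^ 2) * (k : ℝ) ^ 2 := by ring
    _ ≤ C * Real.exp (a * k) := h3

theorem finalAtM_of {f₀ : ℝ} (h₀ : 5 / 12 < f₀) (h₀' : f₀ ≤ 5 / 9) (hM : MainProp)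
    (hC : CountProp) (hE : ErrProp f₀) : FinalAtM f₀ := by
  intro ε hε
  obtain ⟨V₀, η, hB⟩ := exists_Bp
  set δ : ℝ := min (ε / 4) ((f₀ - 5 / 12) / 2) with hδ
  have hδ0 : 0 < δ := lt_min (by positivity) (by linarith)
  have hδ1 : δ ≤ ε / 4 := min_le_left _ _
  have hδ2 : δ ≤ (f₀ - 5 / 12) / 2 := min_le_right _ _
  set f : ℝ := f₀ - δ with hf
  have hf1 : 5 / 12 < f := by rw [hf]; linarith
  have hf2 : f < f₀ := by rw [hf]; linarith
  obtain ⟨J₀, hJ₀⟩ := hE V₀ η hB f hf1 hf2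
  obtain ⟨J, hJ1, hJ5, hJa, hJb⟩ := AFin_J ε hε J₀
  obtain ⟨b₁, hb₁⟩ := hJ₀ J hJ1
  refine ⟨max 3 (max b₁ ⌈(3 : ℝ) ^ (4 / δ)⌉₊), fun b hb => ?_⟩
  have hb3 : 3 ≤ b := (le_max_left _ _).trans hb
  have hbb₁ : b₁ ≤ b := ((le_max_left _ _).trans (le_max_right _ _)).trans hb
  have hbδ : (3 : ℝ) ^ (4 / δ) ≤ b :=
    Nat.ceil_le.mp (((le_max_right _ _).trans (le_max_right _ _)).trans hb)
  have hBpos : (0 : ℝ) < b := by positivity
  have hB1 : (1 : ℝ) < b := by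
    have : (3 : ℝ) ≤ b := by exact_mod_cast hb3
    linarith
  have hBδ : (3 : ℝ) ≤ (b : ℝ) ^ (δ / 4) := by
    have h := Real.rpow_le_rpow (by positivity) hbδ (show (0 : ℝ) ≤ δ / 4 by positivity)
    rw [← Real.rpow_mul (by norm_num)] at h
    have e : 4 / δ * (δ / 4) = 1 := by field_simp
    rw [e, Real.rpow_one] at h
    exact h
  obtain ⟨p, hp⟩ := AFin_bas b hb3
  obtain ⟨c₀, hc₀, w₁, hw₁⟩ := hM V₀ η hB b p J hp hJ5
  -- the slope of `w`
  set c : ℝ := f / (2 ^ (J + 1) + 1) with hc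
  have hc0 : 0 < c := by rw [hc]; positivity
  obtain ⟨w₂, hw₂⟩ := hb₁ b p hbb₁ hp (2 / c) (by positivity)
  -- `w → ∞`
  have hwt : Tendsto (fun k : ℕ => ⌊c * ((k : ℝ) - 1)⌋₊) atTop atTop := by
    refine tendsto_nat_floor_atTop.comp ?_
    refine Tendsto.const_mul_atTop hc0 ?_
    exact tendsto_atTop_add_const_right _ _ tendsto_natCast_atTop_atTop
  have hpow : Tendsto (fun w : ℕ => (b : ℝ) ^ (-(w : ℝ) / 60)) atTop (nhds 0) := by
    have h1 : Tendsto (fun w : ℕ => (w : ℝ) / 60) atTop atTop :=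
      Tendsto.atTop_div_const (by norm_num) tendsto_natCast_atTop_atTop
    have h2 : Tendsto (fun w : ℕ => Real.exp (-(Real.log b * ((w : ℝ) / 60)))) atTop (nhds 0) := Real.tendsto_exp_neg_atTop_nhds_zero.comp (Tendsto.const_mul_atTop (Real.log_pos hB1) h1)
    refine h2.congr fun w => ?_
    rw [Real.rpow_def_of_pos hBpos]
    congr 1
    ring
  have hL : 0 < Real.log b := Real.log_pos hB1
  have ev1 := (hpow.comp hwt).eventually (gt_mem_nhds (show (0 : ℝ) < c₀ / 2 by positivity))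
  have ev2 := hwt.eventually_ge_atTop (max 1 (max w₁ w₂))
  have ev3 := (tendsto_natCast_atTop_atTop (R := ℝ)).eventually_ge_atTop
    (max (2 + 2 / c) ((1 + 2 ^ J) / (5 * ε / 8)))
  have ev4 := AFin_growth (Real.log b) (δ / 4 * Real.log b) (c₀ / 2 * (b : ℝ) ^ (-2 : ℝ)) hL
    (by positivity) (by positivity)
  obtain ⟨k₀, hk₀⟩ := eventually_atTop.mp (((ev1.and ev2).and ev3).and (ev4.and
    (eventually_ge_atTop 1)))
  refine ⟨k₀, fun k hk => ?_⟩
  obtain ⟨⟨⟨e1, e2⟩, e3⟩, e4, e5⟩ := hk₀ k hk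
  simp only [Function.comp] at e1
  set w : ℕ := ⌊c * ((k : ℝ) - 1)⌋₊ with hw
  have hw1 : 1 ≤ w := (le_max_left _ _).trans e2
  have hww₁ : w₁ ≤ w := ((le_max_left _ _).trans (le_max_right _ _)).trans e2
  have hww₂ : w₂ ≤ w := ((le_max_right _ _).trans (le_max_right _ _)).trans e2
  have hk2c : 2 + 2 / c ≤ (k : ℝ) := (le_max_left _ _).trans e3
  have hkJ : (1 + 2 ^ J) / (5 * ε / 8) ≤ (k : ℝ) := (le_max_right _ _).trans e3
  have hkJ' : 1 + (2 : ℝ) ^ J ≤ 5 * ε / 8 * k := by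
    rw [div_le_iff₀ (by positivity)] at hkJ
    linarith
  have hk1 : (1 : ℝ) ≤ k := by exact_mod_cast e5
  have hwle : (w : ℝ) ≤ c * ((k : ℝ) - 1) := Nat.floor_le (by
    apply mul_nonneg hc0.le; linarith)
  have hwge : c * ((k : ℝ) - 1) < (w : ℝ) + 1 := Nat.lt_floor_add_one _
  have hP : (0 : ℝ) < 2 ^ J := by positivity
  have hP1 : (1 : ℝ) ≤ 2 ^ J := one_le_pow₀ (by norm_num)
  have hcP : c * (2 * 2 ^ J + 1) = f := by
    rw [hc, pow_succ]
    field_simp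
  have hw0 : (0 : ℝ) ≤ w := Nat.cast_nonneg w
  have hf9 : f < 5 / 9 := lt_of_lt_of_le hf2 h₀'
  have hwf : (2 * 2 ^ J + 1) * (w : ℝ) ≤ f * ((k : ℝ) - 1) := by
    calc (2 * 2 ^ J + 1) * (w : ℝ) ≤ (2 * 2 ^ J + 1) * (c * ((k : ℝ) - 1)) :=
          mul_le_mul_of_nonneg_left hwle (by positivity)
      _ = c * (2 * 2 ^ J + 1) * ((k : ℝ) - 1) := by ring
      _ = f * ((k : ℝ) - 1) := by rw [hcP]
  have hfw : f * (w : ℝ) ≤ w := by nlinarith only [hf9, hw0]
  have hcond1 : (2 : ℝ) * (2 ^ J * w) ≤ f * (k - 1 - w) := by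
    have e : f * ((k : ℝ) - 1 - w) = f * ((k : ℝ) - 1) - f * w := by ring
    rw [e]
    linarith only [hfw, hwf]
  have hcond2 : (k : ℝ) ≤ 2 / c * w := by
    have h1 : (k : ℝ) - 1 < (w + 1) / c := by
      rw [lt_div_iff₀ hc0]; linarith
    have h2 : 2 / c * w = 2 * ((w + 1) / c) - 2 / c := by field_simp; ring
    rw [h2]
    linarith
  set m : ℕ := 2 ^ J * w with hm
  have hmr : (m : ℝ) = 2 ^ J * w := by rw [hm]; push_cast; ring
  have hm1 : 1 ≤ m := by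
    rw [hm]
    exact Nat.one_le_iff_ne_zero.mpr (Nat.mul_ne_zero (by positivity) (by omega))
  have hf0 : 0 < f := by linarith only [hf1]
  have h2m : (2 : ℝ) * m ≤ f * k := by
    rw [hmr]; linarith only [hwf, hw0, hf0]
  have h2mk : 2 * m ≤ k := by
    have : (2 : ℝ) * m ≤ k := by nlinarith only [h2m, hf9, hk1]
    exact_mod_cast this
  have hMain := hw₁ w hww₁ k h2mk
  have hErr := hw₂ w hww₂ k hcond1 hcond2
  have hCount := hC V₀ η hB b p m k (Fr J w) hp (Fr_subset J w) hm1 h2mk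
  have hN := AFin_N0 (p := p) hb3 hm1 h2mk (Fr_subset J w)
  rw [← hm] at hMain hErr
  refine ⟨Finset.range m \ Fr J w, ?_, ?_, ?_⟩
  · intro i hi
    have him : i < m := Finset.mem_range.mp (Finset.mem_sdiff.mp hi).1
    have : (i : ℝ) < m := by exact_mod_cast him
    nlinarith only [this, h2m, hf2, hk1]
  · have h1 := Finset.le_card_sdiff (Fr J w) (Finset.range m)
    rw [Finset.card_range] at h1
    have h2 := Fr_card J w (by omega)
    have h3 : (m : ℝ) - 3 * J * w ≤ ((Finset.range m \ Fr J w).card : ℝ) := by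
      have : m ≤ (Finset.range m \ Fr J w).card + 3 * J * w := by omega
      have : (m : ℝ) ≤ ((Finset.range m \ Fr J w).card : ℝ) + 3 * J * w := by exact_mod_cast this
      linarith
    refine le_trans ?_ h3
    set u : ℝ := (1 / 2 : ℝ) ^ J with hu
    have hu0 : 0 < u := by positivity
    have huP : u * 2 ^ J = 1 := by
      rw [hu, ← mul_pow]; norm_num
    have hcu : c ≤ u := by
      have h5 : c * (2 ^ J) ≤ 1 := by linarith only [hcP, hf9, hc0]
      nlinarith only [h5, huP, hu0, hP]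
    have h4 : 3 * (J : ℝ) * w ≤ ε / 8 * k := by
      have h5 : (w : ℝ) ≤ u * k := by
        have h51 : c * (k : ℝ) ≤ u * k := mul_le_mul_of_nonneg_right hcu (by linarith only [hk1])
        linarith only [hwle, h51, hc0]
      calc 3 * (J : ℝ) * w ≤ 3 * (J : ℝ) * (u * k) := mul_le_mul_of_nonneg_left h5 (by positivity)
        _ = 3 * (J : ℝ) * u * k := by ring
        _ ≤ ε / 8 * k := mul_le_mul_of_nonneg_right hJb (by linarith)
    have h6 : (f / 2 - u) ≤ 2 ^ J * c := by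
      have : 2 * (2 ^ J * c) + c = f := by linarith
      linarith
    have h7 : 2 ^ J * c ≤ 1 := by linarith only [hcP, hf9, hc0]
    have h8 : (f / 2 - u) * k - 1 - 2 ^ J ≤ (m : ℝ) := by
      rw [hmr]
      have h9 : 2 ^ J * (c * ((k : ℝ) - 1)) ≤ 2 ^ J * ((w : ℝ) + 1) :=
        mul_le_mul_of_nonneg_left hwge.le hP.le
      have h10 : (f / 2 - u) * k ≤ 2 ^ J * c * k :=
        mul_le_mul_of_nonneg_right h6 (by linarith only [hk1])
      linarith only [h7, h9, h10]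
    have h11 : u * k ≤ ε / 8 * k := mul_le_mul_of_nonneg_right hJa (by linarith)
    have h12 : δ * k ≤ ε / 4 * k := mul_le_mul_of_nonneg_right hδ1 (by linarith)
    have h13 : (f / 2 - u) * (k : ℝ) = f₀ / 2 * k - δ * k / 2 - u * k := by rw [hf]; ring
    have h14 : (f₀ / 2 - ε) * (k : ℝ) = f₀ / 2 * k - ε * k := by ring
    rw [h13] at h8
    rw [h14]
    have h15 : 5 * ε / 8 * (k : ℝ) = 5 / 8 * (ε * k) := by ring
    have h16 : ε / 8 * (k : ℝ) = 1 / 8 * (ε * k) := by ring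
    have h17 : ε / 4 * (k : ℝ) = 1 / 4 * (ε * k) := by ring
    rw [h15] at hkJ'
    rw [h16] at h4 h11
    rw [h17] at h12
    linarith only [h4, h8, h11, h12, hkJ']
  · set G : ℝ := (((Finset.range (b ^ k)).filter fun n => n.Prime ∧ b ^ (k - 1) ≤ n ∧
      ∀ i < m, i ∉ Fr J w →
        (Nat.digits b n).getD i 0 = (Nat.digits b n).getD (k - 1 - i) 0).card : ℝ) with hG
    have hGeq : (((Finset.range (b ^ k)).filter fun n => n.Prime ∧
        b ^ (k - 1) ≤ n ∧ ∀ i ∈ Finset.range m \ Fr J w,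
        (Nat.digits b n).getD i 0 = (Nat.digits b n).getD (k - 1 - i) 0).card : ℝ) = G := by
      rw [hG]
      congr 2
      refine Finset.filter_congr fun n _ => ?_
      simp only [Finset.mem_sdiff, Finset.mem_range, and_imp]
    rw [hGeq]
    set N₀ : ℝ := ((RR b p m (Fr J w)).card * (b : ℝ) ^ (k - 1) /
      ((b : ℝ) ^ m * (b ^ m).totient)) with hN₀
    set X : ℝ := (b : ℝ) ^ ((1 - f₀ / 2) * k : ℝ) with hX
    have hX0 : 0 < X := Real.rpow_pos_of_pos hBpos _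
    have htot0 : (0 : ℝ) < ((b ^ m).totient : ℝ) := by
      have : 0 < (b ^ m).totient := Nat.totient_pos.mpr (by positivity)
      exact_mod_cast this
    have hN₀0 : 0 ≤ N₀ := by rw [hN₀]; positivity
    have hE2 : Err b p J w k (fun y => V₀ (y - p)) / ((b : ℝ) ^ m * (b ^ m).totient) ≤
        c₀ / 2 * N₀ := by
      calc Err b p J w k (fun y => V₀ (y - p)) / ((b : ℝ) ^ m * (b ^ m).totient)
          ≤ ((b : ℝ) ^ (-(w : ℝ) / 60) * (RR b p m (Fr J w)).card * (b : ℝ) ^ (k - 1)) /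
            ((b : ℝ) ^ m * (b ^ m).totient) := by gcongr
        _ = (b : ℝ) ^ (-(w : ℝ) / 60) * N₀ := by rw [hN₀]; ring
        _ ≤ c₀ / 2 * N₀ := mul_le_mul_of_nonneg_right e1.le hN₀0
    have hS : c₀ / 2 * N₀ ≤ k * Real.log b * (G + 2 * k * Real.log b * (b : ℝ) ^ ((k : ℝ) / 2)) := by
      refine le_trans ?_ hCount
      linarith
    have hNX : X * ((b : ℝ) ^ (-2 : ℝ) * Real.exp (δ / 4 * Real.log b * k)) ≤ N₀ := by
      refine le_trans ?_ hN
      have h1 : (3 : ℝ) ^ k ≤ (b : ℝ) ^ (δ / 4 * k) := by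
        rw [Real.rpow_mul hBpos.le, Real.rpow_natCast]
        exact pow_le_pow_left₀ (by norm_num) hBδ k
      have h2 : (b : ℝ) ^ ((1 - f / 2) * k - 2) ≤ (b : ℝ) ^ ((k : ℝ) - m - 2) :=
        Real.rpow_le_rpow_of_exponent_le hB1.le (by linarith only [h2m])
      have h3 : Real.exp (δ / 4 * Real.log b * k) = (b : ℝ) ^ (δ / 4 * k) := by
        rw [Real.rpow_def_of_pos hBpos]; congr 1; ring
      rw [le_div_iff₀ (by positivity)]
      calc X * ((b : ℝ) ^ (-2 : ℝ) * Real.exp (δ / 4 * Real.log b * k)) * 3 ^ k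
          ≤ X * ((b : ℝ) ^ (-2 : ℝ) * Real.exp (δ / 4 * Real.log b * k)) *
            (b : ℝ) ^ (δ / 4 * k) := by gcongr
        _ = (b : ℝ) ^ ((1 - f / 2) * k - 2) := by
            rw [h3, hX, ← Real.rpow_add hBpos, ← Real.rpow_add hBpos, ← Real.rpow_add hBpos]
            congr 1
            rw [hf]; ring
        _ ≤ (b : ℝ) ^ ((k : ℝ) - m - 2) := h2
    have hhalf : (b : ℝ) ^ ((k : ℝ) / 2) ≤ X :=
      Real.rpow_le_rpow_of_exponent_le hB1.le (by nlinarith only [h₀', hk1])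
    have hkL : 0 < (k : ℝ) * Real.log b := by positivity
    have h5 : X * ((k : ℝ) * Real.log b * (1 + 2 * k * Real.log b)) ≤
        k * Real.log b * (G + 2 * k * Real.log b * X) := by
      calc X * ((k : ℝ) * Real.log b * (1 + 2 * k * Real.log b))
          ≤ X * (c₀ / 2 * (b : ℝ) ^ (-2 : ℝ) * Real.exp (δ / 4 * Real.log b * k)) := by gcongr
        _ = c₀ / 2 * (X * ((b : ℝ) ^ (-2 : ℝ) * Real.exp (δ / 4 * Real.log b * k))) := by ring
        _ ≤ c₀ / 2 * N₀ := by gcongr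
        _ ≤ k * Real.log b * (G + 2 * k * Real.log b * (b : ℝ) ^ ((k : ℝ) / 2)) := hS
        _ ≤ k * Real.log b * (G + 2 * k * Real.log b * X) := by gcongr
    have h6 : k * Real.log b * (X * (1 + 2 * k * Real.log b)) ≤
        k * Real.log b * (G + 2 * k * Real.log b * X) := by
      refine le_trans (le_of_eq ?_) h5
      ring
    have h7 := le_of_mul_le_mul_left h6 hkL
    linarith

theorem finalAt_of {f₀ : ℝ} (h₀ : 5 / 12 < f₀) (h₀' : f₀ ≤ 5 / 9) (hM : MainProp)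
    (hC : CountProp) (hE : ErrProp f₀) : FinalAt f₀ := by
  intro ε hε
  obtain ⟨b₀, hb₀⟩ := finalAtM_of h₀ h₀' hM hC hE (ε / 2) (by positivity)
  refine ⟨b₀, fun b hb => ?_⟩
  obtain ⟨k₀, hk₀⟩ := hb₀ b hb
  refine ⟨max (max k₀ 1) ⌈2 / ε⌉₊, fun k hk => ?_⟩
  have hkk : k₀ ≤ k := ((le_max_left _ _).trans (le_max_left _ _)).trans hk
  have hk1 : 1 ≤ k := ((le_max_right _ _).trans (le_max_left _ _)).trans hk
  have hkε : 2 / ε ≤ (k : ℝ) := Nat.ceil_le.mp ((le_max_right _ _).trans hk)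
  have hk1' : (1 : ℝ) ≤ k := by exact_mod_cast hk1
  obtain ⟨M, hM1, hM2, hM3⟩ := hk₀ k hkk
  refine hM3.trans ?_
  norm_cast
  refine Finset.card_le_card ?_
  intro n hn
  rw [Finset.mem_filter] at hn ⊢
  obtain ⟨hn1, hn2, hn3, hn4⟩ := hn
  refine ⟨hn1, hn2, hn3, ?_⟩
  set S := (Finset.range k).filter fun i : ℕ => (i : ℝ) < f₀ / 2 * k ∧
      (Nat.digits b n).getD i 0 ≠ (Nat.digits b n).getD (k - 1 - i) 0 with hS
  set R := (Finset.range k).filter fun i : ℕ => (i : ℝ) < f₀ / 2 * k with hR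
  have hMR : M ⊆ R := by
    intro i hi
    rw [hR, Finset.mem_filter, Finset.mem_range]
    refine ⟨?_, hM1 i hi⟩
    have := hM1 i hi
    have : (i : ℝ) < k := by nlinarith
    exact_mod_cast this
  have hSR : S ⊆ R \ M := by
    intro i hi
    rw [hS, Finset.mem_filter] at hi
    rw [Finset.mem_sdiff, hR, Finset.mem_filter]
    exact ⟨⟨hi.1, hi.2.1⟩, fun h => hi.2.2 (hn4 i h)⟩
  have hRc : (R.card : ℝ) ≤ f₀ / 2 * k + 1 := by
    have hsub : R ⊆ Finset.range ⌈f₀ / 2 * k⌉₊ := by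
      intro i hi
      rw [hR, Finset.mem_filter] at hi
      rw [Finset.mem_range]
      exact Nat.lt_ceil.mpr hi.2
    have h1 := Finset.card_le_card hsub
    rw [Finset.card_range] at h1
    have h2 : ((⌈f₀ / 2 * (k : ℝ)⌉₊ : ℕ) : ℝ) < f₀ / 2 * k + 1 :=
      Nat.ceil_lt_add_one (by positivity)
    have h3 : (R.card : ℝ) ≤ ((⌈f₀ / 2 * (k : ℝ)⌉₊ : ℕ) : ℝ) := by exact_mod_cast h1
    linarith
  have hc : (S.card : ℝ) + M.card ≤ R.card := by
    have h1 := Finset.card_le_card hSR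
    have h2 := Finset.card_sdiff_add_card_eq_card hMR
    have : S.card + M.card ≤ R.card := by omega
    exact_mod_cast this
  have h5 : 1 ≤ ε / 2 * k := by
    rw [div_le_iff₀ hε] at hkε
    linarith
  nlinarith

end Pool.Agent.HPP
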