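import Pool.Agent.HPP.APP
import Pool.Agent.H94Q.PntAP

set_option autoImplicit false

/-!
# HPP/APnt : PNT in arithmetic progressions with the Gaussian weight (helper14)

`r = residueClass a` (Mathlib: `Λ n` if `n = a` in `ZMod b`, otherwise `0`). `PP_summable`, `weight_sum_le` are in `HPP/APP`.

PROOFS. `GG_eq`: `fourierIntegral_gaussian` / `integral_cexp_quadratic`. `norm_GG_le`: `GG_eq`, `|exp ((1+it)^2/4)| = exp ((1-t^2)/4)`,
`sqrt π e^(1/4) ≤ 4`. `continuous_GG`: `GG_eq`.
`pnt_gauss`: put `L = log x`, `w(s) = exp (-s^2) e^{its}`; the expression is `b.totient x^{-1} ∑ r(n) w(log n - L)`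
(`x^{-it} n^{it} = e^{it(log n - L)}`, `n ≥ 1`; `r(0) = 0`). `w(s) = -∫_{σ > s} w'(σ) dσ` (`integral_Ioi_of_hasDerivAt_of_tendsto`), `w'(σ) = (-2σ + it) w(σ)`,
`|w'(σ)| ≤ (2|σ| + |t|) exp (-σ^2)`. So `∑ r(n) w(log n - L) = -∫ psiA(e^{L+σ}) w'(σ) dσ` (exchange sum and integral:
`hasSum_integral_of_summable_integral_norm` / `integral_tsum`; `∑_n r(n) 1[log n - L ≤ σ] = psiA (e^{L+σ})`, and
`psiA(e^{L+σ}) ≤ (log 4 + 4) e^{L+σ}` by `psiA_le`, so everything is integrable). By `pnt_psiA` for every `σ`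
`b.totient x^{-1} psiA(x e^σ) → e^σ`, dominated by `b.totient (log 4 + 4) e^σ`. Dominated convergence: the limit is
`-∫ e^σ w'(σ) dσ = ∫ e^σ w(σ) dσ = GG t` (integration by parts on the line for `e^σ w(σ)`, which tends to `0` at `±∞`).
`bracket_le`: the norm of the series is `≤ ∑ Λ(n) exp (-(log (n/x))^2) ≤ C x` (`residueClass_le`, `weight_sum_le`), `|x^{-it}| = 1`.
`sum_char_PP`: `m ≥ 1`. The characters mod `b ^ m` which factor through `b` are the `changeLevel (b ∣ b ^ m) χ'`, `χ'` mod `b`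
(`DirichletCharacter.FactorsThrough`, `changeLevel_injective` as `b ^ m ≠ 0`); `changeLevel χ' n = χ' n` for all natural `n`: if `n` is
prime to `b` (`changeLevel_eq_cast_of_dvd`), and both are `0` if it is not. Then
`∑_{χ'} conj (χ' p) χ' n = b.totient` if `n = p` in `ZMod b`, `0` otherwise (`DirichletCharacter.sum_char_inv_mul_char_eq`,
`conj (χ' p) = χ' p⁻¹`); exchange the finite sum with the series (`PP_summable`). `card_fac`: the number of these characters is at most `b.totient ≤ b`.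
-/

namespace Pool.Agent.HPP

open Complex MeasureTheory Filter Topology ArithmeticFunction.vonMangoldt

/-- limit of the normalised prime polynomial -/
noncomputable def GG (t : ℝ) : ℂ := ∫ s : ℝ, (Real.exp (-s ^ 2 + s) : ℂ) * cexp (s * t * I)

/-- the normalised prime polynomial of the class `a`, `x^{-1-it} φ(b) ∑_{n = a} Λ(n) n^{it} e^{-log²(n/x)}` -/
noncomputable def BR (b : ℕ) (a : ZMod b) (t x : ℝ) : ℂ :=
  (x : ℂ)⁻¹ * (x : ℂ) ^ (-(t * I)) * ((b.totient : ℂ) *
      ∑' n : ℕ, (residueClass a n : ℂ) * (n : ℂ) ^ (t * I) *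
        (Real.exp (-(Real.log (n / x)) ^ 2) : ℂ))

theorem GG_eq (t : ℝ) : GG t = (Real.sqrt Real.pi : ℂ) * cexp ((1 + t * I) ^ 2 / 4) := by
  unfold GG
  have h1 : ∀ s : ℝ, (Real.exp (-s ^ 2 + s) : ℂ) * cexp (s * t * I) =
      cexp ((-1 : ℂ) * (s : ℂ) ^ 2 + (1 + t * I) * s + 0) := by
    intro s
    rw [Complex.ofReal_exp, ← Complex.exp_add]
    congr 1
    push_cast
    ring
  simp only [h1]
  rw [integral_cexp_quadratic (by simp) (1 + t * I) 0]
  congr 1
  · rw [neg_neg, div_one, Real.sqrt_eq_rpow, Complex.ofReal_cpow Real.pi_pos.le]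
    norm_num
  · congr 1
    ring

theorem norm_GG_le (t : ℝ) : ‖GG t‖ ≤ 4 * Real.exp (-t ^ 2 / 4) := by
  rw [GG_eq, norm_mul, Complex.norm_exp, Complex.norm_real, Real.norm_of_nonneg (Real.sqrt_nonneg _)]
  have h1 : ((1 + t * I) ^ 2 / 4 : ℂ).re = 1 / 4 + (-t ^ 2 / 4) := by
    have : ((1 + t * I) ^ 2 / 4 : ℂ) = ((1 / 4 + (-t ^ 2 / 4) : ℝ) : ℂ) + ((t / 2 : ℝ) : ℂ) * I := by
      push_cast
      have hI : (I : ℂ) ^ 2 = -1 := Complex.I_sq
      linear_combination ((t : ℂ) ^ 2 / 4) * hI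
    rw [this, Complex.add_re, Complex.ofReal_re, Complex.re_ofReal_mul, Complex.I_re, mul_zero,
      add_zero]
  rw [h1, Real.exp_add, ← mul_assoc]
  have h2 : Real.sqrt Real.pi ≤ 2 := by
    rw [Real.sqrt_le_left (by norm_num)]
    have := Real.pi_lt_four
    norm_num
    linarith
  have h3 : Real.exp (1 / 4) ≤ 2 := by
    have h4 : Real.exp (1 / 4) ≤ Real.exp 1 ^ ((1 : ℝ) / 4) := by
      rw [← Real.exp_mul]; simp
    have h5 := Real.exp_bound_div_one_sub_of_interval (x := 1 / 4) (by norm_num) (by norm_num)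
    norm_num at h5
    linarith
  have h6 : Real.sqrt Real.pi * Real.exp (1 / 4) ≤ 2 * 2 :=
    mul_le_mul h2 h3 (Real.exp_pos _).le (by norm_num)
  exact mul_le_mul_of_nonneg_right (by linarith) (Real.exp_pos _).le

theorem continuous_GG : Continuous GG := by
  have h : GG = fun t : ℝ => (Real.sqrt Real.pi : ℂ) * cexp ((1 + t * I) ^ 2 / 4) :=
    funext GG_eq
  rw [h]
  fun_prop

theorem bracket_le (b : ℕ) : ∃ C : ℝ, 1 ≤ C ∧ ∀ (a : ZMod b) (t x : ℝ), 1 ≤ x →
    ‖BR b a t x‖ ≤ C := by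
  obtain ⟨C, hC1, hC⟩ := weight_sum_le
  refine ⟨b.totient * C + 1, by
    have : 0 ≤ (b.totient : ℝ) * C := mul_nonneg (Nat.cast_nonneg _) (by linarith)
    linarith, ?_⟩
  intro a t x hx
  have hx0 : 0 < x := by linarith
  obtain ⟨hs, hle⟩ := hC x hx
  unfold BR
  have hterm : ∀ n : ℕ, ‖(residueClass a n : ℂ) * (n : ℂ) ^ (t * I) *
      (Real.exp (-(Real.log (n / x)) ^ 2) : ℂ)‖ ≤
      ArithmeticFunction.vonMangoldt n * Real.exp (-(Real.log (n / x)) ^ 2) := by
    intro n
    rcases Nat.eq_zero_or_pos n with hn | hn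
    · rw [hn]; simp
    · rw [norm_mul, norm_mul, Complex.norm_real, Complex.norm_real,
        Complex.norm_natCast_cpow_of_pos hn]
      have e1 : ((t : ℂ) * I).re = 0 := by simp
      rw [e1, Real.rpow_zero, mul_one, Real.norm_of_nonneg (residueClass_nonneg a n),
        Real.norm_of_nonneg (Real.exp_pos _).le]
      exact mul_le_mul_of_nonneg_right (residueClass_le a n) (Real.exp_pos _).le
  have h1 : ‖∑' n : ℕ, (residueClass a n : ℂ) * (n : ℂ) ^ (t * I) *
      (Real.exp (-(Real.log (n / x)) ^ 2) : ℂ)‖ ≤ C * x :=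
    (tsum_of_norm_bounded hs.hasSum hterm).trans hle
  have h2 : ‖(x : ℂ) ^ (-(t * I))‖ = 1 := by
    rw [Complex.norm_cpow_eq_rpow_re_of_pos hx0]
    simp
  rw [norm_mul, norm_mul, norm_mul, h2, norm_inv, Complex.norm_real, Real.norm_of_nonneg hx0.le,
    mul_one, Complex.norm_natCast]
  calc x⁻¹ * ((b.totient : ℝ) * ‖∑' n : ℕ, (residueClass a n : ℂ) * (n : ℂ) ^ (t * I) *
      (Real.exp (-(Real.log (n / x)) ^ 2) : ℂ)‖) ≤ x⁻¹ * ((b.totient : ℝ) * (C * x)) := by
        gcongr
    _ = b.totient * C := by field_simp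
    _ ≤ b.totient * C + 1 := by linarith

private theorem changeLevel_nat {b m : ℕ} [NeZero b] (hm : 1 ≤ m) (hd : b ∣ b ^ m)
    (χ : DirichletCharacter ℂ b) (n : ℕ) :
    DirichletCharacter.changeLevel hd χ (n : ZMod (b ^ m)) = χ (n : ZMod b) := by
  by_cases hn : n.Coprime b
  · have hn' : n.Coprime (b ^ m) := Nat.Coprime.pow_right m hn
    have h1 := DirichletCharacter.changeLevel_eq_cast_of_dvd χ hd (ZMod.unitOfCoprime n hn')
    rw [ZMod.coe_unitOfCoprime] at h1
    rw [h1, ZMod.cast_natCast hd]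
  · have h1 : ¬ IsUnit (n : ZMod b) := by
      rw [ZMod.isUnit_iff_coprime]; exact hn
    have h2 : ¬ IsUnit (n : ZMod (b ^ m)) := by
      rw [ZMod.isUnit_iff_coprime]
      intro h
      exact hn (Nat.Coprime.coprime_dvd_right hd h)
    rw [MulChar.map_nonunit _ h1, MulChar.map_nonunit _ h2]

open Classical in
private theorem filter_eq_image {b m : ℕ} [NeZero b] (hm : 1 ≤ m) (hd : b ∣ b ^ m) :
    (Finset.univ : Finset (DirichletCharacter ℂ (b ^ m))).filter
      (fun χ => χ.FactorsThrough b) =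
    (Finset.univ : Finset (DirichletCharacter ℂ b)).image
      (fun χ => DirichletCharacter.changeLevel hd χ) := by
  ext χ
  simp only [Finset.mem_filter, Finset.mem_univ, true_and, Finset.mem_image]
  constructor
  · rintro ⟨h, χ₀, hχ⟩
    exact ⟨χ₀, hχ.symm⟩
  · rintro ⟨χ₀, hχ⟩
    exact ⟨hd, χ₀, hχ.symm⟩

open Classical in
theorem card_fac {b m : ℕ} [NeZero b] (hm : 1 ≤ m) :
    ((Finset.univ : Finset (DirichletCharacter ℂ (b ^ m))).filter
      (fun χ => χ.FactorsThrough b)).card ≤ b := by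
  have hd : b ∣ b ^ m := dvd_pow_self b (by omega)
  rw [filter_eq_image hm hd]
  refine Finset.card_image_le.trans ?_
  rw [Finset.card_univ, ← Nat.card_eq_fintype_card,
    DirichletCharacter.card_eq_totient_of_hasEnoughRootsOfUnity]
  exact Nat.totient_le b

open Classical in
theorem sum_char_PP {b p m : ℕ} [NeZero b] (hm : 1 ≤ m) (hp : p.Coprime b) (t : ℝ) {x : ℝ}
    (hx : 0 < x) :
    ∑ χ ∈ (Finset.univ : Finset (DirichletCharacter ℂ (b ^ m))).filter
      (fun χ => χ.FactorsThrough b), (starRingEnd ℂ) (χ (p : ZMod (b ^ m))) * PP χ t x =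
    (b.totient : ℂ) * ∑' n : ℕ, (residueClass (p : ZMod b) n : ℂ) * (n : ℂ) ^ (t * I) *
        (Real.exp (-(Real.log (n / x)) ^ 2) : ℂ) := by
  have hd : b ∣ b ^ m := dvd_pow_self b (by omega)
  have hne : NeZero (b ^ m) := ⟨pow_ne_zero _ (NeZero.ne b)⟩
  rw [filter_eq_image hm hd, Finset.sum_image (fun _ _ _ _ h =>
    DirichletCharacter.changeLevel_injective hd h)]
  have hpu : IsUnit (p : ZMod b) := (ZMod.isUnit_iff_coprime p b).2 hp
  have h1 : ∀ χ : DirichletCharacter ℂ b,
      (starRingEnd ℂ) (DirichletCharacter.changeLevel hd χ (p : ZMod (b ^ m))) *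
        PP (DirichletCharacter.changeLevel hd χ) t x =
      ∑' n : ℕ, (χ (p : ZMod b)⁻¹ * χ (n : ZMod b)) *
        ((ArithmeticFunction.vonMangoldt n : ℂ) * (n : ℂ) ^ (t * I) *
        (Real.exp (-(Real.log (n / x)) ^ 2) : ℂ)) := by
    intro χ
    unfold PP
    rw [← tsum_mul_left]
    refine tsum_congr fun n => ?_
    rw [changeLevel_nat hm hd, changeLevel_nat hm hd]
    have h2 : (starRingEnd ℂ) (χ (p : ZMod b)) = χ (p : ZMod b)⁻¹ := by
      have h3 : star (χ (p : ZMod b)) = χ⁻¹ (p : ZMod b) := MulChar.star_apply' χ (p : ZMod b)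
      have h4 : χ (p : ZMod b)⁻¹ * χ (p : ZMod b) = 1 := by
        rw [← map_mul, ZMod.inv_mul_of_unit _ hpu, map_one]
      have h5 : χ⁻¹ (p : ZMod b) * χ (p : ZMod b) = 1 := by
        rw [← MulChar.mul_apply, inv_mul_cancel, MulChar.one_apply hpu]
      have h6 : χ (p : ZMod b) ≠ 0 := right_ne_zero_of_mul_eq_one h4
      change star (χ (p : ZMod b)) = _
      rw [h3]
      exact mul_right_cancel₀ h6 (h5.trans h4.symm)
    rw [h2]
    ring
  simp only [h1]
  have hsum : ∀ χ : DirichletCharacter ℂ b, Summable fun n : ℕ =>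
      (χ (p : ZMod b)⁻¹ * χ (n : ZMod b)) *
        ((ArithmeticFunction.vonMangoldt n : ℂ) * (n : ℂ) ^ (t * I) *
        (Real.exp (-(Real.log (n / x)) ^ 2) : ℂ)) := by
    intro χ
    have h2 := (PP_summable χ t hx).mul_left (χ (p : ZMod b)⁻¹)
    refine h2.congr fun n => ?_
    ring
  rw [← Summable.tsum_finsetSum fun χ _ => hsum χ, ← tsum_mul_left]
  refine tsum_congr fun n => ?_
  rw [← Finset.sum_mul, DirichletCharacter.sum_char_inv_mul_char_eq ℂ hpu]
  by_cases hn : (p : ZMod b) = n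
  · rw [if_pos hn]
    have h3 : residueClass (p : ZMod b) n = ArithmeticFunction.vonMangoldt n :=
      Set.indicator_of_mem (by simpa using hn.symm) _
    rw [h3]
  · rw [if_neg hn]
    have h3 : residueClass (p : ZMod b) n = 0 :=
      Set.indicator_of_notMem (by simpa using fun h => hn h.symm) _
    rw [h3]
    simp

/-! ### the limit -/

private noncomputable def wg (t s : ℝ) : ℂ := cexp (-(s : ℂ) ^ 2 + t * s * I)

private noncomputable def wd (t s : ℝ) : ℂ := (-2 * (s : ℂ) + t * I) * wg t s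

private theorem hasDerivAt_wg (t s : ℝ) : HasDerivAt (wg t) (wd t s) s := by
  have h1 : HasDerivAt (fun z : ℂ => cexp (-z ^ 2 + t * z * I))
      (cexp (-(s : ℂ) ^ 2 + t * s * I) * (-(2 * (s : ℂ)) + t * I)) (s : ℂ) := by
    refine HasDerivAt.cexp ?_
    have h2 : HasDerivAt (fun z : ℂ => -z ^ 2) (-(2 * (s : ℂ))) (s : ℂ) := by
      simpa using (hasDerivAt_pow 2 (s : ℂ)).fun_neg
    have h3 : HasDerivAt (fun z : ℂ => (t : ℂ) * z * I) (t * I) (s : ℂ) := by
      simpa using ((hasDerivAt_id (s : ℂ)).const_mul (t : ℂ)).mul_const I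
    exact h2.add h3
  have h4 := h1.comp_ofReal
  refine h4.congr_deriv ?_
  unfold wd wg
  ring

private theorem norm_wg (t s : ℝ) : ‖wg t s‖ = Real.exp (-s ^ 2) := by
  unfold wg
  rw [Complex.norm_exp]
  congr 1
  have : (-(s : ℂ) ^ 2 + t * s * I : ℂ) = ((-s ^ 2 : ℝ) : ℂ) + ((t * s : ℝ) : ℂ) * I := by
    push_cast; ring
  rw [this, Complex.add_re, Complex.ofReal_re, Complex.re_ofReal_mul, Complex.I_re, mul_zero,
    add_zero]

private theorem norm_wd_le (t s : ℝ) : ‖wd t s‖ ≤ (2 + |t|) * Real.exp (-(1 / 2) * s ^ 2) := by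
  unfold wd
  rw [norm_mul, norm_wg]
  have h1 : ‖(-2 * (s : ℂ) + t * I)‖ ≤ 2 * |s| + |t| := by
    refine (norm_add_le _ _).trans ?_
    rw [norm_mul, norm_mul, Complex.norm_I, Complex.norm_real, Complex.norm_real]
    simp
  have h2 : |s| ≤ Real.exp (s ^ 2 / 2) := by
    have h3 := Real.add_one_le_exp (s ^ 2 / 2)
    nlinarith [sq_nonneg (|s| - 1), sq_abs s]
  have h4 : 1 ≤ Real.exp (s ^ 2 / 2) := Real.one_le_exp (by positivity)
  have h5 : 2 * |s| + |t| ≤ (2 + |t|) * Real.exp (s ^ 2 / 2) := by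
    nlinarith [abs_nonneg t, mul_le_mul_of_nonneg_left h4 (abs_nonneg t)]
  calc ‖(-2 * (s : ℂ) + t * I)‖ * Real.exp (-s ^ 2)
      ≤ ((2 + |t|) * Real.exp (s ^ 2 / 2)) * Real.exp (-s ^ 2) :=
        mul_le_mul_of_nonneg_right (h1.trans h5) (Real.exp_pos _).le
    _ = (2 + |t|) * Real.exp (-(1 / 2) * s ^ 2) := by
        rw [mul_assoc, ← Real.exp_add]
        congr 2
        ring

private theorem continuous_wg (t : ℝ) : Continuous (wg t) := by
  unfold wg; fun_prop

private theorem continuous_wd (t : ℝ) : Continuous (wd t) := by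
  unfold wd wg; fun_prop

private theorem int_gauss (A : ℝ) :
    Integrable (fun s : ℝ => Real.exp (A * s) * Real.exp (-(1 / 2) * s ^ 2)) := by
  have h1 := ((integrable_exp_neg_mul_sq (b := 1 / 2) (by norm_num)).comp_sub_right A).const_mul
    (Real.exp (A ^ 2 / 2))
  refine h1.congr (Filter.Eventually.of_forall fun s => ?_)
  change Real.exp (A ^ 2 / 2) * Real.exp (-(1 / 2) * (s - A) ^ 2) =
    Real.exp (A * s) * Real.exp (-(1 / 2) * s ^ 2)
  rw [← Real.exp_add, ← Real.exp_add]
  congr 1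
  ring

private theorem int_wd (t : ℝ) : Integrable (wd t) := by
  have h := (int_gauss 0).const_mul (2 + |t|)
  refine h.mono' (continuous_wd t).aestronglyMeasurable (Filter.Eventually.of_forall fun s => ?_)
  simpa using norm_wd_le t s

private theorem int_wg (t : ℝ) : Integrable (wg t) := by
  have h := integrable_exp_neg_mul_sq (b := 1) (by norm_num)
  refine h.mono' (continuous_wg t).aestronglyMeasurable (Filter.Eventually.of_forall fun s => ?_)
  rw [norm_wg]
  simp

private theorem int_ewd (t : ℝ) : Integrable (fun s : ℝ => (Real.exp s : ℂ) * wd t s) := by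
  have h := (int_gauss 1).const_mul (2 + |t|)
  refine h.mono' ?_ (Filter.Eventually.of_forall fun s => ?_)
  · exact ((Complex.continuous_ofReal.comp Real.continuous_exp).mul
      (continuous_wd t)).aestronglyMeasurable
  · rw [norm_mul, Complex.norm_real, Real.norm_of_nonneg (Real.exp_pos _).le, one_mul]
    have h1 := norm_wd_le t s
    calc Real.exp s * ‖wd t s‖ ≤ Real.exp s * ((2 + |t|) * Real.exp (-(1 / 2) * s ^ 2)) :=
          mul_le_mul_of_nonneg_left h1 (Real.exp_pos _).le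
      _ = (2 + |t|) * (Real.exp s * Real.exp (-(1 / 2) * s ^ 2)) := by ring

private theorem int_ewg (t : ℝ) : Integrable (fun s : ℝ => (Real.exp s : ℂ) * wg t s) := by
  have h := int_gauss 1
  refine h.mono' ?_ (Filter.Eventually.of_forall fun s => ?_)
  · exact ((Complex.continuous_ofReal.comp Real.continuous_exp).mul
      (continuous_wg t)).aestronglyMeasurable
  · rw [norm_mul, Complex.norm_real, Real.norm_of_nonneg (Real.exp_pos _).le, one_mul, norm_wg]
    gcongr
    nlinarith [sq_nonneg s]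

private theorem int_parts (t : ℝ) : ∫ s : ℝ, (Real.exp s : ℂ) * (-wd t s) = GG t := by
  have h1 := integral_eq_zero_of_hasDerivAt_of_integrable
    (f := fun s : ℝ => (Real.exp s : ℂ) * wg t s)
    (f' := fun s : ℝ => (Real.exp s : ℂ) * wg t s + (Real.exp s : ℂ) * wd t s)
    (fun s => by
      have h2 : HasDerivAt (fun s : ℝ => (Real.exp s : ℂ)) (Real.exp s : ℂ) s :=
        (Real.hasDerivAt_exp s).ofReal_comp
      exact h2.mul (hasDerivAt_wg t s))
    ((int_ewg t).add (int_ewd t)) (int_ewg t)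
  rw [integral_add (int_ewg t) (int_ewd t)] at h1
  have h3 : ∫ s : ℝ, (Real.exp s : ℂ) * (-wd t s) = -∫ s : ℝ, (Real.exp s : ℂ) * wd t s := by
    rw [← integral_neg]
    refine integral_congr_ae (Filter.Eventually.of_forall fun s => ?_)
    change (Real.exp s : ℂ) * (-wd t s) = -((Real.exp s : ℂ) * wd t s)
    ring
  rw [h3, ← eq_neg_of_add_eq_zero_left h1]
  unfold GG
  refine integral_congr_ae (Filter.Eventually.of_forall fun s => ?_)
  change (Real.exp s : ℂ) * wg t s = (Real.exp (-s ^ 2 + s) : ℂ) * cexp (s * t * I)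
  unfold wg
  rw [Complex.ofReal_exp, Complex.ofReal_exp, ← Complex.exp_add, ← Complex.exp_add]
  congr 1
  push_cast
  ring

/-- the tail integral of the derivative -/
private theorem int_tail (t s0 : ℝ) : ∫ s in Set.Ici s0, -wd t s = wg t s0 := by
  rw [integral_Ici_eq_integral_Ioi, integral_neg,
    integral_Ioi_of_hasDerivAt_of_tendsto' (f := wg t) (m := 0)
      (fun s _ => hasDerivAt_wg t s) (int_wd t).integrableOn
      (tendsto_zero_of_hasDerivAt_of_integrableOn_Ioi (a := s0) (fun s _ => hasDerivAt_wg t s)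
        (int_wd t).integrableOn (int_wg t).integrableOn)]
  simp

private theorem int_tail_norm (t s0 : ℝ) : ∫ s in Set.Ici s0, ‖wd t s‖ ≤
    (2 + |t|) * (∫ s : ℝ, Real.exp (3 * s) * Real.exp (-(1 / 2) * s ^ 2)) *
      Real.exp (-3 * s0) := by
  have h1 : ∫ s in Set.Ici s0, ‖wd t s‖ ≤ ∫ s in Set.Ici s0,
      ((2 + |t|) * Real.exp (-3 * s0)) * (Real.exp (3 * s) * Real.exp (-(1 / 2) * s ^ 2)) := by
    refine setIntegral_mono_on (int_wd t).norm.integrableOn
      ((int_gauss 3).const_mul _).integrableOn measurableSet_Ici fun s hs => ?_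
    refine (norm_wd_le t s).trans ?_
    have h2 : 1 ≤ Real.exp (-3 * s0) * Real.exp (3 * s) := by
      rw [← Real.exp_add]
      exact Real.one_le_exp (by have : s0 ≤ s := hs; linarith)
    calc (2 + |t|) * Real.exp (-(1 / 2) * s ^ 2)
        = (2 + |t|) * Real.exp (-(1 / 2) * s ^ 2) * 1 := (mul_one _).symm
      _ ≤ (2 + |t|) * Real.exp (-(1 / 2) * s ^ 2) * (Real.exp (-3 * s0) * Real.exp (3 * s)) :=
          mul_le_mul_of_nonneg_left h2 (by positivity)
      _ = _ := by ring
  refine h1.trans ?_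
  rw [integral_const_mul]
  have h3 : ∫ s in Set.Ici s0, Real.exp (3 * s) * Real.exp (-(1 / 2) * s ^ 2) ≤
      ∫ s : ℝ, Real.exp (3 * s) * Real.exp (-(1 / 2) * s ^ 2) :=
    setIntegral_le_integral (int_gauss 3) (Filter.Eventually.of_forall fun s => by positivity)
  calc _ ≤ ((2 + |t|) * Real.exp (-3 * s0)) *
        ∫ s : ℝ, Real.exp (3 * s) * Real.exp (-(1 / 2) * s ^ 2) :=
        mul_le_mul_of_nonneg_left h3 (by positivity)
    _ = _ := by ring

/-- the series as an integral -/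
private theorem BR_eq (b : ℕ) [NeZero b] (a : ZMod b) (t : ℝ) {x : ℝ} (hx : 0 < x) :
    BR b a t x = ∫ σ : ℝ, (((b.totient : ℝ) * Pool.Agent.H94Q.psiA a (x * Real.exp σ) / x : ℝ) : ℂ)
      * (-wd t σ) := by
  obtain ⟨L, hL⟩ : ∃ L, L = Real.log x := ⟨_, rfl⟩
  have hxL : Real.exp L = x := by rw [hL, Real.exp_log hx]
  -- termwise
  have hterm : ∀ n : ℕ, (x : ℂ) ^ (-(t * I)) * ((residueClass a n : ℂ) * (n : ℂ) ^ (t * I) *
        (Real.exp (-(Real.log (n / x)) ^ 2) : ℂ)) =
      (residueClass a n : ℂ) * wg t (Real.log n - L) := by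
    intro n
    rcases Nat.eq_zero_or_pos n with hn | hn
    · rw [hn]; simp
    · have hn' : (n : ℂ) ≠ 0 := by exact_mod_cast hn.ne'
      have hn0 : (0 : ℝ) < n := by exact_mod_cast hn
      have hx' : (x : ℂ) ≠ 0 := by exact_mod_cast hx.ne'
      rw [Complex.cpow_def_of_ne_zero hn', Complex.cpow_def_of_ne_zero hx',
        Real.log_div hn0.ne' hx.ne', ← hL, ← Complex.natCast_log, ← Complex.ofReal_log hx.le, ← hL,
        Complex.ofReal_exp]
      unfold wg
      have e1 : cexp ((L : ℂ) * -(t * I)) * ((residueClass a n : ℂ) *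
          cexp ((Real.log n : ℂ) * (t * I)) * cexp ((-(Real.log n - L) ^ 2 : ℝ) : ℂ)) =
          (residueClass a n : ℂ) * (cexp ((L : ℂ) * -(t * I)) *
          cexp ((Real.log n : ℂ) * (t * I)) * cexp ((-(Real.log n - L) ^ 2 : ℝ) : ℂ)) := by ring
      rw [e1, ← Complex.exp_add, ← Complex.exp_add]
      congr 2
      push_cast
      ring
  -- the functions
  obtain ⟨F, hF⟩ : ∃ F : ℕ → ℝ → ℂ, F = fun n : ℕ => Set.indicator (Set.Ici (Real.log (n : ℝ) - L))
    (fun σ => (residueClass a n : ℂ) * (-wd t σ)) := ⟨_, rfl⟩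
  have hFint : ∀ n, Integrable (F n) := by
    intro n
    rw [hF]
    exact (((int_wd t).neg.const_mul _)).indicator measurableSet_Ici
  have hFval : ∀ n, ∫ σ, F n σ = (residueClass a n : ℂ) * wg t (Real.log n - L) := by
    intro n
    rw [hF]
    change ∫ σ, Set.indicator (Set.Ici (Real.log n - L))
      (fun σ => (residueClass a n : ℂ) * (-wd t σ)) σ = _
    rw [integral_indicator measurableSet_Ici, integral_const_mul, int_tail]
  obtain ⟨J, hJ⟩ : ∃ J, J = ∫ s : ℝ, Real.exp (3 * s) * Real.exp (-(1 / 2) * s ^ 2) := ⟨_, rfl⟩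
  have hJ0 : 0 ≤ J := by rw [hJ]; exact integral_nonneg fun s => by positivity
  have hFsum : Summable fun n => ∫ σ, ‖F n σ‖ := by
    have hmaj : Summable fun n : ℕ => ((2 + |t|) * J * Real.exp (3 * L)) * ((n : ℝ) ^ 2)⁻¹ :=
      (Real.summable_nat_pow_inv.2 (by norm_num)).mul_left _
    refine Summable.of_nonneg_of_le (fun n => integral_nonneg fun s => norm_nonneg _)
      (fun n => ?_) hmaj
    have e1 : ∫ σ, ‖F n σ‖ = residueClass a n * ∫ σ in Set.Ici (Real.log n - L), ‖wd t σ‖ := by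
      have e2 : (fun σ => ‖F n σ‖) = Set.indicator (Set.Ici (Real.log n - L))
          (fun σ => residueClass a n * ‖wd t σ‖) := by
        funext σ
        rw [hF]
        change ‖Set.indicator (Set.Ici (Real.log n - L))
          (fun σ => (residueClass a n : ℂ) * (-wd t σ)) σ‖ = _
        rw [norm_indicator_eq_indicator_norm]
        congr 1
        funext σ
        rw [norm_mul, norm_neg, Complex.norm_real, Real.norm_of_nonneg (residueClass_nonneg a n)]
      rw [e2, integral_indicator measurableSet_Ici, integral_const_mul]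
    rw [e1]
    rcases Nat.eq_zero_or_pos n with hn | hn
    · rw [hn]; simp
    · have hn0 : (0 : ℝ) < n := by exact_mod_cast hn
      have h1 := int_tail_norm t (Real.log n - L)
      rw [← hJ] at h1
      have h2 : (residueClass a n : ℝ) ≤ (n : ℝ) :=
        ((residueClass_le a n).trans ArithmeticFunction.vonMangoldt_le_log).trans
          ((Real.log_le_sub_one_of_pos hn0).trans (by linarith))
      have h3 : Real.exp (-3 * (Real.log n - L)) = Real.exp (3 * L) * ((n : ℝ) ^ 3)⁻¹ := by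
        have e3 : -3 * (Real.log n - L) = 3 * L + -(3 * Real.log n) := by ring
        rw [e3, Real.exp_add, Real.exp_neg]
        congr 2
        have e4 : (3 : ℝ) * Real.log n = Real.log ((n : ℝ) ^ 3) := by
          rw [Real.log_pow]; norm_num
        rw [e4, Real.exp_log (by positivity)]
      rw [h3] at h1
      calc residueClass a n * ∫ σ in Set.Ici (Real.log n - L), ‖wd t σ‖
          ≤ n * ((2 + |t|) * J * (Real.exp (3 * L) * ((n : ℝ) ^ 3)⁻¹)) :=
            mul_le_mul h2 h1 (integral_nonneg fun s => norm_nonneg _) hn0.le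
        _ = ((2 + |t|) * J * Real.exp (3 * L)) * ((n : ℝ) ^ 2)⁻¹ := by
            field_simp
  have hmain := hasSum_integral_of_summable_integral_norm hFint hFsum
  have htsum : ∀ σ, ∑' n, F n σ =
      ((Pool.Agent.H94Q.psiA a (x * Real.exp σ) : ℝ) : ℂ) * (-wd t σ) := by
    intro σ
    have hval : ∀ n : ℕ, 1 ≤ n → F n σ = if n ≤ ⌊x * Real.exp σ⌋₊ then
        (residueClass a n : ℂ) * (-wd t σ) else 0 := by
      intro n hn
      have hn0 : (0 : ℝ) < n := by exact_mod_cast hn
      rw [hF]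
      change Set.indicator (Set.Ici (Real.log n - L))
        (fun σ => (residueClass a n : ℂ) * (-wd t σ)) σ = _
      have hiff : σ ∈ Set.Ici (Real.log n - L) ↔ n ≤ ⌊x * Real.exp σ⌋₊ := by
        rw [Set.mem_Ici, Nat.le_floor_iff (by positivity), sub_le_iff_le_add,
          Real.log_le_iff_le_exp hn0, Real.exp_add, hxL, mul_comm]
      by_cases h : n ≤ ⌊x * Real.exp σ⌋₊
      · rw [if_pos h, Set.indicator_of_mem (hiff.2 h)]
      · rw [if_neg h, Set.indicator_of_notMem (fun h' => h (hiff.1 h'))]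
    rw [tsum_eq_sum (s := Finset.Icc 1 ⌊x * Real.exp σ⌋₊) (fun n hn => ?_)]
    · unfold Pool.Agent.H94Q.psiA
      rw [Complex.ofReal_sum, Finset.sum_mul]
      refine Finset.sum_congr rfl fun n hn => ?_
      rw [Finset.mem_Icc] at hn
      rw [hval n hn.1, if_pos hn.2]
    · rcases Nat.eq_zero_or_pos n with hn0 | hn0
      · rw [hn0, hF]
        change Set.indicator _ (fun σ => (residueClass a 0 : ℂ) * (-wd t σ)) σ = 0
        simp
      · rw [hval n hn0, if_neg]
        intro h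
        exact hn (Finset.mem_Icc.2 ⟨hn0, h⟩)
  unfold BR
  have e1 : (x : ℂ)⁻¹ * (x : ℂ) ^ (-(t * I)) * ((b.totient : ℂ) *
      ∑' n : ℕ, (residueClass a n : ℂ) * (n : ℂ) ^ (t * I) *
        (Real.exp (-(Real.log (n / x)) ^ 2) : ℂ)) =
      ((x : ℂ)⁻¹ * (b.totient : ℂ)) * ∑' n : ℕ, (x : ℂ) ^ (-(t * I)) *
        ((residueClass a n : ℂ) * (n : ℂ) ^ (t * I) *
        (Real.exp (-(Real.log (n / x)) ^ 2) : ℂ)) := by
    rw [tsum_mul_left]; ring
  rw [e1]
  have e2 : (∑' n : ℕ, (x : ℂ) ^ (-(t * I)) * ((residueClass a n : ℂ) * (n : ℂ) ^ (t * I) *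
        (Real.exp (-(Real.log (n / x)) ^ 2) : ℂ))) = ∑' n, ∫ σ, F n σ :=
    tsum_congr fun n => by rw [hterm, hFval]
  rw [e2, hmain.tsum_eq, ← integral_const_mul]
  refine integral_congr_ae (Filter.Eventually.of_forall fun σ => ?_)
  change (x : ℂ)⁻¹ * (b.totient : ℂ) * ∑' n, F n σ = _
  rw [htsum]
  push_cast
  ring

theorem pnt_gauss (b : ℕ) [NeZero b] {a : ZMod b} (ha : IsUnit a) (t : ℝ) :
    Tendsto (fun x : ℝ => BR b a t x) atTop (𝓝 (GG t)) := by
  have hcongr : (fun x : ℝ => BR b a t x) =ᶠ[atTop] fun x : ℝ => ∫ σ : ℝ,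
      (((b.totient : ℝ) * Pool.Agent.H94Q.psiA a (x * Real.exp σ) / x : ℝ) : ℂ) * (-wd t σ) := by
    filter_upwards [eventually_gt_atTop 0] with x hx
    exact BR_eq b a t hx
  rw [tendsto_congr' hcongr, ← int_parts t]
  refine tendsto_integral_filter_of_dominated_convergence
    (fun σ => (b.totient * (Real.log 4 + 4) * (2 + |t|)) *
      (Real.exp (1 * σ) * Real.exp (-(1 / 2) * σ ^ 2))) ?_ ?_ ((int_gauss 1).const_mul _) ?_
  · filter_upwards with x
    refine ((Complex.measurable_ofReal.comp ?_).aestronglyMeasurable).mul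
      (continuous_wd t).neg.aestronglyMeasurable
    refine Measurable.div_const (Measurable.const_mul ?_ _) _
    exact (Pool.Agent.H94Q.psiA_mono a).measurable.comp (measurable_const.mul Real.measurable_exp)
  · filter_upwards [eventually_gt_atTop 0] with x hx
    filter_upwards with σ
    rw [norm_mul, norm_neg, Complex.norm_real, one_mul]
    have h1 : 0 ≤ Pool.Agent.H94Q.psiA a (x * Real.exp σ) := Pool.Agent.H94Q.psiA_nonneg a _
    have h2 := Pool.Agent.H94Q.psiA_le a (x := x * Real.exp σ) (by positivity)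
    rw [Real.norm_of_nonneg (by positivity)]
    have h3 := norm_wd_le t σ
    have h4 : (b.totient : ℝ) * Pool.Agent.H94Q.psiA a (x * Real.exp σ) / x ≤
        b.totient * (Real.log 4 + 4) * Real.exp σ := by
      rw [div_le_iff₀ hx]
      calc (b.totient : ℝ) * Pool.Agent.H94Q.psiA a (x * Real.exp σ)
          ≤ b.totient * ((Real.log 4 + 4) * (x * Real.exp σ)) := by gcongr
        _ = _ := by ring
    have h5 : 0 ≤ Real.log 4 := Real.log_nonneg (by norm_num)
    calc (b.totient : ℝ) * Pool.Agent.H94Q.psiA a (x * Real.exp σ) / x * ‖wd t σ‖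
        ≤ (b.totient * (Real.log 4 + 4) * Real.exp σ) *
          ((2 + |t|) * Real.exp (-(1 / 2) * σ ^ 2)) :=
          mul_le_mul h4 h3 (norm_nonneg _) (by positivity)
      _ = _ := by ring
  · filter_upwards with σ
    refine Tendsto.mul_const _ ?_
    have h1 := Pool.Agent.H94Q.pnt_psiA ha
    have h2 : Tendsto (fun x : ℝ => x * Real.exp σ) atTop atTop :=
      tendsto_id.atTop_mul_const (Real.exp_pos σ)
    have h3 := (h1.comp h2).mul_const (Real.exp σ)
    rw [one_mul] at h3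
    have h4 : Tendsto (fun x : ℝ => (b.totient : ℝ) *
        Pool.Agent.H94Q.psiA a (x * Real.exp σ) / x) atTop (𝓝 (Real.exp σ)) := by
      refine h3.congr' ?_
      filter_upwards [eventually_gt_atTop 0] with x hx
      simp only [Function.comp_apply]
      have := (Real.exp_pos σ).ne'
      field_simp
    exact (Complex.continuous_ofReal.tendsto _).comp h4

end Pool.Agent.HPP
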