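import Pool.Agent.HPP.AEh
import Pool.Agent.HPP.APnt

set_option autoImplicit false

/-!
# HPP/AInv : the integral `I(t)` and Fourier inversion for the main term (helper14)

PROOFS. `II_decay`: `|II| ≤ 1` (`0 ≤ V₀ ≤ 1`, `|y^{-it}| = 1`); for `|t| ≥ 1` integrate by parts twice: with `g(y) = V₀ (y - p)` (smooth, supported in the
open interval `(p, p+1)`, so all boundary terms vanish), `y^{-it} = d/dy (y^{1-it}/(1-it))`, so `II = -(1-it)^{-1} ∫ g'(y) y^{1-it} dy =
((1-it)(2-it))^{-1} ∫ g''(y) y^{2-it} dy`, norm `≤ (p+1)^2 sup |g''| / (1 + t^2)`. (This formula is valid for all `t`.)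
`II_GG`: Fubini (`II` bounded, `GG` integrable by `norm_GG_le`; the `y`-integral is over a bounded interval):
`∫ II t GG t dt = ∫_p^{p+1} V₀ (y - p) (∫ GG t y^{-it} dt) dy`, and for `y > 0`, `s = log y`: `∫ GG t e^{-ist} dt = 2π e^{-s^2 + s} = 2π y exp (-(log y)^2)`: by `GG_eq`
a Gaussian integral (`fourierIntegral_gaussian`), or Fourier inversion for `e^{-s^2+s}`.
`c_pos`: `V₀` is continuous, `≥ 0`, not `0`, supported in `(0, 1)`; `y exp (-(log y)^2) > 0` for `y ≥ p ≥ 1`.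
-/

namespace Pool.Agent.HPP

open Complex MeasureTheory Filter Topology

/-- `I(t) = ∫_p^{p+1} V₀ (y - p) y^{-it} dy` -/
noncomputable def II (V₀ : ℝ → ℝ) (p : ℕ) (t : ℝ) : ℂ :=
  ∫ y in (p : ℝ)..(p + 1 : ℝ), (V₀ (y - p) : ℂ) * (y : ℂ) ^ (-(t * I))

variable {V₀ η : ℝ → ℝ}

/-- a continuous form of the integrand -/
private noncomputable def kk64 (V₀ : ℝ → ℝ) (p : ℕ) (t y : ℝ) : ℂ :=
  (V₀ (y - p) : ℂ) * cexp (-((t * Real.log (max y 1) : ℝ) * I))

private theorem kk_cont64 (h : Bp V₀ η) (p : ℕ) :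
    Continuous (Function.uncurry (kk64 V₀ p)) := by
  have hV : Continuous V₀ := (h.V_smooth 0).continuous
  have hl : Continuous fun z : ℝ × ℝ => Real.log (max z.2 1) := by
    refine Continuous.log (continuous_snd.max continuous_const) fun z => ?_
    have : (0 : ℝ) < max z.2 1 := lt_of_lt_of_le one_pos (le_max_right _ _)
    exact this.ne'
  unfold kk64
  simp only [Function.uncurry_def]
  refine Continuous.mul ?_ ?_
  · exact continuous_ofReal.comp (hV.comp (continuous_snd.sub continuous_const))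
  · refine continuous_exp.comp (Continuous.neg ?_)
    exact (continuous_ofReal.comp (continuous_fst.mul hl)).mul continuous_const

private theorem kk_eq64 (V₀ : ℝ → ℝ) {p : ℕ} (hp : 1 ≤ p) (t : ℝ) {y : ℝ}
    (hy : (p : ℝ) ≤ y) : (V₀ (y - p) : ℂ) * (y : ℂ) ^ (-(t * I)) = kk64 V₀ p t y := by
  have hp' : (1 : ℝ) ≤ p := by exact_mod_cast hp
  have hy0 : (0 : ℝ) < y := by linarith
  have hy1 : max y 1 = y := max_eq_left (by linarith)
  unfold kk64
  rw [hy1, cpow_def_of_ne_zero (by exact_mod_cast hy0.ne'), ← ofReal_log hy0.le]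
  congr 2
  push_cast
  ring

private theorem II_kk64 (V₀ : ℝ → ℝ) {p : ℕ} (hp : 1 ≤ p) (t : ℝ) :
    II V₀ p t = ∫ y in (p : ℝ)..(p + 1 : ℝ), kk64 V₀ p t y := by
  unfold II
  refine intervalIntegral.integral_congr fun y hy => ?_
  rw [Set.uIcc_of_le (by linarith)] at hy
  exact kk_eq64 V₀ hp t hy.1

theorem II_continuous (h : Bp V₀ η) {p : ℕ} (hp : 1 ≤ p) : Continuous (II V₀ p) := by
  have h1 : II V₀ p = fun t => ∫ y in (p : ℝ)..(p + 1 : ℝ), kk64 V₀ p t y := by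
    funext t
    exact II_kk64 V₀ hp t
  rw [h1]
  exact intervalIntegral.continuous_parametric_intervalIntegral_of_continuous'
    (kk_cont64 h p) _ _

private theorem V_out64 (h : Bp V₀ η) {y : ℝ} (hy : y ∉ Set.Ioo (0 : ℝ) 1) : V₀ y = 0 := by
  by_contra hc
  exact hy (h.V_supp (subset_tsupport _ hc))

private theorem dV_out64 (h : Bp V₀ η) {y : ℝ} (hy : y ∉ Set.Ioo (0 : ℝ) 1) :
    deriv V₀ y = 0 := by
  by_contra hc
  exact hy (h.V_supp (support_deriv_subset hc))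

/-- integration by parts -/
private theorem parts64 {g g' : ℝ → ℝ} (hg : ∀ y, HasDerivAt g (g' y) y) (hg' : Continuous g')
    (h0 : g 0 = 0) (h1 : g 1 = 0) {p : ℕ} (hp : 1 ≤ p) {r : ℂ} (hr : r ≠ -1) :
    ∫ y in (p : ℝ)..(p + 1 : ℝ), (g (y - p) : ℂ) * (y : ℂ) ^ r =
      -(1 / (r + 1)) * ∫ y in (p : ℝ)..(p + 1 : ℝ), (g' (y - p) : ℂ) * (y : ℂ) ^ (r + 1) := by
  have hp' : (1 : ℝ) ≤ p := by exact_mod_cast hp
  have hle : (p : ℝ) ≤ p + 1 := by linarith
  have hcp : ∀ s : ℂ, ContinuousOn (fun y : ℝ => (y : ℂ) ^ s) (Set.uIcc (p : ℝ) (p + 1)) := by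
    intro s y hy
    rw [Set.uIcc_of_le hle] at hy
    have hy0 : (0 : ℝ) < y := by linarith [hy.1]
    refine ContinuousAt.continuousWithinAt ?_
    refine ContinuousAt.cpow continuous_ofReal.continuousAt continuousAt_const ?_
    exact Or.inl (by simpa using hy0)
  have hu : ∀ y ∈ Set.uIcc (p : ℝ) (p + 1), HasDerivAt (fun y : ℝ => (g (y - p) : ℂ))
      (g' (y - p) : ℂ) y := by
    intro y _
    have h2 : HasDerivAt (fun y : ℝ => g (y - p)) (g' (y - p)) y :=
      (hg (y - p)).comp_sub_const y p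
    exact h2.ofReal_comp
  have hv : ∀ y ∈ Set.uIcc (p : ℝ) (p + 1), HasDerivAt (fun y : ℝ => (y : ℂ) ^ (r + 1) / (r + 1))
      ((y : ℂ) ^ r) y := by
    intro y hy
    rw [Set.uIcc_of_le hle] at hy
    have hy0 : (0 : ℝ) < y := by linarith [hy.1]
    exact hasDerivAt_ofReal_cpow_const' hy0.ne' hr
  have hu' : IntervalIntegrable (fun y : ℝ => (g' (y - p) : ℂ)) volume (p : ℝ) (p + 1) :=
    (continuous_ofReal.comp (hg'.comp (continuous_id.sub continuous_const))).intervalIntegrable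
      _ _
  have hv' : IntervalIntegrable (fun y : ℝ => (y : ℂ) ^ r) volume (p : ℝ) (p + 1) :=
    (hcp r).intervalIntegrable
  rw [intervalIntegral.integral_mul_deriv_eq_deriv_mul hu hv hu' hv']
  have e1 : (p : ℝ) + 1 - p = 1 := by ring
  rw [e1, sub_self, h0, h1, ofReal_zero, zero_mul, zero_mul, sub_zero, zero_sub,
    ← intervalIntegral.integral_const_mul, ← intervalIntegral.integral_neg]
  refine intervalIntegral.integral_congr fun y _ => ?_
  ring

theorem II_decay (h : Bp V₀ η) {p : ℕ} (hp : 1 ≤ p) : ∃ C : ℝ, 0 ≤ C ∧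
    ∀ t, ‖II V₀ p t‖ ≤ C / (1 + t ^ 2) := by
  have hp' : (1 : ℝ) ≤ p := by exact_mod_cast hp
  have hle : (p : ℝ) ≤ p + 1 := by linarith
  have hV2 : ContDiff ℝ (1 : ℕ) (deriv V₀) := by
    have h1 := ContDiff.iterate_deriv' (𝕜 := ℝ) 1 1 (f := V₀) (h.V_smooth 2)
    simpa using h1
  have hV3 : ContDiff ℝ (0 : ℕ) (deriv (deriv V₀)) := by
    have h1 := ContDiff.iterate_deriv' (𝕜 := ℝ) 0 1 (f := deriv V₀) hV2
    simpa using h1
  have hd1 : ∀ y, HasDerivAt V₀ (deriv V₀ y) y := fun y =>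
    (((h.V_smooth 1).differentiable (by norm_num)) y).hasDerivAt
  have hd2 : ∀ y, HasDerivAt (deriv V₀) (deriv (deriv V₀) y) y := fun y =>
    ((hV2.differentiable (by norm_num)) y).hasDerivAt
  obtain ⟨M, hM⟩ := (isCompact_Icc (a := (0 : ℝ)) (b := 1)).exists_bound_of_continuousOn
    hV3.continuous.continuousOn
  have hM0 : 0 ≤ M := le_trans (norm_nonneg _) (hM 0 ⟨le_rfl, zero_le_one⟩)
  refine ⟨M * ((p : ℝ) + 1) ^ 2, by positivity, fun t => ?_⟩
  have hr1 : -((t : ℂ) * I) ≠ -1 := by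
    intro hc
    have := congrArg Complex.re hc
    simp at this
  have hr2 : -((t : ℂ) * I) + 1 ≠ -1 := by
    intro hc
    have := congrArg Complex.re hc
    norm_num at this
  have e1 : II V₀ p t = -(1 / (-((t : ℂ) * I) + 1)) * (-(1 / (-((t : ℂ) * I) + 1 + 1)) *
      ∫ y in (p : ℝ)..(p + 1 : ℝ), ((deriv (deriv V₀) (y - p) : ℝ) : ℂ) *
        (y : ℂ) ^ (-((t : ℂ) * I) + 1 + 1)) := by
    unfold II
    rw [parts64 hd1 hV2.continuous (V_out64 h (by simp)) (V_out64 h (by simp)) hp hr1,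
      parts64 hd2 hV3.continuous (dV_out64 h (by simp)) (dV_out64 h (by simp)) hp hr2]
  have hint : ‖∫ y in (p : ℝ)..(p + 1 : ℝ), ((deriv (deriv V₀) (y - p) : ℝ) : ℂ) *
        (y : ℂ) ^ (-((t : ℂ) * I) + 1 + 1)‖ ≤ M * ((p : ℝ) + 1) ^ 2 := by
    have h1 : ∀ y ∈ Set.uIoc (p : ℝ) (p + 1), ‖((deriv (deriv V₀) (y - p) : ℝ) : ℂ) *
        (y : ℂ) ^ (-((t : ℂ) * I) + 1 + 1)‖ ≤ M * ((p : ℝ) + 1) ^ 2 := by
      intro y hy
      rw [Set.uIoc_of_le hle] at hy
      have hy0 : (0 : ℝ) < y := by linarith [hy.1]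
      rw [norm_mul, Complex.norm_cpow_eq_rpow_re_of_pos hy0, Complex.norm_real]
      have e2 : (-((t : ℂ) * I) + 1 + 1).re = 2 := by
        simp
        norm_num
      rw [e2]
      have h2 : ‖deriv (deriv V₀) (y - p)‖ ≤ M :=
        hM (y - p) ⟨by linarith [hy.1], by linarith [hy.2]⟩
      have h3 : y ^ (2 : ℝ) ≤ ((p : ℝ) + 1) ^ 2 := by
        have : y ^ (2 : ℝ) = y ^ 2 := by
          rw [← Real.rpow_natCast]
          norm_num
        rw [this]
        exact pow_le_pow_left₀ hy0.le hy.2 2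
      exact mul_le_mul h2 h3 (Real.rpow_nonneg hy0.le _) hM0
    have h2 := intervalIntegral.norm_integral_le_of_norm_le_const h1
    have h3 : |(p : ℝ) + 1 - p| = 1 := by
      rw [add_sub_cancel_left, abs_one]
    rwa [h3, mul_one] at h2
  have hns : ∀ z : ℂ, ‖z‖ ^ 2 = z.re ^ 2 + z.im ^ 2 := by
    intro z
    rw [← Complex.normSq_eq_norm_sq, Complex.normSq_apply]
    ring
  have hn1 : 1 + t ^ 2 ≤ ‖-((t : ℂ) * I) + 1‖ ^ 2 := by
    rw [hns]
    simp
  have hn2 : 1 + t ^ 2 ≤ ‖-((t : ℂ) * I) + 1 + 1‖ ^ 2 := by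
    rw [hns]
    simp
    norm_num
  have hpos : 0 < 1 + t ^ 2 := by positivity
  have hn3 : 1 + t ^ 2 ≤ ‖-((t : ℂ) * I) + 1‖ * ‖-((t : ℂ) * I) + 1 + 1‖ := by
    have h4 : (1 + t ^ 2) ^ 2 ≤ (‖-((t : ℂ) * I) + 1‖ * ‖-((t : ℂ) * I) + 1 + 1‖) ^ 2 := by
      rw [mul_pow, sq (1 + t ^ 2)]
      exact mul_le_mul hn1 hn2 hpos.le (by positivity)
    exact le_of_sq_le_sq h4 (by positivity)
  rw [e1, norm_mul, norm_mul, norm_neg, norm_neg, norm_div, norm_div, norm_one]
  have hq1 : 0 < ‖-((t : ℂ) * I) + 1‖ := by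
    rw [norm_pos_iff]
    intro hc
    have := congrArg Complex.re hc
    simp at this
  have hq2 : 0 < ‖-((t : ℂ) * I) + 1 + 1‖ := by
    rw [norm_pos_iff]
    intro hc
    have := congrArg Complex.re hc
    norm_num at this
  have e3 : 1 / ‖-((t : ℂ) * I) + 1‖ * (1 / ‖-((t : ℂ) * I) + 1 + 1‖ *
      ‖∫ y in (p : ℝ)..(p + 1 : ℝ), ((deriv (deriv V₀) (y - p) : ℝ) : ℂ) *
        (y : ℂ) ^ (-((t : ℂ) * I) + 1 + 1)‖) =
      ‖∫ y in (p : ℝ)..(p + 1 : ℝ), ((deriv (deriv V₀) (y - p) : ℝ) : ℂ) *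
        (y : ℂ) ^ (-((t : ℂ) * I) + 1 + 1)‖ /
      (‖-((t : ℂ) * I) + 1‖ * ‖-((t : ℂ) * I) + 1 + 1‖) := by
    field_simp
  rw [e3]
  exact div_le_div₀ (by positivity) hint hpos hn3

private theorem gauss64 (s : ℝ) :
    ∫ t : ℝ, cexp (-((t * s : ℝ) * I)) * GG t = (2 * Real.pi * Real.exp (s - s ^ 2) : ℝ) := by
  have h1 : ∀ t : ℝ, cexp (-((t * s : ℝ) * I)) * GG t = (Real.sqrt Real.pi : ℂ) *
      cexp ((-(1 / 4) : ℂ) * (t : ℂ) ^ 2 + (I / 2 - I * s) * t + 1 / 4) := by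
    intro t
    rw [GG_eq, mul_left_comm, ← Complex.exp_add]
    congr 2
    have : I ^ 2 = -1 := I_sq
    push_cast
    linear_combination ((t : ℂ) ^ 2 / 4) * this
  simp_rw [h1]
  rw [integral_const_mul, integral_cexp_quadratic (by norm_num)]
  have h2 : ((Real.pi : ℂ) / -(-(1 / 4) : ℂ)) ^ (1 / 2 : ℂ) = (2 * Real.sqrt Real.pi : ℝ) := by
    have h3 : ((Real.pi : ℂ) / -(-(1 / 4) : ℂ)) = ((4 * Real.pi : ℝ) : ℂ) := by
      push_cast
      ring
    have h4 : (1 / 2 : ℂ) = ((1 / 2 : ℝ) : ℂ) := by push_cast; ring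
    rw [h3, h4, ← Complex.ofReal_cpow (by positivity), ← Real.sqrt_eq_rpow,
      Real.sqrt_mul (by norm_num)]
    congr 2
    rw [show (4 : ℝ) = 2 ^ 2 by norm_num]
    exact Real.sqrt_sq (by norm_num)
  have h5 : (1 / 4 : ℂ) - (I / 2 - I * s) ^ 2 / (4 * (-(1 / 4) : ℂ)) =
      ((s - s ^ 2 : ℝ) : ℂ) := by
    have : I ^ 2 = -1 := I_sq
    push_cast
    linear_combination ((1 / 2 - (s : ℂ)) ^ 2) * this
  rw [h2, h5, ← Complex.ofReal_exp]
  rw [← Complex.ofReal_mul, ← Complex.ofReal_mul]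
  congr 1
  have h6 := Real.mul_self_sqrt Real.pi_pos.le
  linear_combination (2 * Real.exp (s - s ^ 2)) * h6

theorem II_GG (h : Bp V₀ η) {p : ℕ} (hp : 1 ≤ p) : ∫ t : ℝ, II V₀ p t * GG t =
    (2 * Real.pi * ∫ y in (p : ℝ)..(p + 1 : ℝ), V₀ (y - p) *
      (y * Real.exp (-(Real.log y) ^ 2)) : ℝ) := by
  have hp' : (1 : ℝ) ≤ p := by exact_mod_cast hp
  have hle : (p : ℝ) ≤ p + 1 := by linarith
  have e1 : ∀ t : ℝ, II V₀ p t * GG t =
      ∫ y in (p : ℝ)..(p + 1 : ℝ), kk64 V₀ p t y * GG t := by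
    intro t
    rw [II_kk64 V₀ hp t, intervalIntegral.integral_mul_const]
  simp_rw [e1]
  have hgi : Integrable (fun t : ℝ => 4 * Real.exp (-t ^ 2 / 4)) := by
    have h1 := (integrable_exp_neg_mul_sq (b := 1 / 4) (by norm_num)).const_mul 4
    refine h1.congr (Filter.Eventually.of_forall fun t => ?_)
    simp only
    congr 2
    ring
  have hint : Integrable (Function.uncurry fun (y t : ℝ) => kk64 V₀ p t y * GG t)
      ((volume.restrict (Set.uIoc (p : ℝ) (p + 1))).prod volume) := by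
    have h1 : Integrable (fun z : ℝ × ℝ => (1 : ℝ) * (4 * Real.exp (-z.2 ^ 2 / 4)))
        ((volume.restrict (Set.uIoc (p : ℝ) (p + 1))).prod volume) :=
      Integrable.mul_prod (f := fun _ : ℝ => (1 : ℝ))
        (g := fun t : ℝ => 4 * Real.exp (-t ^ 2 / 4))
        (by
          rw [Set.uIoc_of_le hle]
          exact integrableOn_const (by simp)) hgi
    refine h1.mono' ?_ (Filter.Eventually.of_forall fun z => ?_)
    · refine Continuous.aestronglyMeasurable ?_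
      simp only [Function.uncurry_def]
      exact ((kk_cont64 h p).comp (continuous_snd.prodMk continuous_fst)).mul
        (continuous_GG.comp continuous_snd)
    · simp only [Function.uncurry_def]
      rw [norm_mul]
      refine mul_le_mul ?_ (norm_GG_le z.2) (norm_nonneg _) zero_le_one
      unfold kk64
      rw [norm_mul, Complex.norm_real, Real.norm_eq_abs]
      have h2 : -(((z.2 * Real.log (max z.1 1) : ℝ) : ℂ) * I) =
          ((-(z.2 * Real.log (max z.1 1)) : ℝ) : ℂ) * I := by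
        push_cast
        ring
      rw [h2, Complex.norm_exp_ofReal_mul_I, mul_one, abs_of_nonneg (h.V_range _).1]
      exact (h.V_range _).2
  rw [← intervalIntegral_integral_swap hint]
  have e2 : ∫ y in (p : ℝ)..(p + 1 : ℝ), ∫ t : ℝ, kk64 V₀ p t y * GG t =
      ∫ y in (p : ℝ)..(p + 1 : ℝ), ((2 * Real.pi * (V₀ (y - p) *
        (y * Real.exp (-(Real.log y) ^ 2))) : ℝ) : ℂ) := by
    refine intervalIntegral.integral_congr fun y hy => ?_
    rw [Set.uIcc_of_le hle] at hy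
    have hy0 : (0 : ℝ) < y := by linarith [hy.1]
    have hy1 : max y 1 = y := max_eq_left (by linarith [hy.1])
    unfold kk64
    rw [hy1]
    simp_rw [mul_assoc]
    rw [integral_const_mul]
    have h1 := gauss64 (Real.log y)
    rw [h1, ← Complex.ofReal_mul]
    congr 1
    have h2 : Real.exp (Real.log y - Real.log y ^ 2) =
        y * Real.exp (-(Real.log y) ^ 2) := by
      rw [sub_eq_add_neg, Real.exp_add, Real.exp_log hy0]
    rw [h2]
    ring
  rw [e2, intervalIntegral.integral_ofReal, intervalIntegral.integral_const_mul]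

theorem c_pos (h : Bp V₀ η) {p : ℕ} (hp : 1 ≤ p) :
    0 < ∫ y in (p : ℝ)..(p + 1 : ℝ), V₀ (y - p) * (y * Real.exp (-(Real.log y) ^ 2)) := by
  have hp' : (1 : ℝ) ≤ p := by exact_mod_cast hp
  have hle : (p : ℝ) < p + 1 := by linarith
  refine intervalIntegral.integral_pos hle ?_ ?_ ?_
  · intro y hy
    have hy0 : (0 : ℝ) < y := by linarith [hy.1]
    refine ContinuousAt.continuousWithinAt ?_
    refine ContinuousAt.mul ?_ (continuousAt_id.mul ?_)
    · exact ((h.V_smooth 0).continuous.comp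
        (continuous_id.sub continuous_const)).continuousAt
    · exact Real.continuous_exp.continuousAt.comp
        (((Real.continuousAt_log hy0.ne').pow 2).neg)
  · intro y hy
    have hy0 : (0 : ℝ) < y := by linarith [hy.1]
    exact mul_nonneg (h.V_range _).1 (mul_nonneg hy0.le (Real.exp_pos _).le)
  · obtain ⟨y, hy⟩ := h.V_ne
    have hmem : y ∈ Set.Ioo (0 : ℝ) 1 := h.V_supp (subset_tsupport _ hy)
    refine ⟨y + p, ⟨by linarith [hmem.1], by linarith [hmem.2]⟩, ?_⟩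
    have hy0 : (0 : ℝ) < y + p := by linarith [hmem.1]
    rw [add_sub_cancel_right]
    have hpos : 0 < V₀ y := lt_of_le_of_ne (h.V_range y).1 (Ne.symm hy)
    exact mul_pos hpos (mul_pos hy0 (Real.exp_pos _))

theorem lip (h : Bp V₀ η) : ∃ K : ℝ, 0 ≤ K ∧ ∀ y z, |V₀ y - V₀ z| ≤ K * |y - z| := by
  have hc : HasCompactSupport V₀ := by
    refine HasCompactSupport.of_support_subset_isCompact (isCompact_Icc (a := (0 : ℝ)) (b := 1))
      fun y hy => ?_
    have hmem : y ∈ Set.Ioo (0 : ℝ) 1 := h.V_supp (subset_tsupport _ hy)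
    exact ⟨hmem.1.le, hmem.2.le⟩
  obtain ⟨K, hK⟩ := ContDiff.lipschitzWith_of_hasCompactSupport hc (h.V_smooth 1)
    (by norm_num)
  refine ⟨K, K.2, fun y z => ?_⟩
  have h1 := hK.dist_le_mul y z
  rwa [Real.dist_eq, Real.dist_eq] at h1

end Pool.Agent.HPP
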