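import Pool.Agent.HPP.VPow

/-!
# HPP/VAux: elementary facts on level sets (monotonicity, covering, trivial bound, zero pieces)
-/

namespace Pool.Agent.HPP

open Complex MeasureTheory

theorem LM_nonneg {Q : ℕ} (G : DirichletCharacter ℂ Q → Set ℝ)
    (h : DirichletCharacter ℂ Q → ℝ → ℝ) (V : ℝ) : 0 ≤ LM G h V :=
  Finset.sum_nonneg fun _ _ => measureReal_nonneg

theorem LM_mono {Q : ℕ} {G G' : DirichletCharacter ℂ Q → Set ℝ}
    {h : DirichletCharacter ℂ Q → ℝ → ℝ} {V : ℝ} (hG : ∀ χ, G χ ⊆ G' χ)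
    (hf : ∀ χ, volume (G' χ) ≠ ⊤) : LM G h V ≤ LM G' h V := by
  refine Finset.sum_le_sum fun χ _ => ?_
  refine measureReal_mono (Set.inter_subset_inter_left _ (hG χ)) ?_
  exact ne_top_of_le_ne_top (hf χ) (measure_mono Set.inter_subset_left)

theorem Gt_sub {Q : ℕ} (χ : DirichletCharacter ℂ Q) (κ T : ℝ) : Gt χ κ T ⊆ Set.Icc (-T) T :=
  fun _ ht => abs_le.1 ht.1

theorem LM_Gt_le {Q : ℕ} {h : DirichletCharacter ℂ Q → ℝ → ℝ} {κ T V : ℝ} :
    LM (fun χ => Gt χ κ T) h V ≤ LM (fun _ => Set.Icc (-T) T) h V :=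
  LM_mono (fun χ => Gt_sub χ κ T) fun _ => by
    rw [Real.volume_Icc]
    exact ENNReal.ofReal_ne_top

theorem LM_cover {Q : ℕ} {h : DirichletCharacter ℂ Q → ℝ → ℝ} {T T0 V B : ℝ} (h0 : 0 < T0)
    (hT : T0 ≤ T) (hB : ∀ t₀ : ℝ, LM (fun _ => Set.Icc t₀ (t₀ + T0)) h V ≤ B) :
    LM (fun _ => Set.Icc (-T) T) h V ≤ 3 * (T / T0) * B := by
  have hB0 : 0 ≤ B := (LM_nonneg _ _ _).trans (hB 0)
  set n : ℕ := ⌈2 * T / T0⌉₊ with hn
  have hT' : 0 < T := h0.trans_le hT
  have hn1 : (n : ℝ) ≤ 3 * (T / T0) := by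
    have h1 : (n : ℝ) < 2 * T / T0 + 1 := Nat.ceil_lt_add_one (by positivity)
    have h2 : 1 ≤ T / T0 := by rwa [le_div_iff₀ h0, one_mul]
    have h3 : 2 * T / T0 = 2 * (T / T0) := by ring
    linarith
  have hcov : Set.Icc (-T) T ⊆ ⋃ l ∈ Finset.range n, Set.Icc (-T + l * T0) (-T + l * T0 + T0) := by
    intro t ht
    have ht1 := ht.1
    have ht2 := ht.2
    set l : ℕ := ⌊(t + T) / T0⌋₊ with hl
    have hpos : 0 ≤ (t + T) / T0 := div_nonneg (by linarith) h0.le
    have hl1 : (l : ℝ) ≤ (t + T) / T0 := Nat.floor_le hpos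
    have hl2 : (t + T) / T0 < l + 1 := Nat.lt_floor_add_one _
    rw [le_div_iff₀ h0] at hl1
    rw [div_lt_iff₀ h0] at hl2
    by_cases hln : l < n
    · refine Set.mem_biUnion (Finset.mem_coe.2 (Finset.mem_range.2 hln)) ?_
      constructor <;> nlinarith
    · have hnl : n ≤ l := not_lt.1 hln
      have hn2 : 2 * T / T0 ≤ n := Nat.le_ceil _
      have hnn : (n : ℝ) ≤ l := by exact_mod_cast hnl
      have h4 : 2 * T ≤ n * T0 := by rwa [div_le_iff₀ h0] at hn2
      have h5 : (n : ℝ) * T0 ≤ l * T0 := mul_le_mul_of_nonneg_right hnn h0.le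
      have hn0 : 1 ≤ n := by
        rw [hn, Nat.one_le_ceil_iff]; positivity
      refine Set.mem_biUnion (x := n - 1) (Finset.mem_coe.2 (Finset.mem_range.2 (by omega))) ?_
      have h6 : (((n - 1 : ℕ) : ℝ)) = n - 1 := by
        rw [Nat.cast_sub hn0, Nat.cast_one]
      rw [h6]
      constructor <;> nlinarith
  calc LM (fun _ => Set.Icc (-T) T) h V
      ≤ ∑ χ : DirichletCharacter ℂ Q, ∑ l ∈ Finset.range n,
          volume.real (Set.Icc (-T + l * T0) (-T + l * T0 + T0) ∩ {t | V ≤ h χ t}) := by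
        refine Finset.sum_le_sum fun χ _ => ?_
        have h1 : Set.Icc (-T) T ∩ {t | V ≤ h χ t} ⊆ ⋃ l ∈ Finset.range n,
            (Set.Icc (-T + l * T0) (-T + l * T0 + T0) ∩ {t | V ≤ h χ t}) := by
          intro t ht
          have := hcov ht.1
          simp only [Set.mem_iUnion] at this ⊢
          obtain ⟨l, hl, hl'⟩ := this
          exact ⟨l, hl, hl', ht.2⟩
        refine (measureReal_mono h1 ?_).trans (measureReal_biUnion_finset_le _ _)
        refine ne_top_of_le_ne_top ?_ (measure_biUnion_finset_le _ _)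
        refine (ENNReal.sum_lt_top.2 fun l _ => ?_).ne
        refine (measure_mono Set.inter_subset_left).trans_lt ?_
        rw [Real.volume_Icc]
        exact ENNReal.ofReal_lt_top
    _ = ∑ l ∈ Finset.range n, LM (fun _ => Set.Icc (-T + l * T0) (-T + l * T0 + T0)) h V := by
        rw [Finset.sum_comm]
        rfl
    _ ≤ ∑ l ∈ Finset.range n, B := Finset.sum_le_sum fun l _ => hB _
    _ = n * B := by rw [Finset.sum_const, Finset.card_range, nsmul_eq_mul]
    _ ≤ _ := mul_le_mul_of_nonneg_right hn1 hB0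

theorem card_char_le {Q : ℕ} (hQ : 1 ≤ Q) :
    (Fintype.card (DirichletCharacter ℂ Q) : ℝ) ≤ Q := by
  haveI : NeZero Q := ⟨by omega⟩
  rw [← Nat.card_eq_fintype_card, DirichletCharacter.card_eq_totient_of_hasEnoughRootsOfUnity]
  exact_mod_cast Nat.totient_le Q

theorem LM_triv {Q : ℕ} (hQ : 1 ≤ Q) {h : DirichletCharacter ℂ Q → ℝ → ℝ} {κ T V : ℝ}
    (hT : 0 ≤ T) : LM (fun χ => Gt χ κ T) h V ≤ 2 * (Q * T) := by
  calc LM (fun χ => Gt χ κ T) h V ≤ ∑ χ : DirichletCharacter ℂ Q, 2 * T := by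
        refine Finset.sum_le_sum fun χ _ => ?_
        have h1 : Gt χ κ T ∩ {t | V ≤ h χ t} ⊆ Set.Icc (-T) T :=
          Set.inter_subset_left.trans (Gt_sub χ κ T)
        refine (measureReal_mono h1 (by rw [Real.volume_Icc]; exact ENNReal.ofReal_ne_top)).trans ?_
        rw [Real.volume_real_Icc_of_le (by linarith)]
        linarith
    _ = Fintype.card (DirichletCharacter ℂ Q) * (2 * T) := by
        rw [Finset.sum_const, Finset.card_univ, nsmul_eq_mul]
    _ ≤ Q * (2 * T) := mul_le_mul_of_nonneg_right (card_char_le hQ) (by linarith)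
    _ = _ := by ring

/-- the pieces of the truncated Moebius function beyond `Z` vanish -/
theorem pc_mz_zero {Z : ℝ} {v : ℕ} (h : Z ≤ Real.exp ((v : ℝ) - 1)) : pc (mz Z) v = 0 := by
  ext n
  by_contra hn
  have h1 := (pc_supp hn).1
  rw [pc_apply] at hn
  apply hn
  have h2 : mz Z n = 0 := by
    show (if (n : ℝ) ≤ Z then (ArithmeticFunction.moebius n : ℝ) else 0) = 0
    rw [if_neg (by linarith)]
  rw [h2, zero_mul]
  rfl

theorem nt_zero_of {Q : ℕ} {F : ArithmeticFunction ℝ} {v : ℕ} (h : pc F v = 0)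
    (χ : DirichletCharacter ℂ Q) (t : ℝ) : nt F v χ t = 0 := by
  unfold nt DP SS
  rw [h]
  simp

theorem LM_empty {Q : ℕ} {G : DirichletCharacter ℂ Q → Set ℝ}
    {h : DirichletCharacter ℂ Q → ℝ → ℝ} {V : ℝ} (hh : ∀ χ, ∀ t ∈ G χ, h χ t < V) :
    LM G h V = 0 := by
  refine Finset.sum_eq_zero fun χ _ => ?_
  have h1 : G χ ∩ {t | V ≤ h χ t} = ∅ := by
    ext t
    simp only [Set.mem_inter_iff, Set.mem_setOf_eq, Set.mem_empty_iff_false, iff_false, not_and,
      not_le]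
    exact hh χ t
  rw [h1, measureReal_empty]

end Pool.Agent.HPP
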