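import Pool.Agent.HPP.AExp
import Pool.Agent.HPP.VAux

set_option autoImplicit false

/-!
# HPP/ATail : the part `|t| > T` (A2) (helper14)

PROOF. `m = 2^J w`, `q = b^m`, `T = b^(m + w/4)` (natural division), `x = b^(k-1)`. `‖cc‖ ≤ |RR|` (`cc_le`), `‖PP‖ ≤ C x` (`PP_bound`), `|H^{-it}| = 1`,
`‖eh η (t/q)‖ ≤ C_j (q/|t|)^j` (`eh_decay`, `j = 12·2^J + 1`), `∫_{|t| > T} |t|^{-j} dt = 2 T^(1-j)/(j-1)`, and there are `φ(q) ≤ q` characters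
(`Nat.card`/`Fintype.card` of `DirichletCharacter ℂ q` is `q.totient`: `DirichletCharacter.card_eq_totient_of_hasEnoughRootsOfUnity`).
So the sum is `≤ q |RR| C x C_j q^j 2 T^(1-j) = C' |RR| x q^2 b^(-(w/4) 12·2^J) ≤ C' |RR| x b^(2·2^J w - 3·2^J (w - 3))`, and
`2·2^J w - 3·2^J (w-3) = -2^J w + 9·2^J → -∞`.
-/

namespace Pool.Agent.HPP

open Complex MeasureTheory Filter Topology

private theorem at_itg {V₀ η : ℝ → ℝ} {b p m k : ℕ} (hb : Bas b p) (hm : 1 ≤ m) (F : Finset ℕ)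
    {V : ℝ → ℝ} (hV : ∀ y, 0 ≤ V y ∧ V y ≤ 1) {C D : ℝ} {j : ℕ} (hC : ∀ (Q : ℕ)
    (χ : DirichletCharacter ℂ Q) (t x : ℝ), 1 ≤ x → ‖PP χ t x‖ ≤ C * x) (hC0 : 0 ≤ C)
    (hD : ∀ t, ‖eh η t‖ ≤ D / (1 + |t|) ^ (j + 2)) (hD0 : 0 ≤ D)
    (χ : DirichletCharacter ℂ (b ^ m)) {t Y : ℝ} (hY : 1 ≤ Y)
    (ht : Y * (b : ℝ) ^ m ≤ |t|) :
    ‖itg b p m k F V η χ t‖ ≤
      (D * C * ((RR b p m F).card * (b : ℝ) ^ (k - 1)) * (Y ^ j)⁻¹) *
        (1 + (t / (b : ℝ) ^ m) ^ 2)⁻¹ := by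
  have hb1 : (1 : ℝ) ≤ b := by exact_mod_cast (by have := hb.three; omega : 1 ≤ b)
  have hb0 : 0 < b := by have := hb.three; omega
  have hq : (0 : ℝ) < (b : ℝ) ^ m := by positivity
  have hx1 : (1 : ℝ) ≤ (b : ℝ) ^ (k - 1) := one_le_pow₀ hb1
  unfold itg
  rw [norm_mul, norm_mul, norm_mul, ax_Hnorm hb0, mul_one]
  have h1 := hD (t / (b : ℝ) ^ m)
  have h2 := cc_le hb hm F hV χ t
  have h3 := hC (b ^ m) χ t ((b : ℝ) ^ (k - 1)) hx1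
  have h4 : Y ≤ |t / (b : ℝ) ^ m| := by
    rw [abs_div, abs_of_pos hq, le_div_iff₀ hq]; exact ht
  have h5 : Y ^ j * (1 + (t / (b : ℝ) ^ m) ^ 2) ≤ (1 + |t / (b : ℝ) ^ m|) ^ (j + 2) := by
    rw [pow_add]
    refine mul_le_mul (pow_le_pow_left₀ (by linarith) (by linarith) _) ?_ (by positivity)
      (by positivity)
    rw [← sq_abs (t / (b : ℝ) ^ m)]
    nlinarith [abs_nonneg (t / (b : ℝ) ^ m)]
  have h6 : D / (1 + |t / (b : ℝ) ^ m|) ^ (j + 2) ≤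
      D * ((Y ^ j)⁻¹ * (1 + (t / (b : ℝ) ^ m) ^ 2)⁻¹) := by
    rw [div_eq_mul_inv, ← mul_inv]
    refine mul_le_mul_of_nonneg_left (inv_anti₀ (by positivity) h5) hD0
  calc ‖eh η (t / (b : ℝ) ^ m)‖ * (‖cc b p F V χ t‖ * ‖PP χ t ((b : ℝ) ^ (k - 1))‖)
      ≤ (D * ((Y ^ j)⁻¹ * (1 + (t / (b : ℝ) ^ m) ^ 2)⁻¹)) *
        ((RR b p m F).card * (C * (b : ℝ) ^ (k - 1))) :=
        mul_le_mul (h1.trans h6) (mul_le_mul h2 h3 (norm_nonneg _) (by positivity))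
          (by positivity) (by positivity)
    _ = _ := by ring

theorem tail_le {V₀ η : ℝ → ℝ} (hB : Bp V₀ η) {b p : ℕ} (hb : Bas b p) (J : ℕ) {V : ℝ → ℝ}
    (hV : ∀ y, 0 ≤ V y ∧ V y ≤ 1) {ε : ℝ} (hε : 0 < ε) : ∃ w₀ : ℕ, ∀ w : ℕ, w₀ ≤ w → ∀ k : ℕ,
    2 * (2 ^ J * w) ≤ k →
    ∑ χ : DirichletCharacter ℂ (b ^ (2 ^ J * w)),
      ∫ t in {t : ℝ | (b : ℝ) ^ (2 ^ J * w + w / 4) < |t|},
        ‖itg b p (2 ^ J * w) k (Fr J w) V η χ t‖ ≤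
    ε * ((RR b p (2 ^ J * w) (Fr J w)).card * (b : ℝ) ^ (k - 1)) := by
  obtain ⟨C, hC1, hC⟩ := PP_bound
  obtain ⟨D, hD0, hD⟩ := eh_decay hB (12 * 2 ^ J + 2)
  have hb3 := hb.three
  have hb1 : (1 : ℝ) ≤ b := by exact_mod_cast (by omega : 1 ≤ b)
  have hb2 : (2 : ℝ) ≤ b := by exact_mod_cast (by omega : 2 ≤ b)
  have hC0 : 0 ≤ C := by linarith
  set K : ℝ := Real.pi * D * C * (b : ℝ) ^ (9 * 2 ^ J) / ε with hK
  obtain ⟨n₀, hn₀⟩ := pow_unbounded_of_one_lt K (by norm_num : (1 : ℝ) < 2)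
  refine ⟨n₀ + 1, fun w hw k _ => ?_⟩
  set m : ℕ := 2 ^ J * w with hm
  have hJ1 : 1 ≤ 2 ^ J := Nat.one_le_two_pow
  have hm1 : 1 ≤ m := Nat.one_le_iff_ne_zero.2 (by
    rw [hm]; exact Nat.mul_ne_zero (by omega) (by omega))
  have hq : (0 : ℝ) < (b : ℝ) ^ m := by positivity
  set R : ℝ := (RR b p m (Fr J w)).card * (b : ℝ) ^ (k - 1) with hR
  have hR0 : 0 ≤ R := by positivity
  set Y : ℝ := (b : ℝ) ^ (w / 4) with hY
  have hY1 : 1 ≤ Y := one_le_pow₀ hb1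
  set A : ℝ := D * C * R * (Y ^ (12 * 2 ^ J))⁻¹ with hA
  have hA0 : 0 ≤ A := by positivity
  have hint : Integrable fun t : ℝ => A * (1 + (t / (b : ℝ) ^ m) ^ 2)⁻¹ :=
    (integrable_inv_one_add_sq.comp_div hq.ne').const_mul A
  have hone : ∀ χ : DirichletCharacter ℂ (b ^ m),
      ∫ t in {t : ℝ | (b : ℝ) ^ (m + w / 4) < |t|}, ‖itg b p m k (Fr J w) V η χ t‖ ≤
        A * ((b : ℝ) ^ m * Real.pi) := by
    intro χ
    have hmeas : MeasurableSet {t : ℝ | (b : ℝ) ^ (m + w / 4) < |t|} :=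
      measurableSet_lt measurable_const measurable_id.abs
    calc ∫ t in {t : ℝ | (b : ℝ) ^ (m + w / 4) < |t|}, ‖itg b p m k (Fr J w) V η χ t‖
        ≤ ∫ t in {t : ℝ | (b : ℝ) ^ (m + w / 4) < |t|}, A * (1 + (t / (b : ℝ) ^ m) ^ 2)⁻¹ := by
          refine integral_mono_of_nonneg (Filter.Eventually.of_forall fun t => norm_nonneg _)
            hint.integrableOn ?_
          refine (ae_restrict_iff' hmeas).2 (Filter.Eventually.of_forall fun t ht => ?_)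
          refine at_itg (V₀ := V₀) hb hm1 (Fr J w) hV hC hC0 hD hD0 χ hY1 ?_
          have ht' : (b : ℝ) ^ (m + w / 4) < |t| := ht
          rw [pow_add, mul_comm] at ht'
          exact ht'.le
      _ ≤ ∫ t : ℝ, A * (1 + (t / (b : ℝ) ^ m) ^ 2)⁻¹ :=
          setIntegral_le_integral hint (Filter.Eventually.of_forall fun t => by
            show 0 ≤ A * (1 + (t / (b : ℝ) ^ m) ^ 2)⁻¹
            positivity)
      _ = A * ((b : ℝ) ^ m * Real.pi) := by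
          rw [integral_const_mul, Measure.integral_comp_div (fun s : ℝ => (1 + s ^ 2)⁻¹),
            integral_univ_inv_one_add_sq, abs_of_pos hq, smul_eq_mul]
  have hbm1 : 1 ≤ b ^ m := Nat.one_le_pow _ _ (by omega)
  have hcard : (Fintype.card (DirichletCharacter ℂ (b ^ m)) : ℝ) ≤ (b : ℝ) ^ m := by
    have := card_char_le hbm1
    push_cast at this
    exact this
  have hkey : (b : ℝ) ^ m * (b : ℝ) ^ m * (Y ^ (12 * 2 ^ J))⁻¹ ≤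
      (b : ℝ) ^ (9 * 2 ^ J) * ((2 : ℝ) ^ n₀)⁻¹ := by
    have h1 : (b : ℝ) ^ m * (b : ℝ) ^ m * (b : ℝ) ^ m ≤
        (b : ℝ) ^ (9 * 2 ^ J) * Y ^ (12 * 2 ^ J) := by
      rw [hY, ← pow_mul, ← pow_add, ← pow_add, ← pow_add]
      refine pow_le_pow_right₀ hb1 ?_
      have h2 : w ≤ 4 * (w / 4) + 3 := by omega
      have h3 : 2 ^ J * w * 3 ≤ 2 ^ J * (4 * (w / 4) + 3) * 3 :=
        Nat.mul_le_mul_right _ (Nat.mul_le_mul_left _ h2)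
      calc m + m + m = 2 ^ J * w * 3 := by rw [hm]; ring
        _ ≤ 2 ^ J * (4 * (w / 4) + 3) * 3 := h3
        _ = _ := by ring
    have h2 : (2 : ℝ) ^ n₀ ≤ (b : ℝ) ^ m := by
      calc (2 : ℝ) ^ n₀ ≤ (b : ℝ) ^ n₀ := pow_le_pow_left₀ (by norm_num) hb2 _
        _ ≤ (b : ℝ) ^ m := by
          refine pow_le_pow_right₀ hb1 ?_
          rw [hm]
          calc n₀ ≤ w := by omega
            _ = 1 * w := (one_mul _).symm
            _ ≤ 2 ^ J * w := Nat.mul_le_mul_right _ hJ1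
    rw [← div_eq_mul_inv, ← div_eq_mul_inv, div_le_div_iff₀ (by positivity) (by positivity)]
    calc (b : ℝ) ^ m * (b : ℝ) ^ m * (2 : ℝ) ^ n₀ ≤ (b : ℝ) ^ m * (b : ℝ) ^ m * (b : ℝ) ^ m :=
          mul_le_mul_of_nonneg_left h2 (by positivity)
      _ ≤ _ := h1
  calc ∑ χ : DirichletCharacter ℂ (b ^ m),
        ∫ t in {t : ℝ | (b : ℝ) ^ (m + w / 4) < |t|}, ‖itg b p m k (Fr J w) V η χ t‖
      ≤ ∑ _χ : DirichletCharacter ℂ (b ^ m), A * ((b : ℝ) ^ m * Real.pi) :=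
        Finset.sum_le_sum fun χ _ => hone χ
    _ = Fintype.card (DirichletCharacter ℂ (b ^ m)) * (A * ((b : ℝ) ^ m * Real.pi)) := by
        rw [Finset.sum_const, Finset.card_univ, nsmul_eq_mul]
    _ ≤ (b : ℝ) ^ m * (A * ((b : ℝ) ^ m * Real.pi)) :=
        mul_le_mul_of_nonneg_right hcard (by positivity)
    _ = Real.pi * D * C * R * ((b : ℝ) ^ m * (b : ℝ) ^ m * (Y ^ (12 * 2 ^ J))⁻¹) := by
        rw [hA]; ring
    _ ≤ Real.pi * D * C * R * ((b : ℝ) ^ (9 * 2 ^ J) * ((2 : ℝ) ^ n₀)⁻¹) :=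
        mul_le_mul_of_nonneg_left hkey (by positivity)
    _ = R * ((K * ε) * ((2 : ℝ) ^ n₀)⁻¹) := by
        rw [hK, div_mul_cancel₀ _ hε.ne']; ring
    _ ≤ R * ε := by
        refine mul_le_mul_of_nonneg_left ?_ hR0
        have h2 : (0 : ℝ) < 2 ^ n₀ := by positivity
        rw [← div_eq_mul_inv, div_le_iff₀ h2]
        nlinarith
    _ = ε * R := mul_comm _ _

end Pool.Agent.HPP
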