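import Pool.Agent.HPP.AExp
import Pool.Agent.HPP.AInv

set_option autoImplicit false

/-!
# HPP/AMain : the main term (A5) (helper14)

PROOF of `main_tendsto`. `m = 2^J w`, `q = b^m`, `x = b^(k-1)`, `F = Fr J w` (so `F ⊆ Ico 1 m`, `Ico 1 w ⊆ F` because `0 ∈ Bk J`), `V y = V₀ (y - p)`.
The filter `lw J` is countably generated; dominated convergence (`tendsto_integral_filter_of_dominated_convergence`) for
`f_(w,k)(t) = 1[|t| < b^(w/3)] ∑_{χ factors through b} itg … χ t / (|RR| x)` on the line (the sum of the set integrals is the integral of the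
sum of the indicator functions; every term is integrable by `itg_integrable`).
By `SmProp` (`Lipschitz` constant `K` of `V₀` from `lip`) for these `χ`: `cc = conj (χ p) (b^(m-1))^{-it} |RR| II(t) + E_χ`,
`‖E_χ‖ ≤ C (1+K)(1+|t|) b^2 b^{-w} |RR|`. So `f_(w,k)(t) = 1[…] (eh η (t/q) II(t) BR b p t x + E(t))`, because
`(b^(k-m))^{-it} (b^(m-1))^{-it} = (b^(k-1))^{-it}` (`m ≥ 1`, `k ≥ m`; `Complex.natCast_mul_natCast_cpow` or `mul_cpow_ofReal_nonneg`) and `sum_char_PP`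
(`p.Coprime b`: `p` prime, `b/2 < p < b`), and `‖E(t)‖ ≤ b (1/2) C (1+K) (1+|t|) b^2 b^{-w} C'` (`card_fac`, `eh_le`, `PP_bound`).
POINTWISE LIMIT for fixed `t`: `b^(w/3) → ∞`, `t/q → 0` (`eh_continuous`), `BR b p t x → GG t` (`pnt_gauss`, `x → ∞` along `lw J` since `k ≥ 2·2^J w ≥ w`), `E(t) → 0`:
limit `eh η 0 * (II t * GG t)`. MAJORANT: `‖eh‖ ≤ 1/2`, `II_decay`, `bracket_le`: `C/(1+t^2)`; for `E`: on `|t| < b^(w/3)` we have `b^{-w} ≤ min 1 (|t|^{-3})`, so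
`(1+|t|) b^{-w} ≤ (1+|t|) · 2/(1+|t|^3) ≤ 8/(1+t^2)`. Both are integrable (`integrable_inv_one_add_sq`).
-/

namespace Pool.Agent.HPP

open Complex MeasureTheory Filter Topology

/-- `w → ∞`, uniformly in `k ≥ 2·2^J w` -/
def lw (J : ℕ) : Filter (ℕ × ℕ) :=
  (atTop : Filter ℕ).comap (fun u : ℕ × ℕ => u.1) ⊓ 𝓟 {u : ℕ × ℕ | 2 * (2 ^ J * u.1) ≤ u.2}

instance (J : ℕ) : (lw J).IsCountablyGenerated := by
  unfold lw; infer_instance

theorem eventually_lw {J : ℕ} {P : ℕ × ℕ → Prop} : (∀ᶠ u in lw J, P u) ↔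
    ∃ w₀ : ℕ, ∀ w, w₀ ≤ w → ∀ k, 2 * (2 ^ J * w) ≤ k → P (w, k) := by
  unfold lw
  rw [Filter.eventually_inf_principal, Filter.eventually_comap, Filter.eventually_atTop]
  constructor
  · rintro ⟨w₀, h⟩
    exact ⟨w₀, fun w hw k hk => h w hw (w, k) rfl hk⟩
  · rintro ⟨w₀, h⟩
    refine ⟨w₀, fun w hw u hu hk => ?_⟩
    obtain ⟨w', k⟩ := u
    simp only at hu
    subst hu
    exact h _ hw k hk

open Classical in
/-- the main part -/
noncomputable def Mn (b p J w k : ℕ) (V η : ℝ → ℝ) : ℂ :=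
  ∑ χ ∈ (Finset.univ : Finset (DirichletCharacter ℂ (b ^ (2 ^ J * w)))).filter
      (fun χ => χ.FactorsThrough b),
    ∫ t in {t : ℝ | |t| < (b : ℝ) ^ ((w : ℝ) / 3)}, itg b p (2 ^ J * w) k (Fr J w) V η χ t

private theorem am_RR_pos {b p m : ℕ} (hb : Bas b p) (F : Finset ℕ) : 0 < (RR b p m F).card := by
  rw [Finset.card_pos]
  unfold RR
  rw [Fintype.piFinset_nonempty]
  intro i
  have h3 := hb.three
  unfold Sd
  split_ifs
  · exact Finset.singleton_nonempty _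
  · exact ⟨(0, 0), by simp; omega⟩
  · refine Finset.Nonempty.image ⟨0, ?_⟩ _
    rw [Finset.mem_range]; omega

private theorem am_coprime {b p : ℕ} (hb : Bas b p) : p.Coprime b := by
  rw [Nat.Prime.coprime_iff_not_dvd hb.prime]
  rintro ⟨c, hc⟩
  have h1 := hb.lt
  have h2 := hb.gt
  rcases c with _ | _ | c
  · omega
  · omega
  · nlinarith [hb.prime.pos]

private theorem am_norm_cpow {n : ℕ} (hn : 0 < n) (t : ℝ) : ‖(n : ℂ) ^ (-(t * I))‖ = 1 := by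
  rw [Complex.norm_natCast_cpow_of_pos hn]
  simp

open Classical in
/-- the integrand near the main term, for one `t` -/
private theorem core {η V₀ : ℝ → ℝ} {b p m k : ℕ} (hb : Bas b p) (hm : 1 ≤ m) (hk : m ≤ k)
    {F : Finset ℕ} (hB : Bp V₀ η) {t C₁ C' : ℝ} (hC₁ : 0 ≤ C₁) (hC' : 0 ≤ C')
    (hcc : ∀ χ : DirichletCharacter ℂ (b ^ m), χ.FactorsThrough b →
      ‖cc b p F (fun y => V₀ (y - p)) χ t - (starRingEnd ℂ) (χ (p : ZMod (b ^ m))) *
        ((b : ℂ) ^ (m - 1)) ^ (-(t * I)) * (RR b p m F).card * II V₀ p t‖ ≤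
        C₁ * (RR b p m F).card)
    (hPP : ∀ χ : DirichletCharacter ℂ (b ^ m),
      ‖PP χ t ((b : ℝ) ^ (k - 1))‖ ≤ C' * (b : ℝ) ^ (k - 1)) :
    ‖(∑ χ ∈ (Finset.univ : Finset (DirichletCharacter ℂ (b ^ m))).filter
      (fun χ => χ.FactorsThrough b), itg b p m k F (fun y => V₀ (y - p)) η χ t) /
      (((RR b p m F).card : ℂ) * (b : ℂ) ^ (k - 1)) -
      eh η (t / (b : ℝ) ^ m) * II V₀ p t * BR b (p : ZMod b) t ((b : ℝ) ^ (k - 1))‖ ≤
      1 / 2 * (b * (C₁ * C')) := by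
  have hb3 := hb.three
  haveI : NeZero b := ⟨by omega⟩
  have hR0 : (0 : ℝ) < (RR b p m F).card := by exact_mod_cast am_RR_pos hb F
  have hx0 : (0 : ℝ) < (b : ℝ) ^ (k - 1) := pow_pos (by exact_mod_cast (by omega : 0 < b)) _
  set Rr : ℝ := ((RR b p m F).card : ℝ) with hRr
  set x : ℝ := (b : ℝ) ^ (k - 1) with hx
  have hRc : ((RR b p m F).card : ℂ) = (Rr : ℂ) := by rw [hRr]; push_cast; rfl
  have hxc : (b : ℂ) ^ (k - 1) = (x : ℂ) := by rw [hx]; push_cast; rfl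
  have hRc0 : (Rr : ℂ) ≠ 0 := by exact_mod_cast hR0.ne'
  have hxc0 : (x : ℂ) ≠ 0 := by exact_mod_cast hx0.ne'
  set Fa := (Finset.univ : Finset (DirichletCharacter ℂ (b ^ m))).filter
      (fun χ => χ.FactorsThrough b) with hFa
  set e : ℂ := eh η (t / (b : ℝ) ^ m) with he
  set z1 : ℂ := ((b : ℂ) ^ (k - m)) ^ (-(t * I)) with hz1
  set z2 : ℂ := ((b : ℂ) ^ (m - 1)) ^ (-(t * I)) with hz2
  have hz12 : z1 * z2 = (x : ℂ) ^ (-(t * I)) := by
    rw [hz1, hz2, ← hxc]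
    have h1 := Complex.natCast_mul_natCast_cpow (b ^ (k - m)) (b ^ (m - 1)) (-(t * I))
    push_cast at h1
    rw [← h1, ← pow_add, show k - m + (m - 1) = k - 1 by omega]
  have hz1n : ‖z1‖ = 1 := by
    rw [hz1]
    have h1 := am_norm_cpow (n := b ^ (k - m)) (pow_pos (by omega) _) t
    push_cast at h1
    exact h1
  set Q : ℂ := (b.totient : ℂ) * ∑' n : ℕ,
    (ArithmeticFunction.vonMangoldt.residueClass (p : ZMod b) n : ℂ) * (n : ℂ) ^ (t * I) *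
        (Real.exp (-(Real.log (n / x)) ^ 2) : ℂ) with hQ
  have hsum : ∑ χ ∈ Fa, (starRingEnd ℂ) (χ (p : ZMod (b ^ m))) * PP χ t x = Q := by
    rw [hFa, hQ]
    exact sum_char_PP hm (am_coprime hb) t hx0
  have hBR : BR b (p : ZMod b) t x = (x : ℂ)⁻¹ * (x : ℂ) ^ (-(t * I)) * Q := rfl
  set En : DirichletCharacter ℂ (b ^ m) → ℂ := fun χ =>
    cc b p F (fun y => V₀ (y - p)) χ t - (starRingEnd ℂ) (χ (p : ZMod (b ^ m))) * z2 *
      (Rr : ℂ) * II V₀ p t with hEn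
  have hitg : ∀ χ, itg b p m k F (fun y => V₀ (y - p)) η χ t = e * z1 *
      ((En χ + (starRingEnd ℂ) (χ (p : ZMod (b ^ m))) * z2 * (Rr : ℂ) * II V₀ p t) *
        PP χ t x) := by
    intro χ
    rw [hEn]
    simp only [sub_add_cancel]
    rfl
  have hmain : (∑ χ ∈ Fa, itg b p m k F (fun y => V₀ (y - p)) η χ t) / ((Rr : ℂ) * (x : ℂ)) -
      e * II V₀ p t * BR b (p : ZMod b) t x =
      e * z1 * (∑ χ ∈ Fa, En χ * PP χ t x) / ((Rr : ℂ) * (x : ℂ)) := by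
    have h1 : ∑ χ ∈ Fa, itg b p m k F (fun y => V₀ (y - p)) η χ t =
        e * z1 * (∑ χ ∈ Fa, En χ * PP χ t x) + e * (z1 * z2) * (Rr : ℂ) * II V₀ p t * Q := by
      rw [← hsum, Finset.mul_sum, Finset.mul_sum, ← Finset.sum_add_distrib]
      refine Finset.sum_congr rfl fun χ _ => ?_
      rw [hitg χ]
      ring
    rw [h1, hBR, hz12]
    field_simp
    ring
  rw [hRc, hxc, hmain]
  have hEnn : ∀ χ ∈ Fa, ‖En χ * PP χ t x‖ ≤ (C₁ * Rr) * (C' * x) := by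
    intro χ hχ
    rw [norm_mul]
    refine mul_le_mul ?_ (hPP χ) (norm_nonneg _) (mul_nonneg hC₁ hR0.le)
    have h1 := hcc χ (Finset.mem_filter.1 hχ).2
    rw [hRc] at h1
    exact h1
  have hcard : (Fa.card : ℝ) ≤ b := by
    have h1 := card_fac (b := b) (m := m) hm
    exact_mod_cast h1
  have hS : ‖∑ χ ∈ Fa, En χ * PP χ t x‖ ≤ b * ((C₁ * Rr) * (C' * x)) := by
    refine (norm_sum_le _ _).trans ((Finset.sum_le_sum hEnn).trans ?_)
    rw [Finset.sum_const, nsmul_eq_mul]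
    exact mul_le_mul_of_nonneg_right hcard
      (mul_nonneg (mul_nonneg hC₁ hR0.le) (mul_nonneg hC' hx0.le))
  have he2 : ‖e‖ ≤ 1 / 2 := eh_le hB _
  rw [norm_div, norm_mul, norm_mul, hz1n, mul_one, norm_mul, Complex.norm_real, Complex.norm_real,
    Real.norm_of_nonneg hR0.le, Real.norm_of_nonneg hx0.le, div_le_iff₀ (mul_pos hR0 hx0)]
  calc ‖e‖ * ‖∑ χ ∈ Fa, En χ * PP χ t x‖ ≤ 1 / 2 * (b * ((C₁ * Rr) * (C' * x))) :=
        mul_le_mul he2 hS (norm_nonneg _) (by norm_num)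
    _ = 1 / 2 * (b * (C₁ * C')) * (Rr * x) := by ring

private theorem tendsto_fst (J : ℕ) : Tendsto (fun u : ℕ × ℕ => u.1) (lw J) atTop := by
  unfold lw
  exact tendsto_comap.mono_left inf_le_left

private theorem tendsto_snd (J : ℕ) : Tendsto (fun u : ℕ × ℕ => u.2 - 1) (lw J) atTop := by
  rw [tendsto_atTop]
  intro K
  rw [eventually_lw]
  refine ⟨K + 1, fun w hw k hk => ?_⟩
  simp only
  have h1 : w ≤ 2 ^ J * w := Nat.le_mul_of_pos_left w (pow_pos (by norm_num) J)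
  omega

private theorem bd_aux {w : ℕ} {b t : ℝ} (hb : 1 ≤ b) (ht : |t| < b ^ ((w : ℝ) / 3)) :
    (1 + |t|) * (b ^ w)⁻¹ ≤ 4 / (1 + t ^ 2) := by
  have h0 := abs_nonneg t
  have hb0 : 0 < b := by linarith
  have hw1 : (1 : ℝ) ≤ b ^ w := one_le_pow₀ hb
  have h3 : |t| ^ 3 ≤ b ^ w := by
    have h4 : (b ^ ((w : ℝ) / 3)) ^ 3 = b ^ w := by
      rw [← Real.rpow_natCast (b ^ ((w : ℝ) / 3)) 3, ← Real.rpow_mul hb0.le, ← Real.rpow_natCast b w]
      congr 1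
      push_cast
      ring
    rw [← h4]
    exact pow_le_pow_left₀ h0 ht.le 3
  rw [← div_eq_mul_inv, div_le_div_iff₀ (by linarith) (by positivity), ← sq_abs t]
  rcases le_or_gt |t| 1 with h1 | h1
  · have h5 : |t| ^ 2 ≤ 1 := pow_le_one₀ h0 h1
    nlinarith
  · have h5 : |t| ^ 2 ≥ 1 := one_le_pow₀ h1.le
    have h6 : (1 + |t|) * (1 + |t| ^ 2) ≤ 4 * |t| ^ 3 := by nlinarith [sq_nonneg (|t| - 1)]
    linarith

theorem main_tendsto (hS : SmProp) {V₀ η : ℝ → ℝ} (hB : Bp V₀ η) {b p : ℕ} (hb : Bas b p)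
    (J : ℕ) : Tendsto (fun u : ℕ × ℕ => Mn b p J u.1 u.2 (fun y => V₀ (y - p)) η /
      (((RR b p (2 ^ J * u.1) (Fr J u.1)).card : ℂ) * (b : ℂ) ^ (u.2 - 1))) (lw J)
    (𝓝 (eh η 0 * ∫ t : ℝ, II V₀ p t * GG t)) := by
  classical
  have hb3 := hb.three
  haveI : NeZero b := ⟨by omega⟩
  have hb1 : (1 : ℝ) ≤ b := by exact_mod_cast (by omega : 1 ≤ b)
  have hb1' : (1 : ℝ) < b := by exact_mod_cast (by omega : 1 < b)
  have hp1 : 1 ≤ p := hb.prime.pos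
  obtain ⟨C, hC1, hC⟩ := hS
  obtain ⟨K, hK0, hK⟩ := lip hB
  obtain ⟨C', hC'1, hC'⟩ := PP_bound
  obtain ⟨C₂, hC₂0, hC₂⟩ := II_decay hB hp1
  obtain ⟨C₃, hC₃1, hC₃⟩ := bracket_le b
  have hV : ∀ y : ℝ, 0 ≤ V₀ (y - p) ∧ V₀ (y - p) ≤ 1 := fun y => hB.V_range _
  have hK' : ∀ y z : ℝ, |V₀ (y - p) - V₀ (z - p)| ≤ K * |y - z| := by
    intro y z
    have h1 := hK (y - p) (z - p)
    rwa [sub_sub_sub_cancel_right] at h1
  have hF : ∀ w, Fr J w ⊆ Finset.Ico 1 (2 ^ J * w) := fun w => Finset.filter_subset _ _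
  have hwm : ∀ w, w ≤ 2 ^ J * w := fun w => Nat.le_mul_of_pos_left w (pow_pos (by norm_num) J)
  have hF1 : ∀ w, Finset.Ico 1 w ⊆ Fr J w := by
    intro w i hi
    rw [Finset.mem_Ico] at hi
    unfold Fr
    rw [Finset.mem_filter, Finset.mem_Ico]
    refine ⟨⟨hi.1, lt_of_lt_of_le hi.2 (hwm w)⟩, ?_⟩
    rw [Nat.div_eq_of_lt hi.2]
    unfold Bk
    simp
  -- the functions
  set Fs : ℕ × ℕ → ℝ → ℂ := fun u t => (∑ χ ∈ (Finset.univ :
      Finset (DirichletCharacter ℂ (b ^ (2 ^ J * u.1)))).filter (fun χ => χ.FactorsThrough b),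
      itg b p (2 ^ J * u.1) u.2 (Fr J u.1) (fun y => V₀ (y - p)) η χ t) /
      (((RR b p (2 ^ J * u.1) (Fr J u.1)).card : ℂ) * (b : ℂ) ^ (u.2 - 1)) with hFs
  set St : ℕ × ℕ → Set ℝ := fun u => {t : ℝ | |t| < (b : ℝ) ^ ((u.1 : ℝ) / 3)} with hSt
  have hStm : ∀ u, MeasurableSet (St u) := fun u =>
    measurableSet_lt measurable_norm measurable_const
  set D : ℝ := 1 / 2 * (b * ((C * (1 + K) * b ^ 2) * C')) with hD
  have hD0 : 0 ≤ D := by rw [hD]; positivity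
  -- the estimate
  have hest : ∀ w, 1 ≤ w → ∀ k, 2 * (2 ^ J * w) ≤ k → ∀ t : ℝ,
      ‖Fs (w, k) t - eh η (t / (b : ℝ) ^ (2 ^ J * w)) * II V₀ p t *
        BR b (p : ZMod b) t ((b : ℝ) ^ (k - 1))‖ ≤ D * ((1 + |t|) * ((b : ℝ) ^ w)⁻¹) := by
    intro w hw k hk t
    have hm : 1 ≤ 2 ^ J * w := le_trans hw (hwm w)
    have h1 := core (η := η) (V₀ := V₀) (t := t) (k := k) hb hm (by omega) (F := Fr J w) hB
      (C₁ := C * (1 + K) * (1 + |t|) * b ^ 2 * ((b : ℝ) ^ w)⁻¹) (C' := C') (by positivity)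
      (by linarith)
      (fun χ hχ => hC b p (2 ^ J * w) w (Fr J w) (fun y => V₀ (y - p)) K hb (hF w) hV hK0 hK' hw
        (hwm w) (hF1 w) χ hχ t)
      (fun χ => hC' _ χ t _ (one_le_pow₀ hb1))
    refine h1.trans (le_of_eq ?_)
    rw [hD]
    ring
  have hint : ∀ w, 1 ≤ w → ∀ k, ∀ χ : DirichletCharacter ℂ (b ^ (2 ^ J * w)),
      Integrable (itg b p (2 ^ J * w) k (Fr J w) (fun y => V₀ (y - p)) η χ) := fun w hw k χ =>
    itg_integrable hB hb (le_trans hw (hwm w)) (Fr J w) (hF w) hV χ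
  -- the quotient as an integral
  have hMn : ∀ w, 1 ≤ w → ∀ k, Mn b p J w k (fun y => V₀ (y - p)) η /
      (((RR b p (2 ^ J * w) (Fr J w)).card : ℂ) * (b : ℂ) ^ (k - 1)) =
      ∫ t : ℝ, (St (w, k)).indicator (Fs (w, k)) t := by
    intro w hw k
    rw [integral_indicator (hStm _), hFs]
    simp only
    rw [integral_div, integral_finsetSum _ fun χ _ => (hint w hw k χ).integrableOn]
    rfl
  have hev : ∀ᶠ u in lw J, (∫ t : ℝ, (St u).indicator (Fs u) t) =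
      Mn b p J u.1 u.2 (fun y => V₀ (y - p)) η /
      (((RR b p (2 ^ J * u.1) (Fr J u.1)).card : ℂ) * (b : ℂ) ^ (u.2 - 1)) := by
    rw [eventually_lw]
    exact ⟨1, fun w hw k _ => (hMn w hw k).symm⟩
  refine Tendsto.congr' hev ?_
  have hlim : (eh η 0 * ∫ t : ℝ, II V₀ p t * GG t) = ∫ t : ℝ, eh η 0 * (II V₀ p t * GG t) :=
    (integral_const_mul _ _).symm
  rw [hlim]
  refine tendsto_integral_filter_of_dominated_convergence
    (fun t => (1 / 2 * C₂ * C₃ + 4 * D) * (1 + t ^ 2)⁻¹) ?_ ?_ ?_ ?_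
  · rw [eventually_lw]
    refine ⟨1, fun w hw k _ => ?_⟩
    refine AEStronglyMeasurable.indicator ?_ (hStm _)
    rw [hFs]
    exact ((integrable_finsetSum _ fun χ _ => hint w hw k χ).div_const _).aestronglyMeasurable
  · rw [eventually_lw]
    refine ⟨1, fun w hw k hk => Filter.Eventually.of_forall fun t => ?_⟩
    by_cases ht : t ∈ St (w, k)
    · rw [Set.indicator_of_mem ht]
      have h1 := hest w hw k hk t
      have h2 : ‖eh η (t / (b : ℝ) ^ (2 ^ J * w)) * II V₀ p t *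
          BR b (p : ZMod b) t ((b : ℝ) ^ (k - 1))‖ ≤ 1 / 2 * (C₂ / (1 + t ^ 2)) * C₃ := by
        rw [norm_mul, norm_mul]
        refine mul_le_mul (mul_le_mul (eh_le hB _) (hC₂ t) (norm_nonneg _) (by norm_num))
          (hC₃ _ t _ (one_le_pow₀ hb1)) (norm_nonneg _) (by positivity)
      have h3 := bd_aux (w := w) hb1 ht
      calc ‖Fs (w, k) t‖ ≤ ‖Fs (w, k) t - eh η (t / (b : ℝ) ^ (2 ^ J * w)) * II V₀ p t *
            BR b (p : ZMod b) t ((b : ℝ) ^ (k - 1))‖ + ‖eh η (t / (b : ℝ) ^ (2 ^ J * w)) *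
            II V₀ p t * BR b (p : ZMod b) t ((b : ℝ) ^ (k - 1))‖ := norm_le_norm_sub_add _ _
        _ ≤ D * ((1 + |t|) * ((b : ℝ) ^ w)⁻¹) + 1 / 2 * (C₂ / (1 + t ^ 2)) * C₃ :=
            add_le_add h1 h2
        _ ≤ D * (4 / (1 + t ^ 2)) + 1 / 2 * (C₂ / (1 + t ^ 2)) * C₃ := by
            gcongr
        _ = (1 / 2 * C₂ * C₃ + 4 * D) * (1 + t ^ 2)⁻¹ := by ring
    · rw [Set.indicator_of_notMem ht, norm_zero]
      positivity
  · exact integrable_inv_one_add_sq.const_mul _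
  · refine Filter.Eventually.of_forall fun t => ?_
    have hpow : Tendsto (fun u : ℕ × ℕ => ((b : ℝ) ^ u.1)) (lw J) atTop :=
      (tendsto_pow_atTop_atTop_of_one_lt hb1').comp (tendsto_fst J)
    have hx : Tendsto (fun u : ℕ × ℕ => ((b : ℝ) ^ (u.2 - 1))) (lw J) atTop :=
      (tendsto_pow_atTop_atTop_of_one_lt hb1').comp (tendsto_snd J)
    have hBRt : Tendsto (fun u : ℕ × ℕ => BR b (p : ZMod b) t ((b : ℝ) ^ (u.2 - 1))) (lw J)
        (𝓝 (GG t)) :=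
      (pnt_gauss b ((ZMod.isUnit_iff_coprime p b).2 (am_coprime hb)) t).comp hx
    have hm : Tendsto (fun u : ℕ × ℕ => ((b : ℝ) ^ (2 ^ J * u.1))) (lw J) atTop := by
      refine tendsto_atTop_mono (fun u => ?_) hpow
      exact pow_le_pow_right₀ hb1 (hwm u.1)
    have heh : Tendsto (fun u : ℕ × ℕ => eh η (t / (b : ℝ) ^ (2 ^ J * u.1))) (lw J)
        (𝓝 (eh η 0)) := by
      refine ((eh_continuous hB).tendsto 0).comp ?_
      exact Tendsto.div_atTop tendsto_const_nhds hm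
    have hmt : Tendsto (fun u : ℕ × ℕ => eh η (t / (b : ℝ) ^ (2 ^ J * u.1)) * II V₀ p t *
        BR b (p : ZMod b) t ((b : ℝ) ^ (u.2 - 1))) (lw J) (𝓝 (eh η 0 * II V₀ p t * GG t)) :=
      (heh.mul_const _).mul hBRt
    have herr : Tendsto (fun u : ℕ × ℕ => D * ((1 + |t|) * ((b : ℝ) ^ u.1)⁻¹)) (lw J) (𝓝 0) := by
      have h1 : Tendsto (fun u : ℕ × ℕ => ((b : ℝ) ^ u.1)⁻¹) (lw J) (𝓝 0) :=
        tendsto_inv_atTop_zero.comp hpow
      have h2 := (h1.const_mul (1 + |t|)).const_mul D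
      simpa using h2
    have hdiff : Tendsto (fun u : ℕ × ℕ => Fs u t - eh η (t / (b : ℝ) ^ (2 ^ J * u.1)) *
        II V₀ p t * BR b (p : ZMod b) t ((b : ℝ) ^ (u.2 - 1))) (lw J) (𝓝 0) := by
      refine squeeze_zero_norm' ?_ herr
      rw [eventually_lw]
      exact ⟨1, fun w hw k hk => hest w hw k hk t⟩
    have hFt : Tendsto (fun u : ℕ × ℕ => Fs u t) (lw J) (𝓝 (eh η 0 * (II V₀ p t * GG t))) := by
      have h1 := hdiff.add hmt
      simp only [sub_add_cancel, zero_add] at h1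
      rw [← mul_assoc]
      exact h1
    refine Tendsto.congr' ?_ hFt
    have hpow3 : Tendsto (fun u : ℕ × ℕ => ((b : ℝ) ^ ((u.1 : ℝ) / 3))) (lw J) atTop := by
      have h1 : Tendsto (fun u : ℕ × ℕ => ((u.1 : ℝ) / 3)) (lw J) atTop :=
        (tendsto_natCast_atTop_atTop.comp (tendsto_fst J)).atTop_div_const (by norm_num)
      have h2 : Tendsto (fun y : ℝ => (b : ℝ) ^ y) atTop atTop :=
        tendsto_rpow_atTop_of_base_gt_one _ hb1'
      exact h2.comp h1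
    filter_upwards [hpow3.eventually_gt_atTop |t|] with u hu
    exact (Set.indicator_of_mem (s := St u) hu _).symm

end Pool.Agent.HPP
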