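import Pool.Agent.HPP.DFib

/-! # HPP/DChr: characters modulo `b ^ m` of level `b ^ m'` on blocks -/

namespace Pool.Agent.HPP

variable {b m m' i₀ : ℕ} {χ : DirichletCharacter ℂ (b ^ m)}

/-- the value depends only on the residue modulo the level -/
lemma chi_congr (hb : 2 ≤ b) (hm' : 1 ≤ m') (h : χ.FactorsThrough (b ^ m')) {x y : ℕ}
    (hxy : x ≡ y [MOD b ^ m']) : χ (x : ZMod (b ^ m)) = χ (y : ZMod (b ^ m)) := by
  obtain ⟨hd, χ₀, rfl⟩ := h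
  have hmm : m' ≤ m := (Nat.pow_dvd_pow_iff_le_right hb).1 hd
  have hbd : b ∣ b ^ m' := dvd_pow_self b (by omega)
  have hc : x.Coprime b ↔ y.Coprime b := by
    have := hxy.of_dvd hbd
    have e := Nat.ModEq.gcd_eq this
    unfold Nat.Coprime
    rw [e]
  by_cases hx : x.Coprime b
  · have hy := hc.1 hx
    have h1 := DirichletCharacter.changeLevel_eq_cast_of_dvd χ₀ hd
      (ZMod.unitOfCoprime x (Nat.Coprime.pow_right m hx))
    have h2 := DirichletCharacter.changeLevel_eq_cast_of_dvd χ₀ hd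
      (ZMod.unitOfCoprime y (Nat.Coprime.pow_right m hy))
    simp only [ZMod.coe_unitOfCoprime, ZMod.cast_natCast hd] at h1 h2
    rw [h1, h2, (ZMod.natCast_eq_natCast_iff _ _ _).2 hxy]
  · have hy : ¬ y.Coprime b := fun h => hx (hc.2 h)
    have key : ∀ w : ℕ, ¬ w.Coprime b → ¬ IsUnit (w : ZMod (b ^ m)) := by
      intro w hw hu
      rw [ZMod.isUnit_iff_coprime] at hu
      exact hw (hu.coprime_dvd_right (dvd_pow_self b (by omega)))
    rw [MulChar.map_nonunit _ (key x hx), MulChar.map_nonunit _ (key y hy)]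

/-- additivity on `1 + b ^ i₀ ℤ` -/
lemma chi_add (hb : 2 ≤ b) (hm' : 1 ≤ m') (h : χ.FactorsThrough (b ^ m')) (hi : m' ≤ 2 * i₀)
    (y : ℕ) : χ ((1 + b ^ i₀ * y : ℕ) : ZMod (b ^ m)) =
      χ ((1 + b ^ i₀ : ℕ) : ZMod (b ^ m)) ^ y := by
  induction y with
  | zero => simp
  | succ y ih =>
    rw [pow_succ, ← ih, ← map_mul, ← Nat.cast_mul]
    refine chi_congr hb hm' h ?_
    have e : (1 + b ^ i₀ * y) * (1 + b ^ i₀) =
        1 + b ^ i₀ * (y + 1) + b ^ m' * (b ^ (2 * i₀ - m') * y) := by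
      have : b ^ (2 * i₀) = b ^ m' * b ^ (2 * i₀ - m') := by rw [← pow_add]; congr 1; omega
      rw [← mul_assoc, ← this, two_mul, pow_add]; ring
    rw [e]
    simp [Nat.ModEq]

lemma zeta_pow (hb : 2 ≤ b) (hm' : 1 ≤ m') (h : χ.FactorsThrough (b ^ m')) (hi : m' ≤ 2 * i₀)
    {y : ℕ} (hy : b ^ m' ∣ b ^ i₀ * y) : χ ((1 + b ^ i₀ : ℕ) : ZMod (b ^ m)) ^ y = 1 := by
  rw [← chi_add hb hm' h hi, chi_congr hb hm' h (y := 1) ?_]
  · simp
  · obtain ⟨c, hc⟩ := hy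
    rw [hc]; simp [Nat.ModEq]

lemma zeta_ne (hb : 2 ≤ b) (hm' : 2 ≤ m') (h : χ.FactorsThrough (b ^ m')) (hi : m' ≤ 2 * i₀)
    (hi2 : i₀ < m') (hn : ¬ χ.FactorsThrough (b ^ (m' - 1))) :
    χ ((1 + b ^ i₀ : ℕ) : ZMod (b ^ m)) ≠ 1 := by
  intro h1
  apply hn
  have hmm : m' ≤ m := (Nat.pow_dvd_pow_iff_le_right hb).1 h.dvd
  have : NeZero (b ^ m) := ⟨by positivity⟩
  have hd : b ^ (m' - 1) ∣ b ^ m := pow_dvd_pow b (by omega)
  rw [DirichletCharacter.factorsThrough_iff_ker_unitsMap hd]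
  intro u hu
  rw [MonoidHom.mem_ker, Units.ext_iff, ZMod.unitsMap_val, ← ZMod.natCast_val,
    Units.val_one] at hu
  replace hu : ((u : ZMod (b ^ m)).val : ZMod (b ^ (m' - 1))) =
    ((1 : ℕ) : ZMod (b ^ (m' - 1))) := by rw [hu, Nat.cast_one]
  rw [ZMod.natCast_eq_natCast_iff] at hu
  rw [MonoidHom.mem_ker, Units.ext_iff, MulChar.coe_toUnitHom, Units.val_one]
  set x := (u : ZMod (b ^ m)).val with hx
  have hux : (u : ZMod (b ^ m)) = ((x : ℕ) : ZMod (b ^ m)) := (ZMod.natCast_zmod_val _).symm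
  have h2 : 2 ≤ b ^ (m' - 1) := by
    calc 2 ≤ b := hb
      _ = b ^ 1 := (pow_one b).symm
      _ ≤ b ^ (m' - 1) := Nat.pow_le_pow_right (by omega) (by omega)
  have hx1 : 1 ≤ x := by
    rcases Nat.eq_zero_or_pos x with h0 | h0
    · exfalso
      rw [h0] at hu
      have : (0 : ℕ) % b ^ (m' - 1) = 1 % b ^ (m' - 1) := hu
      rw [Nat.zero_mod, Nat.mod_eq_of_lt (by omega : 1 < b ^ (m' - 1))] at this
      omega
    · exact h0
  obtain ⟨c, hc⟩ := (Nat.modEq_iff_dvd' hx1).1 hu.symm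
  have hxc : x = 1 + b ^ i₀ * (b ^ (m' - 1 - i₀) * c) := by
    rw [← mul_assoc, ← pow_add]
    have : i₀ + (m' - 1 - i₀) = m' - 1 := by omega
    rw [this]; omega
  rw [hux, hxc, chi_add hb (by omega) h hi, h1, one_pow]

lemma zeta_u_ne (hb : 2 ≤ b) (hm' : 2 ≤ m') (h : χ.FactorsThrough (b ^ m')) (hi : m' ≤ 2 * i₀)
    (hi2 : i₀ < m') (hn : ¬ χ.FactorsThrough (b ^ (m' - 1))) {u : ℕ} (hu : u.Coprime b) :
    χ ((1 + b ^ i₀ : ℕ) : ZMod (b ^ m)) ^ u ≠ 1 := by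
  intro h1
  apply zeta_ne hb hm' h hi hi2 hn
  have h2 : χ ((1 + b ^ i₀ : ℕ) : ZMod (b ^ m)) ^ (b ^ i₀) = 1 := by
    apply zeta_pow hb (by omega) h hi
    rw [← pow_add]
    exact pow_dvd_pow b (by omega)
  have h3 := orderOf_dvd_of_pow_eq_one h1
  have h4 := orderOf_dvd_of_pow_eq_one h2
  have h5 : (u.Coprime (b ^ i₀)) := Nat.Coprime.pow_right _ hu
  have h6 := Nat.dvd_gcd h3 h4
  rw [Nat.Coprime.gcd_eq_one h5, Nat.dvd_one] at h6
  exact orderOf_eq_one_iff.1 h6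

/-- value on a block -/
lemma chi_block (hb : 2 ≤ b) (hm' : 1 ≤ m') (h : χ.FactorsThrough (b ^ m')) (hi : m' ≤ 2 * i₀)
    {r u : ℕ} (hu : u * r ≡ 1 [MOD b ^ i₀]) (y : ℕ) :
    χ ((r + b ^ i₀ * y : ℕ) : ZMod (b ^ m)) =
      χ (r : ZMod (b ^ m)) * χ ((1 + b ^ i₀ : ℕ) : ZMod (b ^ m)) ^ (u * y) := by
  rw [← chi_add hb hm' h hi, ← map_mul, ← Nat.cast_mul]
  refine chi_congr hb hm' h ?_
  have h1 : r * (1 + b ^ i₀ * (u * y)) = r + b ^ i₀ * (u * r * y) := by ring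
  rw [h1]
  refine Nat.ModEq.add_left _ ?_
  have h2 : b ^ i₀ * (u * r * y) ≡ b ^ i₀ * (1 * y) [MOD b ^ i₀ * b ^ i₀] :=
    Nat.ModEq.mul_left' _ (hu.mul_right y)
  rw [one_mul] at h2
  refine (h2.of_dvd ?_).symm
  rw [← pow_add]
  exact pow_dvd_pow b (by omega)

lemma coprime_of_mod {p r : ℕ} (hB : Bas b p) (hr : r ≡ p [MOD b]) : r.Coprime b := by
  have h1 : p.Coprime b := by
    rw [Nat.Prime.coprime_iff_not_dvd hB.prime]
    rintro ⟨c, hc⟩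
    have := hB.lt
    have := hB.gt
    have h0 : 0 < p := hB.prime.pos
    rcases Nat.lt_or_ge c 2 with h | h
    · have : p * c ≤ p * 1 := Nat.mul_le_mul_left _ (by omega)
      omega
    · have : p * 2 ≤ p * c := Nat.mul_le_mul_left _ h
      omega
  unfold Nat.Coprime
  rw [Nat.ModEq.gcd_eq hr]
  exact h1

/-- existence of inverses -/
lemma exists_inv {r n : ℕ} (hn : 2 ≤ n) (h : r.Coprime n) :
    ∃ u, u < n ∧ u * r ≡ 1 [MOD n] := by
  obtain ⟨u, hu⟩ := Nat.exists_mul_mod_eq_one_of_coprime h (by omega)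
  refine ⟨u % n, Nat.mod_lt _ (by omega), ?_⟩
  have h1 : r * (u % n) ≡ r * u [MOD n] := Nat.ModEq.mul_left _ (Nat.mod_modEq _ _)
  have h2 : r * u ≡ 1 [MOD n] := by
    show r * u % n = 1 % n
    rw [hu.2, Nat.mod_eq_of_lt (by omega)]
  rw [mul_comm]
  exact h1.trans h2

end Pool.Agent.HPP
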