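import Pool.Agent.HPP.DPut

/-! # HPP/DFib: the number of patterns with given low (top) digits in the first positions -/

namespace Pool.Agent.HPP

variable {b p m i₀ l : ℕ} {F : Finset ℕ}

lemma half_le (hB : Bas b p) : b ≤ 3 * (b / 2) := by have := hB.three; omega

/-- one digit -/
lemma Sd_fst (hB : Bas b p) (i d : ℕ) :
    ((Sd b p F i).filter fun s => s.1 = d).card * b ≤ (if i = 0 then b else 3) *
      (Sd b p F i).card := by
  unfold Sd
  split_ifs with h0 h1
  · have : ((({(p, p)} : Finset (ℕ × ℕ))).filter fun s => s.1 = d).card ≤ 1 :=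
      (Finset.card_filter_le _ _).trans (by simp)
    simp only [Finset.card_singleton, mul_one]
    nlinarith
  · have e : (Finset.range b ×ˢ Finset.range b).filter (fun s => s.1 = d) ⊆
        ({d} : Finset ℕ) ×ˢ Finset.range b := by
      intro s hs
      simp only [Finset.mem_filter, Finset.mem_product, Finset.mem_range,
        Finset.mem_singleton] at hs ⊢
      exact ⟨hs.2, hs.1.2⟩
    have := Finset.card_le_card e
    simp only [Finset.card_product, Finset.card_singleton, Finset.card_range, one_mul] at this ⊢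
    nlinarith
  · have e : ((Finset.range (b / 2)).image fun d => (d, d)).filter (fun s => s.1 = d) ⊆
        {(d, d)} := by
      intro s hs
      simp only [Finset.mem_filter, Finset.mem_image, Finset.mem_range,
        Finset.mem_singleton] at hs ⊢
      obtain ⟨⟨a, ha, rfl⟩, h⟩ := hs
      simp only at h
      rw [h]
    have h1 := Finset.card_le_card e
    have h2 : ((Finset.range (b / 2)).image fun d => (d, d)).card = b / 2 := by
      rw [Finset.card_image_of_injective _ (fun x y h => (Prod.mk.inj h).1), Finset.card_range]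
    rw [Finset.card_singleton] at h1
    rw [h2]
    have := half_le hB
    nlinarith

lemma Sd_snd (hB : Bas b p) (i d : ℕ) :
    ((Sd b p F i).filter fun s => s.2 = d).card * b ≤ (if i = 0 then b else 3) *
      (Sd b p F i).card := by
  unfold Sd
  split_ifs with h0 h1
  · have : ((({(p, p)} : Finset (ℕ × ℕ))).filter fun s => s.2 = d).card ≤ 1 :=
      (Finset.card_filter_le _ _).trans (by simp)
    simp only [Finset.card_singleton, mul_one]
    nlinarith
  · have e : (Finset.range b ×ˢ Finset.range b).filter (fun s => s.2 = d) ⊆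
        Finset.range b ×ˢ ({d} : Finset ℕ) := by
      intro s hs
      simp only [Finset.mem_filter, Finset.mem_product, Finset.mem_range,
        Finset.mem_singleton] at hs ⊢
      exact ⟨hs.1.1, hs.2⟩
    have := Finset.card_le_card e
    simp only [Finset.card_product, Finset.card_singleton, Finset.card_range, mul_one] at this ⊢
    nlinarith
  · have e : ((Finset.range (b / 2)).image fun d => (d, d)).filter (fun s => s.2 = d) ⊆
        {(d, d)} := by
      intro s hs
      simp only [Finset.mem_filter, Finset.mem_image, Finset.mem_range,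
        Finset.mem_singleton] at hs ⊢
      obtain ⟨⟨a, ha, rfl⟩, h⟩ := hs
      simp only at h
      rw [h]
    have h1 := Finset.card_le_card e
    have h2 : ((Finset.range (b / 2)).image fun d => (d, d)).card = b / 2 := by
      rw [Finset.card_image_of_injective _ (fun x y h => (Prod.mk.inj h).1), Finset.card_range]
    rw [Finset.card_singleton] at h1
    rw [h2]
    have := half_le hB
    nlinarith

lemma prod_ind {m i₀ : ℕ} (h : i₀ ≤ m) (g : ℕ → ℕ) :
    ∏ i : Fin m, (if (i : ℕ) < i₀ then g i else 1) = ∏ i ∈ Finset.range i₀, g i := by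
  rw [Fin.prod_univ_eq_prod_range (fun i => if i < i₀ then g i else 1) m, ← Finset.prod_filter]
  congr 1
  ext i; simp only [Finset.mem_filter, Finset.mem_range]; omega

lemma prod_c (hb : 1 ≤ b) (i₀ : ℕ) :
    ∏ i ∈ Finset.range i₀, (if i = 0 then b else 3) ≤ b * 3 ^ i₀ := by
  induction i₀ with
  | zero => simpa using hb
  | succ n ih =>
    rw [Finset.prod_range_succ]
    rcases Nat.eq_zero_or_pos n with h | h
    · subst h; simp; omega
    · rw [if_neg (by omega), pow_succ]
      nlinarith

/-- abstract form, `π` a projection -/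
lemma fib_gen (hB : Bas b p) (h : i₀ ≤ m) (π : ℕ × ℕ → ℕ) (d : ℕ → ℕ)
    (hπ : ∀ i d, ((Sd b p F i).filter fun s => π s = d).card * b ≤ (if i = 0 then b else 3) *
      (Sd b p F i).card) :
    ((RR b p m F).filter fun ω => ∀ i : Fin m, (i : ℕ) < i₀ → π (ω i) = d i).card * b ^ i₀ ≤
      b * 3 ^ i₀ * (RR b p m F).card := by
  have e : (RR b p m F).filter (fun ω => ∀ i : Fin m, (i : ℕ) < i₀ → π (ω i) = d i) =
      Fintype.piFinset fun i : Fin m => if (i : ℕ) < i₀ then
        (Sd b p F i).filter fun s => π s = d i else Sd b p F i := by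
    ext ω
    simp only [Finset.mem_filter, mem_RR, Fintype.mem_piFinset]
    constructor
    · rintro ⟨h1, h2⟩ i
      split_ifs with h3
      · exact Finset.mem_filter.2 ⟨h1 i, h2 i h3⟩
      · exact h1 i
    · intro h1
      refine ⟨fun i => ?_, fun i hi => ?_⟩
      · have := h1 i
        split_ifs at this with h3
        · exact (Finset.mem_filter.1 this).1
        · exact this
      · have := h1 i
        rw [if_pos hi] at this
        exact (Finset.mem_filter.1 this).2
  have hb : 1 ≤ b := by have := hB.three; omega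
  have e2 : b ^ i₀ = ∏ i : Fin m, (if (i : ℕ) < i₀ then b else 1) := by
    rw [prod_ind h fun _ => b]; simp
  rw [e, Fintype.card_piFinset, e2, ← Finset.prod_mul_distrib]
  have e3 : b * 3 ^ i₀ * (RR b p m F).card ≥
      (∏ i : Fin m, (if (i : ℕ) < i₀ then (if (i : ℕ) = 0 then b else 3) else 1)) *
        ∏ i : Fin m, (Sd b p F i).card := by
    rw [prod_ind h fun i => if i = 0 then b else 3]
    unfold RR
    rw [Fintype.card_piFinset]
    exact Nat.mul_le_mul_right _ (prod_c hb i₀)
  refine le_trans ?_ e3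
  rw [← Finset.prod_mul_distrib]
  refine Finset.prod_le_prod' fun i _ => ?_
  split_ifs with h1 h2
  · have := hπ i (d i)
    rwa [if_pos h2] at this
  · have := hπ i (d i)
    rwa [if_neg h2] at this
  · simp

/-- number of patterns with given low digits below `i₀` -/
theorem fibL (hB : Bas b p) (h : i₀ ≤ m) (r : ℕ) :
    ((RR b p m F).filter fun ω => rlo b i₀ ω = r).card * b ^ i₀ ≤
      b * 3 ^ i₀ * (RR b p m F).card := by
  refine le_trans (Nat.mul_le_mul_right _ (Finset.card_le_card ?_))
    (fib_gen hB h Prod.fst (fun i => r / b ^ i % b) fun i d => Sd_fst hB i d)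
  intro ω hω
  rw [Finset.mem_filter] at hω ⊢
  refine ⟨hω.1, fun i hi => ?_⟩
  have hb : 0 < b := by have := hB.three; omega
  rw [← hω.2, ← ext1_fin]
  exact (dg_get hb (fun s => ext1 ω s) i₀ (fun s _ => ext1_lt hB hω.1 _) i hi).symm

/-- number of patterns with given top digits above `i₀` -/
theorem fibT (hB : Bas b p) (h : i₀ ≤ m) (r : ℕ) :
    ((RR b p m F).filter fun ω => rhi b i₀ ω = r).card * b ^ i₀ ≤
      b * 3 ^ i₀ * (RR b p m F).card := by
  refine le_trans (Nat.mul_le_mul_right _ (Finset.card_le_card ?_))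
    (fib_gen hB h Prod.snd (fun i => r / b ^ (i₀ - 1 - i) % b) fun i d => Sd_snd hB i d)
  intro ω hω
  rw [Finset.mem_filter] at hω ⊢
  refine ⟨hω.1, fun i hi => ?_⟩
  have hb : 0 < b := by have := hB.three; omega
  have := dg_get hb (fun s => ext2 ω (i₀ - 1 - s)) i₀ (fun s _ => ext2_lt hB hω.1 _)
    (i₀ - 1 - i) (by omega)
  rw [← hω.2, ← ext2_fin]
  unfold rhi
  rw [this]
  congr 1; omega

/-- sum over patterns of a nonnegative function of the low digits below `i₀` -/
theorem sum_fibL (hB : Bas b p) (h : i₀ ≤ m) (H : ℕ → ℝ) (hH : ∀ r, 0 ≤ H r) (T : Finset ℕ)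
    (hT : ∀ ω ∈ RR b p m F, rlo b i₀ ω ∈ T) :
    (∑ ω ∈ RR b p m F, H (rlo b i₀ ω)) * (b : ℝ) ^ i₀ ≤
      b * 3 ^ i₀ * (RR b p m F).card * ∑ r ∈ T, H r := by
  rw [← Finset.sum_fiberwise_of_maps_to hT, Finset.sum_mul, Finset.mul_sum]
  refine Finset.sum_le_sum fun r _ => ?_
  have e : ∑ ω ∈ (RR b p m F).filter (fun ω => rlo b i₀ ω = r), H (rlo b i₀ ω) =
      ((RR b p m F).filter fun ω => rlo b i₀ ω = r).card * H r := by
    rw [Finset.sum_congr rfl fun ω hω => by rw [(Finset.mem_filter.1 hω).2]]
    simp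
  rw [e]
  have := fibL (F := F) hB h r
  have h2 : ((((RR b p m F).filter fun ω => rlo b i₀ ω = r).card : ℝ)) * (b : ℝ) ^ i₀ ≤
      b * 3 ^ i₀ * (RR b p m F).card := by exact_mod_cast this
  nlinarith [hH r, mul_le_mul_of_nonneg_right h2 (hH r)]

/-- sum over patterns of a nonnegative function of the top digits above `i₀` -/
theorem sum_fibT (hB : Bas b p) (h : i₀ ≤ m) (H : ℕ → ℝ) (hH : ∀ r, 0 ≤ H r) (T : Finset ℕ)
    (hT : ∀ ω ∈ RR b p m F, rhi b i₀ ω ∈ T) :
    (∑ ω ∈ RR b p m F, H (rhi b i₀ ω)) * (b : ℝ) ^ i₀ ≤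
      b * 3 ^ i₀ * (RR b p m F).card * ∑ r ∈ T, H r := by
  rw [← Finset.sum_fiberwise_of_maps_to hT, Finset.sum_mul, Finset.mul_sum]
  refine Finset.sum_le_sum fun r _ => ?_
  have e : ∑ ω ∈ (RR b p m F).filter (fun ω => rhi b i₀ ω = r), H (rhi b i₀ ω) =
      ((RR b p m F).filter fun ω => rhi b i₀ ω = r).card * H r := by
    rw [Finset.sum_congr rfl fun ω hω => by rw [(Finset.mem_filter.1 hω).2]]
    simp
  rw [e]
  have := fibT (F := F) hB h r
  have h2 : ((((RR b p m F).filter fun ω => rhi b i₀ ω = r).card : ℝ)) * (b : ℝ) ^ i₀ ≤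
      b * 3 ^ i₀ * (RR b p m F).card := by exact_mod_cast this
  nlinarith [hH r, mul_le_mul_of_nonneg_right h2 (hH r)]

/-- the number of patterns is positive -/
lemma RR_nonneg : (0 : ℝ) ≤ (RR b p m F).card := Nat.cast_nonneg _

end Pool.Agent.HPP
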