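import Mathlib

/-! # HPP/DRoot: sums over roots of unity -/

namespace Pool.Agent.HPP

open Complex

/-- the bound `2 / |ζ - 1|` for geometric sums (`0` at `ζ = 1`) -/
noncomputable def Hz (ζ : ℂ) : ℝ := 2 / ‖ζ - 1‖

lemma Hz_nonneg (ζ : ℂ) : 0 ≤ Hz ζ := by unfold Hz; positivity

lemma geo_le {ζ : ℂ} (h1 : ‖ζ‖ ≤ 1) (h : ζ ≠ 1) (N : ℕ) : ‖∑ z ∈ Finset.range N, ζ ^ z‖ ≤ Hz ζ := by
  rw [geom_sum_eq h, norm_div]
  unfold Hz
  have : ‖ζ ^ N - 1‖ ≤ 2 := by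
    calc ‖ζ ^ N - 1‖ ≤ ‖ζ ^ N‖ + ‖(1 : ℂ)‖ := norm_sub_le _ _
      _ ≤ 1 + 1 := by
        rw [norm_pow, norm_one]
        gcongr
        exact pow_le_one₀ (norm_nonneg _) h1
      _ = 2 := by norm_num
  gcongr

/-- `|e(x) - 1| ≥ 4 x` for `0 ≤ x ≤ 1/2` and its reflection -/
lemma norm_e_sub_one {x : ℝ} (h0 : 0 ≤ x) (h1 : x ≤ 1) :
    4 * min x (1 - x) ≤ ‖Complex.exp (2 * Real.pi * I * x) - 1‖ := by
  have e : (2 * Real.pi * I * x : ℂ) = I * ((2 * Real.pi * x : ℝ) : ℂ) := by push_cast; ring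
  rw [e, Complex.norm_exp_I_mul_ofReal_sub_one, Real.norm_eq_abs, abs_mul, abs_two]
  have e2 : 2 * Real.pi * x / 2 = Real.pi * x := by ring
  rw [e2]
  have hpi := Real.pi_pos
  have key : ∀ y : ℝ, 0 ≤ y → y ≤ 1 / 2 → 2 * y ≤ Real.sin (Real.pi * y) := by
    intro y hy0 hy1
    have := Real.mul_le_sin (x := Real.pi * y) (by positivity) (by nlinarith)
    calc 2 * y = 2 / Real.pi * (Real.pi * y) := by field_simp
      _ ≤ _ := this
  rcases le_total x (1 / 2) with h | h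
  · rw [min_eq_left (by linarith)]
    have := key x h0 h
    linarith [le_abs_self (Real.sin (Real.pi * x))]
  · rw [min_eq_right (by linarith)]
    have := key (1 - x) (by linarith) (by linarith)
    have e3 : Real.sin (Real.pi * (1 - x)) = Real.sin (Real.pi * x) := by
      rw [mul_sub, mul_one, Real.sin_pi_sub]
    rw [e3] at this
    linarith [le_abs_self (Real.sin (Real.pi * x))]

lemma Hz_e {f j : ℕ} (hj : 1 ≤ j) (hjf : j < f) :
    Hz (Complex.exp (2 * Real.pi * I / f) ^ j) ≤ f / 2 * ((j : ℝ)⁻¹ + ((f - j : ℕ) : ℝ)⁻¹) := by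
  have hf : (0 : ℝ) < f := by exact_mod_cast (by omega : 0 < f)
  have hj' : (0 : ℝ) < j := by exact_mod_cast (by omega : 0 < j)
  have hfj : (0 : ℝ) < ((f - j : ℕ) : ℝ) := by exact_mod_cast (by omega : 0 < f - j)
  have hfj2 : ((f - j : ℕ) : ℝ) = f - j := by rw [Nat.cast_sub hjf.le]
  have e : Complex.exp (2 * Real.pi * I / f) ^ j =
      Complex.exp (2 * Real.pi * I * ((j / f : ℝ) : ℂ)) := by
    rw [← Complex.exp_nat_mul]
    congr 1
    push_cast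
    ring
  have hx0 : (0 : ℝ) ≤ j / f := by positivity
  have hx1 : (j / f : ℝ) ≤ 1 := by rw [div_le_one hf]; exact_mod_cast hjf.le
  have h := norm_e_sub_one hx0 hx1
  rw [← e] at h
  unfold Hz
  have hmin : 0 < min (j / f : ℝ) (1 - j / f) := by
    refine lt_min (by positivity) ?_
    rw [sub_pos, div_lt_one hf]
    exact_mod_cast hjf
  have h2 : 2 / ‖Complex.exp (2 * Real.pi * I / f) ^ j - 1‖ ≤ 2 / (4 * min (j / f : ℝ) (1 - j / f)) := by
    gcongr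
  refine h2.trans ?_
  rcases le_total (j / f : ℝ) (1 - j / f) with h3 | h3
  · rw [min_eq_left h3]
    have : (2 : ℝ) / (4 * (j / f)) = f / 2 * (j : ℝ)⁻¹ := by field_simp; norm_num
    rw [this, mul_add]
    have : 0 ≤ (f : ℝ) / 2 * ((f - j : ℕ) : ℝ)⁻¹ := by positivity
    linarith
  · rw [min_eq_right h3]
    have h4 : (1 - j / f : ℝ) = ((f - j : ℕ) : ℝ) / f := by rw [hfj2]; field_simp
    have : (2 : ℝ) / (4 * (1 - j / f)) = f / 2 * ((f - j : ℕ) : ℝ)⁻¹ := by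
      rw [h4]; field_simp; norm_num
    rw [this, mul_add]
    have : 0 ≤ (f : ℝ) / 2 * (j : ℝ)⁻¹ := by positivity
    linarith

lemma sum_Hz_e {f : ℕ} (hf : 1 ≤ f) :
    ∑ j ∈ Finset.range f, Hz (Complex.exp (2 * Real.pi * I / f) ^ j) ≤ f * (1 + Real.log f) := by
  obtain ⟨g, rfl⟩ : ∃ g, f = g + 1 := ⟨f - 1, by omega⟩
  rw [Finset.sum_range_succ']
  have h0 : Hz (Complex.exp (2 * Real.pi * I / ((g + 1 : ℕ) : ℂ)) ^ 0) = 0 := by simp [Hz]
  rw [h0, add_zero]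
  have h1 : ∀ j ∈ Finset.range g, Hz (Complex.exp (2 * Real.pi * I / ((g + 1 : ℕ) : ℂ)) ^ (j + 1)) ≤
      ((g + 1 : ℕ) : ℝ) / 2 * (((j + 1 : ℕ) : ℝ)⁻¹ + ((g + 1 - (j + 1) : ℕ) : ℝ)⁻¹) := by
    intro j hj
    rw [Finset.mem_range] at hj
    exact Hz_e (by omega) (by omega)
  refine (Finset.sum_le_sum h1).trans ?_
  rw [← Finset.mul_sum, Finset.sum_add_distrib]
  have h2 : ∑ j ∈ Finset.range g, ((g + 1 - (j + 1) : ℕ) : ℝ)⁻¹ =
      ∑ j ∈ Finset.range g, ((j + 1 : ℕ) : ℝ)⁻¹ := by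
    rw [← Finset.sum_range_reflect]
    refine Finset.sum_congr rfl fun j hj => ?_
    rw [Finset.mem_range] at hj
    congr 2
    omega
  rw [h2]
  have h3 : ∑ j ∈ Finset.range g, ((j + 1 : ℕ) : ℝ)⁻¹ = ((harmonic g : ℚ) : ℝ) := by
    simp [harmonic]
  rw [h3]
  have h4 := harmonic_le_one_add_log g
  have h5 : Real.log g ≤ Real.log ((g + 1 : ℕ) : ℝ) := by
    rcases Nat.eq_zero_or_pos g with h | h
    · subst h; simp
    · apply Real.log_le_log (by exact_mod_cast h); push_cast; linarith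
  have h6 : (0 : ℝ) ≤ ((g + 1 : ℕ) : ℝ) := by positivity
  nlinarith

/-- all primitive roots give the same sum -/
lemma sum_prim {ζ ξ : ℂ} {f : ℕ} (hf : 1 ≤ f) (hζ : IsPrimitiveRoot ζ f)
    (hξ : IsPrimitiveRoot ξ f) (G : ℂ → ℝ) :
    ∑ j ∈ Finset.range f, G (ζ ^ j) = ∑ j ∈ Finset.range f, G (ξ ^ j) := by
  have : NeZero f := ⟨by omega⟩
  have key : ∀ ζ : ℂ, IsPrimitiveRoot ζ f → ∑ j ∈ Finset.range f, G (ζ ^ j) =
      ∑ x ∈ Polynomial.nthRootsFinset f (1 : ℂ), G x := by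
    intro ζ hζ
    refine Finset.sum_nbij (fun j => ζ ^ j) ?_ ?_ ?_ ?_
    · intro j _
      rw [Polynomial.mem_nthRootsFinset (by omega), ← pow_mul, mul_comm, pow_mul, hζ.pow_eq_one,
        one_pow]
    · intro i hi j hj h
      simp only [Finset.coe_range, Set.mem_Iio] at hi hj
      exact hζ.pow_inj hi hj h
    · intro x hx
      rw [Finset.mem_coe, Polynomial.mem_nthRootsFinset (by omega)] at hx
      obtain ⟨i, hi, h⟩ := hζ.eq_pow_of_pow_eq_one hx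
      exact ⟨i, by simpa using hi, h⟩
    · intro j _; rfl
  rw [key ζ hζ, key ξ hξ]

lemma sum_per {G : ℕ → ℝ} {f : ℕ} (hG : ∀ j, G (f + j) = G j) (k : ℕ) :
    ∑ u ∈ Finset.range (f * k), G u = k * ∑ u ∈ Finset.range f, G u := by
  induction k with
  | zero => simp
  | succ k ih =>
    rw [Nat.mul_succ, Nat.add_comm, Finset.sum_range_add]
    simp only [hG]
    rw [ih]
    push_cast
    ring

/-- sum over a full period -/
theorem sum_Hz {ζ : ℂ} {n : ℕ} (hn : 1 ≤ n) (h : ζ ^ n = 1) :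
    ∑ u ∈ Finset.range n, Hz (ζ ^ u) ≤ n * (1 + Real.log n) := by
  set f := orderOf ζ with hf
  have hdvd : f ∣ n := orderOf_dvd_of_pow_eq_one h
  have hf1 : 1 ≤ f := Nat.pos_of_dvd_of_pos hdvd (by omega)
  obtain ⟨k, rfl⟩ := hdvd
  have hprim : IsPrimitiveRoot ζ f := IsPrimitiveRoot.orderOf ζ
  rw [sum_per (G := fun u => Hz (ζ ^ u)) (f := f)
    (fun j => by rw [pow_add, hprim.pow_eq_one, one_mul]) k,
    sum_prim hf1 hprim (Complex.isPrimitiveRoot_exp f (by omega)) Hz]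
  have hk : 1 ≤ k := by
    rcases Nat.eq_zero_or_pos k with h0 | h0
    · subst h0; simp at hn
    · exact h0
  have h1 := sum_Hz_e hf1
  have h2 : Real.log f ≤ Real.log ((f * k : ℕ) : ℝ) := by
    apply Real.log_le_log (by exact_mod_cast hf1)
    exact_mod_cast Nat.le_mul_of_pos_right _ hk
  have hk' : (0 : ℝ) ≤ k := by positivity
  have hf' : (0 : ℝ) ≤ f := by positivity
  calc (k : ℝ) * ∑ u ∈ Finset.range f, Hz (Complex.exp (2 * Real.pi * I / f) ^ u)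
      ≤ k * (f * (1 + Real.log f)) := by gcongr
    _ ≤ k * (f * (1 + Real.log ((f * k : ℕ) : ℝ))) := by gcongr
    _ = _ := by push_cast; ring

end Pool.Agent.HPP
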