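import Pool.Agent.HPP.Defs

/-! # HPP/Iface: the main statements of the parts, as propositions (for type checking only) -/

namespace Pool.Agent.HPP

open Complex MeasureTheory

/-- (E) fourth moment of `c` -/
def EnergyProp : Prop := ∃ C : ℝ, 1 ≤ C ∧ ∀ (b p m : ℕ) (F : Finset ℕ) (V : ℝ → ℝ), Bas b p →
  1 ≤ m → F ⊆ Finset.Ico 1 m → (∀ y, 0 ≤ V y ∧ V y ≤ 1) → ∀ T : ℝ, (b : ℝ) ^ m ≤ T →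
  ∑ χ : DirichletCharacter ℂ (b ^ m), ∫ t in (-T)..T, ‖cc b p F V χ t‖ ^ 4 ≤
    C ^ m * (T / (b : ℝ) ^ m) * (b : ℝ) ^ (3 * (F.card + 1)) * ((RR b p m F).card : ℝ) ^ 4

/-- (S1) sup bound for characters of level `m'`, `i₀ < m' ≤ 2 i₀`, block `[i₀, i₀ + ℓ)` free -/
def SupLowProp : Prop := ∃ C : ℝ, 1 ≤ C ∧ ∀ (b p m m' i₀ l : ℕ) (F : Finset ℕ) (V : ℝ → ℝ),
  Bas b p → F ⊆ Finset.Ico 1 m → (∀ y, 0 ≤ V y ∧ V y ≤ 1) → 1 ≤ i₀ → i₀ < m' → m' ≤ 2 * i₀ →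
  m' ≤ m → i₀ + l ≤ m → Finset.Ico i₀ (i₀ + l) ⊆ F → ∀ χ : DirichletCharacter ℂ (b ^ m),
  χ.FactorsThrough (b ^ m') → ¬ χ.FactorsThrough (b ^ (m' - 1)) → ∀ t : ℝ,
  ‖cc b p F V χ t‖ ≤ C ^ m * (m * Real.log b + 1) * b * ((b : ℝ) ^ l)⁻¹ * (RR b p m F).card

/-- (S0) characters of level `2 ≤ m' ≤ w` with `[1, w)` free -/
def VanProp : Prop := ∀ (b p m m' : ℕ) (F : Finset ℕ) (V : ℝ → ℝ), Bas b p →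
  F ⊆ Finset.Ico 1 m → 2 ≤ m' → m' ≤ m → Finset.Ico 1 m' ⊆ F →
  ∀ χ : DirichletCharacter ℂ (b ^ m), χ.FactorsThrough (b ^ m') →
  ¬ χ.FactorsThrough (b ^ (m' - 1)) → ∀ t : ℝ, cc b p F V χ t = 0

/-- (S2) characters mod `b`, `b ^ (i + ℓ) ≤ |t| ≤ b ^ (2 i)`, block `[i, i + ℓ)` free -/
def SupTopProp : Prop := ∃ C : ℝ, 1 ≤ C ∧ ∀ (b p m i l : ℕ) (F : Finset ℕ) (V : ℝ → ℝ) (K : ℝ),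
  Bas b p → F ⊆ Finset.Ico 1 m → (∀ y, 0 ≤ V y ∧ V y ≤ 1) → 0 ≤ K →
  (∀ y z, |V y - V z| ≤ K * |y - z|) → 1 ≤ i → i + l ≤ m → Finset.Ico i (i + l) ⊆ F →
  ∀ χ : DirichletCharacter ℂ (b ^ m), χ.FactorsThrough b → ∀ t : ℝ,
  (b : ℝ) ^ (i + l) ≤ |t| → |t| ≤ (b : ℝ) ^ (2 * i) →
  ‖cc b p F V χ t‖ ≤ C ^ m * (1 + K) * (m * Real.log b + 1) * b ^ 2 * ((b : ℝ) ^ l)⁻¹ *
    (RR b p m F).card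

/-- (S3) characters mod `b`, small `t`: `[1, w)` free -/
def SmProp : Prop := ∃ C : ℝ, 1 ≤ C ∧ ∀ (b p m w : ℕ) (F : Finset ℕ) (V : ℝ → ℝ) (K : ℝ),
  Bas b p → F ⊆ Finset.Ico 1 m → (∀ y, 0 ≤ V y ∧ V y ≤ 1) → 0 ≤ K →
  (∀ y z, |V y - V z| ≤ K * |y - z|) → 1 ≤ w → w ≤ m → Finset.Ico 1 w ⊆ F →
  ∀ χ : DirichletCharacter ℂ (b ^ m), χ.FactorsThrough b → ∀ t : ℝ,
  ‖cc b p F V χ t - (starRingEnd ℂ) (χ (p : ZMod (b ^ m))) * ((b : ℂ) ^ (m - 1)) ^ (-(t * I)) *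
    (RR b p m F).card * ∫ y in (p : ℝ)..(p + 1 : ℝ), (V y : ℂ) * (y : ℂ) ^ (-(t * I))‖ ≤
    C * (1 + K) * (1 + |t|) * b ^ 2 * ((b : ℝ) ^ w)⁻¹ * (RR b p m F).card

open Classical in
/-- (L-PV) pointwise bound for smooth sums -/
def PVProp : Prop := ∀ (b : ℕ), 2 ≤ b → ∀ j : ℝ, 1 ≤ j → ∃ C : ℝ, 1 ≤ C ∧ ∀ (m' a : ℕ), a ≤ 1 →
  ∀ (χ : DirichletCharacter ℂ (b ^ m')) (t v : ℝ), 0 ≤ v →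
  ‖SS (fun n => ((Real.log n) ^ a * gw j v n : ℝ)) χ t‖ ≤ C * (1 + v) *
    (Real.sqrt ((b : ℝ) ^ m' * (1 + |t|)) * Real.log ((b : ℝ) ^ m' * (2 + |t|)) +
      if χ = 1 then Real.exp (v - t ^ 2 / C) else 0)

/-- (L-4) fourth moment of smooth sums -/
def FourProp : Prop := ∀ (b : ℕ), 2 ≤ b → ∀ ε : ℝ, 0 < ε → ∃ C : ℝ, 1 ≤ C ∧ ∀ (m' a : ℕ), a ≤ 1 →
  ∀ (T v κ : ℝ), 1 ≤ T → 0 ≤ v → v + 2 ≤ κ →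
  ∑ χ : DirichletCharacter ℂ (b ^ m'), ∫ t in Gt χ κ T,
    ‖SS (fun n => ((Real.log n) ^ a * gw 1 v n : ℝ)) χ t‖ ^ 4 ≤
    C * (1 + v) ^ 4 * ((b : ℝ) ^ m' * T) ^ (1 + ε) * Real.exp (2 * v)

/-- (V-big) at `(f, p₁)` -/
def BigAt (f p₁ : ℝ) : Prop :=
  ∀ b : ℕ, 2 ≤ b → ∀ ε : ℝ, 0 < ε → ∀ κ : ℝ, 0 < κ → ∃ x₀ : ℝ, ∀ x : ℝ, x₀ ≤ x → ∀ (m' : ℕ) (T : ℝ),
  1 ≤ m' → (b : ℝ) ^ m' ≤ T → (b : ℝ) ^ m' * T ≤ x ^ f →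
  ∑ χ : DirichletCharacter ℂ (b ^ m'), ∫ t in Gt χ (x ^ κ) T, (‖PP χ t x‖ / x) ^ p₁ ≤ x ^ ε

/-- (V-big), stage 1 -/
def BigProp1 : Prop := ∀ (f p₁ : ℝ), 1 / 4 ≤ f → f < 1 / 2 → 8 / 3 * f < p₁ → 1 ≤ p₁ → BigAt f p₁

/-- (V-big), stage 2 -/
def BigProp2 : Prop := ∀ (f p₁ : ℝ), 1 / 4 ≤ f → f < 5 / 8 → 12 / 5 * f < p₁ → 1 ≤ p₁ → BigAt f p₁

/-- (V-small) -/
def SmallProp : Prop := ∀ (f p' : ℝ), 1 / 4 ≤ f → f < 5 / 8 → 2 * f < p' → 1 ≤ p' →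
  ∃ u₂ : ℝ, 0 < u₂ ∧ ∀ b : ℕ, 2 ≤ b → ∀ ε : ℝ, 0 < ε → ∀ κ : ℝ, 0 < κ → ∃ x₀ : ℝ, ∀ x : ℝ, x₀ ≤ x →
  ∀ (m' : ℕ) (T : ℝ), 1 ≤ m' → (b : ℝ) ^ m' ≤ T → (b : ℝ) ^ m' * T ≤ x ^ f →
  ∑ χ : DirichletCharacter ℂ (b ^ m'),
    ∫ t in Gt χ (x ^ κ) T ∩ {t | x ^ (-u₂) ≤ ‖PP χ t x‖ / x}, (‖PP χ t x‖ / x) ^ p' ≤ x ^ ε

/-- the final statement with proportion `f₀` (`1 / 2` in stage 1, `5 / 9` in stage 2) -/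
def FinalAt (f₀ : ℝ) : Prop := ∀ ε : ℝ, 0 < ε → ∃ b₀ : ℕ, ∀ b : ℕ, b₀ ≤ b →
  ∃ k₀ : ℕ, ∀ k : ℕ, k₀ ≤ k →
  (b : ℝ) ^ ((1 - f₀ / 2) * k : ℝ) ≤ (((Finset.range (b ^ k)).filter fun n => n.Prime ∧
    b ^ (k - 1) ≤ n ∧ (((Finset.range k).filter fun i : ℕ => (i : ℝ) < f₀ / 2 * k ∧
      (Nat.digits b n).getD i 0 ≠ (Nat.digits b n).getD (k - 1 - i) 0).card : ℝ) ≤ ε * k).card : ℝ)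

/-- assembly -/
def AssemblyProp : Prop := ∀ f₀ : ℝ, 5 / 12 < f₀ → f₀ ≤ 5 / 9 → EnergyProp → SupLowProp → VanProp →
  SupTopProp → SmProp → SmallProp →
  (∀ f, 5 / 12 < f → f < f₀ → ∃ p₁, 1 ≤ p₁ ∧ p₁ < 4 / 3 ∧ BigAt f p₁) → FinalAt f₀

end Pool.Agent.HPP
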