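import Pool.Agent.HPP.DLow

/-! # HPP/DSm: SmProp -/

namespace Pool.Agent.HPP

open Complex MeasureTheory

variable {b p m m' i₀ l : ℕ} {F : Finset ℕ} {V : ℝ → ℝ} {χ : DirichletCharacter ℂ (b ^ m)}

lemma cpow_neg {y : ℝ} (hy : 0 < y) (t : ℝ) :
    (y : ℂ) ^ (-(t * I)) = Complex.exp (I * ((-(t * Real.log y) : ℝ) : ℂ)) := by
  rw [Complex.cpow_def_of_ne_zero (by exact_mod_cast hy.ne'), ← Complex.ofReal_log hy.le]
  congr 1
  push_cast
  ring

lemma norm_exp_sub_le (x y : ℝ) :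
    ‖Complex.exp (I * (x : ℂ)) - Complex.exp (I * (y : ℂ))‖ ≤ |x - y| := by
  have e : Complex.exp (I * (x : ℂ)) - Complex.exp (I * (y : ℂ)) =
      Complex.exp (I * (y : ℂ)) * (Complex.exp (I * ((x - y : ℝ) : ℂ)) - 1) := by
    rw [mul_sub, ← Complex.exp_add]
    push_cast
    ring_nf
  rw [e, norm_mul, Complex.norm_exp_I_mul_ofReal, one_mul]
  exact Real.norm_exp_I_mul_ofReal_sub_one_le

lemma log_sub_le {y z : ℝ} (hy : 1 ≤ y) (hz : 1 ≤ z) : |Real.log y - Real.log z| ≤ |y - z| := by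
  wlog h : z ≤ y generalizing y z
  · rw [abs_sub_comm, abs_sub_comm y z]
    exact this hz hy (le_of_not_ge h)
  have h1 : Real.log z ≤ Real.log y := Real.log_le_log (by linarith) h
  rw [abs_of_nonneg (by linarith), abs_of_nonneg (by linarith), ← Real.log_div (by linarith)
    (by linarith)]
  have h2 := Real.log_le_sub_one_of_pos (x := y / z) (by positivity)
  have h3 : y / z - 1 = (y - z) / z := by field_simp
  rw [h3] at h2
  exact h2.trans (div_le_self (by linarith) hz)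

/-- `V(y) y^(-it)` -/
noncomputable def gg (V : ℝ → ℝ) (t y : ℝ) : ℂ := (V y : ℂ) * (y : ℂ) ^ (-(t * I))

lemma gg_lip {K : ℝ} (hV : ∀ y, 0 ≤ V y ∧ V y ≤ 1) (hK : ∀ y z, |V y - V z| ≤ K * |y - z|)
    (t : ℝ) {y z : ℝ} (hy : 1 ≤ y) (hz : 1 ≤ z) :
    ‖gg V t y - gg V t z‖ ≤ (K + |t|) * |y - z| := by
  unfold gg
  have e : (V y : ℂ) * (y : ℂ) ^ (-(t * I)) - (V z : ℂ) * (z : ℂ) ^ (-(t * I)) =
      ((V y - V z : ℝ) : ℂ) * (y : ℂ) ^ (-(t * I)) +
        (V z : ℂ) * ((y : ℂ) ^ (-(t * I)) - (z : ℂ) ^ (-(t * I))) := by push_cast; ring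
  rw [e]
  refine (norm_add_le _ _).trans ?_
  rw [norm_mul, norm_mul, Complex.norm_real, Complex.norm_real, Real.norm_eq_abs, Real.norm_eq_abs,
    abs_of_nonneg (hV z).1, cpow_neg (by linarith), cpow_neg (by linarith),
    Complex.norm_exp_I_mul_ofReal, mul_one]
  have h1 := norm_exp_sub_le (-(t * Real.log y)) (-(t * Real.log z))
  have h2 : |-(t * Real.log y) - -(t * Real.log z)| ≤ |t| * |y - z| := by
    have : -(t * Real.log y) - -(t * Real.log z) = -(t * (Real.log y - Real.log z)) := by ring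
    rw [this, abs_neg, abs_mul]
    exact mul_le_mul_of_nonneg_left (log_sub_le hy hz) (abs_nonneg t)
  have h3 : V z * ‖Complex.exp (I * ((-(t * Real.log y) : ℝ) : ℂ)) -
      Complex.exp (I * ((-(t * Real.log z) : ℝ) : ℂ))‖ ≤ 1 * (|t| * |y - z|) := by
    gcongr
    · exact (hV z).2
    · exact h1.trans h2
  linarith [hK y z]

/-- Riemann sums of a Lipschitz function -/
lemma riem {g : ℝ → ℂ} {L a : ℝ} (hL : 0 ≤ L)
    (hg : ∀ y ∈ Set.Icc a (a + 1), ∀ z ∈ Set.Icc a (a + 1), ‖g y - g z‖ ≤ L * |y - z|)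
    {θ : ℝ} (h0 : 0 ≤ θ) (h1 : θ ≤ 1) {N : ℕ} (hN : 1 ≤ N) :
    ‖∑ z ∈ Finset.range N, g (a + (z + θ) / N) - N * ∫ y in a..(a + 1), g y‖ ≤ L := by
  have hN' : (0 : ℝ) < N := by exact_mod_cast hN
  have hcont : ContinuousOn g (Set.Icc a (a + 1)) := by
    have : LipschitzOnWith ⟨L, hL⟩ g (Set.Icc a (a + 1)) := by
      refine LipschitzOnWith.of_dist_le_mul fun y hy z hz => ?_
      rw [dist_eq_norm, Real.dist_eq]
      exact hg y hy z hz
    exact this.continuousOn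
  set c : ℕ → ℝ := fun k => a + k / N with hc
  have hmono : ∀ k, c k ≤ c (k + 1) := fun k => by simp only [hc]; gcongr; simp
  have hmem : ∀ k ≤ N, c k ∈ Set.Icc a (a + 1) := by
    intro k hk
    simp only [hc]
    constructor
    · have : (0 : ℝ) ≤ k / N := by positivity
      linarith
    · have : (k : ℝ) / N ≤ 1 := by rw [div_le_one hN']; exact_mod_cast hk
      linarith
  have hsub : ∀ k < N, Set.Icc (c k) (c (k + 1)) ⊆ Set.Icc a (a + 1) := fun k hk =>
    Set.Icc_subset_Icc (hmem k (by omega)).1 (hmem (k + 1) (by omega)).2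
  have hint : ∀ k < N, IntervalIntegrable g volume (c k) (c (k + 1)) := by
    intro k hk
    apply ContinuousOn.intervalIntegrable
    rw [Set.uIcc_of_le (hmono k)]
    exact hcont.mono (hsub k hk)
  have hsum : ∫ y in a..(a + 1), g y = ∑ k ∈ Finset.range N, ∫ y in (c k)..(c (k + 1)), g y := by
    rw [intervalIntegral.sum_integral_adjacent_intervals hint]
    have e0 : c 0 = a := by simp [hc]
    have e1 : c N = a + 1 := by simp only [hc]; rw [div_self hN'.ne']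
    rw [e0, e1]
  rw [hsum, Finset.mul_sum, ← Finset.sum_sub_distrib]
  refine (norm_sum_le _ _).trans ?_
  have hterm : ∀ z ∈ Finset.range N, ‖g (a + (z + θ) / N) - N * ∫ y in (c z)..(c (z + 1)), g y‖ ≤
      L / N := by
    intro z hz
    rw [Finset.mem_range] at hz
    set x := a + (z + θ) / N with hx
    have hx1 : c z ≤ x := by simp only [hc, hx]; gcongr; linarith
    have hx2 : x ≤ c (z + 1) := by simp only [hc, hx]; push_cast; gcongr
    have hxm : x ∈ Set.Icc a (a + 1) := hsub z hz ⟨hx1, hx2⟩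
    have hlen : c (z + 1) - c z = 1 / N := by simp only [hc]; push_cast; ring
    have e : g x - N * ∫ y in (c z)..(c (z + 1)), g y =
        N * ∫ y in (c z)..(c (z + 1)), (g x - g y) := by
      rw [intervalIntegral.integral_sub intervalIntegrable_const (hint z hz),
        intervalIntegral.integral_const, hlen, mul_sub]
      congr 1
      rw [Complex.real_smul]
      push_cast
      have : (N : ℂ) ≠ 0 := by exact_mod_cast hN'.ne'
      field_simp
    rw [e, norm_mul, Complex.norm_natCast]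
    have hb : ‖∫ y in (c z)..(c (z + 1)), (g x - g y)‖ ≤ L * (1 / N) * |c (z + 1) - c z| := by
      refine intervalIntegral.norm_integral_le_of_norm_le_const fun y hy => ?_
      rw [Set.uIoc_of_le (hmono z)] at hy
      have hy' : y ∈ Set.Icc (c z) (c (z + 1)) := ⟨hy.1.le, hy.2⟩
      refine (hg x hxm y (hsub z hz hy')).trans ?_
      gcongr
      rw [abs_le]
      constructor <;> linarith [hy.1, hy.2]
    rw [hlen, abs_of_nonneg (by positivity)] at hb
    calc (N : ℝ) * ‖∫ y in (c z)..(c (z + 1)), (g x - g y)‖ ≤ N * (L * (1 / N) * (1 / N)) := by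
          gcongr
      _ = L / N := by field_simp
  refine (Finset.sum_le_sum hterm).trans ?_
  rw [Finset.sum_const, Finset.card_range, nsmul_eq_mul]
  apply le_of_eq
  field_simp

lemma lowv_mod (hm : 1 ≤ m) {ω : Fin m → ℕ × ℕ} (hω : ω ∈ RR b p m F) :
    lowv b ω ≡ p [MOD b] := by
  have := rlo_mod (i₀ := m) (by omega) hm hω
  rwa [rlo, ← lowv_eq] at this

lemma chi_low (hb : 2 ≤ b) (hm : 1 ≤ m) (h : χ.FactorsThrough b) {ω : Fin m → ℕ × ℕ}
    (hω : ω ∈ RR b p m F) : χ (lowv b ω : ZMod (b ^ m)) = χ (p : ZMod (b ^ m)) := by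
  have h' : χ.FactorsThrough (b ^ 1) := by rwa [pow_one]
  exact chi_congr hb le_rfl h' (by rw [pow_one]; exact lowv_mod hm hω)

/-- the summand, for characters modulo `b` -/
lemma trm_gg (hb : 2 ≤ b) (hm : 1 ≤ m) (h : χ.FactorsThrough b) (t : ℝ) {ω : Fin m → ℕ × ℕ}
    (hω : ω ∈ RR b p m F) : trm b m V χ t ω =
      (starRingEnd ℂ) (χ (p : ZMod (b ^ m))) * ((b : ℂ) ^ (m - 1)) ^ (-(t * I)) *
        gg V t ((topv b ω : ℝ) / (b : ℝ) ^ (m - 1)) := by
  unfold trm gg wt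
  rw [chi_low hb hm h hω]
  have hbr : (0 : ℝ) < (b : ℝ) ^ (m - 1) := by
    have : (0 : ℝ) < b := by exact_mod_cast (by omega : 0 < b)
    positivity
  have e : ((topv b ω : ℕ) : ℂ) = (((b : ℝ) ^ (m - 1) : ℝ) : ℂ) *
      (((topv b ω : ℝ) / (b : ℝ) ^ (m - 1) : ℝ) : ℂ) := by
    rw [← Complex.ofReal_mul]
    rw [mul_div_cancel₀ _ hbr.ne']
    simp
  rw [e, Complex.mul_cpow_ofReal_nonneg hbr.le (by positivity)]
  push_cast
  ring

lemma topv_ge (hm : 1 ≤ m) {ω : Fin m → ℕ × ℕ} (hω : ω ∈ RR b p m F) :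
    p * b ^ (m - 1) ≤ topv b ω := by
  rw [topv_eq, ← ext2_zero (by omega) hω]
  have := Finset.single_le_sum (f := fun s => ext2 ω s * b ^ (m - 1 - s)) (fun i _ => Nat.zero_le _)
    (Finset.mem_range.2 (by omega : 0 < m))
  simpa using this

theorem sm : SmProp := by
  refine ⟨1, le_rfl, ?_⟩
  intro b p m w F V K hB hF hV hK0 hK hw hwm hwF χ h t
  have hb : 2 ≤ b := by have := hB.three; omega
  have hb' : (0 : ℝ) < b := by exact_mod_cast (by omega : 0 < b)
  have hm : 1 ≤ m := by omega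
  obtain ⟨l, rfl⟩ : ∃ l, w = 1 + l := ⟨w - 1, by omega⟩
  set P := (starRingEnd ℂ) (χ (p : ZMod (b ^ m))) * ((b : ℂ) ^ (m - 1)) ^ (-(t * I)) with hP
  have hPn : ‖P‖ ≤ 1 := by
    rw [hP, norm_mul, RCLike.norm_conj]
    have h1 : ‖χ (p : ZMod (b ^ m))‖ ≤ 1 := DirichletCharacter.norm_le_one _ _
    have h2 := norm_npow_le (b ^ (m - 1)) t
    push_cast at h2
    calc ‖χ (p : ZMod (b ^ m))‖ * ‖((b : ℂ) ^ (m - 1)) ^ (-(t * I))‖ ≤ 1 * 1 := by gcongr
      _ = 1 := by norm_num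
  set J := ∫ y in (p : ℝ)..(p + 1 : ℝ), (V y : ℂ) * (y : ℂ) ^ (-(t * I)) with hJ
  have hp1 : (1 : ℝ) ≤ p := by exact_mod_cast hB.prime.pos
  -- main estimate
  have hav : ((b : ℝ) ^ l) * ‖∑ ω ∈ RR b p m F, gg V t ((topv b ω : ℝ) / (b : ℝ) ^ (m - 1)) -
      (RR b p m F).card * J‖ ≤ (RR b p m F).card * (K + |t|) := by
    have e := avgT (m := m) (F := F) hB le_rfl hwm hwF
      (fun ω => gg V t ((topv b ω : ℝ) / (b : ℝ) ^ (m - 1)))
    rw [nsmul_eq_mul] at e
    have e2 : ((b : ℝ) ^ l) * ‖∑ ω ∈ RR b p m F, gg V t ((topv b ω : ℝ) / (b : ℝ) ^ (m - 1)) -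
        (RR b p m F).card * J‖ =
        ‖((b ^ l : ℕ) : ℂ) * ∑ ω ∈ RR b p m F, gg V t ((topv b ω : ℝ) / (b : ℝ) ^ (m - 1)) -
          ((b ^ l : ℕ) : ℂ) * ((RR b p m F).card * J)‖ := by
      rw [← mul_sub, norm_mul, Complex.norm_natCast]; push_cast; rfl
    have e3 : ((b ^ l : ℕ) : ℂ) * ((RR b p m F).card * J) =
        ∑ ω ∈ RR b p m F, ((b ^ l : ℕ) : ℂ) * J := by
      rw [Finset.sum_const, nsmul_eq_mul]; ring
    have e8 : ((RR b p m F).card : ℝ) * (K + |t|) = ∑ _ω ∈ RR b p m F, (K + |t|) := by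
      rw [Finset.sum_const, nsmul_eq_mul]
    rw [e2, ← e, e3, ← Finset.sum_sub_distrib, e8]
    refine (norm_sum_le _ _).trans (Finset.sum_le_sum fun ω hω => ?_)
    obtain ⟨W, hW1, hW2⟩ := topv_split hB hwm hω
    have hrhi : rhi b 1 ω = p := by
      unfold rhi; simp [ext2_zero (by omega) hω]
    rw [hrhi] at hW2
    have hN : 1 ≤ b ^ l := Nat.one_le_pow _ _ (by omega)
    have hθ0 : (0 : ℝ) ≤ (W : ℝ) / (b : ℝ) ^ (m - 1 - l) := by positivity
    have hθ1 : (W : ℝ) / (b : ℝ) ^ (m - 1 - l) ≤ 1 := by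
      rw [div_le_one (by positivity)]
      exact_mod_cast hW1.le
    have hr := riem (g := gg V t) (L := K + |t|) (a := p) (by positivity)
      (fun y hy z hz => gg_lip hV hK t (hp1.trans hy.1) (hp1.trans hz.1)) hθ0 hθ1 hN
    have e4 : ∀ z ∈ Finset.range (b ^ l), gg V t ((topv b (putT b 1 l z ω) : ℝ) /
        (b : ℝ) ^ (m - 1)) = gg V t (p + (z + (W : ℝ) / (b : ℝ) ^ (m - 1 - l)) / ((b ^ l : ℕ) : ℝ)) := by
      intro z hz
      rw [Finset.mem_range] at hz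
      rw [topv_putT hwm hz, hW2]
      congr 1
      have e5 : (b : ℝ) ^ (m - 1) = (b : ℝ) ^ (m - 1 - l) * (b : ℝ) ^ l := by
        rw [← pow_add]; congr 1; omega
      have h6 : (b : ℝ) ^ (m - 1 - l) ≠ 0 := by positivity
      have h7 : (b : ℝ) ^ l ≠ 0 := by positivity
      push_cast
      rw [e5]
      field_simp
      ring
    rw [Finset.sum_congr rfl e4]
    exact hr
  have e6 : cc b p F V χ t - P * (RR b p m F).card * J =
      P * (∑ ω ∈ RR b p m F, gg V t ((topv b ω : ℝ) / (b : ℝ) ^ (m - 1)) -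
        (RR b p m F).card * J) := by
    rw [cc_eq, Finset.sum_congr rfl fun ω hω => trm_gg hb hm h t hω, ← Finset.mul_sum]
    ring
  rw [e6, norm_mul]
  have hbl : (0 : ℝ) < (b : ℝ) ^ l := by positivity
  have h7 : ‖∑ ω ∈ RR b p m F, gg V t ((topv b ω : ℝ) / (b : ℝ) ^ (m - 1)) -
      (RR b p m F).card * J‖ ≤ (RR b p m F).card * (K + |t|) / (b : ℝ) ^ l := by
    rw [le_div_iff₀ hbl, mul_comm]; exact hav
  have h8 : K + |t| ≤ (1 + K) * (1 + |t|) := by nlinarith [abs_nonneg t]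
  have hb1 : (1 : ℝ) ≤ b := by exact_mod_cast (by omega : 1 ≤ b)
  calc ‖P‖ * _ ≤ 1 * ((RR b p m F).card * (K + |t|) / (b : ℝ) ^ l) := by gcongr
    _ ≤ 1 * ((RR b p m F).card * ((1 + K) * (1 + |t|)) / (b : ℝ) ^ l) := by gcongr
    _ = (1 + K) * (1 + |t|) * (b : ℝ) * ((b : ℝ) ^ (1 + l))⁻¹ * (RR b p m F).card := by
      rw [pow_add, pow_one]; field_simp
    _ ≤ (1 + K) * (1 + |t|) * (b : ℝ) ^ 2 * ((b : ℝ) ^ (1 + l))⁻¹ * (RR b p m F).card := by
      gcongr
      nlinarith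
    _ = _ := by ring

end Pool.Agent.HPP
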