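import Pool.Agent.HPP.DRoot

/-! # HPP/DSpc: sums of `min(N, 1/‖x‖)` over spaced points; Abel summation -/

namespace Pool.Agent.HPP

open Complex

/-- `min(N, 1/‖x‖)` -/
noncomputable def DD (N x : ℝ) : ℝ := N / max 1 (N * |x - round x|)

lemma DD_nonneg {N : ℝ} (hN : 0 ≤ N) (x : ℝ) : 0 ≤ DD N x := by unfold DD; positivity

lemma DD_le {N : ℝ} (hN : 0 ≤ N) (x : ℝ) : DD N x ≤ N := by
  unfold DD
  exact div_le_self hN (le_max_left _ _)

lemma DD_le_inv {N x : ℝ} (hN : 0 < N) (hx : 0 < |x - round x|) :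
    DD N x ≤ |x - round x|⁻¹ := by
  unfold DD
  have h1 : 0 < N * |x - round x| := by positivity
  calc N / max 1 (N * |x - round x|) ≤ N / (N * |x - round x|) := by
        gcongr
        exact le_max_right _ _
    _ = _ := by field_simp

open Classical in
theorem spaced {T : Finset ℕ} {x : ℕ → ℝ} {δ a L N : ℝ} (hδ : 0 < δ) (hδ1 : δ ≤ 1) (hN : 1 ≤ N)
    (hL : 0 ≤ L) (hx : ∀ r ∈ T, a ≤ x r ∧ x r ≤ a + L)
    (hs : ∀ r ∈ T, ∀ s ∈ T, r ≠ s → δ ≤ |x r - x s|) :
    ∑ r ∈ T, DD N (x r) ≤ (L + 3) * 2 * (N + δ⁻¹ * (1 + Real.log δ⁻¹)) := by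
  set n := ⌊δ⁻¹⌋₊ with hn
  set dk : ℕ → ℝ := fun k => if k = 0 then N else ((k : ℝ) * δ)⁻¹ with hdk
  have hdk0 : ∀ k, 0 ≤ dk k := by
    intro k; simp only [hdk]; split_ifs <;> positivity
  set φ : ℕ → ℤ × Bool × ℕ := fun r =>
    (round (x r), decide ((round (x r) : ℝ) ≤ x r), ⌊|x r - round (x r)| / δ⌋₊) with hφ
  have hinj : Set.InjOn φ T := by
    intro r hr s hs' h
    by_contra hne
    have h0 := hs r hr s hs' hne
    simp only [hφ, Prod.mk.injEq] at h
    obtain ⟨h1, h2, h3⟩ := h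
    have h4 : |(|x r - round (x r)| / δ) - (|x s - round (x s)| / δ)| < 1 := by
      have a1 := Nat.floor_le (a := |x r - round (x r)| / δ) (by positivity)
      have a2 := Nat.lt_floor_add_one (|x r - round (x r)| / δ)
      have b1 := Nat.floor_le (a := |x s - round (x s)| / δ) (by positivity)
      have b2 := Nat.lt_floor_add_one (|x s - round (x s)| / δ)
      rw [h3] at a1 a2
      rw [abs_lt]; constructor <;> linarith
    have h5 : |x r - x s| = abs (|x r - round (x r)| - |x s - round (x s)|) := by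
      by_cases hc : (round (x r) : ℝ) ≤ x r
      · have hc' : (round (x s) : ℝ) ≤ x s := by
          have : decide ((round (x r) : ℝ) ≤ x r) = true := decide_eq_true hc
          rw [h2] at this
          exact of_decide_eq_true this
        rw [abs_of_nonneg (sub_nonneg.2 hc), abs_of_nonneg (sub_nonneg.2 hc'), h1]
        congr 1; ring
      · have hc' : ¬ (round (x s) : ℝ) ≤ x s := by
          have : decide ((round (x r) : ℝ) ≤ x r) = false := decide_eq_false hc
          rw [h2] at this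
          exact of_decide_eq_false this
        rw [abs_of_neg (show x r - round (x r) < 0 by linarith),
          abs_of_neg (show x s - round (x s) < 0 by linarith), h1, abs_sub_comm]
        congr 1; ring
    rw [← sub_div, abs_div, abs_of_pos hδ, ← h5, div_lt_one hδ] at h4
    linarith
  have hle : ∀ r ∈ T, DD N (x r) ≤ dk (φ r).2.2 := by
    intro r _
    simp only [hφ, hdk]
    split_ifs with h
    · exact DD_le (by linarith) _
    · have h1 := Nat.floor_le (a := |x r - round (x r)| / δ) (by positivity)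
      have hk : (0 : ℝ) < ⌊|x r - round (x r)| / δ⌋₊ := by
        exact_mod_cast Nat.pos_of_ne_zero h
      rw [le_div_iff₀ hδ] at h1
      have h2 : 0 < |x r - round (x r)| := lt_of_lt_of_le (by positivity) h1
      refine (DD_le_inv (by linarith) h2).trans ?_
      exact inv_anti₀ (by positivity) h1
  set H := Finset.Icc ⌈a - 1 / 2⌉ ⌊a + L + 1 / 2⌋ with hH
  have hmaps : ∀ r ∈ T, φ r ∈ H ×ˢ (Finset.univ : Finset Bool) ×ˢ Finset.range (n + 1) := by
    intro r hr
    have h1 := abs_sub_round (x r)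
    rw [abs_le] at h1
    have h2 := hx r hr
    simp only [hφ, Finset.mem_product, Finset.mem_univ, true_and, Finset.mem_range, hH,
      Finset.mem_Icc]
    refine ⟨⟨?_, ?_⟩, ?_⟩
    · rw [Int.ceil_le]; linarith
    · rw [Int.le_floor]; linarith
    · rw [Nat.lt_succ_iff, hn]
      apply Nat.floor_le_floor
      rw [div_le_iff₀ hδ, inv_mul_cancel₀ hδ.ne', abs_le]
      constructor <;> linarith
  have hcardH : (H.card : ℝ) ≤ L + 2 := by
    rw [hH, Int.card_Icc]
    have h1 : (⌊a + L + 1 / 2⌋ : ℝ) ≤ a + L + 1 / 2 := Int.floor_le _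
    have h2 : a - 1 / 2 ≤ (⌈a - 1 / 2⌉ : ℝ) := Int.le_ceil _
    have h3 : (((⌊a + L + 1 / 2⌋ + 1 - ⌈a - 1 / 2⌉).toNat : ℕ) : ℝ) =
        ((max (⌊a + L + 1 / 2⌋ + 1 - ⌈a - 1 / 2⌉) 0 : ℤ) : ℝ) := by
      rw [← Int.toNat_eq_max, Int.cast_natCast]
    rw [h3]
    push_cast
    apply max_le <;> linarith
  have hharm : ∑ k ∈ Finset.range (n + 1), dk k ≤ N + δ⁻¹ * (1 + Real.log δ⁻¹) := by
    rw [Finset.sum_range_succ']
    have e0 : dk 0 = N := by simp [hdk]
    have e1 : ∀ k ∈ Finset.range n, dk (k + 1) = δ⁻¹ * ((k + 1 : ℕ) : ℝ)⁻¹ := by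
      intro k _
      simp only [hdk, Nat.add_eq_zero_iff, one_ne_zero, and_false, if_false]
      rw [mul_inv, mul_comm]
    rw [e0, Finset.sum_congr rfl e1, ← Finset.mul_sum]
    have h3 : ∑ j ∈ Finset.range n, ((j + 1 : ℕ) : ℝ)⁻¹ = ((harmonic n : ℚ) : ℝ) := by
      simp [harmonic]
    rw [h3]
    have h4 := harmonic_le_one_add_log n
    have hδi : 1 ≤ δ⁻¹ := (one_le_inv₀ hδ).2 hδ1
    have hn1 : 1 ≤ n := by rw [hn]; exact (Nat.one_le_floor_iff _).2 hδi
    have h5 : Real.log n ≤ Real.log δ⁻¹ := by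
      apply Real.log_le_log (by exact_mod_cast hn1)
      exact Nat.floor_le (by positivity)
    have h6 : δ⁻¹ * ((harmonic n : ℚ) : ℝ) ≤ δ⁻¹ * (1 + Real.log δ⁻¹) := by
      gcongr
      linarith
    linarith
  calc ∑ r ∈ T, DD N (x r) ≤ ∑ r ∈ T, dk (φ r).2.2 := Finset.sum_le_sum hle
    _ = ∑ y ∈ T.image φ, dk y.2.2 := by
      rw [Finset.sum_image (f := fun y : ℤ × Bool × ℕ => dk y.2.2) hinj]
    _ ≤ ∑ y ∈ H ×ˢ (Finset.univ : Finset Bool) ×ˢ Finset.range (n + 1), dk y.2.2 := by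
      refine Finset.sum_le_sum_of_subset_of_nonneg ?_ fun y _ _ => hdk0 _
      intro y hy
      rw [Finset.mem_image] at hy
      obtain ⟨r, hr, rfl⟩ := hy
      exact hmaps r hr
    _ = H.card * 2 * ∑ k ∈ Finset.range (n + 1), dk k := by
      rw [Finset.sum_product]
      simp only [Finset.sum_product, Finset.sum_const, Finset.card_univ, Fintype.card_bool,
        nsmul_eq_mul]
      push_cast
      ring
    _ ≤ (L + 3) * 2 * (N + δ⁻¹ * (1 + Real.log δ⁻¹)) := by
      have h0 : 0 ≤ ∑ k ∈ Finset.range (n + 1), dk k := Finset.sum_nonneg fun k _ => hdk0 k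
      have h1 : (H.card : ℝ) * 2 ≤ (L + 3) * 2 := by linarith
      gcongr

/-- Abel summation -/
lemma abel (A : ℕ → ℂ) (ζ : ℂ) (N : ℕ) :
    ∑ z ∈ Finset.range N, A z * ζ ^ z = A N * (∑ z ∈ Finset.range N, ζ ^ z) -
      ∑ z ∈ Finset.range N, (A (z + 1) - A z) * ∑ y ∈ Finset.range (z + 1), ζ ^ y := by
  induction N with
  | zero => simp
  | succ N ih =>
    rw [Finset.sum_range_succ, ih, Finset.sum_range_succ (fun z => (A (z + 1) - A z) *
      ∑ y ∈ Finset.range (z + 1), ζ ^ y), Finset.sum_range_succ (fun z => ζ ^ z)]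
    ring

lemma abel_le {A : ℕ → ℂ} {ζ : ℂ} {N : ℕ} {D : ℝ} (h1 : ‖ζ‖ ≤ 1) (h : ζ ≠ 1) (hA : ‖A N‖ ≤ 1)
    (hD : ∀ z < N, ‖A (z + 1) - A z‖ ≤ D) :
    ‖∑ z ∈ Finset.range N, A z * ζ ^ z‖ ≤ (1 + N * D) * Hz ζ := by
  rw [abel]
  refine (norm_sub_le _ _).trans ?_
  rw [norm_mul]
  have h2 := geo_le h1 h N
  have h3 : ‖∑ z ∈ Finset.range N, (A (z + 1) - A z) * ∑ y ∈ Finset.range (z + 1), ζ ^ y‖ ≤
      N * (D * Hz ζ) := by
    refine (norm_sum_le _ _).trans ?_
    have : ∀ z ∈ Finset.range N, ‖(A (z + 1) - A z) * ∑ y ∈ Finset.range (z + 1), ζ ^ y‖ ≤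
        D * Hz ζ := by
      intro z hz
      rw [Finset.mem_range] at hz
      rw [norm_mul]
      have hD0 : 0 ≤ D := (norm_nonneg _).trans (hD z hz)
      exact mul_le_mul (hD z hz) (geo_le h1 h _) (norm_nonneg _) hD0
    refine (Finset.sum_le_sum this).trans ?_
    rw [Finset.sum_const, Finset.card_range, nsmul_eq_mul]
  have h4 : ‖A N‖ * ‖∑ z ∈ Finset.range N, ζ ^ z‖ ≤ 1 * Hz ζ :=
    mul_le_mul hA h2 (norm_nonneg _) zero_le_one
  linarith

lemma norm_e_ge (x : ℝ) : 4 * |x - round x| ≤ ‖Complex.exp (2 * Real.pi * I * x) - 1‖ := by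
  set y := x - round x with hy
  have e1 : Complex.exp (2 * Real.pi * I * x) = Complex.exp (I * ((2 * Real.pi * y : ℝ) : ℂ)) := by
    rw [Complex.exp_eq_exp_iff_exists_int]
    refine ⟨round x, ?_⟩
    rw [hy]; push_cast; ring
  rw [e1, Complex.norm_exp_I_mul_ofReal_sub_one, Real.norm_eq_abs, abs_mul, abs_two]
  have e2 : 2 * Real.pi * y / 2 = Real.pi * y := by ring
  rw [e2]
  have hpi := Real.pi_pos
  have h1 : |y| ≤ 1 / 2 := abs_sub_round x
  have h2 : |Real.pi * y| ≤ Real.pi / 2 := by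
    rw [abs_mul, abs_of_pos hpi]; nlinarith
  have h3 := Real.mul_abs_le_abs_sin h2
  rw [abs_mul, abs_of_pos hpi] at h3
  have h4 : 2 / Real.pi * (Real.pi * |y|) = 2 * |y| := by field_simp
  rw [h4] at h3
  linarith

/-- the second difference of the logarithm against the linear phase -/
lemma phase {X B q : ℝ} {N z : ℕ} (hX : 0 < X) (hq : 0 < q) (h1 : X ≤ B) (h2 : B ≤ X + q)
    (hz : z < N) :
    |Real.log (B + (z + 1) * q) - Real.log (B + z * q) - q / X| ≤ 2 * N * q ^ 2 / X ^ 2 := by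
  set Y := B + z * q with hY
  set Y' := B + (z + 1) * q with hY'
  have hzq : 0 ≤ (z : ℝ) * q := by positivity
  have hYX : X ≤ Y := by linarith
  have hYY : Y' = Y + q := by rw [hY, hY']; ring
  have hzN : (z : ℝ) + 1 ≤ N := by exact_mod_cast hz
  have hN1 : (1 : ℝ) ≤ N := by
    have : (0 : ℝ) ≤ z := Nat.cast_nonneg _
    linarith
  have hY'X : Y' ≤ X + 2 * N * q := by
    rw [hY']
    nlinarith
  have hYp : 0 < Y := by linarith
  have hY'p : 0 < Y' := by linarith
  rw [← Real.log_div hY'p.ne' hYp.ne']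
  have a1 : Real.log (Y' / Y) ≤ q / Y := by
    have := Real.log_le_sub_one_of_pos (x := Y' / Y) (by positivity)
    have e : Y' / Y - 1 = q / Y := by rw [hYY]; field_simp; ring
    linarith
  have a2 : q / Y' ≤ Real.log (Y' / Y) := by
    have := Real.log_le_sub_one_of_pos (x := Y / Y') (by positivity)
    have e : Y / Y' - 1 = -(q / Y') := by
      have : Y = Y' - q := by linarith
      rw [this]; field_simp; ring
    have e2 : Real.log (Y / Y') = -Real.log (Y' / Y) := by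
      rw [← Real.log_inv, inv_div]
    linarith
  have a3 : q / Y ≤ q / X := by gcongr
  have a4 : q / X - q / Y' ≤ 2 * N * q ^ 2 / X ^ 2 := by
    have e : q / X - q / Y' = q * (Y' - X) / (X * Y') := by field_simp
    rw [e]
    have : q * (Y' - X) / (X * Y') ≤ q * (2 * N * q) / (X * X) := by
      gcongr <;> linarith
    refine this.trans (le_of_eq ?_)
    ring
  rw [abs_le]
  constructor
  · linarith
  · have : 0 ≤ 2 * N * q ^ 2 / X ^ 2 := by positivity
    linarith

end Pool.Agent.HPP
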