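import Pool.Agent.HPP.DSm
import Pool.Agent.HPP.DSpc

/-! # HPP/DTop: SupTopProp -/

namespace Pool.Agent.HPP

open Complex

variable {b p m m' i₀ l : ℕ} {F : Finset ℕ} {V : ℝ → ℝ} {χ : DirichletCharacter ℂ (b ^ m)}

/-- the sum over the digits of a free top block -/
lemma top_inner {K : ℝ} (hV : ∀ y, 0 ≤ V y ∧ V y ≤ 1) (hK0 : 0 ≤ K)
    (hK : ∀ y z, |V y - V z| ≤ K * |y - z|) {X B q M t : ℝ} {N : ℕ} (hN : 1 ≤ N) (hX : 0 < X)
    (hq : 0 < q) (hM : 0 < M) (h1 : X ≤ B) (h2 : B ≤ X + q) (h3 : N * q ≤ M)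
    (h4 : |t| * (N * q) ^ 2 ≤ 4 * X ^ 2) :
    ‖∑ z ∈ Finset.range N, (V ((B + z * q) / M) : ℂ) * ((B + z * q : ℝ) : ℂ) ^ (-(t * I))‖ ≤
      9 * (1 + K) * DD N (-(t * q) / (2 * Real.pi * X)) := by
  have hN' : (1 : ℝ) ≤ N := by exact_mod_cast hN
  have hpi := Real.pi_pos
  set θ : ℝ := -(t * q) / (2 * Real.pi * X) with hθ
  set ζ : ℂ := Complex.exp (2 * Real.pi * I * θ) with hζ
  have hYp : ∀ z : ℕ, 0 < B + z * q := fun z => by
    have : (0 : ℝ) ≤ z * q := by positivity
    linarith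
  -- trivial bound
  have htriv : ‖∑ z ∈ Finset.range N, (V ((B + z * q) / M) : ℂ) *
      ((B + z * q : ℝ) : ℂ) ^ (-(t * I))‖ ≤ N := by
    refine (norm_sum_le _ _).trans ?_
    have : ∀ z ∈ Finset.range N, ‖(V ((B + z * q) / M) : ℂ) *
        ((B + z * q : ℝ) : ℂ) ^ (-(t * I))‖ ≤ 1 := by
      intro z _
      rw [norm_mul, Complex.norm_real, Real.norm_eq_abs, abs_of_nonneg (hV _).1,
        cpow_neg (hYp z), Complex.norm_exp_I_mul_ofReal, mul_one]
      exact (hV _).2
    refine (Finset.sum_le_sum this).trans ?_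
    simp
  by_cases hsmall : (N : ℝ) * |θ - round θ| ≤ 1
  · have : DD N θ = N := by unfold DD; rw [max_eq_left hsmall, div_one]
    rw [this]
    refine htriv.trans ?_
    nlinarith
  · push Not at hsmall
    have hpos : 0 < |θ - round θ| := by
      by_contra h
      have : |θ - round θ| = 0 := le_antisymm (not_lt.1 h) (abs_nonneg _)
      rw [this] at hsmall; simp at hsmall; linarith
    have hDD : DD N θ = |θ - round θ|⁻¹ := by
      unfold DD; rw [max_eq_right hsmall.le]; field_simp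
    have hge := norm_e_ge θ
    rw [← hζ] at hge
    have hζ1 : ζ ≠ 1 := by
      intro h; rw [h, sub_self, norm_zero] at hge; linarith
    have hζn : ‖ζ‖ ≤ 1 := by
      have e : (2 * Real.pi * I * θ : ℂ) = I * ((2 * Real.pi * θ : ℝ) : ℂ) := by push_cast; ring
      rw [hζ, e, Complex.norm_exp_I_mul_ofReal]
    set A : ℕ → ℂ := fun z => (V ((B + z * q) / M) : ℂ) *
      Complex.exp (I * ((-(t * Real.log (B + z * q)) + t * z * q / X : ℝ) : ℂ)) with hA
    have hterm : ∀ z ∈ Finset.range N, (V ((B + z * q) / M) : ℂ) *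
        ((B + z * q : ℝ) : ℂ) ^ (-(t * I)) = A z * ζ ^ z := by
      intro z _
      simp only [hA, hζ]
      rw [cpow_neg (hYp z), ← Complex.exp_nat_mul, mul_assoc, ← Complex.exp_add]
      congr 2
      rw [hθ]
      have : (Real.pi : ℂ) ≠ 0 := by exact_mod_cast hpi.ne'
      have : (X : ℂ) ≠ 0 := by exact_mod_cast hX.ne'
      push_cast
      field_simp
      ring
    rw [Finset.sum_congr rfl hterm]
    have hAN : ‖A N‖ ≤ 1 := by
      simp only [hA]
      rw [norm_mul, Complex.norm_real, Real.norm_eq_abs, abs_of_nonneg (hV _).1,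
        Complex.norm_exp_I_mul_ofReal, mul_one]
      exact (hV _).2
    have hD : ∀ z < N, ‖A (z + 1) - A z‖ ≤ K * (q / M) + |t| * (2 * N * q ^ 2 / X ^ 2) := by
      intro z hz
      simp only [hA]
      set e1 := Complex.exp (I * ((-(t * Real.log (B + ((z + 1 : ℕ) : ℝ) * q)) +
        t * ((z + 1 : ℕ) : ℝ) * q / X : ℝ) : ℂ)) with he1
      set e0 := Complex.exp (I * ((-(t * Real.log (B + z * q)) + t * z * q / X : ℝ) : ℂ)) with he0
      have hd : (V ((B + ((z + 1 : ℕ) : ℝ) * q) / M) : ℂ) * e1 - (V ((B + z * q) / M) : ℂ) * e0 =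
          ((V ((B + ((z + 1 : ℕ) : ℝ) * q) / M) - V ((B + z * q) / M) : ℝ) : ℂ) * e1 +
            (V ((B + z * q) / M) : ℂ) * (e1 - e0) := by push_cast; ring
      rw [hd]
      refine (norm_add_le _ _).trans ?_
      rw [norm_mul, norm_mul, Complex.norm_real, Complex.norm_real, Real.norm_eq_abs,
        Real.norm_eq_abs, abs_of_nonneg (hV ((B + z * q) / M)).1]
      have n1 : ‖e1‖ = 1 := by rw [he1, Complex.norm_exp_I_mul_ofReal]
      rw [n1, mul_one]
      have c1 := hK ((B + ((z + 1 : ℕ) : ℝ) * q) / M) ((B + z * q) / M)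
      have c2 : |(B + ((z + 1 : ℕ) : ℝ) * q) / M - (B + z * q) / M| = q / M := by
        have : (B + ((z + 1 : ℕ) : ℝ) * q) / M - (B + z * q) / M = q / M := by
          push_cast; field_simp; ring
        rw [this, abs_of_pos (by positivity)]
      rw [c2] at c1
      have c3 : ‖e1 - e0‖ ≤ |t| * (2 * N * q ^ 2 / X ^ 2) := by
        rw [he1, he0]
        refine (norm_exp_sub_le _ _).trans ?_
        have e : (-(t * Real.log (B + ((z + 1 : ℕ) : ℝ) * q)) + t * ((z + 1 : ℕ) : ℝ) * q / X) -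
            (-(t * Real.log (B + z * q)) + t * z * q / X) =
            -(t * (Real.log (B + ((z : ℝ) + 1) * q) - Real.log (B + z * q) - q / X)) := by
          push_cast; ring
        rw [e, abs_neg, abs_mul]
        exact mul_le_mul_of_nonneg_left (phase hX hq h1 h2 hz) (abs_nonneg t)
      have c4 : V ((B + z * q) / M) * ‖e1 - e0‖ ≤ 1 * (|t| * (2 * N * q ^ 2 / X ^ 2)) :=
        mul_le_mul (hV _).2 c3 (norm_nonneg _) zero_le_one
      linarith
    refine (abel_le hζn hζ1 hAN hD).trans ?_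
    have hND : (1 : ℝ) + N * (K * (q / M) + |t| * (2 * N * q ^ 2 / X ^ 2)) ≤ 9 * (1 + K) := by
      have d1 : (N : ℝ) * (K * (q / M)) ≤ K := by
        have : (N : ℝ) * (K * (q / M)) = K * (N * q / M) := by ring
        rw [this]
        have : (N : ℝ) * q / M ≤ 1 := by rw [div_le_one hM]; exact h3
        nlinarith
      have d2 : (N : ℝ) * (|t| * (2 * N * q ^ 2 / X ^ 2)) ≤ 8 := by
        have : (N : ℝ) * (|t| * (2 * N * q ^ 2 / X ^ 2)) = 2 * (|t| * (N * q) ^ 2) / X ^ 2 := by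
          ring
        rw [this, div_le_iff₀ (by positivity)]
        linarith
      nlinarith
    have hHz : Hz ζ ≤ DD N θ := by
      rw [hDD]
      unfold Hz
      calc 2 / ‖ζ - 1‖ ≤ 2 / (4 * |θ - round θ|) := by gcongr
        _ = |θ - round θ|⁻¹ / 2 := by field_simp; norm_num
        _ ≤ |θ - round θ|⁻¹ := by
          have : 0 < |θ - round θ|⁻¹ := by positivity
          linarith
    have h9 : (0 : ℝ) ≤ 9 * (1 + K) := by positivity
    exact mul_le_mul hND hHz (Hz_nonneg _) h9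

/-- the count over the leading digits -/
lemma sum_lead {R N β : ℝ} {n : ℕ} {σ : ℝ} (hσ : σ = 1 ∨ σ = -1) (hR : 3 ≤ R) (hRn : R = n)
    (hN : 1 ≤ N) (h1 : R ≤ 2 * Real.pi * β) (h2 : 2 * Real.pi * β * N ≤ R ^ 2) (h3 : N ≤ R) :
    ∑ r ∈ (Finset.range n).filter (fun r => n ≤ 2 * r), DD N (σ * (β / r)) ≤
      256 * (R * (1 + Real.log R)) := by
  have hpi := Real.pi_pos
  have hpi3 := Real.pi_gt_three
  have hpi4 := Real.pi_lt_four
  have hβ : 0 < β := by
    by_contra h
    have : 2 * Real.pi * β ≤ 0 := by nlinarith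
    linarith
  have hR0 : 0 < R := by linarith
  set δ := β / R ^ 2 with hδ
  have hδ0 : 0 < δ := by positivity
  have hδ1 : δ ≤ 1 := by
    rw [hδ, div_le_one (by positivity)]
    have : β * 1 ≤ 2 * Real.pi * β * N := by
      have : 1 ≤ 2 * Real.pi * N := by nlinarith
      nlinarith
    linarith
  have hmem : ∀ r ∈ (Finset.range n).filter (fun r => n ≤ 2 * r), R / 2 ≤ (r : ℝ) ∧ (r : ℝ) ≤ R := by
    intro r hr
    rw [Finset.mem_filter, Finset.mem_range] at hr
    rw [hRn]
    constructor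
    · have : (n : ℝ) ≤ 2 * r := by exact_mod_cast hr.2
      linarith
    · exact_mod_cast hr.1.le
  have hrange : ∀ r ∈ (Finset.range n).filter (fun r => n ≤ 2 * r),
      β / R ≤ β / r ∧ β / r ≤ 2 * (β / R) := by
    intro r hr
    obtain ⟨a1, a2⟩ := hmem r hr
    have hr0 : (0 : ℝ) < r := by linarith
    constructor
    · gcongr
    · rw [div_le_iff₀ hr0]
      have : 2 * (β / R) * r = β * (2 * r / R) := by ring
      rw [this]
      have : 1 ≤ 2 * (r : ℝ) / R := by rw [le_div_iff₀ hR0]; linarith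
      nlinarith
  have hsp : ∀ r ∈ (Finset.range n).filter (fun r => n ≤ 2 * r),
      ∀ s ∈ (Finset.range n).filter (fun r => n ≤ 2 * r), r ≠ s →
      δ ≤ |σ * (β / r) - σ * (β / s)| := by
    intro r hr s hs hne
    obtain ⟨a1, a2⟩ := hmem r hr
    obtain ⟨b1, b2⟩ := hmem s hs
    have hr0 : (0 : ℝ) < r := by linarith
    have hs0 : (0 : ℝ) < s := by linarith
    have e : |σ * (β / r) - σ * (β / s)| = β * |(s : ℝ) - r| / (r * s) := by
      have : σ * (β / r) - σ * (β / s) = σ * (β * ((s : ℝ) - r) / (r * s)) := by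
        field_simp
      rw [this, abs_mul]
      have hσ1 : |σ| = 1 := by rcases hσ with h | h <;> simp [h]
      rw [hσ1, one_mul, abs_div, abs_mul, abs_of_pos hβ, abs_of_pos (mul_pos hr0 hs0)]
    rw [e, hδ]
    have h1' : (1 : ℝ) ≤ |(s : ℝ) - r| := by
      have : (1 : ℤ) ≤ |(s : ℤ) - r| := Int.one_le_abs (by omega)
      exact_mod_cast this
    have h2' : (r : ℝ) * s ≤ R ^ 2 := by nlinarith
    calc β / R ^ 2 = β * 1 / R ^ 2 := by ring
      _ ≤ β * |(s : ℝ) - r| / (r * s) := by gcongr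
  have key : ∀ a, (∀ r ∈ (Finset.range n).filter (fun r => n ≤ 2 * r),
      a ≤ σ * (β / r) ∧ σ * (β / r) ≤ a + β / R) →
      ∑ r ∈ (Finset.range n).filter (fun r => n ≤ 2 * r), DD N (σ * (β / r)) ≤
      256 * (R * (1 + Real.log R)) := by
    intro a ha
    have hs := spaced (x := fun r : ℕ => σ * (β / r)) (a := a) (L := β / R) (N := N) hδ0 hδ1 hN
      (by positivity) ha hsp
    refine hs.trans ?_
    have i1 : δ⁻¹ = R ^ 2 / β := by rw [hδ, inv_div]
    have i2 : R ^ 2 / β ≤ 8 * R := by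
      rw [div_le_iff₀ hβ]
      nlinarith
    have i3 : Real.log δ⁻¹ ≤ 3 + Real.log R := by
      rw [i1]
      calc Real.log (R ^ 2 / β) ≤ Real.log (8 * R) := Real.log_le_log (by positivity) i2
        _ = Real.log 8 + Real.log R := Real.log_mul (by norm_num) hR0.ne'
        _ ≤ 3 + Real.log R := by
          have : Real.log 8 ≤ 3 := by
            have : (8 : ℝ) = 2 ^ (3 : ℕ) := by norm_num
            rw [this, Real.log_pow]
            have := Real.log_two_lt_d9
            push_cast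
            linarith
          linarith
    have i4 : 0 ≤ Real.log δ⁻¹ := Real.log_nonneg ((one_le_inv₀ hδ0).2 hδ1)
    have i5 : β / R * N ≤ R := by
      rw [div_mul_eq_mul_div, div_le_iff₀ hR0]
      have : β * N ≤ 2 * Real.pi * β * N := by
        have : 0 ≤ β * N := by positivity
        nlinarith
      nlinarith
    have i6 : β / R * δ⁻¹ = R := by rw [i1]; field_simp
    have i7 : δ⁻¹ ≤ 8 * R := by rw [i1]; exact i2
    have hlogR : 0 ≤ Real.log R := Real.log_nonneg (by linarith)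
    have j1 : (β / R + 3) * N ≤ 4 * R := by nlinarith
    have j2 : (β / R + 3) * δ⁻¹ ≤ 25 * R := by
      rw [add_mul, i6]; linarith
    have j3 : (β / R + 3) * (δ⁻¹ * (1 + Real.log δ⁻¹)) ≤ 25 * R * (4 + Real.log R) := by
      rw [← mul_assoc]
      have : (0 : ℝ) ≤ 25 * R := by positivity
      apply mul_le_mul j2 (by linarith) (by linarith) this
    have j4 : (β / R + 3) * 2 * (N + δ⁻¹ * (1 + Real.log δ⁻¹)) =
        2 * ((β / R + 3) * N) + 2 * ((β / R + 3) * (δ⁻¹ * (1 + Real.log δ⁻¹))) := by ring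
    rw [j4]
    nlinarith [mul_nonneg hR0.le hlogR]
  rcases hσ with h | h
  · apply key (β / R)
    intro r hr
    have := hrange r hr
    rw [h]
    constructor <;> linarith
  · apply key (-(2 * (β / R)))
    intro r hr
    have := hrange r hr
    rw [h]
    constructor <;> linarith

lemma rhi_ge (hi : 1 ≤ i₀) (hm : 1 ≤ m) {ω : Fin m → ℕ × ℕ} (hω : ω ∈ RR b p m F) :
    p * b ^ (i₀ - 1) ≤ rhi b i₀ ω := by
  unfold rhi
  have := Finset.single_le_sum (f := fun s => ext2 ω (i₀ - 1 - s) * b ^ s)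
    (fun i _ => Nat.zero_le _) (Finset.mem_range.2 (by omega : i₀ - 1 < i₀))
  simpa [ext2_zero (by omega) hω] using this

theorem supTop : SupTopProp := by
  refine ⟨6912, by norm_num, ?_⟩
  intro b p m i l F V K hB hF hV hK0 hK hi hil hilF χ h t ht1 ht2
  have hb : 2 ≤ b := by have := hB.three; omega
  have hb3 : (3 : ℝ) ≤ b := by exact_mod_cast hB.three
  have hb' : (0 : ℝ) < b := by linarith
  have hm : 1 ≤ m := by omega
  have hpi := Real.pi_pos
  have hli : l ≤ i := by
    by_contra hcon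
    have : (b : ℝ) ^ (2 * i) < (b : ℝ) ^ (i + l) :=
      pow_lt_pow_right₀ (by linarith) (by omega)
    linarith
  set R : ℝ := (b : ℝ) ^ i with hR
  set N : ℝ := (b : ℝ) ^ l with hN
  have hR3 : 3 ≤ R := by
    calc (3 : ℝ) ≤ b := hb3
      _ = (b : ℝ) ^ 1 := (pow_one _).symm
      _ ≤ (b : ℝ) ^ i := pow_le_pow_right₀ (by linarith) hi
  have hN1 : 1 ≤ N := one_le_pow₀ (by linarith)
  set β : ℝ := |t| / (2 * Real.pi * N) with hβ
  have hβN : 2 * Real.pi * β * N = |t| := by rw [hβ]; field_simp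
  have hRN : (b : ℝ) ^ (i + l) = R * N := by rw [pow_add]
  have hR2 : (b : ℝ) ^ (2 * i) = R ^ 2 := by rw [mul_comm, pow_mul]
  rw [hRN] at ht1
  rw [hR2] at ht2
  -- the sign
  obtain ⟨σ, hσ, hσt⟩ : ∃ σ : ℝ, (σ = 1 ∨ σ = -1) ∧ -t = σ * |t| := by
    rcases le_total 0 t with h0 | h0
    · exact ⟨-1, Or.inr rfl, by rw [abs_of_nonneg h0]; ring⟩
    · exact ⟨1, Or.inl rfl, by rw [abs_of_nonpos h0]; ring⟩
  have hinner : ∀ ω ∈ RR b p m F,
      ‖∑ z ∈ Finset.range (b ^ l), trm b m V χ t (putT b i l z ω)‖ ≤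
        9 * (1 + K) * DD N (σ * (β / (rhi b i ω : ℕ))) := by
    intro ω hω
    obtain ⟨W, hW1, hW2⟩ := topv_split hB hil hω
    set ρ := rhi b i ω with hρ
    have hρ1 : p * b ^ (i - 1) ≤ ρ := rhi_ge hi hm hω
    have hρ2 : b ^ i ≤ 2 * ρ := by
      have : b * b ^ (i - 1) ≤ 2 * p * b ^ (i - 1) := Nat.mul_le_mul_right _ hB.gt.le
      have e : b * b ^ (i - 1) = b ^ i := by rw [← pow_succ']; congr 1; omega
      rw [e] at this
      calc b ^ i ≤ 2 * p * b ^ (i - 1) := this
        _ = 2 * (p * b ^ (i - 1)) := by ring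
        _ ≤ 2 * ρ := by omega
    have hρr : R ≤ 2 * (ρ : ℝ) := by rw [hR]; exact_mod_cast hρ2
    have hρ0 : (0 : ℝ) < ρ := by linarith
    set q : ℝ := (b : ℝ) ^ (m - i - l) with hq
    set X : ℝ := ρ * (b : ℝ) ^ (m - i) with hX
    set B : ℝ := X + W with hB'
    have hq0 : 0 < q := by positivity
    have hX0 : 0 < X := by positivity
    have hNq : N * q = (b : ℝ) ^ (m - i) := by
      rw [hN, hq, ← pow_add]; congr 1; omega
    have hM0 : (0 : ℝ) < (b : ℝ) ^ (m - 1) := by positivity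
    have hti := top_inner (X := X) (B := B) (q := q) (M := (b : ℝ) ^ (m - 1)) (t := t)
      (N := b ^ l) hV hK0 hK (Nat.one_le_pow _ _ (by omega)) hX0 hq0 hM0
      (by rw [hB']; linarith [(Nat.cast_nonneg W : (0 : ℝ) ≤ W)])
      (by
        rw [hB']
        have : (W : ℝ) ≤ q := by rw [hq]; exact_mod_cast hW1.le
        linarith)
      (by
        push_cast
        rw [← hN, hNq]
        exact pow_le_pow_right₀ (by linarith) (by omega))
      (by
        push_cast
        rw [← hN, hNq, hX, mul_pow]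
        have : |t| ≤ 4 * (ρ : ℝ) ^ 2 := by nlinarith
        calc |t| * ((b : ℝ) ^ (m - i)) ^ 2 ≤ 4 * (ρ : ℝ) ^ 2 * ((b : ℝ) ^ (m - i)) ^ 2 := by gcongr
          _ = _ := by ring)
    have hθ : -(t * q) / (2 * Real.pi * X) = σ * (β / (ρ : ℝ)) := by
      rw [hX, ← hNq, hβ]
      have : -(t * q) = σ * |t| * q := by rw [← hσt]; ring
      rw [this]
      field_simp
    rw [hθ] at hti
    have hNc : ((b ^ l : ℕ) : ℝ) = N := by rw [hN]; push_cast; rfl
    rw [hNc] at hti
    have hsum : ∑ z ∈ Finset.range (b ^ l), trm b m V χ t (putT b i l z ω) =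
        (starRingEnd ℂ) (χ (p : ZMod (b ^ m))) * ∑ z ∈ Finset.range (b ^ l),
          (V ((B + z * q) / (b : ℝ) ^ (m - 1)) : ℂ) * ((B + z * q : ℝ) : ℂ) ^ (-(t * I)) := by
      rw [Finset.mul_sum]
      refine Finset.sum_congr rfl fun z hz => ?_
      rw [Finset.mem_range] at hz
      unfold trm wt
      rw [lowv_putT, chi_low hb hm h hω]
      have e : ((topv b (putT b i l z ω) : ℕ) : ℝ) = B + z * q := by
        rw [topv_putT hil hz, hW2, hB', hX, hq]
        push_cast
        ring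
      have e2 : ((topv b (putT b i l z ω) : ℕ) : ℂ) = ((B + z * q : ℝ) : ℂ) := by
        rw [← e]; simp
      rw [e, e2]
      ring
    rw [hsum, norm_mul, RCLike.norm_conj]
    have h1 : ‖χ (p : ZMod (b ^ m))‖ ≤ 1 := DirichletCharacter.norm_le_one _ _
    calc ‖χ (p : ZMod (b ^ m))‖ * _ ≤ 1 * _ := by gcongr
      _ ≤ _ := by rw [one_mul]; exact hti
  have hav : N * ‖cc b p F V χ t‖ ≤
      ∑ ω ∈ RR b p m F, 9 * (1 + K) * DD N (σ * (β / (rhi b i ω : ℕ))) := by
    have e := avgT (m := m) (F := F) hB hi hil hilF (fun ω => trm b m V χ t ω)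
    rw [← cc_eq, nsmul_eq_mul] at e
    have e2 : N * ‖cc b p F V χ t‖ = ‖((b ^ l : ℕ) : ℂ) * cc b p F V χ t‖ := by
      rw [norm_mul, Complex.norm_natCast, hN]; push_cast; rfl
    rw [e2, ← e]
    exact (norm_sum_le _ _).trans (Finset.sum_le_sum hinner)
  have h9 : (0 : ℝ) ≤ 9 * (1 + K) := by positivity
  have hfib := sum_fibT (F := F) (m := m) (i₀ := i) hB (by omega)
    (fun r => 9 * (1 + K) * DD N (σ * (β / (r : ℕ))))
    (fun r => mul_nonneg h9 (DD_nonneg (by linarith) _))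
    ((Finset.range (b ^ i)).filter fun r => b ^ i ≤ 2 * r) (by
      intro ω hω
      rw [Finset.mem_filter, Finset.mem_range]
      refine ⟨rhi_lt hB hω _, ?_⟩
      have hρ1 : p * b ^ (i - 1) ≤ rhi b i ω := rhi_ge hi hm hω
      have : b * b ^ (i - 1) ≤ 2 * p * b ^ (i - 1) := Nat.mul_le_mul_right _ hB.gt.le
      have e : b * b ^ (i - 1) = b ^ i := by rw [← pow_succ']; congr 1; omega
      rw [e] at this
      calc b ^ i ≤ 2 * p * b ^ (i - 1) := this
        _ = 2 * (p * b ^ (i - 1)) := by ring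
        _ ≤ 2 * rhi b i ω := by omega)
  have hlead := sum_lead (n := b ^ i) (β := β) hσ hR3 (by rw [hR]; push_cast; rfl) hN1
    (by
      have : R * N ≤ 2 * Real.pi * β * N := by rw [hβN]; exact ht1
      exact le_of_mul_le_mul_right this (by linarith))
    (by rw [hβN]; exact ht2)
    (by rw [hR, hN]; exact pow_le_pow_right₀ (by linarith) hli)
  have hlogR : Real.log R = i * Real.log b := by rw [hR, Real.log_pow]
  have hlogb : 0 ≤ Real.log b := Real.log_nonneg (by linarith)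
  have hRR : (0 : ℝ) ≤ (RR b p m F).card := Nat.cast_nonneg _
  have h5 : ∑ ω ∈ RR b p m F, 9 * (1 + K) * DD N (σ * (β / (rhi b i ω : ℕ))) ≤
      b * 3 ^ i * (RR b p m F).card * (9 * (1 + K) * (256 * (1 + i * Real.log b))) := by
    have h6 : (∑ ω ∈ RR b p m F, 9 * (1 + K) * DD N (σ * (β / (rhi b i ω : ℕ)))) * R ≤
        b * 3 ^ i * (RR b p m F).card * (9 * (1 + K) * (256 * (R * (1 + i * Real.log b)))) := by
      refine hfib.trans ?_
      rw [← Finset.mul_sum]
      rw [hlogR] at hlead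
      gcongr
    have h8 : b * 3 ^ i * ((RR b p m F).card : ℝ) *
        (9 * (1 + K) * (256 * (R * (1 + i * Real.log b)))) =
        b * 3 ^ i * (RR b p m F).card * (9 * (1 + K) * (256 * (1 + i * Real.log b))) * R := by ring
    rw [h8] at h6
    exact le_of_mul_le_mul_right h6 (by linarith)
  have h10 : N * ‖cc b p F V χ t‖ ≤
      6912 ^ m * (1 + K) * (m * Real.log b + 1) * b ^ 2 * (RR b p m F).card := by
    refine hav.trans (h5.trans ?_)
    have e1 : (3 : ℝ) ^ i * (9 * 256) ≤ 6912 ^ m := by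
      have : (3 : ℝ) ^ i ≤ 3 ^ m := pow_le_pow_right₀ (by norm_num) (by omega)
      calc (3 : ℝ) ^ i * (9 * 256) ≤ 3 ^ m * 2304 ^ m := by
            have : (9 * 256 : ℝ) ≤ 2304 ^ m := by
              calc (9 * 256 : ℝ) = 2304 ^ 1 := by norm_num
                _ ≤ 2304 ^ m := pow_le_pow_right₀ (by norm_num) hm
            gcongr
        _ = 6912 ^ m := by rw [← mul_pow]; norm_num
    have e2 : (i : ℝ) ≤ m := by exact_mod_cast (by omega : i ≤ m)
    have e3 : (1 : ℝ) + i * Real.log b ≤ m * Real.log b + 1 := by nlinarith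
    have e4 : (b : ℝ) ≤ (b : ℝ) ^ 2 := by nlinarith
    calc b * 3 ^ i * ((RR b p m F).card : ℝ) * (9 * (1 + K) * (256 * (1 + i * Real.log b)))
        = (3 ^ i * (9 * 256)) * (1 + K) * (1 + i * Real.log b) * b * (RR b p m F).card := by ring
      _ ≤ _ := by gcongr
  have hN0 : (0 : ℝ) < N := by linarith
  rw [mul_comm, ← le_div_iff₀ hN0] at h10
  refine h10.trans (le_of_eq ?_)
  rw [div_eq_mul_inv]
  ring

end Pool.Agent.HPP
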