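import Mathlib

/-!
# HPP/Defs: primes whose outer digits are palindromic (MP_e8d2ce_nt)

Target. For every `ε > 0` there is `b₀` such that for every base `b ≥ b₀` and all large `k` there are
at least `b ^ (13 k / 18)` primes with exactly `k` base-`b` digits, all but `ε k` of whose digit pairs
`(i, k - 1 - i)`, `i < 5 k / 18`, are equal.

Notation. `q = b ^ m`. A pattern is a function `ω : Fin m → ℕ × ℕ`; `(ω i).1` is the digit at position
`i`, `(ω i).2` the digit at position `k - 1 - i`. `Sd b p F i` = the admissible pairs: at `0` both are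
the prime `p` (`b / 2 < p < b`); at a free position (`i ∈ F`) both are arbitrary and independent; at
the other (matched) positions they are equal and `< b / 2`.
-/

namespace Pool.Agent.HPP

open Complex MeasureTheory

/-- admissible pairs (low digit, top digit) at position `i`; `F` = set of free positions -/
def Sd (b p : ℕ) (F : Finset ℕ) (i : ℕ) : Finset (ℕ × ℕ) :=
  if i = 0 then {(p, p)}
  else if i ∈ F then Finset.range b ×ˢ Finset.range b
  else (Finset.range (b / 2)).image fun d => (d, d)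

/-- the set of patterns -/
def RR (b p m : ℕ) (F : Finset ℕ) : Finset (Fin m → ℕ × ℕ) :=
  Fintype.piFinset fun i => Sd b p F i

/-- the last `m` digits, as a number `< b ^ m` -/
def lowv (b : ℕ) {m : ℕ} (ω : Fin m → ℕ × ℕ) : ℕ := ∑ i, (ω i).1 * b ^ (i : ℕ)

/-- the first `m` digits, as a number in `[b ^ (m - 1), b ^ m)` -/
def topv (b : ℕ) {m : ℕ} (ω : Fin m → ℕ × ℕ) : ℕ := ∑ i, (ω i).2 * b ^ (m - 1 - (i : ℕ))

/-- the weight of a pattern: `V` of the real number `d₀.d₁d₂...` formed by the first digits -/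
noncomputable def wt (b : ℕ) (V : ℝ → ℝ) {m : ℕ} (ω : Fin m → ℕ × ℕ) : ℝ :=
  V ((topv b ω : ℝ) / (b : ℝ) ^ (m - 1))

/-- the sum `c(χ, t) = ∑_ω wt(ω) conj χ(low) top^(-it)` -/
noncomputable def cc (b p : ℕ) {m : ℕ} (F : Finset ℕ) (V : ℝ → ℝ)
    (χ : DirichletCharacter ℂ (b ^ m)) (t : ℝ) : ℂ :=
  ∑ ω ∈ RR b p m F, (wt b V ω : ℂ) * (starRingEnd ℂ) (χ (lowv b ω : ZMod (b ^ m))) *
    (topv b ω : ℂ) ^ (-(t * I))

/-- base hypotheses: `p` is a prime, `b / 2 < p < b` -/
structure Bas (b p : ℕ) : Prop where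
  three : 3 ≤ b
  prime : p.Prime
  lt : p < b
  gt : b < 2 * p

/-- unit indices of the free blocks -/
def Bk (J : ℕ) : Finset ℕ :=
  {0} ∪ (Finset.range J).image (fun l => 2 ^ l) ∪
    Finset.Ico (2 ^ (J - 1)) (2 ^ (J - 1) + 2 * J)

/-- the free positions: `1 ≤ i < 2 ^ J w` with `i / w` in `Bk J` -/
def Fr (J w : ℕ) : Finset ℕ := (Finset.Ico 1 (2 ^ J * w)).filter fun i => i / w ∈ Bk J

/-- prime polynomial with Gaussian weight -/
noncomputable def PP {Q : ℕ} (χ : DirichletCharacter ℂ Q) (t x : ℝ) : ℂ :=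
  ∑' n : ℕ, (ArithmeticFunction.vonMangoldt n : ℂ) * χ (n : ZMod Q) * (n : ℂ) ^ (t * I) *
    (Real.exp (-(Real.log (n / x)) ^ 2) : ℂ)

/-- the range of `t`: `|t| ≤ T`, and `|t| ≥ κ` for the trivial character -/
def Gt {Q : ℕ} (χ : DirichletCharacter ℂ Q) (κ T : ℝ) : Set ℝ :=
  {t | |t| ≤ T ∧ (χ = 1 → κ ≤ |t|)}

/-- general Dirichlet polynomial `∑ a(n) χ(n) n^(it)` -/
noncomputable def SS {Q : ℕ} (a : ℕ → ℂ) (χ : DirichletCharacter ℂ Q) (t : ℝ) : ℂ :=
  ∑' n : ℕ, a n * χ (n : ZMod Q) * (n : ℂ) ^ (t * I)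

/-- Gaussian weight centred at `exp v`, of variance parameter `j` (`0` at `n = 0`) -/
noncomputable def gw (j v : ℝ) (n : ℕ) : ℝ :=
  if n = 0 then 0 else Real.exp (-(Real.log n - v) ^ 2 / j)

end Pool.Agent.HPP
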