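import Pool.Agent.HPP.Defs
import Pool.Agent.PNT.Ker

/-!
# HPP/EGen: fourth moments of `∑ w_i conj χ(L_i) X_i^(-it)` by counting quadruples

`q ≥ 1`, `L_i` prime to `q`, `X_i > 0`, `0 ≤ w_i ≤ 1`, `T > 0`. Then with an absolute `C`
`∑_χ ∫_{-T}^T |∑_i w_i conj χ(L_i) X_i^(-it)|^4 dt ≤ C T φ(q) #{(i₁,i₂,i₃,i₄) : L_{i₁} L_{i₄} ≡ L_{i₂} L_{i₃}
mod q, |log(X_{i₁} X_{i₄}) - log(X_{i₂} X_{i₃})| ≤ 1 / T}`.

Proof. Let `K` be a continuous integrable function `≥ 0` with `K ≥ c > 0` on `[-1, 1]` and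
`∫ K(t) e^(iut) dt = Λ(u)`, `0 ≤ Λ(u) ≤ C`, `Λ(u) = 0` for `|u| > 1` (a rescaled Fejer kernel: the file
`Pool/Agent/PNT/Ker` has `fk v` with `fk_fourier`, `fk_nonneg`, `fk_int`; or `PNT/Fejer`:
`K x = 2 (1 - cos x)/x²` with `K_eq_integral`; `1 - cos x ≥ 2x²/π²` for `|x| ≤ π`; rescale so that the
transform is supported in `[-1,1]`). With `S = ∑_i w_i conj χ(L_i) X_i^(-it)` we have
`|S|^4 = |S²|² = ∑_{i₁,i₄,i₂,i₃} w w w w conj χ(L_{i₁} L_{i₄}) χ(L_{i₂} L_{i₃})
 e^(-it (log(X_{i₁}X_{i₄}) - log(X_{i₂}X_{i₃})))`. Multiply by `K(t/T)`, integrate over `t ∈ ℝ` and sum over `χ`: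
by orthogonality (`DirichletCharacter.sum_char_inv_mul_char_eq`) the sum over `χ` is `φ(q)` or `0`, and
the integral is `T Λ(T u) ≤ C T`, zero unless `|u| ≤ 1/T`. All terms are real and `≥ 0`. Finally
`∫_{-T}^T |S|^4 ≤ c⁻¹ ∫_ℝ K(t/T) |S|^4`.
-/

namespace Pool.Agent.HPP

open Complex MeasureTheory
open scoped FourierTransform
open Pool.Agent.PNT (fk fk_nonneg fk_le fk_meas fk_int fk_fourier)

/-- the triangle function -/
private noncomputable def tri (u : ℝ) : ℝ := max 0 (1 - |u|)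

private theorem tri_cont : Continuous tri := by
  unfold tri; fun_prop

private theorem tri_zero {u : ℝ} (h : 1 < |u|) : tri u = 0 := by
  unfold tri; rw [max_eq_left]; linarith

private theorem tri_nonneg (u : ℝ) : 0 ≤ tri u := le_max_left _ _

private theorem tri_le (u : ℝ) : tri u ≤ 1 := by
  unfold tri
  apply max_le zero_le_one
  linarith [abs_nonneg u]

private theorem fk_even (v : ℝ) : fk (-v) = fk v := by
  unfold fk
  simp

private theorem tri_int (g : ℝ → ℂ) : ∫ y : ℝ, ((tri y : ℝ) : ℂ) * g y =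
    ∫ y in (-1 : ℝ)..1, ((1 - |y| / 1 : ℝ) : ℂ) * g y := by
  rw [intervalIntegral.integral_of_le (by norm_num), ← integral_indicator measurableSet_Ioc]
  congr 1
  ext y
  by_cases hy : y ∈ Set.Ioc (-1 : ℝ) 1
  · rw [Set.indicator_of_mem hy]
    have : |y| ≤ 1 := abs_le.2 ⟨hy.1.le, hy.2⟩
    unfold tri
    rw [max_eq_right (by linarith)]
    simp
  · rw [Set.indicator_of_notMem hy]
    have : 1 ≤ |y| := by
      by_contra h
      push Not at h
      exact hy ⟨(abs_lt.1 h).1, (abs_lt.1 h).2.le⟩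
    unfold tri
    rw [max_eq_left (by linarith)]
    simp

private theorem tri_four : 𝓕 (fun y : ℝ => ((tri y : ℝ) : ℂ)) =
    fun ξ : ℝ => ((fk (2 * Real.pi * ξ) : ℝ) : ℂ) := by
  ext ξ
  rw [Real.fourier_real_eq_integral_exp_smul]
  have h := fk_fourier (l := 1) one_pos (-(2 * Real.pi * ξ))
  have h2 := tri_int (fun y => Complex.exp (Complex.I * (y * ((-(2 * Real.pi * ξ) : ℝ) : ℂ))))
  rw [h] at h2
  rw [one_mul, one_mul, fk_even] at h2
  rw [← h2]
  congr 1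
  ext y
  rw [smul_eq_mul, mul_comm]
  congr 2
  push_cast
  ring

private theorem tri_integrable : Integrable (fun y : ℝ => ((tri y : ℝ) : ℂ)) := by
  apply Continuous.integrable_of_hasCompactSupport
  · exact continuous_ofReal.comp tri_cont
  · apply HasCompactSupport.intro (isCompact_Icc (a := (-1 : ℝ)) (b := 1))
    intro y hy
    have : 1 < |y| := by
      by_contra h
      push Not at h
      exact hy ⟨(abs_le.1 h).1, (abs_le.1 h).2⟩
    rw [tri_zero this]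
    simp

private theorem fk_hat (u : ℝ) : ∫ t : ℝ, ((fk t : ℝ) : ℂ) * Complex.exp (-(t * u) * I) =
    ((2 * Real.pi * tri u : ℝ) : ℂ) := by
  have hpi : (0 : ℝ) < 2 * Real.pi := by positivity
  have h := Continuous.fourierInv_fourier_eq (continuous_ofReal.comp tri_cont) tri_integrable
    (by
      rw [show (ofReal ∘ tri : ℝ → ℂ) = fun y : ℝ => ((tri y : ℝ) : ℂ) from rfl, tri_four]
      exact ((fk_int.comp_mul_left' hpi.ne').ofReal))
  rw [show (ofReal ∘ tri : ℝ → ℂ) = fun y : ℝ => ((tri y : ℝ) : ℂ) from rfl, tri_four] at h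
  have h1 := congrFun h (-u)
  rw [Real.fourierInv_eq'] at h1
  have h2 : ∀ v : ℝ, cexp (↑(2 * Real.pi * inner ℝ v (-u)) * I) • ((fk (2 * Real.pi * v) : ℝ) : ℂ) =
      (fun t : ℝ => ((fk t : ℝ) : ℂ) * Complex.exp (-(t * u) * I)) (2 * Real.pi * v) := by
    intro v
    simp only [smul_eq_mul]
    rw [mul_comm]
    congr 2
    simp
    ring
  rw [integral_congr_ae (Filter.Eventually.of_forall h2),
    Measure.integral_comp_mul_left (fun t : ℝ => ((fk t : ℝ) : ℂ) * Complex.exp (-(t * u) * I))] at h1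
  have h3 : tri (-u) = tri u := by unfold tri; simp
  rw [h3] at h1
  rw [abs_of_pos (by positivity)] at h1
  rw [ofReal_mul, ← h1, real_smul, ← mul_assoc, ← ofReal_mul, mul_inv_cancel₀ hpi.ne']
  simp

private theorem fk_hat' (T : ℝ) (hT : 0 < T) (u : ℝ) :
    ∫ t : ℝ, ((fk (t / T) : ℝ) : ℂ) * Complex.exp (-(t * u) * I) =
    ((2 * Real.pi * T * tri (T * u) : ℝ) : ℂ) := by
  have h1 := fk_hat (T * u)
  have h2 : ∀ t : ℝ, ((fk (t / T) : ℝ) : ℂ) * Complex.exp (-(t * u) * I) =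
      (fun t : ℝ => ((fk t : ℝ) : ℂ) * Complex.exp (-(t * ((T * u : ℝ) : ℂ)) * I)) (t / T) := by
    intro t
    simp only
    congr 2
    have : (T : ℂ) ≠ 0 := by exact_mod_cast hT.ne'
    push_cast
    field_simp
  rw [integral_congr_ae (Filter.Eventually.of_forall h2),
    Measure.integral_comp_div (fun t : ℝ => ((fk t : ℝ) : ℂ) *
      Complex.exp (-(t * ((T * u : ℝ) : ℂ)) * I)), h1, abs_of_pos hT, real_smul, ← ofReal_mul]
  congr 1
  ring

private theorem fk_ge {v : ℝ} (hv : |v| ≤ 1) : 4 / Real.pi ^ 2 ≤ fk v := by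
  have hpi := Real.pi_gt_three
  unfold fk
  split_ifs with h
  · rw [div_le_one (by positivity)]
    nlinarith
  · have hv2 : 0 < v ^ 2 := by positivity
    have := Real.cos_le_one_sub_mul_cos_sq (x := v) (by linarith)
    rw [le_div_iff₀ hv2]
    have e : 4 / Real.pi ^ 2 * v ^ 2 = 2 * (2 / Real.pi ^ 2 * v ^ 2) := by ring
    rw [e]
    linarith

private theorem fkT_int (T : ℝ) (hT : 0 < T) : Integrable (fun t : ℝ => fk (t / T)) := by
  simp_rw [div_eq_inv_mul]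
  exact fk_int.comp_mul_left' (inv_pos.2 hT).ne'

private theorem fkT_exp_int (T : ℝ) (hT : 0 < T) (u : ℝ) :
    Integrable (fun t : ℝ => ((fk (t / T) : ℝ) : ℂ) * Complex.exp (-(t * u) * I)) := by
  have h := (fkT_int T hT).ofReal (𝕜 := ℂ)
  refine h.mul_bdd (c := 1) ?_ ?_
  · apply Continuous.aestronglyMeasurable; fun_prop
  · refine Filter.Eventually.of_forall fun t => ?_
    rw [show (-(t * u) * I : ℂ) = ((-(t * u) : ℝ) : ℂ) * I by push_cast; ring,
      Complex.norm_exp_ofReal_mul_I]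

/-- the general second moment -/
private theorem second (q : ℕ) [NeZero q] {κ : Type} [DecidableEq κ] (S : Finset κ)
    (L : κ → ℕ) (Y a : κ → ℝ) (hL : ∀ i ∈ S, Nat.Coprime (L i) q)
    (ha : ∀ i ∈ S, 0 ≤ a i ∧ a i ≤ 1) (T : ℝ) (hT : 0 < T) :
    ∑ χ : DirichletCharacter ℂ q, ∫ t in (-T)..T,
      ‖∑ i ∈ S, (a i : ℂ) * (starRingEnd ℂ) (χ (L i : ZMod q)) * cexp (-(t * Y i) * I)‖ ^ 2 ≤
    (Real.pi ^ 3 / 2) * T * q.totient * ((S ×ˢ S).filter fun z =>
      (L z.1 ≡ L z.2 [MOD q]) ∧ |Y z.1 - Y z.2| ≤ 1 / T).card := by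
  classical
  set F : DirichletCharacter ℂ q → ℝ → ℂ := fun χ t =>
    ∑ i ∈ S, (a i : ℂ) * (starRingEnd ℂ) (χ (L i : ZMod q)) * cexp (-(t * Y i) * I) with hF
  have hFc : ∀ χ, Continuous (F χ) := by
    intro χ
    simp only [hF]
    fun_prop
  -- expansion
  have hexp : ∀ χ t, ((‖F χ t‖ ^ 2 : ℝ) : ℂ) = ∑ z ∈ S ×ˢ S, ((a z.1 : ℂ) * (a z.2 : ℂ)) *
      ((starRingEnd ℂ) (χ (L z.1 : ZMod q)) * χ (L z.2 : ZMod q)) *
        cexp (-(t * ((Y z.1 - Y z.2 : ℝ) : ℂ)) * I) := by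
    intro χ t
    rw [ofReal_pow, ← Complex.mul_conj', hF]
    simp only
    rw [map_sum, Finset.sum_mul_sum, Finset.sum_product]
    refine Finset.sum_congr rfl fun i _ => Finset.sum_congr rfl fun j _ => ?_
    simp only [map_mul, Complex.conj_conj, Complex.conj_ofReal, ← Complex.exp_conj, map_neg,
      Complex.conj_I]
    rw [show (-((t : ℂ) * ((Y i - Y j : ℝ) : ℂ)) * I) = (-(t * Y i) * I) + (-(t * Y j) * -I) by
      push_cast; ring, Complex.exp_add]
    ring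
  -- the weighted integral of one character
  have hint : ∀ χ, Integrable (fun t : ℝ => fk (t / T) * ‖F χ t‖ ^ 2) := by
    intro χ
    refine (fkT_int T hT).mul_bdd (c := (∑ i ∈ S, ‖(a i : ℂ) * (starRingEnd ℂ) (χ (L i : ZMod q))‖) ^ 2)
      ?_ ?_
    · exact ((hFc χ).norm.pow 2).aestronglyMeasurable
    · refine Filter.Eventually.of_forall fun t => ?_
      rw [Real.norm_of_nonneg (by positivity)]
      apply pow_le_pow_left₀ (norm_nonneg _)
      rw [hF]
      simp only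
      refine (norm_sum_le _ _).trans (Finset.sum_le_sum fun i _ => ?_)
      rw [norm_mul, show (-(t * Y i) * I : ℂ) = ((-(t * Y i) : ℝ) : ℂ) * I by push_cast; ring,
        Complex.norm_exp_ofReal_mul_I, mul_one]
  have hmaj : ∀ χ, ∫ t in (-T)..T, ‖F χ t‖ ^ 2 ≤
      (Real.pi ^ 2 / 4) * ∫ t : ℝ, fk (t / T) * ‖F χ t‖ ^ 2 := by
    intro χ
    rw [← integral_const_mul, intervalIntegral.integral_of_le (by linarith)]
    have hI : Integrable (fun t : ℝ => Real.pi ^ 2 / 4 * (fk (t / T) * ‖F χ t‖ ^ 2)) :=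
      (hint χ).const_mul _
    refine (setIntegral_mono_on ?_ hI.integrableOn measurableSet_Ioc ?_).trans
      (setIntegral_le_integral hI ?_)
    · exact (((hFc χ).norm.pow 2).integrableOn_Icc).mono_set Set.Ioc_subset_Icc_self
    · intro t ht
      have h1 : |t / T| ≤ 1 := by
        rw [abs_div, abs_of_pos hT, div_le_one hT]
        exact abs_le.2 ⟨ht.1.le, ht.2⟩
      have h2 := fk_ge h1
      have h3 : 1 ≤ Real.pi ^ 2 / 4 * fk (t / T) := by
        calc (1 : ℝ) = Real.pi ^ 2 / 4 * (4 / Real.pi ^ 2) := by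
              field_simp
          _ ≤ _ := by
              apply mul_le_mul_of_nonneg_left h2; positivity
      calc ‖F χ t‖ ^ 2 = 1 * ‖F χ t‖ ^ 2 := (one_mul _).symm
        _ ≤ (Real.pi ^ 2 / 4 * fk (t / T)) * ‖F χ t‖ ^ 2 :=
            mul_le_mul_of_nonneg_right h3 (by positivity)
        _ = _ := by ring
    · refine Filter.Eventually.of_forall fun t => ?_
      have := fk_nonneg (t / T)
      positivity
  have hval : ((∑ χ : DirichletCharacter ℂ q, ∫ t : ℝ, fk (t / T) * ‖F χ t‖ ^ 2 : ℝ) : ℂ) =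
      ∑ z ∈ S ×ˢ S, ((a z.1 : ℂ) * (a z.2 : ℂ)) *
        (∑ χ : DirichletCharacter ℂ q, (starRingEnd ℂ) (χ (L z.1 : ZMod q)) * χ (L z.2 : ZMod q)) *
          ((2 * Real.pi * T * tri (T * (Y z.1 - Y z.2)) : ℝ) : ℂ) := by
    rw [ofReal_sum]
    have h1 : ∀ χ : DirichletCharacter ℂ q, ((∫ t : ℝ, fk (t / T) * ‖F χ t‖ ^ 2 : ℝ) : ℂ) =
        ∑ z ∈ S ×ˢ S, ((a z.1 : ℂ) * (a z.2 : ℂ)) *
          ((starRingEnd ℂ) (χ (L z.1 : ZMod q)) * χ (L z.2 : ZMod q)) *
            ((2 * Real.pi * T * tri (T * (Y z.1 - Y z.2)) : ℝ) : ℂ) := by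
      intro χ
      rw [← integral_complex_ofReal]
      have h2 : ∀ t : ℝ, ((fk (t / T) * ‖F χ t‖ ^ 2 : ℝ) : ℂ) = ∑ z ∈ S ×ˢ S,
          (((a z.1 : ℂ) * (a z.2 : ℂ)) *
          ((starRingEnd ℂ) (χ (L z.1 : ZMod q)) * χ (L z.2 : ZMod q))) *
          (((fk (t / T) : ℝ) : ℂ) * cexp (-(t * ((Y z.1 - Y z.2 : ℝ) : ℂ)) * I)) := by
        intro t
        rw [ofReal_mul, hexp, Finset.mul_sum]
        refine Finset.sum_congr rfl fun z _ => ?_
        ring
      rw [integral_congr_ae (Filter.Eventually.of_forall h2), integral_finsetSum]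
      · refine Finset.sum_congr rfl fun z _ => ?_
        rw [integral_const_mul, fk_hat' T hT]
      · intro z _
        exact (fkT_exp_int T hT _).const_mul _
    rw [Finset.sum_congr rfl fun χ _ => h1 χ, Finset.sum_comm]
    refine Finset.sum_congr rfl fun z _ => ?_
    rw [Finset.mul_sum, Finset.sum_mul]
  have horth : ∀ z ∈ S ×ˢ S,
      (∑ χ : DirichletCharacter ℂ q, (starRingEnd ℂ) (χ (L z.1 : ZMod q)) * χ (L z.2 : ZMod q)) =
        if L z.1 ≡ L z.2 [MOD q] then (q.totient : ℂ) else 0 := by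
    intro z hz
    have hu : IsUnit ((L z.1 : ℕ) : ZMod q) :=
      (ZMod.isUnit_iff_coprime _ _).2 (hL _ (Finset.mem_product.1 hz).1)
    have h := DirichletCharacter.sum_char_inv_mul_char_eq ℂ hu ((L z.2 : ℕ) : ZMod q)
    have h' : ∀ χ : DirichletCharacter ℂ q, (starRingEnd ℂ) (χ (L z.1 : ZMod q)) =
        χ ((L z.1 : ZMod q))⁻¹ := by
      intro χ
      obtain ⟨u, hu⟩ := hu
      rw [starRingEnd_apply, MulChar.star_apply', MulChar.inv_apply, ← hu, Ring.inverse_unit,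
        ZMod.inv_coe_unit]
    rw [Finset.sum_congr rfl fun χ _ => by rw [h' χ], h]
    congr 1
    rw [ZMod.natCast_eq_natCast_iff]
  have hval2 : (∑ χ : DirichletCharacter ℂ q, ∫ t : ℝ, fk (t / T) * ‖F χ t‖ ^ 2) =
      ∑ z ∈ S ×ˢ S, (a z.1 * a z.2) *
        (if L z.1 ≡ L z.2 [MOD q] then (q.totient : ℝ) else 0) *
          (2 * Real.pi * T * tri (T * (Y z.1 - Y z.2))) := by
    apply Complex.ofReal_injective
    rw [hval, ofReal_sum]
    refine Finset.sum_congr rfl fun z hz => ?_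
    rw [horth z hz]
    split_ifs <;> push_cast <;> ring
  have hbd : (∑ χ : DirichletCharacter ℂ q, ∫ t : ℝ, fk (t / T) * ‖F χ t‖ ^ 2) ≤
      (q.totient : ℝ) * (2 * Real.pi * T) * ((S ×ˢ S).filter fun z =>
      (L z.1 ≡ L z.2 [MOD q]) ∧ |Y z.1 - Y z.2| ≤ 1 / T).card := by
    rw [hval2, Finset.card_filter, Nat.cast_sum, Finset.mul_sum]
    refine Finset.sum_le_sum fun z hz => ?_
    have h1 := ha _ (Finset.mem_product.1 hz).1
    have h2 := ha _ (Finset.mem_product.1 hz).2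
    have h3 : a z.1 * a z.2 ≤ 1 := mul_le_one₀ h1.2 h2.1 h2.2
    have h4 : 0 ≤ a z.1 * a z.2 := mul_nonneg h1.1 h2.1
    have hpi := Real.pi_pos
    by_cases hc : L z.1 ≡ L z.2 [MOD q]
    · by_cases hd : |Y z.1 - Y z.2| ≤ 1 / T
      · rw [if_pos hc, if_pos ⟨hc, hd⟩]
        have h5 := tri_le (T * (Y z.1 - Y z.2))
        have h6 := tri_nonneg (T * (Y z.1 - Y z.2))
        calc a z.1 * a z.2 * q.totient * (2 * Real.pi * T * tri (T * (Y z.1 - Y z.2)))
            ≤ 1 * q.totient * (2 * Real.pi * T * 1) := by gcongr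
          _ = _ := by push_cast; ring
      · have h5 : tri (T * (Y z.1 - Y z.2)) = 0 := by
          apply tri_zero
          rw [abs_mul, abs_of_pos hT]
          push Not at hd
          rw [div_lt_iff₀ hT] at hd
          linarith
        rw [h5]
        simp only [mul_zero]
        positivity
    · rw [if_neg hc]
      simp only [mul_zero, zero_mul]
      positivity
  calc ∑ χ : DirichletCharacter ℂ q, ∫ t in (-T)..T, ‖F χ t‖ ^ 2
      ≤ ∑ χ : DirichletCharacter ℂ q, (Real.pi ^ 2 / 4) * ∫ t : ℝ, fk (t / T) * ‖F χ t‖ ^ 2 :=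
        Finset.sum_le_sum fun χ _ => hmaj χ
    _ = (Real.pi ^ 2 / 4) * ∑ χ : DirichletCharacter ℂ q, ∫ t : ℝ, fk (t / T) * ‖F χ t‖ ^ 2 := by
        rw [Finset.mul_sum]
    _ ≤ (Real.pi ^ 2 / 4) * ((q.totient : ℝ) * (2 * Real.pi * T) * ((S ×ˢ S).filter fun z =>
      (L z.1 ≡ L z.2 [MOD q]) ∧ |Y z.1 - Y z.2| ≤ 1 / T).card) := by
        apply mul_le_mul_of_nonneg_left hbd; positivity
    _ = _ := by ring

theorem four_count : ∃ C : ℝ, 1 ≤ C ∧ ∀ (q : ℕ) [NeZero q] {ι : Type} [DecidableEq ι] (S : Finset ι)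
    (L : ι → ℕ) (X w : ι → ℝ), (∀ i ∈ S, Nat.Coprime (L i) q) → (∀ i ∈ S, 0 < X i) →
    (∀ i ∈ S, 0 ≤ w i ∧ w i ≤ 1) → ∀ T : ℝ, 0 < T →
    ∑ χ : DirichletCharacter ℂ q, ∫ t in (-T)..T,
      ‖∑ i ∈ S, (w i : ℂ) * (starRingEnd ℂ) (χ (L i : ZMod q)) * (X i : ℂ) ^ (-(t * I))‖ ^ 4 ≤
    C * T * q.totient * (((S ×ˢ S) ×ˢ (S ×ˢ S)).filter fun z =>
      (L z.1.1 * L z.2.2 ≡ L z.1.2 * L z.2.1 [MOD q]) ∧
      |Real.log (X z.1.1 * X z.2.2) - Real.log (X z.1.2 * X z.2.1)| ≤ 1 / T).card := by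
  refine ⟨Real.pi ^ 3 / 2, ?_, ?_⟩
  · have := Real.pi_gt_three
    nlinarith [sq_nonneg (Real.pi - 3), pow_pos Real.pi_pos 2]
  · intro q _ ι _ S L X w hL hX hw T hT
    classical
    have h := second q (S ×ˢ S) (fun p => L p.1 * L p.2) (fun p => Real.log (X p.1 * X p.2))
      (fun p => w p.1 * w p.2)
      (fun p hp => Nat.Coprime.mul_left (hL _ (Finset.mem_product.1 hp).1)
        (hL _ (Finset.mem_product.1 hp).2))
      (fun p hp => ⟨mul_nonneg (hw _ (Finset.mem_product.1 hp).1).1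
        (hw _ (Finset.mem_product.1 hp).2).1,
        mul_le_one₀ (hw _ (Finset.mem_product.1 hp).1).2 (hw _ (Finset.mem_product.1 hp).2).1
          (hw _ (Finset.mem_product.1 hp).2).2⟩) T hT
    have hsq : ∀ (χ : DirichletCharacter ℂ q) (t : ℝ),
        ‖∑ i ∈ S, (w i : ℂ) * (starRingEnd ℂ) (χ (L i : ZMod q)) * (X i : ℂ) ^ (-(t * I))‖ ^ 4 =
        ‖∑ p ∈ S ×ˢ S, ((w p.1 * w p.2 : ℝ) : ℂ) *
          (starRingEnd ℂ) (χ ((L p.1 * L p.2 : ℕ) : ZMod q)) *
            cexp (-(t * (Real.log (X p.1 * X p.2) : ℝ)) * I)‖ ^ 2 := by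
      intro χ t
      rw [show (4 : ℕ) = 2 * 2 from rfl, pow_mul, ← norm_pow, sq (∑ i ∈ S, _), Finset.sum_mul_sum,
        ← Finset.sum_product']
      congr 2
      refine Finset.sum_congr rfl fun p hp => ?_
      have h1 := hX _ (Finset.mem_product.1 hp).1
      have h2 := hX _ (Finset.mem_product.1 hp).2
      have e1 : ∀ x : ℝ, 0 < x → (x : ℂ) ^ (-(t * I)) = cexp (-(t * (Real.log x : ℝ)) * I) := by
        intro x hx
        rw [Complex.cpow_def_of_ne_zero (by exact_mod_cast hx.ne'), ← Complex.ofReal_log hx.le]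
        congr 1
        ring
      rw [e1 _ h1, e1 _ h2, Real.log_mul h1.ne' h2.ne']
      push_cast
      rw [map_mul, map_mul, show (-((t : ℂ) * ((Real.log (X p.1) : ℂ) + (Real.log (X p.2) : ℂ))) * I) =
        (-(t * (Real.log (X p.1) : ℂ)) * I) + (-(t * (Real.log (X p.2) : ℂ)) * I) by ring,
        Complex.exp_add]
      ring
    refine le_trans (le_of_eq ?_) (h.trans (le_of_eq ?_))
    · refine Finset.sum_congr rfl fun χ _ => ?_
      refine intervalIntegral.integral_congr fun t _ => ?_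
      exact hsq χ t
    · congr 2
      refine Finset.card_bij' (fun z _ => ((z.1.1, z.2.1), (z.2.2, z.1.2)))
        (fun z _ => ((z.1.1, z.2.2), (z.1.2, z.2.1))) ?_ ?_ ?_ ?_
      · intro z hz
        simp only [Finset.mem_filter, Finset.mem_product] at hz ⊢
        exact ⟨⟨⟨hz.1.1.1, hz.1.2.1⟩, ⟨hz.1.2.2, hz.1.1.2⟩⟩, hz.2⟩
      · intro z hz
        simp only [Finset.mem_filter, Finset.mem_product] at hz ⊢
        exact ⟨⟨⟨hz.1.1.1, hz.1.2.2⟩, ⟨hz.1.1.2, hz.1.2.1⟩⟩, hz.2⟩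
      · intro z _
        rfl
      · intro z _
        rfl

end Pool.Agent.HPP
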