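import Pool.Agent.HPP.EKey

/-!
# HPP/ESum: the number of quadruples

`E_φ = #{((r1, r2), (x, y)) : QL, QT} ≤ (m + 1) 8^m (b/2)^(#F + 1) N²`, `N = #MM`.

Proof. `r1 = r2`: then `low r1 (low y - low x) ≡ 0 mod b^m`, so `low y ≡ low x`, both `< b^m`, so `y = x`
(`step_pre` with `e = m`): `N · N` quadruples. `r1 ≠ r2` with first difference at `e` (necessarily
matched): there are `≤ N (b/2)^#{i matched, i ≥ e}` such pairs (given `r1`, `r2` agrees below `e`), and
for each `≤ 8^m (b/2)^#{i matched, i ≥ m - e}` pairs `(x, y)` (`key_count`). Let `μ = #matched = m - 1 -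
#F`, `N = (b/2)^μ` (`card_MM`). `#{matched ≥ m-e} ≤ e`, `#{matched < e} ≥ e - 1 - #F`, so
`#{matched ≥ e} + #{matched ≥ m-e} ≤ μ - (e - 1 - #F) + e = μ + 1 + #F`. Sum over `e` (`m` values).
-/

namespace Pool.Agent.HPP

open Finset

/-- strings supported on `A` with digits `< D` -/
private theorem card_pi_supp {m D : ℕ} (A : Finset (Fin m)) :
    (Fintype.piFinset fun i : Fin m => if i ∈ A then range D else {0}).card = D ^ A.card := by
  classical
  rw [Fintype.card_piFinset]
  have h1 : ∀ i : Fin m, (if i ∈ A then range D else ({0} : Finset ℕ)).card =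
      if i ∈ A then D else 1 := by
    intro i
    split_ifs <;> simp
  rw [prod_congr rfl fun i _ => h1 i, prod_ite, prod_const, prod_const_one, mul_one,
    filter_mem_eq_inter, univ_inter]

/-- matched positions -/
private def mt (m : ℕ) (F : Finset ℕ) (k : ℕ) : Finset (Fin m) :=
  univ.filter fun i : Fin m => (i : ℕ) ≠ 0 ∧ (i : ℕ) ∉ F ∧ k ≤ (i : ℕ)

private theorem mm_zero' {b m : ℕ} {F : Finset ℕ} {x : Fin m → ℕ} (hx : x ∈ MM b m F)
    (i : Fin m) (hi : (i : ℕ) = 0 ∨ (i : ℕ) ∈ F) : x i = 0 := by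
  unfold MM at hx
  have h1 := Fintype.mem_piFinset.1 hx i
  rw [if_pos hi, mem_singleton] at h1
  exact h1

open Classical in
/-- pairs which agree below `e` -/
private theorem card_pairs {b p m : ℕ} {F : Finset ℕ} (h : Bas b p) (e : Fin m) :
    ((MM b m F ×ˢ MM b m F).filter fun r => r.1 e ≠ r.2 e ∧ ∀ i < e, r.1 i = r.2 i).card ≤
      (MM b m F).card * (b / 2) ^ (mt m F e).card := by
  rw [← card_pi_supp (mt m F e), ← card_product]
  refine card_le_card_of_injOn (fun r => (r.1, fun i => if i < e then 0 else r.2 i)) ?_ ?_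
  · intro r hr
    rw [mem_coe, mem_filter, mem_product] at hr
    rw [mem_coe, mem_product]
    refine ⟨hr.1.1, ?_⟩
    rw [Fintype.mem_piFinset]
    intro i
    simp only
    by_cases hi : i < e
    · rw [if_pos hi]
      split_ifs with h2
      · have : e ≤ i := by
          rw [mt, mem_filter] at h2
          exact Fin.le_def.2 h2.2.2.2
        exact absurd hi (not_lt.2 this)
      · exact mem_singleton_self _
    · rw [if_neg hi]
      split_ifs with h2
      · exact mem_range.2 (es_MM_lt h hr.1.2 i)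
      · rw [mem_singleton]
        apply mm_zero' hr.1.2
        rw [mt, mem_filter] at h2
        by_contra hc
        rw [not_or] at hc
        exact h2 ⟨mem_univ _, hc.1, hc.2, Fin.le_def.1 (not_lt.1 hi)⟩
  · intro r hr r' hr' heq
    rw [mem_coe, mem_filter, mem_product] at hr hr'
    simp only [Prod.mk.injEq] at heq
    obtain ⟨h1, h2⟩ := heq
    refine Prod.ext h1 ?_
    funext i
    by_cases hi : i < e
    · rw [← hr.2.2 i hi, ← hr'.2.2 i hi, h1]
    · have h3 := congrFun h2 i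
      simp only [if_neg hi] at h3
      exact h3

/-- the exponents -/
private theorem expo_le {m : ℕ} {F : Finset ℕ} (hF : F ⊆ Ico 1 m) (e : Fin m) :
    (mt m F e).card + (mt m F (m - (e : ℕ))).card ≤ (m - 1 - F.card) + (F.card + 1) := by
  have hFc : F.card ≤ m - 1 := by
    have := card_le_card hF
    rwa [Nat.card_Ico] at this
  have hem := e.isLt
  -- the matched positions above `m - e`
  have h1 : (mt m F (m - (e : ℕ))).card ≤ (e : ℕ) := by
    have h2 : (mt m F (m - (e : ℕ))).card ≤ (Ico (m - (e : ℕ)) m).card := by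
      refine card_le_card_of_injOn (fun i : Fin m => (i : ℕ)) ?_ ?_
      · intro i hi
        rw [mem_coe, mt, mem_filter] at hi
        rw [mem_coe, mem_Ico]
        exact ⟨hi.2.2.2, i.isLt⟩
      · intro i _ j _ hij
        exact Fin.ext hij
    rw [Nat.card_Ico] at h2
    omega
  -- the matched positions from `e` on: the image lies in `[e, m)` minus `{0} ∪ F`
  have h3 : (mt m F e).card ≤ ((Ico (e : ℕ) m) \ (insert 0 F)).card := by
    refine card_le_card_of_injOn (fun i : Fin m => (i : ℕ)) ?_ ?_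
    · intro i hi
      rw [mem_coe, mt, mem_filter] at hi
      rw [mem_coe, mem_sdiff, mem_Ico, mem_insert, not_or]
      exact ⟨⟨hi.2.2.2, i.isLt⟩, hi.2.1, hi.2.2.1⟩
    · intro i _ j _ hij
      exact Fin.ext hij
  -- `range m` is the disjoint union of the positions below `e`, the matched ones and the rest
  have h4 : ((Ico (e : ℕ) m) \ (insert 0 F)).card + (e : ℕ) ≤ m := by
    have h5 : ((Ico (e : ℕ) m) \ (insert 0 F)).card ≤ (Ico (e : ℕ) m).card :=
      card_le_card sdiff_subset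
    rw [Nat.card_Ico] at h5
    omega
  omega

open Classical in
theorem quad_count {b p m : ℕ} {F : Finset ℕ} (h : Bas b p) (hm : 1 ≤ m) (hF : F ⊆ Ico 1 m)
    {φ : Fin m → ℕ × ℕ} (hφ : φ ∈ FF b m F) :
    (((MM b m F ×ˢ MM b m F) ×ˢ (MM b m F ×ˢ MM b m F)).filter fun z =>
      QL b p F φ z.1.1 z.1.2 z.2.1 z.2.2 ∧ QT b p F φ z.1.1 z.1.2 z.2.1 z.2.2).card ≤
    (m + 1) * 8 ^ m * (b / 2) ^ (F.card + 1) * (MM b m F).card ^ 2 := by
  have hb3 := h.three
  have hD : 1 ≤ b / 2 := by omega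
  set M := MM b m F with hM
  set Z := ((M ×ˢ M) ×ˢ (M ×ˢ M)).filter fun z =>
      QL b p F φ z.1.1 z.1.2 z.2.1 z.2.2 ∧ QT b p F φ z.1.1 z.1.2 z.2.1 z.2.2 with hZ
  have hmem : ∀ z ∈ Z, z.1.1 ∈ M ∧ z.1.2 ∈ M ∧ z.2.1 ∈ M ∧ z.2.2 ∈ M ∧
      QL b p F φ z.1.1 z.1.2 z.2.1 z.2.2 ∧ QT b p F φ z.1.1 z.1.2 z.2.1 z.2.2 := by
    intro z hz
    rw [hZ, mem_filter, mem_product, mem_product, mem_product] at hz
    exact ⟨hz.1.1.1, hz.1.1.2, hz.1.2.1, hz.1.2.2, hz.2.1, hz.2.2⟩
  -- the pieces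
  set Z0 := Z.filter fun z => z.1.1 = z.1.2 with hZ0
  set Ze : Fin m → Finset (((Fin m → ℕ) × (Fin m → ℕ)) × ((Fin m → ℕ) × (Fin m → ℕ))) := fun e =>
    Z.filter fun z => z.1.1 e ≠ z.1.2 e ∧ ∀ i < e, z.1.1 i = z.1.2 i with hZe
  have hcov : Z ⊆ Z0 ∪ univ.biUnion Ze := by
    intro z hz
    rw [mem_union]
    by_cases hd : z.1.1 = z.1.2
    · left
      rw [hZ0, mem_filter]
      exact ⟨hz, hd⟩
    · right
      rw [mem_biUnion]
      have hne : (univ.filter fun i : Fin m => z.1.1 i ≠ z.1.2 i).Nonempty := by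
        obtain ⟨i, hi⟩ := Function.ne_iff.1 hd
        exact ⟨i, mem_filter.2 ⟨mem_univ _, hi⟩⟩
      refine ⟨(univ.filter fun i : Fin m => z.1.1 i ≠ z.1.2 i).min' hne, mem_univ _, ?_⟩
      rw [hZe]
      simp only
      rw [mem_filter]
      refine ⟨hz, (mem_filter.1 (min'_mem _ hne)).2, ?_⟩
      intro i hi
      by_contra hc
      exact absurd (min'_le _ i (mem_filter.2 ⟨mem_univ _, hc⟩)) (not_le.2 hi)
  have h0 : Z0.card ≤ M.card ^ 2 := by
    rw [sq, ← card_product]
    refine card_le_card_of_injOn (fun z => (z.1.1, z.2.1)) ?_ ?_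
    · intro z hz
      rw [mem_coe, hZ0, mem_filter] at hz
      obtain ⟨h1, _, h3, _⟩ := hmem z hz.1
      rw [mem_coe, mem_product]
      exact ⟨h1, h3⟩
    · intro z hz z' hz' heq
      rw [mem_coe, hZ0, mem_filter] at hz hz'
      have key : ∀ w ∈ Z, w.1.1 = w.1.2 → w.2.2 = w.2.1 := by
        intro w hw hwd
        obtain ⟨h1, h2, h3, h4, h5, _⟩ := hmem w hw
        funext i
        exact step_pre h hF hφ h1 h2 h3 h4 (le_refl m) (fun i _ => by rw [hwd]) h5 i i.isLt
      simp only [Prod.mk.injEq] at heq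
      obtain ⟨e1, e2⟩ := heq
      refine Prod.ext (Prod.ext e1 ?_) (Prod.ext e2 ?_)
      · rw [← hz.2, ← hz'.2, e1]
      · rw [key z hz.1 hz.2, key z' hz'.1 hz'.2, e2]
  have hE : ∀ e : Fin m, (Ze e).card ≤ 8 ^ m * (b / 2) ^ (F.card + 1) * M.card ^ 2 := by
    intro e
    have h1 : (Ze e).card ≤ (8 ^ m * (b / 2) ^ (mt m F (m - (e : ℕ))).card) *
        ((Ze e).image Prod.fst).card := by
      refine card_le_mul_card_image _ _ ?_
      intro a ha
      rw [mem_image] at ha
      obtain ⟨w, hw, rfl⟩ := ha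
      rw [hZe] at hw
      simp only at hw
      rw [mem_filter] at hw
      obtain ⟨g1, g2, _⟩ := hmem w hw.1
      refine le_trans ?_ (key_count h hF hφ g1 g2 e hw.2.1 hw.2.2)
      refine card_le_card_of_injOn Prod.snd ?_ ?_
      · intro z hz
        rw [mem_coe, mem_filter] at hz
        obtain ⟨hz1, hz2⟩ := hz
        rw [hZe] at hz1
        simp only at hz1
        rw [mem_filter] at hz1
        obtain ⟨_, _, g3, g4, g5, g6⟩ := hmem z hz1.1
        rw [mem_coe, mem_filter, mem_product]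
        rw [hz2] at g5 g6
        exact ⟨⟨g3, g4⟩, g5, g6⟩
      · intro z hz z' hz' heq
        rw [mem_coe, mem_filter] at hz hz'
        exact Prod.ext (hz.2.trans hz'.2.symm) heq
    have h2 : ((Ze e).image Prod.fst).card ≤ M.card * (b / 2) ^ (mt m F e).card := by
      refine le_trans (card_le_card ?_) (card_pairs h e)
      intro r hr
      rw [mem_image] at hr
      obtain ⟨z, hz, rfl⟩ := hr
      rw [hZe] at hz
      simp only at hz
      rw [mem_filter] at hz
      obtain ⟨g1, g2, _⟩ := hmem z hz.1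
      rw [mem_filter, mem_product]
      exact ⟨⟨g1, g2⟩, hz.2⟩
    have h3 : (b / 2) ^ (mt m F (m - (e : ℕ))).card * (b / 2) ^ (mt m F e).card ≤
        M.card * (b / 2) ^ (F.card + 1) := by
      rw [hM, card_MM hm hF, ← pow_add, ← pow_add]
      refine Nat.pow_le_pow_right hD ?_
      have := expo_le hF e
      omega
    calc (Ze e).card ≤ (8 ^ m * (b / 2) ^ (mt m F (m - (e : ℕ))).card) *
        (M.card * (b / 2) ^ (mt m F e).card) := h1.trans (Nat.mul_le_mul_left _ h2)
      _ = 8 ^ m * M.card * ((b / 2) ^ (mt m F (m - (e : ℕ))).card *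
        (b / 2) ^ (mt m F e).card) := by ring
      _ ≤ 8 ^ m * M.card * (M.card * (b / 2) ^ (F.card + 1)) := Nat.mul_le_mul_left _ h3
      _ = 8 ^ m * (b / 2) ^ (F.card + 1) * M.card ^ 2 := by ring
  have h8 : 1 ≤ 8 ^ m * (b / 2) ^ (F.card + 1) :=
    Nat.mul_pos (pow_pos (by norm_num) _) (pow_pos hD _)
  calc Z.card ≤ (Z0 ∪ univ.biUnion Ze).card := card_le_card hcov
    _ ≤ Z0.card + (univ.biUnion Ze).card := card_union_le _ _
    _ ≤ M.card ^ 2 + ∑ e : Fin m, (Ze e).card := Nat.add_le_add h0 card_biUnion_le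
    _ ≤ M.card ^ 2 + ∑ e : Fin m, 8 ^ m * (b / 2) ^ (F.card + 1) * M.card ^ 2 :=
        Nat.add_le_add_left (sum_le_sum fun e _ => hE e) _
    _ = M.card ^ 2 + m * (8 ^ m * (b / 2) ^ (F.card + 1) * M.card ^ 2) := by
        rw [sum_const, card_univ, Fintype.card_fin, smul_eq_mul]
    _ ≤ 8 ^ m * (b / 2) ^ (F.card + 1) * M.card ^ 2 +
        m * (8 ^ m * (b / 2) ^ (F.card + 1) * M.card ^ 2) := by
        refine Nat.add_le_add_right ?_ _
        calc M.card ^ 2 = 1 * M.card ^ 2 := (one_mul _).symm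
          _ ≤ _ := Nat.mul_le_mul_right _ h8
    _ = (m + 1) * 8 ^ m * (b / 2) ^ (F.card + 1) * M.card ^ 2 := by ring

end Pool.Agent.HPP
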