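import Pool.Agent.HPP.Iface
import Pool.Agent.HPP.EGen
import Pool.Agent.HPP.ESum

/-!
# HPP/EFin: the energy bound `EnergyProp`

For `φ ∈ FF` let `c_φ(χ, t) = ∑_{μ ∈ MM} wt(gl φ μ) conj χ(low) top^(-it)`; `cc = ∑_φ c_φ` (`sum_RR`), so
`‖cc‖^4 ≤ (#FF)^3 ∑_φ ‖c_φ‖^4` (`inner_le_nnorm_mul_nnorm`/`Finset.inner_mul_le_norm_mul_norm`, or
`inv_mul_sum`: `Finset.pow_arith_mean_le`..., `Real.pow_sum_div_card_le_sum_pow`). For each `φ`,
`four_count` with `q = b^m`, `S = MM`, `L = low`, `X = top > 0`, `w = wt ∈ [0,1]`, `T ≥ b^m`: the number of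
`z = ((i₁, i₂), (i₃, i₄))` with `L i₁ L i₄ ≡ L i₂ L i₃` and `|log (X i₁ X i₄) - log (X i₂ X i₃)| ≤ 1/T ≤ b^(-m)`.
With `r1 = i₁, y = i₄, r2 = i₂, x = i₃` this is `QL`, and `QT`: if `|log u - log v| ≤ δ ≤ 1`, `v ≤ b^(2m)`,
then `|u - v| ≤ 2 δ v ≤ 2 b^m` (`|e^s - 1| ≤ 2|s|` for `|s| ≤ 1`). So the count is `≤ quad_count`.
Total: `≤ (#FF)^4 · C T b^m (m+1) 8^m D^(f+1) N²`, `D = b/2`, `f = #F`, `N = D^(m-1-f)`, `#RR = #FF · N`. So it
equals `(#RR)^4 C T b^m (m+1) 8^m D^(f+1) / N²` and `D^(f+1)/N² = D^(3f+3)/D^(2m) ≤ b^(3f+3) (9/b²)^m` since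
`b/3 ≤ D ≤ b` (`b ≥ 3`). So the bound is `C (m+1) 72^m (T/b^m) b^(3(f+1)) (#RR)^4`, and `C (m+1) 72^m ≤
(C · 144)^m` for `m ≥ 1`.
-/

namespace Pool.Agent.HPP

open Complex MeasureTheory

/-- from logarithms to differences -/
private theorem log_close {u v B : ℝ} (hu : 0 < u) (hv : 0 < v) (hB : 1 ≤ B) (hvB : v ≤ B * B)
    (h : |Real.log u - Real.log v| ≤ 1 / B) : |u - v| ≤ 2 * B := by
  have hB0 : 0 < B := by linarith
  set s := Real.log u - Real.log v with hs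
  have h1 : |s| ≤ 1 := h.trans (by rw [div_le_one hB0]; exact hB)
  have h2 := Real.abs_exp_sub_one_le h1
  have h3 : u = v * Real.exp s := by
    rw [hs, Real.exp_sub, Real.exp_log hu, Real.exp_log hv]
    field_simp
  have h4 : u - v = v * (Real.exp s - 1) := by
    rw [h3]; ring
  rw [h4, abs_mul, abs_of_pos hv]
  calc v * |Real.exp s - 1| ≤ (B * B) * (2 * (1 / B)) := by
        apply mul_le_mul hvB _ (abs_nonneg _) (by positivity)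
        exact h2.trans (by linarith)
    _ = 2 * B := by field_simp

/-- the part of `cc` with given free digits -/
private noncomputable def cf (b p : ℕ) {m : ℕ} (F : Finset ℕ) (V : ℝ → ℝ) (φ : Fin m → ℕ × ℕ)
    (χ : DirichletCharacter ℂ (b ^ m)) (t : ℝ) : ℂ :=
  ∑ μ ∈ MM b m F, (wt b V (gl p F φ μ) : ℂ) *
    (starRingEnd ℂ) (χ (lowv b (gl p F φ μ) : ZMod (b ^ m))) *
    (((topv b (gl p F φ μ) : ℕ) : ℝ) : ℂ) ^ (-(t * I))

private theorem cc_eq (b p : ℕ) {m : ℕ} (F : Finset ℕ) (V : ℝ → ℝ)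
    (χ : DirichletCharacter ℂ (b ^ m)) (t : ℝ) :
    cc b p F V χ t = ∑ φ ∈ FF b m F, cf b p F V φ χ t := by
  unfold cc cf
  rw [sum_RR]
  simp only [ofReal_natCast]

private theorem cf_cont {b p m : ℕ} {F : Finset ℕ} (h : Bas b p) (hm : 1 ≤ m) (V : ℝ → ℝ)
    {φ : Fin m → ℕ × ℕ} (hφ : φ ∈ FF b m F) (χ : DirichletCharacter ℂ (b ^ m)) :
    Continuous (fun t : ℝ => cf b p F V φ χ t) := by
  unfold cf
  refine continuous_finset_sum _ fun μ hμ => ?_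
  refine continuous_const.mul ?_
  refine Continuous.const_cpow (by fun_prop) (Or.inl ?_)
  have h1 := (top_bounds h hm (gl_mem (p := p) hφ hμ)).1
  have h2 : 0 < p * b ^ (m - 1) :=
    Nat.mul_pos h.prime.pos (pow_pos (by have := h.three; omega) _)
  have h3 : topv b (gl p F φ μ) ≠ 0 := by omega
  exact_mod_cast h3

private theorem cf_four {C0 : ℝ}
    (hfour : ∀ (q : ℕ) [NeZero q] {ι : Type} [DecidableEq ι] (S : Finset ι)
    (L : ι → ℕ) (X w : ι → ℝ), (∀ i ∈ S, Nat.Coprime (L i) q) → (∀ i ∈ S, 0 < X i) →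
    (∀ i ∈ S, 0 ≤ w i ∧ w i ≤ 1) → ∀ T : ℝ, 0 < T →
    ∑ χ : DirichletCharacter ℂ q, ∫ t in (-T)..T,
      ‖∑ i ∈ S, (w i : ℂ) * (starRingEnd ℂ) (χ (L i : ZMod q)) * (X i : ℂ) ^ (-(t * I))‖ ^ 4 ≤
    C0 * T * q.totient * (((S ×ˢ S) ×ˢ (S ×ˢ S)).filter fun z =>
      (L z.1.1 * L z.2.2 ≡ L z.1.2 * L z.2.1 [MOD q]) ∧
      |Real.log (X z.1.1 * X z.2.2) - Real.log (X z.1.2 * X z.2.1)| ≤ 1 / T).card)
    (hC0 : 1 ≤ C0) {b p m : ℕ} {F : Finset ℕ} (V : ℝ → ℝ) (h : Bas b p) (hm : 1 ≤ m)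
    (hF : F ⊆ Finset.Ico 1 m) (hV : ∀ y, 0 ≤ V y ∧ V y ≤ 1) (T : ℝ) (hT : (b : ℝ) ^ m ≤ T)
    {φ : Fin m → ℕ × ℕ} (hφ : φ ∈ FF b m F) :
    ∑ χ : DirichletCharacter ℂ (b ^ m), ∫ t in (-T)..T, ‖cf b p F V φ χ t‖ ^ 4 ≤
      C0 * T * (b : ℝ) ^ m * ((m + 1) * 8 ^ m * (b / 2 : ℕ) ^ (F.card + 1) *
        ((MM b m F).card : ℝ) ^ 2) := by
  classical
  have hb3 := h.three
  have hb1 : (1 : ℝ) ≤ b := by exact_mod_cast (by omega : 1 ≤ b)
  have hB : (1 : ℝ) ≤ (b : ℝ) ^ m := one_le_pow₀ hb1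
  have hT0 : 0 < T := by linarith
  haveI : NeZero (b ^ m) := ⟨(pow_pos (by omega) _).ne'⟩
  have htop : ∀ μ ∈ MM b m F, (0 : ℝ) < (topv b (gl p F φ μ) : ℕ) ∧
      ((topv b (gl p F φ μ) : ℕ) : ℝ) ≤ (b : ℝ) ^ m := by
    intro μ hμ
    have h1 := top_bounds h hm (gl_mem (p := p) hφ hμ)
    have h2 : 0 < p * b ^ (m - 1) := Nat.mul_pos h.prime.pos (pow_pos (by omega) _)
    constructor
    · exact_mod_cast (by omega : 0 < topv b (gl p F φ μ))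
    · exact_mod_cast h1.2.2.le
  have h1 := hfour (b ^ m) (MM b m F) (fun μ => lowv b (gl p F φ μ))
    (fun μ => ((topv b (gl p F φ μ) : ℕ) : ℝ)) (fun μ => wt b V (gl p F φ μ))
    (fun μ hμ => (low_coprime h hm (gl_mem (p := p) hφ hμ)).pow_right m)
    (fun μ hμ => (htop μ hμ).1) (fun μ _ => hV _) T hT0
  refine h1.trans ?_
  have h2 := quad_count h hm hF hφ
  have h3 : (((MM b m F ×ˢ MM b m F) ×ˢ (MM b m F ×ˢ MM b m F)).filter fun z =>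
      (lowv b (gl p F φ z.1.1) * lowv b (gl p F φ z.2.2) ≡
        lowv b (gl p F φ z.1.2) * lowv b (gl p F φ z.2.1) [MOD b ^ m]) ∧
      |Real.log (((topv b (gl p F φ z.1.1) : ℕ) : ℝ) * ((topv b (gl p F φ z.2.2) : ℕ) : ℝ)) -
        Real.log (((topv b (gl p F φ z.1.2) : ℕ) : ℝ) *
          ((topv b (gl p F φ z.2.1) : ℕ) : ℝ))| ≤ 1 / T).card ≤
      (m + 1) * 8 ^ m * (b / 2) ^ (F.card + 1) * (MM b m F).card ^ 2 := by
    refine le_trans (Finset.card_le_card ?_) h2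
    intro z hz
    rw [Finset.mem_filter] at hz ⊢
    refine ⟨hz.1, hz.2.1, ?_⟩
    have hz1 := hz.1
    rw [Finset.mem_product, Finset.mem_product, Finset.mem_product] at hz1
    obtain ⟨⟨a1, a2⟩, a3, a4⟩ := hz1
    unfold QT
    refine log_close (mul_pos (htop _ a1).1 (htop _ a4).1) (mul_pos (htop _ a2).1 (htop _ a3).1)
      hB ?_ ?_
    · exact mul_le_mul (htop _ a2).2 (htop _ a3).2 (htop _ a3).1.le (by linarith)
    · refine hz.2.2.trans ?_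
      exact one_div_le_one_div_of_le (by linarith) hT
  have h4 : ((b ^ m).totient : ℝ) ≤ (b : ℝ) ^ m := by
    exact_mod_cast Nat.totient_le (b ^ m)
  have h5 : ((((MM b m F ×ˢ MM b m F) ×ˢ (MM b m F ×ˢ MM b m F)).filter fun z =>
      (lowv b (gl p F φ z.1.1) * lowv b (gl p F φ z.2.2) ≡
        lowv b (gl p F φ z.1.2) * lowv b (gl p F φ z.2.1) [MOD b ^ m]) ∧
      |Real.log (((topv b (gl p F φ z.1.1) : ℕ) : ℝ) * ((topv b (gl p F φ z.2.2) : ℕ) : ℝ)) -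
        Real.log (((topv b (gl p F φ z.1.2) : ℕ) : ℝ) *
          ((topv b (gl p F φ z.2.1) : ℕ) : ℝ))| ≤ 1 / T).card : ℝ) ≤
      (m + 1) * 8 ^ m * (b / 2 : ℕ) ^ (F.card + 1) * ((MM b m F).card : ℝ) ^ 2 := by
    exact_mod_cast h3
  refine mul_le_mul ?_ h5 (Nat.cast_nonneg _) (by positivity)
  exact mul_le_mul_of_nonneg_left h4 (by positivity)

theorem energyProp : EnergyProp := by
  obtain ⟨C0, hC0, hfour⟩ := four_count
  refine ⟨144 * C0, by linarith, ?_⟩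
  intro b p m F V h hm hF hV T hT
  have hb3 := h.three
  have hb1 : (1 : ℝ) ≤ b := by exact_mod_cast (by omega : 1 ≤ b)
  have hb0 : (0 : ℝ) < b := by linarith
  have hB : (1 : ℝ) ≤ (b : ℝ) ^ m := one_le_pow₀ hb1
  have hT0 : 0 < T := by linarith
  set n : ℕ := (FF b m F).card with hn
  set N : ℕ := (MM b m F).card with hN
  -- pointwise
  have hpt : ∀ (χ : DirichletCharacter ℂ (b ^ m)) (t : ℝ), ‖cc b p F V χ t‖ ^ 4 ≤
      (n : ℝ) ^ 3 * ∑ φ ∈ FF b m F, ‖cf b p F V φ χ t‖ ^ 4 := by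
    intro χ t
    rw [cc_eq]
    refine (pow_le_pow_left₀ (norm_nonneg _) (norm_sum_le _ _) 4).trans ?_
    exact pow_sum_le_card_mul_sum_pow (fun _ _ => norm_nonneg _) 3
  have hint : ∀ (χ : DirichletCharacter ℂ (b ^ m)), ∫ t in (-T)..T, ‖cc b p F V χ t‖ ^ 4 ≤
      (n : ℝ) ^ 3 * ∑ φ ∈ FF b m F, ∫ t in (-T)..T, ‖cf b p F V φ χ t‖ ^ 4 := by
    intro χ
    have hc : ∀ φ ∈ FF b m F, Continuous (fun t : ℝ => ‖cf b p F V φ χ t‖ ^ 4) := fun φ hφ =>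
      ((cf_cont h hm V hφ χ).norm.pow 4)
    rw [← intervalIntegral.integral_finset_sum fun φ hφ => (hc φ hφ).intervalIntegrable _ _,
      ← intervalIntegral.integral_const_mul]
    refine intervalIntegral.integral_mono_on (by linarith) ?_ ?_ fun t _ => hpt χ t
    · apply Continuous.intervalIntegrable
      have he : (fun t : ℝ => ‖cc b p F V χ t‖ ^ 4) =
          fun t : ℝ => ‖∑ φ ∈ FF b m F, cf b p F V φ χ t‖ ^ 4 := by
        funext t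
        rw [cc_eq]
      rw [he]
      exact ((continuous_finset_sum _ fun φ hφ => cf_cont h hm V hφ χ).norm.pow 4)
    · apply Continuous.intervalIntegrable
      exact continuous_const.mul (continuous_finset_sum _ hc)
  have htot : ∑ χ : DirichletCharacter ℂ (b ^ m), ∫ t in (-T)..T, ‖cc b p F V χ t‖ ^ 4 ≤
      (n : ℝ) ^ 3 * (n * (C0 * T * (b : ℝ) ^ m * ((m + 1) * 8 ^ m * (b / 2 : ℕ) ^ (F.card + 1) *
        (N : ℝ) ^ 2))) := by
    calc ∑ χ : DirichletCharacter ℂ (b ^ m), ∫ t in (-T)..T, ‖cc b p F V χ t‖ ^ 4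
        ≤ ∑ χ : DirichletCharacter ℂ (b ^ m), (n : ℝ) ^ 3 *
          ∑ φ ∈ FF b m F, ∫ t in (-T)..T, ‖cf b p F V φ χ t‖ ^ 4 :=
          Finset.sum_le_sum fun χ _ => hint χ
      _ = (n : ℝ) ^ 3 * ∑ φ ∈ FF b m F, ∑ χ : DirichletCharacter ℂ (b ^ m),
          ∫ t in (-T)..T, ‖cf b p F V φ χ t‖ ^ 4 := by
          rw [← Finset.mul_sum, Finset.sum_comm]
      _ ≤ _ := by
          refine mul_le_mul_of_nonneg_left ?_ (by positivity)
          refine (Finset.sum_le_sum fun φ hφ => cf_four hfour hC0 V h hm hF hV T hT hφ).trans ?_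
          rw [Finset.sum_const, nsmul_eq_mul]
  refine htot.trans ?_
  have hRR : ((RR b p m F).card : ℝ) = n * N := by
    rw [hn, hN, card_FF hF, card_MM hm hF, card_RR hm hF]
    push_cast
    ring
  have hFc : F.card ≤ m - 1 := by
    have := Finset.card_le_card hF
    rwa [Nat.card_Ico] at this
  set D : ℕ := b / 2 with hD
  have hND : (N : ℝ) = (D : ℝ) ^ (m - 1 - F.card) := by
    rw [hN, card_MM hm hF]
    push_cast
    rfl
  have hD3 : (b : ℝ) ≤ 3 * D := by exact_mod_cast (by omega : b ≤ 3 * D)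
  have hDb : (D : ℝ) ≤ b := by exact_mod_cast (by omega : D ≤ b)
  have hD0 : (0 : ℝ) < D := by exact_mod_cast (by omega : 0 < D)
  have k1 : (b : ℝ) ^ (2 * m) * (D : ℝ) ^ (F.card + 1) ≤
      9 ^ m * ((b : ℝ) ^ (3 * (F.card + 1)) * (N : ℝ) ^ 2) := by
    have e1 : (b : ℝ) ^ (2 * m) ≤ 9 ^ m * (D : ℝ) ^ (2 * m) := by
      calc (b : ℝ) ^ (2 * m) ≤ (3 * (D : ℝ)) ^ (2 * m) := pow_le_pow_left₀ hb0.le hD3 _
        _ = 9 ^ m * (D : ℝ) ^ (2 * m) := by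
            rw [mul_pow, pow_mul]
            norm_num
    have e2 : (D : ℝ) ^ (2 * m) * (D : ℝ) ^ (F.card + 1) =
        (D : ℝ) ^ (3 * (F.card + 1)) * (N : ℝ) ^ 2 := by
      rw [hND, ← pow_mul, ← pow_add, ← pow_add]
      congr 1
      omega
    calc (b : ℝ) ^ (2 * m) * (D : ℝ) ^ (F.card + 1)
        ≤ (9 ^ m * (D : ℝ) ^ (2 * m)) * (D : ℝ) ^ (F.card + 1) :=
          mul_le_mul_of_nonneg_right e1 (by positivity)
      _ = 9 ^ m * ((D : ℝ) ^ (3 * (F.card + 1)) * (N : ℝ) ^ 2) := by rw [mul_assoc, e2]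
      _ ≤ _ := by
          refine mul_le_mul_of_nonneg_left ?_ (by positivity)
          exact mul_le_mul_of_nonneg_right (pow_le_pow_left₀ hD0.le hDb _) (by positivity)
  have k2 : C0 * ((m + 1) * 8 ^ m) * 9 ^ m ≤ (144 * C0) ^ m := by
    have e1 : (m : ℝ) + 1 ≤ 2 ^ m := by
      exact_mod_cast Nat.succ_le_of_lt (Nat.lt_two_pow_self (n := m))
    have e2 : C0 ≤ C0 ^ m := le_self_pow₀ hC0 (by omega)
    calc C0 * ((m + 1) * 8 ^ m) * 9 ^ m ≤ C0 ^ m * (2 ^ m * 8 ^ m) * 9 ^ m := by gcongr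
      _ = (144 * C0) ^ m := by
          rw [show (144 : ℝ) * C0 = C0 * (2 * 8) * 9 by ring, mul_pow, mul_pow, mul_pow]
  have hb2 : (b : ℝ) ^ (2 * m) = (b : ℝ) ^ m * (b : ℝ) ^ m := by rw [two_mul, pow_add]
  have k3 : C0 * T * (b : ℝ) ^ m * ((m + 1) * 8 ^ m * (D : ℝ) ^ (F.card + 1) * (N : ℝ) ^ 2) =
      (T / (b : ℝ) ^ m) * (N : ℝ) ^ 2 * (C0 * ((m + 1) * 8 ^ m)) *
        ((b : ℝ) ^ (2 * m) * (D : ℝ) ^ (F.card + 1)) := by
    rw [hb2]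
    field_simp
  calc (n : ℝ) ^ 3 * (n * (C0 * T * (b : ℝ) ^ m * ((m + 1) * 8 ^ m * (D : ℝ) ^ (F.card + 1) *
        (N : ℝ) ^ 2)))
      = (n : ℝ) ^ 4 * ((T / (b : ℝ) ^ m) * (N : ℝ) ^ 2 * (C0 * ((m + 1) * 8 ^ m)) *
        ((b : ℝ) ^ (2 * m) * (D : ℝ) ^ (F.card + 1))) := by rw [k3]; ring
    _ ≤ (n : ℝ) ^ 4 * ((T / (b : ℝ) ^ m) * (N : ℝ) ^ 2 * (C0 * ((m + 1) * 8 ^ m)) *
        (9 ^ m * ((b : ℝ) ^ (3 * (F.card + 1)) * (N : ℝ) ^ 2))) := by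
        refine mul_le_mul_of_nonneg_left ?_ (by positivity)
        exact mul_le_mul_of_nonneg_left k1 (by positivity)
    _ = (C0 * ((m + 1) * 8 ^ m) * 9 ^ m) * ((T / (b : ℝ) ^ m) * (b : ℝ) ^ (3 * (F.card + 1)) *
        (n * N) ^ 4) := by ring
    _ ≤ (144 * C0) ^ m * ((T / (b : ℝ) ^ m) * (b : ℝ) ^ (3 * (F.card + 1)) * (n * N) ^ 4) :=
        mul_le_mul_of_nonneg_right k2 (by positivity)
    _ = _ := by
        rw [hRR]
        ring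

end Pool.Agent.HPP
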