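import Mathlib

/-!
# HPP/ETree: counting the leaves of a tree

`S` finite, states `f n : ι → α n`... To avoid dependent types we use equivalence relations: `E n s s'`
means that `s` and `s'` agree up to step `n`. If every class of `E n` inside `S` splits into at most `c`
classes of `E (n+1)` and `E 0` is everything, then `S` meets at most `c ^ N` classes of `E N`; so if
every class of `E N` has at most `K` elements of `S`, then `#S ≤ c ^ N K`.

Formally (`tree_count`): `g n : ι → β` is the new information at step `n`; hypothesis `h`: for all
`n < N` and `s ∈ S`, the set `{g n s' : s' ∈ S, ∀ k < n, g k s' = g k s}` has at most `c` elements;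
`hK`: for all `s ∈ S` at most `K` elements `s' ∈ S` satisfy `∀ k < N, g k s' = g k s`.

Proof. Induction on `N`: the number of distinct tuples `(g 0 s, ..., g (n-1) s)`, `s ∈ S`, is `≤ c ^ n`
(the image at `n + 1` is fibred over the image at `n` with fibres of size `≤ c`:
`Finset.card_le_mul_card_image`), then `#S ≤ K * c ^ N` by the same lemma.

`sep_count`: a finite set `A` of integers with `b ∣ u - v` and `|u - v| ≤ 7 b` for all `u, v ∈ A` has at
most `8` elements (if nonempty, `u ↦ (u - min A)/b` is injective into `{0,...,7}`).
-/

namespace Pool.Agent.HPP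

theorem tree_count {ι β : Type*} [DecidableEq ι] [DecidableEq β] (S : Finset ι) (g : ℕ → ι → β)
    (N c K : ℕ)
    (h : ∀ n < N, ∀ s ∈ S, ((S.filter fun s' => ∀ k < n, g k s' = g k s).image (g n)).card ≤ c)
    (hK : ∀ s ∈ S, (S.filter fun s' => ∀ k < N, g k s' = g k s).card ≤ K) :
    S.card ≤ c ^ N * K := by
  have key : ∀ n ≤ N, (S.image (fun s => fun k : Fin n => g k s)).card ≤ c ^ n := by
    intro n
    induction n with
    | zero =>
      intro _
      rw [pow_zero]
      refine Finset.card_le_one.2 ?_
      intro a _ b _
      funext k
      exact k.elim0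
    | succ n ih =>
      intro hn
      have h1 := ih (by omega)
      have h2 : (S.image (fun s => fun k : Fin (n + 1) => g k s)).card ≤
          c * ((S.image (fun s => fun k : Fin (n + 1) => g k s)).image
            (fun (t : Fin (n + 1) → β) (k : Fin n) => t k.castSucc)).card := by
        refine Finset.card_le_mul_card_image _ c ?_
        intro a ha
        rw [Finset.mem_image] at ha
        obtain ⟨t, ht, rfl⟩ := ha
        obtain ⟨s, hs, rfl⟩ := Finset.mem_image.1 ht
        refine le_trans ?_ (h n (by omega) s hs)
        refine Finset.card_le_card_of_injOn (fun t => t (Fin.last n)) ?_ ?_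
        · intro t' ht'
          rw [Finset.mem_coe, Finset.mem_filter] at ht'
          obtain ⟨ht1, ht2⟩ := ht'
          obtain ⟨s', hs', rfl⟩ := Finset.mem_image.1 ht1
          rw [Finset.mem_coe, Finset.mem_image]
          refine ⟨s', Finset.mem_filter.2 ⟨hs', ?_⟩, rfl⟩
          intro k hk
          exact congrFun ht2 ⟨k, hk⟩
        · intro t1 ht1 t2 ht2 heq
          rw [Finset.mem_coe, Finset.mem_filter] at ht1 ht2
          funext k
          refine Fin.lastCases ?_ ?_ k
          · exact heq
          · intro j
            exact (congrFun ht1.2 j).trans (congrFun ht2.2 j).symm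
      have h3 : (S.image (fun s => fun k : Fin (n + 1) => g k s)).image
            (fun (t : Fin (n + 1) → β) (k : Fin n) => t k.castSucc) =
          S.image (fun s => fun k : Fin n => g k s) := by
        rw [Finset.image_image]
        rfl
      rw [h3] at h2
      calc (S.image (fun s => fun k : Fin (n + 1) => g k s)).card
          ≤ c * (S.image (fun s => fun k : Fin n => g k s)).card := h2
        _ ≤ c * c ^ n := Nat.mul_le_mul_left _ h1
        _ = c ^ (n + 1) := by ring
  have h2 : S.card ≤ K * (S.image (fun s => fun k : Fin N => g k s)).card := by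
    refine Finset.card_le_mul_card_image S K ?_
    intro a ha
    obtain ⟨s, hs, rfl⟩ := Finset.mem_image.1 ha
    refine le_trans (Finset.card_le_card ?_) (hK s hs)
    intro s' hs'
    rw [Finset.mem_filter] at hs' ⊢
    exact ⟨hs'.1, fun k hk => congrFun hs'.2 ⟨k, hk⟩⟩
  calc S.card ≤ K * (S.image (fun s => fun k : Fin N => g k s)).card := h2
    _ ≤ K * c ^ N := Nat.mul_le_mul_left _ (key N le_rfl)
    _ = c ^ N * K := Nat.mul_comm _ _

theorem sep_count {b : ℤ} (hb : 0 < b) (A : Finset ℤ)
    (h : ∀ u ∈ A, ∀ v ∈ A, b ∣ u - v ∧ |u - v| ≤ 7 * b) : A.card ≤ 8 := by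
  rcases A.eq_empty_or_nonempty with hA | hA
  · rw [hA]
    simp
  · have hm : A.min' hA ∈ A := A.min'_mem hA
    have h8 : A.card ≤ (Finset.range 8).card := by
      refine Finset.card_le_card_of_injOn (fun u => ((u - A.min' hA) / b).toNat) ?_ ?_
      · intro u hu
        have hu' : u ∈ A := hu
        obtain ⟨⟨q, hq⟩, habs⟩ := h u hu' _ hm
        have h0 : A.min' hA ≤ u := A.min'_le u hu'
        rw [Finset.mem_coe, Finset.mem_range]
        have hdiv : (u - A.min' hA) / b = q := by
          rw [hq]
          exact Int.mul_ediv_cancel_left q hb.ne'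
        have hq7 : q ≤ 7 := by
          have h1 : b * q ≤ 7 * b := by
            rw [← hq]
            exact le_trans (le_abs_self _) habs
          by_contra hcon
          push Not at hcon
          nlinarith
        show ((u - A.min' hA) / b).toNat < 8
        rw [hdiv]
        omega
      · intro u hu v hv huv
        have hu' : u ∈ A := hu
        have hv' : v ∈ A := hv
        obtain ⟨⟨q, hq⟩, _⟩ := h u hu' _ hm
        obtain ⟨⟨r, hr⟩, _⟩ := h v hv' _ hm
        have h0 : A.min' hA ≤ u := A.min'_le u hu'
        have h1 : A.min' hA ≤ v := A.min'_le v hv'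
        have hdq : (u - A.min' hA) / b = q := by
          rw [hq]
          exact Int.mul_ediv_cancel_left q hb.ne'
        have hdr : (v - A.min' hA) / b = r := by
          rw [hr]
          exact Int.mul_ediv_cancel_left r hb.ne'
        have hq0 : 0 ≤ q := by
          by_contra hcon
          push Not at hcon
          nlinarith
        have hr0 : 0 ≤ r := by
          by_contra hcon
          push Not at hcon
          nlinarith
        have huv' : ((u - A.min' hA) / b).toNat = ((v - A.min' hA) / b).toNat := huv
        rw [hdq, hdr] at huv'
        have hqr : q = r := by omega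
        have : u - A.min' hA = v - A.min' hA := by rw [hq, hr, hqr]
        linarith
    simpa using h8

end Pool.Agent.HPP
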