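import Pool.Agent.HPP.EStep
import Pool.Agent.HPP.ETree

/-!
# HPP/EKey: the number of `(x, y)` for given `r1 ≠ r2`

`e` = first position where `r1, r2 ∈ MM` differ. `S = {(x, y) ∈ MM × MM : QL, QT}`. Then
`#S ≤ 8 ^ (m - e) * (b / 2) ^ #{i : i ≠ 0, i ∉ F, m - e ≤ i}`.

Proof. `tree_count` with `N = m - e`, `c = 8`, `g k (x, y) = (y_{e+k} - x_{e+k}, y_k)` (integers; `(0, 0)`
if `e + k ≥ m`). Let `(x, y), (x', y') ∈ S` agree in `g k'` for `k' < k`, `k < N`, `n = e + k`. By `step_pre`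
(`y_i - x_i = 0 = y'_i - x'_i` for `i < e`) and the hypothesis the assumptions of `step_low` and
`step_top` hold. So the values `v(s') = p τ'_n + s₀ y'_{n-e}` of the elements `s'` of the class satisfy
`b ∣ v - v'`, `|v - v'| ≤ 7 b`: at most `8` values (`sep_count`), and `v = v'` implies `g k` equal
(`step_inj`; `|s₀| < b/2`, `s₀ ≠ 0` as digits of `MM` at `e`; if `n - e` is free or `0` then `y_k = y'_k = 0`
anyway, all covered by `step_inj`). So the image of `g k` has at most `8` elements.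
`hK`: if all `g k`, `k < N`, are given then `τ_i` is known for all `i`, `y_l` for `l < m - e`; so `(x, y)`
is determined by the `y_l` with `l ≥ m - e`, which is `0` at non-matched positions and has `b/2`
values at matched ones: at most `(b/2)^#{..}` elements (inject into a `Fintype.piFinset`).
-/

namespace Pool.Agent.HPP

open Finset

/-- digits of matched strings -/
private theorem mm_lt {b m : ℕ} {F : Finset ℕ} (hb : 3 ≤ b) {x : Fin m → ℕ} (hx : x ∈ MM b m F)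
    (i : Fin m) : x i < b / 2 := by
  unfold MM at hx
  have h1 := Fintype.mem_piFinset.1 hx i
  split at h1
  · rw [mem_singleton] at h1
    omega
  · exact mem_range.1 h1

private theorem mm_zero {b m : ℕ} {F : Finset ℕ} {x : Fin m → ℕ} (hx : x ∈ MM b m F)
    (i : Fin m) (hi : (i : ℕ) = 0 ∨ (i : ℕ) ∈ F) : x i = 0 := by
  unfold MM at hx
  have h1 := Fintype.mem_piFinset.1 hx i
  rw [if_pos hi, mem_singleton] at h1
  exact h1

/-- the new information of step `k` -/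
private def gk {m : ℕ} (e k : ℕ) (z : (Fin m → ℕ) × (Fin m → ℕ)) : ℤ × ℤ :=
  (if h : e + k < m then (z.2 ⟨e + k, h⟩ : ℤ) - z.1 ⟨e + k, h⟩ else 0,
    if h : k < m then (z.2 ⟨k, h⟩ : ℤ) else 0)

private theorem gk_fst {m e k : ℕ} {z z' : (Fin m → ℕ) × (Fin m → ℕ)} (h : gk e k z = gk e k z')
    (hk : e + k < m) : (z.2 ⟨e + k, hk⟩ : ℤ) - z.1 ⟨e + k, hk⟩ =
      (z'.2 ⟨e + k, hk⟩ : ℤ) - z'.1 ⟨e + k, hk⟩ := by
  have h1 := congrArg Prod.fst h
  unfold gk at h1
  simp only [dif_pos hk] at h1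
  exact h1

private theorem gk_snd {m e k : ℕ} {z z' : (Fin m → ℕ) × (Fin m → ℕ)} (h : gk e k z = gk e k z')
    (hk : k < m) : z.2 ⟨k, hk⟩ = z'.2 ⟨k, hk⟩ := by
  have h1 := congrArg Prod.snd h
  unfold gk at h1
  simp only [dif_pos hk] at h1
  exact_mod_cast h1

private theorem card_image_factor {ι α β : Type*} [DecidableEq ι] [DecidableEq α]
    [DecidableEq β] (T : Finset ι) (g : ι → α) (v : ι → β)
    (h : ∀ s ∈ T, ∀ s' ∈ T, v s = v s' → g s = g s') :
    (T.image g).card ≤ (T.image v).card := by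
  have e1 : T.image g = (T.image fun s => (v s, g s)).image Prod.snd := by
    rw [image_image]; rfl
  have e2 : T.image v = (T.image fun s => (v s, g s)).image Prod.fst := by
    rw [image_image]; rfl
  have h2 : ((T.image fun s => (v s, g s)).image Prod.fst).card
      = (T.image fun s => (v s, g s)).card := by
    refine card_image_of_injOn ?_
    intro a ha a' ha' he
    rw [mem_coe, mem_image] at ha ha'
    obtain ⟨s, hs, rfl⟩ := ha
    obtain ⟨s', hs', rfl⟩ := ha'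
    have h3 : v s = v s' := he
    exact Prod.ext h3 (h s hs s' hs' h3)
  rw [e1, e2, h2]
  exact card_image_le

open Classical in
theorem key_count {b p m : ℕ} {F : Finset ℕ} (h : Bas b p) (hF : F ⊆ Ico 1 m)
    {φ : Fin m → ℕ × ℕ} (hφ : φ ∈ FF b m F) {r1 r2 : Fin m → ℕ}
    (hr1 : r1 ∈ MM b m F) (hr2 : r2 ∈ MM b m F) (e : Fin m) (he : r1 e ≠ r2 e)
    (hr : ∀ i : Fin m, i < e → r1 i = r2 i) :
    ((MM b m F ×ˢ MM b m F).filter fun z => QL b p F φ r1 r2 z.1 z.2 ∧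
      QT b p F φ r1 r2 z.1 z.2).card ≤
    8 ^ m * (b / 2) ^ (univ.filter fun i : Fin m => (i : ℕ) ≠ 0 ∧ (i : ℕ) ∉ F ∧
      m - (e : ℕ) ≤ (i : ℕ)).card := by
  have hb3 := h.three
  have hem := e.isLt
  set S := (MM b m F ×ˢ MM b m F).filter fun z => QL b p F φ r1 r2 z.1 z.2 ∧
      QT b p F φ r1 r2 z.1 z.2 with hS
  have hmem : ∀ z ∈ S, z.1 ∈ MM b m F ∧ z.2 ∈ MM b m F ∧ QL b p F φ r1 r2 z.1 z.2 ∧
      QT b p F φ r1 r2 z.1 z.2 := by
    intro z hz
    rw [hS, mem_filter, mem_product] at hz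
    exact ⟨hz.1.1, hz.1.2, hz.2.1, hz.2.2⟩
  have hr' : ∀ i : Fin m, (i : ℕ) < (e : ℕ) → r1 i = r2 i := fun i hi => hr i hi
  have hpre : ∀ z ∈ S, ∀ i : Fin m, (i : ℕ) < (e : ℕ) → z.2 i = z.1 i := by
    intro z hz
    obtain ⟨h1, h2, h3, _⟩ := hmem z hz
    exact step_pre h hF hφ hr1 hr2 h1 h2 hem.le hr' h3
  have hs0 : ((r1 e : ℤ) - r2 e) ≠ 0 := by
    intro hc
    apply he
    have : (r1 e : ℤ) = r2 e := by linarith
    exact_mod_cast this
  have hs1 : |((r1 e : ℤ) - r2 e)| < (b : ℤ) / 2 := by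
    have h1 := mm_lt hb3 hr1 e
    have h2 := mm_lt hb3 hr2 e
    rw [abs_lt]
    constructor <;> omega
  have hcount := tree_count S (gk (m := m) (e : ℕ)) (m - (e : ℕ)) 8
    ((b / 2) ^ (univ.filter fun i : Fin m => (i : ℕ) ≠ 0 ∧ (i : ℕ) ∉ F ∧
      m - (e : ℕ) ≤ (i : ℕ)).card) ?_ ?_
  · refine hcount.trans (Nat.mul_le_mul_right _ ?_)
    exact Nat.pow_le_pow_right (by norm_num) (Nat.sub_le _ _)
  · -- the branching
    intro n hn s hs
    have hn' : (e : ℕ) + n < m := by omega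
    set T := S.filter fun s' => ∀ k < n, gk (e : ℕ) k s' = gk (e : ℕ) k s with hT
    set v : (Fin m → ℕ) × (Fin m → ℕ) → ℤ := fun z =>
      (p : ℤ) * ((z.2 ⟨(e : ℕ) + n, hn'⟩ : ℤ) - z.1 ⟨(e : ℕ) + n, hn'⟩) +
        ((r1 e : ℤ) - r2 e) * (z.2 ⟨n, by omega⟩ : ℤ) with hv
    have hTm : ∀ z ∈ T, z ∈ S ∧ ∀ k < n, gk (e : ℕ) k z = gk (e : ℕ) k s := by
      intro z hz
      rw [hT, mem_filter] at hz
      exact hz
    have hτ : ∀ z ∈ T, ∀ z' ∈ T, ∀ i : Fin m, (i : ℕ) < (e : ℕ) + n →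
        (z.2 i : ℤ) - z.1 i = (z'.2 i : ℤ) - z'.1 i := by
      intro z hz z' hz' i hi
      rcases lt_or_ge (i : ℕ) (e : ℕ) with h1 | h1
      · rw [hpre z (hTm z hz).1 i h1, hpre z' (hTm z' hz').1 i h1]
        simp
      · have hk : (i : ℕ) - (e : ℕ) < n := by omega
        have hkm : (e : ℕ) + ((i : ℕ) - (e : ℕ)) < m := by omega
        have h2 := gk_fst (((hTm z hz).2 _ hk).trans ((hTm z' hz').2 _ hk).symm) hkm
        have h3 : (⟨(e : ℕ) + ((i : ℕ) - (e : ℕ)), hkm⟩ : Fin m) = i := by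
          apply Fin.ext
          simp only
          omega
        rw [h3] at h2
        exact h2
    have hl : ∀ z ∈ T, ∀ z' ∈ T, ∀ i : Fin m, (i : ℕ) < n → z.2 i = z'.2 i := by
      intro z hz z' hz' i hi
      exact gk_snd (((hTm z hz).2 _ hi).trans ((hTm z' hz').2 _ hi).symm) i.isLt
    have hvlow : ∀ z ∈ T, ∀ z' ∈ T, (b : ℤ) ∣ v z - v z' ∧ |v z - v z'| ≤ 7 * (b : ℤ) := by
      intro z hz z' hz'
      obtain ⟨a1, a2, a3, a4⟩ := hmem z (hTm z hz).1
      obtain ⟨b1, b2, b3, b4⟩ := hmem z' (hTm z' hz').1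
      have hne : (e : ℕ) + n - (e : ℕ) = n := by omega
      have hl' : ∀ i : Fin m, (i : ℕ) < (e : ℕ) + n - (e : ℕ) → z.2 i = z'.2 i := by
        intro i hi
        rw [hne] at hi
        exact hl z hz z' hz' i hi
      have k1 := step_low h hF hφ hr1 hr2 a1 a2 b1 b2 hn' (by omega) hr' a3 b3
        (hτ z hz z' hz') hl'
      have k2 := step_top h hF hφ hr1 hr2 a1 a2 b1 b2 hn' (by omega) hr' a4 b4
        (hτ z hz z' hz') hl'
      have hfin : (⟨(e : ℕ) + n - (e : ℕ), by omega⟩ : Fin m) = ⟨n, by omega⟩ := by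
        apply Fin.ext
        exact hne
      have hfe : (⟨(e : ℕ), by omega⟩ : Fin m) = e := rfl
      rw [hfin] at k1 k2
      have hvv : v z - v z' = (p : ℤ) * (((z.2 ⟨(e : ℕ) + n, hn'⟩ : ℤ) - z.1 ⟨(e : ℕ) + n, hn'⟩)
          - ((z'.2 ⟨(e : ℕ) + n, hn'⟩ : ℤ) - z'.1 ⟨(e : ℕ) + n, hn'⟩)) +
          ((r1 e : ℤ) - r2 e) * ((z.2 ⟨n, by omega⟩ : ℤ) - z'.2 ⟨n, by omega⟩) := by
        rw [hv]; ring
      rw [hvv]
      exact ⟨k1, k2⟩
    have hinj : ∀ z ∈ T, ∀ z' ∈ T, v z = v z' → gk (e : ℕ) n z = gk (e : ℕ) n z' := by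
      intro z hz z' hz' hvz
      obtain ⟨a1, a2, _, _⟩ := hmem z (hTm z hz).1
      obtain ⟨b1, b2, _, _⟩ := hmem z' (hTm z' hz').1
      have c1 := mm_lt hb3 a2 ⟨n, by omega⟩
      have c2 := mm_lt hb3 b2 ⟨n, by omega⟩
      have hv0 : (p : ℤ) * (((z.2 ⟨(e : ℕ) + n, hn'⟩ : ℤ) - z.1 ⟨(e : ℕ) + n, hn'⟩)
          - ((z'.2 ⟨(e : ℕ) + n, hn'⟩ : ℤ) - z'.1 ⟨(e : ℕ) + n, hn'⟩)) +
          ((r1 e : ℤ) - r2 e) * ((z.2 ⟨n, by omega⟩ : ℤ) - z'.2 ⟨n, by omega⟩) = 0 := by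
        have : v z - v z' = 0 := by rw [hvz]; ring
        rw [hv] at this
        linear_combination this
      obtain ⟨d1, d2⟩ := step_inj h hs0 hs1 ⟨by positivity, by omega⟩ ⟨by positivity, by omega⟩ hv0
      unfold gk
      rw [dif_pos hn', dif_pos hn', dif_pos (show n < m by omega), dif_pos (show n < m by omega)]
      exact Prod.ext (by simpa using sub_eq_zero.1 d1) d2
    refine (card_image_factor T (gk (e : ℕ) n) v hinj).trans ?_
    refine sep_count (b := (b : ℤ)) (by omega) _ ?_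
    intro u hu w hw
    rw [mem_image] at hu hw
    obtain ⟨z, hz, rfl⟩ := hu
    obtain ⟨z', hz', rfl⟩ := hw
    exact hvlow z hz z' hz'
  · -- the leaves
    intro s hs
    obtain ⟨s1, s2, _, _⟩ := hmem s hs
    set T := S.filter fun s' => ∀ k < m - (e : ℕ), gk (e : ℕ) k s' = gk (e : ℕ) k s with hT
    have hTm : ∀ z ∈ T, z ∈ S ∧ ∀ k < m - (e : ℕ), gk (e : ℕ) k z = gk (e : ℕ) k s := by
      intro z hz
      rw [hT, mem_filter] at hz
      exact hz
    set P : Finset (Fin m → ℕ) := Fintype.piFinset fun i : Fin m =>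
      if (i : ℕ) ≠ 0 ∧ (i : ℕ) ∉ F ∧ m - (e : ℕ) ≤ (i : ℕ) then range (b / 2) else {s.2 i} with hP
    have hPc : P.card = (b / 2) ^ (univ.filter fun i : Fin m => (i : ℕ) ≠ 0 ∧ (i : ℕ) ∉ F ∧
      m - (e : ℕ) ≤ (i : ℕ)).card := by
      rw [hP, Fintype.card_piFinset, ← prod_const, prod_filter]
      refine prod_congr rfl fun i _ => ?_
      split
      · rw [card_range]
      · rw [card_singleton]
    rw [← hPc]
    refine card_le_card_of_injOn (fun z => z.2) ?_ ?_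
    · intro z hz
      obtain ⟨z1, z2⟩ := hTm z hz
      obtain ⟨_, a2, _, _⟩ := hmem z z1
      rw [mem_coe, hP, Fintype.mem_piFinset]
      intro i
      split
      · exact mem_range.2 (mm_lt hb3 a2 i)
      · rename_i hi
        rw [mem_singleton]
        show z.2 i = s.2 i
        by_cases h0 : (i : ℕ) = 0 ∨ (i : ℕ) ∈ F
        · rw [mm_zero a2 i h0, mm_zero s2 i h0]
        · have h1 : (i : ℕ) < m - (e : ℕ) := by
            by_contra hc
            apply hi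
            push Not at h0
            exact ⟨h0.1, h0.2, by omega⟩
          exact gk_snd (z2 _ h1) i.isLt
    · intro z hz z' hz' hzz
      obtain ⟨z1, z2⟩ := hTm z hz
      obtain ⟨z1', z2'⟩ := hTm z' hz'
      have hzz' : z.2 = z'.2 := hzz
      refine Prod.ext ?_ hzz'
      funext i
      rcases lt_or_ge (i : ℕ) (e : ℕ) with h1 | h1
      · rw [← hpre z z1 i h1, ← hpre z' z1' i h1, hzz']
      · have him := i.isLt
        have hk : (i : ℕ) - (e : ℕ) < m - (e : ℕ) := by omega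
        have hkm : (e : ℕ) + ((i : ℕ) - (e : ℕ)) < m := by omega
        have h2 := gk_fst ((z2 _ hk).trans (z2' _ hk).symm) hkm
        have h3 : (⟨(e : ℕ) + ((i : ℕ) - (e : ℕ)), hkm⟩ : Fin m) = i := by
          apply Fin.ext
          simp only
          omega
        rw [h3, hzz'] at h2
        have h4 : (z.1 i : ℤ) = z'.1 i := by linarith
        exact_mod_cast h4

end Pool.Agent.HPP
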