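import Pool.Agent.HPP.EGl
import Pool.Agent.HPP.EBas

/-!
# HPP/EStep: one step of the energy argument

`D = b / 2`. Fix free digits `φ`; `cL = low (gl φ 0)`, `cT = top (gl φ 0)`; for matched strings `μ ∈ MM`
`low = cL + Lw μ`, `top = cT + Tw μ` (EGl). Let `r1, r2, x, y, x', y' ∈ MM`, `e < m` the first position
where `r1, r2` differ, `e ≤ n < m`, both `(x, y)` and `(x', y')` satisfy
 (low) `low r1 * low y ≡ low r2 * low x mod b^m`, (top) `|top r1 top y - top r2 top x| ≤ 2 b^m`,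
`τ = y - x`, `τ' = y' - x'`, and `τ_i = τ'_i` for `i < n`, `y_l = y'_l` for `l < n - e`. Put
`Δτ_i = τ_i - τ'_i`, `Δy_l = y_l - y'_l`, `v = p Δτ_n + s₀ Δy_{n-e}`, `s₀ = r1_e - r2_e`.

`step_low`: `b ∣ v`. Proof: subtract the two congruences written as
`(low r1 - low r2) low y + low r2 (low y - low x) ≡ 0`:
`(low r1 - low r2) ∑_{l ≥ n-e} Δy_l b^l + low r2 ∑_{i ≥ n} Δτ_i b^i ≡ 0 mod b^m`. Here
`low r1 - low r2 = ∑_{i ≥ e} (r1_i - r2_i) b^i = b^e (s₀ + b (..))`, `low r2 ≡ p mod b`; reduce mod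
`b^(n+1)` (`n + 1 ≤ m`): `b^n (s₀ Δy_{n-e} + p Δτ_n) ≡ 0 mod b^(n+1)`.

`step_top`: `|v| ≤ 7 b`. Proof: subtract the two inequalities:
`|(top r1 - top r2) ∑_{l ≥ n-e} Δy_l b^(m-1-l) + top r2 ∑_{i ≥ n} Δτ_i b^(m-1-i)| ≤ 4 b^m`. Write
`top r1 - top r2 = σ b^(m-1-e)`, `|σ - s₀| ≤ (D-1)/(b-1) ≤ 1/2` (digit differences `≤ D - 1`),
`top r2 = P b^(m-1)`, `p ≤ P < p + 1`. Divide by `b^(2m-2-n)`:
`|σ (Δy_{n-e} + ρ₁) + P (Δτ_n + ρ₂)| ≤ 4 b^(n+2-m) ≤ 4 b`, `|ρ₁| ≤ (D-1)/(b-1) ≤ 1/2`,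
`|ρ₂| ≤ 2 (D-1)/(b-1) ≤ 1`. As `|σ| ≤ b/2`, `P ≤ b`, `|Δy| ≤ D - 1`, `|Δτ| ≤ 2 (D - 1)`:
`|v| ≤ 4b + |σ|/2 + P + |σ - s₀||Δy| + |P - p||Δτ| ≤ 4b + b/4 + b + b/4 + b ≤ 7 b`.
(Work over `ℝ`; all sums over `i : Fin m`.)

`step_inj`: `v = 0`, `n ≥ e`: then `Δτ_n = 0` and `Δy_{n-e} = 0`: `p ∣ s₀ Δy`, `0 < |s₀| < D < p`, `p` prime,
so `p ∣ Δy`, `|Δy| < D < p`.
-/

namespace Pool.Agent.HPP

open Finset

/-- low condition -/
def QL (b p : ℕ) {m : ℕ} (F : Finset ℕ) (φ : Fin m → ℕ × ℕ) (r1 r2 x y : Fin m → ℕ) : Prop :=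
  lowv b (gl p F φ r1) * lowv b (gl p F φ y) ≡ lowv b (gl p F φ r2) * lowv b (gl p F φ x)
    [MOD b ^ m]

/-- top condition -/
def QT (b p : ℕ) {m : ℕ} (F : Finset ℕ) (φ : Fin m → ℕ × ℕ) (r1 r2 x y : Fin m → ℕ) : Prop :=
  |(topv b (gl p F φ r1) : ℝ) * topv b (gl p F φ y) -
    (topv b (gl p F φ r2) : ℝ) * topv b (gl p F φ x)| ≤ 2 * (b : ℝ) ^ m

theorem es_MM_lt {b p m : ℕ} {F : Finset ℕ} (h : Bas b p) {μ : Fin m → ℕ} (hμ : μ ∈ MM b m F)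
    (i : Fin m) : μ i < b / 2 := by
  have h3 := h.three
  have hi := Fintype.mem_piFinset.1 hμ i
  split_ifs at hi with hc
  · rw [mem_singleton] at hi
    omega
  · exact mem_range.1 hi

/-- low sums of integers vanishing below `k` -/
theorem es_low_sum {b m : ℕ} (f : Fin m → ℤ) {k : ℕ} (hk : k < m)
    (hf : ∀ i : Fin m, (i : ℕ) < k → f i = 0) :
    ∃ t : ℤ, ∑ i, f i * (b : ℤ) ^ (i : ℕ) = (b : ℤ) ^ k * (f ⟨k, hk⟩ + b * t) := by
  have hdvd : (b : ℤ) ^ (k + 1) ∣ ∑ i ∈ univ.erase (⟨k, hk⟩ : Fin m), f i * (b : ℤ) ^ (i : ℕ) := by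
    refine dvd_sum fun i hi => ?_
    have hne : (i : ℕ) ≠ k := fun hc => (mem_erase.1 hi).1 (Fin.ext hc)
    rcases Nat.lt_or_ge (i : ℕ) k with hlt | hge
    · rw [hf i hlt, zero_mul]
      exact dvd_zero _
    · exact Dvd.dvd.mul_left (pow_dvd_pow _ (by omega)) _
  obtain ⟨t, ht⟩ := hdvd
  refine ⟨t, ?_⟩
  rw [← add_sum_erase univ _ (mem_univ (⟨k, hk⟩ : Fin m)), ht]
  ring

/-- top sums of reals vanishing below `k` -/
theorem es_top_sum {b m : ℕ} (hb : 2 ≤ b) (f : Fin m → ℝ) {k : ℕ} (hk : k < m) {M : ℝ}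
    (hM : ∀ i, |f i| ≤ M) (hf : ∀ i : Fin m, (i : ℕ) < k → f i = 0) :
    |∑ i, f i * (b : ℝ) ^ (m - 1 - (i : ℕ)) - f ⟨k, hk⟩ * (b : ℝ) ^ (m - 1 - k)| * (b - 1) ≤
      M * (b : ℝ) ^ (m - 1 - k) := by
  have hb' : (2 : ℝ) ≤ b := by exact_mod_cast hb
  have hb0 : (0 : ℝ) ≤ b := by linarith
  have hM0 : 0 ≤ M := (abs_nonneg _).trans (hM ⟨k, hk⟩)
  rw [← add_sum_erase univ _ (mem_univ (⟨k, hk⟩ : Fin m)), add_sub_cancel_left]
  have h1 : |∑ i ∈ univ.erase (⟨k, hk⟩ : Fin m), f i * (b : ℝ) ^ (m - 1 - (i : ℕ))| ≤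
      ∑ i ∈ univ.filter (fun i : Fin m => k < (i : ℕ)), M * (b : ℝ) ^ (m - 1 - (i : ℕ)) := by
    refine (abs_sum_le_sum_abs _ _).trans ?_
    have hsub : univ.filter (fun i : Fin m => k < (i : ℕ)) ⊆ univ.erase (⟨k, hk⟩ : Fin m) := by
      intro i hi
      rw [mem_filter] at hi
      refine mem_erase.2 ⟨fun hc => ?_, mem_univ _⟩
      rw [hc] at hi
      exact lt_irrefl _ hi.2
    rw [← sum_subset hsub]
    · refine sum_le_sum fun i _ => ?_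
      rw [abs_mul, abs_of_nonneg (pow_nonneg hb0 _)]
      exact mul_le_mul_of_nonneg_right (hM i) (pow_nonneg hb0 _)
    · intro i hi hni
      have hne : (i : ℕ) ≠ k := fun hc => (mem_erase.1 hi).1 (Fin.ext hc)
      have hle : (i : ℕ) < k := by
        by_contra hc
        exact hni (mem_filter.2 ⟨mem_univ _, by omega⟩)
      rw [hf i hle, zero_mul, abs_zero]
  have h2 : ∑ i ∈ univ.filter (fun i : Fin m => k < (i : ℕ)), M * (b : ℝ) ^ (m - 1 - (i : ℕ)) =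
      M * ∑ j ∈ range (m - 1 - k), (b : ℝ) ^ j := by
    rw [mul_sum]
    refine sum_bij' (fun i _ => m - 1 - (i : ℕ))
      (fun j hj => ⟨m - 1 - j, by have := mem_range.1 hj; omega⟩) ?_ ?_ ?_ ?_ ?_
    · intro i hi
      have h1 := (mem_filter.1 hi).2
      have h2 := i.2
      exact mem_range.2 (by omega)
    · intro j hj
      have := mem_range.1 hj
      exact mem_filter.2 ⟨mem_univ _, by simp only; omega⟩
    · intro i hi
      have h1 := (mem_filter.1 hi).2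
      have h2 := i.2
      exact Fin.ext (by simp only; omega)
    · intro j hj
      have := mem_range.1 hj
      simp only
      omega
    · intro i hi
      rfl
  have h3 : (∑ j ∈ range (m - 1 - k), (b : ℝ) ^ j) * (b - 1) = (b : ℝ) ^ (m - 1 - k) - 1 :=
    geom_sum_mul _ _
  have h4 := h1.trans_eq h2
  calc _ ≤ (M * ∑ j ∈ range (m - 1 - k), (b : ℝ) ^ j) * (b - 1) :=
        mul_le_mul_of_nonneg_right h4 (by linarith)
    _ = M * ((b : ℝ) ^ (m - 1 - k) - 1) := by rw [mul_assoc, h3]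
    _ ≤ _ := by
        refine mul_le_mul_of_nonneg_left ?_ hM0
        linarith

theorem es_Lw_sub {b m : ℕ} (u v : Fin m → ℕ) :
    (Lw b u : ℤ) - Lw b v = ∑ i, ((u i : ℤ) - v i) * (b : ℤ) ^ (i : ℕ) := by
  unfold Lw
  push_cast
  rw [← sum_sub_distrib]
  exact sum_congr rfl fun i _ => by ring

theorem es_Tw_sub {b m : ℕ} (u v : Fin m → ℕ) :
    (Tw b u : ℝ) - Tw b v = ∑ i, ((u i : ℝ) - v i) * (b : ℝ) ^ (m - 1 - (i : ℕ)) := by
  unfold Tw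
  push_cast
  rw [← sum_sub_distrib]
  exact sum_congr rfl fun i _ => by ring

theorem step_low {b p m : ℕ} {F : Finset ℕ} (h : Bas b p) (hF : F ⊆ Ico 1 m)
    {φ : Fin m → ℕ × ℕ} (hφ : φ ∈ FF b m F) {r1 r2 x y x' y' : Fin m → ℕ}
    (hr1 : r1 ∈ MM b m F) (hr2 : r2 ∈ MM b m F) (hx : x ∈ MM b m F) (hy : y ∈ MM b m F)
    (hx' : x' ∈ MM b m F) (hy' : y' ∈ MM b m F) {e n : ℕ} (hn : n < m) (hen : e ≤ n)
    (hr : ∀ i : Fin m, (i : ℕ) < e → r1 i = r2 i)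
    (h1 : QL b p F φ r1 r2 x y) (h2 : QL b p F φ r1 r2 x' y')
    (hτ : ∀ i : Fin m, (i : ℕ) < n → (y i : ℤ) - x i = (y' i : ℤ) - x' i)
    (hl : ∀ i : Fin m, (i : ℕ) < n - e → y i = y' i) :
    (b : ℤ) ∣ p * (((y ⟨n, hn⟩ : ℤ) - x ⟨n, hn⟩) - ((y' ⟨n, hn⟩ : ℤ) - x' ⟨n, hn⟩)) +
      ((r1 ⟨e, by omega⟩ : ℤ) - r2 ⟨e, by omega⟩) *
      ((y ⟨n - e, by omega⟩ : ℤ) - y' ⟨n - e, by omega⟩) := by
  have hm : 1 ≤ m := by omega
  have hem : e < m := by omega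
  have L1 := low_gl (p := p) φ hr1
  have L2 := low_gl (p := p) φ hr2
  have Lx := low_gl (p := p) φ hx
  have Ly := low_gl (p := p) φ hy
  have Lx' := low_gl (p := p) φ hx'
  have Ly' := low_gl (p := p) φ hy'
  have hp2 := low_mod h hm (gl_mem (p := p) hφ hr2)
  unfold QL at h1 h2
  obtain ⟨t4, ht4⟩ := (Nat.modEq_iff_dvd.1 hp2.symm)
  have hd1 := Nat.modEq_iff_dvd.1 h1.symm
  have hd2 := Nat.modEq_iff_dvd.1 h2.symm
  have hd := dvd_sub hd1 hd2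
  obtain ⟨t2, ht2⟩ := es_low_sum (b := b) (fun i => (r1 i : ℤ) - r2 i) hem
    (fun i hi => by rw [hr i hi]; ring)
  obtain ⟨t1, ht1⟩ := es_low_sum (b := b) (fun i => (y i : ℤ) - y' i) (k := n - e) (by omega)
    (fun i hi => by rw [hl i hi]; ring)
  obtain ⟨t3, ht3⟩ := es_low_sum (b := b)
    (fun i => ((y i : ℤ) - x i) - ((y' i : ℤ) - x' i)) hn
    (fun i hi => by rw [hτ i hi]; ring)
  have e1 := es_Lw_sub (b := b) r1 r2
  have e2 := es_Lw_sub (b := b) y y'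
  have e3 : ((Lw b y : ℤ) - Lw b x) - ((Lw b y' : ℤ) - Lw b x') =
      ∑ i, (((y i : ℤ) - x i) - ((y' i : ℤ) - x' i)) * (b : ℤ) ^ (i : ℕ) := by
    rw [es_Lw_sub, es_Lw_sub, ← sum_sub_distrib]
    exact sum_congr rfl fun i _ => by ring
  rw [ht2] at e1
  rw [ht1] at e2
  rw [ht3] at e3
  set s0 : ℤ := (r1 ⟨e, hem⟩ : ℤ) - r2 ⟨e, hem⟩ with hs0
  set dy : ℤ := (y ⟨n - e, by omega⟩ : ℤ) - y' ⟨n - e, by omega⟩ with hdy
  set dt : ℤ := ((y ⟨n, hn⟩ : ℤ) - x ⟨n, hn⟩) - ((y' ⟨n, hn⟩ : ℤ) - x' ⟨n, hn⟩) with hdt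
  have key : ((lowv b (gl p F φ r1) * lowv b (gl p F φ y) : ℕ) : ℤ) -
        ((lowv b (gl p F φ r2) * lowv b (gl p F φ x) : ℕ) : ℤ) -
      (((lowv b (gl p F φ r1) * lowv b (gl p F φ y') : ℕ) : ℤ) -
        ((lowv b (gl p F φ r2) * lowv b (gl p F φ x') : ℕ) : ℤ)) =
      ((Lw b r1 : ℤ) - Lw b r2) * ((Lw b y : ℤ) - Lw b y') +
      (lowv b (gl p F φ r2) : ℤ) *
        (((Lw b y : ℤ) - Lw b x) - ((Lw b y' : ℤ) - Lw b x')) := by
    rw [L1, L2, Lx, Ly, Lx', Ly']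
    push_cast
    ring
  rw [key, e1, e2, e3] at hd
  have hpl : (lowv b (gl p F φ r2) : ℤ) = p + b * t4 := by linarith
  rw [hpl] at hd
  have hpow : (b : ℤ) ^ n = (b : ℤ) ^ e * (b : ℤ) ^ (n - e) := by
    rw [← pow_add]
    congr 1
    omega
  have hfin : (b : ℤ) ^ e * (s0 + b * t2) * ((b : ℤ) ^ (n - e) * (dy + b * t1)) +
      (p + b * t4) * ((b : ℤ) ^ n * (dt + b * t3)) =
      (b : ℤ) ^ n * ((p * dt + s0 * dy) + b * (s0 * t1 + t2 * dy + b * t2 * t1 +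
        p * t3 + t4 * dt + b * t4 * t3)) := by
    rw [hpow]
    ring
  rw [hfin] at hd
  have hb0 : (b : ℤ) ^ n ≠ 0 := by
    have := h.three
    positivity
  have hd' : (b : ℤ) ^ n * b ∣ (b : ℤ) ^ n * ((p * dt + s0 * dy) + b * (s0 * t1 + t2 * dy +
      b * t2 * t1 + p * t3 + t4 * dt + b * t4 * t3)) := by
    refine dvd_trans ?_ hd
    rw [← pow_succ]
    push_cast
    exact pow_dvd_pow _ (by omega)
  have hd'' := (mul_dvd_mul_iff_left hb0).1 hd'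
  exact (dvd_add_left (dvd_mul_right _ _)).1 hd''

theorem step_top {b p m : ℕ} {F : Finset ℕ} (h : Bas b p) (hF : F ⊆ Ico 1 m)
    {φ : Fin m → ℕ × ℕ} (hφ : φ ∈ FF b m F) {r1 r2 x y x' y' : Fin m → ℕ}
    (hr1 : r1 ∈ MM b m F) (hr2 : r2 ∈ MM b m F) (hx : x ∈ MM b m F) (hy : y ∈ MM b m F)
    (hx' : x' ∈ MM b m F) (hy' : y' ∈ MM b m F) {e n : ℕ} (hn : n < m) (hen : e ≤ n)
    (hr : ∀ i : Fin m, (i : ℕ) < e → r1 i = r2 i)
    (h1 : QT b p F φ r1 r2 x y) (h2 : QT b p F φ r1 r2 x' y')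
    (hτ : ∀ i : Fin m, (i : ℕ) < n → (y i : ℤ) - x i = (y' i : ℤ) - x' i)
    (hl : ∀ i : Fin m, (i : ℕ) < n - e → y i = y' i) :
    |(p : ℤ) * (((y ⟨n, hn⟩ : ℤ) - x ⟨n, hn⟩) - ((y' ⟨n, hn⟩ : ℤ) - x' ⟨n, hn⟩)) +
      ((r1 ⟨e, by omega⟩ : ℤ) - r2 ⟨e, by omega⟩) *
      ((y ⟨n - e, by omega⟩ : ℤ) - y' ⟨n - e, by omega⟩)| ≤ 7 * b := by
  have hm : 1 ≤ m := by omega
  have hem : e < m := by omega
  have h3 := h.three
  have hplt := h.lt
  have hb3 : (3 : ℝ) ≤ b := by exact_mod_cast h3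
  have hb0 : (0 : ℝ) < b := by linarith
  have T1 := top_gl (p := p) φ hr1
  have T2 := top_gl (p := p) φ hr2
  have Tx := top_gl (p := p) φ hx
  have Ty := top_gl (p := p) φ hy
  have Tx' := top_gl (p := p) φ hx'
  have Ty' := top_gl (p := p) φ hy'
  obtain ⟨hp1, hp2, -⟩ := top_bounds h hm (gl_mem (p := p) hφ hr2)
  unfold QT at h1 h2
  set D : ℝ := (b : ℝ) / 2 - 1 with hD
  have hdig : ∀ u v : Fin m → ℕ, u ∈ MM b m F → v ∈ MM b m F → ∀ i, |(u i : ℝ) - v i| ≤ D := by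
    intro u v hu hv i
    have hu' := es_MM_lt h hu i
    have hv' := es_MM_lt h hv i
    have hu2 : 2 * (u i + 1) ≤ b := by omega
    have hv2 : 2 * (v i + 1) ≤ b := by omega
    have hu3 : 2 * ((u i : ℝ) + 1) ≤ b := by exact_mod_cast hu2
    have hv3 : 2 * ((v i : ℝ) + 1) ≤ b := by exact_mod_cast hv2
    have hu0 : (0 : ℝ) ≤ u i := Nat.cast_nonneg _
    have hv0 : (0 : ℝ) ≤ v i := Nat.cast_nonneg _
    rw [abs_le]
    constructor <;> rw [hD] <;> linarith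
  have g1 := es_top_sum (b := b) (by omega) (fun i => (r1 i : ℝ) - r2 i) hem
    (hdig r1 r2 hr1 hr2) (fun i hi => by rw [hr i hi]; ring)
  have g2 := es_top_sum (b := b) (by omega) (fun i => (y i : ℝ) - y' i) (k := n - e) (by omega)
    (hdig y y' hy hy') (fun i hi => by rw [hl i hi]; ring)
  have g3 := es_top_sum (b := b) (by omega)
    (fun i => ((y i : ℝ) - x i) - ((y' i : ℝ) - x' i)) hn (M := 2 * D)
    (fun i => by
      have := hdig y x hy hx i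
      have := hdig y' x' hy' hx' i
      refine (abs_sub _ _).trans ?_
      linarith)
    (fun i hi => by
      have := hτ i hi
      have h' : ((y i : ℝ) - x i) = ((y' i : ℝ) - x' i) := by exact_mod_cast this
      rw [h']
      ring)
  have e1 := es_Tw_sub (b := b) r1 r2
  have e2 := es_Tw_sub (b := b) y y'
  have e3 : ((Tw b y : ℝ) - Tw b x) - ((Tw b y' : ℝ) - Tw b x') =
      ∑ i, (((y i : ℝ) - x i) - ((y' i : ℝ) - x' i)) * (b : ℝ) ^ (m - 1 - (i : ℕ)) := by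
    rw [es_Tw_sub, es_Tw_sub, ← sum_sub_distrib]
    exact sum_congr rfl fun i _ => by ring
  rw [← e1] at g1
  rw [← e2] at g2
  rw [← e3] at g3
  set s0 : ℝ := (r1 ⟨e, hem⟩ : ℝ) - r2 ⟨e, hem⟩ with hs0
  set dy : ℝ := (y ⟨n - e, by omega⟩ : ℝ) - y' ⟨n - e, by omega⟩ with hdy
  set dt : ℝ := ((y ⟨n, hn⟩ : ℝ) - x ⟨n, hn⟩) - ((y' ⟨n, hn⟩ : ℝ) - x' ⟨n, hn⟩) with hdt
  set A : ℝ := (Tw b r1 : ℝ) - Tw b r2 with hA
  set Y : ℝ := (Tw b y : ℝ) - Tw b y' with hY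
  set Z : ℝ := ((Tw b y : ℝ) - Tw b x) - ((Tw b y' : ℝ) - Tw b x') with hZ
  set P : ℝ := (topv b (gl p F φ r2) : ℝ) with hP
  have key : ((topv b (gl p F φ r1) : ℝ) * topv b (gl p F φ y) - P * topv b (gl p F φ x)) -
      ((topv b (gl p F φ r1) : ℝ) * topv b (gl p F φ y') - P * topv b (gl p F φ x')) =
      A * Y + P * Z := by
    rw [hP, T1, T2, Tx, Ty, Tx', Ty', hA, hY, hZ]
    push_cast
    ring
  have hAYZ : |A * Y + P * Z| ≤ 4 * (b : ℝ) ^ m := by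
    rw [← key]
    refine (abs_sub _ _).trans ?_
    linarith
  have hP1 : (p : ℝ) * (b : ℝ) ^ (m - 1) ≤ P := by
    rw [hP]
    exact_mod_cast hp1
  have hP2 : P ≤ ((p : ℝ) + 1) * (b : ℝ) ^ (m - 1) := by
    rw [hP]
    exact_mod_cast hp2.le
  -- normalised quantities
  set α : ℝ := A / (b : ℝ) ^ (m - 1 - e) with hα
  set β : ℝ := Y / (b : ℝ) ^ (m - 1 - (n - e)) with hβ
  set γ : ℝ := Z / (b : ℝ) ^ (m - 1 - n) with hγ
  set π' : ℝ := P / (b : ℝ) ^ (m - 1) with hπ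
  have pw : ∀ k : ℕ, (0 : ℝ) < (b : ℝ) ^ k := fun k => pow_pos hb0 k
  have hA' : A = α * (b : ℝ) ^ (m - 1 - e) := by
    rw [hα, div_mul_cancel₀ _ (pw _).ne']
  have hY' : Y = β * (b : ℝ) ^ (m - 1 - (n - e)) := by
    rw [hβ, div_mul_cancel₀ _ (pw _).ne']
  have hZ' : Z = γ * (b : ℝ) ^ (m - 1 - n) := by
    rw [hγ, div_mul_cancel₀ _ (pw _).ne']
  have hP' : P = π' * (b : ℝ) ^ (m - 1) := by
    rw [hπ, div_mul_cancel₀ _ (pw _).ne']
  have norm : ∀ {a c M : ℝ} {k : ℕ}, |a * (b : ℝ) ^ k - c * (b : ℝ) ^ k| * ((b : ℝ) - 1) ≤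
      M * (b : ℝ) ^ k → |a - c| * ((b : ℝ) - 1) ≤ M := by
    intro a c M k hh
    rw [← sub_mul, abs_mul, abs_of_pos (pw k)] at hh
    refine le_of_mul_le_mul_right ?_ (pw k)
    linarith
  rw [hA'] at g1
  rw [hY'] at g2
  rw [hZ'] at g3
  have g1' := norm g1
  have g2' := norm g2
  have g3' := norm g3
  have hb1 : (0 : ℝ) < b - 1 := by linarith
  have k1 : |α - s0| ≤ 1 / 2 := by
    refine le_of_mul_le_mul_right ?_ hb1
    rw [hD] at g1'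
    linarith
  have k2 : |β - dy| ≤ 1 / 2 := by
    refine le_of_mul_le_mul_right ?_ hb1
    rw [hD] at g2'
    linarith
  have k3 : |γ - dt| ≤ 1 := by
    refine le_of_mul_le_mul_right ?_ hb1
    rw [hD] at g3'
    linarith
  have k4 : (p : ℝ) ≤ π' := by
    rw [hP'] at hP1
    exact le_of_mul_le_mul_right hP1 (pw _)
  have k5 : π' ≤ p + 1 := by
    rw [hP'] at hP2
    exact le_of_mul_le_mul_right hP2 (pw _)
  have hbm : (b : ℝ) ^ m = b * (b : ℝ) ^ (m - 1) := by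
    rw [← pow_succ']
    congr 1
    omega
  have hprod : A * Y + P * Z = (α * β + π' * γ) * ((b : ℝ) ^ (m - 1) * (b : ℝ) ^ (m - 1 - n)) := by
    have : (b : ℝ) ^ (m - 1 - e) * (b : ℝ) ^ (m - 1 - (n - e)) =
        (b : ℝ) ^ (m - 1) * (b : ℝ) ^ (m - 1 - n) := by
      rw [← pow_add, ← pow_add]
      congr 1
      omega
    rw [hA', hY', hZ', hP']
    calc _ = (α * β) * ((b : ℝ) ^ (m - 1 - e) * (b : ℝ) ^ (m - 1 - (n - e))) +
          (π' * γ) * ((b : ℝ) ^ (m - 1) * (b : ℝ) ^ (m - 1 - n)) := by ring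
      _ = _ := by rw [this]; ring
  have k6 : |α * β + π' * γ| ≤ 4 * b := by
    rw [hprod, abs_mul, abs_of_pos (mul_pos (pw _) (pw _)), hbm] at hAYZ
    have h1' : (1 : ℝ) ≤ (b : ℝ) ^ (m - 1 - n) := one_le_pow₀ (by linarith)
    have h2' : |α * β + π' * γ| * (b : ℝ) ^ (m - 1) ≤ 4 * b * (b : ℝ) ^ (m - 1) := by
      calc _ = |α * β + π' * γ| * ((b : ℝ) ^ (m - 1) * 1) := by ring
        _ ≤ |α * β + π' * γ| * ((b : ℝ) ^ (m - 1) * (b : ℝ) ^ (m - 1 - n)) := by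
            refine mul_le_mul_of_nonneg_left ?_ (abs_nonneg _)
            exact mul_le_mul_of_nonneg_left h1' (pw _).le
        _ ≤ 4 * (b * (b : ℝ) ^ (m - 1)) := hAYZ
        _ = _ := by ring
    exact le_of_mul_le_mul_right h2' (pw _)
  have k7 : |s0| ≤ D := hdig r1 r2 hr1 hr2 _
  have k8 : |dy| ≤ D := hdig y y' hy hy' _
  have k9 : |dt| ≤ 2 * D := by
    have := hdig y x hy hx ⟨n, hn⟩
    have := hdig y' x' hy' hx' ⟨n, hn⟩
    refine (abs_sub _ _).trans ?_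
    linarith
  have hpb : (p : ℝ) + 1 ≤ b := by exact_mod_cast hplt
  have hp0 : (0 : ℝ) ≤ p := Nat.cast_nonneg _
  have k10 : |α| ≤ D + 1 / 2 := by
    have := abs_add_le (α - s0) s0
    rw [sub_add_cancel] at this
    linarith
  have k11 : |α * β - s0 * dy| ≤ (b : ℝ) / 2 := by
    have : α * β - s0 * dy = (α - s0) * dy + α * (β - dy) := by ring
    rw [this]
    refine (abs_add_le _ _).trans ?_
    rw [abs_mul, abs_mul]
    have i1 : |α - s0| * |dy| ≤ 1 / 2 * D :=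
      mul_le_mul k1 k8 (abs_nonneg _) (by norm_num)
    have i2 : |α| * |β - dy| ≤ (D + 1 / 2) * (1 / 2) :=
      mul_le_mul k10 k2 (abs_nonneg _) ((abs_nonneg _).trans k10)
    rw [hD] at i1 i2
    linarith
  have k12 : |π' * γ - p * dt| ≤ 2 * b := by
    have : π' * γ - p * dt = π' * (γ - dt) + (π' - p) * dt := by ring
    rw [this]
    refine (abs_add_le _ _).trans ?_
    rw [abs_mul, abs_mul]
    have i0 : |π'| ≤ b := by
      rw [abs_of_nonneg (hp0.trans k4)]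
      linarith
    have i1 : |π'| * |γ - dt| ≤ b * 1 :=
      mul_le_mul i0 k3 (abs_nonneg _) hb0.le
    have i3 : |π' - p| ≤ 1 := by
      rw [abs_of_nonneg (by linarith)]
      linarith
    have i2 : |π' - p| * |dt| ≤ 1 * (2 * D) :=
      mul_le_mul i3 k9 (abs_nonneg _) (by norm_num)
    rw [hD] at i2
    linarith
  have k13 : |(p : ℝ) * dt + s0 * dy| ≤ 7 * b := by
    have : (p : ℝ) * dt + s0 * dy = (α * β + π' * γ) - (α * β - s0 * dy) -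
        (π' * γ - p * dt) := by ring
    rw [this]
    refine (abs_sub _ _).trans ?_
    have := abs_sub (α * β + π' * γ) (α * β - s0 * dy)
    linarith
  have hcast : (((p : ℤ) * (((y ⟨n, hn⟩ : ℤ) - x ⟨n, hn⟩) - ((y' ⟨n, hn⟩ : ℤ) - x' ⟨n, hn⟩)) +
      ((r1 ⟨e, by omega⟩ : ℤ) - r2 ⟨e, by omega⟩) *
      ((y ⟨n - e, by omega⟩ : ℤ) - y' ⟨n - e, by omega⟩) : ℤ) : ℝ) = (p : ℝ) * dt + s0 * dy := by
    rw [hdt, hs0, hdy]
    push_cast
    ring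
  rw [← hcast] at k13
  exact_mod_cast k13

/-- below the first difference of `r1, r2` the digits of `x` and `y` agree: `low r2 (low y - low x) ≡
-(low r1 - low r2) low y ≡ 0 mod b^e`, `low r2` prime to `b`, and `b^e ∣ ∑ (y_i - x_i) b^i` with digits `< b`
forces `y_i = x_i` for `i < e`. -/
theorem step_pre {b p m : ℕ} {F : Finset ℕ} (h : Bas b p) (hF : F ⊆ Ico 1 m)
    {φ : Fin m → ℕ × ℕ} (hφ : φ ∈ FF b m F) {r1 r2 x y : Fin m → ℕ}
    (hr1 : r1 ∈ MM b m F) (hr2 : r2 ∈ MM b m F) (hx : x ∈ MM b m F) (hy : y ∈ MM b m F)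
    {e : ℕ} (he : e ≤ m) (hr : ∀ i : Fin m, (i : ℕ) < e → r1 i = r2 i)
    (h1 : QL b p F φ r1 r2 x y) : ∀ i : Fin m, (i : ℕ) < e → y i = x i := by
  intro i
  obtain ⟨i, him⟩ := i
  simp only
  induction i using Nat.strong_induction_on with
  | _ k ih =>
    intro hke
    have hm : 1 ≤ m := by omega
    have hlow : ∀ j : Fin m, (j : ℕ) < k → (y j : ℤ) - x j = 0 := by
      intro j hj
      have := ih j hj j.2 (by omega)
      rw [show y j = x j from this]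
      ring
    obtain ⟨t, ht⟩ := es_low_sum (b := b) (fun j => (y j : ℤ) - x j) him hlow
    have e2 := es_Lw_sub (b := b) y x
    rw [ht] at e2
    have L1 := low_gl (p := p) φ hr1
    have L2 := low_gl (p := p) φ hr2
    have Lx := low_gl (p := p) φ hx
    have Ly := low_gl (p := p) φ hy
    unfold QL at h1
    have hd1 := Nat.modEq_iff_dvd.1 h1.symm
    have hcop := low_coprime h hm (gl_mem (p := p) hφ hr2)
    have hre : (b : ℤ) ^ e ∣ (Lw b r1 : ℤ) - Lw b r2 := by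
      rw [es_Lw_sub]
      refine dvd_sum fun j _ => ?_
      rcases Nat.lt_or_ge (j : ℕ) e with hj | hj
      · rw [hr j hj, sub_self, zero_mul]
        exact dvd_zero _
      · exact Dvd.dvd.mul_left (pow_dvd_pow _ hj) _
    have key : ((lowv b (gl p F φ r1) * lowv b (gl p F φ y) : ℕ) : ℤ) -
        ((lowv b (gl p F φ r2) * lowv b (gl p F φ x) : ℕ) : ℤ) =
        ((Lw b r1 : ℤ) - Lw b r2) * (lowv b (gl p F φ y) : ℤ) +
        (lowv b (gl p F φ r2) : ℤ) * ((Lw b y : ℤ) - Lw b x) := by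
      rw [L1, L2, Lx, Ly]
      push_cast
      ring
    rw [key] at hd1
    have hd2 : (b : ℤ) ^ e ∣ ((Lw b r1 : ℤ) - Lw b r2) * (lowv b (gl p F φ y) : ℤ) +
        (lowv b (gl p F φ r2) : ℤ) * ((Lw b y : ℤ) - Lw b x) := by
      refine dvd_trans ?_ hd1
      push_cast
      exact pow_dvd_pow _ he
    have hd3 : (b : ℤ) ^ e ∣ (lowv b (gl p F φ r2) : ℤ) * ((Lw b y : ℤ) - Lw b x) :=
      (dvd_add_right (Dvd.dvd.mul_right hre _)).1 hd2
    have hco : IsCoprime ((b : ℤ) ^ e) (lowv b (gl p F φ r2) : ℤ) :=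
      IsCoprime.pow_left (Nat.isCoprime_iff_coprime.2 hcop.symm)
    have hd4 := hco.dvd_of_dvd_mul_left hd3
    rw [e2] at hd4
    have hb0 : (b : ℤ) ^ k ≠ 0 := by
      have := h.three
      positivity
    have hd5 : (b : ℤ) ^ k * b ∣ (b : ℤ) ^ k * (((y ⟨k, him⟩ : ℤ) - x ⟨k, him⟩) + b * t) := by
      refine dvd_trans ?_ hd4
      rw [← pow_succ]
      exact pow_dvd_pow _ (by omega)
    have hd6 := (mul_dvd_mul_iff_left hb0).1 hd5
    have hd7 : (b : ℤ) ∣ (y ⟨k, him⟩ : ℤ) - x ⟨k, him⟩ :=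
      (dvd_add_left (dvd_mul_right _ _)).1 hd6
    have hy1 := es_MM_lt h hy ⟨k, him⟩
    have hx1 := es_MM_lt h hx ⟨k, him⟩
    have hz : (y ⟨k, him⟩ : ℤ) - x ⟨k, him⟩ = 0 := by
      refine Int.eq_zero_of_abs_lt_dvd hd7 ?_
      rw [abs_lt]
      constructor <;> omega
    omega

theorem step_inj {b p : ℕ} (h : Bas b p) {s a c c' : ℤ} (hs : s ≠ 0) (hs' : |s| < b / 2)
    (hc : 0 ≤ c ∧ c < b / 2) (hc' : 0 ≤ c' ∧ c' < b / 2) (hv : (p : ℤ) * a + s * (c - c') = 0) :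
    a = 0 ∧ c = c' := by
  have h3 := h.three
  have hlt := h.lt
  have hgt := h.gt
  have hpp : Prime (p : ℤ) := Nat.prime_iff_prime_int.1 h.prime
  have hd : (p : ℤ) ∣ s * (c - c') := ⟨-a, by linarith⟩
  rw [abs_lt] at hs'
  rcases hpp.dvd_or_dvd hd with h1 | h1
  · exfalso
    refine hs (Int.eq_zero_of_abs_lt_dvd h1 ?_)
    rw [abs_lt]
    constructor <;> omega
  · have hz : c - c' = 0 := by
      refine Int.eq_zero_of_abs_lt_dvd h1 ?_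
      rw [abs_lt]
      constructor <;> omega
    rw [hz, mul_zero, add_zero] at hv
    have hp0 : (p : ℤ) ≠ 0 := by
      have := h.prime.pos
      omega
    exact ⟨(mul_eq_zero.1 hv).resolve_left hp0, by omega⟩

end Pool.Agent.HPP
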