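import Mathlib

/-!
# HPP/LHol: fourth moment of a convolution

`(∫ k(y) g(t - y) dy)^4 ≤ (∫ k)^3 ∫ k(y) g(t - y)^4 dy` (Hoelder, or twice Cauchy-Schwarz, or Jensen for the convex
function `x^4`; if `∫ k = 0` then `k = 0`). Then Fubini (`k` integrable, `g` bounded and continuous, `t` in a bounded
interval): the sum is `≤ (∫ k)^3 ∫ k(y) ∑_i ∫_{-T}^{T} g_i(t - y)^4 dt dy`, and the inner integral is the integral of
`g_i^4` over the interval with centre `- y` and half-length `T`.
-/

namespace Pool.Agent.HPP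

open MeasureTheory

/-- a continuous bounded factor keeps integrability -/
theorem lhol_int {k f : ℝ → ℝ} (hki : Integrable k) (hf : Continuous f) {G : ℝ}
    (hG : ∀ y, |f y| ≤ G) : Integrable fun y => k y * f y := by
  have h := hki.bdd_mul (c := G) hf.aestronglyMeasurable
    (Filter.Eventually.of_forall fun y => by rw [Real.norm_eq_abs]; exact hG y)
  refine h.congr (Filter.Eventually.of_forall fun y => ?_)
  simp [mul_comm]

/-- Cauchy-Schwarz with the weight `k` -/
theorem lhol_cs {k f : ℝ → ℝ} (hk0 : ∀ y, 0 ≤ k y) (hki : Integrable k) (hf : Continuous f) {G : ℝ}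
    (hG : ∀ y, |f y| ≤ G) : (∫ y, k y * f y) ^ 2 ≤ (∫ y, k y) * ∫ y, k y * f y ^ 2 := by
  have hG2 : ∀ y, |f y ^ 2| ≤ G ^ 2 := by
    intro y
    rw [abs_pow]
    exact pow_le_pow_left₀ (abs_nonneg _) (hG y) 2
  have i1 : Integrable (fun y => k y * f y) := lhol_int hki hf hG
  have i2 : Integrable (fun y => k y * f y ^ 2) := lhol_int hki (hf.pow 2) hG2
  set K := ∫ y, k y with hK
  set A := ∫ y, k y * f y with hA
  set B := ∫ y, k y * f y ^ 2 with hB
  have hK0 : 0 ≤ K := integral_nonneg hk0
  rcases hK0.eq_or_lt with h0 | h0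
  · have h1 : k =ᵐ[volume] 0 := (integral_eq_zero_iff_of_nonneg hk0 hki).1 h0.symm
    have h2 : A = 0 := by
      rw [hA]
      have : ∫ y, k y * f y = ∫ _ : ℝ, (0 : ℝ) := by
        refine integral_congr_ae ?_
        filter_upwards [h1] with y hy
        rw [hy]
        simp
      rw [this]
      simp
    rw [h2, ← h0]
    simp
  · have h1 : 0 ≤ ∫ y, k y * (K * f y - A) ^ 2 :=
      integral_nonneg fun y => mul_nonneg (hk0 y) (sq_nonneg _)
    have h2 : ∫ y, k y * (K * f y - A) ^ 2 = K ^ 2 * B - 2 * K * A * A + A ^ 2 * K := by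
      have e : (fun y => k y * (K * f y - A) ^ 2) = fun y =>
          (K ^ 2 * (k y * f y ^ 2) - 2 * K * A * (k y * f y)) + A ^ 2 * k y := by
        funext y
        ring
      have j1 : Integrable (fun y => K ^ 2 * (k y * f y ^ 2) - 2 * K * A * (k y * f y)) :=
        (i2.const_mul _).sub (i1.const_mul _)
      rw [e, integral_add j1 (hki.const_mul _),
        integral_sub (i2.const_mul _) (i1.const_mul _), integral_const_mul, integral_const_mul,
        integral_const_mul]
    rw [h2] at h1
    have h3 : 0 ≤ K * (K * B - A ^ 2) := by nlinarith [h1]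
    have h4 := nonneg_of_mul_nonneg_right h3 h0
    linarith

theorem hol4 {ι : Type*} [Fintype ι] {k : ℝ → ℝ} (hk : Continuous k) (hk0 : ∀ y, 0 ≤ k y)
    (hki : Integrable k) {g : ι → ℝ → ℝ} (hg : ∀ i, Continuous (g i)) (hg0 : ∀ i y, 0 ≤ g i y)
    {G : ℝ} (hgb : ∀ i y, g i y ≤ G) {T B : ℝ} (hT : 0 ≤ T)
    (hB : ∀ t₀ : ℝ, ∑ i, ∫ t in (t₀ - T)..(t₀ + T), g i t ^ 4 ≤ B) :
    ∑ i, ∫ t in (-T)..T, (∫ y, k y * g i (t - y)) ^ 4 ≤ (∫ y, k y) ^ 4 * B := by
  set K := ∫ y, k y with hK
  have hK0 : 0 ≤ K := integral_nonneg hk0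
  have hb : ∀ i y, |g i y| ≤ G := fun i y => by rw [abs_of_nonneg (hg0 i y)]; exact hgb i y
  have hb2 : ∀ i y, |g i y ^ 2| ≤ G ^ 2 := fun i y => by
    rw [abs_pow]
    exact pow_le_pow_left₀ (abs_nonneg _) (hb i y) 2
  have hb4 : ∀ i y, |g i y ^ 4| ≤ G ^ 4 := fun i y => by
    rw [abs_pow]
    exact pow_le_pow_left₀ (abs_nonneg _) (hb i y) 4
  have hc : ∀ i t, Continuous fun y => g i (t - y) := fun i t =>
    (hg i).comp (continuous_const.sub continuous_id)
  -- pointwise
  have h1 : ∀ i t, (∫ y, k y * g i (t - y)) ^ 4 ≤ K ^ 3 * ∫ y, k y * g i (t - y) ^ 4 := by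
    intro i t
    have c1 := lhol_cs hk0 hki (hc i t) (fun y => hb i (t - y))
    have c2 : (∫ y, k y * g i (t - y) ^ 2) ^ 2 ≤ K * ∫ y, k y * (g i (t - y) ^ 2) ^ 2 :=
      lhol_cs hk0 hki ((hc i t).pow 2) (fun y => hb2 i (t - y))
    have e4 : (fun y => k y * (g i (t - y) ^ 2) ^ 2) = fun y => k y * g i (t - y) ^ 4 := by
      funext y
      ring
    rw [e4] at c2
    have n1 : 0 ≤ ∫ y, k y * g i (t - y) ^ 2 :=
      integral_nonneg fun y => mul_nonneg (hk0 y) (by positivity)
    have n2 : 0 ≤ ∫ y, k y * g i (t - y) ^ 4 :=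
      integral_nonneg fun y => mul_nonneg (hk0 y) (by positivity)
    calc (∫ y, k y * g i (t - y)) ^ 4 = ((∫ y, k y * g i (t - y)) ^ 2) ^ 2 := by ring
      _ ≤ (K * ∫ y, k y * g i (t - y) ^ 2) ^ 2 := pow_le_pow_left₀ (sq_nonneg _) c1 2
      _ = K ^ 2 * (∫ y, k y * g i (t - y) ^ 2) ^ 2 := by ring
      _ ≤ K ^ 2 * (K * ∫ y, k y * g i (t - y) ^ 4) := mul_le_mul_of_nonneg_left c2 (by positivity)
      _ = K ^ 3 * ∫ y, k y * g i (t - y) ^ 4 := by ring
  have hTT : -T ≤ T := by linarith
  -- integrability on the product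
  have hint : ∀ i, Integrable (Function.uncurry fun (t y : ℝ) => k y * g i (t - y) ^ 4)
      ((volume.restrict (Set.Ioc (-T) T)).prod volume) := by
    intro i
    have d : Integrable (fun z : ℝ × ℝ => (G ^ 4) * k z.2)
        ((volume.restrict (Set.Ioc (-T) T)).prod volume) :=
      (integrable_const (G ^ 4)).mul_prod hki
    refine d.mono' ?_ (Filter.Eventually.of_forall fun z => ?_)
    · refine Continuous.aestronglyMeasurable ?_
      refine (hk.comp continuous_snd).mul (((hg i).comp (continuous_fst.sub continuous_snd)).pow 4)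
    · show ‖k z.2 * g i (z.1 - z.2) ^ 4‖ ≤ _
      rw [norm_mul, Real.norm_eq_abs, Real.norm_eq_abs, abs_of_nonneg (hk0 _), mul_comm]
      exact mul_le_mul_of_nonneg_right (hb4 i _) (hk0 _)
  have cc4 : ∀ i, Continuous fun t : ℝ => ∫ y, k y * g i (t - y) ^ 4 := by
    intro i
    refine continuous_of_dominated (bound := fun y => k y * G ^ 4) ?_ ?_ (hki.mul_const _) ?_
    · intro t
      exact (hk.mul ((hc i t).pow 4)).aestronglyMeasurable
    · intro t
      refine Filter.Eventually.of_forall fun y => ?_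
      rw [norm_mul, Real.norm_eq_abs, Real.norm_eq_abs, abs_of_nonneg (hk0 _)]
      exact mul_le_mul_of_nonneg_left (hb4 i _) (hk0 _)
    · refine Filter.Eventually.of_forall fun y => ?_
      exact continuous_const.mul (((hg i).comp (continuous_id.sub continuous_const)).pow 4)
  have cc1 : ∀ i, Continuous fun t : ℝ => ∫ y, k y * g i (t - y) := by
    intro i
    refine continuous_of_dominated (bound := fun y => k y * G) ?_ ?_ (hki.mul_const _) ?_
    · intro t
      exact (hk.mul (hc i t)).aestronglyMeasurable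
    · intro t
      refine Filter.Eventually.of_forall fun y => ?_
      rw [norm_mul, Real.norm_eq_abs, Real.norm_eq_abs, abs_of_nonneg (hk0 _)]
      exact mul_le_mul_of_nonneg_left (hb i _) (hk0 _)
    · refine Filter.Eventually.of_forall fun y => ?_
      exact continuous_const.mul ((hg i).comp (continuous_id.sub continuous_const))
  have h2 : ∀ i, ∫ t in (-T)..T, (∫ y, k y * g i (t - y)) ^ 4 ≤
      K ^ 3 * ∫ y, k y * ∫ t in (-T)..T, g i (t - y) ^ 4 := by
    intro i
    calc ∫ t in (-T)..T, (∫ y, k y * g i (t - y)) ^ 4 ≤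
        ∫ t in (-T)..T, K ^ 3 * ∫ y, k y * g i (t - y) ^ 4 := by
          have u1 : Continuous fun t : ℝ => (∫ y, k y * g i (t - y)) ^ 4 := (cc1 i).pow 4
          have u2 : Continuous fun t : ℝ => K ^ 3 * ∫ y, k y * g i (t - y) ^ 4 :=
            continuous_const.mul (cc4 i)
          exact intervalIntegral.integral_mono_on hTT (u1.intervalIntegrable _ _)
            (u2.intervalIntegrable _ _) fun t _ => h1 i t
      _ = K ^ 3 * ∫ t in (-T)..T, ∫ y, k y * g i (t - y) ^ 4 := by
          rw [intervalIntegral.integral_const_mul]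
      _ = K ^ 3 * ∫ y, ∫ t in (-T)..T, k y * g i (t - y) ^ 4 := by
          congr 1
          rw [intervalIntegral.integral_of_le hTT, integral_integral_swap (hint i)]
          refine integral_congr_ae (Filter.Eventually.of_forall fun y => ?_)
          simp only
          rw [intervalIntegral.integral_of_le hTT]
      _ = K ^ 3 * ∫ y, k y * ∫ t in (-T)..T, g i (t - y) ^ 4 := by
          congr 1
          refine integral_congr_ae (Filter.Eventually.of_forall fun y => ?_)
          simp only
          rw [intervalIntegral.integral_const_mul]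
  have hI : ∀ i y, ∫ t in (-T)..T, g i (t - y) ^ 4 =
      ∫ t in (-y - T)..(-y + T), g i t ^ 4 := by
    intro i y
    rw [intervalIntegral.integral_comp_sub_right (fun t => g i t ^ 4) y]
    congr 1 <;> ring
  have hIc : ∀ i, Continuous fun y : ℝ => ∫ t in (-T)..T, g i (t - y) ^ 4 := by
    intro i
    refine intervalIntegral.continuous_parametric_intervalIntegral_of_continuous' ?_ _ _
    exact ((hg i).comp (continuous_snd.sub continuous_fst)).pow 4
  have hIb : ∀ i y, |∫ t in (-T)..T, g i (t - y) ^ 4| ≤ G ^ 4 * (2 * T) := by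
    intro i y
    have := intervalIntegral.norm_integral_le_of_norm_le_const (a := -T) (b := T)
      (f := fun t => g i (t - y) ^ 4) (C := G ^ 4) (fun t _ => by
        rw [Real.norm_eq_abs]
        exact hb4 i _)
    rw [Real.norm_eq_abs] at this
    refine this.trans ?_
    rw [abs_of_nonneg (by linarith)]
    have : T - -T = 2 * T := by ring
    rw [this]
  have hIi : ∀ i, Integrable fun y => k y * ∫ t in (-T)..T, g i (t - y) ^ 4 := fun i =>
    lhol_int hki (hIc i) (hIb i)
  calc ∑ i, ∫ t in (-T)..T, (∫ y, k y * g i (t - y)) ^ 4 ≤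
      ∑ i, K ^ 3 * ∫ y, k y * ∫ t in (-T)..T, g i (t - y) ^ 4 :=
        Finset.sum_le_sum fun i _ => h2 i
    _ = K ^ 3 * ∫ y, k y * ∑ i, ∫ t in (-y - T)..(-y + T), g i t ^ 4 := by
        rw [← Finset.mul_sum, ← integral_finsetSum _ (fun i _ => hIi i)]
        congr 1
        refine integral_congr_ae (Filter.Eventually.of_forall fun y => ?_)
        simp only
        rw [Finset.mul_sum]
        exact Finset.sum_congr rfl fun i _ => by rw [hI]
    _ ≤ K ^ 3 * ∫ y, k y * B := by
        refine mul_le_mul_of_nonneg_left ?_ (by positivity)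
        refine integral_mono_ae ?_ (hki.mul_const _) (Filter.Eventually.of_forall fun y =>
          mul_le_mul_of_nonneg_left (hB (-y)) (hk0 y))
        have h5 : (fun y => k y * ∑ i, ∫ t in (-y - T)..(-y + T), g i t ^ 4) =
            fun y => ∑ i, k y * ∫ t in (-T)..T, g i (t - y) ^ 4 := by
          funext y
          rw [Finset.mul_sum]
          exact Finset.sum_congr rfl fun i _ => by rw [hI]
        rw [h5]
        exact integrable_finsetSum _ fun i _ => hIi i
    _ = K ^ 4 * B := by
        rw [integral_mul_const, ← hK]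
        ring

/-- the convolution is continuous in `t` -/
theorem conv_cont {k : ℝ → ℝ} (hk : Continuous k) (hki : Integrable k) {g : ℝ → ℝ}
    (hg : Continuous g) {G : ℝ} (hgb : ∀ y, |g y| ≤ G) :
    Continuous fun t : ℝ => ∫ y, k y * g (t - y) := by
  refine continuous_of_dominated (bound := fun y => |k y| * G) ?_ ?_ (hki.abs.mul_const _) ?_
  · intro t
    exact (hk.mul (hg.comp (continuous_const.sub continuous_id))).aestronglyMeasurable
  · intro t
    refine Filter.Eventually.of_forall fun y => ?_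
    rw [norm_mul, Real.norm_eq_abs, Real.norm_eq_abs]
    exact mul_le_mul_of_nonneg_left (hgb _) (abs_nonneg _)
  · refine Filter.Eventually.of_forall fun y => ?_
    exact continuous_const.mul (hg.comp (continuous_id.sub continuous_const))

end Pool.Agent.HPP
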