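import Pool.Agent.HPP.LDual
import Pool.Agent.HPP.LHol

/-!
# HPP/LFour: fourth moments of smooth sums

`D = Q T`, `Q = b^m'`, `N = ⌊√D⌋` (so `N² ≤ D < (N + 1)²`, `D ≥ 1`).
* `four_small` (`e^(2v) ≤ D`): `m4` for `c = cs a v` and `sum_cs`, interval with `t₀ = 0`.
* `four_fin`: `hol4` with `k(y) = ‖KM 1 a (1/2 + iy)‖`, `g_χ = ‖SS (ca N) χ‖`, `B` from `m4` and `sum_ca`:
  `∑_χ ∫_{-T}^{T} (..)^4 ≤ C D^(1 + ε)`.
* `four_tail`: for `|t| ≤ T`, `(1 + |t - y|)² ≤ (1 + |t|)²(1 + |y|)² ≤ 4 T² (1 + |y|)²`; `hol4` with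
  `k(y) = ‖KM 1 a (-3/2 + iy)‖ (1 + |y|)²`, `m4`, `sum_cr`: `∑_χ ∫_{-T}^{T} (..)^4 ≤ C T^8 D^(-3 + ε)`.
-/

namespace Pool.Agent.HPP

open Complex MeasureTheory DirichletCharacter

/-- the kernel on a vertical line is continuous -/
theorem KM_line_cont (j : ℝ) (a : ℕ) (c : ℝ) : Continuous fun y : ℝ => ‖KM j a ((c : ℂ) + y * I)‖ := by
  refine Continuous.norm ((KM_diff j a).continuous.comp ?_)
  exact continuous_const.add (Complex.continuous_ofReal.mul continuous_const)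

theorem four_small {ε : ℝ} (hε : 0 < ε) : ∃ C : ℝ, 1 ≤ C ∧ ∀ (Q a : ℕ) (T v : ℝ), 1 ≤ Q → a ≤ 1 →
    1 ≤ T → 0 ≤ v → Real.exp (2 * v) ≤ Q * T →
    ∑ χ : DirichletCharacter ℂ Q, ∫ t in (-T)..T, ‖SS (fun n => (cs a v n : ℂ)) χ t‖ ^ 4 ≤
      C * (1 + v) ^ 4 * (Q * T) ^ (1 + ε) * Real.exp (2 * v) := by
  obtain ⟨C4, hC4, h4⟩ := m4
  obtain ⟨C, hC, h⟩ := sum_cs hε
  refine ⟨C4 * C, one_le_mul_of_one_le_of_one_le hC4 hC, ?_⟩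
  intro Q a T v hQ ha hT hv hvT
  obtain ⟨d, hd, hs, hsum⟩ := h (Q * T) v a ha hv hvT
  have h0 : (fun n => (cs a v n : ℂ)) 0 = 0 := by simp [cs, gw]
  have h1 := h4 Q hQ (fun n => (cs a v n : ℂ)) h0 (cs_summable a v) d hd 0 T hT hs
  have e1 : (0 : ℝ) - T = -T := by ring
  have e2 : (0 : ℝ) + T = T := by ring
  rw [e1, e2] at h1
  refine h1.trans ?_
  calc C4 * ∑' n : ℕ, d n ^ 2 * (Q * T + n) ≤ C4 * (C * (1 + v) ^ 4 * (Q * T) ^ (1 + ε) * Real.exp (2 * v)) :=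
        mul_le_mul_of_nonneg_left hsum (by linarith)
    _ = _ := by ring

/-- the general form: fourth moment of a convolution of a smooth kernel with a Dirichlet series -/
theorem four_conv {Q : ℕ} (hQ : 1 ≤ Q) {C4 : ℝ}
    (h4 : ∀ (Q : ℕ), 1 ≤ Q → ∀ (c : ℕ → ℂ), c 0 = 0 →
      (Summable fun n => ‖c n‖) → ∀ (d : ℕ → ℝ), (∀ n, ‖LSeries.convolution c c n‖ ≤ d n) →
      ∀ (t₀ T : ℝ), 1 ≤ T → (Summable fun n : ℕ => d n ^ 2 * (Q * T + n)) →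
      ∑ χ : DirichletCharacter ℂ Q, ∫ t in (t₀ - T)..(t₀ + T), ‖SS c χ t‖ ^ 4 ≤
        C4 * ∑' n : ℕ, d n ^ 2 * (Q * T + n))
    {c : ℕ → ℂ} (h0 : c 0 = 0) (hc : Summable fun n => ‖c n‖) {d : ℕ → ℝ}
    (hd : ∀ n, ‖LSeries.convolution c c n‖ ≤ d n) {T : ℝ} (hT : 1 ≤ T)
    (hs : Summable fun n : ℕ => d n ^ 2 * (Q * T + n)) {k : ℝ → ℝ} (hk : Continuous k)
    (hk0 : ∀ y, 0 ≤ k y) (hki : Integrable k) :
    ∑ χ : DirichletCharacter ℂ Q, ∫ t in (-T)..T, (∫ y, k y * ‖SS c χ (t - y)‖) ^ 4 ≤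
      (∫ y, k y) ^ 4 * (C4 * ∑' n : ℕ, d n ^ 2 * (Q * T + n)) := by
  have : NeZero Q := ⟨by omega⟩
  exact hol4 hk hk0 hki (g := fun (χ : DirichletCharacter ℂ Q) t => ‖SS c χ t‖)
    (fun χ => (SS_cont χ h0 hc).norm) (fun χ y => norm_nonneg _)
    (fun χ y => SS_norm_le χ h0 hc y) (by linarith)
    (fun t₀ => h4 Q hQ c h0 hc d hd t₀ T hT hs)

theorem four_fin {ε : ℝ} (hε : 0 < ε) : ∃ C : ℝ, 1 ≤ C ∧ ∀ (Q a N : ℕ) (T : ℝ), 1 ≤ Q → a ≤ 1 →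
    1 ≤ T → (N : ℝ) ^ 2 ≤ Q * T →
    ∑ χ : DirichletCharacter ℂ Q, ∫ t in (-T)..T,
      (∫ y : ℝ, ‖KM 1 a (((1 / 2 : ℝ) : ℂ) + y * I)‖ *
        ‖SS (fun n => (ca N n : ℂ)) χ (t - y)‖) ^ 4 ≤ C * (Q * T) ^ (1 + ε) := by
  obtain ⟨C4, hC4, h4⟩ := m4
  obtain ⟨C, hC, h⟩ := sum_ca hε
  set K : ℕ → ℝ := fun a => ∫ y : ℝ, ‖KM 1 a (((1 / 2 : ℝ) : ℂ) + y * I)‖ with hK
  have hK0 : ∀ a, 0 ≤ K a := fun a => integral_nonneg fun y => norm_nonneg _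
  refine ⟨(1 + K 0 + K 1) ^ 4 * (C4 * C), ?_, ?_⟩
  · have h1 : (1 : ℝ) ≤ (1 + K 0 + K 1) ^ 4 := one_le_pow₀ (by linarith [hK0 0, hK0 1])
    exact one_le_mul_of_one_le_of_one_le h1 (one_le_mul_of_one_le_of_one_le hC4 hC)
  intro Q a N T hQ ha hT hN
  have hQ1 : (1 : ℝ) ≤ Q := by exact_mod_cast hQ
  have hD : (1 : ℝ) ≤ Q * T := one_le_mul_of_one_le_of_one_le hQ1 hT
  obtain ⟨d, hd, hs, hsum⟩ := h (Q * T) N hD hN
  have h0 : (fun n => (ca N n : ℂ)) 0 = 0 := by simp [ca]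
  have hki : Integrable fun y : ℝ => ‖KM 1 a (((1 / 2 : ℝ) : ℂ) + y * I)‖ := by
    simpa using KM_integrable (j := 1) one_pos ha (1 / 2) 0 0
  have h1 := four_conv hQ h4 h0 (ca_summable N) hd hT hs (KM_line_cont 1 a (1 / 2))
    (fun y => norm_nonneg _) hki
  refine h1.trans ?_
  have hKa : K a ≤ 1 + K 0 + K 1 := by
    interval_cases a
    · linarith [hK0 1]
    · linarith [hK0 0]
  have hs0 : 0 ≤ ∑' n : ℕ, d n ^ 2 * (Q * T + n) := tsum_nonneg fun n => by positivity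
  calc (∫ y : ℝ, ‖KM 1 a (((1 / 2 : ℝ) : ℂ) + y * I)‖) ^ 4 * (C4 * ∑' n : ℕ, d n ^ 2 * (Q * T + n))
      ≤ (1 + K 0 + K 1) ^ 4 * (C4 * (C * (Q * T) ^ (1 + ε))) := by
        have e1 : (∫ y : ℝ, ‖KM 1 a (((1 / 2 : ℝ) : ℂ) + y * I)‖) ^ 4 ≤ (1 + K 0 + K 1) ^ 4 :=
          pow_le_pow_left₀ (hK0 a) hKa 4
        have e2 : C4 * ∑' n : ℕ, d n ^ 2 * (Q * T + n) ≤ C4 * (C * (Q * T) ^ (1 + ε)) :=
          mul_le_mul_of_nonneg_left hsum (by linarith)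
        exact mul_le_mul e1 e2 (mul_nonneg (by linarith) hs0) (by positivity)
    _ = _ := by ring

theorem four_tail {ε : ℝ} (hε : 0 < ε) : ∃ C : ℝ, 1 ≤ C ∧ ∀ (Q a N : ℕ) (T : ℝ), 1 ≤ Q → a ≤ 1 →
    1 ≤ T → Q * T < ((N : ℝ) + 1) ^ 2 →
    ∑ χ : DirichletCharacter ℂ Q, ∫ t in (-T)..T,
      (∫ y : ℝ, ‖KM 1 a (((-(3 / 2) : ℝ) : ℂ) + y * I)‖ * (1 + |t - y|) ^ 2 *
        ‖SS (fun n => (cr N n : ℂ)) χ (t - y)‖) ^ 4 ≤ C * T ^ 8 * (Q * T) ^ (-3 + ε) := by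
  obtain ⟨C4, hC4, h4⟩ := m4
  obtain ⟨C, hC, h⟩ := sum_cr hε
  set k : ℕ → ℝ → ℝ := fun a y => ‖KM 1 a (((-(3 / 2) : ℝ) : ℂ) + y * I)‖ * (1 + |y|) ^ 2 with hk
  set K : ℕ → ℝ := fun a => ∫ y : ℝ, k a y with hK
  have hk0 : ∀ a y, 0 ≤ k a y := fun a y => by positivity
  have hK0 : ∀ a, 0 ≤ K a := fun a => integral_nonneg (hk0 a)
  refine ⟨256 * (1 + K 0 + K 1) ^ 4 * (C4 * C), ?_, ?_⟩
  · have h1 : (1 : ℝ) ≤ (1 + K 0 + K 1) ^ 4 := one_le_pow₀ (by linarith [hK0 0, hK0 1])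
    exact one_le_mul_of_one_le_of_one_le (one_le_mul_of_one_le_of_one_le (by norm_num) h1)
      (one_le_mul_of_one_le_of_one_le hC4 hC)
  intro Q a N T hQ ha hT hN
  have : NeZero Q := ⟨by omega⟩
  have hQ1 : (1 : ℝ) ≤ Q := by exact_mod_cast hQ
  have hD : (1 : ℝ) ≤ Q * T := one_le_mul_of_one_le_of_one_le hQ1 hT
  obtain ⟨d, hd, hs, hsum⟩ := h (Q * T) N hD hN
  have h0 : (fun n => (cr N n : ℂ)) 0 = 0 := by simp [cr]
  have hkc : Continuous (k a) :=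
    (KM_line_cont 1 a (-(3 / 2))).mul ((continuous_const.add continuous_abs).pow 2)
  have hki : Integrable (k a) := by
    have := KM_integrable (j := 1) one_pos ha (-(3 / 2)) 2 0
    refine this.congr (Filter.Eventually.of_forall fun y => ?_)
    simp only [zero_mul, Real.exp_zero, mul_one]
    rfl
  have h1 := four_conv hQ h4 h0 (cr_summable N) hd hT hs hkc (hk0 a) hki
  have hKa : K a ≤ 1 + K 0 + K 1 := by
    interval_cases a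
    · linarith [hK0 1]
    · linarith [hK0 0]
  have hs0 : 0 ≤ ∑' n : ℕ, d n ^ 2 * (Q * T + n) := tsum_nonneg fun n => by positivity
  have hTT : -T ≤ T := by linarith
  set G : ℝ := ∑' n, ‖((cr N n : ℝ) : ℂ)‖ with hG
  -- pointwise comparison
  have hcmp : ∀ (χ : DirichletCharacter ℂ Q) (t : ℝ), t ∈ Set.Icc (-T) T →
      (∫ y : ℝ, ‖KM 1 a (((-(3 / 2) : ℝ) : ℂ) + y * I)‖ * (1 + |t - y|) ^ 2 *
        ‖SS (fun n => (cr N n : ℂ)) χ (t - y)‖) ^ 4 ≤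
      256 * T ^ 8 * (∫ y : ℝ, k a y * ‖SS (fun n => (cr N n : ℂ)) χ (t - y)‖) ^ 4 := by
    intro χ t ht
    have hSc : Continuous fun y : ℝ => ‖SS (fun n => (cr N n : ℂ)) χ (t - y)‖ :=
      ((SS_cont χ h0 (cr_summable N)).norm).comp (continuous_const.sub continuous_id)
    have hSb : ∀ y : ℝ, |‖SS (fun n => (cr N n : ℂ)) χ (t - y)‖| ≤ G := fun y => by
      rw [abs_of_nonneg (norm_nonneg _)]
      exact SS_norm_le χ h0 (cr_summable N) _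
    have hi : Integrable fun y : ℝ => k a y * ‖SS (fun n => (cr N n : ℂ)) χ (t - y)‖ :=
      lhol_int hki hSc hSb
    have hle : ∫ y : ℝ, ‖KM 1 a (((-(3 / 2) : ℝ) : ℂ) + y * I)‖ * (1 + |t - y|) ^ 2 *
        ‖SS (fun n => (cr N n : ℂ)) χ (t - y)‖ ≤
        4 * T ^ 2 * ∫ y : ℝ, k a y * ‖SS (fun n => (cr N n : ℂ)) χ (t - y)‖ := by
      rw [← integral_const_mul]
      refine integral_mono_of_nonneg (Filter.Eventually.of_forall fun y => by positivity)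
        (hi.const_mul _) (Filter.Eventually.of_forall fun y => ?_)
      have h2 : (1 + |t - y|) ^ 2 ≤ 4 * T ^ 2 * (1 + |y|) ^ 2 := by
        have h3 : |t| ≤ T := abs_le.2 ht
        have h4 : 1 + |t - y| ≤ 2 * T * (1 + |y|) := by
          have h5 : |t - y| ≤ |t| + |y| := abs_sub t y
          have h6 : 0 ≤ |y| := abs_nonneg y
          nlinarith [mul_nonneg (by linarith : (0 : ℝ) ≤ T) h6]
        calc (1 + |t - y|) ^ 2 ≤ (2 * T * (1 + |y|)) ^ 2 :=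
              pow_le_pow_left₀ (by positivity) h4 2
          _ = _ := by ring
      show ‖KM 1 a (((-(3 / 2) : ℝ) : ℂ) + y * I)‖ * (1 + |t - y|) ^ 2 *
        ‖SS (fun n => (cr N n : ℂ)) χ (t - y)‖ ≤ 4 * T ^ 2 *
          (‖KM 1 a (((-(3 / 2) : ℝ) : ℂ) + y * I)‖ * (1 + |y|) ^ 2 *
            ‖SS (fun n => (cr N n : ℂ)) χ (t - y)‖)
      calc ‖KM 1 a (((-(3 / 2) : ℝ) : ℂ) + y * I)‖ * (1 + |t - y|) ^ 2 *
            ‖SS (fun n => (cr N n : ℂ)) χ (t - y)‖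
          ≤ ‖KM 1 a (((-(3 / 2) : ℝ) : ℂ) + y * I)‖ * (4 * T ^ 2 * (1 + |y|) ^ 2) *
            ‖SS (fun n => (cr N n : ℂ)) χ (t - y)‖ := by gcongr
        _ = _ := by ring
    calc (∫ y : ℝ, ‖KM 1 a (((-(3 / 2) : ℝ) : ℂ) + y * I)‖ * (1 + |t - y|) ^ 2 *
          ‖SS (fun n => (cr N n : ℂ)) χ (t - y)‖) ^ 4
        ≤ (4 * T ^ 2 * ∫ y : ℝ, k a y * ‖SS (fun n => (cr N n : ℂ)) χ (t - y)‖) ^ 4 :=
          pow_le_pow_left₀ (integral_nonneg fun y => by positivity) hle 4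
      _ = _ := by ring
  have h2 : ∀ χ : DirichletCharacter ℂ Q, ∫ t in (-T)..T,
      (∫ y : ℝ, ‖KM 1 a (((-(3 / 2) : ℝ) : ℂ) + y * I)‖ * (1 + |t - y|) ^ 2 *
        ‖SS (fun n => (cr N n : ℂ)) χ (t - y)‖) ^ 4 ≤
      256 * T ^ 8 * ∫ t in (-T)..T,
        (∫ y : ℝ, k a y * ‖SS (fun n => (cr N n : ℂ)) χ (t - y)‖) ^ 4 := by
    intro χ
    have hc : Continuous fun t : ℝ => 256 * T ^ 8 *
        (∫ y : ℝ, k a y * ‖SS (fun n => (cr N n : ℂ)) χ (t - y)‖) ^ 4 :=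
      continuous_const.mul ((conv_cont hkc hki (SS_cont χ h0 (cr_summable N)).norm
        (G := G) (fun y => by
          rw [abs_of_nonneg (norm_nonneg _)]
          exact SS_norm_le χ h0 (cr_summable N) _)).pow 4)
    rw [← intervalIntegral.integral_const_mul, intervalIntegral.integral_of_le hTT,
      intervalIntegral.integral_of_le hTT]
    refine integral_mono_of_nonneg (Filter.Eventually.of_forall fun t => ?_) ?_ ?_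
    · exact pow_nonneg (integral_nonneg fun y => by positivity) 4
    · exact (hc.intervalIntegrable (-T) T).1
    · filter_upwards [ae_restrict_mem measurableSet_Ioc] with t ht
      exact hcmp χ t ⟨ht.1.le, ht.2⟩
  calc ∑ χ : DirichletCharacter ℂ Q, ∫ t in (-T)..T,
      (∫ y : ℝ, ‖KM 1 a (((-(3 / 2) : ℝ) : ℂ) + y * I)‖ * (1 + |t - y|) ^ 2 *
        ‖SS (fun n => (cr N n : ℂ)) χ (t - y)‖) ^ 4
      ≤ ∑ χ : DirichletCharacter ℂ Q, 256 * T ^ 8 * ∫ t in (-T)..T,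
        (∫ y : ℝ, k a y * ‖SS (fun n => (cr N n : ℂ)) χ (t - y)‖) ^ 4 :=
        Finset.sum_le_sum fun χ _ => h2 χ
    _ = 256 * T ^ 8 * ∑ χ : DirichletCharacter ℂ Q, ∫ t in (-T)..T,
        (∫ y : ℝ, k a y * ‖SS (fun n => (cr N n : ℂ)) χ (t - y)‖) ^ 4 := by
        rw [Finset.mul_sum]
    _ ≤ 256 * T ^ 8 * ((∫ y, k a y) ^ 4 * (C4 * ∑' n : ℕ, d n ^ 2 * (Q * T + n))) :=
        mul_le_mul_of_nonneg_left h1 (by positivity)
    _ ≤ 256 * T ^ 8 * ((1 + K 0 + K 1) ^ 4 * (C4 * (C * (Q * T) ^ (-3 + ε)))) := by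
        refine mul_le_mul_of_nonneg_left ?_ (by positivity)
        have e1 : (∫ y, k a y) ^ 4 ≤ (1 + K 0 + K 1) ^ 4 := pow_le_pow_left₀ (hK0 a) hKa 4
        have e2 : C4 * ∑' n : ℕ, d n ^ 2 * (Q * T + n) ≤ C4 * (C * (Q * T) ^ (-3 + ε)) :=
          mul_le_mul_of_nonneg_left hsum (by linarith)
        exact mul_le_mul e1 e2 (mul_nonneg (by linarith) hs0) (by positivity)
    _ = _ := by ring

end Pool.Agent.HPP
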