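import Pool.Agent.HPP.Iface
import Pool.Agent.HPP.LFour

/-!
# HPP/LFin: the fourth moment `FourProp`

`D = Q T`, `Q = b^m'`; `Gt χ κ T ⊆ [-T, T]` is measurable.
* `pole_part`: for `t` in `Gt χ κ T`, `χ = 1`: `|t| ≥ κ ≥ v + 2`, so `4 v ≤ 4 |t| - 8 ≤ t²/2` and
  `‖rs χ‖^4 ‖KM 1 a (1 + it)‖^4 e^(4v) ≤ C (1 + |t|)^4 e^(-t²) e^(4v) ≤ C (1 + |t|)^4 e^(-t²/2)` (`KM_bound`;
  `‖rs χ‖ ≤ 1`, `rs χ = 0` for `χ ≠ 1`), whose integral over the line is bounded.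
* `four_big` (`D ≤ e^(2v)`): `TT_dual` with `N = ⌊√D⌋`, `(x + y + z)^4 ≤ 27 (x^4 + y^4 + z^4)`, `four_fin`, `four_tail`,
  `pole_part`: total `≤ C (e^(2v) D^(1+ε) + e^(-6v) Q^8 T^8 D^(-3+ε) + 1)`, and `e^(-6v) D^(5+ε) ≤ e^(2v) D^(1+ε)` because
  `D^4 ≤ e^(8v)`. (Integrability of the fourth powers: `conv_cont`, `SS_cont`.)
* `four_prop`: `e^(2v) ≤ D`: `four_small` (the coefficients are `cs a v`). `D ≤ e^(2v)`: `a = 0`: `SS = TT 1 0`; `a = 1`: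
  `SS_split`: `SS = TT 1 1 + v TT 1 0`, `(x + v y)^4 ≤ 8 (1 + v)^4 (x^4 + y^4)`.
-/

namespace Pool.Agent.HPP

open Complex MeasureTheory DirichletCharacter

private theorem Gt_meas64 {Q : ℕ} (χ : DirichletCharacter ℂ Q) (κ T : ℝ) :
    MeasurableSet (Gt χ κ T) := by
  unfold Gt
  by_cases h : χ = 1
  · have h1 : {t : ℝ | |t| ≤ T ∧ (χ = 1 → κ ≤ |t|)} = {t | |t| ≤ T} ∩ {t | κ ≤ |t|} := by
      ext t
      simp [h]
    rw [h1]
    exact (measurableSet_le continuous_abs.measurable measurable_const).inter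
      (measurableSet_le measurable_const continuous_abs.measurable)
  · have h1 : {t : ℝ | |t| ≤ T ∧ (χ = 1 → κ ≤ |t|)} = {t | |t| ≤ T} := by
      ext t
      simp [h]
    rw [h1]
    exact measurableSet_le continuous_abs.measurable measurable_const

private theorem Gt_sub64 {Q : ℕ} (χ : DirichletCharacter ℂ Q) (κ T : ℝ) :
    Gt χ κ T ⊆ Set.Icc (-T) T := fun _ ht => abs_le.mp ht.1

private theorem Gt_int64 {Q : ℕ} (χ : DirichletCharacter ℂ Q) (κ T : ℝ) {f : ℝ → ℝ}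
    (hf : ContinuousOn f (Set.Icc (-T) T)) : IntegrableOn f (Gt χ κ T) :=
  (hf.integrableOn_compact isCompact_Icc).mono_set (Gt_sub64 χ κ T)

private theorem Gt_le64 {Q : ℕ} (χ : DirichletCharacter ℂ Q) (κ : ℝ) {T : ℝ} (hT : 0 ≤ T)
    {f : ℝ → ℝ} (hf : ContinuousOn f (Set.Icc (-T) T)) (hf0 : ∀ t, 0 ≤ f t) :
    ∫ t in Gt χ κ T, f t ≤ ∫ t in (-T)..T, f t := by
  rw [intervalIntegral.integral_of_le (by linarith), ← integral_Icc_eq_integral_Ioc]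
  exact setIntegral_mono_set (hf.integrableOn_compact isCompact_Icc)
    (Filter.Eventually.of_forall fun t => hf0 t) (Gt_sub64 χ κ T).eventuallyLE

private theorem rs_one64 {Q : ℕ} : ‖rs (1 : DirichletCharacter ℂ Q)‖ ≤ 1 := by
  unfold rs
  rw [if_pos rfl, norm_prod]
  refine Finset.prod_le_one (fun p _ => norm_nonneg _) fun p hp => ?_
  have hpp : p.Prime := Nat.prime_of_mem_primeFactors hp
  have h2 : (1 : ℝ) ≤ (p : ℝ) := by exact_mod_cast hpp.one_lt.le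
  have h3 : (1 - (p : ℂ)⁻¹) = ((1 - (p : ℝ)⁻¹ : ℝ) : ℂ) := by push_cast; ring
  rw [h3, Complex.norm_real, Real.norm_eq_abs]
  have h4 : (p : ℝ)⁻¹ ≤ 1 := inv_le_one_of_one_le₀ h2
  have h5 : 0 ≤ (p : ℝ)⁻¹ := by positivity
  rw [abs_of_nonneg (by linarith)]
  linarith

private theorem gint64 : Integrable fun t : ℝ => (1 + |t|) ^ 4 * Real.exp (-t ^ 2 / 2) := by
  have h1 := KM_integrable (j := 2) two_pos (a := 0) (by norm_num) 0 4 0
  have h2 := h1.const_mul (Real.sqrt (Real.pi * 2))⁻¹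
  refine h2.congr (Filter.Eventually.of_forall fun t => ?_)
  have h3 : 0 < Real.sqrt (Real.pi * 2) := Real.sqrt_pos.mpr (by positivity)
  simp only [zero_mul, Real.exp_zero, mul_one]
  rw [KM_norm two_pos]
  have e1 : (2 : ℝ) * ((((0 : ℝ) : ℂ) + (t : ℂ) * I).re ^ 2 - (((0 : ℝ) : ℂ) + (t : ℂ) * I).im ^ 2) / 4 =
      -t ^ 2 / 2 := by
    simp
    ring
  rw [e1, pow_zero, one_mul]
  field_simp

theorem pole_part : ∃ C : ℝ, 1 ≤ C ∧ ∀ (Q a : ℕ) (T v κ : ℝ), 1 ≤ Q → a ≤ 1 → 0 ≤ v → v + 2 ≤ κ →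
    ∑ χ : DirichletCharacter ℂ Q, ∫ t in Gt χ κ T,
      (‖rs χ‖ * ‖KM 1 a (1 + t * I)‖ * Real.exp v) ^ 4 ≤ C := by
  obtain ⟨C0, hC0, hK⟩ := KM_bound (j := 1) one_pos
  have hI0 : 0 ≤ ∫ t : ℝ, (1 + |t|) ^ 4 * Real.exp (-t ^ 2 / 2) :=
    integral_nonneg fun t => by positivity
  refine ⟨1 + C0 ^ 4 * ∫ t : ℝ, (1 + |t|) ^ 4 * Real.exp (-t ^ 2 / 2), ?_, ?_⟩
  · have : 0 ≤ C0 ^ 4 * ∫ t : ℝ, (1 + |t|) ^ 4 * Real.exp (-t ^ 2 / 2) :=
      mul_nonneg (by positivity) hI0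
    linarith
  intro Q a T v κ hQ ha hv hκ
  have h1 : ∑ χ : DirichletCharacter ℂ Q, ∫ t in Gt χ κ T,
      (‖rs χ‖ * ‖KM 1 a (1 + t * I)‖ * Real.exp v) ^ 4 =
      ∫ t in Gt (1 : DirichletCharacter ℂ Q) κ T,
      (‖rs (1 : DirichletCharacter ℂ Q)‖ * ‖KM 1 a (1 + t * I)‖ * Real.exp v) ^ 4 := by
    refine Finset.sum_eq_single_of_mem (1 : DirichletCharacter ℂ Q) (Finset.mem_univ _)
      fun χ _ hχ => ?_
    have h2 : rs χ = 0 := by
      unfold rs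
      rw [if_neg hχ]
    simp [h2]
  rw [h1]
  have h3 : ∫ t in Gt (1 : DirichletCharacter ℂ Q) κ T,
      (‖rs (1 : DirichletCharacter ℂ Q)‖ * ‖KM 1 a (1 + t * I)‖ * Real.exp v) ^ 4 ≤
      ∫ t in Gt (1 : DirichletCharacter ℂ Q) κ T,
        C0 ^ 4 * ((1 + |t|) ^ 4 * Real.exp (-t ^ 2 / 2)) := by
    refine integral_mono_of_nonneg (Filter.Eventually.of_forall fun t => by positivity)
      (gint64.const_mul _).integrableOn ?_
    filter_upwards [ae_restrict_mem (Gt_meas64 _ κ T)] with t ht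
    have h4 : v + 2 ≤ |t| := hκ.trans (ht.2 rfl)
    have h5 : ‖KM 1 a (1 + t * I)‖ ≤ C0 * (1 + |t|) * Real.exp (-t ^ 2 / 4) := by
      have h6 := hK a ha (1 + t * I) (by simp)
      have e1 : (1 + (t : ℂ) * I).im = t := by simp
      rw [e1] at h6
      refine h6.trans (le_of_eq ?_)
      congr 2
      ring
    have h7 : ‖rs (1 : DirichletCharacter ℂ Q)‖ * ‖KM 1 a (1 + t * I)‖ * Real.exp v ≤
        C0 * (1 + |t|) * Real.exp (-t ^ 2 / 4) * Real.exp v := by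
      refine mul_le_mul_of_nonneg_right ?_ (Real.exp_pos _).le
      calc ‖rs (1 : DirichletCharacter ℂ Q)‖ * ‖KM 1 a (1 + t * I)‖
          ≤ 1 * (C0 * (1 + |t|) * Real.exp (-t ^ 2 / 4)) :=
            mul_le_mul rs_one64 h5 (norm_nonneg _) zero_le_one
        _ = _ := one_mul _
    calc (‖rs (1 : DirichletCharacter ℂ Q)‖ * ‖KM 1 a (1 + t * I)‖ * Real.exp v) ^ 4
        ≤ (C0 * (1 + |t|) * Real.exp (-t ^ 2 / 4) * Real.exp v) ^ 4 :=
          pow_le_pow_left₀ (by positivity) h7 4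
      _ = C0 ^ 4 * ((1 + |t|) ^ 4 * Real.exp (-t ^ 2 + 4 * v)) := by
          have e2 : Real.exp (-t ^ 2 + 4 * v) = Real.exp (-t ^ 2 / 4) ^ 4 * Real.exp v ^ 4 := by
            rw [← Real.exp_nat_mul, ← Real.exp_nat_mul, ← Real.exp_add]
            congr 1
            push_cast
            ring
          rw [e2]
          ring
      _ ≤ C0 ^ 4 * ((1 + |t|) ^ 4 * Real.exp (-t ^ 2 / 2)) := by
          refine mul_le_mul_of_nonneg_left ?_ (by positivity)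
          refine mul_le_mul_of_nonneg_left ?_ (by positivity)
          refine Real.exp_le_exp.mpr ?_
          have h8 : |t| ^ 2 = t ^ 2 := sq_abs t
          nlinarith [sq_nonneg (|t| - 4)]
  have h9 : ∫ t in Gt (1 : DirichletCharacter ℂ Q) κ T,
        C0 ^ 4 * ((1 + |t|) ^ 4 * Real.exp (-t ^ 2 / 2)) ≤
      ∫ t : ℝ, C0 ^ 4 * ((1 + |t|) ^ 4 * Real.exp (-t ^ 2 / 2)) :=
    setIntegral_le_integral (gint64.const_mul _)
      (Filter.Eventually.of_forall fun t => by positivity)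
  have h10 : ∫ t : ℝ, C0 ^ 4 * ((1 + |t|) ^ 4 * Real.exp (-t ^ 2 / 2)) =
      C0 ^ 4 * ∫ t : ℝ, (1 + |t|) ^ 4 * Real.exp (-t ^ 2 / 2) := integral_const_mul _ _
  linarith

private theorem pow4_64 (x y z : ℝ) :
    (x + y + z) ^ 4 ≤ 27 * (x ^ 4 + y ^ 4 + z ^ 4) := by
  have h1 : (x + y + z) ^ 2 ≤ 3 * (x ^ 2 + y ^ 2 + z ^ 2) := by
    nlinarith [sq_nonneg (x - y), sq_nonneg (y - z), sq_nonneg (x - z)]
  have h2 : (x ^ 2 + y ^ 2 + z ^ 2) ^ 2 ≤ 3 * (x ^ 4 + y ^ 4 + z ^ 4) := by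
    nlinarith [sq_nonneg (x ^ 2 - y ^ 2), sq_nonneg (y ^ 2 - z ^ 2), sq_nonneg (x ^ 2 - z ^ 2)]
  calc (x + y + z) ^ 4 = ((x + y + z) ^ 2) ^ 2 := by ring
    _ ≤ (3 * (x ^ 2 + y ^ 2 + z ^ 2)) ^ 2 := pow_le_pow_left₀ (by positivity) h1 2
    _ = 9 * (x ^ 2 + y ^ 2 + z ^ 2) ^ 2 := by ring
    _ ≤ 9 * (3 * (x ^ 4 + y ^ 4 + z ^ 4)) := by linarith
    _ = _ := by ring

private theorem TT_cont64 {Q : ℕ} {a : ℕ} (ha : a ≤ 1) (χ : DirichletCharacter ℂ Q) (v : ℝ) :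
    Continuous fun t : ℝ => TT 1 a χ t v := by
  have h0 : ∀ b, (fun n => ((cs b v n : ℝ) : ℂ)) 0 = 0 := fun b => by simp [cs, gw]
  have c0 : Continuous fun t : ℝ => TT 1 0 χ t v := by
    have h1 := SS_cont χ (h0 0) (cs_summable 0 v)
    refine h1.congr fun t => ?_
    unfold TT
    simp only [cs, pow_zero]
  interval_cases a
  · exact c0
  · have h1 := SS_cont χ (h0 1) (cs_summable 1 v)
    have h2 : (fun t : ℝ => TT 1 1 χ t v) =
        fun t : ℝ => SS (fun n => ((cs 1 v n : ℝ) : ℂ)) χ t - v * TT 1 0 χ t v := by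
      funext t
      have h3 := SS_split χ (j := 1) one_pos t v
      have h4 : SS (fun n => ((cs 1 v n : ℝ) : ℂ)) χ t =
          SS (fun n => ((Real.log n * gw 1 v n : ℝ) : ℂ)) χ t := by
        simp only [cs, pow_one]
      rw [h4, h3]
      ring
    rw [h2]
    exact h1.sub (continuous_const.mul c0)

private theorem I2_cont64 {Q : ℕ} {a : ℕ} (ha : a ≤ 1) (χ : DirichletCharacter ℂ Q) (N : ℕ)
    (T : ℝ) : ContinuousOn (fun t : ℝ => ∫ y : ℝ, ‖KM 1 a (((-(3 / 2) : ℝ) : ℂ) + y * I)‖ *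
      (1 + |t - y|) ^ 2 * ‖SS (fun n => (cr N n : ℂ)) χ (t - y)‖) (Set.Icc (-T) T) := by
  have h0 : (fun n => (cr N n : ℂ)) 0 = 0 := by simp [cr]
  set G : ℝ := ∑' n, ‖((cr N n : ℝ) : ℂ)‖ with hG
  have hG0 : 0 ≤ G := tsum_nonneg fun n => norm_nonneg _
  have hSc : Continuous fun t : ℝ => SS (fun n => (cr N n : ℂ)) χ t := SS_cont χ h0 (cr_summable N)
  have hki : Integrable fun y : ℝ => ‖KM 1 a (((-(3 / 2) : ℝ) : ℂ) + y * I)‖ * (1 + |y|) ^ 2 := by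
    have := KM_integrable (j := 1) one_pos ha (-(3 / 2)) 2 0
    refine this.congr (Filter.Eventually.of_forall fun y => ?_)
    simp only [zero_mul, Real.exp_zero, mul_one]
  refine continuousOn_of_dominated (bound := fun y : ℝ => (1 + |T|) ^ 2 * G *
    (‖KM 1 a (((-(3 / 2) : ℝ) : ℂ) + y * I)‖ * (1 + |y|) ^ 2)) ?_ ?_ (hki.const_mul _) ?_
  · intro t _
    refine Continuous.aestronglyMeasurable ?_
    have hc1 : Continuous fun y : ℝ => (1 + |t - y|) ^ 2 := by fun_prop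
    exact ((KM_line_cont 1 a (-(3 / 2))).mul hc1).mul
      (hSc.comp (continuous_const.sub continuous_id)).norm
  · intro t ht
    refine Filter.Eventually.of_forall fun y => ?_
    rw [norm_mul, norm_mul, Real.norm_of_nonneg (norm_nonneg _),
      Real.norm_of_nonneg (by positivity), Real.norm_of_nonneg (norm_nonneg _)]
    have h1 : |t| ≤ |T| := (abs_le.mpr ht).trans (le_abs_self T)
    have h2 : 1 + |t - y| ≤ (1 + |T|) * (1 + |y|) := by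
      have h3 : |t - y| ≤ |t| + |y| := abs_sub t y
      have h4 : 0 ≤ |y| := abs_nonneg y
      have h5 : 0 ≤ |T| := abs_nonneg T
      nlinarith [mul_nonneg h5 h4]
    have h6 : (1 + |t - y|) ^ 2 ≤ ((1 + |T|) * (1 + |y|)) ^ 2 :=
      pow_le_pow_left₀ (by positivity) h2 2
    have h7 : ‖SS (fun n => (cr N n : ℂ)) χ (t - y)‖ ≤ G := SS_norm_le χ h0 (cr_summable N) _
    calc ‖KM 1 a (((-(3 / 2) : ℝ) : ℂ) + y * I)‖ * (1 + |t - y|) ^ 2 *
          ‖SS (fun n => (cr N n : ℂ)) χ (t - y)‖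
        ≤ ‖KM 1 a (((-(3 / 2) : ℝ) : ℂ) + y * I)‖ * ((1 + |T|) * (1 + |y|)) ^ 2 * G := by
          gcongr
      _ = _ := by ring
  · refine Filter.Eventually.of_forall fun y => ?_
    refine Continuous.continuousOn ?_
    have hc1 : Continuous fun t : ℝ => (1 + |t - y|) ^ 2 := by fun_prop
    exact (continuous_const.mul hc1).mul (hSc.comp (continuous_id.sub continuous_const)).norm

private theorem I1_cont64 {Q : ℕ} {a : ℕ} (ha : a ≤ 1) (χ : DirichletCharacter ℂ Q) (N : ℕ) :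
    Continuous fun t : ℝ => ∫ y : ℝ, ‖KM 1 a (((1 / 2 : ℝ) : ℂ) + y * I)‖ *
      ‖SS (fun n => (ca N n : ℂ)) χ (t - y)‖ := by
  have h0 : (fun n => (ca N n : ℂ)) 0 = 0 := by simp [ca]
  have hki : Integrable fun y : ℝ => ‖KM 1 a (((1 / 2 : ℝ) : ℂ) + y * I)‖ := by
    simpa using KM_integrable (j := 1) one_pos ha (1 / 2) 0 0
  exact conv_cont (KM_line_cont 1 a (1 / 2)) hki (SS_cont χ h0 (ca_summable N)).norm
    (G := ∑' n, ‖((ca N n : ℝ) : ℂ)‖) (fun y => by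
      rw [abs_of_nonneg (norm_nonneg _)]
      exact SS_norm_le χ h0 (ca_summable N) _)

theorem four_big (b : ℕ) (hb : 2 ≤ b) {ε : ℝ} (hε : 0 < ε) : ∃ C : ℝ, 1 ≤ C ∧
    ∀ (m' a : ℕ) (T v κ : ℝ), a ≤ 1 → 1 ≤ T → 0 ≤ v → v + 2 ≤ κ →
    (b : ℝ) ^ m' * T ≤ Real.exp (2 * v) →
    ∑ χ : DirichletCharacter ℂ (b ^ m'), ∫ t in Gt χ κ T, ‖TT 1 a χ t v‖ ^ 4 ≤
      C * ((b : ℝ) ^ m' * T) ^ (1 + ε) * Real.exp (2 * v) := by
  obtain ⟨C1, hC1, hdual⟩ := TT_dual b hb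
  obtain ⟨Cf, hCf, hfin⟩ := four_fin hε
  obtain ⟨Ct, hCt, htail⟩ := four_tail hε
  obtain ⟨Cp, hCp, hpole⟩ := pole_part
  refine ⟨27 * (C1 ^ 4 * Cf + C1 ^ 4 * Ct + Cp), ?_, ?_⟩
  · have h1 : 0 ≤ C1 ^ 4 * Cf := by positivity
    have h2 : 0 ≤ C1 ^ 4 * Ct := by positivity
    linarith
  intro m' a T v κ ha hT hv hκ hD
  have hb1 : (1 : ℝ) ≤ (b : ℝ) := by exact_mod_cast (by omega : 1 ≤ b)
  have hb0 : (0 : ℝ) < (b : ℝ) := by linarith
  have hQ1 : (1 : ℝ) ≤ (b : ℝ) ^ m' := one_le_pow₀ hb1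
  set Q : ℝ := (b : ℝ) ^ m' with hQ
  have hQc : ((b ^ m' : ℕ) : ℝ) = Q := by rw [hQ, Nat.cast_pow]
  have hQn : 1 ≤ b ^ m' := Nat.one_le_pow _ _ (by omega)
  have : NeZero (b ^ m') := ⟨by omega⟩
  set D : ℝ := Q * T with hDd
  have hD1 : 1 ≤ D := one_le_mul_of_one_le_of_one_le hQ1 hT
  have hD0 : 0 < D := by linarith
  set N : ℕ := ⌊Real.sqrt D⌋₊ with hN
  have hN1 : (N : ℝ) ^ 2 ≤ D := by
    have h1 : (N : ℝ) ≤ Real.sqrt D := Nat.floor_le (Real.sqrt_nonneg _)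
    calc (N : ℝ) ^ 2 ≤ Real.sqrt D ^ 2 := pow_le_pow_left₀ (Nat.cast_nonneg _) h1 2
      _ = D := Real.sq_sqrt hD0.le
  have hN2 : D < ((N : ℝ) + 1) ^ 2 := by
    have h1 : Real.sqrt D < (N : ℝ) + 1 := Nat.lt_floor_add_one _
    calc D = Real.sqrt D ^ 2 := (Real.sq_sqrt hD0.le).symm
      _ < ((N : ℝ) + 1) ^ 2 := pow_lt_pow_left₀ h1 (Real.sqrt_nonneg _) (by norm_num)
  have hf := hfin (b ^ m') a N T hQn ha hT (by rw [hQc]; exact hN1)
  have ht := htail (b ^ m') a N T hQn ha hT (by rw [hQc]; exact hN2)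
  have hp := hpole (b ^ m') a T v κ hQn ha hv hκ
  rw [hQc] at hf ht
  have hT0 : 0 ≤ T := by linarith
  set X : DirichletCharacter ℂ (b ^ m') → ℝ → ℝ := fun χ t =>
    ∫ y : ℝ, ‖KM 1 a (((1 / 2 : ℝ) : ℂ) + y * I)‖ * ‖SS (fun n => (ca N n : ℂ)) χ (t - y)‖ with hX
  set Y : DirichletCharacter ℂ (b ^ m') → ℝ → ℝ := fun χ t =>
    ∫ y : ℝ, ‖KM 1 a (((-(3 / 2) : ℝ) : ℂ) + y * I)‖ * (1 + |t - y|) ^ 2 *
          ‖SS (fun n => (cr N n : ℂ)) χ (t - y)‖ with hY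
  set Z : DirichletCharacter ℂ (b ^ m') → ℝ → ℝ := fun χ t =>
    ‖rs χ‖ * ‖KM 1 a (1 + t * I)‖ * Real.exp v with hZ
  have hX0 : ∀ χ t, 0 ≤ X χ t := fun χ t => integral_nonneg fun y => by positivity
  have hY0 : ∀ χ t, 0 ≤ Y χ t := fun χ t => integral_nonneg fun y => by positivity
  have hZ0 : ∀ χ t, 0 ≤ Z χ t := fun χ t => by positivity
  have hXc : ∀ χ, ContinuousOn (X χ) (Set.Icc (-T) T) := fun χ => (I1_cont64 ha χ N).continuousOn
  have hYc : ∀ χ, ContinuousOn (Y χ) (Set.Icc (-T) T) := fun χ => I2_cont64 ha χ N T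
  have hZc : ∀ χ, ContinuousOn (Z χ) (Set.Icc (-T) T) := fun χ => by
    refine Continuous.continuousOn ?_
    refine (continuous_const.mul ?_).mul continuous_const
    exact ((KM_diff 1 a).continuous.comp (continuous_const.add
      (Complex.continuous_ofReal.mul continuous_const))).norm
  have key : ∀ χ : DirichletCharacter ℂ (b ^ m'), ∫ t in Gt χ κ T, ‖TT 1 a χ t v‖ ^ 4 ≤
      27 * ((C1 * Real.exp (v / 2)) ^ 4 * (∫ t in (-T)..T, X χ t ^ 4) +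
        (C1 * Real.exp (-(3 / 2) * v) * Q ^ 2) ^ 4 * (∫ t in (-T)..T, Y χ t ^ 4) +
        ∫ t in Gt χ κ T, Z χ t ^ 4) := by
    intro χ
    have iX : IntegrableOn (fun t => (C1 * Real.exp (v / 2)) ^ 4 * X χ t ^ 4) (Gt χ κ T) :=
      Gt_int64 χ κ T (continuousOn_const.mul ((hXc χ).pow 4))
    have iY : IntegrableOn (fun t => (C1 * Real.exp (-(3 / 2) * v) * Q ^ 2) ^ 4 * Y χ t ^ 4)
        (Gt χ κ T) :=
      Gt_int64 χ κ T (continuousOn_const.mul ((hYc χ).pow 4))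
    have iZ : IntegrableOn (fun t => Z χ t ^ 4) (Gt χ κ T) := Gt_int64 χ κ T ((hZc χ).pow 4)
    have iXY : IntegrableOn (fun t => (C1 * Real.exp (v / 2)) ^ 4 * X χ t ^ 4 +
        (C1 * Real.exp (-(3 / 2) * v) * Q ^ 2) ^ 4 * Y χ t ^ 4) (Gt χ κ T) := iX.add iY
    have h1 : ∫ t in Gt χ κ T, ‖TT 1 a χ t v‖ ^ 4 ≤ ∫ t in Gt χ κ T,
        27 * ((C1 * Real.exp (v / 2)) ^ 4 * X χ t ^ 4 +
          (C1 * Real.exp (-(3 / 2) * v) * Q ^ 2) ^ 4 * Y χ t ^ 4 + Z χ t ^ 4) := by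
      refine integral_mono_of_nonneg (Filter.Eventually.of_forall fun t => by positivity)
        ((iXY.add iZ).const_mul 27) (Filter.Eventually.of_forall fun t => ?_)
      have h2 := hdual m' a N ha χ t v
      have h3 : ‖TT 1 a χ t v‖ ≤ C1 * Real.exp (v / 2) * X χ t +
          C1 * Real.exp (-(3 / 2) * v) * Q ^ 2 * Y χ t + Z χ t := h2
      calc ‖TT 1 a χ t v‖ ^ 4 ≤ (C1 * Real.exp (v / 2) * X χ t +
          C1 * Real.exp (-(3 / 2) * v) * Q ^ 2 * Y χ t + Z χ t) ^ 4 :=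
            pow_le_pow_left₀ (norm_nonneg _) h3 4
        _ ≤ 27 * ((C1 * Real.exp (v / 2) * X χ t) ^ 4 +
          (C1 * Real.exp (-(3 / 2) * v) * Q ^ 2 * Y χ t) ^ 4 + Z χ t ^ 4) :=
            pow4_64 _ _ _
        _ = _ := by rw [mul_pow _ (X χ t), mul_pow _ (Y χ t)]
    have h4 : ∫ t in Gt χ κ T,
        27 * ((C1 * Real.exp (v / 2)) ^ 4 * X χ t ^ 4 +
          (C1 * Real.exp (-(3 / 2) * v) * Q ^ 2) ^ 4 * Y χ t ^ 4 + Z χ t ^ 4) =
        27 * ((C1 * Real.exp (v / 2)) ^ 4 * (∫ t in Gt χ κ T, X χ t ^ 4) +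
        (C1 * Real.exp (-(3 / 2) * v) * Q ^ 2) ^ 4 * (∫ t in Gt χ κ T, Y χ t ^ 4) +
        ∫ t in Gt χ κ T, Z χ t ^ 4) := by
      rw [integral_const_mul, integral_add iXY iZ, integral_add iX iY,
        integral_const_mul, integral_const_mul]
    rw [h4] at h1
    refine h1.trans ?_
    have h5 : ∫ t in Gt χ κ T, X χ t ^ 4 ≤ ∫ t in (-T)..T, X χ t ^ 4 :=
      Gt_le64 χ κ hT0 ((hXc χ).pow 4) fun t => pow_nonneg (hX0 χ t) 4
    have h6 : ∫ t in Gt χ κ T, Y χ t ^ 4 ≤ ∫ t in (-T)..T, Y χ t ^ 4 :=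
      Gt_le64 χ κ hT0 ((hYc χ).pow 4) fun t => pow_nonneg (hY0 χ t) 4
    have h7 : (C1 * Real.exp (v / 2)) ^ 4 * (∫ t in Gt χ κ T, X χ t ^ 4) ≤
        (C1 * Real.exp (v / 2)) ^ 4 * ∫ t in (-T)..T, X χ t ^ 4 :=
      mul_le_mul_of_nonneg_left h5 (by positivity)
    have h8 : (C1 * Real.exp (-(3 / 2) * v) * Q ^ 2) ^ 4 * (∫ t in Gt χ κ T, Y χ t ^ 4) ≤
        (C1 * Real.exp (-(3 / 2) * v) * Q ^ 2) ^ 4 * ∫ t in (-T)..T, Y χ t ^ 4 :=
      mul_le_mul_of_nonneg_left h6 (by positivity)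
    linarith
  have hsum := Finset.sum_le_sum fun χ (_ : χ ∈ (Finset.univ :
    Finset (DirichletCharacter ℂ (b ^ m')))) => key χ
  refine hsum.trans ?_
  rw [← Finset.mul_sum, Finset.sum_add_distrib, Finset.sum_add_distrib, ← Finset.mul_sum,
    ← Finset.mul_sum]
  have hE : 1 ≤ Real.exp (2 * v) := Real.one_le_exp (by linarith)
  have hDe : 1 ≤ D ^ (1 + ε) := Real.one_le_rpow hD1 (by linarith)
  have e1 : (C1 * Real.exp (v / 2)) ^ 4 = C1 ^ 4 * Real.exp (2 * v) := by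
    rw [mul_pow, ← Real.exp_nat_mul]
    congr 2
    push_cast
    ring
  have e2 : (C1 * Real.exp (-(3 / 2) * v) * Q ^ 2) ^ 4 = C1 ^ 4 * Real.exp (-6 * v) * Q ^ 8 := by
    rw [mul_pow, mul_pow, ← Real.exp_nat_mul, ← pow_mul]
    congr 3
    push_cast
    ring
  have b1 : (C1 * Real.exp (v / 2)) ^ 4 * ∑ χ : DirichletCharacter ℂ (b ^ m'),
      ∫ t in (-T)..T, X χ t ^ 4 ≤ C1 ^ 4 * Cf * (D ^ (1 + ε) * Real.exp (2 * v)) := by
    rw [e1]
    calc C1 ^ 4 * Real.exp (2 * v) * ∑ χ : DirichletCharacter ℂ (b ^ m'),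
          ∫ t in (-T)..T, X χ t ^ 4 ≤ C1 ^ 4 * Real.exp (2 * v) * (Cf * D ^ (1 + ε)) :=
          mul_le_mul_of_nonneg_left hf (by positivity)
      _ = _ := by ring
  have b2 : (C1 * Real.exp (-(3 / 2) * v) * Q ^ 2) ^ 4 * ∑ χ : DirichletCharacter ℂ (b ^ m'),
      ∫ t in (-T)..T, Y χ t ^ 4 ≤ C1 ^ 4 * Ct * (D ^ (1 + ε) * Real.exp (2 * v)) := by
    rw [e2]
    have h1 : Q ^ 8 * T ^ 8 = D ^ 4 * D ^ 4 := by
      rw [hDd]
      ring
    have h2 : D ^ 4 * D ^ (-3 + ε) = D ^ (1 + ε) := by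
      rw [← Real.rpow_natCast, ← Real.rpow_add hD0]
      congr 1
      push_cast
      ring
    have h3 : D ^ 4 ≤ Real.exp (8 * v) := by
      calc D ^ 4 ≤ Real.exp (2 * v) ^ 4 := pow_le_pow_left₀ hD0.le hD 4
        _ = Real.exp (8 * v) := by
          rw [← Real.exp_nat_mul]
          congr 1
          push_cast
          ring
    have h4 : Real.exp (-6 * v) * Real.exp (8 * v) = Real.exp (2 * v) := by
      rw [← Real.exp_add]
      congr 1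
      ring
    have h5 : 0 ≤ D ^ (1 + ε) := by positivity
    calc C1 ^ 4 * Real.exp (-6 * v) * Q ^ 8 * ∑ χ : DirichletCharacter ℂ (b ^ m'),
          ∫ t in (-T)..T, Y χ t ^ 4
        ≤ C1 ^ 4 * Real.exp (-6 * v) * Q ^ 8 * (Ct * T ^ 8 * D ^ (-3 + ε)) :=
          mul_le_mul_of_nonneg_left ht (by positivity)
      _ = C1 ^ 4 * Ct * Real.exp (-6 * v) * (Q ^ 8 * T ^ 8) * D ^ (-3 + ε) := by ring
      _ = C1 ^ 4 * Ct * Real.exp (-6 * v) * D ^ 4 * (D ^ 4 * D ^ (-3 + ε)) := by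
          rw [h1]
          ring
      _ = C1 ^ 4 * Ct * (Real.exp (-6 * v) * D ^ 4) * D ^ (1 + ε) := by
          rw [h2]
          ring
      _ ≤ C1 ^ 4 * Ct * (Real.exp (-6 * v) * Real.exp (8 * v)) * D ^ (1 + ε) := by
          gcongr
      _ = _ := by
          rw [h4]
          ring
  have b3 : ∑ χ : DirichletCharacter ℂ (b ^ m'), ∫ t in Gt χ κ T, Z χ t ^ 4 ≤
      Cp * (D ^ (1 + ε) * Real.exp (2 * v)) := by
    refine hp.trans ?_
    have h1 : 1 ≤ D ^ (1 + ε) * Real.exp (2 * v) := one_le_mul_of_one_le_of_one_le hDe hE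
    exact le_mul_of_one_le_right (by linarith) h1
  calc _ ≤ 27 * (C1 ^ 4 * Cf * (D ^ (1 + ε) * Real.exp (2 * v)) +
        C1 ^ 4 * Ct * (D ^ (1 + ε) * Real.exp (2 * v)) +
        Cp * (D ^ (1 + ε) * Real.exp (2 * v))) := by
        refine mul_le_mul_of_nonneg_left ?_ (by norm_num)
        linarith
    _ = _ := by ring

theorem four_prop : FourProp := by
  intro b hb ε hε
  obtain ⟨C1, hC1, h1⟩ := four_small hε
  obtain ⟨C2, hC2, h2⟩ := four_big b hb hε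
  refine ⟨C1 + 16 * C2, by linarith, ?_⟩
  intro m' a ha T v κ hT hv hκ
  have hb1 : (1 : ℝ) ≤ (b : ℝ) := by exact_mod_cast (by omega : 1 ≤ b)
  have hQ1 : (1 : ℝ) ≤ (b : ℝ) ^ m' := one_le_pow₀ hb1
  have hQc : ((b ^ m' : ℕ) : ℝ) = (b : ℝ) ^ m' := Nat.cast_pow _ _
  have hQn : 1 ≤ b ^ m' := Nat.one_le_pow _ _ (by omega)
  have : NeZero (b ^ m') := ⟨by omega⟩
  have hT0 : 0 ≤ T := by linarith
  have hD1 : 1 ≤ (b : ℝ) ^ m' * T := one_le_mul_of_one_le_of_one_le hQ1 hT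
  have hDe : 0 ≤ ((b : ℝ) ^ m' * T) ^ (1 + ε) := by positivity
  have hE0 : 0 ≤ Real.exp (2 * v) := (Real.exp_pos _).le
  have h0 : ∀ c, (fun n => ((cs c v n : ℝ) : ℂ)) 0 = 0 := fun c => by simp [cs, gw]
  have hP : 0 ≤ (1 + v) ^ 4 * ((b : ℝ) ^ m' * T) ^ (1 + ε) * Real.exp (2 * v) := by positivity
  rcases le_total (Real.exp (2 * v)) ((b : ℝ) ^ m' * T) with hc | hc
  · have h3 := h1 (b ^ m') a T v hQn ha hT hv (by rw [hQc]; exact hc)
    rw [hQc] at h3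
    have h4 : ∑ χ : DirichletCharacter ℂ (b ^ m'), ∫ t in Gt χ κ T,
        ‖SS (fun n => ((Real.log n) ^ a * gw 1 v n : ℝ)) χ t‖ ^ 4 ≤
        ∑ χ : DirichletCharacter ℂ (b ^ m'), ∫ t in (-T)..T,
          ‖SS (fun n => (cs a v n : ℂ)) χ t‖ ^ 4 := by
      refine Finset.sum_le_sum fun χ _ => ?_
      exact Gt_le64 χ κ hT0 (((SS_cont χ (h0 a) (cs_summable a v)).norm.pow 4).continuousOn)
        fun t => by positivity
    refine (h4.trans h3).trans ?_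
    have h5 : C1 * ((1 + v) ^ 4 * ((b : ℝ) ^ m' * T) ^ (1 + ε) * Real.exp (2 * v)) ≤
        (C1 + 16 * C2) * ((1 + v) ^ 4 * ((b : ℝ) ^ m' * T) ^ (1 + ε) * Real.exp (2 * v)) :=
      mul_le_mul_of_nonneg_right (by linarith) hP
    linarith
  · have h30 := h2 m' 0 T v κ (by norm_num) hT hv hκ hc
    have h31 := h2 m' 1 T v κ (by norm_num) hT hv hκ hc
    have hv1 : 1 ≤ (1 + v) ^ 4 := one_le_pow₀ (by linarith)
    have hPv : ((b : ℝ) ^ m' * T) ^ (1 + ε) * Real.exp (2 * v) ≤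
        (1 + v) ^ 4 * ((b : ℝ) ^ m' * T) ^ (1 + ε) * Real.exp (2 * v) := by
      rw [mul_assoc]
      exact le_mul_of_one_le_left (by positivity) hv1
    interval_cases a
    · have h5 : ∑ χ : DirichletCharacter ℂ (b ^ m'), ∫ t in Gt χ κ T,
          ‖SS (fun n => ((Real.log n) ^ 0 * gw 1 v n : ℝ)) χ t‖ ^ 4 =
          ∑ χ : DirichletCharacter ℂ (b ^ m'), ∫ t in Gt χ κ T, ‖TT 1 0 χ t v‖ ^ 4 := by
        refine Finset.sum_congr rfl fun χ _ => ?_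
        refine integral_congr_ae (Filter.Eventually.of_forall fun t => ?_)
        unfold TT
        simp only [pow_zero]
      rw [h5]
      refine h30.trans ?_
      calc C2 * ((b : ℝ) ^ m' * T) ^ (1 + ε) * Real.exp (2 * v)
          = C2 * (((b : ℝ) ^ m' * T) ^ (1 + ε) * Real.exp (2 * v)) := by ring
        _ ≤ C2 * ((1 + v) ^ 4 * ((b : ℝ) ^ m' * T) ^ (1 + ε) * Real.exp (2 * v)) :=
            mul_le_mul_of_nonneg_left hPv (by linarith)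
        _ ≤ (C1 + 16 * C2) * ((1 + v) ^ 4 * ((b : ℝ) ^ m' * T) ^ (1 + ε) * Real.exp (2 * v)) :=
            mul_le_mul_of_nonneg_right (by linarith) hP
        _ = _ := by ring
    · have h6 : ∀ χ : DirichletCharacter ℂ (b ^ m'), ∫ t in Gt χ κ T,
          ‖SS (fun n => ((Real.log n) ^ 1 * gw 1 v n : ℝ)) χ t‖ ^ 4 ≤
          8 * (1 + v) ^ 4 * ((∫ t in Gt χ κ T, ‖TT 1 1 χ t v‖ ^ 4) +
            ∫ t in Gt χ κ T, ‖TT 1 0 χ t v‖ ^ 4) := by
        intro χ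
        have i1 : IntegrableOn (fun t : ℝ => ‖TT 1 1 χ t v‖ ^ 4) (Gt χ κ T) :=
          Gt_int64 χ κ T ((TT_cont64 (by norm_num) χ v).norm.pow 4).continuousOn
        have i0 : IntegrableOn (fun t : ℝ => ‖TT 1 0 χ t v‖ ^ 4) (Gt χ κ T) :=
          Gt_int64 χ κ T ((TT_cont64 (by norm_num) χ v).norm.pow 4).continuousOn
        rw [← integral_add i1 i0, ← integral_const_mul]
        refine integral_mono_of_nonneg (Filter.Eventually.of_forall fun t => by positivity)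
          ((i1.add i0).const_mul _) (Filter.Eventually.of_forall fun t => ?_)
        have h7 : SS (fun n => (((Real.log n) ^ 1 * gw 1 v n : ℝ) : ℂ)) χ t =
            TT 1 1 χ t v + v * TT 1 0 χ t v := by
          rw [← SS_split χ (j := 1) one_pos t v]
          simp only [pow_one]
        show ‖SS (fun n => (((Real.log n) ^ 1 * gw 1 v n : ℝ) : ℂ)) χ t‖ ^ 4 ≤
          8 * (1 + v) ^ 4 * (‖TT 1 1 χ t v‖ ^ 4 + ‖TT 1 0 χ t v‖ ^ 4)
        rw [h7]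
        set x := ‖TT 1 1 χ t v‖ with hx
        set y := ‖TT 1 0 χ t v‖ with hy
        have hx0 : 0 ≤ x := norm_nonneg _
        have hy0 : 0 ≤ y := norm_nonneg _
        have h8 : ‖TT 1 1 χ t v + v * TT 1 0 χ t v‖ ≤ (1 + v) * (x + y) := by
          refine (norm_add_le _ _).trans ?_
          rw [norm_mul, Complex.norm_real, Real.norm_of_nonneg hv]
          nlinarith [mul_nonneg hv hx0]
        have h9 : (x + y) ^ 4 ≤ 8 * (x ^ 4 + y ^ 4) := by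
          have h10 : (x + y) ^ 2 ≤ 2 * (x ^ 2 + y ^ 2) := by nlinarith [sq_nonneg (x - y)]
          have h11 : (x ^ 2 + y ^ 2) ^ 2 ≤ 2 * (x ^ 4 + y ^ 4) := by
            nlinarith [sq_nonneg (x ^ 2 - y ^ 2)]
          calc (x + y) ^ 4 = ((x + y) ^ 2) ^ 2 := by ring
            _ ≤ (2 * (x ^ 2 + y ^ 2)) ^ 2 := pow_le_pow_left₀ (by positivity) h10 2
            _ = 4 * (x ^ 2 + y ^ 2) ^ 2 := by ring
            _ ≤ 4 * (2 * (x ^ 4 + y ^ 4)) := by linarith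
            _ = _ := by ring
        calc ‖TT 1 1 χ t v + v * TT 1 0 χ t v‖ ^ 4 ≤ ((1 + v) * (x + y)) ^ 4 :=
              pow_le_pow_left₀ (norm_nonneg _) h8 4
          _ = (1 + v) ^ 4 * (x + y) ^ 4 := by ring
          _ ≤ (1 + v) ^ 4 * (8 * (x ^ 4 + y ^ 4)) := mul_le_mul_of_nonneg_left h9 (by positivity)
          _ = _ := by ring
      calc ∑ χ : DirichletCharacter ℂ (b ^ m'), ∫ t in Gt χ κ T,
            ‖SS (fun n => ((Real.log n) ^ 1 * gw 1 v n : ℝ)) χ t‖ ^ 4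
          ≤ ∑ χ : DirichletCharacter ℂ (b ^ m'), 8 * (1 + v) ^ 4 *
            ((∫ t in Gt χ κ T, ‖TT 1 1 χ t v‖ ^ 4) +
            ∫ t in Gt χ κ T, ‖TT 1 0 χ t v‖ ^ 4) := Finset.sum_le_sum fun χ _ => h6 χ
        _ = 8 * (1 + v) ^ 4 *
            ((∑ χ : DirichletCharacter ℂ (b ^ m'), ∫ t in Gt χ κ T, ‖TT 1 1 χ t v‖ ^ 4) +
            ∑ χ : DirichletCharacter ℂ (b ^ m'), ∫ t in Gt χ κ T, ‖TT 1 0 χ t v‖ ^ 4) := by
            rw [← Finset.mul_sum, Finset.sum_add_distrib]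
        _ ≤ 8 * (1 + v) ^ 4 * (C2 * ((b : ℝ) ^ m' * T) ^ (1 + ε) * Real.exp (2 * v) +
            C2 * ((b : ℝ) ^ m' * T) ^ (1 + ε) * Real.exp (2 * v)) :=
            mul_le_mul_of_nonneg_left (add_le_add h31 h30) (by positivity)
        _ = 16 * C2 * ((1 + v) ^ 4 * ((b : ℝ) ^ m' * T) ^ (1 + ε) * Real.exp (2 * v)) := by ring
        _ ≤ (C1 + 16 * C2) * ((1 + v) ^ 4 * ((b : ℝ) ^ m' * T) ^ (1 + ε) *
            Real.exp (2 * v)) := mul_le_mul_of_nonneg_right (by linarith) hP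
        _ = _ := by ring

end Pool.Agent.HPP
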