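import Pool.Agent.ZX.Conj
import Pool.Agent.HPP.Defs

/-!
# HPP/LDefs: definitions for part L

`KM j a` is the two-sided Laplace transform of `u ^ a exp (-u ^ 2 / j)`, `a = 0, 1`; `GQ δ s` the
quotient of gamma factors `Γ_ℝ(1 - s + δ) / Γ_ℝ(s + δ)` (`δ = 0` even, `δ = 1` odd); `rs χ` the residue of
`L(s, χ)` at `s = 1`; `TT j a χ t v = ∑ (log n - v) ^ a exp (-(log n - v) ^ 2 / j) χ(n) n ^ (it)`;
`KI c j a χ t v` the integral over the line `Re s = c`, of `KM(s) e ^ (s v) L(s - i t, χ)`.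
-/

namespace Pool.Agent.HPP

open Complex MeasureTheory DirichletCharacter

/-- two-sided Laplace transform of `u ^ a exp (-u ^ 2 / j)`, `a = 0, 1` -/
noncomputable def KM (j : ℝ) (a : ℕ) (s : ℂ) : ℂ :=
  ((j : ℂ) * s / 2) ^ a * (Real.sqrt (Real.pi * j) : ℂ) * cexp ((j : ℂ) * s ^ 2 / 4)

/-- quotient of gamma factors -/
noncomputable def GQ (δ s : ℂ) : ℂ := Gammaℝ (1 - s + δ) / Gammaℝ (s + δ)

open Classical in
/-- residue of `L(s, χ)` at `s = 1` -/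
noncomputable def rs {Q : ℕ} (χ : DirichletCharacter ℂ Q) : ℂ :=
  if χ = 1 then ∏ p ∈ Q.primeFactors, (1 - (p : ℂ)⁻¹) else 0

/-- centred smooth sum -/
noncomputable def TT {Q : ℕ} (j : ℝ) (a : ℕ) (χ : DirichletCharacter ℂ Q) (t v : ℝ) : ℂ :=
  SS (fun n => (((Real.log n - v) ^ a * gw j v n : ℝ) : ℂ)) χ t

/-- line integral -/
noncomputable def KI {Q : ℕ} [NeZero Q] (c j : ℝ) (a : ℕ) (χ : DirichletCharacter ℂ Q)
    (t v : ℝ) : ℂ :=
  ∫ y : ℝ, KM j a (c + y * I) * cexp ((c + y * I) * v) * LFunction χ (c + y * I - t * I)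

end Pool.Agent.HPP
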