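import Pool.Agent.ZX.XiFe
import Pool.Agent.HPP.LDefs

/-!
# HPP/LFe: functional equation and reduction to primitive characters

* `L_fe`: Mathlib `IsPrimitive.completedLFunction_one_sub` at `1 - s`, and
  `LFunction_eq_completed_div_gammaFactor` for `χ` at `s` (this needs `s ≠ 0 ∨ M ≠ 1`) and for `χ⁻¹` at
  `1 - s` (real part `> 0`: `ZX.completed_eq_mul`); `χ⁻¹` has the parity of `χ` (`ZX.parity_inv_even`,
  `ZX.gammaFactor_eq_par`); `ε = rootNumber χ`, of norm `1`.
* `exists_prim`: `f = χ.conductor`, `ψ = χ.primitiveCharacter`, `χ = changeLevel _ ψ`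
  (`changeLevel_primitiveCharacter`, `factorsThrough_conductor`...), Mathlib
  `LFunction_changeLevel`. `χ = 1 ↔ f = 1`: `eq_one_iff_conductor_eq_one`.
-/

namespace Pool.Agent.HPP

open Complex DirichletCharacter Pool.Agent.ZX

theorem par_cases {M : ℕ} (χ : DirichletCharacter ℂ M) : par χ = 0 ∨ par χ = 1 := by
  unfold par
  split_ifs
  · exact Or.inl rfl
  · exact Or.inr rfl

theorem par_inv {M : ℕ} [NeZero M] (χ : DirichletCharacter ℂ M) : par χ⁻¹ = par χ := by
  unfold par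
  by_cases h : χ.Even
  · rw [if_pos h, if_pos (parity_inv_even.2 h)]
  · rw [if_neg h, if_neg (fun h' => h (parity_inv_even.1 h'))]

/-- The root number has norm `1`. -/
theorem norm_rootNumber_eq {M : ℕ} [NeZero M] {χ : DirichletCharacter ℂ M} (hχ : χ.IsPrimitive) :
    ‖rootNumber χ‖ = 1 := by
  have hM0 : (M : ℂ) ≠ 0 := by exact_mod_cast NeZero.ne M
  by_cases h : χ = 1
  · have hM : M = 1 := (eq_one_iff hχ).1 h
    subst hM
    rw [rootNumber_modOne, norm_one]
  · have hε : ∀ s, Xi χ (1 - starRingEnd ℂ s) = rootNumber χ * starRingEnd ℂ (Xi χ s) := by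
      intro s
      unfold Xi
      rw [if_neg h, if_neg h, hχ.completedLFunction_one_sub, completed_conj h, map_mul,
        conj_M_cpow]
      have h1 : (M : ℂ) ^ ((1 - starRingEnd ℂ s) / 2) * (M : ℂ) ^ (starRingEnd ℂ s - 1 / 2) =
          (M : ℂ) ^ (starRingEnd ℂ (s / 2)) := by
        rw [← cpow_add _ _ hM0]
        congr 1
        simp only [map_div₀, Complex.conj_ofNat]
        ring
      rw [← h1]
      ring
    have h1 := hε (1 - starRingEnd ℂ 2)
    rw [hε 2] at h1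
    have h2 : (1 : ℂ) - starRingEnd ℂ (1 - starRingEnd ℂ 2) = 2 := by simp
    rw [h2, map_mul, conj_conj] at h1
    have h3 : Xi χ 2 ≠ 0 := Xi_ne_zero_right hχ (by simp)
    have h4 : rootNumber χ * starRingEnd ℂ (rootNumber χ) = 1 := by
      have : (rootNumber χ * starRingEnd ℂ (rootNumber χ)) * Xi χ 2 = 1 * Xi χ 2 := by
        rw [one_mul]
        nth_rewrite 2 [h1]
        ring
      exact mul_right_cancel₀ h3 this
    have h5 : ‖rootNumber χ‖ * ‖rootNumber χ‖ = 1 := by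
      have := congrArg norm h4
      rwa [norm_mul, RCLike.norm_conj, norm_one] at this
    nlinarith [norm_nonneg (rootNumber χ), sq_nonneg (‖rootNumber χ‖ - 1)]

theorem L_fe {M : ℕ} [NeZero M] {χ : DirichletCharacter ℂ M} (hχ : χ.IsPrimitive) :
    ∃ ε : ℂ, ‖ε‖ = 1 ∧ ∀ s : ℂ, s.re < 1 → s ≠ 0 ∨ M ≠ 1 →
      LFunction χ s = ε * (M : ℂ) ^ (1 / 2 - s) * GQ (par χ) s * LFunction χ⁻¹ (1 - s) := by
  refine ⟨rootNumber χ, norm_rootNumber_eq hχ, fun s hs hs0 => ?_⟩
  have h1 := hχ.completedLFunction_one_sub (1 - s)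
  rw [sub_sub_cancel] at h1
  have h2 : 0 < (1 - s).re := by
    rw [sub_re, one_re]
    linarith
  rw [completed_eq_mul χ⁻¹ h2, par_inv] at h1
  rw [LFunction_eq_completed_div_gammaFactor χ s hs0, h1, gammaFactor_eq_par]
  unfold GQ
  rw [show (1 : ℂ) - s - 1 / 2 = 1 / 2 - s by ring]
  ring

theorem exists_prim {Q : ℕ} [NeZero Q] (χ : DirichletCharacter ℂ Q) :
    ∃ (f : ℕ) (_ : NeZero f) (ψ : DirichletCharacter ℂ f), f ∣ Q ∧ ψ.IsPrimitive ∧
      (χ = 1 ↔ f = 1) ∧ (∀ n : ℕ, n.Coprime Q → ψ (n : ZMod f) = χ (n : ZMod Q)) ∧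
      ∀ s : ℂ, s ≠ 1 → LFunction χ s =
        LFunction ψ s * ∏ p ∈ Q.primeFactors, (1 - ψ (p : ZMod f) * (p : ℂ) ^ (-s)) := by
  haveI hf : NeZero χ.conductor := ⟨χ.conductor_ne_zero⟩
  refine ⟨χ.conductor, hf, χ.primitiveCharacter, χ.conductor_dvd_level,
    χ.primitiveCharacter_isPrimitive, eq_one_iff_conductor_eq_one, ?_, ?_⟩
  · intro n hn
    have h1 : IsCoprime (n : ℤ) (Q : ℤ) := Nat.isCoprime_iff_coprime.2 hn
    have h2 := χ.primitiveCharacter_apply_of_isCoprime h1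
    simpa using h2
  · intro s hs
    conv_lhs => rw [← χ.changeLevel_primitiveCharacter]
    rw [LFunction_changeLevel χ.conductor_dvd_level χ.primitiveCharacter (Or.inr hs)]

end Pool.Agent.HPP
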