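import Pool.Agent.HPP.LDefs

/-!
# HPP/LGam: gamma facts

(helper24.) With `w = 1 - s`: `GQ 0 s = Gammaℂ w * cos (π w / 2)`, `GQ 1 s = Gammaℂ w * sin (π w / 2)`
(`Gammaℝ_div_Gammaℝ_one_sub`, `inv_Gammaℝ_one_sub`, `inv_Gammaℝ_two_sub`), `Gammaℂ w = 2 (2π)^(-w) Γ w`.
* `GQ_half`: `1 - s + δ = conj (s + δ)` on `Re s = 1/2`; `ZX.Gammaℝ_conj`.
* `GQ_zero`: `|Γ(1 + iy)|² = π y / sinh (π y)`, `cosh² (π y / 2) * y / sinh (π y) ≤ C (1 + |y|)`.
* `GQ_neg`: two steps `Gammaℝ_add_two`, `Gammaℝ (5/2 + it) = Gammaℝ (-3/2 + it) (-3/2 + it)(1/2 + it)/(4π²)`,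
  similarly for `δ = 1`.
* `GQ_exp`: `|Γ w| ≤ Γ (re w)` for `re w > 0`, `|cos|, |sin| ≤ cosh (π |im w| / 2) ≤ exp (2 |im w|)`;
  `Real.Gamma` is bounded on `[1/10, 3]`.
* `GQ_diff`: `differentiable_Gammaℝ_inv`, `ZX.differentiableAt_Gammaℝ'`.
-/

namespace Pool.Agent.HPP

open Complex

private theorem gm_ne {δ : ℂ} (hδ : δ = 0 ∨ δ = 1) {z : ℂ} (hz : 0 < z.re) : Gammaℝ (z + δ) ≠ 0 := by
  apply Gammaℝ_ne_zero_of_re_pos
  rcases hδ with rfl | rfl
  · simpa using hz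
  · simp; linarith

theorem GQ_half {δ : ℂ} (hδ : δ = 0 ∨ δ = 1) (y : ℝ) : ‖GQ δ (1 / 2 + y * I)‖ = 1 := by
  unfold GQ
  have h : (1 - (1 / 2 + (y : ℂ) * I) + δ) = (starRingEnd ℂ) (1 / 2 + y * I + δ) := by
    have hd : (starRingEnd ℂ) δ = δ := by rcases hδ with rfl | rfl <;> simp
    simp only [map_add, map_mul, map_div₀, map_one, conj_ofReal, conj_I, hd, map_ofNat]
    ring
  have hne : Gammaℝ (1 / 2 + y * I + δ) ≠ 0 := gm_ne hδ (by simp)
  rw [h, ZX.Gammaℝ_conj, norm_div, RCLike.norm_conj, div_self (norm_ne_zero_iff.2 hne)]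

/-- `GQ` for `re s < 1` in terms of `w = 1 - s` -/
private theorem GQ_zero_eq {w : ℂ} (hw : 0 < w.re) :
    GQ 0 (1 - w) = Gammaℂ w * cos (Real.pi * w / 2) := by
  unfold GQ
  rw [add_zero, add_zero, sub_sub_cancel, Gammaℝ_div_Gammaℝ_one_sub]
  intro n h
  rw [h] at hw
  simp at hw
  have : (0 : ℝ) ≤ n := Nat.cast_nonneg n
  linarith

private theorem GQ_one_eq {w : ℂ} (hw : 0 < w.re) :
    GQ 1 (1 - w) = Gammaℂ w * sin (Real.pi * w / 2) := by
  unfold GQ
  rw [sub_sub_cancel, show 1 - w + 1 = 2 - w by ring, div_eq_mul_inv, inv_Gammaℝ_two_sub]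
  · have hne : Gammaℝ (w + 1) ≠ 0 := gm_ne (Or.inr rfl) hw
    field_simp
  · intro n h
    rw [h] at hw
    simp at hw
    have : (0 : ℝ) ≤ n := Nat.cast_nonneg n
    linarith

private theorem norm_sin_le (w : ℂ) : ‖Complex.sin w‖ ≤ Real.cosh w.im := by
  unfold Complex.sin
  rw [norm_div, norm_mul, Complex.norm_I, mul_one, Real.cosh_eq]
  have h1 := norm_sub_le (Complex.exp (-w * Complex.I)) (Complex.exp (w * Complex.I))
  rw [Complex.norm_exp, Complex.norm_exp] at h1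
  have h2 : (-w * Complex.I).re = w.im := by simp
  have h3 : (w * Complex.I).re = -w.im := by simp
  rw [h2, h3] at h1
  have h6 : ‖(2 : ℂ)‖ = 2 := by norm_num
  rw [h6]
  linarith

private theorem norm_cos_le (w : ℂ) : ‖Complex.cos w‖ ≤ Real.cosh w.im := by
  unfold Complex.cos
  rw [norm_div, Real.cosh_eq]
  have h1 := norm_add_le (Complex.exp (w * Complex.I)) (Complex.exp (-w * Complex.I))
  rw [Complex.norm_exp, Complex.norm_exp] at h1
  have h2 : (-w * Complex.I).re = w.im := by simp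
  have h3 : (w * Complex.I).re = -w.im := by simp
  rw [h2, h3] at h1
  have h6 : ‖(2 : ℂ)‖ = 2 := by norm_num
  rw [h6]
  linarith

/-- norm of `GQ` for `re s < 1` -/
private theorem GQ_le {δ : ℂ} (hδ : δ = 0 ∨ δ = 1) {w : ℂ} (hw : 0 < w.re) :
    ‖GQ δ (1 - w)‖ ≤ 2 * (2 * Real.pi) ^ (-w.re) * ‖Gamma w‖ * Real.cosh (Real.pi * w.im / 2) := by
  have hG : ‖Gammaℂ w‖ = 2 * (2 * Real.pi) ^ (-w.re) * ‖Gamma w‖ := by
    rw [Gammaℂ_def, norm_mul, norm_mul, show (2 * (Real.pi : ℂ)) = ((2 * Real.pi : ℝ) : ℂ) by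
      push_cast; rfl, Complex.norm_cpow_eq_rpow_re_of_pos (by positivity)]
    simp
  have him : ((Real.pi : ℂ) * w / 2).im = Real.pi * w.im / 2 := by
    rw [show ((Real.pi : ℂ) * w / 2) = ((Real.pi / 2 : ℝ) : ℂ) * w by push_cast; ring, im_ofReal_mul]
    ring
  rcases hδ with rfl | rfl
  · rw [GQ_zero_eq hw, norm_mul, hG, ← him]
    exact mul_le_mul_of_nonneg_left (norm_cos_le _) (by positivity)
  · rw [GQ_one_eq hw, norm_mul, hG, ← him]
    exact mul_le_mul_of_nonneg_left (norm_sin_le _) (by positivity)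

private theorem norm_Gamma_le {s : ℂ} (hs : 0 < s.re) : ‖Complex.Gamma s‖ ≤ Real.Gamma s.re := by
  rw [Complex.Gamma_eq_integral hs, Real.Gamma_eq_integral hs, Complex.GammaIntegral]
  refine (MeasureTheory.norm_integral_le_integral_norm _).trans (le_of_eq ?_)
  refine MeasureTheory.setIntegral_congr_fun measurableSet_Ioi (fun x hx => ?_)
  have hx0 : 0 < x := hx
  simp only [norm_mul, Complex.norm_real, Real.norm_eq_abs, abs_of_pos (Real.exp_pos _)]
  rw [Complex.norm_cpow_eq_rpow_re_of_pos hx0]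
  simp

/-- `|Γ(1 - iy)|² sinh (π y) = π y` -/
private theorem Gamma_sq (y : ℝ) : ‖Gamma (1 - y * I)‖ ^ 2 * Real.sinh (Real.pi * y) = Real.pi * y := by
  rcases eq_or_ne y 0 with rfl | hy
  · simp
  have hy' : (y : ℂ) * I ≠ 0 := mul_ne_zero (by exact_mod_cast hy) I_ne_zero
  have h1 := Complex.Gamma_mul_Gamma_one_sub (y * I)
  have h2 : Gamma (1 + y * I) = y * I * Gamma (y * I) := by
    rw [add_comm, Gamma_add_one _ hy']
  have h3 : Gamma (1 + y * I) = (starRingEnd ℂ) (Gamma (1 - y * I)) := by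
    rw [← Gamma_conj]
    simp
  have h4 : sin ((Real.pi : ℂ) * (y * I)) = (Real.sinh (Real.pi * y) : ℂ) * I := by
    rw [← mul_assoc, Complex.sin_mul_I, ofReal_sinh]
    push_cast
    rfl
  have hs : Real.sinh (Real.pi * y) ≠ 0 := by
    rw [Ne, Real.sinh_eq_zero]
    exact mul_ne_zero Real.pi_ne_zero hy
  have hs' : (Real.sinh (Real.pi * y) : ℂ) ≠ 0 := by exact_mod_cast hs
  rw [h4] at h1
  apply Complex.ofReal_injective
  rw [ofReal_mul, ofReal_pow, ← Complex.mul_conj', ← h3, h2]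
  rw [show Gamma (1 - y * I) * (y * I * Gamma (y * I)) * (Real.sinh (Real.pi * y) : ℂ) =
    (Gamma (y * I) * Gamma (1 - y * I)) * (y * I * (Real.sinh (Real.pi * y) : ℂ)) by ring, h1,
    ofReal_mul Real.pi y]
  have hI := I_ne_zero
  field_simp

private theorem coth_le {x : ℝ} (hx : 0 ≤ x) : x * Real.cosh x ≤ (1 + x) * Real.sinh x := by
  have h1 : x ≤ Real.sinh x := Real.self_le_sinh_iff.2 hx
  have h2 : Real.cosh x - Real.sinh x = Real.exp (-x) := Real.cosh_sub_sinh x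
  have h3 : Real.exp (-x) ≤ 1 := Real.exp_le_one_iff.2 (by linarith)
  nlinarith

theorem GQ_zero : ∃ C : ℝ, 1 ≤ C ∧ ∀ δ : ℂ, δ = 0 ∨ δ = 1 → ∀ y : ℝ,
    ‖GQ δ (y * I)‖ ≤ C * Real.sqrt (1 + |y|) := by
  refine ⟨1, le_rfl, fun δ hδ y => ?_⟩
  rw [one_mul]
  apply Real.le_sqrt_of_sq_le
  have h := GQ_le hδ (w := 1 - y * I) (by simp)
  rw [sub_sub_cancel] at h
  have e1 : (1 - (y : ℂ) * I).re = 1 := by simp
  have e2 : (1 - (y : ℂ) * I).im = -y := by simp
  rw [e1, e2] at h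
  have hpi := Real.pi_gt_three
  have e3 : 2 * (2 * Real.pi) ^ (-(1 : ℝ)) = 1 / Real.pi := by
    rw [Real.rpow_neg_one]; field_simp
  have e4 : Real.cosh (Real.pi * -y / 2) = Real.cosh (Real.pi * |y| / 2) := by
    rw [show Real.pi * -y / 2 = -(Real.pi * y / 2) by ring, Real.cosh_neg]
    rcases abs_cases y with h | h
    · rw [h.1]
    · rw [h.1, show Real.pi * -y / 2 = -(Real.pi * y / 2) by ring, Real.cosh_neg]
  rw [e3, e4] at h
  have hG : ‖Gamma (1 - y * I)‖ ^ 2 * Real.sinh (Real.pi * |y|) = Real.pi * |y| := by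
    have := Gamma_sq y
    rcases abs_cases y with h | h
    · rw [h.1]; exact this
    · rw [h.1, mul_neg, Real.sinh_neg]; linarith
  have h2 : ‖GQ δ (y * I)‖ ^ 2 ≤ (1 / Real.pi * ‖Gamma (1 - y * I)‖ * Real.cosh (Real.pi * |y| / 2)) ^ 2 :=
    pow_le_pow_left₀ (norm_nonneg _) h 2
  refine h2.trans ?_
  rcases eq_or_ne y 0 with rfl | hy
  · simp only [ofReal_zero, zero_mul, sub_zero, Complex.Gamma_one, norm_one, mul_one, abs_zero,
      mul_zero, zero_div, Real.cosh_zero, add_zero]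
    apply pow_le_one₀ (by positivity)
    rw [div_le_one Real.pi_pos]
    linarith
  have hy0 : 0 < |y| := abs_pos.2 hy
  set x : ℝ := Real.pi * |y| / 2 with hx
  have hx0 : 0 < x := by positivity
  have hs : 0 < Real.sinh x := Real.sinh_pos_iff.2 hx0
  have hc : 0 < Real.cosh x := Real.cosh_pos x
  have e5 : Real.sinh (Real.pi * |y|) = 2 * Real.sinh x * Real.cosh x := by
    rw [show Real.pi * |y| = 2 * x by rw [hx]; ring, Real.sinh_two_mul]
  rw [e5] at hG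
  have e6 : Real.pi * |y| = 2 * x := by rw [hx]; ring
  rw [e6] at hG
  have h3 := coth_le hx0.le
  have e7 : (1 / Real.pi * ‖Gamma (1 - y * I)‖ * Real.cosh x) ^ 2 * (2 * Real.sinh x * Real.cosh x) =
      (1 / Real.pi ^ 2) * (2 * x) * Real.cosh x ^ 2 := by
    rw [← hG]; ring
  have h4 : (1 / Real.pi * ‖Gamma (1 - y * I)‖ * Real.cosh x) ^ 2 =
    (1 / Real.pi ^ 2) * (x * Real.cosh x / Real.sinh x) := by
    field_simp
    field_simp at e7
    nlinarith
  rw [h4]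
  have h5 : x * Real.cosh x / Real.sinh x ≤ 1 + x := by
    rw [div_le_iff₀ hs]; exact h3
  calc (1 / Real.pi ^ 2) * (x * Real.cosh x / Real.sinh x) ≤ (1 / Real.pi ^ 2) * (1 + x) :=
        mul_le_mul_of_nonneg_left h5 (by positivity)
    _ ≤ 1 + |y| := by
        rw [div_mul_eq_mul_div, one_mul, div_le_iff₀ (by positivity), hx]
        nlinarith [abs_nonneg y, mul_pos (by linarith : (0 : ℝ) < Real.pi) hy0]

theorem GQ_neg : ∃ C : ℝ, 1 ≤ C ∧ ∀ δ : ℂ, δ = 0 ∨ δ = 1 → ∀ y : ℝ,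
    ‖GQ δ (-(3 / 2) + y * I)‖ ≤ C * (1 + |y|) ^ 2 := by
  refine ⟨1, le_rfl, fun δ hδ y => ?_⟩
  have hpi := Real.pi_gt_three
  have hpi' : (Real.pi : ℂ) ≠ 0 := by exact_mod_cast Real.pi_ne_zero
  have hdre : δ.re = 0 ∨ δ.re = 1 := by rcases hδ with rfl | rfl <;> simp
  have n1 : (1 / 2 - y * I + δ) ≠ 0 := by
    intro h
    have := congrArg re h
    simp at this
    rcases hdre with h' | h' <;> rw [h'] at this <;> norm_num at this
  have n2 : (-(3 / 2) + y * I + δ) ≠ 0 := by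
    intro h
    have := congrArg re h
    simp at this
    rcases hdre with h' | h' <;> rw [h'] at this <;> norm_num at this
  have n3 : Gammaℝ (1 / 2 + y * I + δ) ≠ 0 := gm_ne hδ (by simp)
  have h1 : Gammaℝ (1 - (-(3 / 2) + y * I) + δ) = Gammaℝ (1 - (1 / 2 + y * I) + δ) *
      (1 / 2 - y * I + δ) / 2 / Real.pi := by
    rw [show (1 - (1 / 2 + y * I) + δ : ℂ) = 1 / 2 - y * I + δ by ring, ← Gammaℝ_add_two n1]
    congr 1
    ring
  have h2 : Gammaℝ (1 / 2 + y * I + δ) = Gammaℝ (-(3 / 2) + y * I + δ) *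
      (-(3 / 2) + y * I + δ) / 2 / Real.pi := by
    rw [← Gammaℝ_add_two n2]
    congr 1
    ring
  have n4 : Gammaℝ (-(3 / 2) + y * I + δ) ≠ 0 := by
    intro h
    rw [h] at h2
    simp at h2
    exact n3 (by rw [← h2]; congr 1; ring)
  have h3 : GQ δ (-(3 / 2) + y * I) = GQ δ (1 / 2 + y * I) * ((1 / 2 - y * I + δ) *
      (-(3 / 2) + y * I + δ)) / (4 * Real.pi ^ 2) := by
    unfold GQ
    rw [h1, h2]
    generalize Gammaℝ (-(3 / 2) + y * I + δ) = G at n4 ⊢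
    generalize (-(3 / 2) + y * I + δ) = B at n2 ⊢
    field_simp
    ring
  rw [h3, norm_div, norm_mul, GQ_half hδ, one_mul, norm_mul]
  have hyI : ‖(y : ℂ) * I‖ = |y| := by simp
  have b1 : ‖(1 / 2 - y * I + δ)‖ ≤ 3 / 2 + |y| := by
    rw [show (1 / 2 - y * I + δ : ℂ) = (1 / 2 + δ) - y * I by ring]
    refine (norm_sub_le _ _).trans ?_
    rw [hyI]
    have : ‖(1 / 2 + δ : ℂ)‖ ≤ 3 / 2 := by
      rcases hδ with rfl | rfl <;> norm_num
    linarith
  have b2 : ‖(-(3 / 2) + y * I + δ)‖ ≤ 3 / 2 + |y| := by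
    rw [show (-(3 / 2) + y * I + δ : ℂ) = (-(3 / 2) + δ) + y * I by ring]
    refine (norm_add_le _ _).trans ?_
    rw [hyI]
    have : ‖(-(3 / 2) + δ : ℂ)‖ ≤ 3 / 2 := by
      rcases hδ with rfl | rfl <;> norm_num
    linarith
  have b3 : ‖(4 * (Real.pi : ℂ) ^ 2)‖ = 4 * Real.pi ^ 2 := by
    rw [norm_mul, norm_pow, Complex.norm_real, Real.norm_of_nonneg Real.pi_pos.le]
    norm_num
  rw [b3, div_le_iff₀ (by positivity)]
  have hy := abs_nonneg y
  calc ‖(1 / 2 - y * I + δ)‖ * ‖(-(3 / 2) + y * I + δ)‖ ≤ (3 / 2 + |y|) * (3 / 2 + |y|) :=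
        mul_le_mul b1 b2 (norm_nonneg _) (by positivity)
    _ ≤ 1 * (1 + |y|) ^ 2 * (4 * 3 ^ 2) := by nlinarith
    _ ≤ _ := by gcongr

theorem GQ_exp : ∃ C : ℝ, 1 ≤ C ∧ ∀ δ : ℂ, δ = 0 ∨ δ = 1 → ∀ s : ℂ, -2 ≤ s.re → s.re ≤ 9 / 10 →
    ‖GQ δ s‖ ≤ C * Real.exp (2 * |s.im|) := by
  have hcont : ContinuousOn Real.Gamma (Set.Icc (1 / 10) 3) := by
    intro x hx
    have h0 : 0 < x := lt_of_lt_of_le (by norm_num) hx.1
    exact ((Real.differentiableOn_Gamma_Ioi x h0).differentiableAt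
      (Ioi_mem_nhds h0)).continuousAt.continuousWithinAt
  obtain ⟨B, hB⟩ := isCompact_Icc.exists_bound_of_continuousOn hcont
  refine ⟨max 1 (2 * B), le_max_left _ _, fun δ hδ s h1 h2 => ?_⟩
  have hw : 0 < (1 - s).re := by simp; linarith
  have h := GQ_le hδ hw
  rw [sub_sub_cancel] at h
  have e1 : (1 - s).re = 1 - s.re := by simp
  have e2 : (1 - s).im = -s.im := by simp
  rw [e2] at h
  have g1 := norm_Gamma_le hw
  have g2 := hB (1 - s).re ⟨by rw [e1]; linarith, by rw [e1]; linarith⟩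
  have g3 : ‖Gamma (1 - s)‖ ≤ B := g1.trans ((le_abs_self _).trans g2)
  have g4 : (2 * Real.pi) ^ (-(1 - s).re) ≤ 1 := by
    apply Real.rpow_le_one_of_one_le_of_nonpos
    · have := Real.pi_gt_three; linarith
    · linarith
  have g5 : Real.cosh (Real.pi * -s.im / 2) ≤ Real.exp (2 * |s.im|) := by
    rw [Real.cosh_eq]
    have k1 : Real.pi * -s.im / 2 ≤ 2 * |s.im| := by
      have := Real.pi_lt_four
      have := neg_le_abs s.im
      have := abs_nonneg s.im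
      have := Real.pi_pos
      nlinarith
    have k2 : -(Real.pi * -s.im / 2) ≤ 2 * |s.im| := by
      have := Real.pi_lt_four
      have := le_abs_self s.im
      have := abs_nonneg s.im
      have := Real.pi_pos
      nlinarith
    have := Real.exp_le_exp.2 k1
    have := Real.exp_le_exp.2 k2
    linarith
  have hB0 : 0 ≤ B := (norm_nonneg _).trans g3
  calc ‖GQ δ s‖ ≤ 2 * (2 * Real.pi) ^ (-(1 - s).re) * ‖Gamma (1 - s)‖ *
        Real.cosh (Real.pi * -s.im / 2) := h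
    _ ≤ 2 * 1 * B * Real.exp (2 * |s.im|) := by gcongr
    _ ≤ max 1 (2 * B) * Real.exp (2 * |s.im|) := by
        apply mul_le_mul_of_nonneg_right _ (Real.exp_pos _).le
        rw [mul_one]
        exact le_max_right _ _

private theorem differentiableAt_Gammaℝ' {z : ℂ} (hz : 0 < z.re) : DifferentiableAt ℂ Gammaℝ z := by
  have h1 : Gammaℝ = fun w : ℂ => (Real.pi : ℂ) ^ (-w / 2) * Gamma (w / 2) := by
    funext w
    rw [Gammaℝ_def]
  rw [h1]
  have hpi : (Real.pi : ℂ) ≠ 0 := by exact_mod_cast Real.pi_ne_zero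
  have d1 : DifferentiableAt ℂ (fun w : ℂ => (Real.pi : ℂ) ^ (-w / 2)) z :=
    (differentiableAt_id.neg.div_const 2).const_cpow (Or.inl hpi)
  have d2 : DifferentiableAt ℂ Gamma (z / 2) := by
    apply differentiableAt_Gamma
    intro m hm
    have h2 := congrArg re hm
    have h3 : (z / 2).re = z.re / 2 := by
      rw [show (2 : ℂ) = ((2 : ℝ) : ℂ) by norm_num, div_ofReal_re]
    rw [h3, neg_re, natCast_re] at h2
    have h4 : (0 : ℝ) ≤ m := Nat.cast_nonneg m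
    linarith
  have d3 : DifferentiableAt ℂ (fun w : ℂ => w / 2) z := by fun_prop
  exact d1.mul (DifferentiableAt.comp z d2 d3)

theorem GQ_diff {δ : ℂ} (hδ : δ = 0 ∨ δ = 1) {s : ℂ} (hs : s.re < 1) :
    DifferentiableAt ℂ (GQ δ) s := by
  have e : GQ δ = fun s => Gammaℝ (1 - s + δ) * (Gammaℝ (s + δ))⁻¹ := by
    funext s
    unfold GQ
    rw [div_eq_mul_inv]
  rw [e]
  have hre : 0 < (1 - s + δ).re := by
    rcases hδ with rfl | rfl
    · simp; linarith
    · simp; linarith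
  have d1 : DifferentiableAt ℂ (fun s => Gammaℝ (1 - s + δ)) s :=
    DifferentiableAt.comp s (f := fun s => 1 - s + δ) (differentiableAt_Gammaℝ' hre) (by fun_prop)
  have d2 : DifferentiableAt ℂ (fun s => (Gammaℝ (s + δ))⁻¹) s :=
    DifferentiableAt.comp s (g := fun s => (Gammaℝ s)⁻¹) (f := fun s => s + δ)
      (differentiable_Gammaℝ_inv _) (by fun_prop)
  exact d1.mul d2

end Pool.Agent.HPP
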