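import Pool.Agent.FZ.BLBound
import Pool.Agent.HPP.LGam
import Pool.Agent.HPP.LFe

/-!
# HPP/LGrow: growth in the strip `-3/2 ≤ Re s ≤ 2`, for a fixed character

`exists_prim`: `χ` is induced by `ψ` primitive mod `f`. Euler factor: `‖∏ (1 - ψ(p) p^(-s))‖ ≤ ∏ (1 + p ^ 2)` for
`-3/2 ≤ Re s` (`‖p^(-s)‖ = p^(- Re s) ≤ p²`).
* `1/10 ≤ Re s ≤ 2`: `FZ.L_bound_explicit`: `‖(s - 1) L(s, ψ)‖ ≤ (10 f + 1)(1 + ‖s‖)² ≤ C exp (2 |im s|)`.
* `-3/2 ≤ Re s ≤ 1/10`, `s ≠ 0` (or `f ≠ 1`): `L_fe`, `‖f^(1/2 - s)‖ ≤ f^2`, `GQ_exp`, and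
  `‖s * L(1 - s, ψ⁻¹)‖ = ‖((1 - s) - 1) L(1 - s, ψ⁻¹)‖ ≤ (10 f + 1)(1 + ‖1 - s‖)²` (`ψ⁻¹` is primitive, conductor of
  the inverse); `‖s - 1‖ ≤ 3 + |im s|`. For `‖s‖ ≤ 1/20` (where division by `‖s‖` is bad) use compactness:
  `L(·, ψ)` is continuous on the compact ball (`differentiableAt_LFunction`, `s ≠ 1`); outside of it
  `‖s‖ ≥ 1/20`.
-/

namespace Pool.Agent.HPP

open Complex DirichletCharacter Pool.Agent.ZX

private lemma norm_le_abs (s : ℂ) : ‖s‖ ≤ |s.re| + |s.im| := Complex.norm_le_abs_re_add_abs_im s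

private lemma one_add_le_exp (y : ℝ) : 1 + |y| ≤ Real.exp |y| := by
  have := Real.add_one_le_exp |y|
  linarith

private lemma prim_growth {f : ℕ} [NeZero f] {ψ : DirichletCharacter ℂ f} (hψ : ψ.IsPrimitive) :
    ∃ C : ℝ, 1 ≤ C ∧ ∀ s : ℂ, -(3 / 2) ≤ s.re → s.re ≤ 2 →
      ‖(s - 1) * LFunction ψ s‖ ≤ C * Real.exp (5 * |s.im|) := by
  obtain ⟨CG, hCG1, hCG⟩ := GQ_exp
  obtain ⟨ε, hε, hfe⟩ := L_fe hψ
  have hψi : (ψ⁻¹).IsPrimitive := by
    rw [isPrimitive_def] at hψ ⊢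
    rw [conductor_inv]
    exact hψ
  have hf1 : (1 : ℝ) ≤ f := by
    have : 1 ≤ f := NeZero.one_le
    exact_mod_cast this
  -- compact part
  obtain ⟨C0, hC0⟩ : ∃ C0 : ℝ, ∀ s ∈ Metric.closedBall (0 : ℂ) (1 / 20), ‖LFunction ψ s‖ ≤ C0 := by
    refine (isCompact_closedBall (0 : ℂ) (1 / 20)).exists_bound_of_continuousOn ?_
    intro s hs
    have hs1 : s ≠ 1 := by
      rintro rfl
      rw [Metric.mem_closedBall, dist_zero_right] at hs
      norm_num at hs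
    exact (differentiableAt_LFunction ψ s (Or.inl hs1)).continuousAt.continuousWithinAt
  have hC00 : 0 ≤ C0 := le_trans (norm_nonneg _) (hC0 0 (Metric.mem_closedBall_self (by norm_num)))
  set A : ℝ := 10 * (f : ℝ) + 1 with hA
  have hA1 : 1 ≤ A := by rw [hA]; linarith
  refine ⟨9 * A + 960 * ((f : ℝ) ^ (2 : ℝ) * CG * A) + 2 * C0 + 1, ?_, ?_⟩
  · have : 0 ≤ (f : ℝ) ^ (2 : ℝ) * CG * A := by positivity
    linarith
  intro s hs1 hs2
  have hE1 : 1 ≤ Real.exp (5 * |s.im|) := Real.one_le_exp (by positivity)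
  have hf2 : (0 : ℝ) ≤ (f : ℝ) ^ (2 : ℝ) * CG * A := by positivity
  have hexp : 1 + |s.im| ≤ Real.exp |s.im| := one_add_le_exp _
  have hexp0 : 0 < Real.exp |s.im| := Real.exp_pos _
  have hy0 : 0 ≤ |s.im| := abs_nonneg _
  by_cases hre : 1 / 10 ≤ s.re
  · have h1 := FZ.L_bound_explicit hψ hre
    have h2 : ‖s‖ ≤ 2 + |s.im| := by
      refine (norm_le_abs s).trans ?_
      have : |s.re| ≤ 2 := by rw [abs_le]; constructor <;> linarith
      linarith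
    have h3 : (1 + ‖s‖) ^ 2 ≤ 9 * Real.exp (5 * |s.im|) := by
      have h4 : 1 + ‖s‖ ≤ 3 * Real.exp |s.im| := by nlinarith
      have h5 : (1 + ‖s‖) ^ 2 ≤ (3 * Real.exp |s.im|) ^ 2 :=
        pow_le_pow_left₀ (by positivity) h4 2
      have h6 : (3 * Real.exp |s.im|) ^ 2 = 9 * Real.exp (2 * |s.im|) := by
        rw [mul_pow, ← Real.exp_nat_mul]
        norm_num
      have h7 : Real.exp (2 * |s.im|) ≤ Real.exp (5 * |s.im|) := Real.exp_le_exp.2 (by linarith)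
      rw [h6] at h5
      linarith
    calc ‖(s - 1) * LFunction ψ s‖ ≤ A * (1 + ‖s‖) ^ 2 := h1
      _ ≤ A * (9 * Real.exp (5 * |s.im|)) := mul_le_mul_of_nonneg_left h3 (by linarith)
      _ = (9 * A) * Real.exp (5 * |s.im|) := by ring
      _ ≤ _ := mul_le_mul_of_nonneg_right (by linarith) (by positivity)
  · push Not at hre
    by_cases hsm : ‖s‖ ≤ 1 / 20
    · have h1 : ‖LFunction ψ s‖ ≤ C0 := hC0 s (by rw [Metric.mem_closedBall, dist_zero_right]; exact hsm)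
      have h2 : ‖s - 1‖ ≤ 2 := by
        calc ‖s - 1‖ ≤ ‖s‖ + ‖(1 : ℂ)‖ := norm_sub_le _ _
          _ ≤ 2 := by rw [norm_one]; linarith
      rw [norm_mul]
      calc ‖s - 1‖ * ‖LFunction ψ s‖ ≤ 2 * C0 := mul_le_mul h2 h1 (norm_nonneg _) (by norm_num)
        _ ≤ 2 * C0 * Real.exp (5 * |s.im|) := le_mul_of_one_le_right (by positivity) hE1
        _ ≤ _ := mul_le_mul_of_nonneg_right (by linarith) (by positivity)
    · push Not at hsm
      have hs0 : s ≠ 0 := by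
        rintro rfl
        rw [norm_zero] at hsm
        linarith
      have hL := hfe s (by linarith) (Or.inl hs0)
      have h1 := FZ.L_bound_explicit hψi (s := 1 - s)
        (by rw [Complex.sub_re, Complex.one_re]; linarith)
      have h2 : (1 - s : ℂ) - 1 = -s := by ring
      rw [h2, norm_mul, norm_neg] at h1
      have h3 : ‖1 - s‖ ≤ 5 / 2 + |s.im| := by
        refine (norm_le_abs _).trans ?_
        rw [Complex.sub_re, Complex.one_re, Complex.sub_im, Complex.one_im, zero_sub, abs_neg]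
        have : |1 - s.re| ≤ 5 / 2 := by rw [abs_le]; constructor <;> linarith
        linarith
      have h4 : (1 + ‖1 - s‖) ^ 2 ≤ 16 * Real.exp (2 * |s.im|) := by
        have h5 : 1 + ‖1 - s‖ ≤ 4 * Real.exp |s.im| := by nlinarith
        have h6 : (1 + ‖1 - s‖) ^ 2 ≤ (4 * Real.exp |s.im|) ^ 2 :=
          pow_le_pow_left₀ (by positivity) h5 2
        have h7 : (4 * Real.exp |s.im|) ^ 2 = 16 * Real.exp (2 * |s.im|) := by
          rw [mul_pow, ← Real.exp_nat_mul]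
          norm_num
        rw [h7] at h6
        exact h6
      have h5 : ‖LFunction ψ⁻¹ (1 - s)‖ ≤ 320 * A * Real.exp (2 * |s.im|) := by
        have h6 : (1 / 20 : ℝ) * ‖LFunction ψ⁻¹ (1 - s)‖ ≤ A * (16 * Real.exp (2 * |s.im|)) := by
          calc (1 / 20 : ℝ) * ‖LFunction ψ⁻¹ (1 - s)‖ ≤ ‖s‖ * ‖LFunction ψ⁻¹ (1 - s)‖ :=
                mul_le_mul_of_nonneg_right hsm.le (norm_nonneg _)
            _ ≤ A * (1 + ‖1 - s‖) ^ 2 := h1
            _ ≤ _ := mul_le_mul_of_nonneg_left h4 (by linarith)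
        linarith
      have h6 : ‖(f : ℂ) ^ (1 / 2 - s)‖ ≤ (f : ℝ) ^ (2 : ℝ) := by
        rw [Complex.norm_natCast_cpow_of_pos (NeZero.pos f)]
        refine Real.rpow_le_rpow_of_exponent_le hf1 ?_
        have : (1 / 2 - s : ℂ).re = 1 / 2 - s.re := by
          rw [Complex.sub_re]
          norm_num
        rw [this]
        linarith
      have h7 : ‖GQ (par ψ) s‖ ≤ CG * Real.exp (2 * |s.im|) :=
        hCG (par ψ) (par_cases ψ) s (by linarith) (by linarith)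
      have h8 : ‖s - 1‖ ≤ 3 * Real.exp |s.im| := by
        have : ‖s - 1‖ = ‖1 - s‖ := norm_sub_rev _ _
        rw [this]
        nlinarith
      have hexp5 : Real.exp |s.im| * (Real.exp (2 * |s.im|) * Real.exp (2 * |s.im|)) =
          Real.exp (5 * |s.im|) := by
        rw [← Real.exp_add, ← Real.exp_add]
        congr 1
        ring
      rw [hL, norm_mul, norm_mul, norm_mul, norm_mul, hε, one_mul]
      calc ‖s - 1‖ * (‖(f : ℂ) ^ (1 / 2 - s)‖ * ‖GQ (par ψ) s‖ * ‖LFunction ψ⁻¹ (1 - s)‖)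
          ≤ (3 * Real.exp |s.im|) * ((f : ℝ) ^ (2 : ℝ) * (CG * Real.exp (2 * |s.im|)) *
              (320 * A * Real.exp (2 * |s.im|))) := by
            gcongr
        _ = 960 * ((f : ℝ) ^ (2 : ℝ) * CG * A) *
              (Real.exp |s.im| * (Real.exp (2 * |s.im|) * Real.exp (2 * |s.im|))) := by ring
        _ = 960 * ((f : ℝ) ^ (2 : ℝ) * CG * A) * Real.exp (5 * |s.im|) := by rw [hexp5]
        _ ≤ _ := mul_le_mul_of_nonneg_right (by linarith) (by positivity)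

theorem L_strip_growth {Q : ℕ} [NeZero Q] (χ : DirichletCharacter ℂ Q) : ∃ C : ℝ, 1 ≤ C ∧
    ∀ s : ℂ, -(3 / 2) ≤ s.re → s.re ≤ 2 →
      ‖(s - 1) * LFunction χ s‖ ≤ C * Real.exp (5 * |s.im|) := by
  obtain ⟨f, hf, ψ, _, hψ, _, _, hL⟩ := exists_prim χ
  obtain ⟨C, hC1, hC⟩ := prim_growth hψ
  have hE1 : (1 : ℝ) ≤ ∏ p ∈ Q.primeFactors, (1 + (p : ℝ) ^ (2 : ℝ)) := by
    refine Finset.prod_induction (fun p : ℕ => (1 + (p : ℝ) ^ (2 : ℝ))) (fun x : ℝ => 1 ≤ x) ?_ le_rfl ?_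
    · intro a b ha hb
      nlinarith
    · intro p _
      have : (0 : ℝ) ≤ (p : ℝ) ^ (2 : ℝ) := by positivity
      linarith
  refine ⟨C * ∏ p ∈ Q.primeFactors, (1 + (p : ℝ) ^ (2 : ℝ)), ?_, ?_⟩
  · nlinarith
  intro s hs1 hs2
  have hexp : 0 < Real.exp (5 * |s.im|) := Real.exp_pos _
  by_cases h1 : s = 1
  · rw [h1, sub_self, zero_mul, norm_zero]
    positivity
  · have hP : ‖∏ p ∈ Q.primeFactors, (1 - ψ (p : ZMod f) * (p : ℂ) ^ (-s))‖ ≤
        ∏ p ∈ Q.primeFactors, (1 + (p : ℝ) ^ (2 : ℝ)) := by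
      rw [norm_prod]
      refine Finset.prod_le_prod (fun p _ => norm_nonneg _) ?_
      intro p hp
      have hp1 : 1 ≤ p := (Nat.prime_of_mem_primeFactors hp).one_lt.le
      have hpR : (1 : ℝ) ≤ p := by exact_mod_cast hp1
      refine (norm_sub_le _ _).trans ?_
      rw [norm_one, norm_mul, Complex.norm_natCast_cpow_of_pos (by omega)]
      have h2 : (p : ℝ) ^ (-s).re ≤ (p : ℝ) ^ (2 : ℝ) := by
        refine Real.rpow_le_rpow_of_exponent_le hpR ?_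
        rw [Complex.neg_re]
        linarith
      have h3 : ‖ψ (p : ZMod f)‖ ≤ 1 := ψ.norm_le_one _
      have h4 : (0 : ℝ) ≤ (p : ℝ) ^ (-s).re := by positivity
      have h5 : ‖ψ (p : ZMod f)‖ * (p : ℝ) ^ (-s).re ≤ 1 * (p : ℝ) ^ (-s).re :=
        mul_le_mul_of_nonneg_right h3 h4
      linarith
    rw [hL s h1, ← mul_assoc, norm_mul]
    calc ‖(s - 1) * LFunction ψ s‖ * ‖∏ p ∈ Q.primeFactors, (1 - ψ (p : ZMod f) * (p : ℂ) ^ (-s))‖
        ≤ (C * Real.exp (5 * |s.im|)) * ∏ p ∈ Q.primeFactors, (1 + (p : ℝ) ^ (2 : ℝ)) :=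
          mul_le_mul (hC s hs1 hs2) hP (norm_nonneg _) (by positivity)
      _ = _ := by ring

end Pool.Agent.HPP
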