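import Pool.Agent.HPP.LMel

/-!
# HPP/LRep: the smooth sum as a line integral over `Re s = 2`

`TT j a χ t v = ∑_n (log n - v)^a gw j v n χ(n) n^(it)`. By `KM_inv` with `c = 2`, `u = log n - v` (`n ≥ 1`):
`2π (log n - v)^a exp (-(log n - v)²/j) = ∫ KM(2 + iy) exp (-(2 + iy) log n) exp ((2 + iy) v) dy` and
`exp (-s log n) = n^(-s)`. Interchange `∑'` and `∫` (`integral_tsum_of_summable_integral_norm` or
`hasSum_integral_of_summable_integral_norm`): the norm of the `n`-th integrand is `≤ ‖KM(2 + iy)‖ e^(2v) n^(-2)`,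
`KM_integrable`. `∑ χ(n) n^(it) n^(-s) = L(s - it, χ)` for `s = 2 + iy` (`LFunction_eq_LSeries`, `LSeries.term`,
`LSeries.term` is `0` at `n = 0`, where also `gw j v 0 = 0`). `SS_split`: `log n = v + (log n - v)`.
* `gw_summable`: `|log n - v|^a gw j v n ≤ C n^(-2)` for `n ≥ 1`: `|u|^a exp (-u²/j) ≤ C exp (-2u)`.
-/

namespace Pool.Agent.HPP

open Complex MeasureTheory DirichletCharacter

private theorem gw_nonneg' (j v : ℝ) (n : ℕ) : 0 ≤ gw j v n := by
  unfold gw
  split_ifs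
  · exact le_rfl
  · exact (Real.exp_pos _).le

private theorem gw_le {j : ℝ} (hj : 0 < j) (a : ℕ) (v : ℝ) (n : ℕ) :
    |Real.log n - v| ^ a * gw j v n ≤
      ((a.factorial : ℝ) * Real.exp (9 * j / 4) * Real.exp (2 * v)) * ((n : ℝ) ^ 2)⁻¹ := by
  unfold gw
  split_ifs with hn
  · subst hn
    simp
  · have hn0 : (0 : ℝ) < n := by exact_mod_cast Nat.pos_of_ne_zero hn
    obtain ⟨u, hu⟩ : ∃ u : ℝ, u = Real.log n - v := ⟨_, rfl⟩
    have hlog : Real.log n = u + v := by rw [hu]; ring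
    have h1 : |u| ^ a ≤ a.factorial * Real.exp |u| := by
      have h2 := Real.pow_div_factorial_le_exp |u| (abs_nonneg u) a
      rw [div_le_iff₀ (by positivity)] at h2
      linarith
    have h3 : ((n : ℝ) ^ 2)⁻¹ = Real.exp (-2 * (u + v)) := by
      have h4 : (n : ℝ) = Real.exp (u + v) := by rw [← hlog, Real.exp_log hn0]
      rw [h4, ← Real.exp_nat_mul, ← Real.exp_neg]
      congr 1
      push_cast
      ring
    rw [← hu, h3]
    have h5 : |u| + -u ^ 2 / j ≤ 9 * j / 4 + 2 * v + -2 * (u + v) := by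
      have h6 : 0 ≤ (2 * |u| - 3 * j) ^ 2 / (4 * j) := by positivity
      have h7 : (2 * |u| - 3 * j) ^ 2 / (4 * j) = |u| ^ 2 / j - 3 * |u| + 9 * j / 4 := by
        field_simp
        ring
      rw [h7, sq_abs] at h6
      have h8 : u ≤ |u| := le_abs_self u
      have h9 : -u ^ 2 / j = -(u ^ 2 / j) := by ring
      rw [h9]
      linarith
    calc |u| ^ a * Real.exp (-u ^ 2 / j)
        ≤ (a.factorial * Real.exp |u|) * Real.exp (-u ^ 2 / j) := by gcongr
      _ = a.factorial * Real.exp (|u| + -u ^ 2 / j) := by rw [mul_assoc, ← Real.exp_add]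
      _ ≤ a.factorial * Real.exp (9 * j / 4 + 2 * v + -2 * (u + v)) := by gcongr
      _ = _ := by rw [Real.exp_add, Real.exp_add]; ring

theorem gw_summable {j : ℝ} (hj : 0 < j) (a : ℕ) (v : ℝ) :
    Summable fun n : ℕ => |Real.log n - v| ^ a * gw j v n := by
  have hs : Summable fun n : ℕ =>
      ((a.factorial : ℝ) * Real.exp (9 * j / 4) * Real.exp (2 * v)) * ((n : ℝ) ^ 2)⁻¹ :=
    (Real.summable_nat_pow_inv.2 (by norm_num)).mul_left _
  refine Summable.of_nonneg_of_le (fun n => ?_) (fun n => ?_) hs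
  · exact mul_nonneg (pow_nonneg (abs_nonneg _) _) (gw_nonneg' j v n)
  · exact gw_le hj a v n

private theorem norm_npow_le (n : ℕ) (hn : n ≠ 0) (t : ℝ) : ‖(n : ℂ) ^ (t * I)‖ = 1 := by
  rw [Complex.norm_natCast_cpow_of_pos (Nat.pos_of_ne_zero hn)]
  simp

private theorem term_summable {Q : ℕ} (χ : DirichletCharacter ℂ Q) {j : ℝ} (hj : 0 < j) (a : ℕ)
    (t v : ℝ) : Summable fun n : ℕ =>
      (((Real.log n - v) ^ a * gw j v n : ℝ) : ℂ) * χ (n : ZMod Q) * (n : ℂ) ^ (t * I) := by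
  refine Summable.of_norm_bounded (gw_summable hj a v) fun n => ?_
  rcases Nat.eq_zero_or_pos n with h0 | h0
  · subst h0
    simp [gw]
  · rw [norm_mul, norm_mul, norm_npow_le n h0.ne', mul_one, Complex.norm_real, Real.norm_eq_abs,
      abs_mul, abs_pow, abs_of_nonneg (gw_nonneg' j v n)]
    have h1 : ‖χ (n : ZMod Q)‖ ≤ 1 := χ.norm_le_one _
    have h2 : 0 ≤ |Real.log n - v| ^ a * gw j v n :=
      mul_nonneg (pow_nonneg (abs_nonneg _) _) (gw_nonneg' j v n)
    calc _ ≤ (|Real.log n - v| ^ a * gw j v n) * 1 := by gcongr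
      _ = _ := mul_one _

theorem TT_rep {Q : ℕ} [NeZero Q] (χ : DirichletCharacter ℂ Q) {j : ℝ} (hj : 0 < j) {a : ℕ}
    (ha : a ≤ 1) (t v : ℝ) : 2 * Real.pi * TT j a χ t v = KI 2 j a χ t v := by
  classical
  -- the summands
  obtain ⟨F, hF⟩ : ∃ F : ℕ → ℝ → ℂ, F = fun (n : ℕ) (y : ℝ) => KM j a ((2 : ℝ) + y * I) *
      cexp (((2 : ℝ) + y * I) * v) * LSeries.term (fun n => χ n) ((2 : ℝ) + y * I - t * I) n :=
    ⟨_, rfl⟩
  have hF0 : ∀ y, F 0 y = 0 := by
    intro y
    rw [hF]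
    simp
  have hFn : ∀ n : ℕ, n ≠ 0 → ∀ y, F n y = (χ (n : ZMod Q) * (n : ℂ) ^ (t * I)) *
      (KM j a ((2 : ℝ) + y * I) * cexp (-((2 : ℝ) + y * I) * ((Real.log n - v : ℝ) : ℂ))) := by
    intro n hn y
    have hn' : (n : ℂ) ≠ 0 := by exact_mod_cast hn
    rw [hF]
    simp only
    rw [LSeries.term_of_ne_zero hn, div_eq_mul_inv, ← Complex.cpow_neg]
    have h1 : (n : ℂ) ^ (-(((2 : ℝ) : ℂ) + y * I - t * I)) =
        (n : ℂ) ^ (t * I) * cexp (-((2 : ℝ) + y * I) * (Real.log n : ℂ)) := by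
      rw [show -(((2 : ℝ) : ℂ) + y * I - t * I) = t * I + -((2 : ℝ) + y * I) by ring,
        Complex.cpow_add _ _ hn', Complex.cpow_def_of_ne_zero hn' (-((2 : ℝ) + y * I)),
        ← Complex.natCast_log]
      ring_nf
    rw [h1]
    have h2 : cexp (-((2 : ℝ) + y * I) * ((Real.log n - v : ℝ) : ℂ)) =
        cexp (((2 : ℝ) + y * I) * v) * cexp (-((2 : ℝ) + y * I) * (Real.log n : ℂ)) := by
      rw [← Complex.exp_add]
      congr 1
      push_cast
      ring
    rw [h2]
    ring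
  have hnorm : ∀ n : ℕ, ∀ y, ‖F n y‖ ≤ ‖KM j a ((2 : ℝ) + y * I)‖ *
      (Real.exp (2 * v) * ((n : ℝ) ^ 2)⁻¹) := by
    intro n y
    rcases Nat.eq_zero_or_pos n with h0 | h0
    · subst h0
      rw [hF0, norm_zero]
      positivity
    · have hn0 : (0 : ℝ) < n := by exact_mod_cast h0
      rw [hFn n h0.ne' y, norm_mul, norm_mul, norm_mul, norm_npow_le n h0.ne', mul_one,
        Complex.norm_exp]
      have h1 : (-(((2 : ℝ) : ℂ) + y * I) * ((Real.log n - v : ℝ) : ℂ)).re =
          2 * v + -(2 * Real.log n) := by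
        rw [Complex.re_mul_ofReal]
        simp
        ring
      have h2 : Real.exp (-(2 * Real.log n)) = ((n : ℝ) ^ 2)⁻¹ := by
        rw [Real.exp_neg]
        congr 1
        rw [show 2 * Real.log n = Real.log ((n : ℝ) ^ 2) by rw [Real.log_pow]; norm_num]
        exact Real.exp_log (by positivity)
      rw [h1, Real.exp_add, h2]
      have h3 : ‖χ (n : ZMod Q)‖ ≤ 1 := χ.norm_le_one _
      have h4 : 0 ≤ ‖KM j a ((2 : ℝ) + y * I)‖ * (Real.exp (2 * v) * ((n : ℝ) ^ 2)⁻¹) := by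
        positivity
      calc _ ≤ 1 * (‖KM j a ((2 : ℝ) + y * I)‖ * (Real.exp (2 * v) * ((n : ℝ) ^ 2)⁻¹)) := by
            gcongr
        _ = _ := one_mul _
  have hKi : Integrable fun y : ℝ => ‖KM j a ((2 : ℝ) + y * I)‖ := by
    have h1 := KM_integrable hj ha 2 0 0
    refine h1.congr (Filter.Eventually.of_forall fun y => ?_)
    simp
  have hcont : ∀ n : ℕ, Continuous (F n) := by
    intro n
    rcases Nat.eq_zero_or_pos n with h0 | h0
    · subst h0
      have : F 0 = fun _ => 0 := funext hF0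
      rw [this]
      exact continuous_const
    · have h1 : F n = fun y : ℝ => (χ (n : ZMod Q) * (n : ℂ) ^ (t * I)) *
          (KM j a ((2 : ℝ) + y * I) * cexp (-((2 : ℝ) + y * I) * ((Real.log n - v : ℝ) : ℂ))) :=
        funext (hFn n h0.ne')
      rw [h1]
      have := (KM_diff j a).continuous
      fun_prop
  have hint : ∀ n : ℕ, Integrable (F n) := by
    intro n
    refine (hKi.mul_const (Real.exp (2 * v) * ((n : ℝ) ^ 2)⁻¹)).mono' ?_ ?_
    · exact (hcont n).aestronglyMeasurable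
    · exact Filter.Eventually.of_forall fun y => hnorm n y
  have hsum : Summable fun n : ℕ => ∫ y, ‖F n y‖ := by
    have h1 : Summable fun n : ℕ => (∫ y : ℝ, ‖KM j a ((2 : ℝ) + y * I)‖) *
        (Real.exp (2 * v) * ((n : ℝ) ^ 2)⁻¹) :=
      ((Real.summable_nat_pow_inv.2 (by norm_num)).mul_left _).mul_left _
    refine Summable.of_nonneg_of_le (fun n => integral_nonneg fun y => norm_nonneg _)
      (fun n => ?_) h1
    rw [← integral_mul_const]
    exact integral_mono (hint n).norm (hKi.mul_const _) fun y => hnorm n y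
  have hS := hasSum_integral_of_summable_integral_norm hint hsum
  -- the sum
  have hval : ∀ n : ℕ, ∫ y, F n y = 2 * Real.pi *
      ((((Real.log n - v) ^ a * gw j v n : ℝ) : ℂ) * χ (n : ZMod Q) * (n : ℂ) ^ (t * I)) := by
    intro n
    rcases Nat.eq_zero_or_pos n with h0 | h0
    · subst h0
      have : F 0 = fun _ => 0 := funext hF0
      rw [this]
      simp [gw]
    · have h1 : F n = fun y : ℝ => (χ (n : ZMod Q) * (n : ℂ) ^ (t * I)) *
          (KM j a ((2 : ℝ) + y * I) * cexp (-((2 : ℝ) + y * I) * ((Real.log n - v : ℝ) : ℂ))) :=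
        funext (hFn n h0.ne')
      have h2 := KM_inv hj ha 2 (Real.log n - v)
      rw [h1, integral_const_mul, h2]
      have h3 : gw j v n = Real.exp (-(Real.log n - v) ^ 2 / j) := by
        unfold gw
        rw [if_neg h0.ne']
      rw [h3]
      ring
  have hL : ∀ y : ℝ, ∑' n, F n y = KM j a ((2 : ℝ) + y * I) * cexp (((2 : ℝ) + y * I) * v) *
      LFunction χ ((2 : ℝ) + y * I - t * I) := by
    intro y
    rw [LFunction_eq_LSeries χ (by simp)]
    rw [hF]
    simp only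
    rw [tsum_mul_left]
    rfl
  have h4 : KI 2 j a χ t v = ∫ y, ∑' n, F n y := by
    unfold KI
    refine integral_congr_ae (Filter.Eventually.of_forall fun y => ?_)
    simp only
    rw [hL y]
  rw [h4, ← hS.tsum_eq]
  unfold TT SS
  rw [← tsum_mul_left]
  exact tsum_congr fun n => (hval n).symm

theorem SS_split {Q : ℕ} (χ : DirichletCharacter ℂ Q) {j : ℝ} (hj : 0 < j) (t v : ℝ) :
    SS (fun n => ((Real.log n * gw j v n : ℝ) : ℂ)) χ t = TT j 1 χ t v + v * TT j 0 χ t v := by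
  unfold TT SS
  have h1 := term_summable χ hj 1 t v
  have h0 := term_summable χ hj 0 t v
  rw [← tsum_mul_left, ← h1.tsum_add (h0.mul_left _)]
  refine tsum_congr fun n => ?_
  push_cast
  ring

end Pool.Agent.HPP
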