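import Pool.Agent.ZC.Residue
import Pool.Agent.HPP.LGrow
import Pool.Agent.HPP.LRep

/-!
# HPP/LShift: moving the line

`F(s) = KM j a s * exp (s v) * H(s - it)`, `H(z) = (z - 1) L(z, χ)` made entire: for `χ ≠ 1` it is entire
(`differentiable_LFunction`), for `χ = 1` it is Mathlib's `LFunctionTrivChar₁ Q`
(`differentiable_LFunctionTrivChar₁`), with value `rs χ` at `z = 1` in both cases (`0` for `χ ≠ 1`).
`ZC.strip_residue` on `c ≤ Re s ≤ 2` with `ρ = 1 + it`: `F(s) / (s - ρ) = KM e^(sv) L(s - it, χ)` on the two lines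
(`s - it ≠ 1` there). The bound `‖F s‖ ≤ C / (1 + (im s)²)` (`C` may depend on everything): `KM_bound`,
`L_strip_growth` (by continuity also at `z = 1`), `exp (-j y²/4) (1 + |y|) exp (5 |y - t|) ≤ C / (1 + y²)`.
`KI_integrable`: same bound on the line (`ZC.line_integrable`), or continuity and `KM_integrable`.
-/

namespace Pool.Agent.HPP

open Complex MeasureTheory DirichletCharacter

/-- `(z - 1) L(z, χ)` made entire, with its growth -/
private theorem exH {Q : ℕ} [NeZero Q] (χ : DirichletCharacter ℂ Q) :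
    ∃ H : ℂ → ℂ, Differentiable ℂ H ∧ H 1 = rs χ ∧
      (∀ z : ℂ, z ≠ 1 → H z = (z - 1) * LFunction χ z) ∧
      ∃ C : ℝ, 0 ≤ C ∧ ∀ s : ℂ, -(3 / 2) ≤ s.re → s.re ≤ 2 → ‖H s‖ ≤ C * Real.exp (5 * |s.im|) := by
  classical
  have hmain : ∃ H : ℂ → ℂ, Differentiable ℂ H ∧ H 1 = rs χ ∧
      (∀ z : ℂ, z ≠ 1 → H z = (z - 1) * LFunction χ z) := by
    by_cases hχ : χ = 1
    · subst hχ
      refine ⟨LFunctionTrivChar₁ Q, differentiable_LFunctionTrivChar₁ Q, ?_, ?_⟩
      · simp [LFunctionTrivChar₁, rs]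
      · intro z hz
        simp [LFunctionTrivChar₁, Function.update_of_ne hz]
    · refine ⟨fun z => (z - 1) * LFunction χ z, ?_, ?_, ?_⟩
      · exact (differentiable_id.sub_const 1).mul (differentiable_LFunction hχ)
      · simp [rs, hχ]
      · intro z _
        rfl
  obtain ⟨H, hd, h1, h2⟩ := hmain
  refine ⟨H, hd, h1, h2, ?_⟩
  obtain ⟨C, hC1, hC⟩ := L_strip_growth χ
  refine ⟨C + ‖rs χ‖, by positivity, ?_⟩
  intro s hs1 hs2
  by_cases hs : s = 1
  · subst hs
    rw [h1]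
    have h3 : (1 : ℝ) ≤ Real.exp (5 * |(1 : ℂ).im|) := Real.one_le_exp (by positivity)
    have h4 : 0 ≤ ‖rs χ‖ := norm_nonneg _
    nlinarith
  · rw [h2 s hs, add_mul]
    have h3 := hC s hs1 hs2
    have h4 : 0 ≤ ‖rs χ‖ * Real.exp (5 * |s.im|) := by positivity
    linarith

/-- `(1 + |y|) exp (-j y² / 4) exp (5 |y|) ≤ exp (64 / j) / (1 + y²)` -/
private theorem gauss_dec {j : ℝ} (hj : 0 < j) (y : ℝ) :
    (1 + |y|) * Real.exp (-j * y ^ 2 / 4) * Real.exp (5 * |y|) ≤ Real.exp (64 / j) / (1 + y ^ 2) := by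
  rw [le_div_iff₀ (by positivity)]
  have h1 : 1 + |y| ≤ Real.exp |y| := by
    have := Real.add_one_le_exp |y|
    linarith
  have h2 : 1 + y ^ 2 ≤ Real.exp |y| * Real.exp |y| := by
    have h3 : 1 + y ^ 2 ≤ (1 + |y|) * (1 + |y|) := by
      rw [← sq_abs y]
      nlinarith [abs_nonneg y]
    exact h3.trans (mul_le_mul h1 h1 (by positivity) (by positivity))
  calc (1 + |y|) * Real.exp (-j * y ^ 2 / 4) * Real.exp (5 * |y|) * (1 + y ^ 2)
      ≤ Real.exp |y| * Real.exp (-j * y ^ 2 / 4) * Real.exp (5 * |y|) *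
        (Real.exp |y| * Real.exp |y|) := by gcongr
    _ = Real.exp (8 * |y| - j * y ^ 2 / 4) := by
        rw [← Real.exp_add, ← Real.exp_add, ← Real.exp_add, ← Real.exp_add]
        congr 1
        ring
    _ ≤ Real.exp (64 / j) := by
        apply Real.exp_le_exp.2
        have h5 : 0 ≤ (16 - j * |y|) ^ 2 / (4 * j) := by positivity
        have h6 : (16 - j * |y|) ^ 2 / (4 * j) = 64 / j - 8 * |y| + j / 4 * |y| ^ 2 := by
          field_simp
          ring
        have h7 : |y| ^ 2 = y ^ 2 := sq_abs y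
        rw [h6, h7] at h5
        linarith

/-- growth of `F(s) = KM(s) exp (s v) H(s - it)` in the strip -/
private theorem F_bound {j : ℝ} (hj : 0 < j) {a : ℕ} (ha : a ≤ 1) (t v : ℝ) {H : ℂ → ℂ} {C : ℝ}
    (hC0 : 0 ≤ C)
    (hC : ∀ s : ℂ, -(3 / 2) ≤ s.re → s.re ≤ 2 → ‖H s‖ ≤ C * Real.exp (5 * |s.im|)) :
    ∃ D : ℝ, 0 ≤ D ∧ ∀ s : ℂ, -(3 / 2) ≤ s.re → s.re ≤ 2 →
      ‖KM j a s * cexp (s * v) * H (s - t * I)‖ ≤ D / (1 + s.im ^ 2) := by
  obtain ⟨B, hB1, hB⟩ := KM_bound hj
  refine ⟨B * Real.exp (2 * |v|) * (C * Real.exp (5 * |t|)) * Real.exp (64 / j), by positivity, ?_⟩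
  intro s hs1 hs2
  have hk := hB a ha s (by rw [abs_le]; constructor <;> linarith)
  have hre : (s - t * I).re = s.re := by simp
  have him : (s - t * I).im = s.im - t := by simp
  have hH := hC (s - t * I) (by rw [hre]; exact hs1) (by rw [hre]; exact hs2)
  rw [him] at hH
  have hH2 : ‖H (s - t * I)‖ ≤ C * (Real.exp (5 * |t|) * Real.exp (5 * |s.im|)) := by
    refine hH.trans (mul_le_mul_of_nonneg_left ?_ hC0)
    rw [← Real.exp_add]
    apply Real.exp_le_exp.2
    have := abs_sub s.im t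
    linarith
  have he : ‖cexp (s * v)‖ ≤ Real.exp (2 * |v|) := by
    rw [Complex.norm_exp]
    apply Real.exp_le_exp.2
    have h1 : (s * (v : ℂ)).re = s.re * v := by simp
    rw [h1]
    have h2 : |s.re| ≤ 2 := by rw [abs_le]; constructor <;> linarith
    calc s.re * v ≤ |s.re * v| := le_abs_self _
      _ = |s.re| * |v| := abs_mul _ _
      _ ≤ 2 * |v| := mul_le_mul_of_nonneg_right h2 (abs_nonneg v)
  rw [norm_mul, norm_mul]
  calc ‖KM j a s‖ * ‖cexp (s * v)‖ * ‖H (s - t * I)‖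
      ≤ (B * (1 + |s.im|) * Real.exp (-j * s.im ^ 2 / 4)) * Real.exp (2 * |v|) *
        (C * (Real.exp (5 * |t|) * Real.exp (5 * |s.im|))) := by gcongr
    _ = B * Real.exp (2 * |v|) * (C * Real.exp (5 * |t|)) *
        ((1 + |s.im|) * Real.exp (-j * s.im ^ 2 / 4) * Real.exp (5 * |s.im|)) := by ring
    _ ≤ B * Real.exp (2 * |v|) * (C * Real.exp (5 * |t|)) *
        (Real.exp (64 / j) / (1 + s.im ^ 2)) := by
        apply mul_le_mul_of_nonneg_left (gauss_dec hj s.im)
        positivity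
    _ = _ := by ring

/-- the integrand on the line `Re s = c ≠ 1` -/
private theorem int_eq {Q : ℕ} [NeZero Q] (χ : DirichletCharacter ℂ Q) (j : ℝ) (a : ℕ) (t v : ℝ)
    {c : ℝ} (hc : c ≠ 1) {H : ℂ → ℂ} (hH : ∀ z : ℂ, z ≠ 1 → H z = (z - 1) * LFunction χ z) (y : ℝ) :
    (KM j a (c + y * I) * cexp ((c + y * I) * v) * H (c + y * I - t * I)) /
      (c + y * I - (1 + t * I)) =
    KM j a (c + y * I) * cexp ((c + y * I) * v) * LFunction χ (c + y * I - t * I) := by
  have hne : (c + y * I - t * I : ℂ) ≠ 1 := by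
    intro h
    have := congrArg Complex.re h
    simp at this
    exact hc this
  have hne2 : (c + y * I - (1 + t * I) : ℂ) ≠ 0 := by
    intro h
    apply hne
    linear_combination h
  rw [hH _ hne, div_eq_iff hne2]
  ring

theorem KI_integrable {Q : ℕ} [NeZero Q] (χ : DirichletCharacter ℂ Q) {j : ℝ} (hj : 0 < j) {a : ℕ}
    (ha : a ≤ 1) (t v : ℝ) {c : ℝ} (hc : -(3 / 2) ≤ c) (hc1 : c < 1) :
    Integrable fun y : ℝ =>
      KM j a (c + y * I) * cexp ((c + y * I) * v) * LFunction χ (c + y * I - t * I) := by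
  obtain ⟨H, hd, _, hH, C, hC0, hC⟩ := exH χ
  obtain ⟨D, hD0, hD⟩ := F_bound hj ha t v hC0 hC
  have hx : 0 < 1 - c := by linarith
  have hre : ∀ y : ℝ, 1 - c ≤ ‖(c + y * I - (1 + t * I) : ℂ)‖ := by
    intro y
    have h1 := Complex.abs_re_le_norm (c + y * I - (1 + t * I) : ℂ)
    have h2 : (c + y * I - (1 + t * I) : ℂ).re = c - 1 := by simp
    rw [h2] at h1
    have h3 := neg_abs_le (c - 1)
    linarith
  have hFd : Differentiable ℂ (fun s : ℂ => KM j a s * cexp (s * v) * H (s - t * I)) := by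
    have h1 := KM_diff j a
    fun_prop
  have hint := ZC.line_integrable (a := c)
    (F := fun s => (KM j a s * cexp (s * v) * H (s - t * I)) / (s - (1 + t * I)))
    (C := D / (1 - c)) (by
      intro y
      have hne : (c + y * I - (1 + t * I) : ℂ) ≠ 0 := by
        rw [← norm_pos_iff]
        exact hx.trans_le (hre y)
      exact (hFd.continuous.continuousAt).div (by fun_prop) hne) (by
      intro y
      have h4 := hD (c + y * I) (by simpa using hc) (by simp; linarith)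
      have h5 : (c + y * I : ℂ).im = y := by simp
      rw [h5] at h4
      simp only [norm_div]
      calc ‖KM j a (c + y * I) * cexp ((c + y * I) * v) * H (c + y * I - t * I)‖ /
            ‖(c + y * I - (1 + t * I) : ℂ)‖
          ≤ ‖KM j a (c + y * I) * cexp ((c + y * I) * v) * H (c + y * I - t * I)‖ / (1 - c) := by
            gcongr
            exact hre y
        _ ≤ (D / (1 + y ^ 2)) / (1 - c) := by gcongr
        _ = D / (1 - c) / (1 + y ^ 2) := by
            rw [div_div, div_div, mul_comm])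
  refine hint.congr (Filter.Eventually.of_forall fun y => ?_)
  exact int_eq χ j a t v (by linarith) hH y

theorem TT_shift {Q : ℕ} [NeZero Q] (χ : DirichletCharacter ℂ Q) {j : ℝ} (hj : 0 < j) {a : ℕ}
    (ha : a ≤ 1) (t v : ℝ) {c : ℝ} (hc : -(3 / 2) ≤ c) (hc1 : c < 1) :
    2 * Real.pi * TT j a χ t v =
      KI c j a χ t v + 2 * Real.pi * (rs χ * KM j a (1 + t * I) * cexp ((1 + t * I) * v)) := by
  obtain ⟨H, hd, h1, hH, C, hC0, hC⟩ := exH χ
  obtain ⟨D, hD0, hD⟩ := F_bound hj ha t v hC0 hC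
  have hFd : Differentiable ℂ (fun s : ℂ => KM j a s * cexp (s * v) * H (s - t * I)) := by
    have h1 := KM_diff j a
    fun_prop
  have hres := ZC.strip_residue (a := c) (b := 2) (ρ := 1 + t * I) (by simpa using hc1)
    (by simp) (C := D) hFd (fun s hs1 hs2 => hD s (hc.trans hs1) hs2)
  have e1 : (∫ y : ℝ, (KM j a ((2 : ℝ) + y * I) * cexp (((2 : ℝ) + y * I) * v) *
      H ((2 : ℝ) + y * I - t * I)) / ((2 : ℝ) + y * I - (1 + t * I))) = KI 2 j a χ t v := by
    unfold KI
    congr 1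
    funext y
    exact int_eq χ j a t v (by norm_num) hH y
  have e2 : (∫ y : ℝ, (KM j a (c + y * I) * cexp ((c + y * I) * v) *
      H (c + y * I - t * I)) / (c + y * I - (1 + t * I))) = KI c j a χ t v := by
    unfold KI
    congr 1
    funext y
    exact int_eq χ j a t v (by linarith) hH y
  rw [e1, e2] at hres
  have h3 : H (1 + t * I - t * I) = rs χ := by
    rw [add_sub_cancel_right, h1]
  rw [h3] at hres
  rw [TT_rep χ hj ha t v]
  linear_combination hres

end Pool.Agent.HPP
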