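import Pool.Agent.HPP.LDefs

/-!
# HPP/LOne: `L(1 + iy, χ) = O(log (M (2 + |y|)))`

* `L_one_line`: let `s = σ + iy`, `1 < σ ≤ 2`, `N = ⌈M (2 + |y|)⌉`. `L(s) = ∑_{n ≤ N} χ(n) n^(-s) + LSeries f s`,
  `f n = if n ≤ N then 0 else χ n`. First part: `≤ ∑_{n ≤ N} 1/n ≤ 1 + log N` (`harmonic_le_one_add_log`). The
  partial sums of `f` are `0` up to `N` and bounded by `M` (`∑` over a period is `0` since `χ ≠ 1`; see the
  private lemmas `sum_period`, `sum_block`, `norm_sum_range_le` of `FZ/BLBound`, use the difference of two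
  partial sums: bound `2 M` is fine). `LSeries_eq_mul_integral` with `r = 0`: `|LSeries f s| ≤
  |s| ∫_N^∞ 2 M t^(-σ - 1) dt = |s| 2 M N^(-σ) / σ ≤ (2 + |y|) 2 M / N ≤ 2`. So `‖L(s)‖ ≤ 3 + log N` for all
  `σ > 1`; let `σ → 1+` (`differentiable_LFunction hχ` is continuous). `M (2 + |y|) ≥ 2`, `log 2 > 1/2`.
* `zeta_one_line`: the same with `M = 1`, `f n = if n ≤ N then 0 else 1`, partial sums `⌊t⌋ - N` for `t ≥ N`:
  `LSeries f s = s ∫_N^∞ (⌊t⌋ - N) t^(-s-1) dt = s ∫_N^∞ (t - N) t^(-s-1) dt - s ∫_N^∞ fract(t) t^(-s-1) dt`, the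
  first is `N^(1-s)/(s - 1)` (norm `≤ 1/|y| ≤ 1`), the second at most `|s| N^(-σ) / σ`. Continuity of
  `riemannZeta` at `1 + iy`, `y ≠ 0`: `differentiableAt_riemannZeta`.
-/

namespace Pool.Agent.HPP

open Complex DirichletCharacter

open Set MeasureTheory Filter Topology Asymptotics in
private lemma lo_tail (f : ℕ → ℂ) (c : ℂ) (hc : ‖c‖ ≤ 1) {B : ℝ} (hB : 0 ≤ B)
    (hS : ∀ n : ℕ, ‖∑ k ∈ Finset.Icc 1 n, f k - c * n‖ ≤ B) {s : ℂ} (h1 : 1 < s.re)
    (hsum : LSeriesSummable f s) {N : ℕ} (hN : 1 ≤ N) :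
    ‖LSeries (fun n => if n ≤ N then 0 else f n) s‖ ≤
      ‖c‖ / ‖s - 1‖ + ‖s‖ * (2 * B + 1) / N := by
  set f' : ℕ → ℂ := fun n => if n ≤ N then 0 else f n with hf'
  have hN1 : (1 : ℝ) ≤ N := by exact_mod_cast hN
  have hN0 : (0 : ℝ) < N := by linarith
  have hN0' : (N : ℂ) ≠ 0 := by exact_mod_cast (by omega : N ≠ 0)
  have hs1 : s - 1 ≠ 0 := by
    intro h
    have : s = 1 := by linear_combination h
    rw [this] at h1
    simp at h1
  have hs0 : s ≠ 0 := by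
    intro h
    rw [h] at h1
    simp at h1
    linarith
  -- partial sums
  have hP0 : ∀ n : ℕ, n ≤ N → ∑ k ∈ Finset.Icc 1 n, f' k = 0 := by
    intro n hn
    apply Finset.sum_eq_zero
    intro k hk
    rw [Finset.mem_Icc] at hk
    simp only [hf']
    rw [if_pos (by omega)]
  have hP1 : ∀ n : ℕ, N ≤ n → ∑ k ∈ Finset.Icc 1 n, f' k =
      ∑ k ∈ Finset.Icc 1 n, f k - ∑ k ∈ Finset.Icc 1 N, f k := by
    intro n hn
    induction n, hn using Nat.le_induction with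
    | base => rw [hP0 N le_rfl, sub_self]
    | succ n hn ih =>
      rw [Finset.sum_Icc_succ_top (by omega), Finset.sum_Icc_succ_top (by omega), ih]
      simp only [hf']
      rw [if_neg (by omega)]
      ring
  have hP2 : ∀ n : ℕ, N ≤ n → ‖∑ k ∈ Finset.Icc 1 n, f' k - c * (n - N)‖ ≤ 2 * B := by
    intro n hn
    rw [hP1 n hn]
    have e : ∑ k ∈ Finset.Icc 1 n, f k - ∑ k ∈ Finset.Icc 1 N, f k - c * (n - N) =
        (∑ k ∈ Finset.Icc 1 n, f k - c * n) - (∑ k ∈ Finset.Icc 1 N, f k - c * N) := by ring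
    rw [e]
    refine (norm_sub_le _ _).trans ?_
    linarith [hS n, hS N]
  have hsum' : LSeriesSummable f' s := by
    rw [← LSeriesSummable_congr' s (f := f) (g := f')] 
    · exact hsum
    · filter_upwards [eventually_gt_atTop N] with n hn
      simp only [hf']
      rw [if_neg (by omega)]
  have hO : (fun n : ℕ => ∑ k ∈ Finset.Icc 1 n, f' k) =O[atTop] fun n : ℕ => (n : ℝ) ^ (1 : ℝ) := by
    apply IsBigO.of_bound (‖c‖ + 2 * B)
    filter_upwards [eventually_ge_atTop N] with n hn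
    have hn1 : (1 : ℝ) ≤ n := by exact_mod_cast hN.trans hn
    rw [Real.rpow_one, Real.norm_of_nonneg (by positivity)]
    have e : ∑ k ∈ Finset.Icc 1 n, f' k =
        (∑ k ∈ Finset.Icc 1 n, f' k - c * (n - N)) + c * (n - N) := by ring
    rw [e]
    have h3 : ‖c * ((n : ℂ) - N)‖ ≤ ‖c‖ * n := by
      rw [norm_mul]
      apply mul_le_mul_of_nonneg_left _ (norm_nonneg _)
      have : ((n : ℂ) - N) = (((n : ℝ) - N : ℝ) : ℂ) := by push_cast; ring
      rw [this, Complex.norm_real, Real.norm_of_nonneg (by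
        have : (N : ℝ) ≤ n := by exact_mod_cast hn
        linarith)]
      linarith
    refine (norm_add_le _ _).trans ?_
    have h4 := hP2 n hn
    nlinarith [norm_nonneg c]
  rw [LSeries_eq_mul_integral f' zero_le_one h1 hsum' hO]
  -- the error
  set E : ℝ → ℂ := fun t => (∑ k ∈ Finset.Icc 1 ⌊t⌋₊, f' k) - c * (t - N) with hE
  have hEm : Measurable E := by
    apply Measurable.sub
    · exact (measurable_from_nat (f := fun n : ℕ => ∑ k ∈ Finset.Icc 1 n, f' k)).comp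
        Nat.measurable_floor
    · exact ((Complex.measurable_ofReal).sub_const _).const_mul _
  have hEb : ∀ t ∈ Ioi (N : ℝ), ‖E t‖ ≤ 2 * B + 1 := by
    intro t ht
    have ht' : (N : ℝ) < t := ht
    have ht0 : 0 ≤ t := by linarith
    have hfl : N ≤ ⌊t⌋₊ := Nat.le_floor ht'.le
    have e : E t = (∑ k ∈ Finset.Icc 1 ⌊t⌋₊, f' k - c * (⌊t⌋₊ - N)) + c * (⌊t⌋₊ - t) := by
      simp only [hE]
      ring
    rw [e]
    refine (norm_add_le _ _).trans (add_le_add (hP2 _ hfl) ?_)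
    rw [norm_mul]
    have h3 : ((⌊t⌋₊ : ℂ) - (t : ℂ)) = (((⌊t⌋₊ : ℝ) - t : ℝ) : ℂ) := by push_cast; ring
    rw [h3, Complex.norm_real]
    have h4 : ‖((⌊t⌋₊ : ℝ) - t)‖ ≤ 1 := by
      rw [Real.norm_eq_abs, abs_le]
      have h2 := Nat.floor_le ht0
      have h3 := Nat.lt_floor_add_one t
      constructor <;> linarith
    calc ‖c‖ * ‖((⌊t⌋₊ : ℝ) - t)‖ ≤ 1 * 1 := mul_le_mul hc h4 (norm_nonneg _) zero_le_one
      _ = 1 := one_mul 1
  have hint0 : IntegrableOn (fun t : ℝ => (t : ℂ) ^ (-s)) (Ioi (N : ℝ)) :=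
    integrableOn_Ioi_cpow_of_lt (by rw [neg_re]; linarith) hN0
  have hint1 : IntegrableOn (fun t : ℝ => (t : ℂ) ^ (-(s + 1))) (Ioi (N : ℝ)) :=
    integrableOn_Ioi_cpow_of_lt (by simp; linarith) hN0
  have hre : (-(s + 1)).re = -s.re - 1 := by simp; ring
  have hb : ∀ t ∈ Ioi (N : ℝ), ‖E t * (t : ℂ) ^ (-(s + 1))‖ ≤ (2 * B + 1) * t ^ (-s.re - 1) := by
    intro t ht
    have ht0 : 0 < t := by have := mem_Ioi.1 ht; linarith
    rw [norm_mul, Complex.norm_cpow_eq_rpow_re_of_pos ht0, hre]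
    exact mul_le_mul_of_nonneg_right (hEb t ht) (Real.rpow_nonneg ht0.le _)
  have hintr : IntegrableOn (fun t : ℝ => (2 * B + 1) * t ^ (-s.re - 1)) (Ioi (N : ℝ)) :=
    (integrableOn_Ioi_rpow_of_lt (by linarith) hN0).const_mul _
  have hint2 : IntegrableOn (fun t : ℝ => E t * (t : ℂ) ^ (-(s + 1))) (Ioi (N : ℝ)) := by
    refine Integrable.mono' hintr ?_ ?_
    · apply Measurable.aestronglyMeasurable
      apply hEm.mul
      fun_prop
    · exact (ae_restrict_mem measurableSet_Ioi).mono fun t ht => hb t ht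
  have hsub : ∫ t in Ioi (1 : ℝ), (∑ k ∈ Finset.Icc 1 ⌊t⌋₊, f' k) * (t : ℂ) ^ (-(s + 1)) =
      ∫ t in Ioi (N : ℝ), (∑ k ∈ Finset.Icc 1 ⌊t⌋₊, f' k) * (t : ℂ) ^ (-(s + 1)) := by
    apply setIntegral_eq_of_subset_of_forall_sdiff_eq_zero measurableSet_Ioi
      (Ioi_subset_Ioi hN1)
    intro t ht
    have h3 : t ≤ N := not_lt.1 ht.2
    rw [hP0 _ (by
      have := Nat.floor_le_floor h3
      rwa [Nat.floor_natCast] at this), zero_mul]
  have hsplit : ∫ t in Ioi (N : ℝ), (∑ k ∈ Finset.Icc 1 ⌊t⌋₊, f' k) * (t : ℂ) ^ (-(s + 1)) =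
      ∫ t in Ioi (N : ℝ), ((c * (t : ℂ) ^ (-s) - c * N * (t : ℂ) ^ (-(s + 1))) +
        E t * (t : ℂ) ^ (-(s + 1))) := by
    apply setIntegral_congr_fun measurableSet_Ioi
    intro t ht
    have ht0 : (t : ℂ) ≠ 0 := by
      have := mem_Ioi.1 ht
      exact_mod_cast (by linarith : t ≠ 0)
    have e1 : (t : ℂ) ^ (-s) = t * (t : ℂ) ^ (-(s + 1)) := by
      rw [show -s = 1 + (-(s + 1)) by ring, cpow_add _ _ ht0, cpow_one]
    simp only [hE]
    rw [e1]
    ring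
  have hI0 : Integrable (fun t : ℝ => c * (t : ℂ) ^ (-s)) (volume.restrict (Ioi (N : ℝ))) :=
    hint0.const_mul c
  have hI1 : Integrable (fun t : ℝ => c * N * (t : ℂ) ^ (-(s + 1)))
      (volume.restrict (Ioi (N : ℝ))) := hint1.const_mul (c * N)
  have hI2 : Integrable (fun t : ℝ => c * (t : ℂ) ^ (-s) - c * N * (t : ℂ) ^ (-(s + 1)))
      (volume.restrict (Ioi (N : ℝ))) := hI0.sub hI1
  rw [hsub, hsplit, integral_add hI2 hint2, integral_sub hI0 hI1, integral_const_mul,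
    integral_const_mul, integral_Ioi_cpow_of_lt (by rw [neg_re]; linarith) hN0,
    integral_Ioi_cpow_of_lt (by simp; linarith) hN0]
  have e5 : s * ((c * (-((N : ℝ) : ℂ) ^ (-s + 1) / (-s + 1)) -
      c * N * (-((N : ℝ) : ℂ) ^ (-(s + 1) + 1) / (-(s + 1) + 1))) +
      ∫ t in Ioi (N : ℝ), E t * (t : ℂ) ^ (-(s + 1))) =
      c * (N : ℂ) ^ (1 - s) / (s - 1) + s * ∫ t in Ioi (N : ℝ), E t * (t : ℂ) ^ (-(s + 1)) := by
    have e6 : ((N : ℝ) : ℂ) ^ (-s + 1) = N * ((N : ℂ) ^ (-s)) := by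
      rw [ofReal_natCast, add_comm, cpow_add _ _ hN0', cpow_one]
    have e7 : ((N : ℝ) : ℂ) ^ (-(s + 1) + 1) = (N : ℂ) ^ (-s) := by
      rw [ofReal_natCast]; congr 1; ring
    have e8 : (N : ℂ) ^ (1 - s) = N * ((N : ℂ) ^ (-s)) := by
      rw [sub_eq_add_neg, cpow_add _ _ hN0', cpow_one]
    rw [e6, e7, e8]
    have e9 : -s + 1 ≠ 0 := by
      intro h; apply hs1; linear_combination -h
    have e10 : -(s + 1) + 1 ≠ 0 := by
      intro h; apply hs0; linear_combination -h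
    rw [show -(s + 1) + 1 = -s by ring, show -s + 1 = -(s - 1) by ring]
    field_simp
    ring
  rw [e5]
  refine (norm_add_le _ _).trans (add_le_add ?_ ?_)
  · rw [norm_div, norm_mul]
    apply div_le_div_of_nonneg_right _ (norm_nonneg _)
    have : ‖(N : ℂ) ^ (1 - s)‖ ≤ 1 := by
      rw [Complex.norm_natCast_cpow_of_pos (by omega)]
      apply Real.rpow_le_one_of_one_le_of_nonpos hN1
      simp
      linarith
    calc ‖c‖ * ‖(N : ℂ) ^ (1 - s)‖ ≤ ‖c‖ * 1 := mul_le_mul_of_nonneg_left this (norm_nonneg _)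
      _ = ‖c‖ := mul_one _
  · rw [norm_mul, mul_div_assoc]
    apply mul_le_mul_of_nonneg_left _ (norm_nonneg _)
    refine (norm_integral_le_of_norm_le hintr
      ((ae_restrict_mem measurableSet_Ioi).mono hb)).trans ?_
    rw [integral_const_mul, integral_Ioi_rpow_of_lt (by linarith) hN0]
    rw [show -s.re - 1 + 1 = -s.re by ring]
    rw [neg_div_neg_eq]
    rw [div_eq_mul_inv (2 * B + 1)]
    apply mul_le_mul_of_nonneg_left _ (by linarith)
    have h5 : (N : ℝ) ^ (-s.re) ≤ (N : ℝ) ^ (-1 : ℝ) :=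
      Real.rpow_le_rpow_of_exponent_le hN1 (by linarith)
    rw [Real.rpow_neg_one] at h5
    have h6 : 0 ≤ (N : ℝ) ^ (-s.re) := Real.rpow_nonneg hN0.le _
    rw [div_le_iff₀ (by linarith)]
    have h7 : 0 < (N : ℝ)⁻¹ := inv_pos.2 hN0
    nlinarith

open Set MeasureTheory Filter Topology Asymptotics in
private lemma lo_main (f : ℕ → ℂ) (hf : ∀ n, ‖f n‖ ≤ 1) (c : ℂ) (hc : ‖c‖ ≤ 1) {B : ℝ}
    (hB : 0 ≤ B)
    (hS : ∀ n : ℕ, ‖∑ k ∈ Finset.Icc 1 n, f k - c * n‖ ≤ B) {s : ℂ} (h1 : 1 < s.re)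
    (hsum : LSeriesSummable f s) {N : ℕ} (hN : 1 ≤ N) :
    ‖LSeries f s‖ ≤ 1 + Real.log N + ‖c‖ / ‖s - 1‖ + ‖s‖ * (2 * B + 1) / N := by
  have ht := lo_tail f c hc hB hS h1 hsum hN
  have hN1 : (1 : ℝ) ≤ N := by exact_mod_cast hN
  set f' : ℕ → ℂ := fun n => if n ≤ N then 0 else f n with hf'
  set f0 : ℕ → ℂ := fun n => if n ≤ N then f n else 0 with hf0
  have hsum' : LSeriesSummable f' s := by
    rw [← LSeriesSummable_congr' s (f := f) (g := f')]
    · exact hsum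
    · filter_upwards [eventually_gt_atTop N] with n hn
      simp only [hf']
      rw [if_neg (by omega)]
  have hz : ∀ n ∉ Finset.range (N + 1), LSeries.term f0 s n = 0 := by
    intro n hn
    rw [Finset.mem_range, not_lt] at hn
    rw [LSeries.term_of_ne_zero (by omega)]
    simp only [hf0]
    rw [if_neg (by omega), zero_div]
  have hsum0 : LSeriesSummable f0 s := summable_of_ne_finset_zero hz
  have hadd : f = f0 + f' := by
    ext n
    simp only [hf0, hf', Pi.add_apply]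
    split_ifs <;> simp
  have e1 : LSeries f s = LSeries f0 s + LSeries f' s := by
    conv_lhs => rw [hadd]
    exact LSeries_add hsum0 hsum'
  rw [e1]
  refine (norm_add_le _ _).trans ?_
  have h2 : ‖LSeries f0 s‖ ≤ 1 + Real.log N := by
    unfold LSeries
    rw [tsum_eq_sum hz]
    refine (norm_sum_le _ _).trans ?_
    have h3 : ∀ n ∈ Finset.range (N + 1), ‖LSeries.term f0 s n‖ ≤ if n = 0 then 0 else (n : ℝ)⁻¹ := by
      intro n hn
      by_cases h0 : n = 0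
      · rw [if_pos h0, h0, LSeries.term_zero, norm_zero]
      · rw [if_neg h0, LSeries.term_of_ne_zero h0, norm_div,
          Complex.norm_natCast_cpow_of_pos (by omega)]
        have hn1 : (1 : ℝ) ≤ n := by exact_mod_cast (by omega : 1 ≤ n)
        have h4 : ‖f0 n‖ ≤ 1 := by
          simp only [hf0]
          split_ifs
          · exact hf n
          · simp
        have h5 : (n : ℝ) ≤ (n : ℝ) ^ s.re := by
          calc (n : ℝ) = (n : ℝ) ^ (1 : ℝ) := (Real.rpow_one _).symm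
            _ ≤ _ := Real.rpow_le_rpow_of_exponent_le hn1 h1.le
        rw [inv_eq_one_div]
        exact div_le_div₀ zero_le_one h4 (by linarith) h5
    refine (Finset.sum_le_sum h3).trans ?_
    rw [Finset.sum_range_succ']
    simp only [Nat.add_eq_zero_iff, one_ne_zero, and_false, if_false, if_true, add_zero]
    have := harmonic_le_one_add_log N
    unfold harmonic at this
    push_cast at this
    push_cast
    exact this
  linarith

open Filter Topology in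
private lemma lo_limit {F : ℂ → ℂ} {y K : ℝ} (hF : ContinuousAt F (1 + y * I))
    (h : ∀ σ : ℝ, 1 < σ → σ ≤ 2 → ‖F (σ + y * I)‖ ≤ K) : ‖F (1 + y * I)‖ ≤ K := by
  have hc : ContinuousAt (fun σ : ℝ => ((σ : ℂ) + y * I)) 1 := by fun_prop
  have h1 : Tendsto (fun σ : ℝ => ‖F ((σ : ℂ) + y * I)‖) (𝓝[>] (1 : ℝ)) (𝓝 ‖F (1 + y * I)‖) := by
    have h2 : ContinuousAt (fun σ : ℝ => ‖F ((σ : ℂ) + y * I)‖) 1 := by
      apply ContinuousAt.norm
      apply ContinuousAt.comp (g := F) _ hc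
      simpa using hF
    have h3 := h2.tendsto.mono_left (nhdsWithin_le_nhds (s := Set.Ioi (1 : ℝ)))
    simpa using h3
  refine le_of_tendsto h1 ?_
  have h2 : ∀ᶠ σ in 𝓝[>] (1 : ℝ), σ ∈ Set.Ioc (1 : ℝ) 2 := Ioc_mem_nhdsGT one_lt_two
  filter_upwards [h2] with σ hσ
  exact h σ hσ.1 hσ.2

private lemma lo_num {X : ℝ} (hX : 2 ≤ X) {N : ℕ} (hN : N = ⌈X⌉₊) :
    1 ≤ N ∧ X ≤ N ∧ 1 + Real.log N + 1 + 3 ≤ 10 * Real.log X := by
  have h1 : X ≤ N := by rw [hN]; exact Nat.le_ceil X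
  have h2 : (N : ℝ) < X + 1 := by rw [hN]; exact Nat.ceil_lt_add_one (by linarith)
  have h3 : (1 : ℝ) ≤ N := by linarith
  refine ⟨by exact_mod_cast h3, h1, ?_⟩
  have h4 : Real.log N ≤ Real.log (X * 2) := Real.log_le_log (by linarith) (by linarith)
  rw [Real.log_mul (by linarith) two_ne_zero] at h4
  have h5 : Real.log 2 ≤ Real.log X := Real.log_le_log (by norm_num) hX
  have h6 := Real.log_two_gt_d9
  linarith

private lemma lo_norm {σ y : ℝ} (h1 : 1 < σ) (h2 : σ ≤ 2) : ‖(σ : ℂ) + y * I‖ ≤ 2 + |y| := by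
  refine (norm_add_le _ _).trans ?_
  rw [norm_mul, norm_I, mul_one, Complex.norm_real, Complex.norm_real, Real.norm_eq_abs,
    Real.norm_eq_abs, abs_of_pos (by linarith)]
  linarith

section
variable {M : ℕ} [NeZero M] {χ : DirichletCharacter ℂ M}

private lemma lo_sum_period (hχ : χ ≠ 1) : ∑ k ∈ Finset.range M, χ (k : ZMod M) = 0 := by
  rw [← MulChar.sum_eq_zero_of_ne_one hχ]
  refine Finset.sum_bij (fun k _ => (k : ZMod M)) (fun _ _ => Finset.mem_univ _) ?_ ?_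
    (fun _ _ => rfl)
  · intro a ha b hb hab
    rw [Finset.mem_range] at ha hb
    rw [ZMod.natCast_eq_natCast_iff'] at hab
    rwa [Nat.mod_eq_of_lt ha, Nat.mod_eq_of_lt hb] at hab
  · intro b _
    exact ⟨b.val, Finset.mem_range.2 (ZMod.val_lt b), ZMod.natCast_zmod_val b⟩

private lemma lo_sum_block (hχ : χ ≠ 1) (q : ℕ) :
    ∑ k ∈ Finset.range (q * M), χ (k : ZMod M) = 0 := by
  induction q with
  | zero => simp
  | succ q ih =>
    rw [add_mul, one_mul, Finset.sum_range_add, ih, zero_add]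
    rw [← lo_sum_period hχ]
    apply Finset.sum_congr rfl
    intro k _
    congr 1
    push_cast
    simp

private lemma lo_sum_range_le (hχ : χ ≠ 1) (n : ℕ) :
    ‖∑ k ∈ Finset.range n, χ (k : ZMod M)‖ ≤ M := by
  have h1 : n = (n / M) * M + n % M := (Nat.div_add_mod' n M).symm
  rw [h1, Finset.sum_range_add, lo_sum_block hχ, zero_add]
  refine (norm_sum_le _ _).trans ?_
  calc ∑ k ∈ Finset.range (n % M), ‖χ (((n / M) * M + k : ℕ) : ZMod M)‖
      ≤ ∑ k ∈ Finset.range (n % M), (1 : ℝ) := Finset.sum_le_sum fun k _ => χ.norm_le_one _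
    _ = (n % M : ℕ) := by simp
    _ ≤ M := by exact_mod_cast (Nat.mod_lt n (NeZero.pos M)).le

private lemma lo_sum_Icc_le (hχ : χ ≠ 1) (n : ℕ) :
    ‖∑ k ∈ Finset.Icc 1 n, χ (k : ZMod M)‖ ≤ M := by
  have hM : M ≠ 1 := fun h => hχ (level_one' χ h)
  have h0 : χ (0 : ZMod M) = 0 := χ.map_zero' hM
  have h1 : ∀ n : ℕ, ∑ k ∈ Finset.Icc 1 n, χ (k : ZMod M) =
      ∑ k ∈ Finset.range (n + 1), χ (k : ZMod M) := by
    intro n
    induction n with
    | zero => simp [h0]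
    | succ n ih => rw [Finset.sum_Icc_succ_top (by omega), ih, Finset.sum_range_succ _ (n + 1)]
  rw [h1]
  exact lo_sum_range_le hχ _

end

theorem L_one_line : ∃ C : ℝ, 1 ≤ C ∧ ∀ (M : ℕ) [NeZero M] (χ : DirichletCharacter ℂ M), χ ≠ 1 →
    ∀ y : ℝ, ‖LFunction χ (1 + y * I)‖ ≤ C * Real.log (M * (2 + |y|)) := by
  refine ⟨10, by norm_num, ?_⟩
  intro M _ χ hχ y
  have hM1 : (1 : ℝ) ≤ M := by exact_mod_cast NeZero.pos M
  have hy := abs_nonneg y
  have hX : 2 ≤ (M : ℝ) * (2 + |y|) := by nlinarith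
  obtain ⟨hN1, hXN, hlog⟩ := lo_num hX rfl
  set N := ⌈(M : ℝ) * (2 + |y|)⌉₊ with hN
  have hN0 : (0 : ℝ) < N := by linarith
  apply lo_limit ((differentiable_LFunction hχ).continuous.continuousAt)
  intro σ h1 h2
  have hre : ((σ : ℂ) + y * I).re = σ := by simp
  have hs : 1 < ((σ : ℂ) + y * I).re := by rw [hre]; exact h1
  rw [LFunction_eq_LSeries χ hs]
  have h3 := lo_main (fun n => χ (n : ZMod M)) (fun n => χ.norm_le_one _) 0 (by simp)
    (B := M) (Nat.cast_nonneg M) (fun n => by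
      rw [zero_mul, sub_zero]
      exact lo_sum_Icc_le hχ n) hs (LSeriesSummable_of_one_lt_re χ hs) hN1
  rw [norm_zero, zero_div] at h3
  have h4 : ‖(σ : ℂ) + y * I‖ * (2 * M + 1) / N ≤ 3 := by
    rw [div_le_iff₀ hN0]
    have h5 := lo_norm (y := y) h1 h2
    have h6 := norm_nonneg ((σ : ℂ) + y * I)
    calc ‖(σ : ℂ) + y * I‖ * (2 * M + 1) ≤ (2 + |y|) * (3 * M) := by
          apply mul_le_mul h5 (by linarith) (by linarith) (by linarith)
      _ = 3 * (M * (2 + |y|)) := by ring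
      _ ≤ 3 * N := by linarith
  refine h3.trans (le_trans ?_ hlog)
  linarith

theorem zeta_one_line : ∃ C : ℝ, 1 ≤ C ∧ ∀ y : ℝ, 1 ≤ |y| →
    ‖riemannZeta (1 + y * I)‖ ≤ C * Real.log (2 + |y|) := by
  refine ⟨10, by norm_num, ?_⟩
  intro y hy1
  have hX : 2 ≤ 2 + |y| := by linarith
  obtain ⟨hN1, hXN, hlog⟩ := lo_num hX rfl
  set N := ⌈2 + |y|⌉₊ with hN
  have hN0 : (0 : ℝ) < N := by linarith
  have hy0 : y ≠ 0 := by
    rintro rfl
    simp at hy1
    linarith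
  apply lo_limit (F := riemannZeta)
  · apply (differentiableAt_riemannZeta _).continuousAt
    intro h
    have := congrArg Complex.im h
    simp at this
    exact hy0 this
  intro σ h1 h2
  have hre : ((σ : ℂ) + y * I).re = σ := by simp
  have hs : 1 < ((σ : ℂ) + y * I).re := by rw [hre]; exact h1
  have hz : riemannZeta ((σ : ℂ) + y * I) = LSeries 1 ((σ : ℂ) + y * I) :=
    (LSeries_one_eq_riemannZeta hs).symm
  rw [hz]
  have h3 := lo_main 1 (fun n => by simp) 1 (by simp)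
    (B := 0) le_rfl (fun n => by simp) hs (LSeriesSummable_one_iff.2 hs) hN1
  have h4 : ‖(σ : ℂ) + y * I‖ * (2 * 0 + 1) / N ≤ 1 := by
    rw [div_le_iff₀ hN0]
    have h5 := lo_norm (y := y) h1 h2
    linarith
  have h7 : ‖(1 : ℂ)‖ / ‖(σ : ℂ) + y * I - 1‖ ≤ 1 := by
    rw [norm_one]
    apply div_le_one_of_le₀ _ (norm_nonneg _)
    have h8 : |((σ : ℂ) + y * I - 1).im| ≤ ‖(σ : ℂ) + y * I - 1‖ := abs_im_le_norm _
    have h9 : ((σ : ℂ) + y * I - 1).im = y := by simp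
    rw [h9] at h8
    linarith
  refine h3.trans (le_trans ?_ hlog)
  linarith

end Pool.Agent.HPP
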