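import Pool.Agent.HPP.LGam
import Pool.Agent.HPP.LFe
import Pool.Agent.HPP.LOne

/-!
# HPP/LZero: the bound on the line `Re s = 0`

`exists_prim` gives `ψ` primitive mod `f ∣ Q = b ^ m'`, `L(iy, χ) = L(iy, ψ) ∏ (1 - ψ(p) p^(-iy))`, the product
has at most `ω(b)` factors (`Nat.primeFactors_pow`, or subset of `b.primeFactors`), each of norm `≤ 2`.
* `f ≠ 1` (so `ψ ≠ 1`): `L_fe` at `s = iy` (allowed also for `y = 0` since `f ≠ 1`): `‖L(iy, ψ)‖ = f^(1/2)
  ‖GQ (iy)‖ ‖L(1 - iy, ψ⁻¹)‖ ≤ f^(1/2) C (1 + |y|)^(1/2) C log (f (2 + |y|))` (`GQ_zero`, `L_one_line`), `f ≤ Q`.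
* `f = 1`: `L(iy, ψ) = ζ(iy)` (`LFunction_modOne_eq`). For `|y| ≥ 1`: `L_fe`, `GQ_zero`, `zeta_one_line`. For `|y| ≤ 1`:
  `y ↦ ζ(iy)` is continuous on the compact `[-1, 1]` (`differentiableAt_riemannZeta`, `iy ≠ 1`), bounded
  by an absolute constant; `sqrt (..) ≥ 1`, `log (2 + |y|) ≥ 1/2`.
-/

namespace Pool.Agent.HPP

open Complex DirichletCharacter Pool.Agent.ZX

private lemma zeta_small : ∃ B : ℝ, 1 ≤ B ∧ ∀ y : ℝ, |y| ≤ 1 → ‖riemannZeta (y * I)‖ ≤ B := by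
  have hc : Continuous fun y : ℝ => riemannZeta (y * I) := by
    refine continuous_iff_continuousAt.mpr fun y => ?_
    have h1 : (y * I : ℂ) ≠ 1 := by
      intro h
      have := congrArg Complex.re h
      simp at this
    have h2 := (differentiableAt_riemannZeta h1).continuousAt
    exact ContinuousAt.comp (f := fun y : ℝ => (y * I : ℂ)) h2 (by fun_prop)
  obtain ⟨B, hB⟩ := (isCompact_Icc (a := (-1 : ℝ)) (b := 1)).exists_bound_of_continuousOn
    hc.continuousOn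
  refine ⟨max B 1, le_max_right _ _, fun y hy => ?_⟩
  exact (hB y (abs_le.mp hy)).trans (le_max_left _ _)

private lemma prim_bound : ∃ C : ℝ, 1 ≤ C ∧ ∀ (f : ℕ) [NeZero f] (ψ : DirichletCharacter ℂ f),
    ψ.IsPrimitive → ∀ y : ℝ, ‖LFunction ψ (y * I)‖ ≤
      C * Real.sqrt ((f : ℝ) * (1 + |y|)) * Real.log ((f : ℝ) * (2 + |y|)) := by
  obtain ⟨C1, hC1, h1⟩ := GQ_zero
  obtain ⟨C2, hC2, h2⟩ := L_one_line
  obtain ⟨C3, hC3, h3⟩ := zeta_one_line
  obtain ⟨B, hB1, hB⟩ := zeta_small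
  have hlog2 : (1 : ℝ) / 2 ≤ Real.log 2 := by
    have := Real.log_two_gt_d9; linarith
  refine ⟨C1 * (C2 + C3) + 2 * B, by nlinarith, ?_⟩
  intro f _ ψ hψ y
  have hf1 : (1 : ℝ) ≤ f := by exact_mod_cast NeZero.one_le
  have hy0 : 0 ≤ |y| := abs_nonneg y
  have hS : 1 ≤ Real.sqrt ((f : ℝ) * (1 + |y|)) := by
    rw [Real.one_le_sqrt]; nlinarith
  have hLg : Real.log 2 ≤ Real.log ((f : ℝ) * (2 + |y|)) :=
    Real.log_le_log (by norm_num) (by nlinarith)
  have hLg' : (1 : ℝ) / 2 ≤ Real.log ((f : ℝ) * (2 + |y|)) := hlog2.trans hLg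
  obtain ⟨ε, hε, hfe⟩ := L_fe hψ
  have hsq : Real.sqrt ((f : ℝ) * (1 + |y|)) = Real.sqrt f * Real.sqrt (1 + |y|) :=
    Real.sqrt_mul (by positivity) _
  -- general step
  have key : ∀ D : ℝ, 0 ≤ D → ((y * I : ℂ) ≠ 0 ∨ f ≠ 1) →
      ‖LFunction ψ⁻¹ (1 + ((-y : ℝ) : ℂ) * I)‖ ≤ D * Real.log ((f : ℝ) * (2 + |y|)) →
      ‖LFunction ψ (y * I)‖ ≤
        C1 * D * Real.sqrt ((f : ℝ) * (1 + |y|)) * Real.log ((f : ℝ) * (2 + |y|)) := by
    intro D hD hne hb
    have e1 := hfe (y * I) (by simp) hne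
    have e2 : (1 - (y * I : ℂ)) = 1 + ((-y : ℝ) : ℂ) * I := by push_cast; ring
    rw [e1, e2, norm_mul, norm_mul, norm_mul, hε, one_mul]
    have e3 : ‖(f : ℂ) ^ (1 / 2 - (y * I : ℂ))‖ = Real.sqrt f := by
      rw [norm_natCast_cpow_of_pos (NeZero.pos f), Real.sqrt_eq_rpow]
      congr 1
      simp
    rw [e3, hsq]
    have g1 := h1 (par ψ) (par_cases ψ) y
    have s0 : 0 ≤ Real.sqrt (f : ℝ) := Real.sqrt_nonneg _
    have s1 : 0 ≤ Real.sqrt (1 + |y|) := Real.sqrt_nonneg _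
    calc Real.sqrt f * ‖GQ (par ψ) (y * I)‖ * ‖LFunction ψ⁻¹ (1 + ((-y : ℝ) : ℂ) * I)‖
        ≤ Real.sqrt f * (C1 * Real.sqrt (1 + |y|)) *
          (D * Real.log ((f : ℝ) * (2 + |y|))) := by
          gcongr
      _ = C1 * D * (Real.sqrt f * Real.sqrt (1 + |y|)) * Real.log ((f : ℝ) * (2 + |y|)) := by ring
  have mono : ∀ D : ℝ, D ≤ C1 * (C2 + C3) + 2 * B →
      D * Real.sqrt ((f : ℝ) * (1 + |y|)) * Real.log ((f : ℝ) * (2 + |y|)) ≤
      (C1 * (C2 + C3) + 2 * B) * Real.sqrt ((f : ℝ) * (1 + |y|)) *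
        Real.log ((f : ℝ) * (2 + |y|)) := by
    intro D hD
    have : 0 ≤ Real.log ((f : ℝ) * (2 + |y|)) := by linarith
    gcongr
  by_cases hf : f = 1
  · subst hf
    by_cases hy : |y| ≤ 1
    · have e := hB y hy
      have : LFunction ψ (y * I) = riemannZeta (y * I) := by
        rw [LFunction_modOne_eq]
      rw [this]
      refine e.trans ?_
      have hp := mul_le_mul hS hLg' (by norm_num) (zero_le_one.trans hS)
      have h2 := mul_le_mul_of_nonneg_left hp (show (0 : ℝ) ≤ 2 * B by linarith)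
      have this : B ≤ 2 * B * (1 * (1 / 2)) := by linarith
      refine this.trans (h2.trans ?_)
      rw [← mul_assoc]
      exact mono _ (by nlinarith)
    · push Not at hy
      have hyne : y ≠ 0 := by
        rintro rfl; simp at hy; linarith
      refine (key C3 (by linarith) (Or.inl ?_) ?_).trans (mono _ (by nlinarith))
      · exact mul_ne_zero (by exact_mod_cast hyne) I_ne_zero
      · rw [LFunction_modOne_eq]
        have := h3 (-y) (by rw [abs_neg]; exact hy.le)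
        rw [abs_neg] at this
        simpa using this
  · refine (key C2 (by linarith) (Or.inr hf) ?_).trans (mono _ (by nlinarith))
    have hne : ψ ≠ 1 := by
      rintro rfl
      apply hf
      have h := hψ
      rw [isPrimitive_def, conductor_one] at h
      exact h.symm
    have := h2 f ψ⁻¹ (inv_ne_one.mpr hne) (-y)
    rw [abs_neg] at this
    exact this

theorem L_zero_line (b : ℕ) (hb : 2 ≤ b) : ∃ C : ℝ, 1 ≤ C ∧
    ∀ (m' : ℕ) (χ : DirichletCharacter ℂ (b ^ m')) (_ : NeZero (b ^ m')) (y : ℝ),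
      ‖LFunction χ (y * I)‖ ≤ C * Real.sqrt ((b : ℝ) ^ m' * (1 + |y|)) *
        Real.log ((b : ℝ) ^ m' * (2 + |y|)) := by
  obtain ⟨C, hC, h⟩ := prim_bound
  refine ⟨C * 2 ^ b.primeFactors.card, ?_, ?_⟩
  · have : (1 : ℝ) ≤ 2 ^ b.primeFactors.card := one_le_pow₀ (by norm_num)
    nlinarith
  intro m' χ _ y
  obtain ⟨f, _, ψ, hfQ, hψ, -, -, hL⟩ := exists_prim χ
  have hne : (y * I : ℂ) ≠ 1 := by
    intro h
    have := congrArg Complex.re h
    simp at this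
  rw [hL _ hne, norm_mul]
  have hQ : 0 < b ^ m' := by positivity
  have hfle : (f : ℝ) ≤ (b : ℝ) ^ m' := by exact_mod_cast Nat.le_of_dvd hQ hfQ
  have hf1 : (1 : ℝ) ≤ f := by exact_mod_cast NeZero.one_le
  have hy0 : 0 ≤ |y| := abs_nonneg y
  have hprod : ‖∏ p ∈ (b ^ m').primeFactors, (1 - ψ (p : ZMod f) * (p : ℂ) ^ (-(y * I : ℂ)))‖ ≤
      2 ^ b.primeFactors.card := by
    rw [norm_prod]
    calc ∏ p ∈ (b ^ m').primeFactors, ‖1 - ψ (p : ZMod f) * (p : ℂ) ^ (-(y * I : ℂ))‖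
        ≤ ∏ p ∈ (b ^ m').primeFactors, (2 : ℝ) := by
          refine Finset.prod_le_prod (fun _ _ => norm_nonneg _) fun p hp => ?_
          have hp0 : 0 < p := (Nat.prime_of_mem_primeFactors hp).pos
          have e : ‖(p : ℂ) ^ (-(y * I : ℂ))‖ = 1 := by
            rw [norm_natCast_cpow_of_pos hp0]; simp
          calc ‖1 - ψ (p : ZMod f) * (p : ℂ) ^ (-(y * I : ℂ))‖
              ≤ ‖(1 : ℂ)‖ + ‖ψ (p : ZMod f) * (p : ℂ) ^ (-(y * I : ℂ))‖ := norm_sub_le _ _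
            _ ≤ 1 + 1 := by
                rw [norm_mul, e, mul_one, norm_one]
                have := ψ.norm_le_one (p : ZMod f)
                linarith
            _ = 2 := by norm_num
      _ = 2 ^ (b ^ m').primeFactors.card := by rw [Finset.prod_const]
      _ ≤ 2 ^ b.primeFactors.card := by
          apply pow_le_pow_right₀ (by norm_num)
          apply Finset.card_le_card
          rcases Nat.eq_zero_or_pos m' with h0 | h0
          · subst h0; simp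
          · rw [Nat.primeFactors_pow b h0.ne']
  have hlog0 : 0 ≤ Real.log ((f : ℝ) * (2 + |y|)) := Real.log_nonneg (by nlinarith)
  have hlogle : Real.log ((f : ℝ) * (2 + |y|)) ≤ Real.log ((b : ℝ) ^ m' * (2 + |y|)) :=
    Real.log_le_log (by positivity) (by gcongr)
  have hsqle : Real.sqrt ((f : ℝ) * (1 + |y|)) ≤ Real.sqrt ((b : ℝ) ^ m' * (1 + |y|)) :=
    Real.sqrt_le_sqrt (by gcongr)
  calc ‖LFunction ψ (y * I)‖ *
        ‖∏ p ∈ (b ^ m').primeFactors, (1 - ψ (p : ZMod f) * (p : ℂ) ^ (-(y * I : ℂ)))‖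
      ≤ (C * Real.sqrt ((f : ℝ) * (1 + |y|)) * Real.log ((f : ℝ) * (2 + |y|))) *
          2 ^ b.primeFactors.card := by
        gcongr
        exact h f ψ hψ y
    _ ≤ (C * Real.sqrt ((b : ℝ) ^ m' * (1 + |y|)) * Real.log ((b : ℝ) ^ m' * (2 + |y|))) *
          2 ^ b.primeFactors.card := by
        gcongr
    _ = C * 2 ^ b.primeFactors.card * Real.sqrt ((b : ℝ) ^ m' * (1 + |y|)) *
        Real.log ((b : ℝ) ^ m' * (2 + |y|)) := by ring

end Pool.Agent.HPP
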