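import Pool.Agent.HPP.Iface
import Pool.Agent.HPP.LZero
import Pool.Agent.HPP.LShift

/-!
# HPP/LPV: the pointwise bound

`TT_shift` with `c = 0`: `‖TT j a χ t v‖ ≤ (2π)⁻¹ ∫ ‖KM j a (iy)‖ ‖L(i(y - t), χ)‖ dy + ‖rs χ‖ ‖KM j a (1 + it)‖ e^v`
(`‖exp (iyv)‖ = 1`). `L_zero_line` and `sqrt (1 + |y - t|) ≤ sqrt (1 + |t|) (1 + |y|)`,
`log (Q (2 + |y - t|)) ≤ log (Q (2 + |t|)) + log (1 + |y|) ≤ 3 (1 + |y|) log (Q (2 + |t|))` (`Q (2 + |t|) ≥ 2`);
`KM_integrable` with `N = 2` (independent of `Q`, `t`, `v`). `‖rs χ‖ ≤ 1`, `rs χ = 0` for `χ ≠ 1`;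
`‖KM j a (1 + it)‖ ≤ C (1 + |t|) exp (-j t²/4) ≤ C' exp (-t² / C')` by `KM_bound`, `j ≥ 1`. Finally `a = 0`:
`SS (..) = TT`; `a = 1`: `SS_split`.
-/

namespace Pool.Agent.HPP

open Complex MeasureTheory DirichletCharacter

private theorem sqrt_shift {Q : ℝ} (hQ : 0 ≤ Q) (y t : ℝ) :
    Real.sqrt (Q * (1 + |y - t|)) ≤ Real.sqrt (Q * (1 + |t|)) * (1 + |y|) := by
  have hy := abs_nonneg y
  have ht := abs_nonneg t
  have h1 : |y - t| ≤ |y| + |t| := abs_sub y t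
  rw [Real.sqrt_le_left (by positivity), mul_pow, Real.sq_sqrt (by positivity), mul_assoc]
  apply mul_le_mul_of_nonneg_left _ hQ
  nlinarith [mul_nonneg hy ht, mul_nonneg ht (mul_nonneg hy hy), mul_nonneg hy hy]

private theorem log_shift {Q : ℝ} (hQ : 1 ≤ Q) (y t : ℝ) :
    Real.log (Q * (2 + |y - t|)) ≤ 3 * (1 + |y|) * Real.log (Q * (2 + |t|)) := by
  have hy := abs_nonneg y
  have ht := abs_nonneg t
  have h1 : |y - t| ≤ |y| + |t| := abs_sub y t
  have h2 : (2 : ℝ) ≤ Q * (2 + |t|) := by nlinarith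
  have h3 : (1 : ℝ) / 2 ≤ Real.log (Q * (2 + |t|)) := by
    have := Real.log_two_gt_d9
    have h4 : Real.log 2 ≤ Real.log (Q * (2 + |t|)) := Real.log_le_log (by norm_num) h2
    linarith
  have h5 : Real.log (Q * (2 + |y - t|)) ≤ Real.log (Q * (2 + |t|) * (1 + |y|)) := by
    apply Real.log_le_log
    · have := abs_nonneg (y - t)
      positivity
    · rw [mul_assoc]
      apply mul_le_mul_of_nonneg_left _ (by linarith)
      nlinarith [mul_nonneg hy ht]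
  have h6 : Real.log (Q * (2 + |t|) * (1 + |y|)) =
      Real.log (Q * (2 + |t|)) + Real.log (1 + |y|) :=
    Real.log_mul (by linarith) (by positivity)
  have h7 : Real.log (1 + |y|) ≤ |y| := by
    have := Real.log_le_sub_one_of_pos (show 0 < 1 + |y| by positivity)
    linarith
  rw [h6] at h5
  nlinarith [mul_nonneg hy (show 0 ≤ Real.log (Q * (2 + |t|)) - 1 / 2 by linarith)]

private theorem KM_one {j : ℝ} (hj : 1 ≤ j) : ∃ C : ℝ, 1 ≤ C ∧ ∀ a : ℕ, a ≤ 1 → ∀ t : ℝ,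
    ‖KM j a (1 + t * I)‖ ≤ C * Real.exp (-(t ^ 2 / 8)) := by
  obtain ⟨C, hC, h⟩ := KM_bound (j := j) (by linarith)
  refine ⟨C * Real.exp 2, ?_, ?_⟩
  · have : (1 : ℝ) ≤ Real.exp 2 := Real.one_le_exp (by norm_num)
    nlinarith
  intro a ha t
  have h1 := h a ha (1 + t * I) (by simp)
  have h2 : (1 + (t : ℂ) * I).im = t := by simp
  rw [h2] at h1
  have ht := abs_nonneg t
  have h3 : (1 + |t|) * Real.exp (-j * t ^ 2 / 4) ≤ Real.exp 2 * Real.exp (-(t ^ 2 / 8)) := by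
    have h4 : 1 + |t| ≤ Real.exp |t| := by
      have := Real.add_one_le_exp |t|
      linarith
    calc (1 + |t|) * Real.exp (-j * t ^ 2 / 4) ≤ Real.exp |t| * Real.exp (-j * t ^ 2 / 4) :=
          mul_le_mul_of_nonneg_right h4 (Real.exp_pos _).le
      _ = Real.exp (|t| + -j * t ^ 2 / 4) := (Real.exp_add _ _).symm
      _ ≤ Real.exp (2 + -(t ^ 2 / 8)) := by
          apply Real.exp_le_exp.2
          have h5 : t ^ 2 = |t| ^ 2 := (sq_abs t).symm
          rw [h5]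
          nlinarith [sq_nonneg (|t| - 4), mul_nonneg (sub_nonneg.2 hj) (sq_nonneg |t|)]
      _ = Real.exp 2 * Real.exp (-(t ^ 2 / 8)) := Real.exp_add _ _
  calc ‖KM j a (1 + t * I)‖ ≤ C * (1 + |t|) * Real.exp (-j * t ^ 2 / 4) := h1
    _ = C * ((1 + |t|) * Real.exp (-j * t ^ 2 / 4)) := by ring
    _ ≤ C * (Real.exp 2 * Real.exp (-(t ^ 2 / 8))) :=
        mul_le_mul_of_nonneg_left h3 (by linarith)
    _ = C * Real.exp 2 * Real.exp (-(t ^ 2 / 8)) := by ring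

theorem pv_TT (b : ℕ) (hb : 2 ≤ b) (j : ℝ) (hj : 1 ≤ j) : ∃ C : ℝ, 1 ≤ C ∧ ∀ (m' a : ℕ), a ≤ 1 →
    ∀ (χ : DirichletCharacter ℂ (b ^ m')) (t v : ℝ),
    ‖TT j a χ t v‖ ≤ C * (Real.sqrt ((b : ℝ) ^ m' * (1 + |t|)) *
      Real.log ((b : ℝ) ^ m' * (2 + |t|)) + ‖rs χ‖ * Real.exp (v - t ^ 2 / C)) := by
  have hj0 : 0 < j := by linarith
  obtain ⟨C0, hC0, hL⟩ := L_zero_line b hb
  obtain ⟨C2, hC2, hK⟩ := KM_one hj
  let J : ℕ → ℝ := fun a => ∫ y : ℝ, ‖KM j a ((0 : ℝ) + y * I)‖ * (1 + |y|) ^ 2 *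
    Real.exp (0 * |y|)
  have hJ : ∀ a, 0 ≤ J a := fun a => integral_nonneg fun y => by positivity
  have hJi : ∀ a, a ≤ 1 → Integrable fun y : ℝ => ‖KM j a ((0 : ℝ) + y * I)‖ * (1 + |y|) ^ 2 *
    Real.exp (0 * |y|) := fun a ha => KM_integrable hj0 ha 0 2 0
  refine ⟨8 + C2 + 3 * C0 * (J 0 + J 1), ?_, ?_⟩
  · have := mul_nonneg (show (0 : ℝ) ≤ 3 * C0 by linarith) (add_nonneg (hJ 0) (hJ 1))
    linarith
  intro m' a ha χ t v
  set C := 8 + C2 + 3 * C0 * (J 0 + J 1) with hC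
  have hJa : J a ≤ J 0 + J 1 := by
    rcases Nat.le_one_iff_eq_zero_or_eq_one.1 ha with h | h
    · rw [h]; linarith [hJ 1]
    · rw [h]; linarith [hJ 0]
  have hb0 : b ≠ 0 := by omega
  have hne : NeZero (b ^ m') := ⟨pow_ne_zero _ hb0⟩
  have hQ1 : (1 : ℝ) ≤ (b : ℝ) ^ m' := one_le_pow₀ (by exact_mod_cast (by omega : 1 ≤ b))
  set Q : ℝ := (b : ℝ) ^ m' with hQ
  set X := Real.sqrt (Q * (1 + |t|)) * Real.log (Q * (2 + |t|)) with hX
  have hlog : 0 ≤ Real.log (Q * (2 + |t|)) := by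
    apply Real.log_nonneg
    have := abs_nonneg t
    nlinarith
  have hX0 : 0 ≤ X := mul_nonneg (Real.sqrt_nonneg _) hlog
  have hs := TT_shift χ hj0 ha t v (c := 0) (by norm_num) (by norm_num)
  -- the line integral
  have hKI : ‖KI 0 j a χ t v‖ ≤ 3 * C0 * J a * X := by
    unfold KI
    refine (norm_integral_le_integral_norm _).trans ?_
    have hle : (∫ y : ℝ, ‖KM j a (((0 : ℝ) : ℂ) + y * I) * cexp ((((0 : ℝ) : ℂ) + y * I) * v) *
        LFunction χ (((0 : ℝ) : ℂ) + y * I - t * I)‖) ≤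
        ∫ y : ℝ, (3 * C0 * X) * (‖KM j a ((0 : ℝ) + y * I)‖ * (1 + |y|) ^ 2 *
          Real.exp (0 * |y|)) := by
      refine integral_mono_of_nonneg (Filter.Eventually.of_forall fun y => norm_nonneg _)
        ((hJi a ha).const_mul _) (Filter.Eventually.of_forall fun y => ?_)
      show ‖KM j a (((0 : ℝ) : ℂ) + y * I) * cexp ((((0 : ℝ) : ℂ) + y * I) * v) *
        LFunction χ (((0 : ℝ) : ℂ) + y * I - t * I)‖ ≤ (3 * C0 * X) *
          (‖KM j a ((0 : ℝ) + y * I)‖ * (1 + |y|) ^ 2 * Real.exp (0 * |y|))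
      rw [norm_mul, norm_mul]
      have e1 : ‖cexp ((((0 : ℝ) : ℂ) + y * I) * v)‖ = 1 := by
        rw [Complex.norm_exp]
        simp
      have e2 : ((0 : ℝ) : ℂ) + y * I - t * I = ((y - t : ℝ) : ℂ) * I := by
        push_cast
        ring
      have e3 := hL m' χ hne (y - t)
      have e4 : ‖LFunction χ (((0 : ℝ) : ℂ) + y * I - t * I)‖ ≤
          3 * C0 * X * (1 + |y|) ^ 2 := by
        rw [e2]
        refine e3.trans ?_
        have f1 := sqrt_shift (show 0 ≤ Q by linarith) y t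
        have f2 := log_shift hQ1 y t
        have f3 : 0 ≤ Real.log (Q * (2 + |y - t|)) := by
          apply Real.log_nonneg
          have := abs_nonneg (y - t)
          nlinarith
        calc C0 * Real.sqrt (Q * (1 + |y - t|)) * Real.log (Q * (2 + |y - t|))
            = C0 * (Real.sqrt (Q * (1 + |y - t|)) * Real.log (Q * (2 + |y - t|))) := by ring
          _ ≤ C0 * ((Real.sqrt (Q * (1 + |t|)) * (1 + |y|)) *
              (3 * (1 + |y|) * Real.log (Q * (2 + |t|)))) := by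
              apply mul_le_mul_of_nonneg_left _ (by linarith)
              exact mul_le_mul f1 f2 f3 (by positivity)
          _ = 3 * C0 * X * (1 + |y|) ^ 2 := by rw [hX]; ring
      rw [e1, mul_one, zero_mul, Real.exp_zero, mul_one]
      calc ‖KM j a (((0 : ℝ) : ℂ) + y * I)‖ * ‖LFunction χ (((0 : ℝ) : ℂ) + y * I - t * I)‖
          ≤ ‖KM j a (((0 : ℝ) : ℂ) + y * I)‖ * (3 * C0 * X * (1 + |y|) ^ 2) :=
            mul_le_mul_of_nonneg_left e4 (norm_nonneg _)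
        _ = 3 * C0 * X * (‖KM j a (((0 : ℝ) : ℂ) + y * I)‖ * (1 + |y|) ^ 2) := by ring
    refine hle.trans (le_of_eq ?_)
    rw [integral_const_mul]
    show 3 * C0 * X * J a = 3 * C0 * J a * X
    ring
  -- the residue term
  have hres : ‖rs χ * KM j a (1 + t * I) * cexp ((1 + t * I) * v)‖ ≤
      C2 * (‖rs χ‖ * Real.exp (v - t ^ 2 / C)) := by
    rw [norm_mul, norm_mul]
    have e1 : ‖cexp ((1 + (t : ℂ) * I) * v)‖ = Real.exp v := by
      rw [Complex.norm_exp]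
      simp
    have e2 := hK a ha t
    have e3 : Real.exp (-(t ^ 2 / 8)) ≤ Real.exp (-(t ^ 2 / C)) := by
      apply Real.exp_le_exp.2
      have hC8 : (8 : ℝ) ≤ C := by
        have := mul_nonneg (show (0 : ℝ) ≤ 3 * C0 by linarith) (add_nonneg (hJ 0) (hJ 1))
        linarith
      have := div_le_div_of_nonneg_left (sq_nonneg t) (by norm_num) hC8
      linarith
    rw [e1, sub_eq_add_neg, Real.exp_add]
    have h0 := norm_nonneg (rs χ)
    have hv := (Real.exp_pos v).le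
    calc ‖rs χ‖ * ‖KM j a (1 + t * I)‖ * Real.exp v
        ≤ ‖rs χ‖ * (C2 * Real.exp (-(t ^ 2 / C))) * Real.exp v := by
          apply mul_le_mul_of_nonneg_right _ hv
          apply mul_le_mul_of_nonneg_left _ h0
          exact e2.trans (mul_le_mul_of_nonneg_left e3 (by linarith))
      _ = C2 * (‖rs χ‖ * (Real.exp v * Real.exp (-(t ^ 2 / C)))) := by ring
  have hpi : (1 : ℝ) ≤ 2 * Real.pi := by
    have := Real.pi_gt_three
    linarith
  have hn : 2 * Real.pi * ‖TT j a χ t v‖ = ‖2 * (Real.pi : ℂ) * TT j a χ t v‖ := by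
    rw [norm_mul, norm_mul, Complex.norm_real, Real.norm_of_nonneg Real.pi_pos.le]
    norm_num
  have hn2 : ‖2 * (Real.pi : ℂ) * (rs χ * KM j a (1 + t * I) * cexp ((1 + t * I) * v))‖ =
      2 * Real.pi * ‖rs χ * KM j a (1 + t * I) * cexp ((1 + t * I) * v)‖ := by
    rw [norm_mul, norm_mul, Complex.norm_real, Real.norm_of_nonneg Real.pi_pos.le]
    norm_num
  have hmain : 2 * Real.pi * ‖TT j a χ t v‖ ≤ 3 * C0 * J a * X +
      2 * Real.pi * (C2 * (‖rs χ‖ * Real.exp (v - t ^ 2 / C))) := by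
    rw [hn, hs]
    refine (norm_add_le _ _).trans (add_le_add hKI ?_)
    rw [hn2]
    exact mul_le_mul_of_nonneg_left hres (by linarith)
  have hY : 0 ≤ ‖rs χ‖ * Real.exp (v - t ^ 2 / C) :=
    mul_nonneg (norm_nonneg _) (Real.exp_pos _).le
  have hA : 0 ≤ 3 * C0 * J a * X :=
    mul_nonneg (mul_nonneg (by linarith) (hJ a)) hX0
  have hB : 3 * C0 * J a * X ≤ 2 * Real.pi * (3 * C0 * J a * X) := by
    nlinarith
  have h8 : ‖TT j a χ t v‖ ≤ 3 * C0 * J a * X + C2 * (‖rs χ‖ * Real.exp (v - t ^ 2 / C)) := by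
    have h9 : 2 * Real.pi * ‖TT j a χ t v‖ ≤ 2 * Real.pi * (3 * C0 * J a * X +
        C2 * (‖rs χ‖ * Real.exp (v - t ^ 2 / C))) := by
      rw [mul_add]
      linarith
    exact le_of_mul_le_mul_left h9 (by linarith)
  refine h8.trans ?_
  rw [mul_add]
  apply add_le_add
  · apply mul_le_mul_of_nonneg_right _ hX0
    have := mul_le_mul_of_nonneg_left hJa (show (0 : ℝ) ≤ 3 * C0 by linarith)
    linarith
  · apply mul_le_mul_of_nonneg_right _ hY
    have := mul_nonneg (show (0 : ℝ) ≤ 3 * C0 by linarith) (add_nonneg (hJ 0) (hJ 1))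
    linarith

private theorem rs_norm_le {Q : ℕ} : ‖rs (1 : DirichletCharacter ℂ Q)‖ ≤ 1 := by
  unfold rs
  rw [if_pos rfl, norm_prod]
  apply Finset.prod_le_one
  · intro p _
    exact norm_nonneg _
  · intro p hp
    have hp1 : (1 : ℝ) ≤ p := by
      exact_mod_cast (Nat.prime_of_mem_primeFactors hp).one_le
    have e : (1 : ℂ) - (p : ℂ)⁻¹ = ((1 - (p : ℝ)⁻¹ : ℝ) : ℂ) := by
      push_cast
      rfl
    rw [e, Complex.norm_real, Real.norm_eq_abs, abs_le]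
    have h1 : (0 : ℝ) ≤ (p : ℝ)⁻¹ := by positivity
    have h2 : (p : ℝ)⁻¹ ≤ 1 := inv_le_one_of_one_le₀ hp1
    constructor <;> linarith

theorem pv_prop : PVProp := by
  classical
  intro b hb j hj
  obtain ⟨C, hC, h⟩ := pv_TT b hb j hj
  refine ⟨C, hC, ?_⟩
  intro m' a ha χ t v hv
  have hj0 : 0 < j := by linarith
  have hrs : ‖rs χ‖ * Real.exp (v - t ^ 2 / C) ≤
      if χ = 1 then Real.exp (v - t ^ 2 / C) else 0 := by
    split_ifs with hχ
    · subst hχ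
      have := rs_norm_le (Q := b ^ m')
      have h1 := (Real.exp_pos (v - t ^ 2 / C)).le
      nlinarith
    · unfold rs
      rw [if_neg hχ]
      simp
  have hC0 : (0 : ℝ) ≤ C := by linarith
  have hTT : ∀ a, a ≤ 1 → ‖TT j a χ t v‖ ≤ C * (Real.sqrt ((b : ℝ) ^ m' * (1 + |t|)) *
      Real.log ((b : ℝ) ^ m' * (2 + |t|)) +
      if χ = 1 then Real.exp (v - t ^ 2 / C) else 0) := fun a ha =>
    (h m' a ha χ t v).trans (mul_le_mul_of_nonneg_left (by linarith) hC0)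
  have h0 := hTT 0 (by norm_num)
  have h1 := hTT 1 le_rfl
  have hB : 0 ≤ C * (Real.sqrt ((b : ℝ) ^ m' * (1 + |t|)) *
      Real.log ((b : ℝ) ^ m' * (2 + |t|)) +
      if χ = 1 then Real.exp (v - t ^ 2 / C) else 0) := (norm_nonneg _).trans h0
  set B := Real.sqrt ((b : ℝ) ^ m' * (1 + |t|)) *
      Real.log ((b : ℝ) ^ m' * (2 + |t|)) +
      if χ = 1 then Real.exp (v - t ^ 2 / C) else 0 with hBd
  rcases Nat.le_one_iff_eq_zero_or_eq_one.1 ha with h2 | h2
  · subst h2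
    have e : SS (fun n => (((Real.log n) ^ 0 * gw j v n : ℝ) : ℂ)) χ t = TT j 0 χ t v := by
      unfold TT
      simp only [pow_zero]
    rw [e]
    refine h0.trans ?_
    nlinarith [mul_nonneg hv hB]
  · subst h2
    have e : SS (fun n => (((Real.log n) ^ 1 * gw j v n : ℝ) : ℂ)) χ t =
        TT j 1 χ t v + v * TT j 0 χ t v := by
      rw [← SS_split χ hj0 t v]
      simp only [pow_one]
    rw [e]
    refine (norm_add_le _ _).trans ?_
    rw [norm_mul, Complex.norm_real, Real.norm_of_nonneg hv]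
    nlinarith [mul_le_mul_of_nonneg_left h0 hv]

end Pool.Agent.HPP
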