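import Pool.Agent.HPP.VPt
import Pool.Agent.HPP.VAux

/-!
# HPP/VFour: fourth moment of smooth factors (stage 2), from `FourProp`

PROOF. `nt = exp (-v) ‖DP‖`, `DP (pc F v) χ t = ∫ H(ξ) exp (-2πiξv) S χ (t + 2πξ) dξ` (`dp_rep`), `S χ s = SS ((log n)^a gw 1 v n) χ s`. Hoelder
(or Jensen): `‖DP‖^4 ≤ ‖H‖₁^3 ∫ ‖H ξ‖ ‖S χ (t+2πξ)‖^4 dξ`. Integrate over `t ∈ Gt χ (exp (κX)) T`, sum over `χ`, Fubini (everything is
continuous, bounded: `‖S‖ ≤ K exp (3 v)` by `gs_le`). For fixed `ξ` (`s = t + 2πξ`, `|s| ≤ T + 7|ξ| ≤ T (1 + 7|ξ|)`):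
* `7|ξ| ≤ exp (κX)/2`: for `χ = 1` `|s| ≥ exp (κX)/2 ≥ v + 2`, so `Σ_χ ∫ ≤ C (1+v)^4 (Q T (1+7|ξ|))^(1+ε/4) exp (2v)` by `FourProp` with
  `T (1+7|ξ|)`, `κ := v + 2`;
* `7|ξ| > exp (κX)/2`: the same for the sum over `χ ≠ 1`; for `χ = 1` the trivial bound `2T K^4 exp (12 v)`, and the integral of `‖H‖` over these `ξ`
  is `≤ C_N exp (-N κ X)` (all `N`; `v ≤ 3X`).
Finally `(QT)^(1+ε/4) ≤ (QT) exp (εX/4)`, `(1+v)^4 C ≤ exp (εX/4)`.
-/

namespace Pool.Agent.HPP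

open Complex MeasureTheory

private theorem meas16 {Q : ℕ} (χ : DirichletCharacter ℂ Q) (κ T : ℝ) :
    MeasurableSet (Gt χ κ T) := by
  unfold Gt
  by_cases h : χ = 1
  · have h1 : {t : ℝ | |t| ≤ T ∧ (χ = 1 → κ ≤ |t|)} = {t | |t| ≤ T} ∩ {t | κ ≤ |t|} := by
      ext t
      simp [h]
    rw [h1]
    exact (measurableSet_le continuous_abs.measurable measurable_const).inter
      (measurableSet_le measurable_const continuous_abs.measurable)
  · have h1 : {t : ℝ | |t| ≤ T ∧ (χ = 1 → κ ≤ |t|)} = {t | |t| ≤ T} := by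
      ext t
      simp [h]
    rw [h1]
    exact measurableSet_le continuous_abs.measurable measurable_const

/-- Jensen's inequality for the fourth power -/
private theorem jensen16 {h f : ℝ → ℝ} (h0 : ∀ x, 0 ≤ h x) (f0 : ∀ x, 0 ≤ f x)
    (hi : Integrable h) (hf : Integrable fun x => h x * f x)
    (hf4 : Integrable fun x => h x * f x ^ 4) :
    (∫ x, h x * f x) ^ 4 ≤ (1 + ∫ x, h x) ^ 3 * ∫ x, h x * f x ^ 4 := by
  have hH0 : 0 ≤ ∫ x, h x := integral_nonneg h0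
  obtain ⟨M, hM⟩ : ∃ M : ℝ, M = 1 + ∫ x, h x := ⟨_, rfl⟩
  obtain ⟨J, hJ⟩ : ∃ J : ℝ, J = ∫ x, h x * f x := ⟨_, rfl⟩
  obtain ⟨P, hP⟩ : ∃ P : ℝ, P = ∫ x, h x * f x ^ 4 := ⟨_, rfl⟩
  rw [← hM, ← hJ, ← hP]
  have hM0 : 0 < M := by rw [hM]; linarith
  have hJ0 : 0 ≤ J := by
    rw [hJ]
    exact integral_nonneg fun x => mul_nonneg (h0 x) (f0 x)
  obtain ⟨c, hc⟩ : ∃ c : ℝ, c = J / M := ⟨_, rfl⟩
  have hc0 : 0 ≤ c := by rw [hc]; positivity
  have key : 4 * c ^ 3 * J - 3 * c ^ 4 * ∫ x, h x ≤ P := by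
    rw [hJ, hP, ← integral_const_mul, ← integral_const_mul, ← integral_sub (hf.const_mul _)
      (hi.const_mul _)]
    refine integral_mono ((hf.const_mul _).sub (hi.const_mul _)) hf4 fun x => ?_
    show 4 * c ^ 3 * (h x * f x) - 3 * c ^ 4 * h x ≤ h x * f x ^ 4
    have hx := f0 x
    have h1 : 0 ≤ (f x - c) ^ 2 * (f x ^ 2 + 2 * c * f x + 3 * c ^ 2) := by positivity
    have h2 : 4 * c ^ 3 * f x - 3 * c ^ 4 ≤ f x ^ 4 := by nlinarith
    have h3 := mul_le_mul_of_nonneg_left h2 (h0 x)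
    nlinarith
  have hcM : c * M = J := by rw [hc]; field_simp
  have h5 : 3 * c ^ 4 * ∫ x, h x ≤ 3 * c ^ 4 * M := by
    apply mul_le_mul_of_nonneg_left _ (by positivity)
    rw [hM]; linarith
  have h6 : c ^ 4 * M ≤ P := by
    have : 4 * c ^ 3 * J - 3 * c ^ 4 * M = c ^ 4 * M := by rw [← hcM]; ring
    linarith
  calc J ^ 4 = M ^ 3 * (c ^ 4 * M) := by rw [← hcM]; ring
    _ ≤ M ^ 3 * P := mul_le_mul_of_nonneg_left h6 (by positivity)

private theorem shift16 {G G' : Set ℝ} {T' : ℝ} (c : ℝ) (hG : MeasurableSet G)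
    (hG' : MeasurableSet G') (hb : G' ⊆ Set.Icc (-T') T') {f : ℝ → ℝ} (hf : Continuous f)
    (hf0 : ∀ x, 0 ≤ f x) (hs : ∀ t ∈ G, t + c ∈ G') :
    ∫ t in G, f (t + c) ≤ ∫ s in G', f s := by
  have hi : IntegrableOn f G' := (hf.continuousOn.integrableOn_compact isCompact_Icc).mono_set hb
  rw [← integral_indicator hG, ← integral_indicator hG',
    ← integral_add_right_eq_self (G'.indicator f) c]
  refine integral_mono_of_nonneg ?_ ?_ ?_
  · exact Filter.Eventually.of_forall fun t => Set.indicator_nonneg (fun t _ => hf0 _) t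
  · exact ((integrable_indicator_iff hG').2 hi).comp_add_right c
  · refine Filter.Eventually.of_forall fun t => ?_
    by_cases ht : t ∈ G
    · simp only [Set.indicator_of_mem ht, Set.indicator_of_mem (hs t ht)]
      exact le_rfl
    · simp only [Set.indicator_of_notMem ht]
      exact Set.indicator_nonneg (fun t _ => hf0 _) _

private noncomputable def sf16 {Q : ℕ} (a v : ℕ) (χ : DirichletCharacter ℂ Q) (s : ℝ) : ℝ :=
  ‖SS (fun n => (((Real.log n) ^ a * gw 1 v n : ℝ) : ℂ)) χ s‖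

private noncomputable def kf16 : ℝ := Real.exp (9 / 4) * ∑' n : ℕ, ((n : ℝ) ^ 2)⁻¹

private theorem sum16 : Summable fun n : ℕ => ((n : ℝ) ^ 2)⁻¹ :=
  Real.summable_nat_pow_inv.2 (by norm_num)

private theorem term16 {Q : ℕ} {a : ℕ} (ha : a ≤ 1) (v : ℕ) (χ : DirichletCharacter ℂ Q)
    (t : ℝ) (n : ℕ) :
    ‖(((Real.log n) ^ a * gw 1 v n : ℝ) : ℂ) * χ (n : ZMod Q) * (n : ℂ) ^ (t * I)‖ ≤
      Real.exp (9 / 4) * Real.exp (3 * v) * ((n : ℝ) ^ 2)⁻¹ := by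
  rcases Nat.eq_zero_or_pos n with rfl | hn
  · simp [gw]
  · have h1 : ‖(n : ℂ) ^ ((t : ℂ) * I)‖ = 1 := by
      rw [Complex.norm_natCast_cpow_of_pos hn]
      simp
    rw [norm_mul, norm_mul, h1, mul_one, Complex.norm_real, Real.norm_eq_abs, ← Real.exp_add]
    exact (mul_le_of_le_one_right (abs_nonneg _) (DirichletCharacter.norm_le_one χ _)).trans
      (gs_le ha v n)

private theorem sf_le16 {Q : ℕ} {a : ℕ} (ha : a ≤ 1) (v : ℕ) (χ : DirichletCharacter ℂ Q)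
    (s : ℝ) : sf16 a v χ s ≤ kf16 * Real.exp (3 * v) := by
  have h := tsum_of_norm_bounded (sum16.mul_left (Real.exp (9 / 4) * Real.exp (3 * v))).hasSum
    (fun n => term16 ha v χ s n)
  rw [tsum_mul_left] at h
  unfold sf16 SS kf16
  refine h.trans (le_of_eq ?_)
  ring

private theorem sf_cont16 {Q : ℕ} {a : ℕ} (ha : a ≤ 1) (v : ℕ) (χ : DirichletCharacter ℂ Q) :
    Continuous (sf16 a v χ) := by
  unfold sf16 SS
  refine Continuous.norm ?_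
  refine continuous_tsum (fun n => ?_)
    (sum16.mul_left (Real.exp (9 / 4) * Real.exp (3 * v))) fun n t => term16 ha v χ t n
  rcases Nat.eq_zero_or_pos n with rfl | hn
  · have : (fun x : ℝ => ((((Real.log ((0 : ℕ) : ℝ)) ^ a * gw 1 v 0 : ℝ) : ℂ)) *
        χ (((0 : ℕ) : ZMod Q)) * (((0 : ℕ) : ℂ)) ^ ((x : ℂ) * I)) = fun _ => 0 := by
      funext x
      simp [gw]
    rw [this]
    exact continuous_const
  · refine continuous_const.mul ?_
    refine Continuous.const_cpow (by fun_prop) (Or.inl ?_)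
    exact_mod_cast hn.ne'

private theorem sf_nn16 {Q : ℕ} (a v : ℕ) (χ : DirichletCharacter ℂ Q) (s : ℝ) :
    0 ≤ sf16 a v χ s := norm_nonneg _

private theorem kf_nn16 : 0 ≤ kf16 :=
  mul_nonneg (Real.exp_pos _).le (tsum_nonneg fun n => by positivity)

private theorem sh16 (t ξ : ℝ) : |t + 2 * Real.pi * ξ| ≤ |t| + 7 * |ξ| := by
  have h1 : |2 * Real.pi * ξ| ≤ 7 * |ξ| := by
    rw [abs_mul, abs_of_pos (by positivity)]
    have := Real.pi_lt_d2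
    gcongr
    linarith
  exact (abs_add_le _ _).trans (by linarith)

private theorem sh16' (t ξ : ℝ) : |t| ≤ |t + 2 * Real.pi * ξ| + 7 * |ξ| := by
  have h := sh16 (t + 2 * Real.pi * ξ) (-ξ)
  rw [abs_neg] at h
  have e : t + 2 * Real.pi * ξ + 2 * Real.pi * -ξ = t := by ring
  rwa [e] at h

/-- the bound for fixed `ξ` -/
private theorem fix16 {Q : ℕ} (hQ : 1 ≤ Q) {a : ℕ} (ha : a ≤ 1) (v N : ℕ) {C ε E T : ℝ}
    (hC : 0 ≤ C) (hε : 0 ≤ ε) (hε1 : ε ≤ 1) (hT : 1 ≤ T) (hE : 2 * ((v : ℝ) + 2) ≤ E)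
    (h4 : ∀ T' : ℝ, 1 ≤ T' → ∑ χ : DirichletCharacter ℂ Q, ∫ t in Gt χ ((v : ℝ) + 2) T',
      sf16 a v χ t ^ 4 ≤ C * ((Q : ℝ) * T') ^ (1 + ε)) (ξ : ℝ) :
    ∑ χ : DirichletCharacter ℂ Q, ∫ t in Gt χ E T, sf16 a v χ (t + 2 * Real.pi * ξ) ^ 4 ≤
      C * ((Q : ℝ) * T) ^ (1 + ε) * (1 + 14 * |ξ|) ^ 2 +
      2 * T * (kf16 * Real.exp (3 * v)) ^ 4 * (E ^ N)⁻¹ * (1 + 14 * |ξ|) ^ N := by
  classical
  have hξ : 0 ≤ |ξ| := abs_nonneg ξ
  have hv : (0 : ℝ) ≤ v := Nat.cast_nonneg v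
  have hE0 : 0 < E := by linarith
  obtain ⟨T', hT'⟩ : ∃ T' : ℝ, T' = T * (1 + 7 * |ξ|) := ⟨_, rfl⟩
  have hT'1 : 1 ≤ T' := by rw [hT']; nlinarith
  have hT'T : T + 7 * |ξ| ≤ T' := by rw [hT']; nlinarith
  obtain ⟨R, hR⟩ : ∃ R : ℝ, R = 2 * T * (kf16 * Real.exp (3 * v)) ^ 4 * (E ^ N)⁻¹ *
    (1 + 14 * |ξ|) ^ N := ⟨_, rfl⟩
  have hR0 : 0 ≤ R := by rw [hR]; positivity
  have hone : ∀ χ : DirichletCharacter ℂ Q,
      ∫ t in Gt χ E T, sf16 a v χ (t + 2 * Real.pi * ξ) ^ 4 ≤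
      (∫ t in Gt χ ((v : ℝ) + 2) T', sf16 a v χ t ^ 4) + if χ = 1 then R else 0 := by
    intro χ
    have hc4 : Continuous fun s => sf16 a v χ s ^ 4 := (sf_cont16 ha v χ).pow 4
    have hnn : 0 ≤ ∫ t in Gt χ ((v : ℝ) + 2) T', sf16 a v χ t ^ 4 :=
      integral_nonneg fun t => pow_nonneg (sf_nn16 a v χ t) 4
    have hRn : 0 ≤ if χ = 1 then R else 0 := by split_ifs <;> simp [hR0]
    by_cases hcase : χ = 1 ∧ E < 14 * |ξ|
    · have h1 : ∫ t in Gt χ E T, sf16 a v χ (t + 2 * Real.pi * ξ) ^ 4 ≤ R := by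
        have hsub : Gt χ E T ⊆ Set.Icc (-T) T := Gt_sub χ E T
        have h2 : ∫ t in Gt χ E T, sf16 a v χ (t + 2 * Real.pi * ξ) ^ 4 ≤
            (kf16 * Real.exp (3 * v)) ^ 4 * volume.real (Gt χ E T) := by
          have h3 := norm_setIntegral_le_of_norm_le_const (μ := volume) (s := Gt χ E T)
            (f := fun t => sf16 a v χ (t + 2 * Real.pi * ξ) ^ 4)
            (C := (kf16 * Real.exp (3 * v)) ^ 4)
            ((measure_mono hsub).trans_lt (by rw [Real.volume_Icc]; exact ENNReal.ofReal_lt_top))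
            (fun t _ => by
              rw [Real.norm_of_nonneg (pow_nonneg (sf_nn16 a v χ _) 4)]
              exact pow_le_pow_left₀ (sf_nn16 a v χ _) (sf_le16 ha v χ _) 4)
          exact (le_abs_self _).trans h3
        have h3 : volume.real (Gt χ E T) ≤ 2 * T := by
          refine (measureReal_mono hsub (by rw [Real.volume_Icc]; exact ENNReal.ofReal_ne_top)).trans ?_
          rw [Real.volume_real_Icc_of_le (by linarith)]
          linarith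
        have h4' : 1 ≤ (E ^ N)⁻¹ * (1 + 14 * |ξ|) ^ N := by
          rw [← inv_pow, ← mul_pow]
          apply one_le_pow₀
          rw [inv_mul_eq_div, one_le_div hE0]
          linarith [hcase.2]
        have hK : 0 ≤ (kf16 * Real.exp (3 * v)) ^ 4 := by positivity
        calc _ ≤ (kf16 * Real.exp (3 * v)) ^ 4 * (2 * T) :=
              h2.trans (mul_le_mul_of_nonneg_left h3 hK)
          _ = (kf16 * Real.exp (3 * v)) ^ 4 * (2 * T) * 1 := by ring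
          _ ≤ (kf16 * Real.exp (3 * v)) ^ 4 * (2 * T) * ((E ^ N)⁻¹ * (1 + 14 * |ξ|) ^ N) :=
              mul_le_mul_of_nonneg_left h4' (by positivity)
          _ = R := by rw [hR]; ring
      rw [if_pos hcase.1]
      linarith
    · refine le_add_of_le_of_nonneg ?_ hRn
      refine shift16 (T' := T') (f := fun s => sf16 a v χ s ^ 4) (2 * Real.pi * ξ)
        (meas16 χ E T) (meas16 χ _ T') (Gt_sub χ _ T') hc4
        (fun s => pow_nonneg (sf_nn16 a v χ s) 4) ?_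
      intro t ht
      refine ⟨?_, fun hχ => ?_⟩
      · have h1 := sh16 t ξ
        have h2 := ht.1
        linarith
      · have h1 := sh16' t ξ
        have h2 := ht.2 hχ
        have h3 : 14 * |ξ| ≤ E := by
          by_contra h
          exact hcase ⟨hχ, not_le.1 h⟩
        linarith
  have hQ0 : (0 : ℝ) < Q := by exact_mod_cast hQ
  calc ∑ χ : DirichletCharacter ℂ Q, ∫ t in Gt χ E T, sf16 a v χ (t + 2 * Real.pi * ξ) ^ 4
      ≤ ∑ χ : DirichletCharacter ℂ Q,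
          ((∫ t in Gt χ ((v : ℝ) + 2) T', sf16 a v χ t ^ 4) + if χ = 1 then R else 0) :=
        Finset.sum_le_sum fun χ _ => hone χ
    _ = (∑ χ : DirichletCharacter ℂ Q, ∫ t in Gt χ ((v : ℝ) + 2) T', sf16 a v χ t ^ 4) + R := by
        rw [Finset.sum_add_distrib, Finset.sum_ite_eq']
        simp
    _ ≤ C * ((Q : ℝ) * T') ^ (1 + ε) + R := by
        have := h4 T' hT'1
        linarith
    _ ≤ C * ((Q : ℝ) * T) ^ (1 + ε) * (1 + 14 * |ξ|) ^ 2 + R := by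
        have h1 : ((Q : ℝ) * T') ^ (1 + ε) ≤ ((Q : ℝ) * T) ^ (1 + ε) * (1 + 14 * |ξ|) ^ 2 := by
          have e1 : (Q : ℝ) * T' = (Q : ℝ) * T * (1 + 7 * |ξ|) := by rw [hT']; ring
          rw [e1, Real.mul_rpow (by positivity) (by positivity)]
          apply mul_le_mul_of_nonneg_left _ (by positivity)
          calc (1 + 7 * |ξ|) ^ (1 + ε) ≤ (1 + 14 * |ξ|) ^ (1 + ε) :=
                Real.rpow_le_rpow (by positivity) (by linarith) (by linarith)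
            _ ≤ (1 + 14 * |ξ|) ^ (2 : ℝ) :=
                Real.rpow_le_rpow_of_exponent_le (by linarith) (by linarith)
            _ = (1 + 14 * |ξ|) ^ 2 := by
                rw [show (2 : ℝ) = ((2 : ℕ) : ℝ) by norm_num, Real.rpow_natCast]
        have h2 := mul_le_mul_of_nonneg_left h1 hC
        linarith
    _ = _ := by rw [hR]

/-- Fubini and Jensen: the total of the fourth powers -/
private theorem tot16 {H : ℝ → ℂ} (hHc : Continuous H)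
    (hHi : ∀ N : ℕ, Integrable fun ξ : ℝ => ‖H ξ‖ * (1 + 14 * |ξ|) ^ N)
    {Q : ℕ} {F : ArithmeticFunction ℝ} {a : ℕ} (ha : a ≤ 1)
    (v N : ℕ) {A₁ A₂ E T : ℝ}
    (hrep : ∀ (χ : DirichletCharacter ℂ Q) (t : ℝ), DP (pc F v) χ t =
      ∫ ξ : ℝ, H ξ * cexp ((-(2 * Real.pi * ξ * v) : ℝ) * I) *
      SS (fun n => (((Real.log n) ^ a * gw 1 v n : ℝ) : ℂ)) χ (t + 2 * Real.pi * ξ))
    (hfix : ∀ ξ : ℝ, ∑ χ : DirichletCharacter ℂ Q,
      ∫ t in Gt χ E T, sf16 a v χ (t + 2 * Real.pi * ξ) ^ 4 ≤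
      A₁ * (1 + 14 * |ξ|) ^ 2 + A₂ * (1 + 14 * |ξ|) ^ N) :
    ∑ χ : DirichletCharacter ℂ Q, ∫ t in Gt χ E T, nt F v χ t ^ 4 ≤
      Real.exp (-(v : ℝ)) ^ 4 * (1 + ∫ ξ, ‖H ξ‖) ^ 3 *
      (A₁ * (∫ ξ, ‖H ξ‖ * (1 + 14 * |ξ|) ^ 2) + A₂ * ∫ ξ, ‖H ξ‖ * (1 + 14 * |ξ|) ^ N) := by
  have hH1 : Integrable fun ξ => ‖H ξ‖ := by simpa using hHi 0
  have hM0 : 0 ≤ ∫ ξ, ‖H ξ‖ := integral_nonneg fun ξ => norm_nonneg _
  obtain ⟨B, hB⟩ : ∃ B : ℝ, B = kf16 * Real.exp (3 * v) := ⟨_, rfl⟩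
  have hB0 : 0 ≤ B := by rw [hB]; exact mul_nonneg kf_nn16 (Real.exp_pos _).le
  obtain ⟨M, hM⟩ : ∃ M : ℝ, M = Real.exp (-(v : ℝ)) ^ 4 * (1 + ∫ ξ, ‖H ξ‖) ^ 3 := ⟨_, rfl⟩
  have hMn : 0 ≤ M := by rw [hM]; positivity
  -- the function of two variables
  have hcont : ∀ χ : DirichletCharacter ℂ Q,
      Continuous fun p : ℝ × ℝ => ‖H p.2‖ * sf16 a v χ (p.1 + 2 * Real.pi * p.2) ^ 4 := by
    intro χ
    have h1 : Continuous fun p : ℝ × ℝ => sf16 a v χ (p.1 + 2 * Real.pi * p.2) :=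
      (sf_cont16 ha v χ).comp (by fun_prop)
    exact (hHc.comp continuous_snd).norm.mul (h1.pow 4)
  have hfin : ∀ χ : DirichletCharacter ℂ Q, volume (Gt χ E T) < ⊤ := fun χ =>
    (measure_mono (Gt_sub χ E T)).trans_lt (by rw [Real.volume_Icc]; exact ENNReal.ofReal_lt_top)
  have hint : ∀ χ : DirichletCharacter ℂ Q,
      Integrable (fun p : ℝ × ℝ => ‖H p.2‖ * sf16 a v χ (p.1 + 2 * Real.pi * p.2) ^ 4)
        ((volume.restrict (Gt χ E T)).prod volume) := by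
    intro χ
    have : IsFiniteMeasure (volume.restrict (Gt χ E T)) :=
      ⟨by rw [Measure.restrict_apply_univ]; exact hfin χ⟩
    have h1 : Integrable (fun p : ℝ × ℝ => B ^ 4 * ‖H p.2‖)
        ((volume.restrict (Gt χ E T)).prod volume) :=
      (integrable_const (B ^ 4)).mul_prod hH1
    refine h1.mono' (hcont χ).aestronglyMeasurable (Filter.Eventually.of_forall fun p => ?_)
    have h2 := sf_nn16 a v χ (p.1 + 2 * Real.pi * p.2)
    have h3 : sf16 a v χ (p.1 + 2 * Real.pi * p.2) ≤ B := by rw [hB]; exact sf_le16 ha v χ _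
    rw [Real.norm_of_nonneg (by positivity), mul_comm]
    exact mul_le_mul_of_nonneg_right (pow_le_pow_left₀ h2 h3 4) (norm_nonneg _)
  -- pointwise
  have hpt : ∀ (χ : DirichletCharacter ℂ Q) (t : ℝ), nt F v χ t ^ 4 ≤
      M * ∫ ξ, ‖H ξ‖ * sf16 a v χ (t + 2 * Real.pi * ξ) ^ 4 := by
    intro χ t
    have hc1 : Continuous fun ξ : ℝ => sf16 a v χ (t + 2 * Real.pi * ξ) :=
      (sf_cont16 ha v χ).comp (by fun_prop)
    have hle : ∀ ξ, sf16 a v χ (t + 2 * Real.pi * ξ) ≤ B := fun ξ => by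
      rw [hB]; exact sf_le16 ha v χ _
    have hi1 : Integrable fun ξ : ℝ => ‖H ξ‖ * sf16 a v χ (t + 2 * Real.pi * ξ) := by
      refine (hH1.mul_const B).mono' (hHc.norm.mul hc1).aestronglyMeasurable
        (Filter.Eventually.of_forall fun ξ => ?_)
      rw [Real.norm_of_nonneg (mul_nonneg (norm_nonneg _) (sf_nn16 a v χ _))]
      exact mul_le_mul_of_nonneg_left (hle ξ) (norm_nonneg _)
    have hi4 : Integrable fun ξ : ℝ => ‖H ξ‖ * sf16 a v χ (t + 2 * Real.pi * ξ) ^ 4 := by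
      refine (hH1.mul_const (B ^ 4)).mono' (hHc.norm.mul (hc1.pow 4)).aestronglyMeasurable
        (Filter.Eventually.of_forall fun ξ => ?_)
      rw [Real.norm_of_nonneg (mul_nonneg (norm_nonneg _) (pow_nonneg (sf_nn16 a v χ _) 4))]
      exact mul_le_mul_of_nonneg_left (pow_le_pow_left₀ (sf_nn16 a v χ _) (hle ξ) 4)
        (norm_nonneg _)
    have h1 : ‖DP (pc F v) χ t‖ ≤ ∫ ξ, ‖H ξ‖ * sf16 a v χ (t + 2 * Real.pi * ξ) := by
      rw [hrep χ t]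
      refine norm_integral_le_of_norm_le hi1 (Filter.Eventually.of_forall fun ξ => ?_)
      rw [norm_mul, norm_mul, Complex.norm_exp_ofReal_mul_I, mul_one]
      exact le_rfl
    have h2 := jensen16 (fun ξ => norm_nonneg (H ξ))
      (fun ξ => sf_nn16 a v χ (t + 2 * Real.pi * ξ)) hH1 hi1 hi4
    have h3 : ‖DP (pc F v) χ t‖ ^ 4 ≤ (1 + ∫ ξ, ‖H ξ‖) ^ 3 *
        ∫ ξ, ‖H ξ‖ * sf16 a v χ (t + 2 * Real.pi * ξ) ^ 4 :=
      (pow_le_pow_left₀ (norm_nonneg _) h1 4).trans h2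
    unfold nt
    rw [mul_pow, hM, mul_assoc]
    exact mul_le_mul_of_nonneg_left h3 (by positivity)
  have hone : ∀ χ : DirichletCharacter ℂ Q, ∫ t in Gt χ E T, nt F v χ t ^ 4 ≤
      M * ∫ ξ, ‖H ξ‖ * ∫ t in Gt χ E T, sf16 a v χ (t + 2 * Real.pi * ξ) ^ 4 := by
    intro χ
    have h1 : IntegrableOn (fun t => nt F v χ t ^ 4) (Gt χ E T) :=
      (((nt_continuous F v χ).pow 4).continuousOn.integrableOn_compact isCompact_Icc).mono_set
        (Gt_sub χ E T)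
    have h2 : Integrable (fun t => M * ∫ ξ, ‖H ξ‖ * sf16 a v χ (t + 2 * Real.pi * ξ) ^ 4)
        (volume.restrict (Gt χ E T)) := ((hint χ).integral_prod_left).const_mul M
    refine (integral_mono h1 h2 fun t => hpt χ t).trans ?_
    rw [integral_const_mul, integral_integral_swap (hint χ)]
    refine le_of_eq ?_
    congr 1
    refine integral_congr_ae (Filter.Eventually.of_forall fun ξ => ?_)
    show ∫ t in Gt χ E T, ‖H ξ‖ * sf16 a v χ (t + 2 * Real.pi * ξ) ^ 4 = _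
    rw [integral_const_mul]
  have hgi : ∀ χ : DirichletCharacter ℂ Q,
      Integrable fun ξ => ‖H ξ‖ * ∫ t in Gt χ E T, sf16 a v χ (t + 2 * Real.pi * ξ) ^ 4 := by
    intro χ
    have h1 := (hint χ).integral_prod_right
    refine h1.congr (Filter.Eventually.of_forall fun ξ => ?_)
    show ∫ t in Gt χ E T, ‖H ξ‖ * sf16 a v χ (t + 2 * Real.pi * ξ) ^ 4 = _
    rw [integral_const_mul]
  calc ∑ χ : DirichletCharacter ℂ Q, ∫ t in Gt χ E T, nt F v χ t ^ 4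
      ≤ ∑ χ : DirichletCharacter ℂ Q,
          M * ∫ ξ, ‖H ξ‖ * ∫ t in Gt χ E T, sf16 a v χ (t + 2 * Real.pi * ξ) ^ 4 :=
        Finset.sum_le_sum fun χ _ => hone χ
    _ = M * ∫ ξ, ∑ χ : DirichletCharacter ℂ Q,
          ‖H ξ‖ * ∫ t in Gt χ E T, sf16 a v χ (t + 2 * Real.pi * ξ) ^ 4 := by
        rw [← Finset.mul_sum, integral_finsetSum _ fun χ _ => hgi χ]
    _ ≤ M * ∫ ξ, (A₁ * (‖H ξ‖ * (1 + 14 * |ξ|) ^ 2) + A₂ * (‖H ξ‖ * (1 + 14 * |ξ|) ^ N)) := by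
        refine mul_le_mul_of_nonneg_left ?_ hMn
        refine integral_mono (integrable_finsetSum _ fun χ _ => hgi χ)
          (((hHi 2).const_mul A₁).add ((hHi N).const_mul A₂)) fun ξ => ?_
        show ∑ χ : DirichletCharacter ℂ Q,
          ‖H ξ‖ * ∫ t in Gt χ E T, sf16 a v χ (t + 2 * Real.pi * ξ) ^ 4 ≤
          A₁ * (‖H ξ‖ * (1 + 14 * |ξ|) ^ 2) + A₂ * (‖H ξ‖ * (1 + 14 * |ξ|) ^ N)
        rw [← Finset.mul_sum]
        have := mul_le_mul_of_nonneg_left (hfix ξ) (norm_nonneg (H ξ))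
        refine this.trans (le_of_eq ?_)
        ring
    _ = _ := by
        rw [integral_add ((hHi 2).const_mul A₁) ((hHi N).const_mul A₂), integral_const_mul,
          integral_const_mul, hM]

private theorem ev16 {ε : ℝ} (hε : 0 < ε) (c₁ c₂ : ℝ) (h1 : 0 ≤ c₁) (h2 : 0 ≤ c₂) :
    ∃ X₀ : ℝ, 1 ≤ X₀ ∧ ∀ X : ℝ, X₀ ≤ X →
      c₁ * (1 + 3 * X) ^ 4 * Real.exp (ε / 4 * X) + c₂ ≤ Real.exp (ε * X) := by
  obtain ⟨D, hD⟩ : ∃ D : ℝ, D = (Nat.factorial 4 : ℝ) * (4 / ε) ^ 4 * 4 ^ 4 := ⟨_, rfl⟩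
  have hD0 : 0 ≤ D := by rw [hD]; positivity
  refine ⟨max 1 (2 * Real.log (c₁ * D + c₂ + 1) / ε), le_max_left _ _, fun X hX => ?_⟩
  have hX1 : 1 ≤ X := (le_max_left _ _).trans hX
  have hX2 := (le_max_right _ _).trans hX
  have h3 : (1 + 3 * X) ^ 4 ≤ D * Real.exp (ε / 4 * X) := by
    have h4 := Real.pow_div_factorial_le_exp (ε / 4 * X) (by positivity) 4
    rw [div_le_iff₀ (by positivity), mul_pow] at h4
    have h5 : (1 + 3 * X) ^ 4 ≤ (4 * X) ^ 4 := by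
      apply pow_le_pow_left₀ (by positivity)
      linarith
    have h6 : (4 / ε) ^ 4 * ((ε / 4) ^ 4 * X ^ 4) = X ^ 4 := by
      rw [← mul_assoc, ← mul_pow]
      have : 4 / ε * (ε / 4) = 1 := by field_simp
      rw [this, one_pow, one_mul]
    calc (1 + 3 * X) ^ 4 ≤ (4 * X) ^ 4 := h5
      _ = 4 ^ 4 * ((4 / ε) ^ 4 * ((ε / 4) ^ 4 * X ^ 4)) := by rw [h6, mul_pow]
      _ ≤ 4 ^ 4 * ((4 / ε) ^ 4 * (Real.exp (ε / 4 * X) * (Nat.factorial 4 : ℝ))) := by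
          gcongr
      _ = _ := by rw [hD]; ring
  have he1 : 1 ≤ Real.exp (ε / 2 * X) := Real.one_le_exp (by positivity)
  have hpos : 0 < c₁ * D + c₂ + 1 := by positivity
  have h7 : c₁ * D + c₂ + 1 ≤ Real.exp (ε / 2 * X) := by
    rw [← Real.log_le_iff_le_exp hpos]
    rw [div_le_iff₀ hε] at hX2
    linarith
  calc c₁ * (1 + 3 * X) ^ 4 * Real.exp (ε / 4 * X) + c₂
      ≤ c₁ * (D * Real.exp (ε / 4 * X)) * Real.exp (ε / 4 * X) + c₂ * Real.exp (ε / 2 * X) := by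
        refine add_le_add ?_ (le_mul_of_one_le_right h2 he1)
        refine mul_le_mul_of_nonneg_right ?_ (Real.exp_pos _).le
        exact mul_le_mul_of_nonneg_left h3 h1
    _ = (c₁ * D + c₂) * Real.exp (ε / 2 * X) := by
        have : Real.exp (ε / 2 * X) = Real.exp (ε / 4 * X) * Real.exp (ε / 4 * X) := by
          rw [← Real.exp_add]
          congr 1
          ring
        rw [this]
        ring
    _ ≤ Real.exp (ε / 2 * X) * Real.exp (ε / 2 * X) :=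
        mul_le_mul_of_nonneg_right (by linarith) (Real.exp_pos _).le
    _ = _ := by
        rw [← Real.exp_add]
        congr 1
        ring

theorem four_nt (h4 : FourProp) {b : ℕ} (hb : 2 ≤ b) {ε : ℝ} (hε : 0 < ε) {κ : ℝ} (hκ : 0 < κ) :
    ∃ X₀ : ℝ, 1 ≤ X₀ ∧ ∀ X : ℝ, X₀ ≤ X → ∀ (m' : ℕ) (T : ℝ), 1 ≤ T →
    (b : ℝ) ^ m' * T ≤ Real.exp X → ∀ (k : Fin 3) (Z : ℝ), k ≠ 2 → ∀ v : ℕ, (v : ℝ) ≤ 3 * X →
    ∑ χ : DirichletCharacter ℂ (b ^ m'),
      ∫ t in Gt χ (Real.exp (κ * X)) T, nt (tyf Z k) v χ t ^ 4 ≤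
      Real.exp (ε * X) * ((b : ℝ) ^ m' * T) * Real.exp (-(2 * v)) := by
  obtain ⟨H, hHc, hHi, hrep⟩ := dp_rep
  have hεp : 0 < min 1 (ε / 4) := lt_min one_pos (by positivity)
  obtain ⟨C, hC, hF⟩ := h4 b hb (min 1 (ε / 4)) hεp
  obtain ⟨N, hN⟩ := exists_nat_ge (30 / κ)
  have hNκ : 30 ≤ (N : ℝ) * κ := by rwa [div_le_iff₀ hκ] at hN
  obtain ⟨M, hM⟩ : ∃ M : ℝ, M = (1 + ∫ ξ, ‖H ξ‖) ^ 3 := ⟨_, rfl⟩
  have hM0 : 0 ≤ M := by
    have : 0 ≤ ∫ ξ, ‖H ξ‖ := integral_nonneg fun ξ => norm_nonneg _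
    rw [hM]; positivity
  obtain ⟨J₂, hJ₂⟩ : ∃ J : ℝ, J = ∫ ξ, ‖H ξ‖ * (1 + 14 * |ξ|) ^ 2 := ⟨_, rfl⟩
  obtain ⟨J₃, hJ₃⟩ : ∃ J : ℝ, J = ∫ ξ, ‖H ξ‖ * (1 + 14 * |ξ|) ^ N := ⟨_, rfl⟩
  have hJ20 : 0 ≤ J₂ := by rw [hJ₂]; exact integral_nonneg fun ξ => by positivity
  have hJ30 : 0 ≤ J₃ := by rw [hJ₃]; exact integral_nonneg fun ξ => by positivity
  have hk := kf_nn16
  obtain ⟨X₁, hX₁, hev⟩ := ev16 hε (M * C * J₂) (M * (2 * kf16 ^ 4) * J₃) (by positivity)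
    (by positivity)
  refine ⟨max X₁ (20 / κ ^ 2), hX₁.trans (le_max_left _ _), ?_⟩
  intro X hX m' T hT hQT k Z hkk v hv
  have hXX₁ : X₁ ≤ X := (le_max_left _ _).trans hX
  have hX1 : 1 ≤ X := hX₁.trans hXX₁
  have hX2 : 20 / κ ^ 2 ≤ X := (le_max_right _ _).trans hX
  have hX3 : 20 ≤ κ ^ 2 * X := by
    rw [div_le_iff₀ (by positivity)] at hX2
    linarith
  have hv0 : (0 : ℝ) ≤ v := Nat.cast_nonneg v
  obtain ⟨a, ha, hFa⟩ := ty_pow Z hkk
  obtain ⟨E, hE⟩ : ∃ E : ℝ, E = Real.exp (κ * X) := ⟨_, rfl⟩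
  have hEv : 2 * ((v : ℝ) + 2) ≤ E := by
    have h1 := Real.pow_div_factorial_le_exp (κ * X) (by positivity) 2
    rw [← hE] at h1
    have h2 : (Nat.factorial 2 : ℝ) = 2 := by norm_num [Nat.factorial]
    rw [h2] at h1
    have h3 : 20 * X ≤ (κ * X) ^ 2 := by nlinarith
    linarith
  have hE0 : 0 < E := by rw [hE]; exact Real.exp_pos _
  have hQ1 : 1 ≤ b ^ m' := Nat.one_le_pow _ _ (by omega)
  have hQr : (1 : ℝ) ≤ (b : ℝ) ^ m' := by exact_mod_cast hQ1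
  have hQT1 : 1 ≤ (b : ℝ) ^ m' * T := by nlinarith
  have hfix := fix16 hQ1 ha v N (C := C * (1 + v) ^ 4 * Real.exp (2 * v))
    (ε := min 1 (ε / 4)) (E := E) (T := T) (by positivity) hεp.le (min_le_left _ _) hT hEv
    (fun T' hT' => by
      have := hF m' a ha T' v ((v : ℝ) + 2) hT' hv0 le_rfl
      refine this.trans (le_of_eq ?_)
      push_cast
      ring)
  have htot := tot16 hHc hHi ha v N (hrep (b ^ m') (tyf Z k) a ha hFa · · v) hfix
  rw [← hM, ← hJ₂, ← hJ₃] at htot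
  rw [← hE]
  refine htot.trans ?_
  push_cast
  -- first part
  have h1 : ((b : ℝ) ^ m' * T) ^ (1 + min 1 (ε / 4)) ≤
      ((b : ℝ) ^ m' * T) * Real.exp (ε / 4 * X) := by
    rw [Real.rpow_add (by positivity), Real.rpow_one]
    apply mul_le_mul_of_nonneg_left _ (by positivity)
    calc ((b : ℝ) ^ m' * T) ^ (min 1 (ε / 4)) ≤ ((b : ℝ) ^ m' * T) ^ (ε / 4) :=
          Real.rpow_le_rpow_of_exponent_le hQT1 (min_le_right _ _)
      _ ≤ (Real.exp X) ^ (ε / 4) := Real.rpow_le_rpow (by positivity) hQT (by positivity)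
      _ = Real.exp (ε / 4 * X) := by
          rw [← Real.exp_mul]
          congr 1
          ring
  have h2 : (1 + (v : ℝ)) ^ 4 ≤ (1 + 3 * X) ^ 4 := by
    apply pow_le_pow_left₀ (by positivity)
    linarith
  have hexp4 : Real.exp (-(v : ℝ)) ^ 4 = Real.exp (-(2 * v)) * Real.exp (-(2 * v)) := by
    rw [← Real.exp_nat_mul, ← Real.exp_add]
    congr 1
    push_cast
    ring
  have hexp2 : Real.exp (-(2 * (v : ℝ))) * Real.exp (2 * v) = 1 := by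
    rw [← Real.exp_add]
    simp
  have h3 : (E ^ N)⁻¹ * Real.exp (3 * (v : ℝ)) ^ 4 * Real.exp (-(2 * v)) ≤ 1 := by
    rw [hE, ← Real.exp_nat_mul, ← Real.exp_nat_mul, ← Real.exp_neg, ← Real.exp_add,
      ← Real.exp_add, Real.exp_le_one_iff]
    push_cast
    nlinarith
  have hQTn : 0 ≤ (b : ℝ) ^ m' * T := by positivity
  have hTQ : T ≤ (b : ℝ) ^ m' * T := by nlinarith
  have hA : Real.exp (-(v : ℝ)) ^ 4 * M *
      (C * (1 + (v : ℝ)) ^ 4 * Real.exp (2 * v) * ((b : ℝ) ^ m' * T) ^ (1 + min 1 (ε / 4)) *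
        J₂) ≤ (M * C * J₂ * (1 + 3 * X) ^ 4 * Real.exp (ε / 4 * X)) * ((b : ℝ) ^ m' * T) *
        Real.exp (-(2 * v)) := by
    calc _ = M * C * J₂ * Real.exp (-(2 * v)) * (Real.exp (-(2 * (v : ℝ))) * Real.exp (2 * v)) *
          ((1 + (v : ℝ)) ^ 4 * ((b : ℝ) ^ m' * T) ^ (1 + min 1 (ε / 4))) := by
          rw [hexp4]; ring
      _ = M * C * J₂ * Real.exp (-(2 * v)) *
          ((1 + (v : ℝ)) ^ 4 * ((b : ℝ) ^ m' * T) ^ (1 + min 1 (ε / 4))) := by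
          rw [hexp2, mul_one]
      _ ≤ M * C * J₂ * Real.exp (-(2 * v)) *
          ((1 + 3 * X) ^ 4 * (((b : ℝ) ^ m' * T) * Real.exp (ε / 4 * X))) := by
          apply mul_le_mul_of_nonneg_left _ (by positivity)
          exact mul_le_mul h2 h1 (by positivity) (by positivity)
      _ = _ := by ring
  have hB : Real.exp (-(v : ℝ)) ^ 4 * M *
      (2 * T * (kf16 * Real.exp (3 * v)) ^ 4 * (E ^ N)⁻¹ * J₃) ≤
      (M * (2 * kf16 ^ 4) * J₃) * ((b : ℝ) ^ m' * T) * Real.exp (-(2 * v)) := by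
    calc _ = M * (2 * kf16 ^ 4) * J₃ * T * Real.exp (-(2 * v)) *
          ((E ^ N)⁻¹ * Real.exp (3 * (v : ℝ)) ^ 4 * Real.exp (-(2 * v))) := by
          rw [hexp4, mul_pow]; ring
      _ ≤ M * (2 * kf16 ^ 4) * J₃ * T * Real.exp (-(2 * v)) * 1 :=
          mul_le_mul_of_nonneg_left h3 (by positivity)
      _ = M * (2 * kf16 ^ 4) * J₃ * Real.exp (-(2 * v)) * T := by ring
      _ ≤ M * (2 * kf16 ^ 4) * J₃ * Real.exp (-(2 * v)) * ((b : ℝ) ^ m' * T) :=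
          mul_le_mul_of_nonneg_left hTQ (by positivity)
      _ = _ := by ring
  have hfinal := hev X hXX₁
  have hw : 0 ≤ ((b : ℝ) ^ m' * T) * Real.exp (-(2 * v)) := by positivity
  have hC' := mul_le_mul_of_nonneg_right hfinal hw
  rw [mul_add]
  refine (add_le_add hA hB).trans ?_
  refine le_trans (le_of_eq ?_) (hC'.trans (le_of_eq ?_))
  · ring
  · ring

end Pool.Agent.HPP
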