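import Pool.Agent.HPP.VMain
import Pool.Agent.HPP.VFour

/-!
# HPP/VBig2: stage 2 (`f < (5/6) L`), with the fourth moment of smooth factors
-/

namespace Pool.Agent.HPP

open Complex MeasureTheory

/-- Chebyshev's inequality for the level sets -/
theorem LM_cheb {Q : ℕ} {F : ArithmeticFunction ℝ} {v : ℕ} {κ T V : ℝ} (hV : 0 < V) :
    V ^ 4 * LM (fun χ : DirichletCharacter ℂ Q => Gt χ κ T) (nt F v) V ≤
      ∑ χ : DirichletCharacter ℂ Q, ∫ t in Gt χ κ T, nt F v χ t ^ 4 := by
  unfold LM
  rw [Finset.mul_sum]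
  refine Finset.sum_le_sum fun χ _ => ?_
  have hc : Continuous fun t => nt F v χ t ^ 4 := (nt_continuous F v χ).pow 4
  have hm : MeasurableSet {t | V ≤ nt F v χ t} :=
    measurableSet_le measurable_const (nt_continuous F v χ).measurable
  have hG := Gt_measurable χ κ T
  have hint : IntegrableOn (fun t => nt F v χ t ^ 4) (Gt χ κ T) :=
    (hc.integrableOn_Icc (a := -T) (b := T)).mono_set (Gt_sub χ κ T)
  have hvol : volume (Gt χ κ T ∩ {t | V ≤ nt F v χ t}) ≠ ⊤ := by
    refine ne_top_of_le_ne_top ?_ (measure_mono (Set.inter_subset_left.trans (Gt_sub χ κ T)))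
    rw [Real.volume_Icc]
    exact ENNReal.ofReal_ne_top
  calc V ^ 4 * volume.real (Gt χ κ T ∩ {t | V ≤ nt F v χ t})
      = ∫ _t in Gt χ κ T ∩ {t | V ≤ nt F v χ t}, V ^ 4 := by
        rw [setIntegral_const, smul_eq_mul, mul_comm]
    _ ≤ ∫ t in Gt χ κ T ∩ {t | V ≤ nt F v χ t}, nt F v χ t ^ 4 := by
        refine setIntegral_mono_on (integrableOn_const hvol)
          (hint.mono_set Set.inter_subset_left) (hG.inter hm) fun t ht => ?_
        exact pow_le_pow_left₀ hV.le ht.2 4
    _ ≤ ∫ t in Gt χ κ T, nt F v χ t ^ 4 :=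
        setIntegral_mono_set hint (Filter.Eventually.of_forall fun t =>
          pow_nonneg (nt_nonneg F v χ t) 4) Set.inter_subset_left.eventuallyLE

theorem ls_big2 (hPV : PVProp) (h4 : FourProp) {f L νm : ℝ} (hf : 1 / 4 ≤ f)
    (hL : 6 / 5 * f < L) (hL1 : L ≤ 1) (hν : 0 < νm) : LSAt f L 2 νm := by
  intro b hb ε hε κ hκ
  have hL0 : 0 < L := by linarith
  have hf0 : 0 < f := by linarith
  obtain ⟨X₁, hX₁1, hA⟩ := case_A hPV hf0 (by linarith : f < 5 / 6 * L) hL1 hν hb hε
  obtain ⟨X₂, hX₂1, hP⟩ := four_nt h4 hb hε hκ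
  obtain ⟨X₄, hX₄1, hX₄⟩ := lin_le_exp 2 (η := ε) hε
  refine ⟨Real.exp (max (max X₁ X₂) (max X₄ 10)), fun x hx m' T hm' hQT hD k v hv hv3 V hV1
    hV2 => ?_⟩
  have hx0 : 0 < x := (Real.exp_pos _).trans_le hx
  set X : ℝ := Real.log x with hX
  have hXx : max (max X₁ X₂) (max X₄ 10) ≤ X := by
    rw [hX, Real.le_log_iff_exp_le hx0]; exact hx
  have g1 : X₁ ≤ X := ((le_max_left _ _).trans (le_max_left _ _)).trans hXx
  have g2 : X₂ ≤ X := ((le_max_right _ _).trans (le_max_left _ _)).trans hXx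
  have g4 : X₄ ≤ X := ((le_max_left _ _).trans (le_max_right _ _)).trans hXx
  have g5 : 10 ≤ X := ((le_max_right _ _).trans (le_max_right _ _)).trans hXx
  have hX0 : 0 < X := by linarith
  have exx : ∀ a : ℝ, x ^ a = Real.exp (a * X) := fun a => by
    rw [Real.rpow_def_of_pos hx0, mul_comm]
  have hb1 : (2 : ℝ) ≤ b := by exact_mod_cast hb
  have hQ1 : (1 : ℝ) ≤ (b : ℝ) ^ m' := one_le_pow₀ (by linarith)
  have hT1 : 1 ≤ T := by linarith
  rw [exx] at hD hV1
  have hv0 : (0 : ℝ) < v := lt_of_lt_of_le (by positivity) hv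
  have hV0 : 0 < V := (Real.exp_pos _).trans_le hV1
  obtain ⟨u, hu0, hVu⟩ : ∃ u : ℝ, 0 ≤ u ∧ V = Real.exp (-(u * v)) := by
    refine ⟨-Real.log V / v, div_nonneg (by linarith [Real.log_nonpos hV0.le hV2]) hv0.le, ?_⟩
    rw [div_mul_cancel₀ _ hv0.ne', neg_neg, Real.exp_log hV0]
  rw [hVu, hX, target_eq hx0 hv0, ← hX]
  have hQQ : ((b ^ m' : ℕ) : ℝ) = (b : ℝ) ^ m' := by push_cast; ring
  have hfL : f * X ≤ L * X := mul_le_mul_of_nonneg_right (by linarith) hX0.le
  rcases le_or_gt (v : ℝ) (L * X / 2) with hcase | hcase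
  · obtain ⟨j, hj1, hj2, hj3⟩ := exists_pow hv0 hcase
    exact LM_Gt_le.trans (hA X g1 m' T hT1 hQT hD _ (tyf_sm _ k) v j hj1 hv hj2 hj3 u hu0)
  · by_cases hk : k = 2
    · have h1 : pc (tyf (x ^ (1 / 20 : ℝ)) k) v = 0 := by
        rw [hk]
        show pc (mz _) v = 0
        refine pc_mz_zero ?_
        rw [exx]
        refine Real.exp_le_exp.2 ?_
        have h5 : 3 / 10 * X ≤ L * X := mul_le_mul_of_nonneg_right (by linarith) hX0.le
        linarith
      rw [LM_empty (fun χ t _ => ?_)]
      · exact (Real.exp_pos _).le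
      · rw [nt_zero_of h1]
        exact Real.exp_pos _
    · rcases le_or_gt u (1 / 2) with hu | hu
      · -- fourth moment
        have hD1 : (b : ℝ) ^ m' * T ≤ Real.exp X := by
          refine hD.trans (Real.exp_le_exp.2 ?_)
          have h5 : L * X ≤ 1 * X := mul_le_mul_of_nonneg_right hL1 hX0.le
          linarith
        have h1 := hP X g2 m' T hT1 hD1 k (x ^ (1 / 20 : ℝ)) hk v hv3
        have h2 := LM_cheb (Q := b ^ m') (F := tyf (x ^ (1 / 20 : ℝ)) k) (v := v)
          (κ := Real.exp (κ * X)) (T := T) (Real.exp_pos (-(u * v)))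
        have h3 := h2.trans h1
        have e4 : Real.exp (-(u * v)) ^ 4 = Real.exp (-(4 * (u * v))) := by
          rw [← Real.exp_nat_mul]
          congr 1
          push_cast
          ring
        rw [e4] at h3
        have h4' : LM (fun χ : DirichletCharacter ℂ (b ^ m') => Gt χ (x ^ κ) T)
            (nt (tyf (x ^ (1 / 20 : ℝ)) k) v) (Real.exp (-(u * v))) ≤
            Real.exp (4 * (u * v)) * (Real.exp (ε * X) * ((b : ℝ) ^ m' * T) *
              Real.exp (-(2 * v))) := by
          rw [exx κ]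
          have h5 : Real.exp (4 * (u * v)) * Real.exp (-(4 * (u * v))) = 1 := by
            rw [← Real.exp_add]; simp
          calc _ = Real.exp (4 * (u * v)) * (Real.exp (-(4 * (u * v))) *
                LM (fun χ : DirichletCharacter ℂ (b ^ m') => Gt χ (Real.exp (κ * X)) T)
                (nt (tyf (x ^ (1 / 20 : ℝ)) k) v) (Real.exp (-(u * v)))) := by
                rw [← mul_assoc, h5, one_mul]
            _ ≤ _ := mul_le_mul_of_nonneg_left h3 (Real.exp_pos _).le
        refine h4'.trans ?_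
        calc Real.exp (4 * (u * v)) * (Real.exp (ε * X) * ((b : ℝ) ^ m' * T) *
              Real.exp (-(2 * v)))
            ≤ Real.exp (4 * (u * v)) * (Real.exp (ε * X) * Real.exp (f * X) *
              Real.exp (-(2 * v))) := by gcongr
          _ = Real.exp (4 * (u * v) + (ε * X + f * X + -(2 * v))) := by
              rw [← Real.exp_add, ← Real.exp_add, ← Real.exp_add]
          _ ≤ _ := by
              refine Real.exp_le_exp.2 ?_
              have h6 : L * X / 2 * (1 - 2 * u) ≤ v * (1 - 2 * u) :=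
                mul_le_mul_of_nonneg_right hcase.le (by linarith)
              linarith
      · -- trivial bound
        have hQn : 1 ≤ b ^ m' := Nat.one_le_pow _ _ (by omega)
        refine (LM_triv hQn (by linarith)).trans ?_
        rw [hQQ]
        have k1 : 2 ≤ Real.exp (ε * X) := by
          have := hX₄ X g4
          linarith
        have k2 : (b : ℝ) ^ m' * T ≤ Real.exp (2 * L * X * u) := by
          refine hD.trans (Real.exp_le_exp.2 ?_)
          have k3 : L * X * (1 / 2) ≤ L * X * u := mul_le_mul_of_nonneg_left hu.le (by positivity)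
          linarith
        calc 2 * ((b : ℝ) ^ m' * T) ≤ Real.exp (ε * X) * Real.exp (2 * L * X * u) :=
              mul_le_mul k1 k2 (by positivity) (Real.exp_pos _).le
          _ = _ := by rw [← Real.exp_add]

theorem bigProp2 (hPV : PVProp) (h4 : FourProp) : BigProp2 := by
  intro f p hf hf1 hfp hp
  set a : ℝ := min (p / 2) 1 with ha
  have ha1 : 6 / 5 * f < a := lt_min (by linarith) (by linarith)
  have ha2 : a ≤ p / 2 := min_le_left _ _
  have ha3 : a ≤ 1 := min_le_right _ _
  set L : ℝ := (6 / 5 * f + a) / 2 with hL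
  set f' : ℝ := (f + 5 / 6 * L) / 2 with hf'
  have hff : f < f' := by rw [hf', hL]; linarith
  have hfL : 6 / 5 * f' < L := by rw [hf', hL]; linarith
  have hL1 : L ≤ 1 := by rw [hL]; linarith
  have hLp : 2 * L < p := by rw [hL]; linarith
  have hp0 : 0 < p := by linarith
  have hν : 0 < (p - 2 * L) / (160 * p) := div_pos (by linarith) (by positivity)
  have hν2 : 2 * L < p * (1 - 80 * ((p - 2 * L) / (160 * p))) := by
    have : p * (1 - 80 * ((p - 2 * L) / (160 * p))) = p - (p - 2 * L) / 2 := by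
      field_simp
      ring
    rw [this]
    linarith
  exact big_of_mom (by linarith) (by linarith) hp
    (mom_fin (by linarith) hff (by linarith) hp hν hν2 one_pos le_rfl (by norm_num)
      (ls_big2 hPV h4 (by linarith) hfL hL1 hν))

end Pool.Agent.HPP
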