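import Pool.Agent.HPP.VHBa

/-!
# HPP/VHBb: analysis for the Heath-Brown identity (helper72)

`pp_split`: `PP` is the sum over `n ≤ x²` up to `C / x^6`. `far_bd`: pieces with
`|∑ v - log x| > e log x` are negligible. `near_bd`: the other pieces by the Fourier integral of the
Gaussian.
-/

namespace Pool.Agent.HPP

open Complex MeasureTheory ArithmeticFunction

theorem hb_gk_nonneg (ξ : ℝ) : 0 ≤ gk ξ := by
  unfold gk; positivity

theorem hb_gk_integrable : Integrable gk := by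
  have h := (integrable_exp_neg_mul_sq (show (0 : ℝ) < 1 / 4 by norm_num)).div_const
    (2 * Real.sqrt Real.pi)
  refine h.congr (Filter.Eventually.of_forall fun ξ => ?_)
  unfold gk
  simp only
  congr 2
  ring

theorem hb_sqrt : Real.sqrt (Real.pi / (1 / 4)) = 2 * Real.sqrt Real.pi := by
  rw [show Real.pi / (1 / 4) = 2 ^ 2 * Real.pi by ring, Real.sqrt_mul (by norm_num),
    Real.sqrt_sq (by norm_num)]

theorem hb_gk_int : ∫ ξ, gk ξ = 1 := by
  have h := integral_gaussian (1 / 4 : ℝ)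
  rw [hb_sqrt] at h
  have h2 : ∀ ξ : ℝ, gk ξ = Real.exp (-(1 / 4) * ξ ^ 2) / (2 * Real.sqrt Real.pi) := by
    intro ξ
    unfold gk
    congr 2
    ring
  simp_rw [h2]
  rw [integral_div, h]
  have h3 : 0 < Real.sqrt Real.pi := Real.sqrt_pos.2 Real.pi_pos
  field_simp

theorem gk_fourier (y : ℝ) :
    ∫ ξ : ℝ, (gk ξ : ℂ) * cexp (I * ξ * y) = ((Real.exp (-y ^ 2) : ℝ) : ℂ) := by
  have h := fourierIntegral_gaussian (b := 1 / 4) (by norm_num) (y : ℂ)
  have h3 : 0 < Real.sqrt Real.pi := Real.sqrt_pos.2 Real.pi_pos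
  have h4 : ((Real.pi : ℂ) / (1 / 4)) ^ (1 / 2 : ℂ) = ((2 * Real.sqrt Real.pi : ℝ) : ℂ) := by
    rw [← hb_sqrt, Real.sqrt_eq_rpow, Complex.ofReal_cpow (by positivity)]
    push_cast
    rfl
  rw [h4] at h
  have h5 : ∀ ξ : ℝ, (gk ξ : ℂ) * cexp (I * ξ * y) =
      ((2 * Real.sqrt Real.pi : ℝ) : ℂ)⁻¹ * (cexp (I * y * ξ) * cexp (-(1 / 4) * (ξ : ℂ) ^ 2)) := by
    intro ξ
    unfold gk
    push_cast
    rw [div_eq_mul_inv]
    have e1 : -(ξ : ℂ) ^ 2 / 4 = -(1 / 4) * (ξ : ℂ) ^ 2 := by ring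
    have e2 : I * (ξ : ℂ) * y = I * y * ξ := by ring
    rw [e1, e2]
    ring
  simp_rw [h5]
  rw [integral_const_mul, h, ← mul_assoc, inv_mul_cancel₀ (by
    rw [Ne, Complex.ofReal_eq_zero]; positivity), one_mul]
  push_cast
  congr 1
  ring

/-! ### the tail -/

theorem tail_term {x : ℝ} (hx0 : 0 < x) (hx : 12 ≤ Real.log x) {n : ℕ} (hn : x ^ 2 < n) :
    vonMangoldt n * Real.exp (-(Real.log (n / x)) ^ 2) ≤ (x ^ 6)⁻¹ * (1 / (n : ℝ) ^ 2) := by
  have hx2 : 0 < x ^ 2 := by positivity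
  have hn0 : (0 : ℝ) < n := hx2.trans hn
  set L := Real.log n with hL
  set l := Real.log x with hl
  have h1 : 2 * l < L := by
    have := Real.log_lt_log hx2 hn
    rw [Real.log_pow] at this
    push_cast at this
    exact this
  have h2 : Real.log (n / x) = L - l := Real.log_div hn0.ne' hx0.ne'
  have h3 : vonMangoldt n ≤ Real.exp L := by
    refine vonMangoldt_le_log.trans ?_
    have := Real.add_one_le_exp L
    rw [← hL]
    linarith
  have h4 : (x ^ 6)⁻¹ * (1 / (n : ℝ) ^ 2) = Real.exp (-6 * l - 2 * L) := by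
    have e1 : x ^ 6 = Real.exp (6 * l) := by
      rw [hl, mul_comm, Real.exp_mul, Real.exp_log hx0]
      norm_num
    have e2 : (n : ℝ) ^ 2 = Real.exp (2 * L) := by
      rw [hL, mul_comm, Real.exp_mul, Real.exp_log hn0]
      norm_num
    rw [e1, e2, ← Real.exp_neg, one_div, ← Real.exp_neg, ← Real.exp_add]
    congr 1
    ring
  rw [h4, h2]
  calc vonMangoldt n * Real.exp (-(L - l) ^ 2) ≤ Real.exp L * Real.exp (-(L - l) ^ 2) :=
        mul_le_mul_of_nonneg_right h3 (Real.exp_pos _).le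
    _ = Real.exp (L + -(L - l) ^ 2) := by rw [← Real.exp_add]
    _ ≤ _ := by
        apply Real.exp_le_exp.2
        have h5 : L / 2 ≤ L - l := by linarith
        have h6 : (L / 2) ^ 2 ≤ (L - l) ^ 2 := pow_le_pow_left₀ (by linarith) h5 2
        nlinarith

/-- the constant of the tail -/
noncomputable def c0t : ℝ := ∑' n : ℕ, 1 / ((n : ℝ) + 1) ^ 2

theorem c0t_summable : Summable fun n : ℕ => 1 / ((n : ℝ) + 1) ^ 2 := by
  have h := (summable_nat_add_iff 1).2 (Real.summable_one_div_nat_pow.2 one_lt_two)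
  refine h.congr fun n => ?_
  push_cast
  rfl

theorem norm_natCast_cpow_mul_I_le (n : ℕ) (t : ℝ) : ‖(n : ℂ) ^ (t * I)‖ ≤ 1 := by
  rcases Nat.eq_zero_or_pos n with h | h
  · subst h
    rcases eq_or_ne t 0 with ht | ht
    · subst ht; simp
    · rw [Nat.cast_zero, Complex.zero_cpow (by
        rw [Ne, mul_eq_zero]; push Not
        exact ⟨by exact_mod_cast ht, I_ne_zero⟩)]
      simp
  · rw [Complex.norm_natCast_cpow_of_pos h]
    simp

theorem pp_split {Q : ℕ} (χ : DirichletCharacter ℂ Q) (t : ℝ) {x : ℝ} (hx0 : 0 < x)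
    (hx : 12 ≤ Real.log x) :
    ‖PP χ t x‖ ≤ ‖∑ n ∈ Finset.Icc 1 ⌊x ^ 2⌋₊, (vonMangoldt n : ℂ) * χ (n : ZMod Q) *
      (n : ℂ) ^ (t * I) * (Real.exp (-(Real.log (n / x)) ^ 2) : ℂ)‖ + c0t * (x ^ 6)⁻¹ := by
  set X := ⌊x ^ 2⌋₊ with hX
  set F : ℕ → ℂ := fun n => (vonMangoldt n : ℂ) * χ (n : ZMod Q) *
      (n : ℂ) ^ (t * I) * (Real.exp (-(Real.log (n / x)) ^ 2) : ℂ) with hF
  have hFn : ∀ n : ℕ, ‖F n‖ ≤ vonMangoldt n * Real.exp (-(Real.log (n / x)) ^ 2) := by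
    intro n
    rw [hF]
    simp only [norm_mul, Complex.norm_real, Real.norm_eq_abs,
      abs_of_nonneg (vonMangoldt_nonneg (n := n)), abs_of_pos (Real.exp_pos _)]
    have h1 := χ.norm_le_one (n : ZMod Q)
    have h2 := norm_natCast_cpow_mul_I_le n t
    have h3 := vonMangoldt_nonneg (n := n)
    have h4 := (Real.exp_pos (-(Real.log (n / x)) ^ 2)).le
    apply mul_le_mul_of_nonneg_right _ h4
    calc vonMangoldt n * ‖χ (n : ZMod Q)‖ * ‖(n : ℂ) ^ (t * I)‖
        ≤ vonMangoldt n * 1 * 1 := by gcongr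
      _ = _ := by ring
  have htail : ∀ i : ℕ, ‖F (i + (X + 1))‖ ≤ (x ^ 6)⁻¹ * (1 / ((i : ℝ) + 1) ^ 2) := by
    intro i
    have h1 : x ^ 2 < ((i + (X + 1) : ℕ) : ℝ) := by
      have := Nat.lt_floor_add_one (x ^ 2)
      push_cast
      have hi : (0 : ℝ) ≤ i := Nat.cast_nonneg i
      rw [← hX] at this
      linarith
    refine (hFn _).trans ((tail_term hx0 hx h1).trans ?_)
    apply mul_le_mul_of_nonneg_left _ (by positivity)
    apply one_div_le_one_div_of_le (by positivity)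
    apply pow_le_pow_left₀ (by positivity)
    push_cast
    have : (0 : ℝ) ≤ X := Nat.cast_nonneg X
    linarith
  have hs1 : Summable fun i : ℕ => F (i + (X + 1)) :=
    Summable.of_norm_bounded (c0t_summable.mul_left _) htail
  have hs : Summable F := (summable_nat_add_iff (X + 1)).1 hs1
  have e1 : PP χ t x = ∑ n ∈ Finset.range (X + 1), F n + ∑' i : ℕ, F (i + (X + 1)) :=
    (hs.sum_add_tsum_nat_add (X + 1)).symm
  have e2 : ∑ n ∈ Finset.range (X + 1), F n = ∑ n ∈ Finset.Icc 1 X, F n := by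
    rw [Finset.range_eq_Ico, Finset.sum_eq_sum_Ico_succ_bot (Nat.succ_pos X)]
    have h0 : F 0 = 0 := by rw [hF]; simp
    rw [h0, zero_add]
    rfl
  have e3 : ‖∑' i : ℕ, F (i + (X + 1))‖ ≤ c0t * (x ^ 6)⁻¹ := by
    refine (tsum_of_norm_bounded (c0t_summable.mul_left _).hasSum htail).trans ?_
    rw [tsum_mul_left, mul_comm]
    rfl
  rw [e1, e2]
  exact (norm_add_le _ _).trans (by linarith)

/-! ### the pieces -/

theorem pc_l1 {F : ArithmeticFunction ℝ} (hF : Sm F) (v : ℕ) {x : ℝ} (hx : 1 ≤ x) :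
    ∑ n ∈ Finset.Icc 1 ⌊x ^ 2⌋₊, |pc F v n| ≤ x ^ 2 * (1 + 2 * Real.log x) := by
  have hlx : 0 ≤ Real.log x := Real.log_nonneg hx
  calc _ ≤ ∑ n ∈ Finset.Icc 1 ⌊x ^ 2⌋₊, (1 + 2 * Real.log x) := by
        refine Finset.sum_le_sum fun n hn => ?_
        obtain ⟨h1, h2⟩ := Finset.mem_Icc.1 hn
        rw [pc_apply, abs_mul]
        have h3 : (n : ℝ) ≤ x ^ 2 := (Nat.le_floor_iff (by positivity)).1 h2
        have h4 : Real.log n ≤ 2 * Real.log x := by
          have h5 : (0 : ℝ) < n := by exact_mod_cast h1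
          have := Real.log_le_log h5 h3
          rw [Real.log_pow] at this
          push_cast at this
          exact this
        have h5 := hF n
        have h6 : |uw (Real.log n - v)| ≤ 1 := by
          rw [abs_of_nonneg (uw_nonneg _)]; exact uw_le_one _
        calc |F n| * |uw (Real.log n - v)| ≤ |F n| * 1 :=
              mul_le_mul_of_nonneg_left h6 (abs_nonneg _)
          _ ≤ _ := by linarith
    _ = (⌊x ^ 2⌋₊ : ℝ) * (1 + 2 * Real.log x) := by
        rw [Finset.sum_const, Nat.card_Icc, nsmul_eq_mul]; simp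
    _ ≤ _ := by
        apply mul_le_mul_of_nonneg_right (Nat.floor_le (by positivity)) (by linarith)

/-- pieces far from the diagonal -/
theorem far_bd {Q : ℕ} (χ : DirichletCharacter ℂ Q) (t : ℝ) {e x : ℝ}
    (hx : 1 ≤ x) (hlx : 1 + 2 * Real.log x ≤ x) {k : ℕ} (hk : k ≤ 80) (hel : 80 ≤ e / 2 * Real.log x)
    (f : Fin k → ArithmeticFunction ℝ) (hf : ∀ i, Sm (f i)) (v : Fin k → ℕ)
    (hv : e * Real.log x < |(∑ i, (v i : ℝ)) - Real.log x|) :
    ‖∑ n ∈ Finset.Icc 1 ⌊x ^ 2⌋₊, (((∏ i, pc (f i) (v i)) n : ℝ) : ℂ) * χ (n : ZMod Q) *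
      (n : ℂ) ^ (t * I) * (Real.exp (-(Real.log (n / x)) ^ 2) : ℂ)‖ ≤
      x ^ 240 * Real.exp (-(e / 2 * Real.log x) ^ 2) := by
  have hx0 : 0 < x := by linarith
  refine (norm_sum_le _ _).trans ?_
  have h1 : ∀ n ∈ Finset.Icc 1 ⌊x ^ 2⌋₊, ‖(((∏ i, pc (f i) (v i)) n : ℝ) : ℂ) * χ (n : ZMod Q) *
      (n : ℂ) ^ (t * I) * (Real.exp (-(Real.log (n / x)) ^ 2) : ℂ)‖ ≤
      |(∏ i, pc (f i) (v i)) n| * Real.exp (-(e / 2 * Real.log x) ^ 2) := by
    intro n hn
    obtain ⟨n1, n2⟩ := Finset.mem_Icc.1 hn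
    simp only [norm_mul, Complex.norm_real, Real.norm_eq_abs, abs_of_pos (Real.exp_pos _)]
    by_cases hz : (∏ i, pc (f i) (v i)) n = 0
    · rw [hz]; simp
    · obtain ⟨_, h3⟩ := prod_supp Finset.univ f v hz
      rw [Finset.card_univ, Fintype.card_fin] at h3
      have hn0 : (0 : ℝ) < n := by exact_mod_cast n1
      have h4 : Real.log (n / x) = Real.log n - Real.log x := Real.log_div hn0.ne' hx0.ne'
      have hk' : (k : ℝ) ≤ 80 := by exact_mod_cast hk
      have h5 : e / 2 * Real.log x ≤ |Real.log (n / x)| := by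
        rw [h4]
        have h6 : |(∑ i, (v i : ℝ)) - Real.log x| ≤
            |Real.log n - Real.log x| + |Real.log n - ∑ i, (v i : ℝ)| := by
          have e1 : (∑ i, (v i : ℝ)) - Real.log x =
              (Real.log n - Real.log x) - (Real.log n - ∑ i, (v i : ℝ)) := by ring
          rw [e1]
          exact abs_sub _ _
        linarith
      have h6 : (e / 2 * Real.log x) ^ 2 ≤ (Real.log (n / x)) ^ 2 := by
        rw [← sq_abs (Real.log (n / x))]
        exact pow_le_pow_left₀ (by linarith) h5 2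
      have h7 : Real.exp (-(Real.log (n / x)) ^ 2) ≤ Real.exp (-(e / 2 * Real.log x) ^ 2) :=
        Real.exp_le_exp.2 (by linarith)
      have h8 := χ.norm_le_one (n : ZMod Q)
      have h9 := norm_natCast_cpow_mul_I_le n t
      calc |(∏ i, pc (f i) (v i)) n| * ‖χ (n : ZMod Q)‖ * ‖(n : ℂ) ^ (t * I)‖ *
            Real.exp (-(Real.log (n / x)) ^ 2)
          ≤ |(∏ i, pc (f i) (v i)) n| * 1 * 1 * Real.exp (-(e / 2 * Real.log x) ^ 2) := by
            gcongr
        _ = _ := by ring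
  refine (Finset.sum_le_sum h1).trans ?_
  rw [← Finset.sum_mul]
  apply mul_le_mul_of_nonneg_right _ (Real.exp_pos _).le
  refine (af_l1_prod Finset.univ (fun i => pc (f i) (v i)) _).trans ?_
  have hl0 : 0 ≤ Real.log x := Real.log_nonneg hx
  calc ∏ i, ∑ n ∈ Finset.Icc 1 ⌊x ^ 2⌋₊, |pc (f i) (v i) n|
      ≤ ∏ _i : Fin k, x ^ 3 := by
        refine Finset.prod_le_prod (fun i _ => Finset.sum_nonneg fun _ _ => abs_nonneg _)
          fun i _ => ?_
        refine (pc_l1 (hf i) (v i) hx).trans ?_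
        calc x ^ 2 * (1 + 2 * Real.log x) ≤ x ^ 2 * x :=
              mul_le_mul_of_nonneg_left hlx (by positivity)
          _ = x ^ 3 := by ring
    _ = (x ^ 3) ^ k := by rw [Finset.prod_const, Finset.card_univ, Fintype.card_fin]
    _ ≤ (x ^ 3) ^ 80 := pow_le_pow_right₀ (one_le_pow₀ hx) hk
    _ = x ^ 240 := by rw [← pow_mul]

/-- pieces near the diagonal -/
theorem near_bd {Q : ℕ} (χ : DirichletCharacter ℂ Q) (t : ℝ) {e x : ℝ} (he1 : e ≤ 1 / 4)
    (hx : 1 ≤ x) (hlx : 107 ≤ Real.log x) {k : ℕ} (hk : k ≤ 80)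
    (f : Fin k → ArithmeticFunction ℝ) (v : Fin k → ℕ)
    (hv : |(∑ i, (v i : ℝ)) - Real.log x| ≤ e * Real.log x) :
    ‖∑ n ∈ Finset.Icc 1 ⌊x ^ 2⌋₊, (((∏ i, pc (f i) (v i)) n : ℝ) : ℂ) * χ (n : ZMod Q) *
      (n : ℂ) ^ (t * I) * (Real.exp (-(Real.log (n / x)) ^ 2) : ℂ)‖ ≤
      x ^ (1 + e) * ∫ ξ, gk ξ * ∏ i, nt (f i) (v i) χ (t + ξ) := by
  have hx0 : 0 < x := by linarith
  set G : ArithmeticFunction ℝ := ∏ i, pc (f i) (v i) with hG
  set s := Finset.Icc 1 ⌊x ^ 2⌋₊ with hs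
  have hk' : (k : ℝ) ≤ 80 := by exact_mod_cast hk
  have hsupp : ∀ n, G n ≠ 0 → n ∈ s := by
    intro n hn
    obtain ⟨h2, h3⟩ := prod_supp Finset.univ f v hn
    rw [Finset.card_univ, Fintype.card_fin] at h3
    have hn0 : (0 : ℝ) < n := by exact_mod_cast h2
    rw [hs, Finset.mem_Icc]
    refine ⟨h2, (Nat.le_floor_iff (by positivity)).2 ?_⟩
    have h4 := (abs_le.1 h3).2
    have h5 := (abs_le.1 hv).2
    have h6 : Real.log n ≤ Real.log (x ^ 2) := by
      rw [Real.log_pow]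
      push_cast
      nlinarith
    exact (Real.log_le_log_iff hn0 (by positivity)).1 h6
  obtain ⟨-, hDP⟩ : (Function.support (G : ℕ → ℝ)).Finite ∧ ∀ τ : ℝ, DP G χ τ =
      ∏ i, DP (pc (f i) (v i)) χ τ :=
    ⟨(dp_prod Finset.univ (fun i _ => pc_fin (f i) (v i)) χ 0).1,
      fun τ => (dp_prod Finset.univ (fun i _ => pc_fin (f i) (v i)) χ τ).2⟩
  have hint : ∀ n ∈ s, Integrable fun ξ : ℝ => (G n : ℂ) * χ (n : ZMod Q) *
      (n : ℂ) ^ (t * I) * ((gk ξ : ℂ) * cexp (I * ξ * Real.log (n / x))) := by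
    intro n _
    apply Integrable.const_mul
    refine (hb_gk_integrable.ofReal (𝕜 := ℂ)).mul_bdd (c := 1) ?_ ?_
    · exact (by fun_prop : Continuous fun ξ : ℝ =>
        cexp (I * ξ * (Real.log (n / x) : ℂ))).aestronglyMeasurable
    · refine Filter.Eventually.of_forall fun ξ => ?_
      rw [show I * (ξ : ℂ) * (Real.log (n / x) : ℂ) = ((ξ * Real.log (n / x) : ℝ) : ℂ) * I by
        push_cast; ring, Complex.norm_exp_ofReal_mul_I]
  have e1 : ∑ n ∈ s, ((G n : ℝ) : ℂ) * χ (n : ZMod Q) *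
      (n : ℂ) ^ (t * I) * (Real.exp (-(Real.log (n / x)) ^ 2) : ℂ) =
      ∫ ξ : ℝ, (gk ξ : ℂ) * cexp (-(I * ξ * Real.log x)) * DP G χ (t + ξ) := by
    have h1 : ∀ n ∈ s, ((G n : ℝ) : ℂ) * χ (n : ZMod Q) *
        (n : ℂ) ^ (t * I) * (Real.exp (-(Real.log (n / x)) ^ 2) : ℂ) =
        ∫ ξ : ℝ, (G n : ℂ) * χ (n : ZMod Q) *
      (n : ℂ) ^ (t * I) * ((gk ξ : ℂ) * cexp (I * ξ * Real.log (n / x))) := by
      intro n _
      rw [integral_const_mul, gk_fourier]
    rw [Finset.sum_congr rfl h1, ← integral_finsetSum _ hint]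
    congr 1
    funext ξ
    rw [dp_eq_sum s hsupp, Finset.mul_sum]
    refine Finset.sum_congr rfl fun n hn => ?_
    rw [hs, Finset.mem_Icc] at hn
    have hn0 : (0 : ℝ) < n := by exact_mod_cast hn.1
    have hn1 : (n : ℂ) ≠ 0 := by exact_mod_cast hn0.ne'
    have e2 : (n : ℂ) ^ (((t + ξ : ℝ) : ℂ) * I) = (n : ℂ) ^ (t * I) * (n : ℂ) ^ (ξ * I) := by
      rw [← Complex.cpow_add _ _ hn1]
      congr 1
      push_cast
      ring
    have e3 : (n : ℂ) ^ ((ξ : ℂ) * I) = cexp (I * ξ * Real.log n) := by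
      rw [Complex.cpow_def_of_ne_zero hn1, Complex.natCast_log]
      congr 1
      ring
    have e4 : cexp (I * ξ * Real.log (n / x)) =
        cexp (-(I * ξ * Real.log x)) * cexp (I * ξ * Real.log n) := by
      rw [← Complex.exp_add, Real.log_div hn0.ne' hx0.ne']
      congr 1
      push_cast
      ring
    rw [e2, e3, e4]
    ring
  rw [e1]
  refine (norm_integral_le_integral_norm _).trans ?_
  have e5 : ∀ ξ : ℝ, ‖(gk ξ : ℂ) * cexp (-(I * ξ * Real.log x)) * DP G χ (t + ξ)‖ =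
      Real.exp (∑ i, (v i : ℝ)) * (gk ξ * ∏ i, nt (f i) (v i) χ (t + ξ)) := by
    intro ξ
    rw [norm_mul, norm_mul, hDP, norm_prod, Complex.norm_real, Real.norm_eq_abs,
      abs_of_nonneg (hb_gk_nonneg ξ),
      show -(I * (ξ : ℂ) * (Real.log x : ℂ)) = ((-(ξ * Real.log x) : ℝ) : ℂ) * I by
        push_cast; ring, Complex.norm_exp_ofReal_mul_I, mul_one]
    unfold nt
    rw [Finset.prod_mul_distrib, ← Real.exp_sum]
    have e6 : Real.exp (∑ i, (v i : ℝ)) * Real.exp (∑ i, -(v i : ℝ)) = 1 := by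
      rw [← Real.exp_add, ← Finset.sum_add_distrib]
      simp
    calc gk ξ * ∏ i, ‖DP (pc (f i) (v i)) χ (t + ξ)‖
        = (Real.exp (∑ i, (v i : ℝ)) * Real.exp (∑ i, -(v i : ℝ))) *
          (gk ξ * ∏ i, ‖DP (pc (f i) (v i)) χ (t + ξ)‖) := by rw [e6, one_mul]
      _ = _ := by ring
  simp_rw [e5]
  rw [integral_const_mul]
  have h0 : 0 ≤ ∫ ξ, gk ξ * ∏ i, nt (f i) (v i) χ (t + ξ) :=
    integral_nonneg fun ξ => mul_nonneg (hb_gk_nonneg ξ)
      (Finset.prod_nonneg fun i _ => nt_nonneg _ _ _ _)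
  apply mul_le_mul_of_nonneg_right _ h0
  rw [Real.rpow_def_of_pos hx0]
  apply Real.exp_le_exp.2
  have h5 := (abs_le.1 hv).2
  linarith

end Pool.Agent.HPP
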