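import Pool.Agent.HPP.VPow
import Pool.Agent.HPP.VHBb

/-!
# HPP/VHB: the prime polynomial as an average of products of factors (Heath-Brown identity)

PROOF. `K = 40`, `Z = x^(1/20)` (`Z^K = x²`), `A = mz Z * ζ`, `u = 1 - A` (ring of arithmetic functions). `u n = 0` for `n ≤ Z`
(`∑_{d ∣ n} μ(d) = [n = 1]`), so `(Λ * u^K) n = 0` for `n ≤ Z^K = x²`. `u^K = 1 + ∑_{j=1}^K (-1)^j C(K,j) A^j` and
`Λ * A^j = mz^j * ζ^(j-1) * log` (`Λ * ζ = log`), so for `n ≤ x²`: `Λ n = ∑_{j=1}^K (-1)^(j-1) C(K,j) (∏_{i < 2j} tyf Z (fac j i)) n`.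
For `n ≤ x²` each factor `f_i` may be replaced by `∑_{v < M} pc f_i v`, `M = ⌊2 log x⌋ + 3` (`sum_uw`), and the product expanded
(`Finset.prod_univ_sum`): `∏_i f_i = ∑_{v : Fin (2j) → range M} ∏_i pc f_i (v i)` at all `n ≤ x²`. The product
`G_v = ∏_i pc f_i (v i)` is supported in `|log n - ∑ v i| < 2j ≤ 80`, `∑_n |G_v n| ≤ ∏ (3 exp (v i) (v i + 2)) ≤ x^300`.
`PP χ t x = ∑_{n ≤ x²} + ∑_{n > x²}`; the second is `≤ ∑_{n > x²} log n exp (-log² n/4) ≤ x^(-6)`. If `|∑ v i - log x| > e log x`,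
then on the support of `G_v` `|log n - log x| ≥ (e/2) log x`, `g(n) ≤ exp (-(e/2)² log² x)`: negligible. If `v ∈ VV e x j`, then the
support of `G_v` is in `n ≤ x²`, so the sum over `n ≤ x²` is the sum over all `n`; `g(n) = exp (-log² (n/x)) =
∫ gk ξ (n/x)^(iξ) dξ` (Mathlib: Fourier transform of the Gaussian) and `∑_n G_v(n) χ(n) n^(it) (n/x)^(iξ) = x^(-iξ) ∏_i DP (pc f_i (v i)) χ (t+ξ)`
(`dp_mul`), of norm `∏ exp (v i) nt ≤ x^(1+e) ∏ nt`. Binomials `C(40,j) ≤ 2^40 ≤ x^e`.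
-/

namespace Pool.Agent.HPP

open Complex MeasureTheory

theorem gk_int : ∫ ξ, gk ξ = 1 := hb_gk_int

theorem gk_nonneg (ξ : ℝ) : 0 ≤ gk ξ := by
  unfold gk; positivity

private theorem part_prod {x : ℝ} (hx : 1 ≤ x) {k : ℕ} (f : Fin k → ArithmeticFunction ℝ) {n : ℕ}
    (hn : n ≤ ⌊x ^ 2⌋₊) : (∏ i, f i) n =
      ∑ v ∈ Fintype.piFinset (fun _ : Fin k => Finset.range (⌊2 * Real.log x⌋₊ + 3)),
        (∏ i, pc (f i) (v i)) n := by
  have hx0 : 0 < x := by linarith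
  have h1 : ∀ i ∈ Finset.univ, ∀ d ≤ ⌊x ^ 2⌋₊, f i d =
      (∑ v ∈ Finset.range (⌊2 * Real.log x⌋₊ + 3), pc (f i) v) d := by
    intro i _ d hd
    rw [af_sum_apply]
    rcases Nat.eq_zero_or_pos d with h0 | h0
    · subst h0
      simp
    · have hd0 : (0 : ℝ) < d := by exact_mod_cast h0
      have hd1 : (1 : ℝ) ≤ d := by exact_mod_cast h0
      have hd2 : (d : ℝ) ≤ x ^ 2 := (Nat.le_floor_iff (by positivity)).1 hd
      have h3 := Real.log_le_log hd0 hd2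
      rw [Real.log_pow] at h3
      push_cast at h3
      have h4 := Nat.lt_floor_add_one (2 * Real.log x)
      have h5 := sum_uw (y := Real.log d) (M := ⌊2 * Real.log x⌋₊ + 3) (Real.log_nonneg hd1)
        (by push_cast; linarith)
      simp only [pc_apply]
      rw [← Finset.mul_sum, h5, mul_one]
  rw [af_prod_agree Finset.univ h1 n hn, Finset.prod_univ_sum, af_sum_apply]

theorem hb {e : ℝ} (he : 0 < e) (he1 : e ≤ 1 / 4) : ∃ x₀ : ℝ, ∀ x : ℝ, x₀ ≤ x → ∀ (Q : ℕ)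
    (χ : DirichletCharacter ℂ Q) (t : ℝ), ‖PP χ t x‖ ≤ x ^ (1 + 2 * e) *
      (∑ j ∈ Finset.Icc 1 40, ∑ v ∈ VV e x j,
        ∫ ξ, gk ξ * ∏ i, nt (tyf (x ^ (1 / 20 : ℝ)) (fac j i)) (v i) χ (t + ξ)) + x ^ (-5 : ℝ) := by
  have hlog := Real.tendsto_log_atTop
  have hev : ∀ᶠ x : ℝ in Filter.atTop, 1 ≤ x ∧ 107 ≤ Real.log x ∧ 80 ≤ e / 2 * Real.log x ∧
      1 + 2 * Real.log x ≤ x ∧ (2 * Real.log x + 3) ^ 80 ≤ x ∧ 40 * 2 ^ 40 ≤ x ∧
      2 ^ 40 ≤ x ^ e ∧ c0t + 1 ≤ x ∧ 248 ≤ (e / 2) ^ 2 * Real.log x := by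
    have hlit : ∀ s : ℝ, 0 < s → ∀ A B : ℝ, ∀ᶠ x : ℝ in Filter.atTop,
        A * Real.log x + B ≤ x ^ s := by
      intro s hs A B
      have h1 := (isLittleO_log_rpow_atTop hs).bound
        (show (0 : ℝ) < 1 / (2 * (|A| + 1)) by positivity)
      have h2 := (tendsto_rpow_atTop hs).eventually_ge_atTop (2 * |B|)
      filter_upwards [h1, h2, Filter.eventually_ge_atTop 1] with x e1 e2 e3
      have hx : 0 ≤ Real.log x := Real.log_nonneg e3
      have hp : 0 ≤ x ^ s := Real.rpow_nonneg (by linarith) s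
      rw [Real.norm_of_nonneg hx, Real.norm_of_nonneg hp] at e1
      have h3 : A * Real.log x ≤ (|A| + 1) * Real.log x := by
        have := le_abs_self A
        nlinarith
      have h4 : (|A| + 1) * Real.log x ≤ (|A| + 1) * (1 / (2 * (|A| + 1)) * x ^ s) :=
        mul_le_mul_of_nonneg_left e1 (by positivity)
      have h5 : (|A| + 1) * (1 / (2 * (|A| + 1)) * x ^ s) = x ^ s / 2 := by
        have : (|A| + 1) ≠ 0 := by positivity
        field_simp
      have h6 := le_abs_self B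
      linarith
    filter_upwards [Filter.eventually_ge_atTop 1, hlog.eventually_ge_atTop 107,
      hlog.eventually_ge_atTop (80 / (e / 2)), hlit 1 one_pos 2 1,
      hlit (1 / 80) (by norm_num) 2 3, Filter.eventually_ge_atTop (40 * 2 ^ 40),
      hlit e he 0 (2 ^ 40), Filter.eventually_ge_atTop (c0t + 1),
      hlog.eventually_ge_atTop (248 / (e / 2) ^ 2)] with x h1 h2 h3 h4 h5 h6 h7 h8 h9
    have hx0 : 0 < x := by linarith
    refine ⟨h1, h2, ?_, ?_, ?_, h6, ?_, h8, ?_⟩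
    · rw [div_le_iff₀ (by positivity)] at h3; linarith
    · rw [Real.rpow_one] at h4; linarith
    · have h10 : (2 * Real.log x + 3) ^ 80 ≤ (x ^ (1 / 80 : ℝ)) ^ 80 :=
        pow_le_pow_left₀ (by linarith) h5 80
      have h11 : (x ^ (1 / 80 : ℝ)) ^ 80 = x := by
        rw [← Real.rpow_natCast, ← Real.rpow_mul hx0.le]
        norm_num
      linarith
    · linarith
    · rw [div_le_iff₀ (by positivity)] at h9; linarith
  obtain ⟨x₀, hx₀⟩ := Filter.eventually_atTop.1 hev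
  refine ⟨x₀, fun x hx Q χ t => ?_⟩
  obtain ⟨hx1, hl, hel, hlx, hM, h40, hxe, hc0, h248⟩ := hx₀ x hx
  have hx0 : 0 < x := by linarith
  set Z : ℝ := x ^ (1 / 20 : ℝ) with hZ
  have hZ1 : 1 ≤ Z := Real.one_le_rpow hx1 (by norm_num)
  have hZ40 : Z ^ 40 = x ^ 2 := by
    rw [hZ, ← Real.rpow_natCast, ← Real.rpow_mul hx0.le, ← Real.rpow_natCast]
    norm_num
  set X := ⌊x ^ 2⌋₊ with hX
  set M := ⌊2 * Real.log x⌋₊ + 3 with hMd
  set c : ℕ → ℂ := fun n => χ (n : ZMod Q) * (n : ℂ) ^ (t * I) *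
    (Real.exp (-(Real.log (n / x)) ^ 2) : ℂ) with hc
  set al : (j : ℕ) → Finset (Fin (2 * j) → ℕ) := fun j =>
    Fintype.piFinset (fun _ : Fin (2 * j) => Finset.range M) with hal
  set G : (j : ℕ) → (Fin (2 * j) → ℕ) → ArithmeticFunction ℝ := fun j v =>
    ∏ i, pc (tyf Z (fac j i)) (v i) with hG
  set a : ℕ → ℝ := fun j => (-1 : ℝ) ^ (j - 1) * (Nat.choose 40 j : ℝ) with ha
  have hmain : ∑ n ∈ Finset.Icc 1 X, (ArithmeticFunction.vonMangoldt n : ℂ) * χ (n : ZMod Q) *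
      (n : ℂ) ^ (t * I) * (Real.exp (-(Real.log (n / x)) ^ 2) : ℂ) =
      ∑ j ∈ Finset.Icc 1 40, (a j : ℂ) * ∑ v ∈ al j, ∑ n ∈ Finset.Icc 1 X,
        ((G j v n : ℝ) : ℂ) * χ (n : ZMod Q) *
      (n : ℂ) ^ (t * I) * (Real.exp (-(Real.log (n / x)) ^ 2) : ℂ) := by
    have h1 : ∀ n ∈ Finset.Icc 1 X, (ArithmeticFunction.vonMangoldt n : ℂ) * χ (n : ZMod Q) *
        (n : ℂ) ^ (t * I) * (Real.exp (-(Real.log (n / x)) ^ 2) : ℂ) =
        ∑ j ∈ Finset.Icc 1 40, (a j : ℂ) * ∑ v ∈ al j,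
        ((G j v n : ℝ) : ℂ) * χ (n : ZMod Q) *
      (n : ℂ) ^ (t * I) * (Real.exp (-(Real.log (n / x)) ^ 2) : ℂ) := by
      intro n hn
      obtain ⟨n1, n2⟩ := Finset.mem_Icc.1 hn
      have h3 : (n : ℝ) ≤ Z ^ 40 := by
        rw [hZ40]; exact (Nat.le_floor_iff (by positivity)).1 n2
      have h4 : (ArithmeticFunction.vonMangoldt n : ℝ) =
          ∑ j ∈ Finset.Icc 1 40, a j * ∑ v ∈ al j, G j v n := by
        rw [hb_alg hZ1 h3]
        refine Finset.sum_congr rfl fun j _ => ?_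
        rw [part_prod hx1 (fun i => tyf Z (fac j i)) n2]
      rw [h4]
      push_cast
      rw [Finset.sum_mul, Finset.sum_mul, Finset.sum_mul]
      refine Finset.sum_congr rfl fun j _ => ?_
      rw [mul_assoc, mul_assoc, mul_assoc, Finset.sum_mul]
      congr 1
      refine Finset.sum_congr rfl fun v _ => ?_
      ring
    rw [Finset.sum_congr rfl h1, Finset.sum_comm]
    refine Finset.sum_congr rfl fun j _ => ?_
    rw [← Finset.mul_sum, Finset.sum_comm]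
  set J : (j : ℕ) → (Fin (2 * j) → ℕ) → ℝ := fun j v =>
    ∫ ξ, gk ξ * ∏ i, nt (tyf Z (fac j i)) (v i) χ (t + ξ) with hJ
  have hJ0 : ∀ j v, 0 ≤ J j v := fun j v => integral_nonneg fun ξ =>
    mul_nonneg (gk_nonneg ξ) (Finset.prod_nonneg fun i _ => nt_nonneg _ _ _ _)
  set E : ℝ := x ^ 240 * Real.exp (-(e / 2 * Real.log x) ^ 2) with hE
  have hE0 : 0 ≤ E := by positivity
  have hpiece : ∀ j ∈ Finset.Icc 1 40, ∀ v ∈ al j, ‖∑ n ∈ Finset.Icc 1 X,
      ((G j v n : ℝ) : ℂ) * χ (n : ZMod Q) *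
      (n : ℂ) ^ (t * I) * (Real.exp (-(Real.log (n / x)) ^ 2) : ℂ)‖ ≤
      (if |(∑ i, (v i : ℝ)) - Real.log x| ≤ e * Real.log x then x ^ (1 + e) * J j v else 0)
        + E := by
    intro j hj v _
    obtain ⟨j1, j2⟩ := Finset.mem_Icc.1 hj
    split
    · rename_i hv
      have := near_bd χ t he1 hx1 hl (k := 2 * j) (by omega) (fun i => tyf Z (fac j i)) v hv
      linarith
    · rename_i hv
      push Not at hv
      have := far_bd χ t hx1 hlx (k := 2 * j) (by omega) hel (fun i => tyf Z (fac j i))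
        (fun i => tyf_sm Z _) v hv
      linarith
  have ha1 : ∀ j, ‖(a j : ℂ)‖ ≤ 2 ^ 40 := by
    intro j
    rw [Complex.norm_real, Real.norm_eq_abs, ha]
    simp only
    rw [abs_mul, abs_pow, abs_neg, abs_one, one_pow, one_mul, Nat.abs_cast]
    exact_mod_cast Nat.choose_le_two_pow 40 j
  have hcard : ∀ j ∈ Finset.Icc 1 40, ((al j).card : ℝ) ≤ x := by
    intro j hj
    obtain ⟨j1, j2⟩ := Finset.mem_Icc.1 hj
    rw [hal]
    simp only [Fintype.card_piFinset, Finset.card_range, Finset.prod_const, Finset.card_univ,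
      Fintype.card_fin]
    push_cast
    have h1 : (M : ℝ) ≤ 2 * Real.log x + 3 := by
      rw [hMd]
      push_cast
      have := Nat.floor_le (show 0 ≤ 2 * Real.log x by linarith)
      linarith
    have h2 : (1 : ℝ) ≤ M := by
      rw [hMd]
      push_cast
      have : (0 : ℝ) ≤ (⌊2 * Real.log x⌋₊ : ℝ) := Nat.cast_nonneg _
      linarith
    calc (M : ℝ) ^ (2 * j) ≤ (M : ℝ) ^ 80 := pow_le_pow_right₀ h2 (by omega)
      _ ≤ (2 * Real.log x + 3) ^ 80 := pow_le_pow_left₀ (by linarith) h1 80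
      _ ≤ x := hM
  have hsum : ‖∑ n ∈ Finset.Icc 1 X, (ArithmeticFunction.vonMangoldt n : ℂ) * χ (n : ZMod Q) *
      (n : ℂ) ^ (t * I) * (Real.exp (-(Real.log (n / x)) ^ 2) : ℂ)‖ ≤
      2 ^ 40 * x ^ (1 + e) * ∑ j ∈ Finset.Icc 1 40, ∑ v ∈ VV e x j, J j v +
        40 * 2 ^ 40 * x * E := by
    rw [hmain]
    refine (norm_sum_le _ _).trans ?_
    have h1 : ∀ j ∈ Finset.Icc 1 40, ‖(a j : ℂ) * ∑ v ∈ al j, ∑ n ∈ Finset.Icc 1 X,
        ((G j v n : ℝ) : ℂ) * χ (n : ZMod Q) *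
      (n : ℂ) ^ (t * I) * (Real.exp (-(Real.log (n / x)) ^ 2) : ℂ)‖ ≤
        2 ^ 40 * (x ^ (1 + e) * ∑ v ∈ VV e x j, J j v + x * E) := by
      intro j hj
      rw [norm_mul]
      refine mul_le_mul (ha1 j) ?_ (norm_nonneg _) (by positivity)
      refine (norm_sum_le _ _).trans ((Finset.sum_le_sum (hpiece j hj)).trans ?_)
      rw [Finset.sum_add_distrib, ← Finset.sum_filter, Finset.sum_const, nsmul_eq_mul,
        ← Finset.mul_sum]
      have h2 : (al j).filter (fun v => |(∑ i, (v i : ℝ)) - Real.log x| ≤ e * Real.log x) =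
          VV e x j := rfl
      rw [h2]
      have h3 := mul_le_mul_of_nonneg_right (hcard j hj) hE0
      linarith
    refine (Finset.sum_le_sum h1).trans (le_of_eq ?_)
    rw [← Finset.mul_sum, Finset.sum_add_distrib, ← Finset.mul_sum, Finset.sum_const,
      Nat.card_Icc, nsmul_eq_mul]
    push_cast
    ring
  have hp := pp_split χ t hx0 (by linarith : 12 ≤ Real.log x)
  have hS0 : 0 ≤ ∑ j ∈ Finset.Icc 1 40, ∑ v ∈ VV e x j, J j v :=
    Finset.sum_nonneg fun j _ => Finset.sum_nonneg fun v _ => hJ0 j v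
  have hmul : 2 ^ 40 * x ^ (1 + e) * ∑ j ∈ Finset.Icc 1 40, ∑ v ∈ VV e x j, J j v ≤
      x ^ (1 + 2 * e) * ∑ j ∈ Finset.Icc 1 40, ∑ v ∈ VV e x j, J j v := by
    apply mul_le_mul_of_nonneg_right _ hS0
    have h1 : x ^ (1 + 2 * e) = x ^ e * x ^ (1 + e) := by
      rw [← Real.rpow_add hx0]; congr 1; ring
    rw [h1]
    exact mul_le_mul_of_nonneg_right hxe (Real.rpow_nonneg hx0.le _)
  have herr : 40 * 2 ^ 40 * x * E + c0t * (x ^ 6)⁻¹ ≤ x ^ (-5 : ℝ) := by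
    have e0 : x ^ (-5 : ℝ) = x * (x ^ 6)⁻¹ := by
      rw [show (-5 : ℝ) = 1 + -((6 : ℕ) : ℝ) by norm_num, Real.rpow_add hx0, Real.rpow_one,
        Real.rpow_neg hx0.le, Real.rpow_natCast]
    have e1 : 40 * 2 ^ 40 * x * E ≤ (x ^ 6)⁻¹ := by
      have h1 : 40 * 2 ^ 40 * x * E ≤ x * x * E := by
        have := mul_le_mul_of_nonneg_right (mul_le_mul_of_nonneg_right h40 hx0.le) hE0
        linarith
      refine h1.trans ?_
      have h2 : ∀ k : ℕ, x ^ k = Real.exp (k * Real.log x) := by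
        intro k
        rw [mul_comm, Real.exp_mul, Real.exp_log hx0, Real.rpow_natCast]
      have h3 : x * x * E = Real.exp ((242 : ℕ) * Real.log x - (e / 2 * Real.log x) ^ 2) := by
        rw [hE, sub_eq_add_neg, Real.exp_add, ← h2]
        ring
      rw [h3, h2 6, ← Real.exp_neg]
      apply Real.exp_le_exp.2
      push_cast
      have h4 : 248 * Real.log x ≤ (e / 2) ^ 2 * Real.log x * Real.log x :=
        mul_le_mul_of_nonneg_right h248 (by linarith)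
      have h5 : (e / 2 * Real.log x) ^ 2 = (e / 2) ^ 2 * Real.log x * Real.log x := by ring
      rw [h5]
      linarith
    rw [e0]
    have h6 : 0 < (x ^ 6)⁻¹ := by positivity
    nlinarith
  calc ‖PP χ t x‖ ≤ _ := hp
    _ ≤ _ := by linarith

end Pool.Agent.HPP
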