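import Pool.Agent.HPP.VMom
import Pool.Agent.HPP.VHB
import Pool.Agent.HPP.APP

/-!
# HPP/VFin: moments of the prime polynomial from the level sets of the factors

PROOF. `νm < 1/80`. Choose `e > 0` tiny (`e ≤ νm/10`, `p (1 - e - 80 νm) > 2L`, `u' + 3 e < u`). By `hb`, `‖PP‖/x ≤ x^(2e) Σ_{j, v ∈ VV}
∫ gk ξ ∏ nt (t + ξ) dξ + x^(-6)`. On `{x^(-u') ≤ ‖PP‖/x}` (`u' ≤ 1`): the part of each `ξ`-integral where `∏ nt < x^(-u'-3e)` contributes
in total `≤ x^(2e) #(terms) x^(-u'-3e) ≤ x^(-u')/4` (`#(terms) ≤ (3 log x)^80 · 40 ≤ x^(e/2)`), so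
`‖PP‖/x ≤ 2 x^(2e) Σ ∫ gk ξ (∏ nt) 1[x^(-u'-3e) ≤ ∏ nt] dξ`. Power `p ≥ 1`: `(Σ_{M terms} a)^p ≤ M^(p-1) Σ a^p`, Jensen for the probability
measure `gk ξ dξ` (`gk_int`; or Hoelder): `(∫ gk h)^p ≤ ∫ gk h^p`. Integrate over `t ∈ Gt χ (x^κ) T`, swap (Fubini, `nt` bounded by `nt_triv`):
for `|ξ| > log x` everything is `≤ x^C exp (-log² x/4)`; for `|ξ| ≤ log x` substitute `t + ξ ∈ Gt χ (x^(κ/2)) (T + log x)`,
`b^m' (T + log x) ≤ x^f'`. It remains, for each `(j, v)`: `Σ_χ ∫_{Gt χ (x^(κ/2)) T'} (∏ nt)^p 1[x^(-u'-3e) ≤ ∏ nt] ≤ x^(ε/2)`. Short factors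
(`v i < νm log x`) are `≤ 3 (v+2) ≤ x^(e/80..)`. `σ = ∑_{long} v i/log x ∈ [1 - e - 80 νm, 1 + e]`; weighted AM-GM (`Real.inner_le_nnorm_mul..`/
`Real.geom_mean_le_arith_mean_weighted`): `∏_{long} nt_i^p ≤ Σ_{long} (v i/(σ log x)) nt_i^(r_i)`, `r_i = p σ log x/v i ≥ 2 L log x/v i`,
`r_i ≤ p (1+e)/νm =: R`. Every long factor is `≥ x^(-u'-3e)/x^(e) ≥ x^(-u)` (the other factors are `≤ 3 (v+2)`), so `mom` applies.
-/

namespace Pool.Agent.HPP

open Complex MeasureTheory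

private theorem gk_integrable27 : Integrable gk := by
  have h : Integrable fun x : ℝ => Real.exp (-(1/4) * x ^ 2) := integrable_exp_neg_mul_sq (by norm_num)
  refine (h.div_const (2 * Real.sqrt Real.pi)).congr (Filter.Eventually.of_forall fun x => ?_)
  unfold gk
  simp only
  congr 2
  ring

private theorem gk_cont27 : Continuous gk := by
  unfold gk
  fun_prop

private theorem gk_mul_int27 {F : ℝ → ℝ} {M : ℝ} (hF : Measurable F) (h0 : ∀ s, 0 ≤ F s)
    (hM : ∀ s, F s ≤ M) : Integrable fun ξ => gk ξ * F ξ := by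
  refine Integrable.mono' (gk_integrable27.mul_const M) ((gk_cont27.measurable.mul hF).aestronglyMeasurable)
    (Filter.Eventually.of_forall fun ξ => ?_)
  rw [Real.norm_eq_abs, abs_of_nonneg (mul_nonneg (gk_nonneg ξ) (h0 ξ))]
  exact mul_le_mul_of_nonneg_left (hM ξ) (gk_nonneg ξ)

/-- tangent line inequality -/
private theorem tangent27 {m y p : ℝ} (hm : 0 < m) (hy : 0 ≤ y) (hp : 1 ≤ p) :
    m ^ p + p * m ^ (p - 1) * (y - m) ≤ y ^ p := by
  have h1 : -1 ≤ y / m - 1 := by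
    have : 0 ≤ y / m := div_nonneg hy hm.le
    linarith
  have h2 := one_add_mul_self_le_rpow_one_add h1 hp
  have h3 : (1 + (y / m - 1)) = y / m := by ring
  rw [h3, Real.div_rpow hy hm.le] at h2
  have h4 : 0 < m ^ p := Real.rpow_pos_of_pos hm p
  have h5 : m ^ (p - 1) = m ^ p / m := by rw [Real.rpow_sub_one hm.ne']
  rw [h5]
  have h6 : (1 + p * (y / m - 1)) * m ^ p ≤ y ^ p := by
    have := mul_le_mul_of_nonneg_right h2 h4.le
    rwa [div_mul_cancel₀ _ h4.ne'] at this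
  have h7 : m ^ p + p * (m ^ p / m) * (y - m) = (1 + p * (y / m - 1)) * m ^ p := by
    field_simp
  rw [h7]
  exact h6

private theorem jensen27 {F : ℝ → ℝ} {M p : ℝ} (hF : Measurable F) (h0 : ∀ s, 0 ≤ F s)
    (hM : ∀ s, F s ≤ M) (hp : 1 ≤ p) :
    (∫ ξ, gk ξ * F ξ) ^ p ≤ ∫ ξ, gk ξ * F ξ ^ p := by
  set m := ∫ ξ, gk ξ * F ξ with hm
  have hm0 : 0 ≤ m := integral_nonneg fun ξ => mul_nonneg (gk_nonneg ξ) (h0 ξ)
  have hM0 : 0 ≤ M := (h0 0).trans (hM 0)
  rcases hm0.eq_or_lt with h | h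
  · rw [← h, Real.zero_rpow (by linarith)]
    exact integral_nonneg fun ξ => mul_nonneg (gk_nonneg ξ) (Real.rpow_nonneg (h0 ξ) _)
  · have hi : Integrable fun ξ => gk ξ * F ξ ^ p :=
      gk_mul_int27 (M := M ^ p) (hF.pow_const p) (fun s => Real.rpow_nonneg (h0 s) _)
        (fun s => Real.rpow_le_rpow (h0 s) (hM s) (by linarith))
    have h1 : ∫ ξ, (m ^ p * gk ξ + p * m ^ (p - 1) * (gk ξ * F ξ - m * gk ξ)) ≤
        ∫ ξ, gk ξ * F ξ ^ p := by
      refine integral_mono ?_ hi fun ξ => ?_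
      · exact (gk_integrable27.const_mul _).add
          (((gk_mul_int27 hF h0 hM).sub (gk_integrable27.const_mul _)).const_mul _)
      · have := mul_le_mul_of_nonneg_left (tangent27 h (h0 ξ) hp) (gk_nonneg ξ)
        calc m ^ p * gk ξ + p * m ^ (p - 1) * (gk ξ * F ξ - m * gk ξ)
            = gk ξ * (m ^ p + p * m ^ (p - 1) * (F ξ - m)) := by ring
          _ ≤ _ := this
    have h2 : ∫ ξ, (m ^ p * gk ξ + p * m ^ (p - 1) * (gk ξ * F ξ - m * gk ξ)) = m ^ p := by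
      have e1 : Integrable fun ξ => m ^ p * gk ξ := gk_integrable27.const_mul _
      have e2 : Integrable fun ξ => m * gk ξ := gk_integrable27.const_mul _
      have e3 : Integrable fun ξ => gk ξ * F ξ - m * gk ξ := (gk_mul_int27 hF h0 hM).sub e2
      have e4 : Integrable fun ξ => p * m ^ (p - 1) * (gk ξ * F ξ - m * gk ξ) := e3.const_mul _
      rw [integral_add e1 e4, integral_const_mul, integral_const_mul,
        integral_sub (gk_mul_int27 hF h0 hM) e2, integral_const_mul, gk_int, ← hm]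
      ring
    linarith

private theorem gk_tail27 {X : ℝ} (hX : 0 ≤ X) :
    ∫ ξ in {ξ : ℝ | X < |ξ|}, gk ξ ≤ 2 * Real.exp (-X ^ 2 / 8) := by
  have hms : MeasurableSet {ξ : ℝ | X < |ξ|} := measurableSet_lt measurable_const (by fun_prop)
  have hg : Integrable fun x : ℝ => Real.exp (-(1/8) * x ^ 2) := integrable_exp_neg_mul_sq (by norm_num)
  have hpi : 0 < Real.sqrt Real.pi := Real.sqrt_pos.2 Real.pi_pos
  have h1 : ∫ ξ in {ξ : ℝ | X < |ξ|}, gk ξ ≤
      ∫ ξ in {ξ : ℝ | X < |ξ|}, Real.exp (-X ^ 2 / 8) * (Real.exp (-(1/8) * ξ ^ 2) / (2 * Real.sqrt Real.pi)) := by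
    refine setIntegral_mono_on gk_integrable27.integrableOn
      ((hg.div_const _).const_mul _).integrableOn hms fun ξ hξ => ?_
    unfold gk
    rw [← mul_div_assoc, ← Real.exp_add]
    have h2 : X ^ 2 ≤ ξ ^ 2 := by
      have : X ^ 2 ≤ |ξ| ^ 2 := pow_le_pow_left₀ hX (le_of_lt hξ) 2
      rwa [sq_abs] at this
    gcongr
    linarith
  refine h1.trans ?_
  have h2 : ∫ ξ in {ξ : ℝ | X < |ξ|}, Real.exp (-X ^ 2 / 8) * (Real.exp (-(1/8) * ξ ^ 2) / (2 * Real.sqrt Real.pi)) ≤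
      ∫ ξ, Real.exp (-X ^ 2 / 8) * (Real.exp (-(1/8) * ξ ^ 2) / (2 * Real.sqrt Real.pi)) :=
    setIntegral_le_integral ((hg.div_const _).const_mul _)
      (Filter.Eventually.of_forall fun ξ => by positivity)
  refine h2.trans ?_
  rw [integral_const_mul, integral_div, integral_gaussian]
  have h3 : Real.sqrt (Real.pi / (1 / 8)) = Real.sqrt 8 * Real.sqrt Real.pi := by
    rw [← Real.sqrt_mul (by norm_num)]
    congr 1
    ring
  have h4 : Real.sqrt 8 ≤ 4 := by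
    rw [Real.sqrt_le_left (by norm_num)]
    norm_num
  rw [h3]
  have h5 : Real.sqrt 8 * Real.sqrt Real.pi / (2 * Real.sqrt Real.pi) = Real.sqrt 8 / 2 := by
    field_simp
  rw [h5]
  have h6 := Real.exp_pos (-X ^ 2 / 8)
  nlinarith

private theorem fub27 {G G' : Set ℝ} {F : ℝ → ℝ} {M T T' X : ℝ} (hG : MeasurableSet G)
    (hG' : MeasurableSet G') (hGT : G ⊆ Set.Icc (-T) T) (hGT' : G' ⊆ Set.Icc (-T') T') (hT : 0 ≤ T)
    (hF : Measurable F) (h0 : ∀ s, 0 ≤ F s) (hM : ∀ s, F s ≤ M)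
    (hs : ∀ t ∈ G, ∀ ξ, |ξ| ≤ X → t + ξ ∈ G') :
    IntegrableOn (fun t => ∫ ξ, gk ξ * F (t + ξ)) G ∧
    ∫ t in G, ∫ ξ, gk ξ * F (t + ξ) ≤
      (∫ s in G', F s) + 2 * T * M * ∫ ξ in {ξ : ℝ | X < |ξ|}, gk ξ := by
  have hM0 : 0 ≤ M := (h0 0).trans (hM 0)
  have hms : MeasurableSet {ξ : ℝ | X < |ξ|} := measurableSet_lt measurable_const (by fun_prop)
  have hGfin : volume G < ⊤ := lt_of_le_of_lt (measure_mono hGT) (by simp)
  have hG'fin : volume G' < ⊤ := lt_of_le_of_lt (measure_mono hGT') (by simp)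
  have : IsFiniteMeasure (volume.restrict G) := ⟨by simpa using hGfin⟩
  have hint : Integrable (fun z : ℝ × ℝ => gk z.2 * F (z.1 + z.2)) ((volume.restrict G).prod volume) := by
    have h1 : Integrable (fun z : ℝ × ℝ => M * gk z.2) ((volume.restrict G).prod volume) := by
      have := Integrable.mul_prod (μ := volume.restrict G) (ν := volume) (f := fun _ : ℝ => M)
        (g := gk) (integrable_const M) gk_integrable27
      exact this
    refine h1.mono' ?_ (Filter.Eventually.of_forall fun z => ?_)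
    · exact ((gk_cont27.measurable.comp measurable_snd).mul
        (hF.comp (measurable_fst.add measurable_snd))).aestronglyMeasurable
    · rw [Real.norm_eq_abs, abs_of_nonneg (mul_nonneg (gk_nonneg _) (h0 _)), mul_comm]
      exact mul_le_mul_of_nonneg_right (hM _) (gk_nonneg _)
  refine ⟨hint.integral_prod_left, ?_⟩
  rw [integral_integral_swap hint]
  have hFG' : IntegrableOn F G' := by
    refine Measure.integrableOn_of_bounded (M := M) hG'fin.ne hF.aestronglyMeasurable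
      (Filter.Eventually.of_forall fun s => ?_)
    rw [Real.norm_eq_abs, abs_of_nonneg (h0 s)]
    exact hM s
  have hA0 : 0 ≤ ∫ s in G', F s := integral_nonneg h0
  have hpt : ∀ ξ, ∫ t in G, gk ξ * F (t + ξ) ≤
      gk ξ * (∫ s in G', F s) + Set.indicator {ξ : ℝ | X < |ξ|} (fun ξ => 2 * T * M * gk ξ) ξ := by
    intro ξ
    rw [integral_const_mul]
    have hFi : IntegrableOn (fun t => F (t + ξ)) G := by
      refine Measure.integrableOn_of_bounded (M := M) hGfin.ne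
        (hF.comp (measurable_id.add_const ξ)).aestronglyMeasurable
        (Filter.Eventually.of_forall fun s => ?_)
      rw [Real.norm_eq_abs, abs_of_nonneg (h0 _)]
      exact hM _
    by_cases hξ : X < |ξ|
    · rw [Set.indicator_of_mem (show ξ ∈ {ξ : ℝ | X < |ξ|} from hξ)]
      have h2 : ∫ t in G, F (t + ξ) ≤ 2 * T * M := by
        calc ∫ t in G, F (t + ξ) ≤ ∫ t in G, M := by
              refine setIntegral_mono_on hFi (integrableOn_const hGfin.ne) hG fun t _ => hM _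
          _ = volume.real G * M := by rw [setIntegral_const]; simp
          _ ≤ 2 * T * M := by
              refine mul_le_mul_of_nonneg_right ?_ hM0
              have : volume.real G ≤ volume.real (Set.Icc (-T) T) :=
                measureReal_mono hGT (by simp)
              rw [Real.volume_real_Icc_of_le (by linarith)] at this
              linarith
      have h3 := mul_le_mul_of_nonneg_left h2 (gk_nonneg ξ)
      have h4 := mul_nonneg (gk_nonneg ξ) hA0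
      linarith
    · rw [Set.indicator_of_notMem (show ξ ∉ {ξ : ℝ | X < |ξ|} from hξ), add_zero]
      refine mul_le_mul_of_nonneg_left ?_ (gk_nonneg ξ)
      rw [← integral_indicator hG, ← integral_indicator hG']
      have h5 : ∫ t, G.indicator (fun t => F (t + ξ)) t = ∫ s, G.indicator (fun t => F (t + ξ)) (s - ξ) :=
        (integral_sub_right_eq_self (fun t => G.indicator (fun t => F (t + ξ)) t) ξ).symm
      rw [h5]
      refine integral_mono ?_ (hFG'.integrable_indicator hG') fun s => ?_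
      · exact (hFi.integrable_indicator hG).comp_sub_right ξ
      · by_cases hsG : s - ξ ∈ G
        · rw [Set.indicator_of_mem hsG]
          have h6 := hs _ hsG ξ (not_lt.1 hξ)
          have h7 : s - ξ + ξ = s := by ring
          rw [h7] at h6
          rw [Set.indicator_of_mem h6]
          simp only [h7, le_refl]
        · rw [Set.indicator_of_notMem hsG]
          exact Set.indicator_nonneg (fun s _ => h0 s) s
  have hfin : ∫ ξ, (gk ξ * (∫ s in G', F s) + Set.indicator {ξ : ℝ | X < |ξ|} (fun ξ => 2 * T * M * gk ξ) ξ)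
      = (∫ s in G', F s) + 2 * T * M * ∫ ξ in {ξ : ℝ | X < |ξ|}, gk ξ := by
    rw [integral_add (gk_integrable27.mul_const _)
      (((gk_integrable27.const_mul _).integrableOn).integrable_indicator hms),
      integral_mul_const, gk_int, one_mul, integral_indicator hms, integral_const_mul]
  rw [← hfin]
  refine integral_mono hint.integral_prod_right ?_ hpt
  exact (gk_integrable27.mul_const _).add
      (((gk_integrable27.const_mul _).integrableOn).integrable_indicator hms)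

private theorem polylog27 (A B : ℝ) (k : ℕ) {δ : ℝ} (hδ : 0 < δ) (hA : 0 ≤ A) (hB : 0 ≤ B) :
    ∀ᶠ x : ℝ in Filter.atTop, (A * Real.log x + B) ^ k ≤ x ^ δ := by
  have hk : (0 : ℝ) < k + 1 := by positivity
  have hr : 0 < δ / (k + 1) := div_pos hδ hk
  have h1 := (isLittleO_log_rpow_atTop hr).bound (show (0 : ℝ) < 1 / (2 * (A + 1)) by positivity)
  have h2 : ∀ᶠ x : ℝ in Filter.atTop, 2 * B + 1 ≤ x ^ (δ / (k + 1)) :=
    (tendsto_rpow_atTop hr).eventually_ge_atTop _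
  filter_upwards [h1, h2, Filter.eventually_ge_atTop (1 : ℝ)] with x h1 h2 h3
  have hx0 : 0 < x := by linarith
  have hl : 0 ≤ Real.log x := Real.log_nonneg h3
  rw [Real.norm_eq_abs, Real.norm_eq_abs, abs_of_nonneg hl,
    abs_of_nonneg (Real.rpow_nonneg hx0.le _)] at h1
  set y := x ^ (δ / (k + 1)) with hy
  have hy1 : 1 ≤ y := by linarith
  have h4 : A * Real.log x + B ≤ y := by
    have h5 : A * Real.log x ≤ y / 2 := by
      calc A * Real.log x ≤ A * (1 / (2 * (A + 1)) * y) := mul_le_mul_of_nonneg_left h1 hA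
        _ = (A / (A + 1)) * (y / 2) := by field_simp
        _ ≤ 1 * (y / 2) := by
            refine mul_le_mul_of_nonneg_right ?_ (by linarith)
            rw [div_le_one (by linarith)]
            linarith
        _ = y / 2 := one_mul _
    linarith
  have h6 : 0 ≤ A * Real.log x + B := by positivity
  calc (A * Real.log x + B) ^ k ≤ y ^ k := pow_le_pow_left₀ h6 h4 k
    _ ≤ y ^ (k + 1) := pow_le_pow_right₀ hy1 (Nat.le_succ k)
    _ = x ^ δ := by
        rw [hy, ← Real.rpow_natCast, ← Real.rpow_mul hx0.le]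
        congr 1
        push_cast
        field_simp

private theorem subprod27 {ι : Type*} [DecidableEq ι] (s : Finset ι) (a : ι → ℝ) {M1 : ℝ} (hM1 : 1 ≤ M1)
    (ha0 : ∀ i, 0 ≤ a i) (haM : ∀ i, a i ≤ M1) {N : ℕ} (hs : s.card ≤ N) :
    ∏ i ∈ s, a i ≤ M1 ^ N := by
  calc ∏ i ∈ s, a i ≤ ∏ i ∈ s, M1 := Finset.prod_le_prod (fun i _ => ha0 i) (fun i _ => haM i)
    _ = M1 ^ s.card := by rw [Finset.prod_const]
    _ ≤ M1 ^ N := pow_le_pow_right₀ hM1 hs

private theorem each27 {j : ℕ} (hj : j ≤ 40) (a : Fin (2 * j) → ℝ) {M1 lev : ℝ} (hM1 : 1 ≤ M1)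
    (ha0 : ∀ i, 0 ≤ a i) (haM : ∀ i, a i ≤ M1) (hlev : lev ≤ ∏ i, a i) (i : Fin (2 * j)) :
    lev / M1 ^ 80 ≤ a i := by
  have hM : 0 < M1 ^ 80 := by positivity
  rw [div_le_iff₀ hM]
  refine hlev.trans ?_
  rw [← Finset.mul_prod_erase _ _ (Finset.mem_univ i)]
  refine mul_le_mul_of_nonneg_left ?_ (ha0 i)
  refine subprod27 _ a hM1 ha0 haM ?_
  refine (Finset.card_le_univ _).trans ?_
  rw [Fintype.card_fin]
  omega

private theorem amgm27 {j : ℕ} (hj : j ≤ 40) (v : Fin (2 * j) → ℕ) (a : Fin (2 * j) → ℝ)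
    {M1 p y : ℝ} (hM1 : 1 ≤ M1) (ha0 : ∀ i, 0 ≤ a i) (haM : ∀ i, a i ≤ M1) (hp : 1 ≤ p)
    (hy : 0 < y)
    (hσ : 0 < ∑ i ∈ Finset.univ.filter (fun i => y ≤ (v i : ℝ)), (v i : ℝ)) :
    (∏ i, a i) ^ p ≤ (M1 ^ 80) ^ p * ∑ i ∈ Finset.univ.filter (fun i => y ≤ (v i : ℝ)),
      a i ^ (p * (∑ i ∈ Finset.univ.filter (fun i => y ≤ (v i : ℝ)), (v i : ℝ)) / v i) := by
  classical
  set S := Finset.univ.filter (fun i => y ≤ (v i : ℝ)) with hS
  set σ := ∑ i ∈ S, (v i : ℝ) with hσd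
  have hv : ∀ i ∈ S, 0 < (v i : ℝ) := fun i hi => lt_of_lt_of_le hy (Finset.mem_filter.1 hi).2
  have hp0 : 0 < p := by linarith
  rw [← Finset.prod_filter_mul_prod_filter_not Finset.univ (fun i => y ≤ (v i : ℝ)), ← hS]
  have h1 : ∏ i ∈ Finset.univ.filter (fun i => ¬ y ≤ (v i : ℝ)), a i ≤ M1 ^ 80 := by
    refine subprod27 _ a hM1 ha0 haM ?_
    refine (Finset.card_le_univ _).trans ?_
    rw [Fintype.card_fin]
    omega
  have h2 : 0 ≤ ∏ i ∈ S, a i := Finset.prod_nonneg fun i _ => ha0 i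
  have h3 : 0 ≤ ∏ i ∈ Finset.univ.filter (fun i => ¬ y ≤ (v i : ℝ)), a i :=
    Finset.prod_nonneg fun i _ => ha0 i
  rw [Real.mul_rpow h2 h3, mul_comm]
  refine mul_le_mul (Real.rpow_le_rpow h3 h1 hp0.le) ?_ (Real.rpow_nonneg h2 _)
    (Real.rpow_nonneg (by positivity) _)
  have h4 := Real.geom_mean_le_arith_mean_weighted S (fun i => (v i : ℝ) / σ)
    (fun i => a i ^ (p * σ / v i)) (fun i hi => (div_pos (hv i hi) hσ).le)
    (by rw [← Finset.sum_div]; exact div_self hσ.ne')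
    (fun i _ => Real.rpow_nonneg (ha0 i) _)
  have h5 : (∏ i ∈ S, a i) ^ p = ∏ i ∈ S, (a i ^ (p * σ / v i)) ^ ((v i : ℝ) / σ) := by
    rw [← Real.finsetProd_rpow _ _ (fun i _ => ha0 i)]
    refine Finset.prod_congr rfl fun i hi => ?_
    rw [← Real.rpow_mul (ha0 i)]
    congr 1
    have := hv i hi
    field_simp
  rw [h5]
  refine h4.trans (Finset.sum_le_sum fun i hi => ?_)
  have h6 : (v i : ℝ) / σ ≤ 1 := by
    rw [div_le_one hσ]
    exact Finset.single_le_sum (f := fun i => (v i : ℝ)) (fun k hk => (hv k hk).le) hi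
  calc (v i : ℝ) / σ * a i ^ (p * σ / v i) ≤ 1 * a i ^ (p * σ / v i) :=
        mul_le_mul_of_nonneg_right h6 (Real.rpow_nonneg (ha0 i) _)
    _ = _ := one_mul _

private theorem Gt_meas27 {Q : ℕ} (χ : DirichletCharacter ℂ Q) (κ T : ℝ) :
    MeasurableSet (Gt χ κ T) := by
  have habs : Measurable fun t : ℝ => |t| := continuous_abs.measurable
  have h1 : MeasurableSet {t : ℝ | |t| ≤ T} := measurableSet_le habs measurable_const
  have h2 : MeasurableSet {t : ℝ | κ ≤ |t|} := measurableSet_le measurable_const habs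
  unfold Gt
  by_cases h : χ = 1
  · have : {t : ℝ | |t| ≤ T ∧ (χ = 1 → κ ≤ |t|)} = {t : ℝ | |t| ≤ T} ∩ {t : ℝ | κ ≤ |t|} := by
      ext t
      simp [h]
    rw [this]
    exact h1.inter h2
  · have : {t : ℝ | |t| ≤ T ∧ (χ = 1 → κ ≤ |t|)} = {t : ℝ | |t| ≤ T} := by
      ext t
      simp [h]
    rw [this]
    exact h1

private theorem Gt_sub27 {Q : ℕ} (χ : DirichletCharacter ℂ Q) (κ T : ℝ) :
    Gt χ κ T ⊆ Set.Icc (-T) T := fun _ ht => abs_le.1 ht.1

/-- the product of the factors -/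
private noncomputable def hh27 (x : ℝ) {Q : ℕ} (χ : DirichletCharacter ℂ Q) (j : ℕ)
    (v : Fin (2 * j) → ℕ) (t : ℝ) : ℝ :=
  ∏ i, nt (tyf (x ^ (1 / 20 : ℝ)) (fac j i)) (v i) χ t

private theorem hh_cont27 (x : ℝ) {Q : ℕ} (χ : DirichletCharacter ℂ Q) (j : ℕ)
    (v : Fin (2 * j) → ℕ) : Continuous (hh27 x χ j v) := by
  unfold hh27
  exact continuous_finsetProd _ fun i _ => nt_continuous _ _ _

private theorem hh_nonneg27 (x : ℝ) {Q : ℕ} (χ : DirichletCharacter ℂ Q) (j : ℕ)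
    (v : Fin (2 * j) → ℕ) (t : ℝ) : 0 ≤ hh27 x χ j v t :=
  Finset.prod_nonneg fun _ _ => nt_nonneg _ _ _ _

/-- the truncated product -/
private noncomputable def Hh27 (lev x : ℝ) {Q : ℕ} (χ : DirichletCharacter ℂ Q) (j : ℕ)
    (v : Fin (2 * j) → ℕ) (t : ℝ) : ℝ :=
  if lev ≤ hh27 x χ j v t then hh27 x χ j v t else 0

private theorem Hh_meas27 (lev x : ℝ) {Q : ℕ} (χ : DirichletCharacter ℂ Q) (j : ℕ)
    (v : Fin (2 * j) → ℕ) : Measurable (Hh27 lev x χ j v) := by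
  unfold Hh27
  exact Measurable.ite (measurableSet_le measurable_const (hh_cont27 x χ j v).measurable)
    (hh_cont27 x χ j v).measurable measurable_const

private theorem Hh_nonneg27 (lev x : ℝ) {Q : ℕ} (χ : DirichletCharacter ℂ Q) (j : ℕ)
    (v : Fin (2 * j) → ℕ) (t : ℝ) : 0 ≤ Hh27 lev x χ j v t := by
  unfold Hh27
  split_ifs
  · exact hh_nonneg27 x χ j v t
  · exact le_rfl

private theorem Hh_le27 (lev x : ℝ) {Q : ℕ} (χ : DirichletCharacter ℂ Q) (j : ℕ)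
    (v : Fin (2 * j) → ℕ) (t : ℝ) : Hh27 lev x χ j v t ≤ hh27 x χ j v t := by
  unfold Hh27
  split_ifs
  · exact le_rfl
  · exact hh_nonneg27 x χ j v t

private theorem vle27 {e x : ℝ} {j : ℕ} (hx : 2 ≤ Real.log x) {v : Fin (2 * j) → ℕ}
    (hv : v ∈ VV e x j) (i : Fin (2 * j)) : (v i : ℝ) ≤ 3 * Real.log x := by
  unfold VV at hv
  rw [Finset.mem_filter, Fintype.mem_piFinset] at hv
  have h1 := hv.1 i
  rw [Finset.mem_range] at h1
  have h2 : (v i : ℝ) ≤ ⌊2 * Real.log x⌋₊ + 2 := by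
    have : v i ≤ ⌊2 * Real.log x⌋₊ + 2 := by omega
    exact_mod_cast this
  have h3 := Nat.floor_le (show 0 ≤ 2 * Real.log x by linarith)
  linarith

private theorem ntle27 {x : ℝ} {Q : ℕ} (χ : DirichletCharacter ℂ Q) (k : Fin 3) (v : ℕ) (t : ℝ)
    (hv : (v : ℝ) ≤ 3 * Real.log x) :
    nt (tyf (x ^ (1 / 20 : ℝ)) k) v χ t ≤ 9 * Real.log x + 6 := by
  have := nt_triv (tyf_sm (x ^ (1 / 20 : ℝ)) k) v χ t
  linarith

private theorem hhle27 {e x : ℝ} {Q j : ℕ} (χ : DirichletCharacter ℂ Q) (hj : j ≤ 40)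
    (hx : 2 ≤ Real.log x) {v : Fin (2 * j) → ℕ} (hv : v ∈ VV e x j) (t : ℝ) :
    hh27 x χ j v t ≤ (9 * Real.log x + 6) ^ 80 := by
  unfold hh27
  refine subprod27 Finset.univ (fun i => nt (tyf (x ^ (1 / 20 : ℝ)) (fac j i)) (v i) χ t)
    (by linarith) (fun i => nt_nonneg _ _ _ _) (fun i => ntle27 χ _ _ t (vle27 hx hv i)) ?_
  rw [Finset.card_univ, Fintype.card_fin]
  omega

private theorem lemA27 {f' L u νm p e u' : ℝ} (h : LSAt f' L u νm) (hL : 0 < L) (hν : 0 < νm)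
    (hp : 1 ≤ p) (he : 0 < e) (he1 : e ≤ 1 / 4) (hu' : 0 < u') (hue : u' + 4 * e ≤ u)
    (hLe : 2 * L ≤ p * (1 - e - 80 * νm)) {b : ℕ} (hb2 : 2 ≤ b) {κ : ℝ} (hκ : 0 < κ) :
    ∃ x₀ : ℝ, ∀ x : ℝ, x₀ ≤ x → ∀ (m' : ℕ) (T : ℝ), 1 ≤ m' → (b : ℝ) ^ m' ≤ T →
    (b : ℝ) ^ m' * T ≤ x ^ f' → ∀ j ∈ Finset.Icc 1 40, ∀ v ∈ VV e x j,
    ∑ χ : DirichletCharacter ℂ (b ^ m'),
      ∫ t in Gt χ (x ^ κ) T, Hh27 (x ^ (-(u' + 3 * e))) x χ j v t ^ p ≤ x ^ (3 * e) := by
  have hu : 0 < u := by linarith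
  have hp0 : 0 < p := by linarith
  obtain ⟨x₁, hx₁⟩ := mom h hL hu hν b hb2 e he κ hκ (2 * p / νm) (by positivity)
  have hev := ((polylog27 9 6 80 (show 0 < e / p by positivity) (by norm_num) (by norm_num)).and
    ((Real.tendsto_log_atTop.eventually_ge_atTop 2).and
    ((tendsto_rpow_atTop he).eventually_ge_atTop 80)))
  obtain ⟨x₂, hx₂⟩ := Filter.eventually_atTop.1 hev
  refine ⟨max (max x₁ x₂) 1, fun x hx m' T hm hbT hbx j hj v hv => ?_⟩
  have hxx1 : x₁ ≤ x := le_trans (le_trans (le_max_left _ _) (le_max_left _ _)) hx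
  have hxx2 : x₂ ≤ x := le_trans (le_trans (le_max_right _ _) (le_max_left _ _)) hx
  have hx1 : 1 ≤ x := le_trans (le_max_right _ _) hx
  have hx0 : 0 < x := by linarith
  obtain ⟨hM, hlog, h80⟩ := hx₂ x hxx2
  set X := Real.log x with hX
  have hX0 : 0 < X := by linarith
  have hj40 : j ≤ 40 := (Finset.mem_Icc.1 hj).2
  have hj1 : 1 ≤ j := (Finset.mem_Icc.1 hj).1
  set S := Finset.univ.filter (fun i => νm * X ≤ (v i : ℝ)) with hS
  set σ := ∑ i ∈ S, (v i : ℝ) with hσ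
  have hvs : |(∑ i, (v i : ℝ)) - X| ≤ e * X := by
    have := hv
    unfold VV at this
    exact (Finset.mem_filter.1 this).2
  have hvs1 := abs_le.1 hvs
  -- the short ones
  have hshort : ∑ i ∈ Finset.univ.filter (fun i => ¬ νm * X ≤ (v i : ℝ)), (v i : ℝ) ≤ 80 * (νm * X) := by
    calc ∑ i ∈ Finset.univ.filter (fun i => ¬ νm * X ≤ (v i : ℝ)), (v i : ℝ)
        ≤ ∑ i ∈ Finset.univ.filter (fun i => ¬ νm * X ≤ (v i : ℝ)), νm * X :=
          Finset.sum_le_sum fun i hi => (not_le.1 (Finset.mem_filter.1 hi).2).le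
      _ = ((Finset.univ.filter (fun i => ¬ νm * X ≤ (v i : ℝ))).card : ℝ) * (νm * X) := by
          rw [Finset.sum_const, nsmul_eq_mul]
      _ ≤ 80 * (νm * X) := by
          refine mul_le_mul_of_nonneg_right ?_ (by positivity)
          have : (Finset.univ.filter (fun i => ¬ νm * X ≤ (v i : ℝ))).card ≤ 80 := by
            refine (Finset.card_le_univ _).trans ?_
            rw [Fintype.card_fin]
            omega
          exact_mod_cast this
  have hsplit : σ + ∑ i ∈ Finset.univ.filter (fun i => ¬ νm * X ≤ (v i : ℝ)), (v i : ℝ)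
      = ∑ i, (v i : ℝ) := Finset.sum_filter_add_sum_filter_not _ _ _
  have hσlow : (1 - e - 80 * νm) * X ≤ σ := by nlinarith [hvs1.1]
  have hσup : σ ≤ (1 + e) * X := by
    have h0 : 0 ≤ ∑ i ∈ Finset.univ.filter (fun i => ¬ νm * X ≤ (v i : ℝ)), (v i : ℝ) :=
      Finset.sum_nonneg fun i _ => Nat.cast_nonneg _
    nlinarith [hvs1.2]
  have hpσ : 2 * L * X ≤ p * σ := by
    calc 2 * L * X ≤ p * (1 - e - 80 * νm) * X := mul_le_mul_of_nonneg_right hLe hX0.le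
      _ = p * ((1 - e - 80 * νm) * X) := by ring
      _ ≤ p * σ := mul_le_mul_of_nonneg_left hσlow hp0.le
  have hσ0 : 0 < σ := by
    by_contra hc
    have h1 : p * σ ≤ 0 := mul_nonpos_of_nonneg_of_nonpos hp0.le (not_lt.1 hc)
    have h2 : 0 < 2 * L * X := by positivity
    linarith
  have hνX : 0 < νm * X := by positivity
  have hM1 : (1 : ℝ) ≤ 9 * X + 6 := by linarith
  have hMe : (9 * X + 6) ^ 80 ≤ x ^ e := by
    refine hM.trans (Real.rpow_le_rpow_of_exponent_le hx1 ?_)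
    rw [div_le_iff₀ hp0]
    nlinarith
  have hMp : ((9 * X + 6) ^ 80) ^ p ≤ x ^ e := by
    calc ((9 * X + 6) ^ 80) ^ p ≤ (x ^ (e / p)) ^ p :=
          Real.rpow_le_rpow (by positivity) hM hp0.le
      _ = x ^ e := by
          rw [← Real.rpow_mul hx0.le]
          congr 1
          field_simp
  have hpt : ∀ (χ : DirichletCharacter ℂ (b ^ m')) (t : ℝ),
      Hh27 (x ^ (-(u' + 3 * e))) x χ j v t ^ p ≤ ((9 * X + 6) ^ 80) ^ p * ∑ i ∈ S,
        Set.indicator {t | x ^ (-u) ≤ nt (tyf (x ^ (1 / 20 : ℝ)) (fac j i)) (v i) χ t}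
          (fun t => nt (tyf (x ^ (1 / 20 : ℝ)) (fac j i)) (v i) χ t ^ (p * σ / v i)) t := by
    intro χ t
    have hr0 : 0 ≤ ((9 * X + 6) ^ 80) ^ p * ∑ i ∈ S,
        Set.indicator {t | x ^ (-u) ≤ nt (tyf (x ^ (1 / 20 : ℝ)) (fac j i)) (v i) χ t}
          (fun t => nt (tyf (x ^ (1 / 20 : ℝ)) (fac j i)) (v i) χ t ^ (p * σ / v i)) t := by
      refine mul_nonneg (Real.rpow_nonneg (by positivity) _) (Finset.sum_nonneg fun i _ => ?_)
      exact Set.indicator_nonneg (fun s _ => Real.rpow_nonneg (nt_nonneg _ _ _ _) _) t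
    unfold Hh27
    split_ifs with hlev
    · have h1 := amgm27 hj40 v (fun i => nt (tyf (x ^ (1 / 20 : ℝ)) (fac j i)) (v i) χ t) hM1
        (fun i => nt_nonneg _ _ _ _) (fun i => ntle27 χ _ _ t (vle27 hlog hv i)) hp hνX hσ0
      refine h1.trans (mul_le_mul_of_nonneg_left (Finset.sum_le_sum fun i hi => ?_)
        (Real.rpow_nonneg (by positivity) _))
      have h2 : x ^ (-u) ≤ nt (tyf (x ^ (1 / 20 : ℝ)) (fac j i)) (v i) χ t := by
        refine le_trans ?_ (each27 hj40 (fun i => nt (tyf (x ^ (1 / 20 : ℝ)) (fac j i)) (v i) χ t) hM1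
          (fun i => nt_nonneg _ _ _ _) (fun i => ntle27 χ _ _ t (vle27 hlog hv i)) hlev i)
        rw [le_div_iff₀ (by positivity)]
        calc x ^ (-u) * (9 * X + 6) ^ 80 ≤ x ^ (-u) * x ^ e :=
              mul_le_mul_of_nonneg_left hMe (Real.rpow_nonneg hx0.le _)
          _ = x ^ (-u + e) := (Real.rpow_add hx0 _ _).symm
          _ ≤ x ^ (-(u' + 3 * e)) := Real.rpow_le_rpow_of_exponent_le hx1 (by linarith)
      rw [Set.indicator_of_mem (show t ∈ {t | x ^ (-u) ≤ nt (tyf (x ^ (1 / 20 : ℝ)) (fac j i)) (v i) χ t} from h2)]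
    · rw [Real.zero_rpow hp0.ne']
      exact hr0
  -- integrability
  have hntc : ∀ (χ : DirichletCharacter ℂ (b ^ m')) (i : Fin (2 * j)),
      Continuous fun t => nt (tyf (x ^ (1 / 20 : ℝ)) (fac j i)) (v i) χ t := fun χ i => nt_continuous _ _ _
  have hmset : ∀ (χ : DirichletCharacter ℂ (b ^ m')) (i : Fin (2 * j)),
      MeasurableSet {t | x ^ (-u) ≤ nt (tyf (x ^ (1 / 20 : ℝ)) (fac j i)) (v i) χ t} :=
    fun χ i => measurableSet_le measurable_const (hntc χ i).measurable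
  have hvol : ∀ χ : DirichletCharacter ℂ (b ^ m'), volume (Gt χ (x ^ κ) T) ≠ ⊤ := fun χ =>
    (lt_of_le_of_lt (measure_mono (Gt_sub27 χ _ _)) (by simp)).ne
  have hrpos : ∀ i ∈ S, 0 ≤ p * σ / v i := fun i _ => by positivity
  have hint1 : ∀ (χ : DirichletCharacter ℂ (b ^ m')), ∀ i ∈ S, IntegrableOn
      (Set.indicator {t | x ^ (-u) ≤ nt (tyf (x ^ (1 / 20 : ℝ)) (fac j i)) (v i) χ t}
          (fun t => nt (tyf (x ^ (1 / 20 : ℝ)) (fac j i)) (v i) χ t ^ (p * σ / v i)))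
      (Gt χ (x ^ κ) T) := by
    intro χ i hi
    refine Measure.integrableOn_of_bounded (M := (9 * X + 6) ^ (p * σ / v i)) (hvol χ)
      ((((hntc χ i).measurable.pow_const _).indicator (hmset χ i)).aestronglyMeasurable)
      (Filter.Eventually.of_forall fun t => ?_)
    rw [Real.norm_eq_abs, abs_of_nonneg (Set.indicator_nonneg (fun s _ => Real.rpow_nonneg (nt_nonneg _ _ _ _) _) t)]
    refine Set.indicator_apply_le' (fun _ => ?_) (fun _ => Real.rpow_nonneg (by linarith) _)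
    exact Real.rpow_le_rpow (nt_nonneg _ _ _ _) (ntle27 χ _ _ t (vle27 hlog hv i)) (hrpos i hi)
  have hint2 : ∀ (χ : DirichletCharacter ℂ (b ^ m')), IntegrableOn
      (fun t => Hh27 (x ^ (-(u' + 3 * e))) x χ j v t ^ p) (Gt χ (x ^ κ) T) := by
    intro χ
    refine Measure.integrableOn_of_bounded (M := ((9 * X + 6) ^ 80) ^ p) (hvol χ)
      (((Hh_meas27 _ x χ j v).pow_const _).aestronglyMeasurable)
      (Filter.Eventually.of_forall fun t => ?_)
    rw [Real.norm_eq_abs, abs_of_nonneg (Real.rpow_nonneg (Hh_nonneg27 _ _ _ _ _ _) _)]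
    exact Real.rpow_le_rpow (Hh_nonneg27 _ _ _ _ _ _)
      ((Hh_le27 _ _ _ _ _ _).trans (hhle27 χ hj40 hlog hv t)) hp0.le
  have hmain : ∀ i ∈ S, ∑ χ : DirichletCharacter ℂ (b ^ m'),
      ∫ t in Gt χ (x ^ κ) T, Set.indicator {t | x ^ (-u) ≤ nt (tyf (x ^ (1 / 20 : ℝ)) (fac j i)) (v i) χ t}
          (fun t => nt (tyf (x ^ (1 / 20 : ℝ)) (fac j i)) (v i) χ t ^ (p * σ / v i)) t ≤ x ^ e := by
    intro i hi
    have hvi : νm * X ≤ (v i : ℝ) := (Finset.mem_filter.1 hi).2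
    have hvi0 : 0 < (v i : ℝ) := lt_of_lt_of_le hνX hvi
    have h1 := hx₁ x hxx1 m' T hm hbT hbx (fac j i) (v i) hvi (vle27 hlog hv i) (p * σ / v i)
      (by rw [div_le_div_iff_of_pos_right hvi0]; exact hpσ)
      (by
        rw [div_le_div_iff₀ hvi0 hν]
        have h2 : p * σ * νm ≤ p * ((1 + e) * X) * νm := by gcongr
        have h3 : p * ((1 + e) * X) * νm ≤ 2 * p * (νm * X) := by
          have : p * ((1 + e) * X) * νm = (1 + e) * (p * (νm * X)) := by ring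
          rw [this]
          have h4 : 0 ≤ p * (νm * X) := by positivity
          nlinarith
        have h5 : 2 * p * (νm * X) ≤ 2 * p * v i := by gcongr
        linarith)
    refine le_trans (le_of_eq ?_) h1
    refine Finset.sum_congr rfl fun χ _ => ?_
    rw [setIntegral_indicator (hmset χ i)]
  have hS80 : (S.card : ℝ) ≤ 80 := by
    have : S.card ≤ 80 := by
      refine (Finset.card_le_univ _).trans ?_
      rw [Fintype.card_fin]
      omega
    exact_mod_cast this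
  calc ∑ χ : DirichletCharacter ℂ (b ^ m'),
        ∫ t in Gt χ (x ^ κ) T, Hh27 (x ^ (-(u' + 3 * e))) x χ j v t ^ p
      ≤ ∑ χ : DirichletCharacter ℂ (b ^ m'), ((9 * X + 6) ^ 80) ^ p * ∑ i ∈ S,
        ∫ t in Gt χ (x ^ κ) T, Set.indicator {t | x ^ (-u) ≤ nt (tyf (x ^ (1 / 20 : ℝ)) (fac j i)) (v i) χ t}
          (fun t => nt (tyf (x ^ (1 / 20 : ℝ)) (fac j i)) (v i) χ t ^ (p * σ / v i)) t := by
        refine Finset.sum_le_sum fun χ _ => ?_
        rw [← integral_finsetSum _ (fun i hi => hint1 χ i hi), ← integral_const_mul]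
        refine setIntegral_mono_on (hint2 χ) ?_ (Gt_meas27 _ _ _) fun t _ => hpt χ t
        exact (integrable_finsetSum _ (fun i hi => hint1 χ i hi)).const_mul _
    _ = ((9 * X + 6) ^ 80) ^ p * ∑ i ∈ S, ∑ χ : DirichletCharacter ℂ (b ^ m'),
        ∫ t in Gt χ (x ^ κ) T, Set.indicator {t | x ^ (-u) ≤ nt (tyf (x ^ (1 / 20 : ℝ)) (fac j i)) (v i) χ t}
          (fun t => nt (tyf (x ^ (1 / 20 : ℝ)) (fac j i)) (v i) χ t ^ (p * σ / v i)) t := by
        rw [← Finset.mul_sum, Finset.sum_comm]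
    _ ≤ x ^ e * (80 * x ^ e) := by
        refine mul_le_mul hMp ?_ ?_ (Real.rpow_nonneg hx0.le _)
        · calc _ ≤ ∑ i ∈ S, x ^ e := Finset.sum_le_sum hmain
            _ = (S.card : ℝ) * x ^ e := by rw [Finset.sum_const, nsmul_eq_mul]
            _ ≤ 80 * x ^ e := mul_le_mul_of_nonneg_right hS80 (Real.rpow_nonneg hx0.le _)
        · refine Finset.sum_nonneg fun i _ => Finset.sum_nonneg fun χ _ => ?_
          exact integral_nonneg fun t => Set.indicator_nonneg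
            (fun s _ => Real.rpow_nonneg (nt_nonneg _ _ _ _) _) t
    _ ≤ x ^ e * (x ^ e * x ^ e) := by gcongr
    _ = x ^ (3 * e) := by
        rw [← Real.rpow_add hx0, ← Real.rpow_add hx0]
        congr 1
        ring

/-- the index set of the terms of the Heath-Brown identity -/
private noncomputable def SS27 (e x : ℝ) : Finset ((j : ℕ) × (Fin (2 * j) → ℕ)) :=
  (Finset.Icc 1 40).sigma fun j => VV e x j

private theorem card27 {e x : ℝ} (hx : 2 ≤ Real.log x) :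
    ((SS27 e x).card : ℝ) ≤ 40 * (2 * Real.log x + 3) ^ 80 := by
  unfold SS27
  rw [Finset.card_sigma]
  push_cast
  have h1 : ∀ j ∈ Finset.Icc 1 40, ((VV e x j).card : ℝ) ≤ (2 * Real.log x + 3) ^ 80 := by
    intro j hj
    have hj40 := (Finset.mem_Icc.1 hj).2
    have h2 : (VV e x j).card ≤ (⌊2 * Real.log x⌋₊ + 3) ^ (2 * j) := by
      unfold VV
      refine (Finset.card_filter_le _ _).trans ?_
      rw [Fintype.card_piFinset_const, Finset.card_range]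
    have h3 := Nat.floor_le (show 0 ≤ 2 * Real.log x by linarith)
    calc ((VV e x j).card : ℝ) ≤ (((⌊2 * Real.log x⌋₊ + 3) ^ (2 * j) : ℕ) : ℝ) := by exact_mod_cast h2
      _ = ((⌊2 * Real.log x⌋₊ : ℝ) + 3) ^ (2 * j) := by push_cast; ring
      _ ≤ (2 * Real.log x + 3) ^ (2 * j) := by gcongr
      _ ≤ (2 * Real.log x + 3) ^ 80 := pow_le_pow_right₀ (by linarith) (by omega)
  calc (∑ j ∈ Finset.Icc 1 40, ((VV e x j).card : ℝ)) ≤ ∑ j ∈ Finset.Icc 1 40, (2 * Real.log x + 3) ^ 80 :=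
        Finset.sum_le_sum h1
    _ = 40 * (2 * Real.log x + 3) ^ 80 := by
        rw [Finset.sum_const, Nat.card_Icc, nsmul_eq_mul]
        norm_num

private theorem shift_meas27 {F : ℝ → ℝ} (hF : Measurable F) (t : ℝ) :
    Measurable fun ξ => F (t + ξ) := hF.comp (measurable_const.add measurable_id)

/-- pointwise bound -/
private theorem pt27 {e u' p x : ℝ} (hu1 : u' ≤ 1) (hp : 1 ≤ p)
    (hx1 : 1 ≤ x) (hlog : 2 ≤ Real.log x) (hN : ((SS27 e x).card : ℝ) ≤ x ^ e / 4)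
    (hx5 : 4 ≤ x ^ (5 : ℝ)) {Q : ℕ} (χ : DirichletCharacter ℂ Q) (t : ℝ)
    (hb : ‖PP χ t x‖ ≤ x ^ (1 + 2 * e) *
      (∑ j ∈ Finset.Icc 1 40, ∑ v ∈ VV e x j,
        ∫ ξ, gk ξ * ∏ i, nt (tyf (x ^ (1 / 20 : ℝ)) (fac j i)) (v i) χ (t + ξ)) + x ^ (-5 : ℝ))
    (ht : x ^ (-u') ≤ ‖PP χ t x‖ / x) :
    (‖PP χ t x‖ / x) ^ p ≤ 2 ^ p * x ^ (2 * e * p) * (x ^ e) ^ (p - 1) *
      ∑ s ∈ SS27 e x, ∫ ξ, gk ξ * Hh27 (x ^ (-(u' + 3 * e))) x χ s.1 s.2 (t + ξ) ^ p := by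
  have hx0 : 0 < x := by linarith
  have hp0 : 0 < p := by linarith
  set lev := x ^ (-(u' + 3 * e)) with hlev
  have hlev0 : 0 < lev := Real.rpow_pos_of_pos hx0 _
  set y := ‖PP χ t x‖ / x with hy
  have hy0 : 0 ≤ y := by positivity
  have hj40 : ∀ s ∈ SS27 e x, s.1 ≤ 40 := fun s hs => (Finset.mem_Icc.1 (Finset.mem_sigma.1 hs).1).2
  have hmem : ∀ s ∈ SS27 e x, s.2 ∈ VV e x s.1 := fun s hs => (Finset.mem_sigma.1 hs).2
  set J : ((j : ℕ) × (Fin (2 * j) → ℕ)) → ℝ := fun s => ∫ ξ, gk ξ * Hh27 lev x χ s.1 s.2 (t + ξ) with hJ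
  have hJ0 : ∀ s, 0 ≤ J s := fun s => integral_nonneg fun ξ =>
    mul_nonneg (gk_nonneg ξ) (Hh_nonneg27 _ _ _ _ _ _)
  have hMB : ∀ s ∈ SS27 e x, ∀ τ, hh27 x χ s.1 s.2 τ ≤ (9 * Real.log x + 6) ^ 80 := fun s hs τ =>
    hhle27 χ (hj40 s hs) hlog (hmem s hs) τ
  -- each integral
  have hI : ∀ s ∈ SS27 e x, ∫ ξ, gk ξ * hh27 x χ s.1 s.2 (t + ξ) ≤ J s + lev := by
    intro s hs
    have h1 : Integrable fun ξ => gk ξ * hh27 x χ s.1 s.2 (t + ξ) :=
      gk_mul_int27 (shift_meas27 (hh_cont27 x χ s.1 s.2).measurable t) (fun ξ => hh_nonneg27 _ _ _ _ _)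
        (fun ξ => hMB s hs _)
    have h2 : Integrable fun ξ => gk ξ * Hh27 lev x χ s.1 s.2 (t + ξ) :=
      gk_mul_int27 (shift_meas27 (Hh_meas27 lev x χ s.1 s.2) t) (fun ξ => Hh_nonneg27 _ _ _ _ _ _)
        (fun ξ => (Hh_le27 _ _ _ _ _ _).trans (hMB s hs _))
    have h3 : J s + lev = ∫ ξ, (gk ξ * Hh27 lev x χ s.1 s.2 (t + ξ) + gk ξ * lev) := by
      rw [integral_add h2 (gk_integrable27.mul_const _), integral_mul_const, gk_int, one_mul]
    rw [h3]
    refine integral_mono h1 (h2.add (gk_integrable27.mul_const _)) fun ξ => ?_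
    have h4 : hh27 x χ s.1 s.2 (t + ξ) ≤ Hh27 lev x χ s.1 s.2 (t + ξ) + lev := by
      unfold Hh27
      split_ifs with h
      · linarith
      · linarith [not_le.1 h]
    have h5 := mul_le_mul_of_nonneg_left h4 (gk_nonneg ξ)
    calc gk ξ * hh27 x χ s.1 s.2 (t + ξ) ≤ gk ξ * (Hh27 lev x χ s.1 s.2 (t + ξ) + lev) := h5
      _ = _ := by ring
  have hsum : (∑ j ∈ Finset.Icc 1 40, ∑ v ∈ VV e x j,
        ∫ ξ, gk ξ * ∏ i, nt (tyf (x ^ (1 / 20 : ℝ)) (fac j i)) (v i) χ (t + ξ)) ≤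
        (∑ s ∈ SS27 e x, J s) + x ^ e / 4 * lev := by
    have h1 : (∑ j ∈ Finset.Icc 1 40, ∑ v ∈ VV e x j,
        ∫ ξ, gk ξ * ∏ i, nt (tyf (x ^ (1 / 20 : ℝ)) (fac j i)) (v i) χ (t + ξ)) =
        ∑ s ∈ SS27 e x, ∫ ξ, gk ξ * hh27 x χ s.1 s.2 (t + ξ) := by
      unfold SS27
      rw [Finset.sum_sigma]
      rfl
    rw [h1]
    calc ∑ s ∈ SS27 e x, ∫ ξ, gk ξ * hh27 x χ s.1 s.2 (t + ξ) ≤ ∑ s ∈ SS27 e x, (J s + lev) :=
          Finset.sum_le_sum hI
      _ = (∑ s ∈ SS27 e x, J s) + ((SS27 e x).card : ℝ) * lev := by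
          rw [Finset.sum_add_distrib, Finset.sum_const, nsmul_eq_mul]
      _ ≤ _ := by gcongr
  have hP0 : 0 ≤ x ^ (1 + 2 * e) := Real.rpow_nonneg hx0.le _
  have h6 : y ≤ x ^ (2 * e) * (∑ s ∈ SS27 e x, J s) + x ^ (-u') / 4 + x ^ (-u') / 4 := by
    rw [hy, div_le_iff₀ hx0]
    refine hb.trans ?_
    have h7 : x ^ (1 + 2 * e) = x * x ^ (2 * e) := by
      rw [Real.rpow_add hx0, Real.rpow_one]
    have h8 : x ^ (2 * e) * (x ^ e / 4 * lev) = x ^ (-u') / 4 := by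
      have : x ^ (2 * e) * (x ^ e / 4 * lev) = (x ^ (2 * e) * x ^ e * lev) / 4 := by ring
      rw [this, hlev, ← Real.rpow_add hx0, ← Real.rpow_add hx0]
      congr 2
      ring
    have h9 : x ^ (-5 : ℝ) ≤ x ^ (-u') / 4 * x := by
      have h10 : x ^ (-5 : ℝ) ≤ 1 / 4 := by
        rw [Real.rpow_neg hx0.le, ← one_div]
        exact one_div_le_one_div_of_le (by norm_num) hx5
      have h11 : 1 ≤ x ^ (-u') * x := by
        have : x ^ (-u') * x = x ^ (-u' + 1) := by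
          rw [Real.rpow_add hx0, Real.rpow_one]
        rw [this]
        exact Real.one_le_rpow hx1 (by linarith)
      linarith
    calc x ^ (1 + 2 * e) * (∑ j ∈ Finset.Icc 1 40, ∑ v ∈ VV e x j,
        ∫ ξ, gk ξ * ∏ i, nt (tyf (x ^ (1 / 20 : ℝ)) (fac j i)) (v i) χ (t + ξ)) + x ^ (-5 : ℝ)
        ≤ x ^ (1 + 2 * e) * ((∑ s ∈ SS27 e x, J s) + x ^ e / 4 * lev) + x ^ (-u') / 4 * x := by
          have := mul_le_mul_of_nonneg_left hsum hP0
          linarith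
      _ = (x ^ (2 * e) * (∑ s ∈ SS27 e x, J s) + x ^ (2 * e) * (x ^ e / 4 * lev) + x ^ (-u') / 4) * x := by
          rw [h7]; ring
      _ = _ := by rw [h8]
  have h7 : y ≤ 2 * x ^ (2 * e) * ∑ s ∈ SS27 e x, J s := by linarith
  have hSJ0 : 0 ≤ ∑ s ∈ SS27 e x, J s := Finset.sum_nonneg fun s _ => hJ0 s
  have h8 : (∑ s ∈ SS27 e x, J s) ^ p ≤ (x ^ e) ^ (p - 1) * ∑ s ∈ SS27 e x, J s ^ p := by
    refine (Real.rpow_sum_le_const_mul_sum_rpow_of_nonneg (SS27 e x) hp (fun s _ => hJ0 s)).trans ?_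
    refine mul_le_mul_of_nonneg_right ?_ (Finset.sum_nonneg fun s _ => Real.rpow_nonneg (hJ0 s) _)
    refine Real.rpow_le_rpow (Nat.cast_nonneg _) ?_ (by linarith)
    have : 0 < x ^ e := Real.rpow_pos_of_pos hx0 _
    linarith
  have h9 : ∀ s ∈ SS27 e x, J s ^ p ≤ ∫ ξ, gk ξ * Hh27 lev x χ s.1 s.2 (t + ξ) ^ p := fun s hs =>
    jensen27 (shift_meas27 (Hh_meas27 lev x χ s.1 s.2) t) (fun ξ => Hh_nonneg27 _ _ _ _ _ _)
        (fun ξ => (Hh_le27 _ _ _ _ _ _).trans (hMB s hs _)) hp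
  calc y ^ p ≤ (2 * x ^ (2 * e) * ∑ s ∈ SS27 e x, J s) ^ p := Real.rpow_le_rpow hy0 h7 hp0.le
    _ = 2 ^ p * x ^ (2 * e * p) * (∑ s ∈ SS27 e x, J s) ^ p := by
        rw [Real.mul_rpow (by positivity) hSJ0, Real.mul_rpow (by norm_num) (Real.rpow_nonneg hx0.le _),
          ← Real.rpow_mul hx0.le]
    _ ≤ 2 ^ p * x ^ (2 * e * p) * ((x ^ e) ^ (p - 1) *
        ∑ s ∈ SS27 e x, ∫ ξ, gk ξ * Hh27 lev x χ s.1 s.2 (t + ξ) ^ p) := by
        refine mul_le_mul_of_nonneg_left (h8.trans ?_) (by positivity)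
        exact mul_le_mul_of_nonneg_left (Finset.sum_le_sum h9) (by positivity)
    _ = _ := by ring

private theorem cardchar27 {b m' : ℕ} (hb : 2 ≤ b) :
    (Fintype.card (DirichletCharacter ℂ (b ^ m')) : ℝ) ≤ (b : ℝ) ^ m' := by
  have : NeZero (b ^ m') := ⟨by positivity⟩
  have h1 : Fintype.card (DirichletCharacter ℂ (b ^ m')) = (b ^ m').totient := by
    rw [← Nat.card_eq_fintype_card]
    exact DirichletCharacter.card_eq_totient_of_hasEnoughRootsOfUnity ℂ (b ^ m')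
  rw [h1]
  have h2 := Nat.totient_le (b ^ m')
  calc ((b ^ m').totient : ℝ) ≤ ((b ^ m' : ℕ) : ℝ) := by exact_mod_cast h2
    _ = (b : ℝ) ^ m' := by push_cast; ring

/-- core: moments above a level -/
theorem mom_fin {f f' L u u' p νm : ℝ} (hf : 0 < f) (hff : f < f') (hL : 0 < L) (hp : 1 ≤ p)
    (hν : 0 < νm) (hLp : 2 * L < p * (1 - 80 * νm)) (hu' : 0 < u') (hu1 : u' ≤ 1)
    (huu : u' < u) (h : LSAt f' L u νm) : MomAt f p u' := by
  intro b hb2 ε hε κ hκ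
  have hp0 : 0 < p := by linarith
  -- choice of e
  obtain ⟨e, he, he1, he2, he3, he4⟩ : ∃ e : ℝ, 0 < e ∧ e ≤ 1 / 4 ∧ 4 * e ≤ u - u' ∧
      p * e ≤ p * (1 - 80 * νm) - 2 * L ∧ (3 * p + 5) * e ≤ ε := by
    have hd : 0 < p * (1 - 80 * νm) - 2 * L := by linarith
    refine ⟨min (min (1 / 4) ((u - u') / 4)) (min ((p * (1 - 80 * νm) - 2 * L) / p) (ε / (3 * p + 5))),
      ?_, ?_, ?_, ?_, ?_⟩
    · refine lt_min (lt_min (by norm_num) (by linarith)) (lt_min (div_pos hd hp0) (by positivity))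
    · exact (min_le_left _ _).trans (min_le_left _ _)
    · have : min (min (1 / 4) ((u - u') / 4)) (min ((p * (1 - 80 * νm) - 2 * L) / p) (ε / (3 * p + 5)))
        ≤ (u - u') / 4 := (min_le_left _ _).trans (min_le_right _ _)
      linarith
    · have : min (min (1 / 4) ((u - u') / 4)) (min ((p * (1 - 80 * νm) - 2 * L) / p) (ε / (3 * p + 5)))
        ≤ (p * (1 - 80 * νm) - 2 * L) / p := (min_le_right _ _).trans (min_le_left _ _)
      calc _ ≤ p * ((p * (1 - 80 * νm) - 2 * L) / p) := mul_le_mul_of_nonneg_left this hp0.le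
        _ = _ := by field_simp
    · have : min (min (1 / 4) ((u - u') / 4)) (min ((p * (1 - 80 * νm) - 2 * L) / p) (ε / (3 * p + 5)))
        ≤ ε / (3 * p + 5) := (min_le_right _ _).trans (min_le_right _ _)
      calc _ ≤ (3 * p + 5) * (ε / (3 * p + 5)) := mul_le_mul_of_nonneg_left this (by positivity)
        _ = ε := by field_simp
  obtain ⟨x₁, hx₁⟩ := lemA27 h hL hν hp he he1 hu' (by linarith) (by nlinarith) hb2
    (show 0 < κ / 2 by linarith)
  obtain ⟨x₂, hx₂⟩ := hb he he1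
  have hev1 := polylog27 9 6 80 (show 0 < e / p by positivity) (by norm_num) (by norm_num)
  have hev2 := polylog27 2 3 80 (show 0 < e / 2 by positivity) (by norm_num) (by norm_num)
  have hev3 : ∀ᶠ x : ℝ in Filter.atTop, (160 : ℝ) ≤ x ^ (e / 2) :=
    (tendsto_rpow_atTop (by positivity)).eventually_ge_atTop _
  have hev4 : ∀ᶠ x : ℝ in Filter.atTop, (4 : ℝ) ≤ x ^ (5 : ℝ) :=
    (tendsto_rpow_atTop (by norm_num)).eventually_ge_atTop _
  have hev5 := polylog27 1 1 1 (show 0 < f' - f by linarith) (by norm_num) (by norm_num)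
  have hev6 := polylog27 1 1 1 (show 0 < κ / 2 by linarith) (by norm_num) (by norm_num)
  have hev7 : ∀ᶠ x : ℝ in Filter.atTop, 2 + 8 * (f + e + 1) ≤ Real.log x :=
    Real.tendsto_log_atTop.eventually_ge_atTop _
  have hev8 : ∀ᶠ x : ℝ in Filter.atTop, (2 : ℝ) ^ p + 4 ≤ x ^ e :=
    (tendsto_rpow_atTop he).eventually_ge_atTop _
  obtain ⟨x₃, hx₃⟩ := Filter.eventually_atTop.1
    (hev1.and (hev2.and (hev3.and (hev4.and (hev5.and (hev6.and (hev7.and hev8)))))))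
  refine ⟨max (max x₁ x₂) (max x₃ 1), fun x hx m' T hm hbT hbx => ?_⟩
  have hxx1 : x₁ ≤ x := le_trans (le_trans (le_max_left _ _) (le_max_left _ _)) hx
  have hxx2 : x₂ ≤ x := le_trans (le_trans (le_max_right _ _) (le_max_left _ _)) hx
  have hxx3 : x₃ ≤ x := le_trans (le_trans (le_max_left _ _) (le_max_right _ _)) hx
  have hx1 : 1 ≤ x := le_trans (le_trans (le_max_right _ _) (le_max_right _ _)) hx
  have hx0 : 0 < x := by linarith
  obtain ⟨hM, hNp, h160, hx5, hT1, hκ1, hlog8, h2p⟩ := hx₃ x hxx3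
  set X := Real.log x with hX
  have hlog : 2 ≤ X := by linarith
  have hX0 : 0 < X := by linarith
  have hMp : ((9 * X + 6) ^ 80) ^ p ≤ x ^ e := by
    calc ((9 * X + 6) ^ 80) ^ p ≤ (x ^ (e / p)) ^ p :=
          Real.rpow_le_rpow (by positivity) hM hp0.le
      _ = x ^ e := by
          rw [← Real.rpow_mul hx0.le]
          congr 1
          field_simp
  have hN : ((SS27 e x).card : ℝ) ≤ x ^ e / 4 := by
    refine (card27 hlog).trans ?_
    have h1 : x ^ e = x ^ (e / 2) * x ^ (e / 2) := by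
      rw [← Real.rpow_add hx0]; congr 1; ring
    have h2 : 0 < x ^ (e / 2) := Real.rpow_pos_of_pos hx0 _
    rw [h1]
    nlinarith
  have hbm1 : (1 : ℝ) ≤ (b : ℝ) ^ m' := by
    have : (1 : ℝ) ≤ b := by
      have : 1 ≤ b := by omega
      exact_mod_cast this
    exact one_le_pow₀ this
  have hT0 : 1 ≤ T := hbm1.trans hbT
  have hbmx : (b : ℝ) ^ m' ≤ x ^ f := by
    refine le_trans ?_ hbx
    nlinarith
  have hTX : (b : ℝ) ^ m' * (T + X) ≤ x ^ f' := by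
    calc (b : ℝ) ^ m' * (T + X) = (b : ℝ) ^ m' * T + (b : ℝ) ^ m' * X := by ring
      _ ≤ x ^ f + x ^ f * X := by gcongr
      _ = x ^ f * (1 * X + 1) ^ 1 := by ring
      _ ≤ x ^ f * x ^ (f' - f) := mul_le_mul_of_nonneg_left hT1 (by positivity)
      _ = x ^ f' := by rw [← Real.rpow_add hx0]; congr 1; ring
  set lev := x ^ (-(u' + 3 * e)) with hlev
  -- shift of the sets
  have hshift : ∀ (χ : DirichletCharacter ℂ (b ^ m')), ∀ t ∈ Gt χ (x ^ κ) T, ∀ ξ : ℝ, |ξ| ≤ X →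
      t + ξ ∈ Gt χ (x ^ (κ / 2)) (T + X) := by
    intro χ t ht ξ hξ
    refine ⟨(abs_add_le t ξ).trans (add_le_add ht.1 hξ), fun hχ => ?_⟩
    have h1 := ht.2 hχ
    have h2 : |t| - |ξ| ≤ |t + ξ| := by
      have := abs_sub_abs_le_abs_sub t (-ξ)
      rwa [abs_neg, sub_neg_eq_add] at this
    have h3 : x ^ κ = x ^ (κ / 2) * x ^ (κ / 2) := by
      rw [← Real.rpow_add hx0]; congr 1; ring
    have h4 : X + 1 ≤ x ^ (κ / 2) := by
      have := hκ1
      linarith [this]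
    have h5 : x ^ (κ / 2) + X ≤ x ^ (κ / 2) * x ^ (κ / 2) := by nlinarith
    linarith
  have hjm : ∀ s ∈ SS27 e x, s.1 ≤ 40 := fun s hs => (Finset.mem_Icc.1 (Finset.mem_sigma.1 hs).1).2
  have hmem : ∀ s ∈ SS27 e x, s.2 ∈ VV e x s.1 := fun s hs => (Finset.mem_sigma.1 hs).2
  have hFm : ∀ (χ : DirichletCharacter ℂ (b ^ m')) (s : (j : ℕ) × (Fin (2 * j) → ℕ)),
      Measurable fun t => Hh27 lev x χ s.1 s.2 t ^ p := fun χ s => (Hh_meas27 lev x χ s.1 s.2).pow_const _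
  have hF0 : ∀ (χ : DirichletCharacter ℂ (b ^ m')) (s : (j : ℕ) × (Fin (2 * j) → ℕ)) (t : ℝ),
      0 ≤ Hh27 lev x χ s.1 s.2 t ^ p := fun χ s t => Real.rpow_nonneg (Hh_nonneg27 _ _ _ _ _ _) _
  have hFM : ∀ (χ : DirichletCharacter ℂ (b ^ m')), ∀ s ∈ SS27 e x, ∀ t : ℝ,
      Hh27 lev x χ s.1 s.2 t ^ p ≤ x ^ e := by
    intro χ s hs t
    refine le_trans ?_ hMp
    exact Real.rpow_le_rpow (Hh_nonneg27 _ _ _ _ _ _)
      ((Hh_le27 _ _ _ _ _ _).trans (hhle27 χ (hjm s hs) hlog (hmem s hs) t)) hp0.le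
  have hfub : ∀ (χ : DirichletCharacter ℂ (b ^ m')), ∀ s ∈ SS27 e x,
      IntegrableOn (fun t => ∫ ξ, gk ξ * Hh27 lev x χ s.1 s.2 (t + ξ) ^ p) (Gt χ (x ^ κ) T) ∧
      ∫ t in Gt χ (x ^ κ) T, ∫ ξ, gk ξ * Hh27 lev x χ s.1 s.2 (t + ξ) ^ p ≤
      (∫ s' in Gt χ (x ^ (κ / 2)) (T + X), Hh27 lev x χ s.1 s.2 s' ^ p) +
        2 * T * x ^ e * ∫ ξ in {ξ : ℝ | X < |ξ|}, gk ξ := fun χ s hs =>
    fub27 (G := Gt χ (x ^ κ) T) (G' := Gt χ (x ^ (κ / 2)) (T + X))
      (F := fun t => Hh27 lev x χ s.1 s.2 t ^ p) (Gt_meas27 _ _ _) (Gt_meas27 _ _ _) (Gt_sub27 _ _ _)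
      (Gt_sub27 _ _ _) (by linarith) (hFm χ s) (hF0 χ s) (hFM χ s hs) (hshift χ)
  set C0 := 2 ^ p * x ^ (2 * e * p) * (x ^ e) ^ (p - 1) with hC0
  have hC00 : 0 ≤ C0 := by positivity
  -- the tail
  have htail : (b : ℝ) ^ m' * (2 * T * x ^ e * ∫ ξ in {ξ : ℝ | X < |ξ|}, gk ξ) ≤ x ^ e := by
    have h1 := gk_tail27 hX0.le
    have h2 : Real.exp (-X ^ 2 / 8) ≤ x ^ (-(f + e + 1)) := by
      rw [Real.rpow_def_of_pos hx0, ← hX]
      refine Real.exp_le_exp.2 ?_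
      nlinarith
    have h3 : ∫ ξ in {ξ : ℝ | X < |ξ|}, gk ξ ≤ 2 * x ^ (-(f + e + 1)) := by linarith
    calc (b : ℝ) ^ m' * (2 * T * x ^ e * ∫ ξ in {ξ : ℝ | X < |ξ|}, gk ξ)
        ≤ (b : ℝ) ^ m' * (2 * T * x ^ e * (2 * x ^ (-(f + e + 1)))) := by gcongr
      _ = 4 * ((b : ℝ) ^ m' * T) * (x ^ e * x ^ (-(f + e + 1))) := by ring
      _ ≤ 4 * x ^ f * (x ^ e * x ^ (-(f + e + 1))) := by gcongr
      _ = 4 * (x ^ f * x ^ e * x ^ (-(f + e + 1))) := by ring
      _ = 4 * x ^ (-1 : ℝ) := by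
          rw [← Real.rpow_add hx0, ← Real.rpow_add hx0]
          congr 2
          ring
      _ ≤ 4 * 1 := by
          refine mul_le_mul_of_nonneg_left ?_ (by norm_num)
          exact Real.rpow_le_one_of_one_le_of_nonpos hx1 (by norm_num)
      _ ≤ x ^ e := by
          have : 0 ≤ (2 : ℝ) ^ p := by positivity
          linarith
  have hPc : ∀ χ : DirichletCharacter ℂ (b ^ m'), Continuous fun t => (‖PP χ t x‖ / x) ^ p := fun χ =>
    (((PP_continuous χ hx0).norm).div_const x).rpow_const fun _ => Or.inr hp0.le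
  have hset : ∀ χ : DirichletCharacter ℂ (b ^ m'), MeasurableSet
      (Gt χ (x ^ κ) T ∩ {t | x ^ (-u') ≤ ‖PP χ t x‖ / x}) := fun χ =>
    (Gt_meas27 _ _ _).inter (measurableSet_le measurable_const
      (((PP_continuous χ hx0).norm).div_const x).measurable)
  have hstep : ∀ χ : DirichletCharacter ℂ (b ^ m'),
      ∫ t in Gt χ (x ^ κ) T ∩ {t | x ^ (-u') ≤ ‖PP χ t x‖ / x}, (‖PP χ t x‖ / x) ^ p ≤
      C0 * ∑ s ∈ SS27 e x, ((∫ s' in Gt χ (x ^ (κ / 2)) (T + X), Hh27 lev x χ s.1 s.2 s' ^ p) +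
        2 * T * x ^ e * ∫ ξ in {ξ : ℝ | X < |ξ|}, gk ξ) := by
    intro χ
    have hRi : IntegrableOn (fun t => C0 * ∑ s ∈ SS27 e x,
        ∫ ξ, gk ξ * Hh27 lev x χ s.1 s.2 (t + ξ) ^ p) (Gt χ (x ^ κ) T) :=
      (integrable_finsetSum _ fun s hs => (hfub χ s hs).1).const_mul _
    calc ∫ t in Gt χ (x ^ κ) T ∩ {t | x ^ (-u') ≤ ‖PP χ t x‖ / x}, (‖PP χ t x‖ / x) ^ p
        ≤ ∫ t in Gt χ (x ^ κ) T ∩ {t | x ^ (-u') ≤ ‖PP χ t x‖ / x}, C0 * ∑ s ∈ SS27 e x,
            ∫ ξ, gk ξ * Hh27 lev x χ s.1 s.2 (t + ξ) ^ p := by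
          refine setIntegral_mono_on ?_ (hRi.mono_set Set.inter_subset_left) (hset χ) fun t ht => ?_
          · exact ((hPc χ).integrableOn_Icc (a := -T) (b := T)).mono_set
              (Set.inter_subset_left.trans (Gt_sub27 _ _ _))
          · exact pt27 hu1 hp hx1 hlog hN hx5 χ t (hx₂ x hxx2 _ χ t) ht.2
      _ ≤ ∫ t in Gt χ (x ^ κ) T, C0 * ∑ s ∈ SS27 e x,
            ∫ ξ, gk ξ * Hh27 lev x χ s.1 s.2 (t + ξ) ^ p := by
          refine setIntegral_mono_set hRi (Filter.Eventually.of_forall fun t => ?_)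
            (Filter.Eventually.of_forall fun t ht => ht.1)
          refine mul_nonneg hC00 (Finset.sum_nonneg fun s _ => integral_nonneg fun ξ => ?_)
          exact mul_nonneg (gk_nonneg _) (hF0 χ s _)
      _ = C0 * ∑ s ∈ SS27 e x, ∫ t in Gt χ (x ^ κ) T,
            ∫ ξ, gk ξ * Hh27 lev x χ s.1 s.2 (t + ξ) ^ p := by
          rw [integral_const_mul, integral_finsetSum _ fun s hs => (hfub χ s hs).1]
      _ ≤ _ := mul_le_mul_of_nonneg_left (Finset.sum_le_sum fun s hs => (hfub χ s hs).2) hC00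
  have hA : ∀ s ∈ SS27 e x, ∑ χ : DirichletCharacter ℂ (b ^ m'),
      ∫ s' in Gt χ (x ^ (κ / 2)) (T + X), Hh27 lev x χ s.1 s.2 s' ^ p ≤ x ^ (3 * e) := fun s hs =>
    hx₁ x hxx1 m' (T + X) hm (by linarith) hTX s.1 (Finset.mem_sigma.1 hs).1 s.2 (hmem s hs)
  have hcard := cardchar27 (m' := m') hb2
  have htail0 : 0 ≤ 2 * T * x ^ e * ∫ ξ in {ξ : ℝ | X < |ξ|}, gk ξ := by
    have : 0 ≤ ∫ ξ in {ξ : ℝ | X < |ξ|}, gk ξ := integral_nonneg fun ξ => gk_nonneg ξ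
    positivity
  have hxe : 1 ≤ x ^ e := Real.one_le_rpow hx1 he.le
  calc ∑ χ : DirichletCharacter ℂ (b ^ m'),
        ∫ t in Gt χ (x ^ κ) T ∩ {t | x ^ (-u') ≤ ‖PP χ t x‖ / x}, (‖PP χ t x‖ / x) ^ p
      ≤ ∑ χ : DirichletCharacter ℂ (b ^ m'),
        C0 * ∑ s ∈ SS27 e x, ((∫ s' in Gt χ (x ^ (κ / 2)) (T + X), Hh27 lev x χ s.1 s.2 s' ^ p) +
        2 * T * x ^ e * ∫ ξ in {ξ : ℝ | X < |ξ|}, gk ξ) := Finset.sum_le_sum fun χ _ => hstep χ
    _ = C0 * ∑ s ∈ SS27 e x, ((∑ χ : DirichletCharacter ℂ (b ^ m'),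
        ∫ s' in Gt χ (x ^ (κ / 2)) (T + X), Hh27 lev x χ s.1 s.2 s' ^ p) +
        (Fintype.card (DirichletCharacter ℂ (b ^ m')) : ℝ) *
          (2 * T * x ^ e * ∫ ξ in {ξ : ℝ | X < |ξ|}, gk ξ)) := by
        rw [← Finset.mul_sum, Finset.sum_comm]
        congr 1
        refine Finset.sum_congr rfl fun s _ => ?_
        rw [Finset.sum_add_distrib, Finset.sum_const, Finset.card_univ, nsmul_eq_mul]
    _ ≤ C0 * ∑ s ∈ SS27 e x, (x ^ (3 * e) + x ^ e) := by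
        refine mul_le_mul_of_nonneg_left (Finset.sum_le_sum fun s hs => add_le_add (hA s hs) ?_) hC00
        exact (mul_le_mul_of_nonneg_right hcard htail0).trans htail
    _ = C0 * (((SS27 e x).card : ℝ) * (x ^ (3 * e) + x ^ e)) := by
        rw [Finset.sum_const, nsmul_eq_mul]
    _ ≤ C0 * (x ^ e / 4 * (x ^ (3 * e) + x ^ (3 * e))) := by
        refine mul_le_mul_of_nonneg_left ?_ hC00
        refine mul_le_mul hN ?_ (by positivity) (by positivity)
        have : x ^ e ≤ x ^ (3 * e) := Real.rpow_le_rpow_of_exponent_le hx1 (by linarith)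
        linarith
    _ ≤ C0 * (x ^ e * x ^ (3 * e)) := by
        refine mul_le_mul_of_nonneg_left ?_ hC00
        have h1 : 0 ≤ x ^ e * x ^ (3 * e) := by positivity
        nlinarith
    _ = 2 ^ p * (x ^ (2 * e * p) * (x ^ e) ^ (p - 1) * (x ^ e * x ^ (3 * e))) := by
        rw [hC0]; ring
    _ ≤ x ^ e * (x ^ (2 * e * p) * (x ^ e) ^ (p - 1) * (x ^ e * x ^ (3 * e))) := by
        refine mul_le_mul_of_nonneg_right ?_ (by positivity)
        linarith
    _ = x ^ ((3 * p + 4) * e) := by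
        rw [← Real.rpow_mul hx0.le, ← Real.rpow_add hx0, ← Real.rpow_add hx0, ← Real.rpow_add hx0,
          ← Real.rpow_add hx0]
        congr 1
        ring
    _ ≤ x ^ ε := by
        refine Real.rpow_le_rpow_of_exponent_le hx1 ?_
        linarith

end Pool.Agent.HPP
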