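import Pool.Agent.HPP.VBig

/-!
# HPP/VSmall: level sets of the factors for large values (`f < L`)

Note 1667, V8, with `τ = (f + L)/4`: for `v ≤ τ X` the smallest `j` with `j v > τ X` has `j v ≤ 2 τ X ≤ L X`, and the
Halasz-Montgomery bound applies with `T₀ = T`; for `v > τ X` the pointwise bound shows that there are no large values.
-/

namespace Pool.Agent.HPP

open Complex MeasureTheory

theorem LSAt_mono {f L L' u νm : ℝ} (hL : L' ≤ L) (hν : 0 < νm) (h : LSAt f L' u νm) :
    LSAt f L u νm := by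
  intro b hb ε hε κ hκ
  obtain ⟨x₀, hx₀⟩ := h b hb ε hε κ hκ
  refine ⟨max x₀ 2, fun x hx m' T h1 h2 h3 k v h4 h5 V h6 h7 => ?_⟩
  have hx2 : (2 : ℝ) ≤ x := (le_max_right _ _).trans hx
  have hx0 : 0 < x := by linarith
  have hX : 0 < Real.log x := Real.log_pos (by linarith)
  have hv : (0 : ℝ) < v := lt_of_lt_of_le (by positivity) h4
  have hV : 0 < V := (Real.rpow_pos_of_pos hx0 _).trans_le h6
  refine (hx₀ x ((le_max_left _ _).trans hx) m' T h1 h2 h3 k v h4 h5 V h6 h7).trans ?_
  refine mul_le_mul_of_nonneg_left ?_ (Real.rpow_nonneg hx0.le _)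
  refine Real.rpow_le_rpow_of_exponent_ge hV h7 (neg_le_neg ?_)
  refine div_le_div_of_nonneg_right ?_ hv.le
  nlinarith

theorem exists_pow' {τ X v : ℝ} (hv : 0 < v) (h : v ≤ τ * X) : ∃ j : ℕ, 1 ≤ j ∧
    τ * X ≤ j * v ∧ (j : ℝ) * v ≤ 2 * (τ * X) := by
  set j : ℕ := ⌈τ * X / v⌉₊ with hj
  have h1 : τ * X / v ≤ j := Nat.le_ceil _
  have h0 : 1 ≤ τ * X / v := by rwa [le_div_iff₀ hv, one_mul]
  have h2 : (j : ℝ) < τ * X / v + 1 := Nat.ceil_lt_add_one (by linarith)
  rw [div_le_iff₀ hv] at h1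
  have h3 : (j : ℝ) * v ≤ τ * X + v := by
    have h4 : (τ * X / v + 1) * v = τ * X + v := by
      rw [add_mul, div_mul_cancel₀ _ hv.ne', one_mul]
    nlinarith
  refine ⟨j, ?_, h1, by linarith⟩
  rw [hj, Nat.one_le_ceil_iff]
  linarith

theorem ls_small1 (hPV : PVProp) {f L νm : ℝ} (hf : 1 / 4 ≤ f) (hL : f < L) (hL1 : L ≤ 1)
    (hν : 0 < νm) : ∃ u₃ : ℝ, 0 < u₃ ∧ LSAt f L u₃ νm := by
  have hL0 : 0 < L := by linarith
  have hf0 : 0 < f := by linarith
  set g : ℝ := (L - f) / 32 with hg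
  have hg0 : 0 < g := by rw [hg]; linarith
  have hg1 : g ≤ 1 / 32 := by rw [hg]; linarith
  refine ⟨min (νm * g) g, lt_min (by positivity) hg0, fun b hb ε hε κ hκ => ?_⟩
  set η : ℝ := min (ε / 4) g with hη
  have hη0 : 0 < η := lt_min (by linarith) hg0
  have hη1 : η ≤ ε / 4 := min_le_left _ _
  have hη2 : η ≤ g := min_le_right _ _
  set δ : ℝ := η / 2 with hδ
  have hδ0 : 0 < δ := by positivity
  choose C2 hC2 using fun j : ℕ => ls_hm hPV hb (j := j + 1) (by omega) hδ0
  set J : ℕ := ⌊L / νm⌋₊ with hJ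
  set C : ℝ := ∑ j ∈ Finset.range (J + 1), C2 j with hC
  have hCle : ∀ j ≤ J, C2 j ≤ C := by
    intro j hj
    rw [hC]
    exact Finset.single_le_sum (f := fun j => C2 j) (fun i _ => by
      have h2 := (hC2 i).1
      linarith) (Finset.mem_range.2 (by omega))
  have hC0 : 0 ≤ C := by
    have h1 := hCle 0 (by omega)
    have h2 := (hC2 0).1
    linarith
  obtain ⟨X₁, hX₁1, hX₁⟩ := lin_le_exp (6 * C) (η := η / 2) (by positivity)
  obtain ⟨X₂, hX₂1, hP⟩ := case_pt hPV hf0 (by linarith) hb hκ hη0 (by linarith)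
  refine ⟨Real.exp (max (max X₁ X₂) 32), fun x hx m' T hm' hQT hD k v hv hv3 V hV1 hV2 => ?_⟩
  have hx0 : 0 < x := (Real.exp_pos _).trans_le hx
  set X : ℝ := Real.log x with hX
  have hXx : max (max X₁ X₂) 32 ≤ X := by
    rw [hX, Real.le_log_iff_exp_le hx0]; exact hx
  have g1 : X₁ ≤ X := ((le_max_left _ _).trans (le_max_left _ _)).trans hXx
  have g2 : X₂ ≤ X := ((le_max_right _ _).trans (le_max_left _ _)).trans hXx
  have g5 : 32 ≤ X := (le_max_right _ _).trans hXx
  have hX0 : 0 < X := by linarith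
  have exx : ∀ a : ℝ, x ^ a = Real.exp (a * X) := fun a => by
    rw [Real.rpow_def_of_pos hx0, mul_comm]
  have hb1 : (2 : ℝ) ≤ b := by exact_mod_cast hb
  have hQ0 : (0 : ℝ) < (b : ℝ) ^ m' := by positivity
  have hQ1 : (2 : ℝ) ≤ (b : ℝ) ^ m' := by
    calc (2 : ℝ) ≤ b := hb1
      _ = (b : ℝ) ^ 1 := (pow_one _).symm
      _ ≤ (b : ℝ) ^ m' := pow_le_pow_right₀ (by linarith) hm'
  have hT1 : 1 ≤ T := by linarith
  rw [exx] at hD hV1
  have hv0 : (0 : ℝ) < v := lt_of_lt_of_le (by positivity) hv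
  have hV0 : 0 < V := (Real.exp_pos _).trans_le hV1
  obtain ⟨u, hu0, hVu⟩ : ∃ u : ℝ, 0 ≤ u ∧ V = Real.exp (-(u * v)) := by
    refine ⟨-Real.log V / v, div_nonneg (by linarith [Real.log_nonpos hV0.le hV2]) hv0.le, ?_⟩
    rw [div_mul_cancel₀ _ hv0.ne', neg_neg, Real.exp_log hV0]
  have huv : u * v ≤ νm * g * X ∧ u * v ≤ g * X := by
    rw [hVu] at hV1
    have h1 := Real.exp_le_exp.1 hV1
    have h2 : min (νm * g) g * X ≤ νm * g * X :=
      mul_le_mul_of_nonneg_right (min_le_left _ _) hX0.le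
    have h3 : min (νm * g) g * X ≤ g * X :=
      mul_le_mul_of_nonneg_right (min_le_right _ _) hX0.le
    constructor <;> linarith
  have hug : u ≤ g := by
    have h1 : u * (νm * X) ≤ u * v := mul_le_mul_of_nonneg_left hv hu0
    have h2 : u * (νm * X) ≤ g * (νm * X) := by linarith [huv.1]
    exact le_of_mul_le_mul_right h2 (by positivity)
  rw [hVu, hX, target_eq hx0 hv0, ← hX]
  have hηX : 0 < η * X := by positivity
  have hεX : 0 < ε * X := by positivity
  have hηε : η * X ≤ ε / 4 * X := mul_le_mul_of_nonneg_right hη1 hX0.le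
  have hηg : η * X ≤ g * X := mul_le_mul_of_nonneg_right hη2 hX0.le
  have hgX : 32 * (g * X) = L * X - f * X := by rw [hg]; ring
  rcases le_or_gt (v : ℝ) ((f + L) / 4 * X) with hcase | hcase
  · obtain ⟨j, hj1, hj2, hj3⟩ := exists_pow' hv0 hcase
    set A : ℝ := j * v with hAd
    have hAL : A ≤ L * X := by
      have h5 : 0 < g * X := by positivity
      linarith
    have hj1' : (1 : ℝ) ≤ j := by exact_mod_cast hj1
    have hvX : (v : ℝ) ≤ X := by
      have h5 : 1 * (v : ℝ) ≤ j * v := mul_le_mul_of_nonneg_right hj1' hv0.le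
      have h6 : L * X ≤ 1 * X := mul_le_mul_of_nonneg_right hL1 hX0.le
      linarith
    have hjJ : j - 1 ≤ J := by
      have h1 : (j : ℝ) ≤ L / νm := by
        rw [le_div_iff₀ hν]
        have h5 : (j : ℝ) * (νm * X) ≤ L * X :=
          (mul_le_mul_of_nonneg_left hv (by positivity)).trans hAL
        have h6 : j * νm * X ≤ L * X := by linarith
        exact le_of_mul_le_mul_right h6 hX0
      have h2 : j ≤ J := Nat.le_floor h1
      omega
    have hjj : j - 1 + 1 = j := by omega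
    have hc2 := hCle (j - 1) hjJ
    have hM2 := (hC2 (j - 1)).2
    rw [hjj] at hM2
    have hC2n : 0 ≤ C2 (j - 1) := by linarith [(hC2 (j - 1)).1]
    have hbud : 6 * C * (X + 2) * Real.exp (δ * v) ≤ Real.exp (η * X) := by
      have h1 := hX₁ X g1
      have h2 : Real.exp (δ * v) ≤ Real.exp (η / 2 * X) := Real.exp_le_exp.2
        (mul_le_mul_of_nonneg_left hvX hδ0.le)
      calc 6 * C * (X + 2) * Real.exp (δ * v) ≤ Real.exp (η / 2 * X) * Real.exp (η / 2 * X) :=
            mul_le_mul h1 h2 (Real.exp_pos _).le (Real.exp_pos _).le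
        _ = Real.exp (η * X) := by rw [← Real.exp_add]; congr 1; ring
    have hbud1 : 6 * C * Real.exp (δ * v) ≤ Real.exp (η * X) := by
      refine le_trans ?_ hbud
      have h3 : 0 ≤ 6 * C * Real.exp (δ * v) := by positivity
      have h4 := mul_le_mul_of_nonneg_left (by linarith : (1 : ℝ) ≤ X + 2) h3
      linarith
    have hVp : Real.exp (-(u * v)) ^ (2 * j) = Real.exp (-(2 * A * u)) := by
      rw [← Real.exp_nat_mul]
      congr 1
      push_cast
      rw [hAd]; ring
    have hVi : (Real.exp (-(u * v)) ^ (2 * j))⁻¹ = Real.exp (2 * A * u) := by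
      rw [hVp, ← Real.exp_neg, neg_neg]
    have hsq : Real.sqrt ((b : ℝ) ^ m' * T) ≤ Real.exp (f * X / 2) := by
      refine Real.sqrt_le_iff.2 ⟨(Real.exp_pos _).le, ?_⟩
      rw [← Real.exp_nat_mul]
      refine hD.trans (le_of_eq ?_)
      congr 1
      push_cast
      ring
    have hlog : Real.log ((b : ℝ) ^ m' * (2 + T)) ≤ X + 2 :=
      log_QT hb (by linarith) hX0.le hT1 le_rfl hD
    have hlog0 : 0 ≤ Real.log ((b : ℝ) ^ m' * (2 + T)) := Real.log_nonneg
      (one_le_mul_of_one_le_of_one_le (by linarith) (by linarith))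
    have hcond : C2 (j - 1) * Real.exp (δ * v) * Real.sqrt ((b : ℝ) ^ m' * T) *
        Real.log ((b : ℝ) ^ m' * (2 + T)) ≤
        Real.exp (-(u * v)) ^ (2 * j) * Real.exp (j * v) := by
      have h1 : C2 (j - 1) * Real.exp (δ * v) * (X + 2) ≤ Real.exp (η * X) := by
        refine le_trans ?_ hbud
        have h3 : 0 ≤ Real.exp (δ * v) * (X + 2) := by positivity
        have h4 := mul_le_mul_of_nonneg_right hc2 h3
        have h5 := mul_nonneg hC0 h3
        linarith
      calc C2 (j - 1) * Real.exp (δ * v) * Real.sqrt ((b : ℝ) ^ m' * T) *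
            Real.log ((b : ℝ) ^ m' * (2 + T))
          ≤ C2 (j - 1) * Real.exp (δ * v) * Real.exp (f * X / 2) * (X + 2) := by
            refine mul_le_mul (mul_le_mul_of_nonneg_left hsq (by positivity)) hlog hlog0
              (by positivity)
        _ = C2 (j - 1) * Real.exp (δ * v) * (X + 2) * Real.exp (f * X / 2) := by ring
        _ ≤ Real.exp (η * X) * Real.exp (f * X / 2) :=
            mul_le_mul_of_nonneg_right h1 (Real.exp_pos _).le
        _ ≤ Real.exp (-(u * v)) ^ (2 * j) * Real.exp (j * v) := by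
            rw [hVp, ← Real.exp_add, ← Real.exp_add]
            refine Real.exp_le_exp.2 ?_
            have h5 : 2 * A * u ≤ 2 * (g * X) := by
              have h6 : A * u ≤ A * g := mul_le_mul_of_nonneg_left hug (by positivity)
              have h8 : L * X ≤ 1 * X := mul_le_mul_of_nonneg_right hL1 hX0.le
              have h7 : A * g ≤ X * g := mul_le_mul_of_nonneg_right (by linarith) hg0.le
              linarith
            linarith
    have hB : ∀ t₀ : ℝ, LM (fun _ : DirichletCharacter ℂ (b ^ m') => Set.Icc t₀ (t₀ + T))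
        (nt (tyf (x ^ (1 / 20 : ℝ)) k) v) (Real.exp (-(u * v))) ≤
        C2 (j - 1) * Real.exp (δ * v) * (Real.exp (-(u * v)) ^ (2 * j))⁻¹ :=
      fun t₀ => hM2 m' _ (tyf_sm _ k) v t₀ T _ hT1 (Real.exp_pos _) hcond
    refine (LM_Gt_le.trans (LM_cover (by linarith) le_rfl hB)).trans ?_
    rw [hVi, div_self (by linarith)]
    have h6 : 3 * (C2 (j - 1) * Real.exp (δ * v)) ≤ Real.exp (η * X) := by
      refine le_trans ?_ hbud1
      have h7 : C2 (j - 1) * Real.exp (δ * v) ≤ C * Real.exp (δ * v) :=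
        mul_le_mul_of_nonneg_right hc2 (Real.exp_pos _).le
      have h8 : 0 ≤ C * Real.exp (δ * v) := by positivity
      linarith
    calc 3 * 1 * (C2 (j - 1) * Real.exp (δ * v) * Real.exp (2 * A * u))
        = 3 * (C2 (j - 1) * Real.exp (δ * v)) * Real.exp (2 * A * u) := by ring
      _ ≤ Real.exp (η * X) * Real.exp (2 * A * u) :=
          mul_le_mul_of_nonneg_right h6 (Real.exp_pos _).le
      _ ≤ _ := by
          rw [← Real.exp_add]
          refine Real.exp_le_exp.2 ?_
          have h7 : A * u ≤ L * X * u := mul_le_mul_of_nonneg_right hAL hu0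
          linarith
  · rw [LM_empty (fun χ t ht => ?_)]
    · exact (Real.exp_pos _).le
    by_cases hk : k = 2
    · have h1 : pc (tyf (x ^ (1 / 20 : ℝ)) k) v = 0 := by
        rw [hk]
        show pc (mz _) v = 0
        refine pc_mz_zero ?_
        rw [exx]
        refine Real.exp_le_exp.2 ?_
        have h5 : 1 / 8 * X ≤ (f + L) / 4 * X :=
          mul_le_mul_of_nonneg_right (by linarith) hX0.le
        linarith
      rw [nt_zero_of h1]
      exact Real.exp_pos _
    · have ht' : t ∈ Gt χ (Real.exp (κ * X)) T := by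
        have : t ∈ Gt χ (x ^ κ) T := ht
        rwa [exx] at this
      refine (hP X g2 m' T hT1 hD k _ hk v hv3 χ t ht').trans_lt ?_
      have h1 : Real.exp (η * X) * Real.exp (f * X / 2 - v) < Real.exp (-(u * v)) := by
        rw [← Real.exp_add]
        refine Real.exp_lt_exp.2 ?_
        have h5 : 0 < g * X := by positivity
        linarith [huv.2]
      have h2 : Real.exp (η * X) * Real.exp (-(4 * X)) < Real.exp (-(u * v)) := by
        rw [← Real.exp_add]
        refine Real.exp_lt_exp.2 ?_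
        have h5 : g * X ≤ 1 / 32 * X := mul_le_mul_of_nonneg_right hg1 hX0.le
        linarith [huv.2]
      linarith

theorem ls_small (hPV : PVProp) {f L νm : ℝ} (hf : 1 / 4 ≤ f) (hL : f < L) (hf1 : f < 1)
    (hν : 0 < νm) : ∃ u₃ : ℝ, 0 < u₃ ∧ LSAt f L u₃ νm := by
  obtain ⟨u, hu, h⟩ := ls_small1 hPV (L := min L 1) hf (lt_min hL hf1) (min_le_right _ _) hν
  exact ⟨u, hu, LSAt_mono (min_le_left _ _) hν h⟩

end Pool.Agent.HPP
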