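import Pool.Agent.HPP.VBig
import Pool.Agent.HPP.VSmall
import Pool.Agent.HPP.VFin
import Pool.Agent.HPP.APP

/-!
# HPP/VMain: Part V from `PVProp`
-/

namespace Pool.Agent.HPP

open Complex MeasureTheory

theorem Gt_measurable {Q : ℕ} (χ : DirichletCharacter ℂ Q) (κ T : ℝ) :
    MeasurableSet (Gt χ κ T) := by
  unfold Gt
  by_cases h : χ = 1
  · have : {t : ℝ | |t| ≤ T ∧ (χ = 1 → κ ≤ |t|)} = {t : ℝ | |t| ≤ T} ∩ {t : ℝ | κ ≤ |t|} := by
      ext t; simp [h]
    rw [this]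
    exact (measurableSet_le measurable_id.abs measurable_const).inter
      (measurableSet_le measurable_const measurable_id.abs)
  · have : {t : ℝ | |t| ≤ T ∧ (χ = 1 → κ ≤ |t|)} = {t : ℝ | |t| ≤ T} := by
      ext t; simp [h]
    rw [this]
    exact measurableSet_le measurable_id.abs measurable_const

theorem big_of_mom {f p : ℝ} (hf : 0 < f) (hf1 : f < 1) (hp : 1 ≤ p) (h : MomAt f p 1) :
    BigAt f p := by
  intro b hb ε hε κ hκ
  obtain ⟨x₁, hx₁⟩ := h b hb (ε / 2) (half_pos hε) κ hκ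
  obtain ⟨X₂, hX₂1, hX₂⟩ := lin_le_exp 2 (η := ε / 2) (half_pos hε)
  refine ⟨max x₁ (Real.exp X₂), fun x hx m' T hm' hQT hD => ?_⟩
  have hx2 : Real.exp X₂ ≤ x := (le_max_right _ _).trans hx
  have hx0 : 0 < x := (Real.exp_pos _).trans_le hx2
  have hx1 : 1 ≤ x := by
    have h1 : (1 : ℝ) ≤ Real.exp X₂ := by
      have := Real.add_one_le_exp X₂
      linarith
    linarith
  have hb1 : (2 : ℝ) ≤ b := by exact_mod_cast hb
  have hQ1 : (1 : ℝ) ≤ (b : ℝ) ^ m' := one_le_pow₀ (by linarith)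
  have hT0 : 0 ≤ T := by linarith
  have hmain := hx₁ x ((le_max_left _ _).trans hx) m' T hm' hQT hD
  have hlog : X₂ ≤ Real.log x := by rwa [Real.le_log_iff_exp_le hx0]
  have h2 : 2 * x ^ (ε / 2) ≤ x ^ ε := by
    have h3 : (2 : ℝ) ≤ x ^ (ε / 2) := by
      rw [Real.rpow_def_of_pos hx0, mul_comm]
      have := hX₂ _ hlog
      linarith
    calc 2 * x ^ (ε / 2) ≤ x ^ (ε / 2) * x ^ (ε / 2) :=
          mul_le_mul_of_nonneg_right h3 (Real.rpow_nonneg hx0.le _)
      _ = x ^ ε := by rw [← Real.rpow_add hx0]; congr 1; ring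
  have hcont : ∀ χ : DirichletCharacter ℂ (b ^ m'), Continuous fun t => (‖PP χ t x‖ / x) ^ p :=
    fun χ => ((PP_continuous χ hx0).norm.div_const x).rpow_const fun t => Or.inr (by linarith)
  have hone : ∀ χ : DirichletCharacter ℂ (b ^ m'),
      ∫ t in Gt χ (x ^ κ) T, (‖PP χ t x‖ / x) ^ p ≤
        (∫ t in Gt χ (x ^ κ) T ∩ {t | x ^ (-1 : ℝ) ≤ ‖PP χ t x‖ / x}, (‖PP χ t x‖ / x) ^ p) +
          2 * T * x⁻¹ := by
    intro χ
    have hm : MeasurableSet {t | x ^ (-1 : ℝ) ≤ ‖PP χ t x‖ / x} :=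
      measurableSet_le measurable_const ((PP_continuous χ hx0).norm.div_const x).measurable
    have hint : IntegrableOn (fun t => (‖PP χ t x‖ / x) ^ p) (Set.Icc (-T) T) :=
      (hcont χ).integrableOn_Icc
    have hint2 := hint.mono_set (Gt_sub χ (x ^ κ) T)
    rw [← integral_inter_add_diff hm hint2]
    gcongr
    have hvol : volume (Gt χ (x ^ κ) T \ {t | x ^ (-1 : ℝ) ≤ ‖PP χ t x‖ / x}) ≠ ⊤ := by
      refine ne_top_of_le_ne_top ?_ (measure_mono (Set.diff_subset.trans (Gt_sub χ _ T)))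
      rw [Real.volume_Icc]
      exact ENNReal.ofReal_ne_top
    have hb2 : ∀ t ∈ Gt χ (x ^ κ) T \ {t | x ^ (-1 : ℝ) ≤ ‖PP χ t x‖ / x},
        ‖(‖PP χ t x‖ / x) ^ p‖ ≤ x⁻¹ := by
      intro t ht
      have h1 : ‖PP χ t x‖ / x < x ^ (-1 : ℝ) := not_le.1 ht.2
      have h0 : 0 ≤ ‖PP χ t x‖ / x := by positivity
      rw [Real.norm_of_nonneg (Real.rpow_nonneg h0 _)]
      rw [Real.rpow_neg_one] at h1
      have hx' : x⁻¹ ≤ 1 := inv_le_one_of_one_le₀ hx1
      calc (‖PP χ t x‖ / x) ^ p ≤ (‖PP χ t x‖ / x) ^ (1 : ℝ) :=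
            Real.rpow_le_rpow_of_exponent_ge' h0 (h1.le.trans hx') zero_le_one hp
        _ ≤ x⁻¹ := by rw [Real.rpow_one]; exact h1.le
    have h3 := norm_setIntegral_le_of_norm_le_const (lt_top_iff_ne_top.2 hvol) hb2
    refine (le_abs_self _).trans (h3.trans ?_)
    rw [mul_comm]
    refine mul_le_mul_of_nonneg_right ?_ (inv_nonneg.2 hx0.le)
    refine (measureReal_mono (Set.diff_subset.trans (Gt_sub χ _ T)) (by
      rw [Real.volume_Icc]; exact ENNReal.ofReal_ne_top)).trans ?_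
    rw [Real.volume_real_Icc_of_le (by linarith)]
    linarith
  have hcard : (Fintype.card (DirichletCharacter ℂ (b ^ m')) : ℝ) ≤ (b : ℝ) ^ m' := by
    have := card_char_le (Q := b ^ m') (Nat.one_le_pow _ _ (by omega))
    push_cast at this
    exact this
  have hxf : x ^ f * x⁻¹ ≤ 1 := by
    rw [← Real.rpow_neg_one, ← Real.rpow_add hx0]
    exact Real.rpow_le_one_of_one_le_of_nonpos hx1 (by linarith)
  have h1 : (1 : ℝ) ≤ x ^ (ε / 2) := Real.one_le_rpow hx1 (by linarith)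
  calc ∑ χ : DirichletCharacter ℂ (b ^ m'), ∫ t in Gt χ (x ^ κ) T, (‖PP χ t x‖ / x) ^ p
      ≤ ∑ χ : DirichletCharacter ℂ (b ^ m'),
        ((∫ t in Gt χ (x ^ κ) T ∩ {t | x ^ (-1 : ℝ) ≤ ‖PP χ t x‖ / x}, (‖PP χ t x‖ / x) ^ p) +
          2 * T * x⁻¹) := Finset.sum_le_sum fun χ _ => hone χ
    _ = (∑ χ : DirichletCharacter ℂ (b ^ m'),
        ∫ t in Gt χ (x ^ κ) T ∩ {t | x ^ (-1 : ℝ) ≤ ‖PP χ t x‖ / x}, (‖PP χ t x‖ / x) ^ p) +
          Fintype.card (DirichletCharacter ℂ (b ^ m')) * (2 * T * x⁻¹) := by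
        rw [Finset.sum_add_distrib, Finset.sum_const, Finset.card_univ, nsmul_eq_mul]
    _ ≤ x ^ (ε / 2) + 2 := by
        refine add_le_add hmain ?_
        calc (Fintype.card (DirichletCharacter ℂ (b ^ m')) : ℝ) * (2 * T * x⁻¹)
            ≤ (b : ℝ) ^ m' * (2 * T * x⁻¹) := mul_le_mul_of_nonneg_right hcard (by positivity)
          _ = 2 * (((b : ℝ) ^ m' * T) * x⁻¹) := by ring
          _ ≤ 2 * (x ^ f * x⁻¹) := by gcongr
          _ ≤ 2 := by linarith
    _ ≤ x ^ ε := by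
        have h3 : (2 : ℝ) ≤ x ^ (ε / 2) := by
          rw [Real.rpow_def_of_pos hx0, mul_comm]
          have := hX₂ _ hlog
          linarith
        linarith

theorem bigProp1 (hPV : PVProp) : BigProp1 := by
  intro f p hf hf1 hfp hp
  set a : ℝ := min (p / 2) 1 with ha
  have ha1 : 4 / 3 * f < a := lt_min (by linarith) (by linarith)
  have ha2 : a ≤ p / 2 := min_le_left _ _
  have ha3 : a ≤ 1 := min_le_right _ _
  set L : ℝ := (4 / 3 * f + a) / 2 with hL
  set f' : ℝ := (f + 3 / 4 * L) / 2 with hf'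
  have hff : f < f' := by rw [hf', hL]; linarith
  have hfL : 4 / 3 * f' < L := by rw [hf', hL]; linarith
  have hL1 : L < 1 := by rw [hL]; linarith
  have hLp : 2 * L < p := by rw [hL]; linarith
  have hp0 : 0 < p := by linarith
  have hν : 0 < (p - 2 * L) / (160 * p) := div_pos (by linarith) (by positivity)
  have hν2 : 2 * L < p * (1 - 80 * ((p - 2 * L) / (160 * p))) := by
    have : p * (1 - 80 * ((p - 2 * L) / (160 * p))) = p - (p - 2 * L) / 2 := by
      field_simp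
      ring
    rw [this]
    linarith
  exact big_of_mom (by linarith) (by linarith) hp
    (mom_fin (by linarith) hff (by linarith) hp hν hν2 one_pos le_rfl (by norm_num)
      (ls_big1 hPV (by linarith) hfL hL1 hν))

theorem smallProp (hPV : PVProp) : SmallProp := by
  intro f p hf hf1 hfp hp
  set L : ℝ := (2 * f + p) / 4 with hL
  set f' : ℝ := (f + min L 1) / 2 with hf'
  have hfL : f < L := by rw [hL]; linarith
  have hmin : f < min L 1 := lt_min hfL (by linarith)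
  have hff : f < f' := by rw [hf']; linarith
  have hfL' : f' < L := by
    have := min_le_left L 1
    rw [hf']; linarith
  have hf1' : f' < 1 := by
    have := min_le_right L 1
    rw [hf']; linarith
  have hLp : 2 * L < p := by rw [hL]; linarith
  have hp0 : 0 < p := by linarith
  have hν : 0 < (p - 2 * L) / (160 * p) := div_pos (by linarith) (by positivity)
  have hν2 : 2 * L < p * (1 - 80 * ((p - 2 * L) / (160 * p))) := by
    have : p * (1 - 80 * ((p - 2 * L) / (160 * p))) = p - (p - 2 * L) / 2 := by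
      field_simp
      ring
    rw [this]
    linarith
  obtain ⟨u, hu, h⟩ := ls_small hPV (by linarith : 1 / 4 ≤ f') hfL' hf1' hν
  have hu2 : 0 < min (u / 2) 1 := lt_min (half_pos hu) one_pos
  exact ⟨min (u / 2) 1, hu2, mom_fin (by linarith) hff (by linarith) hp hν hν2 hu2
    (min_le_right _ _) ((min_le_left _ _).trans_lt (by linarith)) h⟩

end Pool.Agent.HPP
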