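import Pool.Agent.HPP.Iface
import Pool.Agent.HPP.AFin
import Pool.Agent.HPP.AMP
import Pool.Agent.HPP.ACount
import Pool.Agent.HPP.AErr
import Pool.Agent.HPP.EFin
import Pool.Agent.HPP.DLow
import Pool.Agent.HPP.DTop
import Pool.Agent.HPP.DSm
import Pool.Agent.HPP.VMain
import Pool.Agent.HPP.VBig2
import Pool.Agent.HPP.LPV
import Pool.Agent.HPP.LFin

/-! # HPP/Fin: the final statements, from all parts -/

namespace Pool.Agent.HPP

/-- assembly, in the fixed-set form -/
theorem assemblyM {f₀ : ℝ} (h₀ : 5 / 12 < f₀) (h₀' : f₀ ≤ 5 / 9)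
    (hB : ∀ f, 5 / 12 < f → f < f₀ → ∃ p₁, 1 ≤ p₁ ∧ p₁ < 4 / 3 ∧ BigAt f p₁) : FinalAtM f₀ :=
  finalAtM_of h₀ h₀' (mainProp_of sm) countProp
    (errProp_of h₀ h₀' energyProp supLow van supTop (smallProp pv_prop) hB)

/-- stage 1 -/
theorem fin12 : FinalAtM (1 / 2) := by
  refine assemblyM (by norm_num) (by norm_num) fun f h1 h2 => ?_
  refine ⟨(8 / 3 * f + 4 / 3) / 2, by linarith, by linarith, ?_⟩
  exact bigProp1 pv_prop f _ (by linarith) h2 (by linarith) (by linarith)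

/-- stage 2 -/
theorem fin59 : FinalAtM (5 / 9) := by
  refine assemblyM (by norm_num) (by norm_num) fun f h1 h2 => ?_
  have h3 : 12 / 5 * f < 4 / 3 := by linarith
  have h4 : (1 : ℝ) ≤ 12 / 5 * f := by linarith
  refine ⟨(12 / 5 * f + 4 / 3) / 2, by linarith, by linarith, ?_⟩
  exact bigProp2 pv_prop four_prop f _ (by linarith) (by linarith) (by linarith) (by linarith)

end Pool.Agent.HPP
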