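import Pool.Agent.Pal.Divisor
import Pool.Agent.HPP.LDefs

/-!
# HPP/LDiv: convolution squares of the three coefficient sequences, and the sums `∑ d(n)² (D + n)`

`ca N n = n^(-1/2)` for `1 ≤ n ≤ N`, `cr N n = n^(-5/2)` for `n > N`, `cs a v n = (log n)^a gw 1 v n`.
`D` is a real `≥ 1` (`D = Q T`); `N` is a natural with `N² ≤ D < (N + 1)²`.
Put `τ n = n.divisors.card ≤ C n^η` (`Pal.card_divisors_le_rpow`, `η = ε/8` or so); the convolution square is a sum
over `n.divisorsAntidiagonal` (cardinality `τ n`), `n ≥ 1`.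
* `conv_ca`: `(ca ⍟ ca) n = n^(-1/2) #{..} ≤ C n^(η - 1/2)` for `1 ≤ n ≤ N²`, `0` otherwise (`n = m m'`, `m, m' ≤ N`).
  `sum_ca`: `∑_{n ≤ N²} C² n^(2η - 1) (D + n) ≤ 2 C² D (N²)^(2η) ∑_{n ≤ N²} 1/n ≤ 2 C² D D^(2η) (1 + log D)`, `log D ≤ C D^η`.
* `conv_cr`: `(cr ⍟ cr) n ≤ τ n n^(-5/2)`, `0` unless `n ≥ (N + 1)² > D`. `sum_cr`: `∑_{n > D} n^(2η - 5) (D + n) ≤
  2 ∑_{n > D} n^(2η - 4) ≤ C D^(2η - 3)` (for `n > D`, `D + n ≤ 2 n`; `n^(2η-4) ≤ D^(2η - 2) n^(-2)` as `2η ≤ 2`,
  `∑_{n > D} n^(-2) ≤ 2/D`).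
* `conv_cs`: for `n = m m'`: `(log m - v)² + (log m' - v)² ≥ (log n - 2v)²/2`, `log m, log m' ≤ log n`: so
  `|(cs ⍟ cs) n| ≤ τ n (1 + log n)^2 exp (-(log n - 2v)²/2)` (`a ≤ 1`, `(log n)^(2a) ≤ (1 + log n)^2`).
  `sum_cs`: with `u = log n - 2v`, `1 + log n ≤ (1 + 2v)(1 + |u|)`, `n^(2η) = e^(4ηv) e^(2ηu)`: for `p = 0, 1`
  `(1 + |u|)^4 exp (-u² + (2η + p) u) ≤ C min (1, e^(-2u))`, so the sum is
  `≤ C (1 + v)^4 e^(4ηv) (D + e^(2v)) ∑_n min (1, (e^(2v)/n)²)`, and the last sum is `≤ 3 e^(2v)`. `e^(2v) ≤ D`.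
In all three lemmas the majorant `d` is given explicitly in the proof; only its existence is stated.
-/

namespace Pool.Agent.HPP

open Complex

/-- coefficients `n^(-1/2)`, `1 ≤ n ≤ N` -/
noncomputable def ca (N n : ℕ) : ℝ := if 1 ≤ n ∧ n ≤ N then (n : ℝ) ^ (-(1 / 2) : ℝ) else 0

/-- coefficients `n^(-5/2)`, `N < n` -/
noncomputable def cr (N n : ℕ) : ℝ := if N < n then (n : ℝ) ^ (-(5 / 2) : ℝ) else 0

/-- coefficients `(log n)^a exp (-(log n - v)²)` -/
noncomputable def cs (a : ℕ) (v : ℝ) (n : ℕ) : ℝ := Real.log n ^ a * gw 1 v n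

theorem conv_le {c : ℕ → ℝ} {n : ℕ} {B : ℝ} (hn : n ≠ 0)
    (hB : ∀ m m' : ℕ, m * m' = n → 1 ≤ m → 1 ≤ m' → |c m| * |c m'| ≤ B) :
    ‖LSeries.convolution (fun n => (c n : ℂ)) (fun n => (c n : ℂ)) n‖ ≤ n.divisors.card * B := by
  rw [LSeries.convolution_def]
  refine (norm_sum_le _ _).trans ?_
  have h1 : ∀ p ∈ n.divisorsAntidiagonal, ‖(c p.1 : ℂ) * (c p.2 : ℂ)‖ ≤ B := by
    intro p hp
    obtain ⟨h2, h3⟩ := Nat.mem_divisorsAntidiagonal.1 hp
    rw [norm_mul, Complex.norm_real, Complex.norm_real, Real.norm_eq_abs, Real.norm_eq_abs]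
    apply hB p.1 p.2 h2
    · refine Nat.one_le_iff_ne_zero.2 fun h => hn ?_
      rw [← h2, h, zero_mul]
    · refine Nat.one_le_iff_ne_zero.2 fun h => hn ?_
      rw [← h2, h, mul_zero]
  refine (Finset.sum_le_card_nsmul _ _ _ h1).trans ?_
  rw [nsmul_eq_mul, ← Nat.map_div_right_divisors, Finset.card_map]

theorem conv_zero (c : ℕ → ℝ) :
    ‖LSeries.convolution (fun n => (c n : ℂ)) (fun n => (c n : ℂ)) 0‖ = 0 := by
  rw [LSeries.convolution_map_zero, norm_zero]

/-- the choice of the exponent -/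
theorem exists_eta {ε : ℝ} (hε : 0 < ε) : ∃ η : ℝ, 0 < η ∧ 3 * η ≤ ε ∧ η ≤ 1 := by
  refine ⟨min (ε / 3) 1, ?_, ?_, min_le_right _ _⟩
  · exact lt_min (by linarith) one_pos
  · have := min_le_left (ε / 3) 1
    linarith

theorem summable_S {η : ℝ} (hη : 0 < η) : Summable fun n : ℕ => (n : ℝ) ^ (-1 - η) :=
  Real.summable_nat_rpow.2 (by linarith)

theorem ca_summable (N : ℕ) : Summable fun n => ‖((ca N n : ℝ) : ℂ)‖ := by
  refine summable_of_ne_finset_zero (s := Finset.range (N + 1)) fun n hn => ?_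
  have h : ¬ (1 ≤ n ∧ n ≤ N) := by
    intro h
    exact hn (Finset.mem_range.2 (by omega))
  simp [ca, h]

theorem cr_summable (N : ℕ) : Summable fun n => ‖((cr N n : ℝ) : ℂ)‖ := by
  refine Summable.of_nonneg_of_le (fun n => norm_nonneg _) (fun n => ?_)
    (Real.summable_nat_rpow.2 (by norm_num : (-(5 / 2) : ℝ) < -1))
  rw [Complex.norm_real, Real.norm_eq_abs]
  unfold cr
  split_ifs
  · rw [abs_of_nonneg (by positivity)]
  · rw [abs_zero]
    positivity

theorem cs_bound (a : ℕ) (v : ℝ) (n : ℕ) :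
    ‖((cs a v n : ℝ) : ℂ)‖ ≤ (a.factorial * Real.exp (3 * v + 9 / 4)) * (n : ℝ) ^ (-2 : ℝ) := by
  rw [Complex.norm_real, Real.norm_eq_abs]
  unfold cs gw
  split_ifs with hn
  · rw [mul_zero, abs_zero]
    positivity
  · have hn1 : 1 ≤ n := Nat.one_le_iff_ne_zero.2 hn
    have hn0 : (0 : ℝ) < n := by exact_mod_cast hn1
    have hL : 0 ≤ Real.log n := Real.log_natCast_nonneg n
    rw [abs_of_nonneg (by positivity)]
    have h1 : Real.log n ^ a ≤ a.factorial * Real.exp (Real.log n) := by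
      have := Real.pow_div_factorial_le_exp (Real.log n) hL a
      rw [div_le_iff₀ (by positivity)] at this
      linarith
    have h2 : (n : ℝ) ^ (-2 : ℝ) = Real.exp (-2 * Real.log n) := by
      rw [Real.rpow_def_of_pos hn0]
      ring_nf
    rw [h2]
    refine (mul_le_mul_of_nonneg_right h1 (by positivity)).trans ?_
    rw [mul_assoc, mul_assoc, ← Real.exp_add, ← Real.exp_add]
    refine mul_le_mul_of_nonneg_left ?_ (by positivity)
    refine Real.exp_le_exp.2 ?_
    nlinarith [sq_nonneg (Real.log n - v - 3 / 2)]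

theorem cs_summable (a : ℕ) (v : ℝ) : Summable fun n => ‖((cs a v n : ℝ) : ℂ)‖ :=
  Summable.of_nonneg_of_le (fun n => norm_nonneg _) (fun n => cs_bound a v n)
    ((Real.summable_nat_rpow.2 (by norm_num : (-2 : ℝ) < -1)).mul_left _)

/-- comparison with the convergent series -/
theorem sum_cmp {η : ℝ} (hη : 0 < η) {D K R : ℝ} (hK : 0 ≤ K) {d : ℕ → ℝ}
    (h : ∀ n : ℕ, 1 ≤ n → d n ^ 2 * (D + n) ≤ K * (n : ℝ) ^ (-1 - η)) (h0 : d 0 = 0)
    (hD : 0 ≤ D) (hR : K * ∑' n : ℕ, (n : ℝ) ^ (-1 - η) ≤ R) :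
    (Summable fun n : ℕ => d n ^ 2 * (D + n)) ∧ ∑' n : ℕ, d n ^ 2 * (D + n) ≤ R := by
  have h1 : ∀ n : ℕ, d n ^ 2 * (D + n) ≤ K * (n : ℝ) ^ (-1 - η) := by
    intro n
    rcases Nat.eq_zero_or_pos n with rfl | hn
    · rw [h0]
      simp only [ne_eq, OfNat.ofNat_ne_zero, not_false_eq_true, zero_pow, zero_mul]
      positivity
    · exact h n hn
  have h2 : Summable fun n : ℕ => K * (n : ℝ) ^ (-1 - η) := (summable_S hη).mul_left K
  have h3 : Summable fun n : ℕ => d n ^ 2 * (D + n) :=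
    Summable.of_nonneg_of_le (fun n => by positivity) h1 h2
  refine ⟨h3, (h3.tsum_le_tsum h1 h2).trans ?_⟩
  rw [tsum_mul_left]
  exact hR

theorem sum_ca {ε : ℝ} (hε : 0 < ε) : ∃ C : ℝ, 1 ≤ C ∧ ∀ (D : ℝ) (N : ℕ), 1 ≤ D → (N : ℝ) ^ 2 ≤ D →
    ∃ d : ℕ → ℝ, (∀ n, ‖LSeries.convolution (fun n => (ca N n : ℂ)) (fun n => (ca N n : ℂ)) n‖ ≤ d n) ∧
      (Summable fun n : ℕ => d n ^ 2 * (D + n)) ∧
      ∑' n : ℕ, d n ^ 2 * (D + n) ≤ C * D ^ (1 + ε) := by
  obtain ⟨η, hη, hη3, hη1⟩ := exists_eta hε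
  obtain ⟨A, hA, hdiv⟩ := Pal.card_divisors_le_rpow hη
  set S : ℝ := ∑' n : ℕ, (n : ℝ) ^ (-1 - η) with hS
  have hS0 : 0 ≤ S := tsum_nonneg fun n => by positivity
  refine ⟨2 * A ^ 2 * S + 1, by have : 0 ≤ 2 * A ^ 2 * S := by positivity
                                linarith, ?_⟩
  intro D N hD hN
  have hD0 : (0 : ℝ) < D := by linarith
  refine ⟨fun n => if 1 ≤ n ∧ n ≤ N ^ 2 then A * (n : ℝ) ^ (η - 1 / 2) else 0, ?_, ?_⟩
  · intro n
    rcases Nat.eq_zero_or_pos n with rfl | hn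
    · rw [conv_zero]
      simp
    · have hn0 : (0 : ℝ) < n := by exact_mod_cast hn
      beta_reduce
      by_cases hnN : n ≤ N ^ 2
      · rw [if_pos ⟨hn, hnN⟩]
        refine (conv_le hn.ne' (B := (n : ℝ) ^ (-(1 / 2) : ℝ)) ?_).trans ?_
        · intro m m' hmm hm hm'
          have hmm' : (n : ℝ) = m * m' := by rw [← hmm]; push_cast; ring
          rw [hmm', Real.mul_rpow (by positivity) (by positivity)]
          refine mul_le_mul ?_ ?_ (abs_nonneg _) (by positivity)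
          · unfold ca
            split_ifs
            · rw [abs_of_nonneg (by positivity)]
            · rw [abs_zero]; positivity
          · unfold ca
            split_ifs
            · rw [abs_of_nonneg (by positivity)]
            · rw [abs_zero]; positivity
        · refine (mul_le_mul_of_nonneg_right (hdiv n hn) (by positivity)).trans ?_
          rw [mul_assoc, ← Real.rpow_add hn0]
          exact le_of_eq (by ring_nf)
      · rw [if_neg (fun h => hnN h.2)]
        refine (conv_le hn.ne' (B := 0) ?_).trans (by simp)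
        intro m m' hmm hm hm'
        have : ¬ (m ≤ N ∧ m' ≤ N) := by
          rintro ⟨h1, h2⟩
          apply hnN
          rw [← hmm, sq]
          exact Nat.mul_le_mul h1 h2
        rcases not_and_or.1 this with h | h
        · have : ca N m = 0 := by
            unfold ca
            exact if_neg fun h' => h h'.2
          rw [this, abs_zero, zero_mul]
        · have : ca N m' = 0 := by
            unfold ca
            exact if_neg fun h' => h h'.2
          rw [this, abs_zero, mul_zero]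
  · refine sum_cmp hη (K := 2 * A ^ 2 * D ^ (1 + 3 * η)) (by positivity) ?_ (by simp) hD0.le ?_
    · intro n hn
      have hn0 : (0 : ℝ) < n := by exact_mod_cast hn
      by_cases hnN : n ≤ N ^ 2
      · rw [if_pos ⟨hn, hnN⟩]
        have hnD : (n : ℝ) ≤ D := by
          refine le_trans ?_ hN
          exact_mod_cast hnN
        have e1 : (A * (n : ℝ) ^ (η - 1 / 2)) ^ 2 = A ^ 2 * ((n : ℝ) ^ (-1 - η) * (n : ℝ) ^ (3 * η)) := by
          rw [mul_pow, ← Real.rpow_natCast ((n : ℝ) ^ (η - 1 / 2)) 2, ← Real.rpow_mul hn0.le,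
            ← Real.rpow_add hn0]
          congr 2
          push_cast
          ring
        have e2 : D ^ (1 + 3 * η) = D * D ^ (3 * η) := by
          rw [Real.rpow_add hD0, Real.rpow_one]
        rw [e1, e2]
        have h3 : (n : ℝ) ^ (3 * η) ≤ D ^ (3 * η) :=
          Real.rpow_le_rpow hn0.le hnD (by positivity)
        have h4 : D + n ≤ 2 * D := by linarith
        calc A ^ 2 * ((n : ℝ) ^ (-1 - η) * (n : ℝ) ^ (3 * η)) * (D + n)
            ≤ A ^ 2 * ((n : ℝ) ^ (-1 - η) * D ^ (3 * η)) * (2 * D) := by gcongr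
          _ = _ := by ring
      · rw [if_neg (fun h => hnN h.2)]
        simp only [ne_eq, OfNat.ofNat_ne_zero, not_false_eq_true, zero_pow, zero_mul]
        positivity
    · rw [← hS]
      have h5 : D ^ (1 + 3 * η) ≤ D ^ (1 + ε) :=
        Real.rpow_le_rpow_of_exponent_le hD (by linarith)
      have h6 : 0 ≤ D ^ (1 + ε) := by positivity
      calc 2 * A ^ 2 * D ^ (1 + 3 * η) * S ≤ 2 * A ^ 2 * D ^ (1 + ε) * S := by gcongr
        _ ≤ (2 * A ^ 2 * S + 1) * D ^ (1 + ε) := by nlinarith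

theorem sum_cr {ε : ℝ} (hε : 0 < ε) : ∃ C : ℝ, 1 ≤ C ∧ ∀ (D : ℝ) (N : ℕ), 1 ≤ D →
    D < ((N : ℝ) + 1) ^ 2 →
    ∃ d : ℕ → ℝ, (∀ n, ‖LSeries.convolution (fun n => (cr N n : ℂ)) (fun n => (cr N n : ℂ)) n‖ ≤ d n) ∧
      (Summable fun n : ℕ => d n ^ 2 * (D + n)) ∧
      ∑' n : ℕ, d n ^ 2 * (D + n) ≤ C * D ^ (-3 + ε) := by
  obtain ⟨η, hη, hη3, hη1⟩ := exists_eta hε
  obtain ⟨A, hA, hdiv⟩ := Pal.card_divisors_le_rpow hη
  set S : ℝ := ∑' n : ℕ, (n : ℝ) ^ (-1 - η) with hS
  have hS0 : 0 ≤ S := tsum_nonneg fun n => by positivity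
  refine ⟨2 * A ^ 2 * S + 1, by have : 0 ≤ 2 * A ^ 2 * S := by positivity
                                linarith, ?_⟩
  intro D N hD hN
  have hD0 : (0 : ℝ) < D := by linarith
  refine ⟨fun n => if (N + 1) ^ 2 ≤ n then A * (n : ℝ) ^ (η - 5 / 2) else 0, ?_, ?_⟩
  · intro n
    rcases Nat.eq_zero_or_pos n with rfl | hn
    · rw [conv_zero]
      simp
    · have hn0 : (0 : ℝ) < n := by exact_mod_cast hn
      beta_reduce
      by_cases hnN : (N + 1) ^ 2 ≤ n
      · rw [if_pos hnN]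
        refine (conv_le hn.ne' (B := (n : ℝ) ^ (-(5 / 2) : ℝ)) ?_).trans ?_
        · intro m m' hmm hm hm'
          have hmm' : (n : ℝ) = m * m' := by rw [← hmm]; push_cast; ring
          rw [hmm', Real.mul_rpow (by positivity) (by positivity)]
          refine mul_le_mul ?_ ?_ (abs_nonneg _) (by positivity)
          · unfold cr
            split_ifs
            · rw [abs_of_nonneg (by positivity)]
            · rw [abs_zero]; positivity
          · unfold cr
            split_ifs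
            · rw [abs_of_nonneg (by positivity)]
            · rw [abs_zero]; positivity
        · refine (mul_le_mul_of_nonneg_right (hdiv n hn) (by positivity)).trans ?_
          rw [mul_assoc, ← Real.rpow_add hn0]
          exact le_of_eq (by ring_nf)
      · rw [if_neg hnN]
        refine (conv_le hn.ne' (B := 0) ?_).trans (by simp)
        intro m m' hmm hm hm'
        have : ¬ (N < m ∧ N < m') := by
          rintro ⟨h1, h2⟩
          apply hnN
          rw [← hmm, sq]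
          exact Nat.mul_le_mul h1 h2
        rcases not_and_or.1 this with h | h
        · have : cr N m = 0 := by
            unfold cr
            exact if_neg h
          rw [this, abs_zero, zero_mul]
        · have : cr N m' = 0 := by
            unfold cr
            exact if_neg h
          rw [this, abs_zero, mul_zero]
  · refine sum_cmp hη (K := 2 * A ^ 2 * D ^ (-3 + 3 * η)) (by positivity) ?_ (by simp) hD0.le ?_
    · intro n hn
      have hn0 : (0 : ℝ) < n := by exact_mod_cast hn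
      by_cases hnN : (N + 1) ^ 2 ≤ n
      · rw [if_pos hnN]
        have hnD : D ≤ n := by
          refine hN.le.trans ?_
          exact_mod_cast hnN
        have e1 : (A * (n : ℝ) ^ (η - 5 / 2)) ^ 2 * (2 * n) =
            2 * A ^ 2 * ((n : ℝ) ^ (-3 + 3 * η) * (n : ℝ) ^ (-1 - η)) := by
          rw [mul_pow, ← Real.rpow_natCast ((n : ℝ) ^ (η - 5 / 2)) 2, ← Real.rpow_mul hn0.le,
            ← Real.rpow_add hn0]
          have : (n : ℝ) ^ (-3 + 3 * η + (-1 - η)) = (n : ℝ) ^ ((η - 5 / 2) * (2 : ℕ)) * n := by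
            nth_rewrite 3 [← Real.rpow_one (n : ℝ)]
            rw [← Real.rpow_add hn0]
            congr 1
            push_cast
            ring
          rw [this]
          ring
        have h3 : (n : ℝ) ^ (-3 + 3 * η) ≤ D ^ (-3 + 3 * η) :=
          Real.rpow_le_rpow_of_nonpos hD0 hnD (by linarith)
        calc (A * (n : ℝ) ^ (η - 5 / 2)) ^ 2 * (D + n)
            ≤ (A * (n : ℝ) ^ (η - 5 / 2)) ^ 2 * (2 * n) := by
              refine mul_le_mul_of_nonneg_left (by linarith) (by positivity)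
          _ = 2 * A ^ 2 * ((n : ℝ) ^ (-3 + 3 * η) * (n : ℝ) ^ (-1 - η)) := e1
          _ ≤ 2 * A ^ 2 * (D ^ (-3 + 3 * η) * (n : ℝ) ^ (-1 - η)) := by gcongr
          _ = _ := by ring
      · rw [if_neg hnN]
        simp only [ne_eq, OfNat.ofNat_ne_zero, not_false_eq_true, zero_pow, zero_mul]
        positivity
    · rw [← hS]
      have h5 : D ^ (-3 + 3 * η) ≤ D ^ (-3 + ε) :=
        Real.rpow_le_rpow_of_exponent_le hD (by linarith)
      have h6 : 0 ≤ D ^ (-3 + ε) := by positivity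
      calc 2 * A ^ 2 * D ^ (-3 + 3 * η) * S ≤ 2 * A ^ 2 * D ^ (-3 + ε) * S := by gcongr
        _ ≤ (2 * A ^ 2 * S + 1) * D ^ (-3 + ε) := by nlinarith

theorem cs_abs_le {a : ℕ} (ha : a ≤ 1) {v : ℝ} {m : ℕ} (hm : 1 ≤ m) {L : ℝ}
    (hL : Real.log m ≤ L) : |cs a v m| ≤ (1 + L) * Real.exp (-(Real.log m - v) ^ 2) := by
  have hm0 : m ≠ 0 := by omega
  have h0 : 0 ≤ Real.log m := Real.log_natCast_nonneg m
  unfold cs gw
  rw [if_neg hm0, div_one, abs_of_nonneg (by positivity)]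
  refine mul_le_mul_of_nonneg_right ?_ (by positivity)
  interval_cases a
  · rw [pow_zero]; linarith
  · rw [pow_one]; linarith

theorem bracket (u : ℝ) {η : ℝ} (hη : 0 ≤ η) (hη1 : η ≤ 1) :
    (1 + |u|) ^ 4 * Real.exp ((1 + 3 * η) * u - u ^ 2) * (1 + Real.exp u) ≤
      2 * Real.exp (81 / 4) := by
  have hu := abs_nonneg u
  have h1 : (1 + |u|) ^ 4 ≤ Real.exp (4 * |u|) := by
    have : 1 + |u| ≤ Real.exp |u| := by
      have := Real.add_one_le_exp |u|
      linarith
    calc (1 + |u|) ^ 4 ≤ (Real.exp |u|) ^ 4 := by gcongr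
      _ = Real.exp (4 * |u|) := by rw [← Real.exp_nat_mul]; norm_num
  have h2 : Real.exp ((1 + 3 * η) * u - u ^ 2) ≤ Real.exp (4 * |u| - u ^ 2) := by
    refine Real.exp_le_exp.2 ?_
    have h3 : (1 + 3 * η) * u ≤ (1 + 3 * η) * |u| :=
      mul_le_mul_of_nonneg_left (le_abs_self u) (by linarith)
    nlinarith
  have h3 : 1 + Real.exp u ≤ 2 * Real.exp |u| := by
    have h4 : Real.exp u ≤ Real.exp |u| := Real.exp_le_exp.2 (le_abs_self u)
    have h5 : 1 ≤ Real.exp |u| := Real.one_le_exp hu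
    linarith
  calc (1 + |u|) ^ 4 * Real.exp ((1 + 3 * η) * u - u ^ 2) * (1 + Real.exp u)
      ≤ Real.exp (4 * |u|) * Real.exp (4 * |u| - u ^ 2) * (2 * Real.exp |u|) := by gcongr
    _ = 2 * Real.exp (4 * |u| + (4 * |u| - u ^ 2) + |u|) := by
      rw [Real.exp_add, Real.exp_add]; ring
    _ ≤ 2 * Real.exp (81 / 4) := by
      refine mul_le_mul_of_nonneg_left (Real.exp_le_exp.2 ?_) (by norm_num)
      have : u ^ 2 = |u| ^ 2 := (sq_abs u).symm
      nlinarith [sq_nonneg (|u| - 9 / 2)]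

theorem sum_cs {ε : ℝ} (hε : 0 < ε) : ∃ C : ℝ, 1 ≤ C ∧ ∀ (D v : ℝ) (a : ℕ), a ≤ 1 → 0 ≤ v →
    Real.exp (2 * v) ≤ D →
    ∃ d : ℕ → ℝ, (∀ n, ‖LSeries.convolution (fun n => (cs a v n : ℂ)) (fun n => (cs a v n : ℂ)) n‖ ≤
        d n) ∧ (Summable fun n : ℕ => d n ^ 2 * (D + n)) ∧
      ∑' n : ℕ, d n ^ 2 * (D + n) ≤ C * (1 + v) ^ 4 * D ^ (1 + ε) * Real.exp (2 * v) := by
  obtain ⟨η, hη, hη3, hη1⟩ := exists_eta hε
  obtain ⟨A, hA, hdiv⟩ := Pal.card_divisors_le_rpow hη
  set S : ℝ := ∑' n : ℕ, (n : ℝ) ^ (-1 - η) with hS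
  have hS0 : 0 ≤ S := tsum_nonneg fun n => by positivity
  set K0 : ℝ := 2 * Real.exp (81 / 4) with hK0
  have hK0' : 0 ≤ K0 := by positivity
  refine ⟨16 * A ^ 2 * K0 * S + 1, by have : 0 ≤ 16 * A ^ 2 * K0 * S := by positivity
                                      linarith, ?_⟩
  intro D v a ha hv hvD
  have hD0 : (0 : ℝ) < D := (Real.exp_pos _).trans_le hvD
  have hD1 : 1 ≤ D := (Real.one_le_exp (by linarith)).trans hvD
  refine ⟨fun n => if n = 0 then 0 else A * (n : ℝ) ^ η * ((1 + Real.log n) ^ 2 *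
    Real.exp (-(Real.log n - 2 * v) ^ 2 / 2)), ?_, ?_⟩
  · intro n
    rcases Nat.eq_zero_or_pos n with rfl | hn
    · rw [conv_zero]
      simp
    · have hn0 : (0 : ℝ) < n := by exact_mod_cast hn
      dsimp only
      rw [if_neg hn.ne']
      refine (conv_le hn.ne' (B := (1 + Real.log n) ^ 2 *
        Real.exp (-(Real.log n - 2 * v) ^ 2 / 2)) ?_).trans ?_
      · intro m m' hmm hm hm'
        have hm0 : (0 : ℝ) < m := by exact_mod_cast hm
        have hm0' : (0 : ℝ) < m' := by exact_mod_cast hm'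
        have hmm' : (n : ℝ) = m * m' := by rw [← hmm]; push_cast; ring
        have hlog : Real.log n = Real.log m + Real.log m' := by
          rw [hmm', Real.log_mul hm0.ne' hm0'.ne']
        have hl := Real.log_natCast_nonneg m
        have hl' := Real.log_natCast_nonneg m'
        have h1 := cs_abs_le ha (v := v) hm (L := Real.log n) (by linarith)
        have h2 := cs_abs_le ha (v := v) hm' (L := Real.log n) (by linarith)
        have h3 : 0 ≤ 1 + Real.log n := by linarith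
        calc |cs a v m| * |cs a v m'| ≤ ((1 + Real.log n) * Real.exp (-(Real.log m - v) ^ 2)) *
            ((1 + Real.log n) * Real.exp (-(Real.log m' - v) ^ 2)) :=
              mul_le_mul h1 h2 (abs_nonneg _) (by positivity)
          _ = (1 + Real.log n) ^ 2 *
              Real.exp (-(Real.log m - v) ^ 2 + -(Real.log m' - v) ^ 2) := by
            rw [Real.exp_add]; ring
          _ ≤ _ := by
            refine mul_le_mul_of_nonneg_left (Real.exp_le_exp.2 ?_) (by positivity)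
            rw [hlog]
            nlinarith [sq_nonneg ((Real.log m - v) - (Real.log m' - v))]
      · exact mul_le_mul_of_nonneg_right (hdiv n hn) (by positivity)
  · refine sum_cmp hη (K := 16 * A ^ 2 * K0 * (1 + v) ^ 4 * D ^ (1 + 3 * η) * Real.exp (2 * v))
      (by positivity) ?_ (by simp) hD0.le ?_
    · intro n hn
      have hn0 : (0 : ℝ) < n := by exact_mod_cast hn
      rw [if_neg (by omega)]
      set L := Real.log n with hL
      have hL0 : 0 ≤ L := Real.log_natCast_nonneg n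
      have hnL : (n : ℝ) = Real.exp L := (Real.exp_log hn0).symm
      obtain ⟨u, hu⟩ : ∃ u : ℝ, u = L - 2 * v := ⟨_, rfl⟩
      have hLu : L = 2 * v + u := by rw [hu]; ring
      -- the four factors
      have f1 : (1 + L) ^ 4 ≤ 16 * (1 + v) ^ 4 * (1 + |u|) ^ 4 := by
        have h1 : 1 + L ≤ 2 * (1 + v) * (1 + |u|) := by
          have h2 := le_abs_self u
          have h3 := abs_nonneg u
          rw [hLu]
          nlinarith [mul_nonneg hv h3]
        calc (1 + L) ^ 4 ≤ (2 * (1 + v) * (1 + |u|)) ^ 4 := by gcongr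
          _ = _ := by ring
      have f2 : D + n ≤ D * (1 + Real.exp u) := by
        have : (n : ℝ) = Real.exp (2 * v) * Real.exp u := by
          rw [hnL, hLu, Real.exp_add]
        rw [this]
        nlinarith [mul_le_mul_of_nonneg_right hvD (Real.exp_pos u).le]
      have f3 : Real.exp (6 * η * v) ≤ D ^ (3 * η) := by
        have : Real.exp (6 * η * v) = (Real.exp (2 * v)) ^ (3 * η) := by
          rw [← Real.exp_mul]
          ring_nf
        rw [this]
        exact Real.rpow_le_rpow (Real.exp_pos _).le hvD (by positivity)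
      have e1 : (A * (n : ℝ) ^ η * ((1 + L) ^ 2 * Real.exp (-(L - 2 * v) ^ 2 / 2))) ^ 2 =
          A ^ 2 * (1 + L) ^ 4 * (Real.exp (2 * v) * Real.exp (6 * η * v) *
            Real.exp ((1 + 3 * η) * u - u ^ 2)) * (n : ℝ) ^ (-1 - η) := by
        have a1 : (n : ℝ) ^ η = Real.exp (L * η) := by rw [Real.rpow_def_of_pos hn0]
        have a2 : (n : ℝ) ^ (-1 - η) = Real.exp (L * (-1 - η)) := by
          rw [Real.rpow_def_of_pos hn0]
        rw [a1, a2]
        have a3 : (A * Real.exp (L * η) * ((1 + L) ^ 2 * Real.exp (-(L - 2 * v) ^ 2 / 2))) ^ 2 =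
            A ^ 2 * (1 + L) ^ 4 * (Real.exp (L * η) * Real.exp (L * η) *
              Real.exp (-(L - 2 * v) ^ 2 / 2) * Real.exp (-(L - 2 * v) ^ 2 / 2)) := by ring
        rw [a3, mul_assoc (A ^ 2 * (1 + L) ^ 4)]
        congr 1
        rw [← Real.exp_add, ← Real.exp_add, ← Real.exp_add, ← Real.exp_add, ← Real.exp_add,
          ← Real.exp_add]
        congr 1
        rw [hLu]
        ring
      rw [e1]
      have fb := bracket u hη.le hη1
      have e2 : D ^ (1 + 3 * η) = D * D ^ (3 * η) := by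
        rw [Real.rpow_add hD0, Real.rpow_one]
      rw [e2]
      calc A ^ 2 * (1 + L) ^ 4 * (Real.exp (2 * v) * Real.exp (6 * η * v) *
            Real.exp ((1 + 3 * η) * u - u ^ 2)) * (n : ℝ) ^ (-1 - η) * (D + n)
          ≤ A ^ 2 * (16 * (1 + v) ^ 4 * (1 + |u|) ^ 4) * (Real.exp (2 * v) * D ^ (3 * η) *
            Real.exp ((1 + 3 * η) * u - u ^ 2)) * (n : ℝ) ^ (-1 - η) *
              (D * (1 + Real.exp u)) := by gcongr
        _ = 16 * A ^ 2 * (1 + v) ^ 4 * (D * D ^ (3 * η)) * Real.exp (2 * v) *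
            (n : ℝ) ^ (-1 - η) *
            ((1 + |u|) ^ 4 * Real.exp ((1 + 3 * η) * u - u ^ 2) * (1 + Real.exp u)) := by ring
        _ ≤ 16 * A ^ 2 * (1 + v) ^ 4 * (D * D ^ (3 * η)) * Real.exp (2 * v) *
            (n : ℝ) ^ (-1 - η) * K0 := by gcongr
        _ = _ := by ring
    · rw [← hS]
      have h5 : D ^ (1 + 3 * η) ≤ D ^ (1 + ε) :=
        Real.rpow_le_rpow_of_exponent_le hD1 (by linarith)
      have h6 : 0 ≤ (1 + v) ^ 4 * D ^ (1 + ε) * Real.exp (2 * v) := by positivity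
      calc 16 * A ^ 2 * K0 * (1 + v) ^ 4 * D ^ (1 + 3 * η) * Real.exp (2 * v) * S
          ≤ 16 * A ^ 2 * K0 * (1 + v) ^ 4 * D ^ (1 + ε) * Real.exp (2 * v) * S := by gcongr
        _ = (16 * A ^ 2 * K0 * S) * ((1 + v) ^ 4 * D ^ (1 + ε) * Real.exp (2 * v)) := by ring
        _ ≤ (16 * A ^ 2 * K0 * S + 1) * ((1 + v) ^ 4 * D ^ (1 + ε) * Real.exp (2 * v)) := by
          nlinarith
        _ = _ := by ring

end Pool.Agent.HPP
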