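import Pool.Agent.HPP.VMean

/-!
# HPP/LMvi: mean values for infinite sums, and fourth moments

`SS c χ t = ∑' n, c n χ(n) n^(it)`, always with `c 0 = 0` and `∑ ‖c n‖ < ∞`.
* `SS_cont`, `SS_norm_le`: `‖c n χ(n) n^(it)‖ ≤ ‖c n‖` (`‖n^(it)‖ = 1` for `n ≥ 1`, `c 0 = 0`), `continuous_tsum`,
  each term is continuous in `t` (`n ≥ 1`; the term `n = 0` is `0`).
* `mv_inf`: `mv` of `VMean` for `s = Finset.Icc 1 N`, `N → ∞`: the finite sums converge to `SS c χ t`
  uniformly in `t` (error `≤ ∑_{n > N} ‖c n‖`), so the integrals converge (dominated convergence,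
  `intervalIntegral.tendsto_integral_filter_of_dominated_convergence`), and the right side is at most
  `C ∑'` (`sum_le_tsum`); `le_of_tendsto'`.
* `SS_sq`: `SS c χ t = LSeries (fun n => c n * χ n) (-(t I))` (`LSeries.term` at `n = 0` is `0 = c 0 ..`; for `n ≥ 1`
  `x / n^(-s) = x n^s`, `cpow_neg`), `LSeries_convolution'`, and `(cχ) ⍟ (cχ) = (c ⍟ c) χ` (`LSeries.convolution_def`,
  `χ(m n) = χ(m) χ(n)`).
* `conv_summable`: `LSeriesSummable.convolution` at `s = 0`, or `∑_n |∑_{ab = n}| ≤ (∑ ‖c‖)²`.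
* `m4`: `‖SS c χ t‖^4 = ‖SS (c ⍟ c) χ t‖²`, `mv_inf` for `c ⍟ c`, comparison of the two sums (`tsum_le_tsum`).
* `SS_conj`: `χ⁻¹(n) = conj χ(n)` (`MulChar.star_apply` or as in `ZX/Conj`: `LSeries_term_conj`),
  `conj (n^(it)) = n^(-it)`; `Complex.conj_tsum`.
-/

namespace Pool.Agent.HPP

open Complex MeasureTheory

theorem SS_term_le {Q : ℕ} (χ : DirichletCharacter ℂ Q) {c : ℕ → ℂ} (h0 : c 0 = 0) (t : ℝ)
    (n : ℕ) : ‖c n * χ (n : ZMod Q) * (n : ℂ) ^ (t * I)‖ ≤ ‖c n‖ := by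
  rcases Nat.eq_zero_or_pos n with rfl | hn
  · simp [h0]
  · have h1 : ‖(n : ℂ) ^ ((t : ℂ) * I)‖ = 1 := by
      rw [Complex.norm_natCast_cpow_of_pos hn]
      simp
    rw [norm_mul, norm_mul, h1, mul_one]
    exact mul_le_of_le_one_right (norm_nonneg _) (DirichletCharacter.norm_le_one χ _)

theorem SS_summable {Q : ℕ} (χ : DirichletCharacter ℂ Q) {c : ℕ → ℂ} (h0 : c 0 = 0)
    (hc : Summable fun n => ‖c n‖) (t : ℝ) :
    Summable fun n : ℕ => c n * χ (n : ZMod Q) * (n : ℂ) ^ (t * I) :=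
  Summable.of_norm_bounded hc fun n => SS_term_le χ h0 t n

theorem SS_norm_le {Q : ℕ} (χ : DirichletCharacter ℂ Q) {c : ℕ → ℂ} (h0 : c 0 = 0)
    (hc : Summable fun n => ‖c n‖) (t : ℝ) : ‖SS c χ t‖ ≤ ∑' n, ‖c n‖ :=
  tsum_of_norm_bounded hc.hasSum fun n => SS_term_le χ h0 t n

theorem SS_term_cont {Q : ℕ} (χ : DirichletCharacter ℂ Q) {c : ℕ → ℂ} (h0 : c 0 = 0) (n : ℕ) :
    Continuous fun t : ℝ => c n * χ (n : ZMod Q) * (n : ℂ) ^ ((t : ℂ) * I) := by
  rcases Nat.eq_zero_or_pos n with rfl | hn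
  · simp only [h0, zero_mul]
    exact continuous_const
  · refine continuous_const.mul ?_
    refine Continuous.const_cpow (by fun_prop) (Or.inl ?_)
    exact_mod_cast hn.ne'

theorem SS_cont {Q : ℕ} (χ : DirichletCharacter ℂ Q) {c : ℕ → ℂ} (h0 : c 0 = 0)
    (hc : Summable fun n => ‖c n‖) : Continuous fun t : ℝ => SS c χ t := by
  unfold SS
  exact continuous_tsum (fun n => SS_term_cont χ h0 n) hc fun n t => SS_term_le χ h0 t n

theorem mv_inf : ∃ C : ℝ, 1 ≤ C ∧ ∀ (Q : ℕ), 1 ≤ Q → ∀ (c : ℕ → ℂ), c 0 = 0 →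
    (Summable fun n => ‖c n‖) → ∀ (t₀ T : ℝ), 1 ≤ T →
    (Summable fun n : ℕ => ‖c n‖ ^ 2 * (Q * T + n)) →
    ∑ χ : DirichletCharacter ℂ Q, ∫ t in (t₀ - T)..(t₀ + T), ‖SS c χ t‖ ^ 2 ≤
      C * ∑' n : ℕ, ‖c n‖ ^ 2 * (Q * T + n) := by
  obtain ⟨C, hC, h⟩ := mv
  refine ⟨C, hC, ?_⟩
  intro Q hQ c h0 hc t₀ T hT hs
  have hlim : Filter.Tendsto (fun N : ℕ => ∑ χ : DirichletCharacter ℂ Q,
      ∫ t in (t₀ - T)..(t₀ + T),
        ‖∑ n ∈ (Finset.range N).erase 0, c n * χ (n : ZMod Q) * (n : ℂ) ^ ((t : ℂ) * I)‖ ^ 2)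
      Filter.atTop
      (nhds (∑ χ : DirichletCharacter ℂ Q, ∫ t in (t₀ - T)..(t₀ + T), ‖SS c χ t‖ ^ 2)) := by
    refine tendsto_finsetSum _ fun χ _ => ?_
    have hsum : ∀ (N : ℕ) (t : ℝ),
        ∑ n ∈ (Finset.range N).erase 0, c n * χ (n : ZMod Q) * (n : ℂ) ^ ((t : ℂ) * I) =
        ∑ n ∈ Finset.range N, c n * χ (n : ZMod Q) * (n : ℂ) ^ ((t : ℂ) * I) := by
      intro N t
      exact Finset.sum_erase _ (by simp [h0])
    refine intervalIntegral.tendsto_integral_filter_of_dominated_convergence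
      (fun _ => (∑' n, ‖c n‖) ^ 2) ?_ ?_ ?_ ?_
    · refine Filter.Eventually.of_forall fun N => ?_
      have hcont : Continuous fun t : ℝ =>
          ‖∑ n ∈ (Finset.range N).erase 0, c n * χ (n : ZMod Q) * (n : ℂ) ^ ((t : ℂ) * I)‖ ^ 2 :=
        (continuous_finsetSum _ fun n _ => SS_term_cont χ h0 n).norm.pow 2
      exact hcont.aestronglyMeasurable
    · refine Filter.Eventually.of_forall fun N => Filter.Eventually.of_forall fun t _ => ?_
      rw [Real.norm_eq_abs, abs_of_nonneg (by positivity)]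
      refine pow_le_pow_left₀ (norm_nonneg _) ?_ 2
      refine (norm_sum_le _ _).trans ?_
      refine (Finset.sum_le_sum fun n _ => SS_term_le χ h0 t n).trans ?_
      exact hc.sum_le_tsum _ fun n _ => norm_nonneg _
    · exact intervalIntegrable_const
    · refine Filter.Eventually.of_forall fun t _ => ?_
      refine Filter.Tendsto.pow ?_ 2
      refine Filter.Tendsto.norm ?_
      simp only [hsum]
      exact (SS_summable χ h0 hc t).hasSum.tendsto_sum_nat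
  refine le_of_tendsto' hlim fun N => ?_
  refine (h Q hQ ((Finset.range N).erase 0) c t₀ T hT ?_).trans ?_
  · intro n hn
    exact Nat.one_le_iff_ne_zero.2 (Finset.ne_of_mem_erase hn)
  · refine mul_le_mul_of_nonneg_left ?_ (by linarith)
    refine hs.sum_le_tsum _ fun n _ => ?_
    positivity

theorem conv_summable {c : ℕ → ℂ} (hc : Summable fun n => ‖c n‖) :
    Summable fun n => ‖LSeries.convolution c c n‖ := by
  have hterm : ∀ (f : ℕ → ℂ) (n : ℕ), n ≠ 0 → LSeries.term f 0 n = f n := by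
    intro f n hn
    rw [LSeries.term_of_ne_zero hn]
    simp
  have h1 : LSeriesSummable c 0 := by
    refine Summable.of_norm_bounded hc fun n => ?_
    rcases eq_or_ne n 0 with rfl | hn
    · simp
    · rw [hterm c n hn]
  have h2 : LSeriesSummable (LSeries.convolution c c) 0 := h1.convolution h1
  have h3 : Summable fun n => ‖LSeries.term (LSeries.convolution c c) 0 n‖ := h2.norm
  refine h3.congr fun n => ?_
  rcases eq_or_ne n 0 with rfl | hn
  · simp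
  · rw [hterm _ n hn]

theorem SS_eq_LSeries {Q : ℕ} (χ : DirichletCharacter ℂ Q) {c : ℕ → ℂ} (h0 : c 0 = 0) (t : ℝ) :
    SS c χ t = LSeries (fun n => c n * χ (n : ZMod Q)) (-((t : ℂ) * I)) := by
  unfold SS LSeries
  refine tsum_congr fun n => ?_
  rcases eq_or_ne n 0 with rfl | hn
  · simp [h0]
  · rw [LSeries.term_of_ne_zero hn, cpow_neg, div_inv_eq_mul]

theorem SS_LSummable {Q : ℕ} (χ : DirichletCharacter ℂ Q) {c : ℕ → ℂ} (h0 : c 0 = 0)
    (hc : Summable fun n => ‖c n‖) (t : ℝ) :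
    LSeriesSummable (fun n => c n * χ (n : ZMod Q)) (-((t : ℂ) * I)) := by
  refine (SS_summable χ h0 hc t).congr fun n => ?_
  rcases eq_or_ne n 0 with rfl | hn
  · simp [h0]
  · rw [LSeries.term_of_ne_zero hn, cpow_neg, div_inv_eq_mul]

theorem SS_sq {Q : ℕ} (χ : DirichletCharacter ℂ Q) {c : ℕ → ℂ} (h0 : c 0 = 0)
    (hc : Summable fun n => ‖c n‖) (t : ℝ) : SS c χ t ^ 2 = SS (LSeries.convolution c c) χ t := by
  have hs := SS_LSummable χ h0 hc t
  rw [SS_eq_LSeries χ h0, SS_eq_LSeries χ (LSeries.convolution_map_zero c c), sq,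
    ← LSeries_convolution' hs hs]
  congr 1
  rw [LSeries.convolution_def, LSeries.convolution_def]
  funext n
  rw [Finset.sum_mul]
  refine Finset.sum_congr rfl fun p hp => ?_
  have h1 : p.1 * p.2 = n := (Nat.mem_divisorsAntidiagonal.1 hp).1
  rw [← h1, Nat.cast_mul, map_mul]
  ring

theorem m4 : ∃ C : ℝ, 1 ≤ C ∧ ∀ (Q : ℕ), 1 ≤ Q → ∀ (c : ℕ → ℂ), c 0 = 0 →
    (Summable fun n => ‖c n‖) → ∀ (d : ℕ → ℝ), (∀ n, ‖LSeries.convolution c c n‖ ≤ d n) →
    ∀ (t₀ T : ℝ), 1 ≤ T → (Summable fun n : ℕ => d n ^ 2 * (Q * T + n)) →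
    ∑ χ : DirichletCharacter ℂ Q, ∫ t in (t₀ - T)..(t₀ + T), ‖SS c χ t‖ ^ 4 ≤
      C * ∑' n : ℕ, d n ^ 2 * (Q * T + n) := by
  obtain ⟨C, hC, h⟩ := mv_inf
  refine ⟨C, hC, ?_⟩
  intro Q hQ c h0 hc d hd t₀ T hT hs
  have hcmp : ∀ n : ℕ, ‖LSeries.convolution c c n‖ ^ 2 * (Q * T + n) ≤ d n ^ 2 * (Q * T + n) := by
    intro n
    refine mul_le_mul_of_nonneg_right ?_ (by positivity)
    exact pow_le_pow_left₀ (norm_nonneg _) (hd n) 2
  have hs' : Summable fun n : ℕ => ‖LSeries.convolution c c n‖ ^ 2 * (Q * T + n) :=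
    Summable.of_nonneg_of_le (fun n => by positivity) hcmp hs
  have h1 := h Q hQ (LSeries.convolution c c) (LSeries.convolution_map_zero c c)
    (conv_summable hc) t₀ T hT hs'
  have h2 : ∀ (χ : DirichletCharacter ℂ Q) (t : ℝ),
      ‖SS c χ t‖ ^ 4 = ‖SS (LSeries.convolution c c) χ t‖ ^ 2 := by
    intro χ t
    rw [← SS_sq χ h0 hc t, norm_pow, ← pow_mul]
  simp only [h2]
  refine h1.trans ?_
  refine mul_le_mul_of_nonneg_left ?_ (by linarith)
  exact hs'.tsum_le_tsum hcmp hs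

/-- conjugation: real coefficients -/
theorem SS_conj {Q : ℕ} [NeZero Q] (χ : DirichletCharacter ℂ Q) (c : ℕ → ℝ) (t : ℝ) :
    ‖SS (fun n => (c n : ℂ)) χ⁻¹ (-t)‖ = ‖SS (fun n => (c n : ℂ)) χ t‖ := by
  have h1 : SS (fun n => (c n : ℂ)) χ⁻¹ (-t) =
      (starRingEnd ℂ) (SS (fun n => (c n : ℂ)) χ t) := by
    unfold SS
    rw [Complex.conj_tsum]
    refine tsum_congr fun n => ?_
    rw [map_mul, map_mul, Complex.conj_ofReal]
    have h2 : χ⁻¹ (n : ZMod Q) = (starRingEnd ℂ) (χ (n : ZMod Q)) := by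
      have := MulChar.star_apply' χ (n : ZMod Q)
      rw [← this]
      rfl
    have h3 : (starRingEnd ℂ) ((n : ℂ) ^ ((t : ℂ) * I)) = (n : ℂ) ^ (((-t : ℝ) : ℂ) * I) := by
      have h4 := Complex.cpow_conj (n : ℂ) ((t : ℂ) * I)
        (by rw [Complex.natCast_arg]; exact Real.pi_pos.ne)
      rw [Complex.conj_natCast] at h4
      rw [← h4]
      congr 1
      simp
    rw [h2, h3]
  rw [h1, Complex.norm_conj]

end Pool.Agent.HPP
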