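import Pool.Agent.HPP.LGam
import Pool.Agent.HPP.LFe

/-!
# HPP/LY: functional equation for imprimitive characters

Let `χ` mod `Q = b^m'` be induced by `ψ` primitive mod `f ∣ Q`: `χ = changeLevel hf ψ` (as in `exists_prim`; then
`χ⁻¹ = changeLevel hf ψ⁻¹`), `E(s) = ∏_{p ∣ Q} (1 - ψ(p) p^(-s))`, `E'(s) = ∏_{p ∣ Q} (1 - ψ⁻¹(p) p^(-s))`: by
`LFunction_changeLevel`, `L(s, χ) = L(s, ψ) E(s)`, `L(1 - s, χ⁻¹) = L(1 - s, ψ⁻¹) E'(1 - s)` (`s ≠ 0, 1`). Put, with `L_fe`,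
`Y(s) = ε f^(1/2 - s) GQ (par ψ) s E(s) / E'(1 - s)`.
* For `re s < 1` the factors of `E'(1 - s)` are nonzero: `‖ψ⁻¹(p) p^(-(1 - s))‖ ≤ p^(-(1 - re s)) < 1`; `GQ_diff`.
* `re s ≤ 1/2`: `‖1 - ψ⁻¹(p) p^(-(1-s))‖ ≥ 1 - p^(-1/2) ≥ 1/4`; so `‖1/E'(1 - s)‖ ≤ 4^ω(b)` (the primes dividing
  `Q` divide `b`). `re s ≥ -3/2`: `‖1 - ψ(p) p^(-s)‖ ≤ 1 + p² ≤ 2 b²`.
* `re s = 1/2`: `GQ_half`, `‖f^(1/2 - s)‖ = 1`. `re s = -3/2`: `GQ_neg`, `‖f^(1/2 - s)‖ = f² ≤ Q²`. Strip: `GQ_exp`.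
-/

namespace Pool.Agent.HPP

open Complex DirichletCharacter Pool.Agent.ZX

theorem exists_prim2 {Q : ℕ} [NeZero Q] (χ : DirichletCharacter ℂ Q) :
    ∃ (f : ℕ) (_ : NeZero f) (hf : f ∣ Q) (ψ : DirichletCharacter ℂ f), ψ.IsPrimitive ∧
      χ = changeLevel hf ψ := by
  haveI hf : NeZero χ.conductor := ⟨χ.conductor_ne_zero⟩
  exact ⟨χ.conductor, hf, χ.conductor_dvd_level, χ.primitiveCharacter,
    χ.primitiveCharacter_isPrimitive, χ.changeLevel_primitiveCharacter.symm⟩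

private theorem fac_norm {f p : ℕ} (ψ : DirichletCharacter ℂ f) (hp : p.Prime) (s : ℂ) :
    ‖ψ (p : ZMod f) * (p : ℂ) ^ (-s)‖ ≤ (p : ℝ) ^ (-s.re) := by
  rw [norm_mul, Complex.norm_natCast_cpow_of_pos hp.pos, neg_re]
  have h1 : ‖ψ (p : ZMod f)‖ ≤ 1 := DirichletCharacter.norm_le_one ψ _
  have h2 : 0 ≤ (p : ℝ) ^ (-s.re) := by positivity
  calc ‖ψ (p : ZMod f)‖ * (p : ℝ) ^ (-s.re) ≤ 1 * (p : ℝ) ^ (-s.re) :=
        mul_le_mul_of_nonneg_right h1 h2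
    _ = _ := one_mul _

private theorem fac_ne {f p : ℕ} (ψ : DirichletCharacter ℂ f) (hp : p.Prime) {s : ℂ} (hs : 0 < s.re) :
    1 - ψ (p : ZMod f) * (p : ℂ) ^ (-s) ≠ 0 := by
  intro h
  have h1 := fac_norm ψ hp s
  have h2 : ψ (p : ZMod f) * (p : ℂ) ^ (-s) = 1 := (sub_eq_zero.1 h).symm
  rw [h2, norm_one] at h1
  have h3 : (p : ℝ) ^ (-s.re) < 1 := by
    apply Real.rpow_lt_one_of_one_lt_of_neg
    · exact_mod_cast hp.one_lt
    · linarith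
  linarith

private theorem fac_lower {f p : ℕ} (ψ : DirichletCharacter ℂ f) (hp : p.Prime) {s : ℂ}
    (hs : 1 / 2 ≤ s.re) : 1 / 4 ≤ ‖1 - ψ (p : ZMod f) * (p : ℂ) ^ (-s)‖ := by
  have h1 := fac_norm ψ hp s
  have hp2 : (2 : ℝ) ≤ p := by exact_mod_cast hp.two_le
  have h2 : (p : ℝ) ^ (-s.re) ≤ 3 / 4 := by
    calc (p : ℝ) ^ (-s.re) ≤ (p : ℝ) ^ (-(1 / 2 : ℝ)) := by
          apply Real.rpow_le_rpow_of_exponent_le
          · linarith
          · linarith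
      _ ≤ (2 : ℝ) ^ (-(1 / 2 : ℝ)) := by
          apply Real.rpow_le_rpow_of_nonpos
          · norm_num
          · exact hp2
          · norm_num
      _ ≤ 3 / 4 := by
          rw [Real.rpow_neg (by norm_num), ← Real.sqrt_eq_rpow, ← one_div,
            div_le_div_iff₀ (Real.sqrt_pos.2 (by norm_num)) (by norm_num)]
          have : (4 / 3 : ℝ) ≤ Real.sqrt 2 := Real.le_sqrt_of_sq_le (by norm_num)
          linarith
  have h3 := norm_sub_norm_le (1 : ℂ) (ψ (p : ZMod f) * (p : ℂ) ^ (-s))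
  rw [norm_one] at h3
  linarith

private theorem fac_upper {f p b : ℕ} (ψ : DirichletCharacter ℂ f) (hp : p.Prime) (hpb : p ≤ b) {s : ℂ}
    (hs : -(3 / 2) ≤ s.re) : ‖1 - ψ (p : ZMod f) * (p : ℂ) ^ (-s)‖ ≤ 2 * (b : ℝ) ^ 2 := by
  have h1 := fac_norm ψ hp s
  have hp2 : (2 : ℝ) ≤ p := by exact_mod_cast hp.two_le
  have hpb' : (p : ℝ) ≤ b := by exact_mod_cast hpb
  have h2 : (p : ℝ) ^ (-s.re) ≤ (b : ℝ) ^ 2 := by
    calc (p : ℝ) ^ (-s.re) ≤ (p : ℝ) ^ (2 : ℝ) := by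
          apply Real.rpow_le_rpow_of_exponent_le
          · linarith
          · linarith
      _ = (p : ℝ) ^ 2 := by norm_num
      _ ≤ (b : ℝ) ^ 2 := by gcongr
  have h3 := norm_sub_le (1 : ℂ) (ψ (p : ZMod f) * (p : ℂ) ^ (-s))
  rw [norm_one] at h3
  nlinarith

theorem exists_Y (b : ℕ) (hb : 2 ≤ b) : ∃ C : ℝ, 1 ≤ C ∧
    ∀ (m' : ℕ) (χ : DirichletCharacter ℂ (b ^ m')) (_ : NeZero (b ^ m')), ∃ Y : ℂ → ℂ,
      (∀ s : ℂ, s.re < 1 → DifferentiableAt ℂ Y s) ∧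
      (∀ s : ℂ, s.re < 0 → LFunction χ s = Y s * LFunction χ⁻¹ (1 - s)) ∧
      (∀ y : ℝ, ‖Y (1 / 2 + y * I)‖ ≤ C) ∧
      (∀ y : ℝ, ‖Y (-(3 / 2) + y * I)‖ ≤ C * ((b : ℝ) ^ m') ^ 2 * (1 + |y|) ^ 2) ∧
      ∃ C' : ℝ, ∀ s : ℂ, -(3 / 2) ≤ s.re → s.re ≤ 1 / 2 → ‖Y s‖ ≤ C' * Real.exp (2 * |s.im|) := by
  obtain ⟨C1, hC1, h1⟩ := GQ_neg
  obtain ⟨C3, hC3, h3⟩ := GQ_exp
  have hb1 : (1 : ℝ) ≤ b := by exact_mod_cast (by omega : 1 ≤ b)
  have hK : (1 : ℝ) ≤ 8 * (b : ℝ) ^ 2 := by nlinarith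
  have hKw : (1 : ℝ) ≤ (8 * (b : ℝ) ^ 2) ^ b.primeFactors.card := one_le_pow₀ hK
  refine ⟨(8 * (b : ℝ) ^ 2) ^ b.primeFactors.card * C1, by nlinarith, ?_⟩
  intro m' χ hne
  obtain ⟨f, hf0, hf, ψ, hψ, hχ⟩ := exists_prim2 χ
  obtain ⟨ε, hε, hfe⟩ := L_fe hψ
  have hsub : (b ^ m').primeFactors ⊆ b.primeFactors := by
    intro p hp
    rw [Nat.mem_primeFactors] at hp ⊢
    exact ⟨hp.1, hp.1.dvd_of_dvd_pow hp.2.1, by omega⟩
  have hcard : (b ^ m').primeFactors.card ≤ b.primeFactors.card := Finset.card_le_card hsub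
  have hpr : ∀ p ∈ (b ^ m').primeFactors, p.Prime := fun p hp => Nat.prime_of_mem_primeFactors hp
  have hpb : ∀ p ∈ (b ^ m').primeFactors, p ≤ b := fun p hp =>
    Nat.le_of_mem_primeFactors (hsub hp)
  have hfpos : 0 < f := Nat.pos_of_ne_zero (NeZero.ne f)
  have hfC : (f : ℂ) ≠ 0 := by exact_mod_cast hfpos.ne'
  set E : ℂ → ℂ := fun s => ∏ p ∈ (b ^ m').primeFactors, (1 - ψ (p : ZMod f) * (p : ℂ) ^ (-s)) with hE
  set E' : ℂ → ℂ := fun s => ∏ p ∈ (b ^ m').primeFactors, (1 - ψ⁻¹ (p : ZMod f) * (p : ℂ) ^ (-s))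
    with hE'
  have hE'ne : ∀ s : ℂ, s.re < 1 → E' (1 - s) ≠ 0 := by
    intro s hs
    simp only [hE']
    rw [Finset.prod_ne_zero_iff]
    intro p hp
    exact fac_ne ψ⁻¹ (hpr p hp) (by rw [sub_re, one_re]; linarith)
  have hEd : ∀ s : ℂ, DifferentiableAt ℂ E s := by
    intro s
    simp only [hE]
    apply DifferentiableAt.fun_finsetProd
    intro p hp
    have hp0 : (p : ℂ) ≠ 0 := by exact_mod_cast (hpr p hp).ne_zero
    apply DifferentiableAt.const_sub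
    apply DifferentiableAt.const_mul
    exact differentiableAt_id.neg.const_cpow (Or.inl hp0)
  have hE'd : ∀ s : ℂ, DifferentiableAt ℂ (fun s => E' (1 - s)) s := by
    intro s
    simp only [hE']
    apply DifferentiableAt.fun_finsetProd
    intro p hp
    have hp0 : (p : ℂ) ≠ 0 := by exact_mod_cast (hpr p hp).ne_zero
    apply DifferentiableAt.const_sub
    apply DifferentiableAt.const_mul
    exact (by fun_prop : DifferentiableAt ℂ (fun s : ℂ => -(1 - s)) s).const_cpow (Or.inl hp0)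
  -- the uniform bound
  have hbd : ∀ s : ℂ, -(3 / 2) ≤ s.re → s.re ≤ 1 / 2 →
      ‖E s / E' (1 - s)‖ ≤ (8 * (b : ℝ) ^ 2) ^ b.primeFactors.card := by
    intro s hs1 hs2
    have a1 : ‖E s‖ ≤ (2 * (b : ℝ) ^ 2) ^ (b ^ m').primeFactors.card := by
      simp only [hE]
      rw [norm_prod]
      calc ∏ p ∈ (b ^ m').primeFactors, ‖1 - ψ (p : ZMod f) * (p : ℂ) ^ (-s)‖
          ≤ ∏ p ∈ (b ^ m').primeFactors, (2 * (b : ℝ) ^ 2) :=
            Finset.prod_le_prod (fun _ _ => norm_nonneg _)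
              (fun p hp => fac_upper ψ (hpr p hp) (hpb p hp) hs1)
        _ = _ := by rw [Finset.prod_const]
    have a2 : (1 / 4 : ℝ) ^ (b ^ m').primeFactors.card ≤ ‖E' (1 - s)‖ := by
      simp only [hE']
      rw [norm_prod]
      calc (1 / 4 : ℝ) ^ (b ^ m').primeFactors.card = ∏ p ∈ (b ^ m').primeFactors, (1 / 4 : ℝ) := by
            rw [Finset.prod_const]
        _ ≤ ∏ p ∈ (b ^ m').primeFactors, ‖1 - ψ⁻¹ (p : ZMod f) * (p : ℂ) ^ (-(1 - s))‖ :=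
            Finset.prod_le_prod (fun _ _ => by norm_num)
              (fun p hp => fac_lower ψ⁻¹ (hpr p hp) (by rw [sub_re, one_re]; linarith))
    have a3 : 0 < (1 / 4 : ℝ) ^ (b ^ m').primeFactors.card := by positivity
    rw [norm_div, div_le_iff₀ (lt_of_lt_of_le a3 a2)]
    calc ‖E s‖ ≤ (2 * (b : ℝ) ^ 2) ^ (b ^ m').primeFactors.card := a1
      _ = (8 * (b : ℝ) ^ 2) ^ (b ^ m').primeFactors.card * (1 / 4 : ℝ) ^ (b ^ m').primeFactors.card := by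
          rw [← mul_pow]
          congr 1
          ring
      _ ≤ (8 * (b : ℝ) ^ 2) ^ b.primeFactors.card * ‖E' (1 - s)‖ := by
          apply mul_le_mul (pow_le_pow_right₀ hK hcard) a2 a3.le
          positivity
  have hYn : ∀ s : ℂ, -(3 / 2) ≤ s.re → s.re ≤ 1 / 2 →
      ‖ε * (f : ℂ) ^ (1 / 2 - s) * GQ (par ψ) s * (E s / E' (1 - s))‖ ≤
        (f : ℝ) ^ (1 / 2 - s.re) * ‖GQ (par ψ) s‖ * (8 * (b : ℝ) ^ 2) ^ b.primeFactors.card := by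
    intro s hs1 hs2
    rw [norm_mul, norm_mul, norm_mul, hε, one_mul, Complex.norm_natCast_cpow_of_pos hfpos]
    have : (1 / 2 - s : ℂ).re = 1 / 2 - s.re := by
      rw [sub_re]
      norm_num
    rw [this]
    exact mul_le_mul_of_nonneg_left (hbd s hs1 hs2) (by positivity)
  have hfQ : (f : ℝ) ≤ (b : ℝ) ^ m' := by
    exact_mod_cast Nat.le_of_dvd (Nat.pos_of_ne_zero (NeZero.ne _)) hf
  have hf1 : (1 : ℝ) ≤ f := by exact_mod_cast hfpos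
  refine ⟨fun s => ε * (f : ℂ) ^ (1 / 2 - s) * GQ (par ψ) s * (E s / E' (1 - s)), ?_, ?_, ?_, ?_, ?_⟩
  · intro s hs
    have d1 : DifferentiableAt ℂ (fun s : ℂ => (f : ℂ) ^ (1 / 2 - s)) s :=
      (by fun_prop : DifferentiableAt ℂ (fun s : ℂ => 1 / 2 - s) s).const_cpow (Or.inl hfC)
    have d2 : DifferentiableAt ℂ (GQ (par ψ)) s := GQ_diff (par_cases ψ) hs
    have d3 : DifferentiableAt ℂ (fun s => E s / E' (1 - s)) s := (hEd s).fun_div (hE'd s) (hE'ne s hs)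
    exact ((d1.const_mul ε).mul d2).mul d3
  · intro s hs
    have hs1 : s ≠ 1 := by
      rintro rfl
      simp at hs
      linarith
    have hs0 : s ≠ 0 := by
      rintro rfl
      simp at hs
    have hs1' : 1 - s ≠ 1 := by
      intro h
      exact hs0 (by linear_combination -h)
    have e1 : LFunction χ s = LFunction ψ s * E s := by
      rw [hχ, LFunction_changeLevel hf ψ (Or.inr hs1)]
    have e2 : LFunction χ⁻¹ (1 - s) = LFunction ψ⁻¹ (1 - s) * E' (1 - s) := by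
      rw [hχ, ← map_inv, LFunction_changeLevel hf ψ⁻¹ (Or.inr hs1')]
    have e3 := hfe s (by linarith) (Or.inl hs0)
    have hne' := hE'ne s (by linarith)
    rw [e1, e2, e3]
    field_simp
  · intro y
    have r : ((1 / 2 : ℂ) + y * I).re = 1 / 2 := by simp
    have := hYn (1 / 2 + y * I) (by rw [r]; norm_num) (by rw [r])
    refine this.trans ?_
    rw [r, sub_self, Real.rpow_zero, one_mul, GQ_half (par_cases ψ), one_mul]
    nlinarith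
  · intro y
    have r : (-(3 / 2 : ℂ) + y * I).re = -(3 / 2) := by simp
    have := hYn (-(3 / 2) + y * I) (by rw [r]) (by rw [r]; norm_num)
    refine this.trans ?_
    rw [r, show (1 / 2 - -(3 / 2) : ℝ) = ((2 : ℕ) : ℝ) by norm_num, Real.rpow_natCast]
    have g1 := h1 (par ψ) (par_cases ψ) y
    calc (f : ℝ) ^ 2 * ‖GQ (par ψ) (-(3 / 2) + y * I)‖ * (8 * (b : ℝ) ^ 2) ^ b.primeFactors.card
        ≤ ((b : ℝ) ^ m') ^ 2 * (C1 * (1 + |y|) ^ 2) * (8 * (b : ℝ) ^ 2) ^ b.primeFactors.card := by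
          gcongr
      _ = _ := by ring
  · refine ⟨(f : ℝ) ^ (2 : ℝ) * C3 * (8 * (b : ℝ) ^ 2) ^ b.primeFactors.card, fun s hs1 hs2 => ?_⟩
    refine (hYn s hs1 hs2).trans ?_
    have g1 := h3 (par ψ) (par_cases ψ) s (by linarith) (by linarith)
    have g2 : (f : ℝ) ^ (1 / 2 - s.re) ≤ (f : ℝ) ^ (2 : ℝ) :=
      Real.rpow_le_rpow_of_exponent_le hf1 (by linarith)
    calc (f : ℝ) ^ (1 / 2 - s.re) * ‖GQ (par ψ) s‖ * (8 * (b : ℝ) ^ 2) ^ b.primeFactors.card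
        ≤ (f : ℝ) ^ (2 : ℝ) * (C3 * Real.exp (2 * |s.im|)) * (8 * (b : ℝ) ^ 2) ^ b.primeFactors.card := by
          gcongr
      _ = _ := by ring

end Pool.Agent.HPP
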