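import Pool.Agent.ZC.Strip
import Pool.Agent.HPP.LShift
import Pool.Agent.HPP.LMvi
import Pool.Agent.HPP.LDiv
import Pool.Agent.HPP.LY

/-!
# HPP/LDual: the dual form of a smooth sum

`TT_shift` with `c = -3/2`: `2π TT = KI (-3/2) + 2π rs χ KM (1 + it) e^((1 + it) v)`. On the line `s = -3/2 + iy`:
`L(s - it, χ) = Y(s - it) L(1 - s + it, χ⁻¹)` (`exists_Y`), `L(1 - s + it, χ⁻¹) = ∑ χ⁻¹(n) n^(-(1 - s + it))`
(`re = 5/2`; `LFunction_eq_LSeries`) `= A(1 - s + it) + R(1 - s + it)`, `n ≤ N` and `n > N`.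
* The part with `A` (a finite sum, entire): `F(s) = KM s e^(sv) Y(s - it) A(1 - s + it)` is differentiable in
  `re s < 1`; `ZC.strip_shift` from `-3/2` to `1/2` (`KM_bound`, last part of `exists_Y`; `A` is bounded in the strip).
  On `s = 1/2 + iy`: `‖Y‖ ≤ C`, `‖A(1/2 + i(t - y))‖ = ‖∑_{n ≤ N} χ⁻¹(n) n^(-1/2) n^(-i(t - y))‖ = ‖SS (ca N) χ (t - y)‖`
  (`SS_conj`), `‖e^(sv)‖ = e^(v/2)`.
* The part with `R`: `‖Y(-3/2 + i(y - t))‖ ≤ C Q² (1 + |y - t|)²`, `‖R(5/2 + i(t - y))‖ = ‖SS (cr N) χ (t - y)‖`.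
`1/(2π) ≤ 1`. All integrands on the right are integrable (`KM_integrable`, `SS_norm_le`, `SS_cont`), which is needed for the
monotonicity of the integral.
-/

namespace Pool.Agent.HPP

open Complex MeasureTheory DirichletCharacter

/-- `(1 + |y|) exp (- y² / 4) exp (5 |y|) ≤ exp 64 / (1 + y²)` -/
private theorem gauss_dec19 (y : ℝ) :
    (1 + |y|) * Real.exp (-1 * y ^ 2 / 4) * Real.exp (5 * |y|) ≤ Real.exp 64 / (1 + y ^ 2) := by
  rw [le_div_iff₀ (by positivity)]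
  have h1 : 1 + |y| ≤ Real.exp |y| := by
    have := Real.add_one_le_exp |y|
    linarith
  have h2 : 1 + y ^ 2 ≤ Real.exp |y| * Real.exp |y| := by
    have h3 : 1 + y ^ 2 ≤ (1 + |y|) * (1 + |y|) := by
      rw [← sq_abs y]
      nlinarith [abs_nonneg y]
    exact h3.trans (mul_le_mul h1 h1 (by positivity) (by positivity))
  calc (1 + |y|) * Real.exp (-1 * y ^ 2 / 4) * Real.exp (5 * |y|) * (1 + y ^ 2)
      ≤ Real.exp |y| * Real.exp (-1 * y ^ 2 / 4) * Real.exp (5 * |y|) *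
        (Real.exp |y| * Real.exp |y|) := by gcongr
    _ = Real.exp (8 * |y| - y ^ 2 / 4) := by
        rw [← Real.exp_add, ← Real.exp_add, ← Real.exp_add, ← Real.exp_add]
        congr 1
        ring
    _ ≤ Real.exp 64 := by
        apply Real.exp_le_exp.2
        have h7 : |y| ^ 2 = y ^ 2 := sq_abs y
        nlinarith [sq_nonneg (16 - |y|)]

/-- the finite part of the dual series -/
private noncomputable def Ad {Q : ℕ} (N : ℕ) (χ : DirichletCharacter ℂ Q) (w : ℂ) : ℂ :=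
  ∑ n ∈ Finset.Icc 1 N, χ⁻¹ (n : ZMod Q) * (n : ℂ) ^ (-w)

private theorem Ad_diff {Q : ℕ} (N : ℕ) (χ : DirichletCharacter ℂ Q) : Differentiable ℂ (Ad N χ) := by
  unfold Ad
  refine Differentiable.fun_sum fun n hn => ?_
  have hn0 : (n : ℂ) ≠ 0 := by
    have := (Finset.mem_Icc.1 hn).1
    exact_mod_cast (by omega : n ≠ 0)
  exact (differentiable_const _).mul (differentiable_id.neg.const_cpow (Or.inl hn0))

private theorem Ad_norm {Q : ℕ} (N : ℕ) (χ : DirichletCharacter ℂ Q) {w : ℂ} (hw : 0 ≤ w.re) :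
    ‖Ad N χ w‖ ≤ N := by
  unfold Ad
  refine (norm_sum_le _ _).trans ?_
  calc ∑ n ∈ Finset.Icc 1 N, ‖χ⁻¹ (n : ZMod Q) * (n : ℂ) ^ (-w)‖
      ≤ ∑ n ∈ Finset.Icc 1 N, (1 : ℝ) := by
        refine Finset.sum_le_sum fun n hn => ?_
        have hn1 : 1 ≤ n := (Finset.mem_Icc.1 hn).1
        rw [norm_mul, Complex.norm_natCast_cpow_of_pos (by omega)]
        have h1 := DirichletCharacter.norm_le_one χ⁻¹ (n : ZMod Q)
        have h2 : (n : ℝ) ^ (-w).re ≤ 1 := by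
          apply Real.rpow_le_one_of_one_le_of_nonpos
          · exact_mod_cast hn1
          · simpa using hw
        have h3 : (0 : ℝ) ≤ (n : ℝ) ^ (-w).re := by positivity
        nlinarith [norm_nonneg (χ⁻¹ (n : ZMod Q))]
    _ = N := by simp

/-- on the line `1/2` the finite part is `SS (ca N)` -/
private theorem Ad_half {Q : ℕ} [NeZero Q] (N : ℕ) (χ : DirichletCharacter ℂ Q) (x : ℝ) :
    ‖Ad N χ (1 / 2 + x * I)‖ = ‖SS (fun n => (ca N n : ℂ)) χ x‖ := by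
  rw [← SS_conj χ (ca N) x]
  congr 1
  unfold Ad SS
  rw [tsum_eq_sum (s := Finset.Icc 1 N)]
  · refine Finset.sum_congr rfl fun n hn => ?_
    have hn' := Finset.mem_Icc.1 hn
    have hn0 : (n : ℂ) ≠ 0 := by exact_mod_cast (by omega : n ≠ 0)
    have hcan : ca N n = (n : ℝ) ^ (-(1 / 2) : ℝ) := by
      unfold ca
      rw [if_pos hn']
    have e : (((n : ℝ) ^ (-(1 / 2) : ℝ) : ℝ) : ℂ) = (n : ℂ) ^ (-(1 / 2) : ℂ) := by
      rw [Complex.ofReal_cpow (by positivity)]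
      push_cast
      rfl
    simp only
    rw [hcan, e, show (-(1 / 2 + (x : ℂ) * I)) = (-(1 / 2) : ℂ) + (((-x : ℝ) : ℂ) * I) by push_cast; ring,
      Complex.cpow_add _ _ hn0]
    ring
  · intro n hn
    have : ca N n = 0 := by
      unfold ca
      rw [if_neg]
      intro h
      exact hn (Finset.mem_Icc.2 h)
    simp [this]

/-- splitting of the dual series on the line `5/2` -/
private theorem L_split {Q : ℕ} [NeZero Q] (N : ℕ) (χ : DirichletCharacter ℂ Q) (x : ℝ) :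
    LFunction χ⁻¹ (5 / 2 + x * I) =
      Ad N χ (5 / 2 + x * I) + SS (fun n => (cr N n : ℂ)) χ⁻¹ (-x) := by
  have hre : (1 : ℝ) < (5 / 2 + (x : ℂ) * I).re := by
    simp
    norm_num
  rw [LFunction_eq_LSeries χ⁻¹ hre]
  unfold LSeries
  have hcr0 : ((cr N 0 : ℝ) : ℂ) = 0 := by simp [cr]
  have hs2 : Summable fun n : ℕ => ((cr N n : ℝ) : ℂ) * χ⁻¹ (n : ZMod Q) * (n : ℂ) ^ (((-x : ℝ) : ℂ) * I) :=
    SS_summable χ⁻¹ (c := fun n => ((cr N n : ℝ) : ℂ)) hcr0 (cr_summable N) (-x)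
  set f : ℕ → ℂ := fun n => if n ∈ Finset.Icc 1 N then χ⁻¹ (n : ZMod Q) * (n : ℂ) ^ (-(5 / 2 + (x : ℂ) * I))
    else 0 with hf
  have hs1 : Summable f := by
    refine summable_of_ne_finset_zero (s := Finset.Icc 1 N) fun n hn => ?_
    rw [hf]
    simp only [if_neg hn]
  have hterm : ∀ n : ℕ, LSeries.term (fun n => χ⁻¹ (n : ZMod Q)) (5 / 2 + (x : ℂ) * I) n =
      f n + ((cr N n : ℝ) : ℂ) * χ⁻¹ (n : ZMod Q) * (n : ℂ) ^ (((-x : ℝ) : ℂ) * I) := by
    intro n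
    rcases eq_or_ne n 0 with rfl | hn
    · have h1 : f 0 = 0 := by rw [hf]; simp
      rw [LSeries.term_zero, h1, hcr0]
      simp
    · have hn0 : (n : ℂ) ≠ 0 := by exact_mod_cast hn
      rw [LSeries.term_of_ne_zero hn]
      rcases Nat.lt_or_ge N n with h | h
      · have h1 : f n = 0 := by
          rw [hf]
          have : ¬ n ∈ Finset.Icc 1 N := by
            intro h2
            have := (Finset.mem_Icc.1 h2).2
            omega
          simp only [if_neg this]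
        rw [h1, zero_add]
        unfold cr
        rw [if_pos h]
        have e : (((n : ℝ) ^ (-(5 / 2) : ℝ) : ℝ) : ℂ) = (n : ℂ) ^ (-(5 / 2) : ℂ) := by
          rw [Complex.ofReal_cpow (by positivity)]
          push_cast
          rfl
        rw [e, div_eq_mul_inv, ← Complex.cpow_neg,
          show (-(5 / 2 + (x : ℂ) * I)) = (-(5 / 2) : ℂ) + (((-x : ℝ) : ℂ) * I) by push_cast; ring,
          Complex.cpow_add _ _ hn0]
        ring
      · have h1 : f n = χ⁻¹ (n : ZMod Q) * (n : ℂ) ^ (-(5 / 2 + (x : ℂ) * I)) := by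
          rw [hf]
          have : n ∈ Finset.Icc 1 N := Finset.mem_Icc.2 ⟨by omega, h⟩
          simp only [if_pos this]
        have h2 : cr N n = 0 := by
          unfold cr
          rw [if_neg (by omega)]
        rw [h1, h2, div_eq_mul_inv, ← Complex.cpow_neg]
        simp
  calc ∑' n : ℕ, LSeries.term (fun n => χ⁻¹ (n : ZMod Q)) (5 / 2 + (x : ℂ) * I) n
      = ∑' n : ℕ, (f n + ((cr N n : ℝ) : ℂ) * χ⁻¹ (n : ZMod Q) * (n : ℂ) ^ (((-x : ℝ) : ℂ) * I)) :=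
        tsum_congr hterm
    _ = (∑' n, f n) + ∑' n : ℕ, ((cr N n : ℝ) : ℂ) * χ⁻¹ (n : ZMod Q) * (n : ℂ) ^ (((-x : ℝ) : ℂ) * I) :=
        hs1.tsum_add hs2
    _ = _ := by
        congr 1
        rw [tsum_eq_sum (s := Finset.Icc 1 N)]
        · unfold Ad
          refine Finset.sum_congr rfl fun n hn => ?_
          rw [hf]
          simp only [if_pos hn]
        · intro n hn
          rw [hf]
          simp only [if_neg hn]

/-- bound in the strip -/
private theorem F_bound19 {a : ℕ} (ha : a ≤ 1) (t v : ℝ) {Q : ℕ} (N : ℕ) (χ : DirichletCharacter ℂ Q)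
    {Y : ℂ → ℂ} {C : ℝ}
    (hC : ∀ s : ℂ, -(3 / 2) ≤ s.re → s.re ≤ 1 / 2 → ‖Y s‖ ≤ C * Real.exp (2 * |s.im|)) :
    ∃ D : ℝ, 0 ≤ D ∧ ∀ s : ℂ, -(3 / 2) ≤ s.re → s.re ≤ 1 / 2 →
      ‖KM 1 a s * cexp (s * v) * (Y (s - t * I) * Ad N χ (1 - (s - t * I)))‖ ≤ D / (1 + s.im ^ 2) := by
  obtain ⟨B, hB1, hB⟩ := KM_bound one_pos
  have hC0 : 0 ≤ C := by
    have h := (norm_nonneg _).trans (hC 0 (by simp; norm_num) (by simp))
    simpa using h
  refine ⟨B * Real.exp (2 * |v|) * (C * Real.exp (2 * |t|)) * N * Real.exp 64, by positivity, ?_⟩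
  intro s hs1 hs2
  have hk := hB a ha s (by rw [abs_le]; constructor <;> linarith)
  have hre : (s - t * I).re = s.re := by simp
  have him : (s - t * I).im = s.im - t := by simp
  have hY := hC (s - t * I) (by rw [hre]; exact hs1) (by rw [hre]; exact hs2)
  rw [him] at hY
  have hY2 : ‖Y (s - t * I)‖ ≤ C * (Real.exp (2 * |t|) * Real.exp (5 * |s.im|)) := by
    refine hY.trans (mul_le_mul_of_nonneg_left ?_ hC0)
    rw [← Real.exp_add]
    apply Real.exp_le_exp.2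
    have := abs_sub s.im t
    have := abs_nonneg s.im
    linarith
  have hA : ‖Ad N χ (1 - (s - t * I))‖ ≤ N := by
    apply Ad_norm
    rw [sub_re, hre]
    simp
    linarith
  have he : ‖cexp (s * v)‖ ≤ Real.exp (2 * |v|) := by
    rw [Complex.norm_exp]
    apply Real.exp_le_exp.2
    have h1 : (s * (v : ℂ)).re = s.re * v := by simp
    rw [h1]
    have h2 : |s.re| ≤ 2 := by rw [abs_le]; constructor <;> linarith
    calc s.re * v ≤ |s.re * v| := le_abs_self _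
      _ = |s.re| * |v| := abs_mul _ _
      _ ≤ 2 * |v| := mul_le_mul_of_nonneg_right h2 (abs_nonneg v)
  rw [norm_mul, norm_mul, norm_mul]
  have hN0 : (0 : ℝ) ≤ N := Nat.cast_nonneg N
  calc ‖KM 1 a s‖ * ‖cexp (s * v)‖ * (‖Y (s - t * I)‖ * ‖Ad N χ (1 - (s - t * I))‖)
      ≤ (B * (1 + |s.im|) * Real.exp (-1 * s.im ^ 2 / 4)) * Real.exp (2 * |v|) *
        ((C * (Real.exp (2 * |t|) * Real.exp (5 * |s.im|))) * N) := by gcongr
    _ = B * Real.exp (2 * |v|) * (C * Real.exp (2 * |t|)) * N *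
        ((1 + |s.im|) * Real.exp (-1 * s.im ^ 2 / 4) * Real.exp (5 * |s.im|)) := by ring
    _ ≤ B * Real.exp (2 * |v|) * (C * Real.exp (2 * |t|)) * N *
        (Real.exp 64 / (1 + s.im ^ 2)) := by
        apply mul_le_mul_of_nonneg_left (gauss_dec19 s.im)
        positivity
    _ = _ := by ring

theorem TT_dual (b : ℕ) (hb : 2 ≤ b) : ∃ C : ℝ, 1 ≤ C ∧ ∀ (m' a N : ℕ), a ≤ 1 →
    ∀ (χ : DirichletCharacter ℂ (b ^ m')) (t v : ℝ),
    ‖TT 1 a χ t v‖ ≤
      C * Real.exp (v / 2) * (∫ y : ℝ, ‖KM 1 a (((1 / 2 : ℝ) : ℂ) + y * I)‖ *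
        ‖SS (fun n => (ca N n : ℂ)) χ (t - y)‖) +
      C * Real.exp (-(3 / 2) * v) * ((b : ℝ) ^ m') ^ 2 *
        (∫ y : ℝ, ‖KM 1 a (((-(3 / 2) : ℝ) : ℂ) + y * I)‖ * (1 + |t - y|) ^ 2 *
          ‖SS (fun n => (cr N n : ℂ)) χ (t - y)‖) +
      ‖rs χ‖ * ‖KM 1 a (1 + t * I)‖ * Real.exp v := by
  obtain ⟨C, hC1, hCY⟩ := exists_Y b hb
  refine ⟨C, hC1, ?_⟩
  intro m' a N ha χ t v
  have hne : NeZero (b ^ m') := ⟨pow_ne_zero _ (by omega)⟩
  obtain ⟨Y, hYd, hYfe, hYh, hYm, C', hC'⟩ := hCY m' χ hne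
  have hshift := TT_shift χ one_pos ha t v (c := -(3 / 2)) le_rfl (by norm_num)
  obtain ⟨D, hD0, hD⟩ := F_bound19 ha t v N χ hC'
  set F : ℂ → ℂ := fun s => KM 1 a s * cexp (s * v) * (Y (s - t * I) * Ad N χ (1 - (s - t * I)))
    with hF
  -- differentiability
  have hFd : ∀ s : ℂ, s.re < 1 → DifferentiableAt ℂ F s := by
    intro s hs
    have h1 := (KM_diff 1 a) s
    have h2 : DifferentiableAt ℂ (fun s : ℂ => Y (s - t * I)) s := by
      have := hYd (s - t * I) (by simpa using hs)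
      exact DifferentiableAt.comp (f := fun s : ℂ => s - t * I) (g := Y) s this (by fun_prop)
    have h3 : DifferentiableAt ℂ (fun s : ℂ => Ad N χ (1 - (s - t * I))) s :=
      DifferentiableAt.comp (f := fun s : ℂ => 1 - (s - t * I)) (g := Ad N χ) s
        (Ad_diff N χ _) (by fun_prop)
    exact (h1.mul (by fun_prop)).mul (h2.mul h3)
  -- the two parts on the line -3/2
  have hline : ∀ y : ℝ, KM 1 a (((-(3 / 2) : ℝ) : ℂ) + y * I) * cexp ((((-(3 / 2) : ℝ) : ℂ) + y * I) * v) *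
      LFunction χ (((-(3 / 2) : ℝ) : ℂ) + y * I - t * I) =
      F (((-(3 / 2) : ℝ) : ℂ) + y * I) +
      KM 1 a (((-(3 / 2) : ℝ) : ℂ) + y * I) * cexp ((((-(3 / 2) : ℝ) : ℂ) + y * I) * v) *
        (Y (((-(3 / 2) : ℝ) : ℂ) + y * I - t * I) * SS (fun n => (cr N n : ℂ)) χ⁻¹ (-(t - y))) := by
    intro y
    have hre : (((-(3 / 2) : ℝ) : ℂ) + y * I - t * I).re < 0 := by simp
    rw [hYfe _ hre]
    have e : (1 - (((-(3 / 2) : ℝ) : ℂ) + y * I - t * I)) = 5 / 2 + ((t - y : ℝ) : ℂ) * I := by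
      push_cast
      ring
    rw [hF]
    simp only
    rw [e, L_split N χ (t - y)]
    ring
  have hKI := KI_integrable χ one_pos ha t v (c := -(3 / 2)) le_rfl (by norm_num)
  have hI1 : Integrable fun y : ℝ => F (((-(3 / 2) : ℝ) : ℂ) + y * I) := by
    refine ZC.line_integrable (a := -(3 / 2)) (F := F) (C := D) (fun y => ?_) (fun y => ?_)
    · exact (hFd _ (by simp; norm_num)).continuousAt
    · have h1 := hD (((-(3 / 2) : ℝ) : ℂ) + y * I) (by simp) (by simp; norm_num)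
      have h2 : ((((-(3 / 2) : ℝ) : ℂ) + y * I)).im = y := by simp
      rw [h2] at h1
      exact h1
  set G : ℝ → ℂ := fun y => KM 1 a (((-(3 / 2) : ℝ) : ℂ) + y * I) *
    cexp ((((-(3 / 2) : ℝ) : ℂ) + y * I) * v) *
        (Y (((-(3 / 2) : ℝ) : ℂ) + y * I - t * I) * SS (fun n => (cr N n : ℂ)) χ⁻¹ (-(t - y))) with hG
  have hI2 : Integrable G := by
    refine (hKI.sub hI1).congr (Filter.Eventually.of_forall fun y => ?_)
    simp only [Pi.sub_apply]
    rw [hline y]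
    ring
  have hKIeq : KI (-(3 / 2)) 1 a χ t v = (∫ y : ℝ, F (((-(3 / 2) : ℝ) : ℂ) + y * I)) + ∫ y, G y := by
    unfold KI
    rw [← integral_add hI1 hI2]
    exact integral_congr_ae (Filter.Eventually.of_forall fun y => hline y)
  -- shift of the first part
  have hsh : (∫ y : ℝ, F (((-(3 / 2) : ℝ) : ℂ) + y * I)) = ∫ y : ℝ, F (((1 / 2 : ℝ) : ℂ) + y * I) :=
    ZC.strip_shift (by norm_num) (fun s _ h2 => hFd s (by linarith)) hD
  -- continuity and boundedness of the sums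
  have hca0 : ((ca N 0 : ℝ) : ℂ) = 0 := by simp [ca]
  have hcr0 : ((cr N 0 : ℝ) : ℂ) = 0 := by simp [cr]
  have hcac := SS_cont χ (c := fun n => ((ca N n : ℝ) : ℂ)) hca0 (ca_summable N)
  have hcrc := SS_cont χ (c := fun n => ((cr N n : ℝ) : ℂ)) hcr0 (cr_summable N)
  have hcab := SS_norm_le χ (c := fun n => ((ca N n : ℝ) : ℂ)) hca0 (ca_summable N)
  have hcrb := SS_norm_le χ (c := fun n => ((cr N n : ℝ) : ℂ)) hcr0 (cr_summable N)
  set Ma := ∑' n, ‖((ca N n : ℝ) : ℂ)‖ with hMa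
  set Mr := ∑' n, ‖((cr N n : ℝ) : ℂ)‖ with hMr
  have hMa0 : 0 ≤ Ma := tsum_nonneg fun _ => norm_nonneg _
  have hMr0 : 0 ≤ Mr := tsum_nonneg fun _ => norm_nonneg _
  have hKc : Continuous (KM 1 a) := (KM_diff 1 a).continuous
  have hg1 : Integrable fun y : ℝ => ‖KM 1 a (((1 / 2 : ℝ) : ℂ) + y * I)‖ *
        ‖SS (fun n => (ca N n : ℂ)) χ (t - y)‖ := by
    have h0 := (KM_integrable one_pos ha (1 / 2) 0 0).mul_const Ma
    refine h0.mono' ?_ ?_
    · apply Continuous.aestronglyMeasurable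
      exact (hKc.comp (by fun_prop)).norm.mul (hcac.comp (by fun_prop)).norm
    · refine Filter.Eventually.of_forall fun y => ?_
      rw [Real.norm_of_nonneg (by positivity)]
      simp only [pow_zero, mul_one, zero_mul, Real.exp_zero]
      exact mul_le_mul_of_nonneg_left (hcab _) (norm_nonneg _)
  have hg2 : Integrable fun y : ℝ => ‖KM 1 a (((-(3 / 2) : ℝ) : ℂ) + y * I)‖ * (1 + |t - y|) ^ 2 *
          ‖SS (fun n => (cr N n : ℂ)) χ (t - y)‖ := by
    have h0 := (KM_integrable one_pos ha (-(3 / 2)) 2 0).mul_const ((1 + |t|) ^ 2 * Mr)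
    refine h0.mono' ?_ ?_
    · apply Continuous.aestronglyMeasurable
      exact ((hKc.comp (by fun_prop)).norm.mul (by fun_prop)).mul (hcrc.comp (by fun_prop)).norm
    · refine Filter.Eventually.of_forall fun y => ?_
      rw [Real.norm_of_nonneg (by positivity)]
      have h1 : (1 + |t - y|) ≤ (1 + |y|) * (1 + |t|) := by
        have := abs_sub t y
        nlinarith [abs_nonneg t, abs_nonneg y, mul_nonneg (abs_nonneg t) (abs_nonneg y)]
      have h2 : (1 + |t - y|) ^ 2 ≤ (1 + |y|) ^ 2 * (1 + |t|) ^ 2 := by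
        rw [← mul_pow]
        exact pow_le_pow_left₀ (by positivity) h1 2
      have h3 := hcrb (t - y)
      calc ‖KM 1 a (((-(3 / 2) : ℝ) : ℂ) + y * I)‖ * (1 + |t - y|) ^ 2 *
          ‖SS (fun n => (cr N n : ℂ)) χ (t - y)‖
          ≤ ‖KM 1 a (((-(3 / 2) : ℝ) : ℂ) + y * I)‖ * ((1 + |y|) ^ 2 * (1 + |t|) ^ 2) * Mr := by
            gcongr
        _ = _ := by
            rw [zero_mul, Real.exp_zero]
            ring
  -- bounds of the two integrals
  have hb1 : ‖∫ y : ℝ, F (((1 / 2 : ℝ) : ℂ) + y * I)‖ ≤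
      C * Real.exp (v / 2) * (∫ y : ℝ, ‖KM 1 a (((1 / 2 : ℝ) : ℂ) + y * I)‖ *
        ‖SS (fun n => (ca N n : ℂ)) χ (t - y)‖) := by
    rw [← integral_const_mul]
    refine norm_integral_le_of_norm_le (hg1.const_mul _) (Filter.Eventually.of_forall fun y => ?_)
    rw [hF]
    simp only
    have e1 : (((1 / 2 : ℝ) : ℂ) + y * I - t * I) = 1 / 2 + ((y - t : ℝ) : ℂ) * I := by
      push_cast
      ring
    have e2 : (1 - (1 / 2 + ((y - t : ℝ) : ℂ) * I)) = 1 / 2 + ((t - y : ℝ) : ℂ) * I := by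
      push_cast
      ring
    rw [e1, e2, norm_mul, norm_mul, norm_mul, Ad_half N χ (t - y)]
    have h1 := hYh (y - t)
    have h2 : ‖cexp ((((1 / 2 : ℝ) : ℂ) + y * I) * v)‖ = Real.exp (v / 2) := by
      rw [Complex.norm_exp]
      congr 1
      simp
      ring
    rw [h2]
    calc ‖KM 1 a (((1 / 2 : ℝ) : ℂ) + y * I)‖ * Real.exp (v / 2) *
        (‖Y (1 / 2 + ((y - t : ℝ) : ℂ) * I)‖ * ‖SS (fun n => (ca N n : ℂ)) χ (t - y)‖)
        ≤ ‖KM 1 a (((1 / 2 : ℝ) : ℂ) + y * I)‖ * Real.exp (v / 2) *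
        (C * ‖SS (fun n => (ca N n : ℂ)) χ (t - y)‖) := by gcongr
      _ = _ := by ring
  have hb2 : ‖∫ y, G y‖ ≤ C * Real.exp (-(3 / 2) * v) * ((b : ℝ) ^ m') ^ 2 *
        (∫ y : ℝ, ‖KM 1 a (((-(3 / 2) : ℝ) : ℂ) + y * I)‖ * (1 + |t - y|) ^ 2 *
          ‖SS (fun n => (cr N n : ℂ)) χ (t - y)‖) := by
    rw [← integral_const_mul]
    refine norm_integral_le_of_norm_le (hg2.const_mul _) (Filter.Eventually.of_forall fun y => ?_)
    rw [hG]
    simp only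
    have e1 : (((-(3 / 2) : ℝ) : ℂ) + y * I - t * I) = -(3 / 2) + ((y - t : ℝ) : ℂ) * I := by
      push_cast
      ring
    rw [e1, norm_mul, norm_mul, norm_mul, SS_conj χ (cr N) (t - y)]
    have h1 := hYm (y - t)
    rw [abs_sub_comm] at h1
    have h2 : ‖cexp ((((-(3 / 2) : ℝ) : ℂ) + y * I) * v)‖ = Real.exp (-(3 / 2) * v) := by
      rw [Complex.norm_exp]
      congr 1
      simp
    rw [h2]
    calc ‖KM 1 a (((-(3 / 2) : ℝ) : ℂ) + y * I)‖ * Real.exp (-(3 / 2) * v) *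
        (‖Y (-(3 / 2) + ((y - t : ℝ) : ℂ) * I)‖ * ‖SS (fun n => (cr N n : ℂ)) χ (t - y)‖)
        ≤ ‖KM 1 a (((-(3 / 2) : ℝ) : ℂ) + y * I)‖ * Real.exp (-(3 / 2) * v) *
        ((C * ((b : ℝ) ^ m') ^ 2 * (1 + |t - y|) ^ 2) * ‖SS (fun n => (cr N n : ℂ)) χ (t - y)‖) := by
          gcongr
      _ = _ := by ring
  -- end
  have hpi : (1 : ℝ) ≤ 2 * Real.pi := by have := Real.pi_gt_three; linarith
  have hpi0 : (0 : ℝ) < 2 * Real.pi := by linarith
  have hn := congrArg norm hshift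
  rw [hKIeq, hsh] at hn
  have hl : ‖(2 * (Real.pi : ℂ)) * TT 1 a χ t v‖ = 2 * Real.pi * ‖TT 1 a χ t v‖ := by
    rw [norm_mul]
    congr 1
    rw [norm_mul, Complex.norm_real, Real.norm_of_nonneg Real.pi_pos.le]
    simp
  have hr : ‖(2 * (Real.pi : ℂ)) * (rs χ * KM 1 a (1 + t * I) * cexp ((1 + t * I) * v))‖ =
      2 * Real.pi * (‖rs χ‖ * ‖KM 1 a (1 + t * I)‖ * Real.exp v) := by
    rw [norm_mul, norm_mul, norm_mul, norm_mul, Complex.norm_real, Real.norm_of_nonneg Real.pi_pos.le,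
      Complex.norm_exp]
    have h1 : ((1 + (t : ℂ) * I) * (v : ℂ)).re = v := by simp
    have h2 : ‖(2 : ℂ)‖ = 2 := by simp
    rw [h1, h2]
  rw [hl] at hn
  have hfin := (norm_add_le ((∫ y : ℝ, F (((1 / 2 : ℝ) : ℂ) + y * I)) + ∫ y, G y)
    ((2 * (Real.pi : ℂ)) * (rs χ * KM 1 a (1 + t * I) * cexp ((1 + t * I) * v))))
  have hfin2 := norm_add_le (∫ y : ℝ, F (((1 / 2 : ℝ) : ℂ) + y * I)) (∫ y, G y)
  rw [← hn, hr] at hfin
  set X1 := C * Real.exp (v / 2) * (∫ y : ℝ, ‖KM 1 a (((1 / 2 : ℝ) : ℂ) + y * I)‖ *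
        ‖SS (fun n => (ca N n : ℂ)) χ (t - y)‖) with hX1
  set X2 := C * Real.exp (-(3 / 2) * v) * ((b : ℝ) ^ m') ^ 2 *
        (∫ y : ℝ, ‖KM 1 a (((-(3 / 2) : ℝ) : ℂ) + y * I)‖ * (1 + |t - y|) ^ 2 *
          ‖SS (fun n => (cr N n : ℂ)) χ (t - y)‖) with hX2
  set X3 := ‖rs χ‖ * ‖KM 1 a (1 + t * I)‖ * Real.exp v with hX3
  have hX1' : 0 ≤ X1 := (norm_nonneg _).trans hb1
  have hX2' : 0 ≤ X2 := (norm_nonneg _).trans hb2
  have hkey : 2 * Real.pi * ‖TT 1 a χ t v‖ ≤ 2 * Real.pi * (X1 + X2 + X3) := by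
    have h5 : X1 + X2 ≤ 2 * Real.pi * (X1 + X2) := by nlinarith
    linarith
  exact le_of_mul_le_mul_left hkey hpi0

end Pool.Agent.HPP
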