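import Pool.Agent.HPP.LDefs

/-!
# HPP/LMel: the kernel `KM` (inverse Laplace transform of a Gaussian)

* `KM_inv`, `a = 0`: `KM j 0 (c + y i) exp (-(c + y i) u) = sqrt (π j) exp (j (c + y i)² / 4 - (c + y i) u)` is the
  exponential of a quadratic polynomial in `y` with leading coefficient `- j / 4`: Mathlib's
  `integral_cexp_quadratic` (or `integral_cexp_neg_mul_sq_add_const`...). The value of the integral is
  `sqrt (π j) * sqrt (4 π / j) exp (-u² / j) = 2 π exp (-u² / j)`.
* `a = 1`: `∂/∂y exp (j s² / 4 - s u) = i (j s / 2 - u) exp (j s² / 4 - s u)`, `s = c + y i`; the integral of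
  this derivative is `0` (`integral_of_hasDerivAt_of_tendsto` or
  `integral_eq_zero_of_hasDerivAt_of_integrable`), so the integral for `a = 1` is `u` times that for `a = 0`.
* `KM_norm`: `‖exp (j s² / 4)‖ = exp (j (re s ² - im s ²) / 4)`.
* `KM_integrable`: the integrand is dominated by `C (1 + |y|)^(N + 1) exp (-j y² / 4)`.
-/

namespace Pool.Agent.HPP

open Complex MeasureTheory

theorem KM_norm {j : ℝ} (hj : 0 < j) (a : ℕ) (s : ℂ) :
    ‖KM j a s‖ = (j * ‖s‖ / 2) ^ a * Real.sqrt (Real.pi * j) *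
      Real.exp (j * (s.re ^ 2 - s.im ^ 2) / 4) := by
  unfold KM
  rw [norm_mul, norm_mul, norm_pow, norm_div, norm_mul, Complex.norm_real, Complex.norm_real,
    Complex.norm_exp, Real.norm_of_nonneg hj.le, Real.norm_of_nonneg (Real.sqrt_nonneg _)]
  have h1 : ‖(2 : ℂ)‖ = 2 := by simp
  have h2 : ((j : ℂ) * s ^ 2 / 4).re = j * (s.re ^ 2 - s.im ^ 2) / 4 := by
    have : (j : ℂ) * s ^ 2 / 4 = ((j / 4 : ℝ) : ℂ) * s ^ 2 := by push_cast; ring
    rw [this, Complex.re_ofReal_mul, pow_two, Complex.mul_re]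
    ring
  rw [h1, h2]

theorem KM_diff (j : ℝ) (a : ℕ) : Differentiable ℂ (KM j a) := by
  unfold KM
  fun_prop

/-- `‖KM(c + iy)‖ ≤ C (1 + |y|) exp (-j y² / 4)` for `|c| ≤ 2` -/
theorem KM_bound' {j : ℝ} (hj : 0 < j) (B : ℝ) : ∃ C : ℝ, 1 ≤ C ∧ ∀ a : ℕ, a ≤ 1 → ∀ s : ℂ,
    |s.re| ≤ B →
    ‖KM j a s‖ ≤ C * (1 + |s.im|) * Real.exp (-j * s.im ^ 2 / 4) := by
  refine ⟨1 + (1 + j * (|B| + 1) / 2) * Real.sqrt (Real.pi * j) * Real.exp (j * B ^ 2 / 4), ?_, ?_⟩
  · have : 0 ≤ (1 + j * (|B| + 1) / 2) * Real.sqrt (Real.pi * j) * Real.exp (j * B ^ 2 / 4) := by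
      positivity
    linarith
  intro a ha s hs
  rw [KM_norm hj]
  have hB0 : 0 ≤ B := (abs_nonneg _).trans hs
  have hns : ‖s‖ ≤ |B| + |s.im| := by
    refine (Complex.norm_le_abs_re_add_abs_im s).trans ?_
    have : B ≤ |B| := le_abs_self B
    linarith
  have h1 : (j * ‖s‖ / 2) ^ a ≤ (1 + j * (|B| + 1) / 2) * (1 + |s.im|) := by
    have h2 : (j * ‖s‖ / 2) ^ a ≤ 1 + j * ‖s‖ / 2 := by
      have h0 : 0 ≤ j * ‖s‖ / 2 := by positivity
      interval_cases a
      · simpa using h0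
      · linarith [pow_one (j * ‖s‖ / 2)]
    refine h2.trans ?_
    have h3 : j * ‖s‖ / 2 ≤ j * (|B| + |s.im|) / 2 := by
      have := mul_le_mul_of_nonneg_left hns hj.le
      linarith
    have h4 : 0 ≤ |s.im| := abs_nonneg _
    have h5 : 0 ≤ |B| := abs_nonneg _
    have h6 : 0 ≤ j * |B| * |s.im| := by positivity
    nlinarith [h3, h4, h5, h6]
  have h7 : Real.exp (j * (s.re ^ 2 - s.im ^ 2) / 4) ≤
      Real.exp (j * B ^ 2 / 4) * Real.exp (-j * s.im ^ 2 / 4) := by
    rw [← Real.exp_add]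
    apply Real.exp_le_exp.2
    have h8 : s.re ^ 2 ≤ B ^ 2 := by
      rw [← sq_abs s.re]
      exact pow_le_pow_left₀ (abs_nonneg _) hs 2
    have := mul_le_mul_of_nonneg_left h8 hj.le
    linarith
  calc (j * ‖s‖ / 2) ^ a * Real.sqrt (Real.pi * j) * Real.exp (j * (s.re ^ 2 - s.im ^ 2) / 4)
      ≤ ((1 + j * (|B| + 1) / 2) * (1 + |s.im|)) * Real.sqrt (Real.pi * j) *
        (Real.exp (j * B ^ 2 / 4) * Real.exp (-j * s.im ^ 2 / 4)) := by
        gcongr
    _ = ((1 + j * (|B| + 1) / 2) * Real.sqrt (Real.pi * j) * Real.exp (j * B ^ 2 / 4)) *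
        (1 + |s.im|) * Real.exp (-j * s.im ^ 2 / 4) := by ring
    _ ≤ _ := by
        have : 0 ≤ (1 + |s.im|) * Real.exp (-j * s.im ^ 2 / 4) := by positivity
        nlinarith [this]

/-- `‖KM(c + iy)‖ ≤ C (1 + |y|) exp (-j y² / 4)` for `|c| ≤ 2` -/
theorem KM_bound {j : ℝ} (hj : 0 < j) : ∃ C : ℝ, 1 ≤ C ∧ ∀ a : ℕ, a ≤ 1 → ∀ s : ℂ, |s.re| ≤ 2 →
    ‖KM j a s‖ ≤ C * (1 + |s.im|) * Real.exp (-j * s.im ^ 2 / 4) :=
  KM_bound' hj 2

/-- moments of the kernel on a line -/
theorem KM_integrable {j : ℝ} (hj : 0 < j) {a : ℕ} (ha : a ≤ 1) (c : ℝ) (N : ℕ) (A : ℝ) :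
    Integrable fun y : ℝ => ‖KM j a (c + y * I)‖ * (1 + |y|) ^ N * Real.exp (A * |y|) := by
  obtain ⟨C, hC1, hC⟩ := KM_bound' hj |c|
  set B : ℝ := N + 1 + |A| with hB
  have hB0 : 0 ≤ B := by positivity
  have hG : Integrable fun y : ℝ => C * Real.exp (2 * B ^ 2 / j) * Real.exp (-(j / 8) * y ^ 2) :=
    (integrable_exp_neg_mul_sq (by positivity)).const_mul _
  refine hG.mono' ?_ ?_
  · apply Continuous.aestronglyMeasurable
    have := (KM_diff j a).continuous
    fun_prop
  · refine Filter.Eventually.of_forall fun y => ?_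
    have hre : ((c : ℂ) + y * I).re = c := by simp
    have him : ((c : ℂ) + y * I).im = y := by simp
    have h1 := hC a ha (c + y * I) (by rw [hre])
    rw [him] at h1
    have h2 : (1 + |y|) ≤ Real.exp |y| := by
      have := Real.add_one_le_exp |y|
      linarith
    have h3 : (1 + |y|) ^ (N + 1) ≤ Real.exp ((N + 1) * |y|) := by
      have := pow_le_pow_left₀ (by positivity) h2 (N + 1)
      refine this.trans (le_of_eq ?_)
      rw [← Real.exp_nat_mul]
      push_cast
      ring_nf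
    have h4 : Real.exp (A * |y|) ≤ Real.exp (|A| * |y|) :=
      Real.exp_le_exp.2 (mul_le_mul_of_nonneg_right (le_abs_self A) (abs_nonneg y))
    rw [Real.norm_of_nonneg (by positivity)]
    calc ‖KM j a (c + y * I)‖ * (1 + |y|) ^ N * Real.exp (A * |y|)
        ≤ (C * (1 + |y|) * Real.exp (-j * y ^ 2 / 4)) * (1 + |y|) ^ N * Real.exp (|A| * |y|) := by
          gcongr
      _ = C * (1 + |y|) ^ (N + 1) * (Real.exp (-j * y ^ 2 / 4) * Real.exp (|A| * |y|)) := by ring
      _ ≤ C * Real.exp ((N + 1) * |y|) * (Real.exp (-j * y ^ 2 / 4) * Real.exp (|A| * |y|)) := by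
          gcongr
      _ = C * Real.exp (B * |y| - j * y ^ 2 / 4) := by
          rw [mul_assoc, ← Real.exp_add, ← Real.exp_add]
          congr 2
          rw [hB]
          ring
      _ ≤ C * Real.exp (2 * B ^ 2 / j + -(j / 8) * y ^ 2) := by
          gcongr
          have h5 : 0 ≤ (4 * B - j * |y|) ^ 2 / (8 * j) := by positivity
          have h6 : (4 * B - j * |y|) ^ 2 / (8 * j) = 2 * B ^ 2 / j - B * |y| + j / 8 * |y| ^ 2 := by
            field_simp
            ring
          have h7 : |y| ^ 2 = y ^ 2 := sq_abs y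
          rw [h6, h7] at h5
          linarith
      _ = C * Real.exp (2 * B ^ 2 / j) * Real.exp (-(j / 8) * y ^ 2) := by
          rw [Real.exp_add]
          ring

theorem KM_inv {j : ℝ} (hj : 0 < j) {a : ℕ} (ha : a ≤ 1) (c u : ℝ) :
    ∫ y : ℝ, KM j a (c + y * I) * cexp (-(c + y * I) * u) =
      2 * Real.pi * ((u ^ a * Real.exp (-u ^ 2 / j) : ℝ) : ℂ) := by
  have hj' : (j : ℂ) ≠ 0 := by exact_mod_cast hj.ne'
  -- integrability
  have hint : ∀ b : ℕ, b ≤ 1 → Integrable fun y : ℝ =>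
      KM j b (c + y * I) * cexp (-(c + y * I) * u) := by
    intro b hb
    have h1 := KM_integrable hj hb c 0 0
    have h2 : Integrable fun y : ℝ => ‖KM j b (c + y * I)‖ * Real.exp (-c * u) := by
      refine (h1.mul_const (Real.exp (-c * u))).congr (Filter.Eventually.of_forall fun y => ?_)
      simp
    refine h2.mono' ?_ ?_
    · apply Continuous.aestronglyMeasurable
      have := (KM_diff j b).continuous
      fun_prop
    · refine Filter.Eventually.of_forall fun y => ?_
      rw [norm_mul, Complex.norm_exp]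
      have : (-((c : ℂ) + y * I) * u).re = -c * u := by simp
      rw [this]
  -- case `a = 0`
  have h0 : ∫ y : ℝ, KM j 0 (c + y * I) * cexp (-(c + y * I) * u) =
      2 * Real.pi * ((Real.exp (-u ^ 2 / j) : ℝ) : ℂ) := by
    have hb : (-(j : ℂ) / 4).re < 0 := by
      have : (-(j : ℂ) / 4) = ((-j / 4 : ℝ) : ℂ) := by push_cast; ring
      rw [this, Complex.ofReal_re]
      linarith
    have h1 : ∀ y : ℝ, KM j 0 (c + y * I) * cexp (-(c + y * I) * u) =
        (Real.sqrt (Real.pi * j) : ℂ) * cexp (-(j : ℂ) / 4 * y ^ 2 + (j * c / 2 - u) * I * y +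
          (j * c ^ 2 / 4 - c * u)) := by
      intro y
      unfold KM
      rw [pow_zero, one_mul, mul_assoc, ← Complex.exp_add]
      congr 2
      have hI : I ^ 2 = -1 := Complex.I_sq
      linear_combination (j * y ^ 2 / 4 : ℂ) * hI
    simp_rw [h1]
    rw [integral_const_mul, integral_cexp_quadratic hb]
    have h2 : ((j : ℂ) * c ^ 2 / 4 - c * u) - ((j * c / 2 - u) * I) ^ 2 / (4 * (-(j : ℂ) / 4)) =
        ((-u ^ 2 / j : ℝ) : ℂ) := by
      push_cast
      field_simp
      have hI : I ^ 2 = -1 := Complex.I_sq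
      rw [hI]
      ring
    rw [h2, Complex.ofReal_exp, ← mul_assoc]
    congr 1
    have h3 : (Real.pi : ℂ) / -(-(j : ℂ) / 4) = ((4 * Real.pi / j : ℝ) : ℂ) := by
      push_cast
      field_simp
    rw [h3]
    have h4 : (((4 * Real.pi / j : ℝ) : ℂ)) ^ (1 / 2 : ℂ) = ((Real.sqrt (4 * Real.pi / j) : ℝ) : ℂ) := by
      rw [Real.sqrt_eq_rpow, Complex.ofReal_cpow (by positivity)]
      norm_num
    rw [h4, ← Complex.ofReal_mul, ← Real.sqrt_mul (by positivity)]
    have h5 : Real.pi * j * (4 * Real.pi / j) = (2 * Real.pi) ^ 2 := by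
      field_simp
      ring
    rw [h5, Real.sqrt_sq (by positivity)]
    push_cast
    ring
  interval_cases a
  · rw [h0]
    simp
  · -- derivative
    have hder : ∀ y : ℝ, HasDerivAt (fun y : ℝ => KM j 0 (c + y * I) * cexp (-(c + y * I) * u))
        (I * (KM j 1 (c + y * I) * cexp (-(c + y * I) * u)) -
          I * u * (KM j 0 (c + y * I) * cexp (-(c + y * I) * u))) y := by
      intro y
      have hs : HasDerivAt (fun y : ℝ => ((c : ℂ) + y * I)) I y := by
        have := ((Complex.ofRealCLM.hasDerivAt (x := y)).mul_const I).const_add (c : ℂ)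
        simpa using this
      have h1 : HasDerivAt (fun y : ℝ => (j : ℂ) * ((c : ℂ) + y * I) ^ 2 / 4)
          ((j : ℂ) * (2 * ((c : ℂ) + y * I) * I) / 4) y := by
        have := ((hs.pow 2).const_mul (j : ℂ)).div_const 4
        simpa using this
      have h2 : HasDerivAt (fun y : ℝ => -((c : ℂ) + y * I) * u) (-I * u) y := by
        have := (hs.neg).mul_const (u : ℂ)
        simpa using this
      have h3 : HasDerivAt (fun y : ℝ => cexp ((j : ℂ) * ((c : ℂ) + y * I) ^ 2 / 4 +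
          -((c : ℂ) + y * I) * u))
          (cexp ((j : ℂ) * ((c : ℂ) + y * I) ^ 2 / 4 + -((c : ℂ) + y * I) * u) *
            ((j : ℂ) * (2 * ((c : ℂ) + y * I) * I) / 4 + -I * u)) y := (h1.add h2).cexp
      have h4 := h3.const_mul (Real.sqrt (Real.pi * j) : ℂ)
      have h5 : (fun y : ℝ => KM j 0 (c + y * I) * cexp (-(c + y * I) * u)) = fun y : ℝ =>
          (Real.sqrt (Real.pi * j) : ℂ) * cexp ((j : ℂ) * ((c : ℂ) + y * I) ^ 2 / 4 +
          -((c : ℂ) + y * I) * u) := by
        funext y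
        unfold KM
        rw [pow_zero, one_mul, mul_assoc, ← Complex.exp_add]
      rw [h5]
      refine h4.congr_deriv ?_
      unfold KM
      rw [pow_zero, pow_one, Complex.exp_add]
      ring
    have hi1 := hint 1 le_rfl
    have hi0 := hint 0 (by norm_num)
    have hd : Integrable fun y : ℝ => (I * (KM j 1 (c + y * I) * cexp (-(c + y * I) * u)) -
          I * u * (KM j 0 (c + y * I) * cexp (-(c + y * I) * u))) :=
      (hi1.const_mul I).sub (hi0.const_mul (I * u))
    have hz := integral_eq_zero_of_hasDerivAt_of_integrable hder hd hi0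
    rw [integral_sub (hi1.const_mul I) (hi0.const_mul (I * u)), integral_const_mul,
      integral_const_mul, h0] at hz
    have hI : I ≠ 0 := Complex.I_ne_zero
    have h6 : I * (∫ y : ℝ, KM j 1 (c + y * I) * cexp (-(c + y * I) * u)) =
        I * (u * (2 * Real.pi * ((Real.exp (-u ^ 2 / j) : ℝ) : ℂ))) := by
      linear_combination hz
    have h7 := mul_left_cancel₀ hI h6
    rw [h7]
    push_cast
    ring

end Pool.Agent.HPP
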