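import Pool.Agent.HPP.VPow

/-!
# HPP/VPt: pointwise bound for smooth factors (types `1` and `log`)

PROOF. `w₁(y) = uw y exp (y²)` is `C^∞` with compact support; Fourier inversion `w₁(y) = ∫ ŵ(ξ) exp (2πiξy) dξ`, `ŵ` Schwartz
(rapid decay: `|ŵ(ξ)| ≤ C_N (1+|ξ|)^(-N)`; Mathlib: `HasCompactSupport` + smooth gives a `SchwartzMap`, its Fourier transform is a
`SchwartzMap`). So `uw (log n - v) = ∫ ŵ(ξ) exp (-2πiξv) n^(2πiξ) gw 1 v n dξ` (`n ≥ 1`) and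
`DP (pc (log^a) v) χ t = ∫ ŵ(ξ) exp (-2πiξv) SS ((log n)^a gw 1 v n) χ (t + 2πξ) dξ`
(exchange of the absolutely convergent sum and integral). Insert `PVProp` (`j = 1`): `√(1+|t+2πξ|) ≤ √(1+|t|) √(1+7|ξ|)`,
`log (Q (2+|t+2πξ|)) ≤ log (Q (2+|t|)) + log (1+7|ξ|)`; the pole term `exp (v - (t+2πξ)²/C)` is
`≤ C' exp v (1+|t+2πξ|)^(-A) ≤ C' exp v (1+|t|)^(-A) (1+7|ξ|)^A`.
-/

namespace Pool.Agent.HPP

open Complex MeasureTheory FourierTransform SchwartzMap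

/-- the modified bump -/
private noncomputable def vpW (y : ℝ) : ℂ := ((uw y * Real.exp (y ^ 2) : ℝ) : ℂ)

private theorem vpW_cd : ContDiff ℝ ((⊤ : ℕ∞) : WithTop ℕ∞) vpW :=
  ofRealCLM.contDiff.comp (uw_contDiff.mul (Real.contDiff_exp.comp (contDiff_id.pow 2)))

private theorem vpW_cs : HasCompactSupport vpW := by
  refine HasCompactSupport.intro (isCompact_Icc : IsCompact (Set.Icc (-1 : ℝ) 1)) fun y hy => ?_
  have h : 1 ≤ |y| := by
    by_contra h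
    exact hy ⟨(abs_lt.1 (not_le.1 h)).1.le, (abs_lt.1 (not_le.1 h)).2.le⟩
  simp [vpW, uw_zero h]

private noncomputable def vpS : 𝓢(ℝ, ℂ) := vpW_cs.toSchwartzMap vpW_cd

private noncomputable def vpH : 𝓢(ℝ, ℂ) := 𝓕 vpS

private theorem vp_inv (y : ℝ) :
    ∫ ξ : ℝ, cexp ((2 * Real.pi * (ξ * y) : ℝ) * I) * vpH ξ = vpW y := by
  have h1 : 𝓕⁻ (𝓕 (vpS : ℝ → ℂ)) = (vpS : ℝ → ℂ) := by
    refine vpS.continuous.fourierInv_fourier_eq vpS.integrable ?_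
    exact vpH.integrable
  have h2 := congrFun h1 y
  have h3 : (vpS : ℝ → ℂ) y = vpW y := rfl
  rw [h3, Real.fourierInv_eq'] at h2
  rw [← h2]
  refine integral_congr_ae (Filter.Eventually.of_forall fun ξ => ?_)
  have h4 : (inner ℝ ξ y : ℝ) = ξ * y := by
    simp [mul_comm]
  show _ = cexp (((2 * Real.pi * inner ℝ ξ y : ℝ) : ℂ) * I) • (𝓕 (vpS : ℝ → ℂ)) ξ
  rw [h4]
  rfl

private theorem vp_gs {a : ℕ} (ha : a ≤ 1) (v : ℝ) (n : ℕ) :
    |(Real.log n) ^ a * gw 1 v n| ≤ Real.exp (9 / 4 + 3 * v) * ((n : ℝ) ^ 2)⁻¹ := by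
  rcases Nat.eq_zero_or_pos n with rfl | hn
  · simp [gw]
  have hL : 0 ≤ Real.log n := Real.log_natCast_nonneg n
  have hn' : (0 : ℝ) < n := by exact_mod_cast hn
  have hg : gw 1 v n = Real.exp (-(Real.log n - v) ^ 2) := by
    unfold gw
    rw [if_neg hn.ne', div_one]
  rw [hg, abs_of_nonneg (by positivity)]
  have h1 : (Real.log n) ^ a ≤ Real.exp (Real.log n) := by
    have h := Real.add_one_le_exp (Real.log n)
    interval_cases a
    · simp only [pow_zero]; linarith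
    · simp only [pow_one]; linarith
  have h2 : ((n : ℝ) ^ 2)⁻¹ = Real.exp (-(2 * Real.log n)) := by
    rw [Real.exp_neg, two_mul, Real.exp_add, Real.exp_log hn', sq]
  calc (Real.log n) ^ a * Real.exp (-(Real.log n - v) ^ 2)
      ≤ Real.exp (Real.log n) * Real.exp (-(Real.log n - v) ^ 2) := by gcongr
    _ = Real.exp (Real.log n + -(Real.log n - v) ^ 2) := (Real.exp_add _ _).symm
    _ ≤ Real.exp (9 / 4 + 3 * v + -(2 * Real.log n)) := by
        apply Real.exp_le_exp.2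
        nlinarith [sq_nonneg (Real.log n - v - 3 / 2)]
    _ = _ := by rw [Real.exp_add, h2]

private theorem vp_sq_summable (K : ℝ) : Summable fun n : ℕ => K * ((n : ℝ) ^ 2)⁻¹ :=
  (Real.summable_nat_pow_inv.2 (by norm_num)).mul_left K

/-- the integrand -/
private noncomputable def vpf {Q : ℕ} (a : ℕ) (χ : DirichletCharacter ℂ Q) (t v : ℝ) (n : ℕ)
    (ξ : ℝ) : ℂ :=
  vpH ξ * cexp ((-(2 * Real.pi * ξ * v) : ℝ) * I) *
    ((((Real.log n) ^ a * gw 1 v n : ℝ) : ℂ) * χ (n : ZMod Q) *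
      (n : ℂ) ^ (((t + 2 * Real.pi * ξ : ℝ) : ℂ) * I))

private theorem vpf_eq {Q : ℕ} (a : ℕ) (χ : DirichletCharacter ℂ Q) (t v : ℝ) {n : ℕ}
    (hn : n ≠ 0) (ξ : ℝ) : vpf a χ t v n ξ =
    (((((Real.log n) ^ a * gw 1 v n : ℝ) : ℂ) * χ (n : ZMod Q)) * (n : ℂ) ^ ((t : ℂ) * I)) *
      (cexp ((2 * Real.pi * (ξ * (Real.log n - v)) : ℝ) * I) * vpH ξ) := by
  have hn' : (n : ℂ) ≠ 0 := by exact_mod_cast hn
  unfold vpf
  rw [Complex.cpow_def_of_ne_zero hn', Complex.cpow_def_of_ne_zero hn']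
  have e1 : cexp (Complex.log n * (((t + 2 * Real.pi * ξ : ℝ) : ℂ) * I)) =
      cexp (Complex.log n * ((t : ℂ) * I)) *
        cexp (((2 * Real.pi * ξ * Real.log n : ℝ) : ℂ) * I) := by
    rw [← Complex.exp_add]
    congr 1
    rw [← Complex.natCast_log]
    push_cast
    ring
  have e2 : cexp ((2 * Real.pi * (ξ * (Real.log n - v)) : ℝ) * I) =
      cexp (((2 * Real.pi * ξ * Real.log n : ℝ) : ℂ) * I) *
        cexp ((-(2 * Real.pi * ξ * v) : ℝ) * I) := by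
    rw [← Complex.exp_add]
    congr 1
    push_cast
    ring
  rw [e1, e2]
  ring

private theorem vpf_zero {Q : ℕ} (a : ℕ) (χ : DirichletCharacter ℂ Q) (t v ξ : ℝ) :
    vpf a χ t v 0 ξ = 0 := by
  simp [vpf, gw]

private theorem vpf_norm {Q : ℕ} {a : ℕ} (ha : a ≤ 1) (χ : DirichletCharacter ℂ Q) (t v : ℝ)
    (n : ℕ) (ξ : ℝ) :
    ‖vpf a χ t v n ξ‖ ≤ Real.exp (9 / 4 + 3 * v) * ((n : ℝ) ^ 2)⁻¹ * ‖vpH ξ‖ := by
  rcases Nat.eq_zero_or_pos n with rfl | hn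
  · rw [vpf_zero]; simp
  unfold vpf
  rw [norm_mul, norm_mul, Complex.norm_exp_ofReal_mul_I, mul_one, norm_mul, norm_mul,
    Complex.norm_real, Real.norm_eq_abs, Complex.norm_natCast_cpow_of_pos hn]
  have h1 : (((t + 2 * Real.pi * ξ : ℝ) : ℂ) * I).re = 0 := by simp
  rw [h1, Real.rpow_zero, mul_one, mul_comm]
  refine mul_le_mul_of_nonneg_right ?_ (norm_nonneg _)
  calc |(Real.log n) ^ a * gw 1 v n| * ‖χ (n : ZMod Q)‖
      ≤ |(Real.log n) ^ a * gw 1 v n| * 1 := by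
        gcongr
        exact DirichletCharacter.norm_le_one χ _
    _ ≤ _ := by rw [mul_one]; exact vp_gs ha v n

private theorem vpf_int {Q : ℕ} (a : ℕ) (χ : DirichletCharacter ℂ Q) (t v : ℝ) (n : ℕ) :
    Integrable (vpf a χ t v n) := by
  rcases eq_or_ne n 0 with rfl | hn
  · have : vpf a χ t v 0 = fun _ => 0 := funext fun ξ => vpf_zero a χ t v ξ
    rw [this]
    exact integrable_zero _ _ _
  have : vpf a χ t v n = fun ξ => _ := funext fun ξ => vpf_eq a χ t v hn ξ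
  rw [this]
  refine Integrable.const_mul ?_ _
  refine vpH.integrable.norm.mono' ?_ (Filter.Eventually.of_forall fun ξ => ?_)
  · exact (Continuous.mul (by fun_prop) vpH.continuous).aestronglyMeasurable
  · rw [norm_mul, Complex.norm_exp_ofReal_mul_I, one_mul]

private theorem vpf_integral {Q : ℕ} (F : ArithmeticFunction ℝ) (a : ℕ)
    (hF : ∀ n : ℕ, n ≠ 0 → F n = (Real.log n) ^ a) (χ : DirichletCharacter ℂ Q) (t : ℝ) (v n : ℕ) :
    ∫ ξ, vpf a χ t v n ξ = ((pc F v n : ℝ) : ℂ) * χ (n : ZMod Q) * (n : ℂ) ^ ((t : ℂ) * I) := by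
  rcases eq_or_ne n 0 with rfl | hn
  · simp [vpf_zero]
  simp_rw [vpf_eq a χ t v hn]
  rw [integral_const_mul, vp_inv, pc_apply, hF n hn]
  have hg : gw 1 v n = Real.exp (-(Real.log n - v) ^ 2) := by
    unfold gw
    rw [if_neg hn, div_one]
  have h1 : gw 1 v n * (uw (Real.log n - v) * Real.exp ((Real.log n - v) ^ 2)) =
      uw (Real.log n - v) := by
    rw [hg, mul_comm, mul_assoc, ← Real.exp_add]
    simp
  unfold vpW
  calc _ = (((Real.log n) ^ a * (gw 1 v n * (uw (Real.log n - v) *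
        Real.exp ((Real.log n - v) ^ 2))) : ℝ) : ℂ) * χ (n : ZMod Q) *
        (n : ℂ) ^ ((t : ℂ) * I) := by
        push_cast
        ring
    _ = _ := by rw [h1]

private theorem vp_dp {Q : ℕ} (F : ArithmeticFunction ℝ) {a : ℕ} (ha : a ≤ 1)
    (hF : ∀ n : ℕ, n ≠ 0 → F n = (Real.log n) ^ a) (χ : DirichletCharacter ℂ Q) (t : ℝ) (v : ℕ) :
    DP (pc F v) χ t = ∫ ξ : ℝ, vpH ξ * cexp ((-(2 * Real.pi * ξ * v) : ℝ) * I) *
      SS (fun n => (((Real.log n) ^ a * gw 1 v n : ℝ) : ℂ)) χ (t + 2 * Real.pi * ξ) := by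
  have h1 : DP (pc F v) χ t = ∑' n : ℕ, ∫ ξ, vpf a χ t v n ξ := by
    unfold DP SS
    exact tsum_congr fun n => (vpf_integral F a hF χ t v n).symm
  have h2 : Summable fun n : ℕ => ∫ ξ, ‖vpf a χ t v n ξ‖ := by
    refine Summable.of_nonneg_of_le (fun n => integral_nonneg fun ξ => norm_nonneg _)
      (fun n => ?_) (vp_sq_summable (Real.exp (9 / 4 + 3 * v) * ∫ ξ, ‖vpH ξ‖))
    calc ∫ ξ, ‖vpf a χ t v n ξ‖ ≤ ∫ ξ, Real.exp (9 / 4 + 3 * v) * ((n : ℝ) ^ 2)⁻¹ * ‖vpH ξ‖ :=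
          integral_mono (vpf_int a χ t v n).norm (vpH.integrable.norm.const_mul _)
            fun ξ => vpf_norm ha χ t v n ξ
      _ = _ := by rw [integral_const_mul]; ring
  rw [h1, integral_tsum_of_summable_integral_norm (fun n => vpf_int a χ t v n) h2]
  refine integral_congr_ae (Filter.Eventually.of_forall fun ξ => ?_)
  show ∑' n : ℕ, vpf a χ t v n ξ = _
  unfold vpf SS
  rw [tsum_mul_left]

private theorem vp_exp (A : ℕ) {C : ℝ} (hC : 1 ≤ C) {y : ℝ} (hy : 0 ≤ y) :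
    (1 + y) ^ A * Real.exp (-y ^ 2 / C) ≤ Real.exp ((A : ℝ) ^ 2 * C / 4) := by
  have hC0 : 0 < C := by linarith
  have h1 : (1 + y) ^ A ≤ Real.exp (A * y) := by
    rw [mul_comm, Real.exp_mul, Real.rpow_natCast]
    have := Real.add_one_le_exp y
    gcongr
    linarith
  calc (1 + y) ^ A * Real.exp (-y ^ 2 / C) ≤ Real.exp (A * y) * Real.exp (-y ^ 2 / C) := by gcongr
    _ = Real.exp (A * y + -y ^ 2 / C) := (Real.exp_add _ _).symm
    _ ≤ _ := by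
        apply Real.exp_le_exp.2
        have h2 : (A : ℝ) ^ 2 * C / 4 - (A * y + -y ^ 2 / C) = (y - A * C / 2) ^ 2 / C := by
          field_simp
          ring
        have h3 : 0 ≤ (y - A * C / 2) ^ 2 / C := by positivity
        linarith

private theorem vp_sh (t ξ : ℝ) : |t + 2 * Real.pi * ξ| ≤ |t| + 7 * |ξ| := by
  have h1 : |2 * Real.pi * ξ| ≤ 7 * |ξ| := by
    rw [abs_mul, abs_of_pos (by positivity)]
    have := Real.pi_lt_d2
    gcongr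
    linarith
  exact (abs_add_le _ _).trans (by linarith)

private theorem vp_sh' (t ξ : ℝ) : |t| ≤ |t + 2 * Real.pi * ξ| + 7 * |ξ| := by
  have h := vp_sh (t + 2 * Real.pi * ξ) (-ξ)
  rw [abs_neg] at h
  have e : t + 2 * Real.pi * ξ + 2 * Real.pi * -ξ = t := by ring
  rwa [e] at h

private theorem vp_wint (N : ℕ) : Integrable fun ξ : ℝ => ‖vpH ξ‖ * (1 + 14 * |ξ|) ^ N := by
  have h1 : Integrable fun ξ : ℝ => 15 ^ N * (‖vpH ξ‖ + |ξ| ^ N * ‖vpH ξ‖) := by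
    refine Integrable.const_mul ?_ _
    refine vpH.integrable.norm.add ?_
    have := vpH.integrable_pow_mul volume N
    simpa [Real.norm_eq_abs] using this
  refine h1.mono' ?_ (Filter.Eventually.of_forall fun ξ => ?_)
  · exact (Continuous.mul vpH.continuous.norm (by fun_prop)).aestronglyMeasurable
  · rw [Real.norm_of_nonneg (by positivity)]
    have h2 : (1 + 14 * |ξ|) ^ N ≤ 15 ^ N * (1 + |ξ| ^ N) := by
      rcases le_total |ξ| 1 with h | h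
      · calc (1 + 14 * |ξ|) ^ N ≤ 15 ^ N := by gcongr; linarith
          _ ≤ 15 ^ N * (1 + |ξ| ^ N) := by
              have : 0 ≤ |ξ| ^ N := by positivity
              have h15 : (0 : ℝ) ≤ 15 ^ N := by positivity
              nlinarith
      · calc (1 + 14 * |ξ|) ^ N ≤ (15 * |ξ|) ^ N := by gcongr; linarith
          _ = 15 ^ N * |ξ| ^ N := mul_pow _ _ _
          _ ≤ 15 ^ N * (1 + |ξ| ^ N) := by gcongr; linarith
    calc ‖vpH ξ‖ * (1 + 14 * |ξ|) ^ N ≤ ‖vpH ξ‖ * (15 ^ N * (1 + |ξ| ^ N)) := by gcongr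
      _ = _ := by ring

open Classical in
private theorem vp_ptw {b : ℕ} (hb : 2 ≤ b) (A : ℕ) {C : ℝ} (hC : 1 ≤ C) {m' a : ℕ} (ha : a ≤ 1)
    (hPV : ∀ (m' a : ℕ), a ≤ 1 → ∀ (χ : DirichletCharacter ℂ (b ^ m')) (t v : ℝ), 0 ≤ v →
      ‖SS (fun n => ((Real.log n) ^ a * gw 1 v n : ℝ)) χ t‖ ≤ C * (1 + v) *
        (Real.sqrt ((b : ℝ) ^ m' * (1 + |t|)) * Real.log ((b : ℝ) ^ m' * (2 + |t|)) +
          if χ = 1 then Real.exp (v - t ^ 2 / C) else 0))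
    (χ : DirichletCharacter ℂ (b ^ m')) (t : ℝ) (v : ℕ) (ξ : ℝ) :
    ‖SS (fun n => ((Real.log n) ^ a * gw 1 v n : ℝ)) χ (t + 2 * Real.pi * ξ)‖ ≤
      C * (1 + v) * (Real.sqrt ((b : ℝ) ^ m' * (1 + |t|)) * Real.log ((b : ℝ) ^ m' * (2 + |t|)) +
        if χ = 1 then Real.exp ((A : ℝ) ^ 2 * C / 4) * Real.exp v * ((1 + |t|) ^ A)⁻¹ else 0) *
      (1 + 14 * |ξ|) ^ (A + 2) := by
  have hb1 : (1 : ℝ) ≤ (b : ℝ) ^ m' := one_le_pow₀ (by exact_mod_cast (by omega : 1 ≤ b))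
  have hb0 : (0 : ℝ) < (b : ℝ) ^ m' := by linarith
  have ht : 0 ≤ |t| := abs_nonneg t
  have hξ : 0 ≤ |ξ| := abs_nonneg ξ
  have h0 := hPV m' a ha χ (t + 2 * Real.pi * ξ) v (by positivity)
  have hs := vp_sh t ξ
  have hs' := vp_sh' t ξ
  set u : ℝ := |t + 2 * Real.pi * ξ| with hu
  have hu0 : 0 ≤ u := abs_nonneg _
  -- square root
  have h1 : Real.sqrt ((b : ℝ) ^ m' * (1 + u)) ≤
      Real.sqrt ((b : ℝ) ^ m' * (1 + |t|)) * (1 + 14 * |ξ|) := by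
    rw [← Real.sqrt_sq (by positivity : 0 ≤ 1 + 14 * |ξ|), ← Real.sqrt_mul (by positivity)]
    apply Real.sqrt_le_sqrt
    rw [mul_assoc]
    apply mul_le_mul_of_nonneg_left _ hb0.le
    nlinarith [mul_nonneg ht hξ, mul_nonneg hξ hξ, mul_nonneg ht (mul_nonneg hξ hξ)]
  -- logarithm
  have hlog : Real.log 2 ≤ Real.log ((b : ℝ) ^ m' * (2 + |t|)) := by
    apply Real.log_le_log (by norm_num)
    nlinarith [mul_nonneg (by linarith : (0 : ℝ) ≤ (b : ℝ) ^ m' - 1) (by linarith : 0 ≤ 2 + |t|)]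
  have hlog2 : (1 : ℝ) / 2 ≤ Real.log 2 := by
    have := Real.log_two_gt_d9
    linarith
  have h2 : Real.log ((b : ℝ) ^ m' * (2 + u)) ≤
      Real.log ((b : ℝ) ^ m' * (2 + |t|)) * (1 + 14 * |ξ|) := by
    calc Real.log ((b : ℝ) ^ m' * (2 + u))
        ≤ Real.log ((b : ℝ) ^ m' * (2 + |t|) * (1 + 7 * |ξ|)) := by
          apply Real.log_le_log (by positivity)
          rw [mul_assoc]
          apply mul_le_mul_of_nonneg_left _ hb0.le
          nlinarith [mul_nonneg ht hξ]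
      _ = Real.log ((b : ℝ) ^ m' * (2 + |t|)) + Real.log (1 + 7 * |ξ|) :=
          Real.log_mul (by positivity) (by positivity)
      _ ≤ Real.log ((b : ℝ) ^ m' * (2 + |t|)) + 7 * |ξ| := by
          have := Real.log_le_sub_one_of_pos (by positivity : 0 < 1 + 7 * |ξ|)
          linarith
      _ ≤ _ := by nlinarith
  have hl0 : 0 ≤ Real.log ((b : ℝ) ^ m' * (2 + u)) := by
    apply Real.log_nonneg
    nlinarith [mul_nonneg (by linarith : (0 : ℝ) ≤ (b : ℝ) ^ m' - 1) (by linarith : 0 ≤ 2 + u)]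
  have hl1 : 0 ≤ Real.log ((b : ℝ) ^ m' * (2 + |t|)) := by linarith
  have hw1 : (1 : ℝ) ≤ 1 + 14 * |ξ| := by linarith
  have h3 : Real.sqrt ((b : ℝ) ^ m' * (1 + u)) * Real.log ((b : ℝ) ^ m' * (2 + u)) ≤
      Real.sqrt ((b : ℝ) ^ m' * (1 + |t|)) * Real.log ((b : ℝ) ^ m' * (2 + |t|)) *
        (1 + 14 * |ξ|) ^ (A + 2) := by
    calc _ ≤ (Real.sqrt ((b : ℝ) ^ m' * (1 + |t|)) * (1 + 14 * |ξ|)) *
          (Real.log ((b : ℝ) ^ m' * (2 + |t|)) * (1 + 14 * |ξ|)) :=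
          mul_le_mul h1 h2 hl0 (by positivity)
      _ = Real.sqrt ((b : ℝ) ^ m' * (1 + |t|)) * Real.log ((b : ℝ) ^ m' * (2 + |t|)) *
          (1 + 14 * |ξ|) ^ 2 := by ring
      _ ≤ _ := by
          apply mul_le_mul_of_nonneg_left _ (by positivity)
          exact pow_le_pow_right₀ hw1 (by omega)
  -- the pole
  have h4 : Real.exp (v - (t + 2 * Real.pi * ξ) ^ 2 / C) ≤
      Real.exp ((A : ℝ) ^ 2 * C / 4) * Real.exp v * ((1 + |t|) ^ A)⁻¹ *
        (1 + 14 * |ξ|) ^ (A + 2) := by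
    have e0 : (t + 2 * Real.pi * ξ) ^ 2 = u ^ 2 := by rw [hu, sq_abs]
    have e1 : Real.exp (v - (t + 2 * Real.pi * ξ) ^ 2 / C) =
        Real.exp v * Real.exp (-u ^ 2 / C) := by
      rw [← Real.exp_add, e0]
      congr 1
      ring
    have e2 := vp_exp A hC hu0
    have e3 : (1 + |t|) ^ A ≤ (1 + u) ^ A * (1 + 14 * |ξ|) ^ A := by
      rw [← mul_pow]
      gcongr
      nlinarith [mul_nonneg hu0 hξ]
    have e4 : (1 + |t|) ^ A * Real.exp (-u ^ 2 / C) ≤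
        Real.exp ((A : ℝ) ^ 2 * C / 4) * (1 + 14 * |ξ|) ^ (A + 2) := by
      calc (1 + |t|) ^ A * Real.exp (-u ^ 2 / C)
          ≤ (1 + u) ^ A * (1 + 14 * |ξ|) ^ A * Real.exp (-u ^ 2 / C) := by gcongr
        _ = (1 + u) ^ A * Real.exp (-u ^ 2 / C) * (1 + 14 * |ξ|) ^ A := by ring
        _ ≤ Real.exp ((A : ℝ) ^ 2 * C / 4) * (1 + 14 * |ξ|) ^ (A + 2) := by
            apply mul_le_mul e2 (pow_le_pow_right₀ hw1 (by omega)) (by positivity) (by positivity)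
    have hp : 0 < (1 + |t|) ^ A := by positivity
    rw [e1]
    have e5 : Real.exp (-u ^ 2 / C) ≤
        Real.exp ((A : ℝ) ^ 2 * C / 4) * (1 + 14 * |ξ|) ^ (A + 2) * ((1 + |t|) ^ A)⁻¹ := by
      rw [← div_eq_mul_inv, le_div_iff₀ hp]
      linarith
    calc Real.exp v * Real.exp (-u ^ 2 / C) ≤ Real.exp v *
          (Real.exp ((A : ℝ) ^ 2 * C / 4) * (1 + 14 * |ξ|) ^ (A + 2) * ((1 + |t|) ^ A)⁻¹) := by
          gcongr
      _ = _ := by ring
  have hCv : 0 ≤ C * (1 + (v : ℝ)) := by positivity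
  refine h0.trans ?_
  rw [mul_assoc (C * (1 + (v : ℝ)))]
  apply mul_le_mul_of_nonneg_left _ hCv
  rw [add_mul]
  refine add_le_add h3 ?_
  by_cases hχ : χ = 1
  · rw [if_pos hχ, if_pos hχ]; exact h4
  · rw [if_neg hχ, if_neg hχ]; simp

open Classical in
theorem nt_pt (hPV : PVProp) {b : ℕ} (hb : 2 ≤ b) (A : ℕ) : ∃ C : ℝ, 1 ≤ C ∧
    ∀ (m' : ℕ) (k : Fin 3) (Z : ℝ), k ≠ 2 → ∀ (χ : DirichletCharacter ℂ (b ^ m')) (t : ℝ) (v : ℕ),
    nt (tyf Z k) v χ t ≤ C * (1 + v) *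
      (Real.sqrt ((b : ℝ) ^ m' * (1 + |t|)) * Real.log ((b : ℝ) ^ m' * (2 + |t|)) * Real.exp (-v) +
        if χ = 1 then ((1 + |t|) ^ A)⁻¹ else 0) := by
  obtain ⟨C, hC, hP⟩ := hPV b hb 1 le_rfl
  set E : ℝ := Real.exp ((A : ℝ) ^ 2 * C / 4) with hE
  have hE1 : 1 ≤ E := Real.one_le_exp (by positivity)
  set J : ℝ := ∫ ξ : ℝ, ‖vpH ξ‖ * (1 + 14 * |ξ|) ^ (A + 2) with hJ
  have hJ0 : 0 ≤ J := integral_nonneg fun ξ => by positivity
  refine ⟨C * E * (1 + J), ?_, ?_⟩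
  · have : 1 ≤ C * E := one_le_mul_of_one_le_of_one_le hC hE1
    nlinarith
  intro m' k Z hk χ t v
  have hb1 : (1 : ℝ) ≤ (b : ℝ) ^ m' := one_le_pow₀ (by exact_mod_cast (by omega : 1 ≤ b))
  have hl1 : 0 ≤ Real.log ((b : ℝ) ^ m' * (2 + |t|)) := by
    apply Real.log_nonneg
    have ht : 0 ≤ |t| := abs_nonneg t
    nlinarith [mul_nonneg (by linarith : (0 : ℝ) ≤ (b : ℝ) ^ m' - 1) (by linarith : 0 ≤ 2 + |t|)]
  obtain ⟨a, ha, hF⟩ : ∃ a : ℕ, a ≤ 1 ∧ ∀ n : ℕ, n ≠ 0 → tyf Z k n = (Real.log n) ^ a := by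
    fin_cases k
    · refine ⟨0, by norm_num, fun n hn => ?_⟩
      show (ArithmeticFunction.zeta : ArithmeticFunction ℝ) n = _
      rw [ArithmeticFunction.natCoe_apply, ArithmeticFunction.zeta_apply, if_neg hn]
      simp
    · refine ⟨1, le_rfl, fun n hn => ?_⟩
      show ArithmeticFunction.log n = _
      rw [ArithmeticFunction.log_apply, pow_one]
    · exact absurd rfl hk
  set B : ℝ := Real.sqrt ((b : ℝ) ^ m' * (1 + |t|)) * Real.log ((b : ℝ) ^ m' * (2 + |t|)) with hB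
  have hB0 : 0 ≤ B := by positivity
  set P : ℝ := if χ = 1 then E * Real.exp v * ((1 + |t|) ^ A)⁻¹ else 0 with hPd
  have hmain : ‖DP (pc (tyf Z k) v) χ t‖ ≤ C * (1 + v) * (B + P) * J := by
    rw [vp_dp (tyf Z k) ha hF χ t v]
    have hi := (vp_wint (A + 2)).const_mul (C * (1 + v) * (B + P))
    refine (norm_integral_le_of_norm_le hi (Filter.Eventually.of_forall fun ξ => ?_)).trans ?_
    · rw [norm_mul, norm_mul, Complex.norm_exp_ofReal_mul_I, mul_one]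
      have := vp_ptw hb A hC ha hP χ t v ξ
      calc _ ≤ ‖vpH ξ‖ * (C * (1 + v) * (B + P) * (1 + 14 * |ξ|) ^ (A + 2)) := by
            gcongr
        _ = _ := by ring
    · rw [integral_const_mul]
  unfold nt
  have hP2 : Real.exp (-(v : ℝ)) * P ≤ E * if χ = 1 then ((1 + |t|) ^ A)⁻¹ else 0 := by
    rw [hPd]
    by_cases hχ : χ = 1
    · rw [if_pos hχ, if_pos hχ]
      have : Real.exp (-(v : ℝ)) * Real.exp v = 1 := by rw [← Real.exp_add]; simp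
      calc Real.exp (-(v : ℝ)) * (E * Real.exp v * ((1 + |t|) ^ A)⁻¹) =
          (Real.exp (-(v : ℝ)) * Real.exp v) * (E * ((1 + |t|) ^ A)⁻¹) := by ring
        _ = E * ((1 + |t|) ^ A)⁻¹ := by rw [this, one_mul]
        _ ≤ _ := le_rfl
    · rw [if_neg hχ, if_neg hχ]; simp
  set R : ℝ := if χ = 1 then ((1 + |t|) ^ A)⁻¹ else 0 with hR
  have hR0 : 0 ≤ R := by
    rw [hR]; split_ifs <;> positivity
  have hBe : 0 ≤ B * Real.exp (-(v : ℝ)) := by positivity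
  calc Real.exp (-(v : ℝ)) * ‖DP (pc (tyf Z k) v) χ t‖
      ≤ Real.exp (-(v : ℝ)) * (C * (1 + v) * (B + P) * J) := by gcongr
    _ = C * (1 + v) * J * (B * Real.exp (-(v : ℝ)) + Real.exp (-(v : ℝ)) * P) := by ring
    _ ≤ C * (1 + v) * J * (E * (B * Real.exp (-(v : ℝ))) + E * R) :=
        mul_le_mul_of_nonneg_left (add_le_add (le_mul_of_one_le_left hBe hE1) hP2)
          (by positivity)
    _ = C * E * J * ((1 + v) * (B * Real.exp (-(v : ℝ)) + R)) := by ring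
    _ ≤ C * E * (1 + J) * ((1 + v) * (B * Real.exp (-(v : ℝ)) + R)) := by
        apply mul_le_mul_of_nonneg_right _ (by positivity)
        have : 0 ≤ C * E := by positivity
        nlinarith
    _ = _ := by ring

theorem ty_pow (Z : ℝ) {k : Fin 3} (hk : k ≠ 2) :
    ∃ a : ℕ, a ≤ 1 ∧ ∀ n : ℕ, n ≠ 0 → tyf Z k n = (Real.log n) ^ a := by
  fin_cases k
  · refine ⟨0, by norm_num, fun n hn => ?_⟩
    show (ArithmeticFunction.zeta : ArithmeticFunction ℝ) n = _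
    rw [ArithmeticFunction.natCoe_apply, ArithmeticFunction.zeta_apply, if_neg hn]
    simp
  · refine ⟨1, le_rfl, fun n hn => ?_⟩
    show ArithmeticFunction.log n = _
    rw [ArithmeticFunction.log_apply, pow_one]
  · exact absurd rfl hk

/-- size of the Gaussian coefficients -/
theorem gs_le {a : ℕ} (ha : a ≤ 1) (v : ℝ) (n : ℕ) :
    |(Real.log n) ^ a * gw 1 v n| ≤ Real.exp (9 / 4 + 3 * v) * ((n : ℝ) ^ 2)⁻¹ := vp_gs ha v n

/-- representation of a factor by sums with Gaussian weights -/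
theorem dp_rep : ∃ H : ℝ → ℂ, Continuous H ∧
    (∀ N : ℕ, Integrable fun ξ : ℝ => ‖H ξ‖ * (1 + 14 * |ξ|) ^ N) ∧
    ∀ (Q : ℕ) (F : ArithmeticFunction ℝ) (a : ℕ), a ≤ 1 →
    (∀ n : ℕ, n ≠ 0 → F n = (Real.log n) ^ a) → ∀ (χ : DirichletCharacter ℂ Q) (t : ℝ) (v : ℕ),
    DP (pc F v) χ t = ∫ ξ : ℝ, H ξ * cexp ((-(2 * Real.pi * ξ * v) : ℝ) * I) *
      SS (fun n => (((Real.log n) ^ a * gw 1 v n : ℝ) : ℂ)) χ (t + 2 * Real.pi * ξ) :=
  ⟨vpH, vpH.continuous, vp_wint, fun _ F _ ha hF χ t v => vp_dp F ha hF χ t v⟩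

end Pool.Agent.HPP
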