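import Pool.Agent.HPP.VCase
import Pool.Agent.HPP.VPt

/-!
# HPP/VBig: level sets of the factors, stage 1 (`f < (3/4) L`)

Statement `LSAt f L 2 νm`. Note 1667, V7. `X = log x`, `v = ν X`, `V = exp (- u v)`, `u ≥ 0`; target exponent `2 L u`
(`V^(-2L log x/v) = x^(2Lu)`). Type `2` with `v ≥ log x/10`: the piece is `0`.
-/

namespace Pool.Agent.HPP

open Complex MeasureTheory

/-- conversion of the target of `LSAt` -/
theorem target_eq {x ε L u : ℝ} {v : ℕ} (hx : 0 < x) (hv : (0 : ℝ) < v) :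
    x ^ ε * Real.exp (-(u * v)) ^ (-(2 * L * Real.log x / v)) =
      Real.exp (ε * Real.log x + 2 * L * Real.log x * u) := by
  rw [Real.rpow_def_of_pos hx, Real.rpow_def_of_pos (Real.exp_pos _), Real.log_exp,
    ← Real.exp_add]
  congr 1
  field_simp

open Classical in
/-- pointwise bound for smooth factors in the allowed range (V5) -/
theorem case_pt (hPV : PVProp) {f : ℝ} (hf : 0 < f) (hf1 : f ≤ 1) {b : ℕ} (hb : 2 ≤ b)
    {κ : ℝ} (hκ : 0 < κ) {η : ℝ} (hη : 0 < η) (hη1 : η ≤ 1) : ∃ X₀ : ℝ, 1 ≤ X₀ ∧ ∀ X : ℝ, X₀ ≤ X →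
    ∀ (m' : ℕ) (T : ℝ), 1 ≤ T → (b : ℝ) ^ m' * T ≤ Real.exp (f * X) →
    ∀ (k : Fin 3) (Z : ℝ), k ≠ 2 → ∀ v : ℕ, (v : ℝ) ≤ 3 * X →
    ∀ χ : DirichletCharacter ℂ (b ^ m'), ∀ t ∈ Gt χ (Real.exp (κ * X)) T,
    nt (tyf Z k) v χ t ≤ Real.exp (η * X) / 2 * (Real.exp (f * X / 2 - v) + Real.exp (-(4 * X))) := by
  obtain ⟨C, hC1, hC⟩ := nt_pt hPV hb (⌈4 / κ⌉₊)
  obtain ⟨X₁, hX₁1, hX₁⟩ := lin_le_exp (12 * C) (η := η / 2) (by positivity)
  obtain ⟨X₂, hX₂1, hX₂⟩ := lin_le_exp 1 (η := η / 2) (by positivity)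
  refine ⟨max X₁ X₂, hX₁1.trans (le_max_left _ _), fun X hX m' T hT hD k Z hk v hv χ t ht => ?_⟩
  have h1 := hX₁ X ((le_max_left _ _).trans hX)
  have h2 := hX₂ X ((le_max_right _ _).trans hX)
  have hX1 : 1 ≤ X := hX₁1.trans ((le_max_left _ _).trans hX)
  have hX0 : 0 < X := by linarith
  rw [one_mul] at h2
  have hQ1 : (1 : ℝ) ≤ (b : ℝ) ^ m' := one_le_pow₀ (by exact_mod_cast (by omega : 1 ≤ b))
  have htT : |t| ≤ T := ht.1
  have ht0 : 0 ≤ |t| := abs_nonneg t
  have hb1 := hC m' k Z hk χ t v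
  have hlog : Real.log ((b : ℝ) ^ m' * (2 + |t|)) ≤ X + 2 := by
    refine le_trans (Real.log_le_log (by positivity) ?_)
      (log_QT hb hf1 hX0.le hT le_rfl hD)
    exact mul_le_mul_of_nonneg_left (by linarith) (by positivity)
  have hlog0 : 0 ≤ Real.log ((b : ℝ) ^ m' * (2 + |t|)) := Real.log_nonneg (by nlinarith)
  have hsq : Real.sqrt ((b : ℝ) ^ m' * (1 + |t|)) ≤ 2 * Real.exp (f * X / 2) := by
    refine Real.sqrt_le_iff.2 ⟨by positivity, ?_⟩
    have e1 : (2 * Real.exp (f * X / 2)) ^ 2 = 4 * Real.exp (f * X) := by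
      have e0 : Real.exp (f * X / 2) * Real.exp (f * X / 2) = Real.exp (f * X) := by
        rw [← Real.exp_add]; congr 1; ring
      rw [← e0]; ring
    rw [e1]
    have e2 : (b : ℝ) ^ m' * (1 + |t|) ≤ (b : ℝ) ^ m' * (2 * T) :=
      mul_le_mul_of_nonneg_left (by linarith) (by positivity)
    have e3 := Real.exp_pos (f * X)
    nlinarith
  have hpole : (if χ = 1 then ((1 + |t|) ^ ⌈4 / κ⌉₊)⁻¹ else 0) ≤ Real.exp (-(4 * X)) := by
    split_ifs with hχ
    · have h3 : Real.exp (κ * X) ≤ |t| := ht.2 hχ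
      have h4 : Real.exp (4 * X) ≤ (1 + |t|) ^ ⌈4 / κ⌉₊ := by
        calc Real.exp (4 * X) ≤ Real.exp (κ * X) ^ ⌈4 / κ⌉₊ := by
              rw [← Real.exp_nat_mul]
              refine Real.exp_le_exp.2 ?_
              have h5 : 4 / κ ≤ (⌈4 / κ⌉₊ : ℝ) := Nat.le_ceil _
              rw [div_le_iff₀ hκ] at h5
              nlinarith
          _ ≤ _ := pow_le_pow_left₀ (Real.exp_pos _).le (by linarith) _
      rw [Real.exp_neg]
      exact inv_anti₀ (Real.exp_pos _) h4
    · exact (Real.exp_pos _).le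
  have hv0 : (0 : ℝ) ≤ v := Nat.cast_nonneg v
  have hstep : Real.sqrt ((b : ℝ) ^ m' * (1 + |t|)) * Real.log ((b : ℝ) ^ m' * (2 + |t|)) *
      Real.exp (-v) + (if χ = 1 then ((1 + |t|) ^ ⌈4 / κ⌉₊)⁻¹ else 0) ≤
      2 * (X + 2) * (Real.exp (f * X / 2 - v) + Real.exp (-(4 * X))) := by
    have e1 : Real.sqrt ((b : ℝ) ^ m' * (1 + |t|)) * Real.log ((b : ℝ) ^ m' * (2 + |t|)) *
        Real.exp (-v) ≤ 2 * Real.exp (f * X / 2) * (X + 2) * Real.exp (-v) := by
      refine mul_le_mul_of_nonneg_right (mul_le_mul hsq hlog hlog0 (by positivity))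
        (Real.exp_pos _).le
    have e2 : Real.exp (f * X / 2 - v) = Real.exp (f * X / 2) * Real.exp (-v) := by
      rw [← Real.exp_add]; rfl
    have e3 : 1 ≤ 2 * (X + 2) := by linarith
    have e4 := Real.exp_pos (-(4 * X))
    rw [e2]
    nlinarith
  refine hb1.trans ?_
  have hS : 0 < Real.exp (f * X / 2 - v) + Real.exp (-(4 * X)) := by positivity
  calc C * (1 + v) * (Real.sqrt ((b : ℝ) ^ m' * (1 + |t|)) *
        Real.log ((b : ℝ) ^ m' * (2 + |t|)) * Real.exp (-v) +
        if χ = 1 then ((1 + |t|) ^ ⌈4 / κ⌉₊)⁻¹ else 0)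
      ≤ C * (1 + v) * (2 * (X + 2) * (Real.exp (f * X / 2 - v) + Real.exp (-(4 * X)))) :=
        mul_le_mul_of_nonneg_left hstep (by positivity)
    _ ≤ C * (3 * (X + 2)) * (2 * (X + 2) * (Real.exp (f * X / 2 - v) + Real.exp (-(4 * X)))) := by
        refine mul_le_mul_of_nonneg_right (mul_le_mul_of_nonneg_left (by linarith)
          (by linarith)) (by positivity)
    _ = (12 * C * (X + 2)) * (X + 2) / 2 * (Real.exp (f * X / 2 - v) + Real.exp (-(4 * X))) := by
        ring
    _ ≤ _ := by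
        refine mul_le_mul_of_nonneg_right ?_ hS.le
        have e5 : (12 * C * (X + 2)) * (X + 2) ≤ Real.exp (η * X) := by
          calc (12 * C * (X + 2)) * (X + 2) ≤ Real.exp (η / 2 * X) * Real.exp (η / 2 * X) :=
                mul_le_mul h1 h2 (by linarith) (Real.exp_pos _).le
            _ = _ := by rw [← Real.exp_add]; congr 1; ring
        linarith

/-- choice of the power in Case A -/
theorem exists_pow {L X v : ℝ} (hv : 0 < v) (h : v ≤ L * X / 2) : ∃ j : ℕ, 1 ≤ j ∧
    2 / 3 * L * X ≤ j * v ∧ (j : ℝ) * v ≤ L * X := by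
  have hLX : 0 < L * X := by linarith
  rcases le_or_gt v (L * X / 3) with h3 | h3
  · set j : ℕ := ⌊L * X / v⌋₊ with hj
    have h4 : (j : ℝ) ≤ L * X / v := Nat.floor_le (by positivity)
    have h5 : L * X / v < j + 1 := Nat.lt_floor_add_one _
    rw [le_div_iff₀ hv] at h4
    rw [div_lt_iff₀ hv] at h5
    refine ⟨j, ?_, by linarith, h4⟩
    rw [hj, Nat.one_le_floor_iff, le_div_iff₀ hv]
    linarith
  · refine ⟨2, by norm_num, ?_, ?_⟩ <;> push_cast <;> linarith

theorem ls_big1 (hPV : PVProp) {f L νm : ℝ} (hf : 1 / 4 ≤ f) (hL : 4 / 3 * f < L) (hL1 : L < 1)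
    (hν : 0 < νm) : LSAt f L 2 νm := by
  intro b hb ε hε κ hκ
  have hL0 : 0 < L := by linarith
  have hf0 : 0 < f := by linarith
  set η : ℝ := min (ε / 4) (min (3 / 4 * L - f) 1) with hη
  have hη0 : 0 < η := lt_min (by linarith) (lt_min (by linarith) one_pos)
  have hη1 : η ≤ ε / 4 := min_le_left _ _
  have hη2 : η ≤ 3 / 4 * L - f := (min_le_right _ _).trans (min_le_left _ _)
  have hη3 : η ≤ 1 := (min_le_right _ _).trans (min_le_right _ _)
  obtain ⟨X₁, hX₁1, hA⟩ := case_A hPV hf0 (by linarith : f < 5 / 6 * L) hL1.le hν hb hε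
  obtain ⟨X₂, hX₂1, hP⟩ := case_pt hPV hf0 (by linarith) hb hκ hη0 hη3
  obtain ⟨C, hC1, hC⟩ := ls_mv (j := 1) le_rfl (half_pos hη0)
  obtain ⟨X₃, hX₃1, hX₃⟩ := lin_le_exp (2 * C) (η := η / 2) (by positivity)
  obtain ⟨X₄, hX₄1, hX₄⟩ := lin_le_exp 2 (η := ε) hε
  refine ⟨Real.exp (max (max X₁ X₂) (max X₃ (max X₄ 15))), fun x hx m' T hm' hQT hD k v hv hv3 V hV1
    hV2 => ?_⟩
  have hx0 : 0 < x := (Real.exp_pos _).trans_le hx
  set X : ℝ := Real.log x with hX
  have hXx : max (max X₁ X₂) (max X₃ (max X₄ 15)) ≤ X := by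
    rw [hX, Real.le_log_iff_exp_le hx0]; exact hx
  have g1 : X₁ ≤ X := ((le_max_left _ _).trans (le_max_left _ _)).trans hXx
  have g2 : X₂ ≤ X := ((le_max_right _ _).trans (le_max_left _ _)).trans hXx
  have g3 : X₃ ≤ X := ((le_max_left _ _).trans (le_max_right _ _)).trans hXx
  have g4 : X₄ ≤ X := ((le_max_left _ _).trans ((le_max_right _ _).trans
    (le_max_right _ _))).trans hXx
  have g5 : 15 ≤ X := ((le_max_right _ _).trans ((le_max_right _ _).trans
    (le_max_right _ _))).trans hXx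
  have hX0 : 0 < X := by linarith
  have exx : ∀ a : ℝ, x ^ a = Real.exp (a * X) := fun a => by
    rw [Real.rpow_def_of_pos hx0, mul_comm]
  have hb1 : (2 : ℝ) ≤ b := by exact_mod_cast hb
  have hQ1 : (2 : ℝ) ≤ (b : ℝ) ^ m' := by
    calc (2 : ℝ) ≤ b := hb1
      _ = (b : ℝ) ^ 1 := (pow_one _).symm
      _ ≤ (b : ℝ) ^ m' := pow_le_pow_right₀ (by linarith) hm'
  have hT1 : 1 ≤ T := by linarith
  rw [exx] at hD hV1
  have hv0 : (0 : ℝ) < v := lt_of_lt_of_le (by positivity) hv
  have hV0 : 0 < V := (Real.exp_pos _).trans_le hV1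
  obtain ⟨u, hu0, hVu⟩ : ∃ u : ℝ, 0 ≤ u ∧ V = Real.exp (-(u * v)) := by
    refine ⟨-Real.log V / v, div_nonneg (by linarith [Real.log_nonpos hV0.le hV2]) hv0.le, ?_⟩
    rw [div_mul_cancel₀ _ hv0.ne', neg_neg, Real.exp_log hV0]
  rw [hVu, hX, target_eq hx0 hv0, ← hX]
  have hQQ : ((b ^ m' : ℕ) : ℝ) = (b : ℝ) ^ m' := by push_cast; ring
  rcases le_or_gt (v : ℝ) (L * X / 2) with hcase | hcase
  · -- Case A
    obtain ⟨j, hj1, hj2, hj3⟩ := exists_pow hv0 hcase
    exact LM_Gt_le.trans (hA X g1 m' T hT1 hQT hD _ (tyf_sm _ k) v j hj1 hv hj2 hj3 u hu0)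
  · by_cases hk : k = 2
    · -- truncated Moebius: zero
      have h1 : pc (tyf (x ^ (1 / 20 : ℝ)) k) v = 0 := by
        rw [hk]
        show pc (mz _) v = 0
        refine pc_mz_zero ?_
        rw [exx]
        refine Real.exp_le_exp.2 ?_
        have : L * X / 2 ≥ 1 / 6 * X := by nlinarith
        linarith
      rw [LM_empty (fun χ t _ => ?_)]
      · exact (Real.exp_pos _).le
      · rw [nt_zero_of h1]
        exact Real.exp_pos _
    · by_cases hex : ∃ χ : DirichletCharacter ℂ (b ^ m'), ∃ t ∈ Gt χ (x ^ κ) T,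
          Real.exp (-(u * v)) ≤ nt (tyf (x ^ (1 / 20 : ℝ)) k) v χ t
      swap
      · rw [LM_empty (fun χ t ht => ?_)]
        · exact (Real.exp_pos _).le
        · by_contra hcon
          exact hex ⟨χ, t, ht, not_lt.1 hcon⟩
      obtain ⟨χ, t, ht, hle⟩ := hex
      rw [exx] at ht
      have h1 := hle.trans (hP X g2 m' T hT1 hD k _ hk v hv3 χ t ht)
      -- `v (1 - u) ≤ (f/2 + η) X`
      have h2 : v - u * v ≤ (f / 2 + η) * X := by
        have h3 : Real.exp (η * X) / 2 * Real.exp (-(4 * X)) ≤ Real.exp (-(u * v)) / 2 := by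
          rw [← hVu]
          have h4 : Real.exp (η * X) * Real.exp (-(4 * X)) ≤ Real.exp (-2 * X) := by
            rw [← Real.exp_add]
            refine Real.exp_le_exp.2 ?_
            nlinarith
          linarith
        have h5 : Real.exp (-(u * v)) ≤ Real.exp (η * X) * Real.exp (f * X / 2 - v) := by
          nlinarith
        rw [← Real.exp_add] at h5
        have h6 := Real.exp_le_exp.1 h5
        linarith
      rcases le_or_gt (v : ℝ) (L * X) with hLX | hLX
      · -- mean value theorem, `j = 1`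
        have h3 : LM (fun _ : DirichletCharacter ℂ (b ^ m') => Set.Icc (0 - T) (0 + T))
            (nt (tyf (x ^ (1 / 20 : ℝ)) k) v) (Real.exp (-(u * v))) ≤ _ :=
          hC (b ^ m') (Nat.one_le_pow _ _ (by omega)) _ (tyf_sm _ k) v 0 T _ hT1 (Real.exp_pos _)
        rw [zero_sub, zero_add] at h3
        refine LM_Gt_le.trans (h3.trans ?_)
        have h4 : (Real.exp (-(u * v)) ^ (2 * 1))⁻¹ = Real.exp (2 * u * v) := by
          rw [← Real.exp_nat_mul, ← Real.exp_neg]
          congr 1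
          push_cast
          ring
        rw [h4, hQQ]
        have h5 : 1 + (b : ℝ) ^ m' * T * Real.exp (-(((1 : ℕ) : ℝ) * v)) ≤
            2 * max 1 (Real.exp (f * X - v)) := by
          have h3 : (b : ℝ) ^ m' * T * Real.exp (-(((1 : ℕ) : ℝ) * v)) ≤ Real.exp (f * X - v) := by
            rw [sub_eq_add_neg, Real.exp_add, Nat.cast_one, one_mul]
            exact mul_le_mul_of_nonneg_right hD (Real.exp_pos _).le
          have h4 := le_max_left 1 (Real.exp (f * X - v))
          have h5 := le_max_right 1 (Real.exp (f * X - v))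
          linarith
        have h6 : 2 * (C * Real.exp (η / 2 * v)) ≤ Real.exp (η * X) := by
          have k1 := hX₃ X g3
          have k2 : Real.exp (η / 2 * v) ≤ Real.exp (η / 2 * X) := by
            refine Real.exp_le_exp.2 (mul_le_mul_of_nonneg_left ?_ (by positivity))
            nlinarith
          have k3 : 2 * C ≤ Real.exp (η / 2 * X) := by nlinarith
          calc 2 * (C * Real.exp (η / 2 * v)) = 2 * C * Real.exp (η / 2 * v) := by ring
            _ ≤ Real.exp (η / 2 * X) * Real.exp (η / 2 * X) :=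
                mul_le_mul k3 k2 (Real.exp_pos _).le (Real.exp_pos _).le
            _ = _ := by rw [← Real.exp_add]; congr 1; ring
        have hηε : η * X ≤ ε / 4 * X := mul_le_mul_of_nonneg_right hη1 hX0.le
        have hεX : 0 < ε * X := by positivity
        have huv : u * v ≤ u * (L * X) := mul_le_mul_of_nonneg_left hLX hu0
        calc C * Real.exp (η / 2 * v) * Real.exp (2 * u * v) *
              (1 + (b : ℝ) ^ m' * T * Real.exp (-(((1 : ℕ) : ℝ) * v)))
            ≤ C * Real.exp (η / 2 * v) * Real.exp (2 * u * v) *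
              (2 * max 1 (Real.exp (f * X - v))) :=
              mul_le_mul_of_nonneg_left h5 (by positivity)
          _ = 2 * (C * Real.exp (η / 2 * v)) * Real.exp (2 * u * v) *
              max 1 (Real.exp (f * X - v)) := by ring
          _ ≤ Real.exp (η * X) * Real.exp (2 * u * v) * max 1 (Real.exp (f * X - v)) := by
              refine mul_le_mul_of_nonneg_right
                (mul_le_mul_of_nonneg_right h6 (Real.exp_pos _).le) ?_
              exact le_trans zero_le_one (le_max_left _ _)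
          _ ≤ _ := by
              rw [← Real.exp_add]
              rcases le_total (Real.exp (f * X - v)) 1 with h7 | h7
              · rw [max_eq_left h7, mul_one]
                refine Real.exp_le_exp.2 ?_
                linarith
              · rw [max_eq_right h7, ← Real.exp_add]
                refine Real.exp_le_exp.2 ?_
                -- `f X - v ≤ 2 (L X - v) u`
                have k1 : f * X - v ≤ 2 * (L * X - v) * u := by
                  have k2 : 0 ≤ L * X - v := by linarith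
                  have k3 : (L * X - v) * (v - (f / 2 + η) * X) ≤ (L * X - v) * (u * v) :=
                    mul_le_mul_of_nonneg_left (by linarith) k2
                  have k4 : η * X ≤ (3 / 4 * L - f) * X :=
                    mul_le_mul_of_nonneg_right hη2 hX0.le
                  have k5 : (L * X - v) * (η * X) ≤ L * X / 2 * ((3 / 4 * L - f) * X) :=
                    mul_le_mul (by linarith) k4 (by positivity) (by positivity)
                  have k6 : (L * X - v) ^ 2 ≤ (L * X / 2) ^ 2 :=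
                    pow_le_pow_left₀ k2 (by linarith) 2
                  have k7 : (f * X - v) * v ≤ 2 * (L * X - v) * u * v := by nlinarith
                  exact le_of_mul_le_mul_right k7 hv0
                linarith
      · -- trivial bound
        have hQn : 1 ≤ b ^ m' := Nat.one_le_pow _ _ (by omega)
        refine (LM_triv hQn (by linarith)).trans ?_
        rw [hQQ]
        have k1 : 2 ≤ Real.exp (ε * X) := by
          have := hX₄ X g4
          linarith
        have k2 : (b : ℝ) ^ m' * T ≤ Real.exp (2 * L * X * u) := by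
          refine hD.trans (Real.exp_le_exp.2 ?_)
          rcases le_or_gt 1 u with h1 | h1
          · have : 2 * L * X * 1 ≤ 2 * L * X * u := mul_le_mul_of_nonneg_left h1 (by positivity)
            nlinarith
          · have k3 : L * X * (1 - u) ≤ v * (1 - u) :=
              mul_le_mul_of_nonneg_right hLX.le (by linarith)
            have k4 : η * X ≤ (3 / 4 * L - f) * X := mul_le_mul_of_nonneg_right hη2 hX0.le
            have k5 : 4 / 3 * f * X ≤ L * X := mul_le_mul_of_nonneg_right hL.le hX0.le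
            nlinarith
        calc 2 * ((b : ℝ) ^ m' * T) ≤ Real.exp (ε * X) * Real.exp (2 * L * X * u) :=
              mul_le_mul k1 k2 (by positivity) (Real.exp_pos _).le
          _ = _ := by rw [← Real.exp_add]

end Pool.Agent.HPP
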