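import Pool.Agent.HPP.VPow

/-!
# HPP/VLHm: level sets by the Halasz-Montgomery method

PROOF. `Q = b^m'`, `A χ t = DP (pc F v ^ j) χ t = ∑ a_n χ(n) n^(it)` (finite sum, `|a_n| ≤ C exp (ε v)`, support in
`|log n - j v| ≤ j`), `E χ = Icc t₀ (t₀ + T) ∩ {V ≤ nt F v χ t}` (compact), `M = ∑_χ |E χ| = LM`. `V^j exp (jv) ≤ ‖A χ t‖` on `E χ`.
With `θ = conj A/‖A‖` (`0` where `A = 0`), `B_n = ∑_χ ∫_{E χ} θ χ(n) n^(it) dt`:
`V^j exp (jv) M ≤ ∑_χ ∫_{E χ} ‖A‖ = ∑_n a_n B_n ≤ (∑ |a_n|²/W_n)^(1/2) (∑_n W_n ‖B_n‖²)^(1/2)`, `W_n = gw 1 (jv) n`, `W_n ≥ exp (-j²)`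
on the support of `a`. `∑ |a_n|²/W_n ≤ C exp (2 ε v) exp (jv)`. `∑_{n ≤ N} W_n ‖B_n‖² = ∑_{χ,χ'} ∫∫ θ conj θ' S_N(χ χ'⁻¹, t - t')`,
`S_N` the partial sums of `SS (gw 1 (jv))`, which converge uniformly (absolutely summable); so the whole sum is
`≤ ∑_{χ,χ'} ∫_{E χ} ∫_{E χ'} ‖SS (gw 1 (jv)) (χ χ'⁻¹) (t - t')‖ ≤ C (1 + jv) (M² √(QT) log (Q(2+T)) + exp (jv) M ∫ exp (-τ²/C) dτ)`
by `PVProp` (`j = 1`, `a = 0`, `|t - t'| ≤ T`, `√(1+T) ≤ √(2T)`; the pole term only for `χ = χ'`). Hence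
`V^(2j) exp (jv) M² ≤ C exp (3 ε v) (M² √(QT) log (Q(2+T)) + exp (jv) M)`; the hypothesis (with a larger constant) makes the first
term `≤` half of the left side. (Use `ε/4` etc.)
-/

namespace Pool.Agent.HPP

open Complex MeasureTheory

namespace LHm

theorem gw_nonneg (j v : ℝ) (n : ℕ) : 0 ≤ gw j v n := by
  unfold gw; split_ifs <;> positivity

theorem gw_summable (v : ℝ) : Summable (gw 1 v) := by
  refine Summable.of_nonneg_of_le (gw_nonneg 1 v) (fun n => ?_)
    ((Real.summable_one_div_nat_pow.2 (one_lt_two)).mul_left (Real.exp (2 * v + 1)))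
  unfold gw
  split_ifs with h
  · positivity
  · have hn : (0 : ℝ) < n := by exact_mod_cast Nat.pos_of_ne_zero h
    have e1 : (n : ℝ) ^ 2 = Real.exp (2 * Real.log n) := by
      rw [mul_comm, Real.exp_mul, Real.exp_log hn]
      norm_num
    rw [e1, one_div, ← Real.exp_neg, ← Real.exp_add]
    apply Real.exp_le_exp.2
    nlinarith [sq_nonneg (Real.log n - (v + 1))]

/-- the function `χ(n) n^(it)` -/
noncomputable def ph {Q : ℕ} (χ : DirichletCharacter ℂ Q) (n : ℕ) (t : ℝ) : ℂ :=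
  χ (n : ZMod Q) * (n : ℂ) ^ (t * I)

theorem ph_meas {Q : ℕ} (χ : DirichletCharacter ℂ Q) (n : ℕ) : Measurable (ph χ n) := by
  unfold ph
  apply Measurable.const_mul
  exact measurable_const.pow ((Complex.measurable_ofReal).mul_const I)

theorem cpow_norm (n : ℕ) (t : ℝ) : ‖(n : ℂ) ^ (t * I)‖ ≤ 1 := by
  rcases Nat.eq_zero_or_pos n with h | h
  · subst h
    rcases eq_or_ne t 0 with ht | ht
    · subst ht; simp
    · have : ((t : ℂ) * I) ≠ 0 := by
        simp [ht]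
      rw [Nat.cast_zero, Complex.zero_cpow this]
      simp
  · rw [Complex.norm_natCast_cpow_of_pos h]
    simp

theorem ph_norm {Q : ℕ} (χ : DirichletCharacter ℂ Q) (n : ℕ) (t : ℝ) : ‖ph χ n t‖ ≤ 1 := by
  unfold ph
  rw [norm_mul]
  exact mul_le_one₀ (DirichletCharacter.norm_le_one χ _) (norm_nonneg _) (cpow_norm n t)

theorem ph_mul {Q : ℕ} [NeZero Q] (χ χ' : DirichletCharacter ℂ Q) {n : ℕ} (hn : 0 < n)
    (t t' : ℝ) : ph χ n t * (starRingEnd ℂ) (ph χ' n t') =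
      (χ * χ'⁻¹) (n : ZMod Q) * (n : ℂ) ^ (((t - t' : ℝ) : ℂ) * I) := by
  unfold ph
  rw [map_mul]
  have h1 : (starRingEnd ℂ) (χ' (n : ZMod Q)) = χ'⁻¹ (n : ZMod Q) := MulChar.star_apply' χ' _
  have hn0 : (n : ℂ) ≠ 0 := by exact_mod_cast hn.ne'
  have h2 : (starRingEnd ℂ) ((n : ℂ) ^ (t' * I)) = (n : ℂ) ^ (-(t' * I)) := by
    rw [Complex.cpow_def_of_ne_zero hn0, Complex.cpow_def_of_ne_zero hn0, ← Complex.exp_conj,
      map_mul, map_mul, Complex.conj_I, Complex.conj_ofReal]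
    congr 1
    have : (starRingEnd ℂ) (Complex.log n) = Complex.log n := by
      rw [← Complex.natCast_log, Complex.conj_ofReal]
    rw [this]
    ring
  rw [h1, h2, MulChar.mul_apply]
  have h3 : (((t - t' : ℝ) : ℂ) * I) = t * I + -(t' * I) := by push_cast; ring
  rw [h3, Complex.cpow_add _ _ hn0]
  ring

/-- finite partial sums against the full series -/
theorem part_le {Q : ℕ} (ψ : DirichletCharacter ℂ Q) (v τ : ℝ) (N : ℕ) :
    ‖∑ n ∈ Finset.range N, (gw 1 v n : ℂ) * (ψ (n : ZMod Q) * (n : ℂ) ^ ((τ : ℂ) * I))‖ ≤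
      ‖SS (fun n => ((gw 1 v n : ℝ) : ℂ)) ψ τ‖ + ∑' n, gw 1 v (n + N) := by
  set f : ℕ → ℂ := fun n => (gw 1 v n : ℂ) * ψ (n : ZMod Q) * (n : ℂ) ^ ((τ : ℂ) * I) with hf
  have hb : ∀ n, ‖f n‖ ≤ gw 1 v n := by
    intro n
    rw [hf]
    simp only
    rw [norm_mul, norm_mul, Complex.norm_real, Real.norm_of_nonneg (gw_nonneg _ _ _)]
    have h1 := DirichletCharacter.norm_le_one ψ (n : ZMod Q)
    have h2 := cpow_norm n τ
    have h0 := gw_nonneg 1 v n
    calc gw 1 v n * ‖ψ (n : ZMod Q)‖ * ‖(n : ℂ) ^ ((τ : ℂ) * I)‖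
        ≤ gw 1 v n * 1 * 1 := by gcongr
      _ = gw 1 v n := by ring
  have hs : Summable f := Summable.of_norm_bounded (gw_summable v) hb
  have e1 : ∑ n ∈ Finset.range N, (gw 1 v n : ℂ) * (ψ (n : ZMod Q) * (n : ℂ) ^ ((τ : ℂ) * I)) =
      ∑ n ∈ Finset.range N, f n := Finset.sum_congr rfl fun n _ => by rw [hf]; ring
  have e2 : SS (fun n => ((gw 1 v n : ℝ) : ℂ)) ψ τ = ∑' n, f n := rfl
  have e3 := hs.sum_add_tsum_nat_add N
  rw [e1, e2]
  have e4 : ∑ n ∈ Finset.range N, f n = ∑' n, f n - ∑' n, f (n + N) := by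
    rw [← e3]; ring
  rw [e4]
  refine (norm_sub_le _ _).trans ?_
  gcongr
  exact tsum_of_norm_bounded ((summable_nat_add_iff N).2 (gw_summable v)).hasSum
    (fun n => hb (n + N))

variable {Q : ℕ} (E : DirichletCharacter ℂ Q → Set ℝ) (θ : DirichletCharacter ℂ Q → ℝ → ℂ)

/-- the coefficients -/
noncomputable def BB (n : ℕ) : ℂ := ∑ χ, ∫ t in E χ, θ χ t * ph χ n t

theorem int_mul {E : Set ℝ} [IsFiniteMeasure (volume.restrict E)] {θ g : ℝ → ℂ}
    (hθ : Measurable θ) (hθ1 : ∀ t, ‖θ t‖ ≤ 1) (hg : Measurable g) (hg1 : ∀ t, ‖g t‖ ≤ 1) :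
    Integrable (fun t => θ t * g t) (volume.restrict E) := by
  refine Integrable.of_bound (hθ.mul hg).aestronglyMeasurable 1 (Filter.Eventually.of_forall ?_)
  intro t
  rw [norm_mul]
  exact mul_le_one₀ (hθ1 t) (norm_nonneg _) (hg1 t)

theorem gram (hE : ∀ χ, IsFiniteMeasure (volume.restrict (E χ))) (hθ : ∀ χ, Measurable (θ χ))
    (hθ1 : ∀ χ t, ‖θ χ t‖ ≤ 1) (W : ℕ → ℝ) (s : Finset ℕ) :
    ((∑ n ∈ s, W n * ‖BB E θ n‖ ^ 2 : ℝ) : ℂ) = ∑ χ, ∑ χ', ∫ t in E χ, θ χ t *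
      ∫ t' in E χ', (starRingEnd ℂ) (θ χ' t') *
        ∑ n ∈ s, (W n : ℂ) * (ph χ n t * (starRingEnd ℂ) (ph χ' n t')) := by
  have hcm : Measurable (starRingEnd ℂ) := Complex.continuous_conj.measurable
  have h1 : ∀ (χ χ' : DirichletCharacter ℂ Q) (t : ℝ), ∫ t' in E χ', (starRingEnd ℂ) (θ χ' t') *
      ∑ n ∈ s, (W n : ℂ) * (ph χ n t * (starRingEnd ℂ) (ph χ' n t')) =
      ∑ n ∈ s, (W n : ℂ) * ph χ n t * (starRingEnd ℂ) (∫ t' in E χ', θ χ' t' * ph χ' n t') := by
    intro χ χ' t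
    have := hE χ'
    have e : ∀ t', (starRingEnd ℂ) (θ χ' t') *
      ∑ n ∈ s, (W n : ℂ) * (ph χ n t * (starRingEnd ℂ) (ph χ' n t')) =
      ∑ n ∈ s, ((W n : ℂ) * ph χ n t) * (starRingEnd ℂ) (θ χ' t' * ph χ' n t') := by
      intro t'
      rw [Finset.mul_sum]
      refine Finset.sum_congr rfl fun n _ => ?_
      rw [map_mul]
      ring
    simp_rw [e]
    rw [integral_finsetSum]
    · refine Finset.sum_congr rfl fun n _ => ?_
      rw [integral_const_mul, integral_conj]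
    · intro n _
      apply Integrable.const_mul
      have := int_mul (E := E χ') (hcm.comp (hθ χ')) (fun t => by
        simpa using hθ1 χ' t) (hcm.comp (ph_meas χ' n)) (fun t => by simpa using ph_norm χ' n t)
      refine this.congr (Filter.Eventually.of_forall fun t => ?_)
      simp [map_mul]
  simp_rw [h1]
  have h2 : ∀ χ χ' : DirichletCharacter ℂ Q, ∫ t in E χ, θ χ t * ∑ n ∈ s, (W n : ℂ) * ph χ n t *
      (starRingEnd ℂ) (∫ t' in E χ', θ χ' t' * ph χ' n t') =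
      ∑ n ∈ s, (W n : ℂ) * ((∫ t in E χ, θ χ t * ph χ n t) *
        (starRingEnd ℂ) (∫ t' in E χ', θ χ' t' * ph χ' n t')) := by
    intro χ χ'
    have := hE χ
    have e : ∀ t, θ χ t * ∑ n ∈ s, (W n : ℂ) * ph χ n t *
      (starRingEnd ℂ) (∫ t' in E χ', θ χ' t' * ph χ' n t') =
      ∑ n ∈ s, ((W n : ℂ) * (starRingEnd ℂ) (∫ t' in E χ', θ χ' t' * ph χ' n t')) *
        (θ χ t * ph χ n t) := by
      intro t
      rw [Finset.mul_sum]
      refine Finset.sum_congr rfl fun n _ => ?_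
      ring
    simp_rw [e]
    rw [integral_finsetSum]
    · refine Finset.sum_congr rfl fun n _ => ?_
      rw [integral_const_mul]
      ring
    · intro n _
      apply Integrable.const_mul
      exact int_mul (hθ χ) (hθ1 χ) (ph_meas χ n) (ph_norm χ n)
  simp_rw [h2]
  rw [Finset.sum_congr rfl fun χ _ => Finset.sum_comm, Finset.sum_comm]
  push_cast
  refine Finset.sum_congr rfl fun n _ => ?_
  rw [← Complex.mul_conj', BB, map_sum, Finset.sum_mul_sum, Finset.mul_sum]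
  refine Finset.sum_congr rfl fun χ _ => ?_
  rw [Finset.mul_sum]

/-- the bound for the Gram sum -/
theorem gram_le [NeZero Q] (hE : ∀ χ, IsFiniteMeasure (volume.restrict (E χ)))
    (hEm : ∀ χ, MeasurableSet (E χ))
    (hθ : ∀ χ, Measurable (θ χ)) (hθ1 : ∀ χ t, ‖θ χ t‖ ≤ 1) {v κ c C : ℝ} (hC : 0 < C)
    (hc : 0 ≤ c)
    (N : ℕ) (hN : ∑' n, gw 1 v (n + N) ≤ κ)
    (hS : ∀ χ χ' : DirichletCharacter ℂ Q, ∀ t ∈ E χ, ∀ t' ∈ E χ',
      ‖SS (fun n => ((gw 1 v n : ℝ) : ℂ)) (χ * χ'⁻¹) (t - t')‖ ≤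
        κ + (if χ = χ' then 1 else 0) * (c * Real.exp (-(t - t') ^ 2 / C))) :
    ∑ n ∈ Finset.range N, gw 1 v n * ‖BB E θ n‖ ^ 2 ≤
      2 * κ * (∑ χ, volume.real (E χ)) ^ 2 +
        c * Real.sqrt (Real.pi * C) * ∑ χ, volume.real (E χ) := by
  classical
  have hvr : ∀ χ, (volume.restrict (E χ)).real Set.univ = volume.real (E χ) := by
    intro χ
    simp [Measure.real]
  have hG : ∀ t : ℝ, Integrable fun t' : ℝ => Real.exp (-(t - t') ^ 2 / C) := by
    intro t
    have h := (integrable_exp_neg_mul_sq (b := 1 / C) (by positivity)).comp_sub_left t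
    refine h.congr (Filter.Eventually.of_forall fun t' => ?_)
    simp only
    congr 1
    ring
  have hGi : ∀ t : ℝ, ∫ t' : ℝ, Real.exp (-(t - t') ^ 2 / C) = Real.sqrt (Real.pi * C) := by
    intro t
    have h := integral_sub_left_eq_self (fun y : ℝ => Real.exp (-(1 / C) * y ^ 2)) volume t
    rw [integral_gaussian] at h
    have e : (fun t' : ℝ => Real.exp (-(t - t') ^ 2 / C)) =
        fun t' => Real.exp (-(1 / C) * (t - t') ^ 2) := by
      funext t'
      congr 1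
      ring
    rw [e, h]
    congr 1
    field_simp
  -- inner bound
  have hin : ∀ χ χ', ∀ t ∈ E χ, ‖∫ t' in E χ', (starRingEnd ℂ) (θ χ' t') *
        ∑ n ∈ Finset.range N, (gw 1 v n : ℂ) * (ph χ n t * (starRingEnd ℂ) (ph χ' n t'))‖ ≤
      2 * κ * volume.real (E χ') +
        (if χ = χ' then 1 else 0) * (c * Real.sqrt (Real.pi * C)) := by
    intro χ χ' t ht
    have := hE χ'
    have hδ : (0 : ℝ) ≤ if χ = χ' then 1 else 0 := by split_ifs <;> norm_num
    have hint : Integrable (fun t' : ℝ => 2 * κ + (if χ = χ' then 1 else 0) *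
        (c * Real.exp (-(t - t') ^ 2 / C))) (volume.restrict (E χ')) :=
      (integrable_const _).add (((hG t).restrict.const_mul c).const_mul _)
    refine (norm_integral_le_of_norm_le hint ?_).trans ?_
    · rw [ae_restrict_iff' (hEm χ')]
      refine Filter.Eventually.of_forall fun t' ht' => ?_
      rw [norm_mul, RCLike.norm_conj]
      have e1 : ∑ n ∈ Finset.range N, (gw 1 v n : ℂ) *
          (ph χ n t * (starRingEnd ℂ) (ph χ' n t')) =
          ∑ n ∈ Finset.range N, (gw 1 v n : ℂ) * ((χ * χ'⁻¹) (n : ZMod Q) *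
            (n : ℂ) ^ (((t - t' : ℝ) : ℂ) * I)) := by
        refine Finset.sum_congr rfl fun n _ => ?_
        rcases Nat.eq_zero_or_pos n with h | h
        · subst h
          simp [gw]
        · rw [ph_mul χ χ' h]
      rw [e1]
      have h2 := part_le (χ * χ'⁻¹) v (t - t') N
      have h3 := hS χ χ' t ht t' ht'
      have h4 := hθ1 χ' t'
      calc ‖θ χ' t'‖ * ‖∑ n ∈ Finset.range N, (gw 1 v n : ℂ) * ((χ * χ'⁻¹) (n : ZMod Q) *
            (n : ℂ) ^ (((t - t' : ℝ) : ℂ) * I))‖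
          ≤ 1 * ‖∑ n ∈ Finset.range N, (gw 1 v n : ℂ) * ((χ * χ'⁻¹) (n : ZMod Q) *
            (n : ℂ) ^ (((t - t' : ℝ) : ℂ) * I))‖ := by gcongr
        _ ≤ _ := by linarith
    · rw [integral_add (integrable_const _) (((hG t).restrict.const_mul c).const_mul _),
        integral_const, hvr, integral_const_mul, integral_const_mul, smul_eq_mul]
      have h5 : ∫ t' in E χ', Real.exp (-(t - t') ^ 2 / C) ≤ Real.sqrt (Real.pi * C) := by
        rw [← hGi t]
        exact setIntegral_le_integral (hG t) (Filter.Eventually.of_forall fun _ => by positivity)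
      have h6 : (if χ = χ' then (1 : ℝ) else 0) * (c * ∫ t' in E χ', Real.exp (-(t - t') ^ 2 / C)) ≤
          (if χ = χ' then 1 else 0) * (c * Real.sqrt (Real.pi * C)) := by gcongr
      linarith
  have hout : ∀ χ χ', ‖∫ t in E χ, θ χ t * ∫ t' in E χ', (starRingEnd ℂ) (θ χ' t') *
        ∑ n ∈ Finset.range N, (gw 1 v n : ℂ) * (ph χ n t * (starRingEnd ℂ) (ph χ' n t'))‖ ≤
      (2 * κ * volume.real (E χ') +
        (if χ = χ' then 1 else 0) * (c * Real.sqrt (Real.pi * C))) * volume.real (E χ) := by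
    intro χ χ'
    have := hE χ
    refine norm_setIntegral_le_of_norm_le_const ?_ (fun t ht => ?_)
    · have := measure_lt_top (volume.restrict (E χ)) Set.univ
      simpa using this
    · rw [norm_mul]
      have h1 := hin χ χ' t ht
      have h2 := hθ1 χ t
      calc _ ≤ 1 * ‖∫ t' in E χ', (starRingEnd ℂ) (θ χ' t') *
        ∑ n ∈ Finset.range N, (gw 1 v n : ℂ) * (ph χ n t * (starRingEnd ℂ) (ph χ' n t'))‖ := by
            gcongr
        _ ≤ _ := by rw [one_mul]; exact h1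
  have hg := gram E θ hE hθ hθ1 (gw 1 v) (Finset.range N)
  have h0 : ∑ n ∈ Finset.range N, gw 1 v n * ‖BB E θ n‖ ^ 2 =
      ‖((∑ n ∈ Finset.range N, gw 1 v n * ‖BB E θ n‖ ^ 2 : ℝ) : ℂ)‖ := by
    rw [Complex.norm_real, Real.norm_of_nonneg]
    exact Finset.sum_nonneg fun n _ => mul_nonneg (gw_nonneg _ _ _) (sq_nonneg _)
  rw [h0, hg]
  calc _ ≤ ∑ χ, ∑ χ', ‖∫ t in E χ, θ χ t * ∫ t' in E χ', (starRingEnd ℂ) (θ χ' t') *
        ∑ n ∈ Finset.range N, (gw 1 v n : ℂ) * (ph χ n t * (starRingEnd ℂ) (ph χ' n t'))‖ := by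
        refine (norm_sum_le _ _).trans (Finset.sum_le_sum fun χ _ => norm_sum_le _ _)
    _ ≤ ∑ χ, ∑ χ', (2 * κ * volume.real (E χ') +
        (if χ = χ' then 1 else 0) * (c * Real.sqrt (Real.pi * C))) * volume.real (E χ) :=
        Finset.sum_le_sum fun χ _ => Finset.sum_le_sum fun χ' _ => hout χ χ'
    _ = _ := by
        have e : ∀ χ : DirichletCharacter ℂ Q, ∑ χ', (2 * κ * volume.real (E χ') +
          (if χ = χ' then 1 else 0) * (c * Real.sqrt (Real.pi * C))) * volume.real (E χ) =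
          2 * κ * (∑ χ', volume.real (E χ')) * volume.real (E χ) +
            c * Real.sqrt (Real.pi * C) * volume.real (E χ) := by
          intro χ
          rw [← Finset.sum_mul, Finset.sum_add_distrib, ← Finset.mul_sum, ← Finset.sum_mul]
          simp
          ring
        simp_rw [e]
        rw [Finset.sum_add_distrib, ← Finset.mul_sum, ← Finset.mul_sum]
        ring

end LHm

end Pool.Agent.HPP

namespace Pool.Agent.HPP

open Complex MeasureTheory

namespace LHm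

/-- the unimodular factor -/
noncomputable def th {Q : ℕ} (G : ArithmeticFunction ℝ) (χ : DirichletCharacter ℂ Q) (t : ℝ) : ℂ :=
  (starRingEnd ℂ) (DP G χ t) / (‖DP G χ t‖ : ℂ)

theorem th_meas {Q : ℕ} {G : ArithmeticFunction ℝ} (hG : (Function.support G).Finite)
    (χ : DirichletCharacter ℂ Q) : Measurable (th G χ) := by
  have h := dp_continuous hG χ
  unfold th
  exact ((Complex.continuous_conj.comp h).measurable).div
    ((Complex.continuous_ofReal.comp h.norm).measurable)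

theorem th_norm {Q : ℕ} (G : ArithmeticFunction ℝ) (χ : DirichletCharacter ℂ Q) (t : ℝ) :
    ‖th G χ t‖ ≤ 1 := by
  unfold th
  rw [norm_div, RCLike.norm_conj, Complex.norm_real, norm_norm]
  exact div_self_le_one _

theorem th_mul {Q : ℕ} (G : ArithmeticFunction ℝ) (χ : DirichletCharacter ℂ Q) (t : ℝ) :
    th G χ t * DP G χ t = (‖DP G χ t‖ : ℂ) := by
  unfold th
  rcases eq_or_ne (DP G χ t) 0 with h | h
  · simp [h]
  · have h1 : (‖DP G χ t‖ : ℂ) ≠ 0 := by
      simpa using h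
    rw [div_mul_eq_mul_div, div_eq_iff h1, Complex.conj_mul']
    ring

/-- duality -/
theorem dual {Q : ℕ} {G : ArithmeticFunction ℝ} (hG : (Function.support G).Finite)
    (E : DirichletCharacter ℂ Q → Set ℝ) (hE : ∀ χ, IsFiniteMeasure (volume.restrict (E χ)))
    (hEm : ∀ χ, MeasurableSet (E χ)) (s : Finset ℕ) (hs : ∀ n, G n ≠ 0 → n ∈ s) {U : ℝ}
    (hU : ∀ χ, ∀ t ∈ E χ, U ≤ ‖DP G χ t‖) (hb : ∀ χ, ∀ t ∈ E χ, ‖DP G χ t‖ ≤ ∑ n ∈ s, |G n|) :
    U * ∑ χ, volume.real (E χ) ≤ ∑ n ∈ s, |G n| * ‖BB E (th G) n‖ := by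
  have h1 : ∀ χ, U * volume.real (E χ) ≤ (∫ t in E χ, th G χ t * DP G χ t).re := by
    intro χ
    have := hE χ
    have e : ∫ t in E χ, th G χ t * DP G χ t = ((∫ t in E χ, ‖DP G χ t‖ : ℝ) : ℂ) := by
      rw [← integral_complex_ofReal]
      refine integral_congr_ae (Filter.Eventually.of_forall fun t => ?_)
      exact th_mul G χ t
    rw [e, Complex.ofReal_re]
    have hi : Integrable (fun t => ‖DP G χ t‖) (volume.restrict (E χ)) := by
      refine Integrable.of_bound (dp_continuous hG χ).norm.aestronglyMeasurable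
        (∑ n ∈ s, |G n|) ?_
      rw [ae_restrict_iff' (hEm χ)]
      refine Filter.Eventually.of_forall fun t ht => ?_
      rw [norm_norm]
      exact hb χ t ht
    have h2 : ∫ t in E χ, U = U * volume.real (E χ) := by
      rw [integral_const, smul_eq_mul]
      simp [Measure.real, mul_comm]
    rw [← h2]
    exact setIntegral_mono_on (integrable_const _) hi (hEm χ) (hU χ)
  have h3 : ∀ χ, ∫ t in E χ, th G χ t * DP G χ t =
      ∑ n ∈ s, (G n : ℂ) * ∫ t in E χ, th G χ t * ph χ n t := by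
    intro χ
    have := hE χ
    have e : ∀ t, th G χ t * DP G χ t = ∑ n ∈ s, (G n : ℂ) * (th G χ t * ph χ n t) := by
      intro t
      rw [dp_eq_sum s hs χ t, Finset.mul_sum]
      refine Finset.sum_congr rfl fun n _ => ?_
      unfold ph
      ring
    simp_rw [e]
    rw [integral_finsetSum]
    · refine Finset.sum_congr rfl fun n _ => ?_
      rw [integral_const_mul]
    · intro n _
      apply Integrable.const_mul
      exact int_mul (th_meas hG χ) (th_norm G χ) (ph_meas χ n) (ph_norm χ n)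
  have h4 : ∑ χ, ∫ t in E χ, th G χ t * DP G χ t = ∑ n ∈ s, (G n : ℂ) * BB E (th G) n := by
    simp_rw [h3]
    rw [Finset.sum_comm]
    refine Finset.sum_congr rfl fun n _ => ?_
    rw [BB, Finset.mul_sum]
  calc U * ∑ χ, volume.real (E χ) = ∑ χ, U * volume.real (E χ) := Finset.mul_sum _ _ _
    _ ≤ ∑ χ, (∫ t in E χ, th G χ t * DP G χ t).re := Finset.sum_le_sum fun χ _ => h1 χ
    _ = (∑ χ, ∫ t in E χ, th G χ t * DP G χ t).re := by rw [Complex.re_sum]
    _ ≤ ‖∑ χ, ∫ t in E χ, th G χ t * DP G χ t‖ := Complex.re_le_norm _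
    _ = ‖∑ n ∈ s, (G n : ℂ) * BB E (th G) n‖ := by rw [h4]
    _ ≤ ∑ n ∈ s, |G n| * ‖BB E (th G) n‖ := by
        refine (norm_sum_le _ _).trans (Finset.sum_le_sum fun n _ => ?_)
        rw [norm_mul, Complex.norm_real, Real.norm_eq_abs]

theorem comb {a b r s : ℝ} (ha : 0 ≤ a) (hb : 0 ≤ b) (hr : r ≤ 3 / 2) (hs : 0 ≤ s) :
    2 * r * a + s * b ≤ (3 + s) * (a + b) := by
  have h1 := mul_nonneg hs ha
  have h2 : 2 * r * a ≤ 3 * a := mul_le_mul_of_nonneg_right (by linarith) ha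
  linarith

theorem concl {K e R X M P : ℝ} (hX : 0 < X) (hM : 0 < M) (h1 : 2 * (K * e * R) ≤ P * X)
    (h2 : P * X * M ^ 2 ≤ K * e * (R * M ^ 2 + X * M)) : M * P ≤ 2 * (K * e) := by
  have h3 : 2 * (K * e * R) * M ^ 2 ≤ P * X * M ^ 2 :=
    mul_le_mul_of_nonneg_right h1 (sq_nonneg M)
  have h4 : X * M * (M * P) ≤ X * M * (2 * (K * e)) := by linarith
  exact le_of_mul_le_mul_left h4 (by positivity)

end LHm

open LHm in
theorem ls_hm (hPV : PVProp) {b : ℕ} (hb : 2 ≤ b) {j : ℕ} (hj : 1 ≤ j) {ε : ℝ} (hε : 0 < ε) :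
    ∃ C : ℝ, 1 ≤ C ∧ ∀ (m' : ℕ) (F : ArithmeticFunction ℝ), Sm F → ∀ (v : ℕ) (t₀ T V : ℝ), 1 ≤ T →
    0 < V → C * Real.exp (ε * v) * Real.sqrt ((b : ℝ) ^ m' * T) * Real.log ((b : ℝ) ^ m' * (2 + T)) ≤
      V ^ (2 * j) * Real.exp (j * v) →
    LM (fun _ : DirichletCharacter ℂ (b ^ m') => Set.Icc t₀ (t₀ + T)) (nt F v) V ≤
      C * Real.exp (ε * v) * (V ^ (2 * j))⁻¹ := by
  obtain ⟨C₁, hC₁, hpv⟩ := hPV b hb 1 le_rfl
  obtain ⟨C₂, hC₂, hbd⟩ := pw_bd hj (ε := ε / 4) (by positivity)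
  set K₁ : ℝ := C₂ ^ 2 * Real.exp ((j : ℝ) ^ 2) * (2 * Real.exp j) with hK₁
  set K₃ : ℝ := 1 + 2 * j / ε with hK₃
  set K : ℝ := K₁ * C₁ * K₃ * (3 + Real.sqrt (Real.pi * C₁)) with hK
  have hC₁0 : 0 < C₁ := by linarith
  have hC₂0 : 0 < C₂ := by linarith
  have hK₁0 : 0 < K₁ := by positivity
  have hK₃0 : 0 < K₃ := by positivity
  have hK0 : 0 < K := by positivity
  refine ⟨2 * K + 1, by linarith, ?_⟩
  intro m' F hF v t₀ T V hT hV hyp
  have : NeZero (b ^ m') := ⟨pow_ne_zero _ (by omega)⟩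
  set Q : ℝ := (b : ℝ) ^ m' with hQ
  have hQ1 : 1 ≤ Q := one_le_pow₀ (by exact_mod_cast (by omega : 1 ≤ b))
  set G : ArithmeticFunction ℝ := pc F v ^ j with hGdef
  set E : DirichletCharacter ℂ (b ^ m') → Set ℝ :=
    fun χ => Set.Icc t₀ (t₀ + T) ∩ {t | V ≤ nt F v χ t} with hEdef
  set M : ℝ := ∑ χ, volume.real (E χ) with hM
  have hLM : LM (fun _ : DirichletCharacter ℂ (b ^ m') => Set.Icc t₀ (t₀ + T)) (nt F v) V = M := rfl
  have hM0 : 0 ≤ M := Finset.sum_nonneg fun χ _ => measureReal_nonneg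
  have hEm : ∀ χ, MeasurableSet (E χ) := fun χ =>
    measurableSet_Icc.inter (measurableSet_le measurable_const (nt_continuous F v χ).measurable)
  have hE : ∀ χ, IsFiniteMeasure (volume.restrict (E χ)) := by
    intro χ
    refine ⟨?_⟩
    rw [Measure.restrict_apply_univ]
    exact (measure_mono Set.inter_subset_left).trans_lt (by
      rw [Real.volume_Icc]; exact ENNReal.ofReal_lt_top)
  have hGf : (Function.support G).Finite := fin_pow (pc_fin F v) j
  -- size of the coefficients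
  have hjv : (0 : ℝ) ≤ j * v := by positivity
  set N₁ : ℕ := ⌈Real.exp (j * ((v : ℝ) + 1))⌉₊ with hN₁
  set s : Finset ℕ := (Finset.range N₁).filter fun n => G n ≠ 0 with hs
  have hsm : ∀ n, G n ≠ 0 → n ∈ s := by
    intro n hn
    rw [hs, Finset.mem_filter, Finset.mem_range]
    refine ⟨?_, hn⟩
    have h := (pw_supp hj hn).2
    exact Nat.cast_lt.1 (h.trans_le (Nat.le_ceil _))
  have hcard : (s.card : ℝ) ≤ 2 * Real.exp j * Real.exp (j * v) := by
    have h1 : (s.card : ℝ) ≤ N₁ := by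
      exact_mod_cast (Finset.card_filter_le _ _).trans (by simp)
    have h2 : (N₁ : ℝ) < Real.exp (j * ((v : ℝ) + 1)) + 1 := Nat.ceil_lt_add_one (by positivity)
    have h3 : 1 ≤ Real.exp (j * ((v : ℝ) + 1)) := Real.one_le_exp (by positivity)
    have h4 : Real.exp (j * ((v : ℝ) + 1)) = Real.exp j * Real.exp (j * v) := by
      rw [← Real.exp_add]; congr 1; ring
    rw [h4] at h2 h3
    linarith
  -- the weights on the support
  have hW : ∀ n ∈ s, Real.exp (-(j : ℝ) ^ 2) ≤ gw 1 (j * v) n := by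
    intro n hn
    have hn' := (Finset.mem_filter.1 hn).2
    obtain ⟨h1, h2⟩ := pw_supp hj hn'
    have hn0 : n ≠ 0 := by
      rintro rfl
      simp at h1
      exact absurd h1 (not_lt.2 (Real.exp_pos _).le)
    have hnp : (0 : ℝ) < n := by exact_mod_cast Nat.pos_of_ne_zero hn0
    have h3 : j * ((v : ℝ) - 1) < Real.log n := by
      rw [← Real.log_exp (j * ((v : ℝ) - 1))]
      exact Real.log_lt_log (Real.exp_pos _) h1
    have h4 : Real.log n < j * ((v : ℝ) + 1) := by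
      rw [← Real.log_exp (j * ((v : ℝ) + 1))]
      exact Real.log_lt_log hnp h2
    unfold gw
    rw [if_neg hn0]
    apply Real.exp_le_exp.2
    rw [div_one]
    apply neg_le_neg
    apply sq_le_sq'
    · nlinarith
    · nlinarith
  -- the first factor
  have hfirst : ∑ n ∈ s, (G n) ^ 2 / gw 1 (j * v) n ≤
      K₁ * Real.exp (ε * v / 2) * Real.exp (j * v) := by
    have h1 : ∀ n ∈ s, (G n) ^ 2 / gw 1 (j * v) n ≤
        C₂ ^ 2 * Real.exp (ε * v / 2) * Real.exp ((j : ℝ) ^ 2) := by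
      intro n hn
      have h2 := hW n hn
      have h3 := hbd F hF v n
      have h4 : (G n) ^ 2 ≤ C₂ ^ 2 * Real.exp (ε * v / 2) := by
        rw [← sq_abs]
        calc |G n| ^ 2 ≤ (C₂ * Real.exp (ε / 4 * v)) ^ 2 := by
              apply pow_le_pow_left₀ (abs_nonneg _) h3
          _ = C₂ ^ 2 * Real.exp (ε * v / 2) := by
              rw [mul_pow, ← Real.exp_nat_mul]
              congr 2
              push_cast
              ring
      have h5 : 0 < Real.exp (-(j : ℝ) ^ 2) := Real.exp_pos _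
      rw [div_le_iff₀ (h5.trans_le h2)]
      calc (G n) ^ 2 ≤ C₂ ^ 2 * Real.exp (ε * v / 2) := h4
        _ = C₂ ^ 2 * Real.exp (ε * v / 2) * Real.exp ((j : ℝ) ^ 2) * Real.exp (-(j : ℝ) ^ 2) := by
            rw [mul_assoc _ (Real.exp ((j : ℝ) ^ 2)), ← Real.exp_add]
            simp
        _ ≤ _ := by gcongr
    calc ∑ n ∈ s, (G n) ^ 2 / gw 1 (j * v) n
        ≤ s.card • (C₂ ^ 2 * Real.exp (ε * v / 2) * Real.exp ((j : ℝ) ^ 2)) :=
          Finset.sum_le_card_nsmul _ _ _ h1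
      _ = s.card * (C₂ ^ 2 * Real.exp (ε * v / 2) * Real.exp ((j : ℝ) ^ 2)) := by
          rw [nsmul_eq_mul]
      _ ≤ (2 * Real.exp j * Real.exp (j * v)) *
            (C₂ ^ 2 * Real.exp (ε * v / 2) * Real.exp ((j : ℝ) ^ 2)) := by gcongr
      _ = _ := by rw [hK₁]; ring
  -- the second factor
  set R : ℝ := Real.sqrt (Q * T) * Real.log (Q * (2 + T)) with hR
  have hR1 : 1 ≤ R := by
    have h1 : 1 ≤ Real.sqrt (Q * T) := by
      rw [Real.one_le_sqrt]
      exact one_le_mul_of_one_le_of_one_le hQ1 hT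
    have h2 : 1 ≤ Real.log (Q * (2 + T)) := by
      rw [Real.le_log_iff_exp_le (by positivity)]
      have h3 := Real.exp_one_lt_d9
      calc Real.exp 1 ≤ 1 * (2 + T) := by linarith
        _ ≤ Q * (2 + T) := mul_le_mul_of_nonneg_right hQ1 (by linarith)
    rw [hR]
    exact one_le_mul_of_one_le_of_one_le h1 h2
  set κ : ℝ := C₁ * (1 + j * v) * (Real.sqrt 2 * R) with hκ
  have hs2 : 1 ≤ Real.sqrt 2 := by rw [Real.one_le_sqrt]; norm_num
  have hκ1 : 1 ≤ κ := by
    have h1 : 1 ≤ C₁ * (1 + j * v) :=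
      one_le_mul_of_one_le_of_one_le hC₁ (by linarith)
    have h2 : 1 ≤ Real.sqrt 2 * R := one_le_mul_of_one_le_of_one_le hs2 hR1
    rw [hκ]
    exact one_le_mul_of_one_le_of_one_le h1 h2
  obtain ⟨N, hNN, hN⟩ : ∃ N, N₁ ≤ N ∧ ∑' n, gw 1 (j * v) (n + N) ≤ κ := by
    have h := tendsto_sum_nat_add (gw 1 (j * v))
    have h1 := (h.eventually (gt_mem_nhds (show (0 : ℝ) < 1 by norm_num))).and
      (Filter.eventually_ge_atTop N₁)
    obtain ⟨N, h2, h3⟩ := h1.exists
    exact ⟨N, h3, h2.le.trans hκ1⟩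
  have hS : ∀ χ χ' : DirichletCharacter ℂ (b ^ m'), ∀ t ∈ E χ, ∀ t' ∈ E χ',
      ‖SS (fun n => ((gw 1 (j * v) n : ℝ) : ℂ)) (χ * χ'⁻¹) (t - t')‖ ≤
        κ + (if χ = χ' then 1 else 0) *
          (C₁ * (1 + j * v) * Real.exp (j * v) * Real.exp (-(t - t') ^ 2 / C₁)) := by
    intro χ χ' t ht t' ht'
    have h1 := hpv m' 0 (by norm_num) (χ * χ'⁻¹) (t - t') (j * v) hjv
    simp only [pow_zero, one_mul] at h1
    have habs : |t - t'| ≤ T := by
      have h2 := ht.1
      have h3 := ht'.1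
      rw [Set.mem_Icc] at h2 h3
      rw [abs_le]
      constructor <;> linarith
    have h4 : Real.sqrt (Q * (1 + |t - t'|)) ≤ Real.sqrt 2 * Real.sqrt (Q * T) := by
      rw [← Real.sqrt_mul (by norm_num)]
      apply Real.sqrt_le_sqrt
      calc Q * (1 + |t - t'|) ≤ Q * (2 * T) :=
            mul_le_mul_of_nonneg_left (by linarith) (by linarith)
        _ = 2 * (Q * T) := by ring
    have h5 : Real.log (Q * (2 + |t - t'|)) ≤ Real.log (Q * (2 + T)) := by
      apply Real.log_le_log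
      · positivity
      · gcongr
    have h5' : 0 ≤ Real.log (Q * (2 + |t - t'|)) := by
      apply Real.log_nonneg
      exact one_le_mul_of_one_le_of_one_le hQ1 (by linarith [abs_nonneg (t - t')])
    have h6 : Real.sqrt (Q * (1 + |t - t'|)) * Real.log (Q * (2 + |t - t'|)) ≤ Real.sqrt 2 * R := by
      calc _ ≤ Real.sqrt 2 * Real.sqrt (Q * T) * Real.log (Q * (2 + T)) :=
            mul_le_mul h4 h5 h5' (by positivity)
        _ = _ := by rw [hR]; ring
    have h7 : C₁ * (1 + j * v) * (Real.sqrt (Q * (1 + |t - t'|)) *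
        Real.log (Q * (2 + |t - t'|))) ≤ κ := by
      rw [hκ]; gcongr
    refine h1.trans ?_
    rw [mul_add]
    refine add_le_add h7 ?_
    rcases eq_or_ne χ χ' with h | h
    · subst h
      rw [if_pos (mul_inv_cancel χ), if_pos rfl, one_mul, mul_assoc (C₁ * (1 + j * v)), ← Real.exp_add]
      apply le_of_eq
      congr 2
      ring
    · have h8 : ¬ (χ * χ'⁻¹ = 1) := by
        rw [mul_inv_eq_one]
        exact h
      rw [if_neg h8, if_neg h]
      simp
  have hgram := gram_le E (th G) hE hEm (th_meas hGf) (th_norm G) (v := j * v) (κ := κ)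
    (c := C₁ * (1 + j * v) * Real.exp (j * v)) (C := C₁) hC₁0 (by positivity) N hN hS
  rw [← hM] at hgram
  -- duality
  have hU : ∀ χ, ∀ t ∈ E χ, V ^ j * Real.exp (j * v) ≤ ‖DP G χ t‖ := by
    intro χ t ht
    have h1 : V ≤ nt F v χ t := ht.2
    rw [hGdef, dp_pow (pc_fin F v), norm_pow]
    have h2 : V * Real.exp v ≤ ‖DP (pc F v) χ t‖ := by
      unfold nt at h1
      calc V * Real.exp v ≤ Real.exp (-v) * ‖DP (pc F v) χ t‖ * Real.exp v := by gcongr
        _ = (Real.exp (-v) * Real.exp v) * ‖DP (pc F v) χ t‖ := by ring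
        _ = ‖DP (pc F v) χ t‖ := by rw [← Real.exp_add]; simp
    calc V ^ j * Real.exp (j * v) = (V * Real.exp v) ^ j := by
          rw [mul_pow, ← Real.exp_nat_mul]
      _ ≤ _ := pow_le_pow_left₀ (by positivity) h2 j
  have hb' : ∀ χ, ∀ t ∈ E χ, ‖DP G χ t‖ ≤ ∑ n ∈ s, |G n| := by
    intro χ t _
    rw [dp_eq_sum s hsm χ t]
    refine (norm_sum_le _ _).trans (Finset.sum_le_sum fun n _ => ?_)
    have h1 := ph_norm χ n t
    unfold ph at h1
    rw [mul_assoc, norm_mul, Complex.norm_real, Real.norm_eq_abs]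
    calc _ ≤ |G n| * 1 := by gcongr
      _ = _ := mul_one _
  have hdual := dual hGf E hE hEm s hsm hU hb'
  rw [← hM] at hdual
  -- Cauchy-Schwarz
  have hcs : (∑ n ∈ s, |G n| * ‖BB E (th G) n‖) ^ 2 ≤
      (∑ n ∈ s, (G n) ^ 2 / gw 1 (j * v) n) * ∑ n ∈ s, gw 1 (j * v) n * ‖BB E (th G) n‖ ^ 2 := by
    apply Finset.sum_sq_le_sum_mul_sum_of_sq_le_mul
    · intro n _
      exact div_nonneg (sq_nonneg _) (gw_nonneg _ _ _)
    · intro n _
      exact mul_nonneg (gw_nonneg _ _ _) (sq_nonneg _)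
    · intro n hn
      have h1 : 0 < gw 1 (j * v) n := (Real.exp_pos _).trans_le (hW n hn)
      rw [mul_pow, sq_abs]
      apply le_of_eq
      field_simp
  have hsub : ∑ n ∈ s, gw 1 (j * v) n * ‖BB E (th G) n‖ ^ 2 ≤
      ∑ n ∈ Finset.range N, gw 1 (j * v) n * ‖BB E (th G) n‖ ^ 2 := by
    apply Finset.sum_le_sum_of_subset_of_nonneg
    · intro n hn
      have := Finset.mem_range.1 (Finset.mem_filter.1 hn).1
      exact Finset.mem_range.2 (by omega)
    · intro n _ _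
      exact mul_nonneg (gw_nonneg _ _ _) (sq_nonneg _)
  have hsq : (V ^ j * Real.exp (j * v) * M) ^ 2 ≤
      K₁ * Real.exp (ε * v / 2) * Real.exp (j * v) *
        (2 * κ * M ^ 2 + C₁ * (1 + j * v) * Real.exp (j * v) * Real.sqrt (Real.pi * C₁) * M) := by
    calc (V ^ j * Real.exp (j * v) * M) ^ 2 ≤ (∑ n ∈ s, |G n| * ‖BB E (th G) n‖) ^ 2 :=
          pow_le_pow_left₀ (by positivity) hdual 2
      _ ≤ _ := hcs
      _ ≤ _ := by
          apply mul_le_mul hfirst (hsub.trans hgram)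
          · exact Finset.sum_nonneg fun n _ => mul_nonneg (gw_nonneg _ _ _) (sq_nonneg _)
          · positivity
  -- conclusion
  have hjv3 : 1 + (j : ℝ) * v ≤ K₃ * Real.exp (ε * v / 2) := by
    have h1 := Real.add_one_le_exp (ε * v / 2)
    have h2 : K₃ * (ε * v / 2 + 1) = 1 + j * v + (ε * v / 2 + 2 * j / ε) := by
      rw [hK₃]; field_simp; ring
    have h3 : 0 ≤ ε * v / 2 + 2 * j / ε := by positivity
    have h4 := mul_le_mul_of_nonneg_left h1 hK₃0.le
    linarith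
  have hmain : V ^ (2 * j) * Real.exp (j * v) * M ^ 2 ≤
      K * Real.exp (ε * v) * (R * M ^ 2 + Real.exp (j * v) * M) := by
    have hsq2 : Real.sqrt 2 ≤ 3 / 2 := by
      rw [Real.sqrt_le_left (by norm_num)]
      norm_num
    have e1 : (V ^ j * Real.exp (j * v) * M) ^ 2 =
        Real.exp (j * v) * (V ^ (2 * j) * Real.exp (j * v) * M ^ 2) := by
      rw [pow_mul']
      ring
    have e2 : K₁ * Real.exp (ε * v / 2) * Real.exp (j * v) *
        (2 * κ * M ^ 2 + C₁ * (1 + j * v) * Real.exp (j * v) * Real.sqrt (Real.pi * C₁) * M) =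
        Real.exp (j * v) * (K₁ * Real.exp (ε * v / 2) * (C₁ * (1 + j * v)) *
          (2 * Real.sqrt 2 * R * M ^ 2 + Real.sqrt (Real.pi * C₁) * (Real.exp (j * v) * M))) := by
      rw [hκ]; ring
    rw [e1, e2] at hsq
    have h1 := le_of_mul_le_mul_left hsq (Real.exp_pos _)
    refine h1.trans ?_
    have hsp : 0 ≤ Real.sqrt (Real.pi * C₁) := Real.sqrt_nonneg _
    have h2 : 2 * Real.sqrt 2 * R * M ^ 2 + Real.sqrt (Real.pi * C₁) * (Real.exp (j * v) * M) ≤
        (3 + Real.sqrt (Real.pi * C₁)) * (R * M ^ 2 + Real.exp (j * v) * M) := by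
      have h3 : 0 ≤ R * M ^ 2 := by positivity
      have h4 : 0 ≤ Real.exp (j * v) * M := by positivity
      rw [mul_assoc _ R]
      exact comb h3 h4 hsq2 hsp
    calc _ ≤ K₁ * Real.exp (ε * v / 2) * (C₁ * (K₃ * Real.exp (ε * v / 2))) *
          ((3 + Real.sqrt (Real.pi * C₁)) * (R * M ^ 2 + Real.exp (j * v) * M)) := by gcongr
      _ = K * (Real.exp (ε * v / 2) * Real.exp (ε * v / 2)) *
          (R * M ^ 2 + Real.exp (j * v) * M) := by rw [hK]; ring
      _ = _ := by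
          rw [← Real.exp_add]
          congr 3
          ring
  rw [hLM]
  have hVp : 0 < V ^ (2 * j) := by positivity
  rw [← div_eq_mul_inv, le_div_iff₀ hVp]
  rcases hM0.eq_or_lt with h | hMp
  · rw [← h]
    simp only [zero_mul]
    positivity
  · have h1 : 2 * (K * Real.exp (ε * v) * R) ≤ V ^ (2 * j) * Real.exp (j * v) := by
      refine le_trans ?_ hyp
      have h2 : (2 * K + 1) * Real.exp (ε * v) * Real.sqrt (Q * T) * Real.log (Q * (2 + T)) =
          2 * (K * Real.exp (ε * v) * R) + Real.exp (ε * v) * R := by rw [hR]; ring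
      rw [h2]
      have : 0 ≤ Real.exp (ε * v) * R := by positivity
      linarith
    have h6 := concl (Real.exp_pos (j * v)) hMp h1 hmain
    have h7 := Real.exp_pos (ε * v)
    linarith

end Pool.Agent.HPP
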