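import Pool.Agent.HPP.VLMv
import Pool.Agent.HPP.VLHm
import Pool.Agent.HPP.VAux

/-!
# HPP/VCase: level sets of factors having a power of length in `[(2/3) L, L]` (Case A of V7)
-/

namespace Pool.Agent.HPP

open Complex MeasureTheory

/-- `c (X + 2) ≤ exp (η X)` for large `X` -/
theorem lin_le_exp (c : ℝ) {η : ℝ} (hη : 0 < η) : ∃ X₀ : ℝ, 1 ≤ X₀ ∧ ∀ X : ℝ, X₀ ≤ X →
    c * (X + 2) ≤ Real.exp (η * X) := by
  refine ⟨max 1 (6 * |c| / η ^ 2), le_max_left _ _, fun X hX => ?_⟩
  have h1 : 1 ≤ X := (le_max_left _ _).trans hX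
  have h2 : 6 * |c| / η ^ 2 ≤ X := (le_max_right _ _).trans hX
  rw [div_le_iff₀ (by positivity)] at h2
  have h3 : (η * X) ^ 2 / 2 ≤ Real.exp (η * X) := by
    have := Real.quadratic_le_exp_of_nonneg (x := η * X) (by positivity)
    nlinarith [mul_pos hη (by linarith : 0 < X)]
  calc c * (X + 2) ≤ |c| * (X + 2) := mul_le_mul_of_nonneg_right (le_abs_self c) (by linarith)
    _ ≤ |c| * (3 * X) := mul_le_mul_of_nonneg_left (by linarith) (abs_nonneg c)
    _ ≤ (η * X) ^ 2 / 2 := by nlinarith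
    _ ≤ _ := h3

theorem log_QT {b m' : ℕ} (hb : 2 ≤ b) {T T0 X f : ℝ} (hf : f ≤ 1) (hX : 0 ≤ X) (h1 : 1 ≤ T0)
    (h2 : T0 ≤ T) (hD : (b : ℝ) ^ m' * T ≤ Real.exp (f * X)) :
    Real.log ((b : ℝ) ^ m' * (2 + T0)) ≤ X + 2 := by
  have hb0 : (0 : ℝ) < (b : ℝ) ^ m' := by positivity
  have h3 : (b : ℝ) ^ m' * (2 + T0) ≤ 3 * Real.exp X := by
    have : Real.exp (f * X) ≤ Real.exp X := Real.exp_le_exp.2 (by nlinarith)
    nlinarith
  have h4 : (0 : ℝ) < (b : ℝ) ^ m' * (2 + T0) := by positivity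
  calc Real.log ((b : ℝ) ^ m' * (2 + T0)) ≤ Real.log (3 * Real.exp X) := Real.log_le_log h4 h3
    _ = Real.log 3 + X := by
        rw [Real.log_mul (by norm_num) (Real.exp_pos _).ne', Real.log_exp]
    _ ≤ X + 2 := by
        have : Real.log 3 ≤ 3 - 1 := Real.log_le_sub_one_of_pos (by norm_num)
        linarith

/-- Case A: some power `j` of the factor has length `j v ∈ [(2/3) L log x, L log x]` -/
theorem case_A (hPV : PVProp) {f L νm : ℝ} (hf : 0 < f) (hfL : f < 5 / 6 * L) (hL1 : L ≤ 1)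
    (hν : 0 < νm) {b : ℕ} (hb : 2 ≤ b) {ε : ℝ} (hε : 0 < ε) : ∃ X₀ : ℝ, 1 ≤ X₀ ∧ ∀ X : ℝ, X₀ ≤ X →
    ∀ (m' : ℕ) (T : ℝ), 1 ≤ T → (b : ℝ) ^ m' ≤ T → (b : ℝ) ^ m' * T ≤ Real.exp (f * X) →
    ∀ F : ArithmeticFunction ℝ, Sm F → ∀ v j : ℕ, 1 ≤ j → νm * X ≤ v →
    2 / 3 * L * X ≤ j * v → (j : ℝ) * v ≤ L * X → ∀ u : ℝ, 0 ≤ u →
    LM (fun _ : DirichletCharacter ℂ (b ^ m') => Set.Icc (-T) T) (nt F v) (Real.exp (-(u * v))) ≤
      Real.exp (ε * X + 2 * L * X * u) := by
  have hL : 0 < L := by linarith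
  set η : ℝ := min (ε / 4) (f / 10) with hη
  have hη0 : 0 < η := lt_min (by linarith) (by linarith)
  have hη1 : η ≤ ε / 4 := min_le_left _ _
  have hη2 : η ≤ f / 10 := min_le_right _ _
  set δ : ℝ := η / 2 with hδ
  have hδ0 : 0 < δ := by positivity
  choose C1 hC1 using fun j : ℕ => ls_mv (j := j + 1) (by omega) hδ0
  choose C2 hC2 using fun j : ℕ => ls_hm hPV hb (j := j + 1) (by omega) hδ0
  set J : ℕ := ⌊L / νm⌋₊ with hJ
  set C : ℝ := ∑ j ∈ Finset.range (J + 1), (C1 j + C2 j) with hC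
  have hCle : ∀ j ≤ J, C1 j ≤ C ∧ C2 j ≤ C := by
    intro j hj
    have h1 : C1 j + C2 j ≤ C := by
      rw [hC]
      refine Finset.single_le_sum (f := fun j => C1 j + C2 j) (fun i _ => ?_)
        (Finset.mem_range.2 (by omega))
      have h1 := (hC1 i).1
      have h2 := (hC2 i).1
      linarith
    have h2 := (hC1 j).1
    have h3 := (hC2 j).1
    constructor <;> linarith
  have hC0 : 0 ≤ C := by
    have h1 := (hCle 0 (by omega)).1
    have h2 := (hC1 0).1
    linarith
  obtain ⟨X₀, hX₀1, hX₀⟩ := lin_le_exp (6 * C) (η := η / 2) (by positivity)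
  refine ⟨X₀, hX₀1, fun X hX m' T hT1 hTQ hD F hF v j hj hv hA1 hA2 u hu => ?_⟩
  have hX1 : 1 ≤ X := hX₀1.trans hX
  have hX0 : 0 < X := by linarith
  have hv0 : 0 < (v : ℝ) := lt_of_lt_of_le (by positivity) hv
  have hj1 : (1 : ℝ) ≤ j := by exact_mod_cast hj
  have hvX : (v : ℝ) ≤ X := by
    have : (v : ℝ) ≤ j * v := by nlinarith
    nlinarith
  -- the index
  have hjJ : j - 1 ≤ J := by
    have h1 : (j : ℝ) ≤ L / νm := by
      rw [le_div_iff₀ hν]
      have : (j : ℝ) * (νm * X) ≤ L * X := (mul_le_mul_of_nonneg_left hv (by positivity)).trans hA2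
      nlinarith
    have h2 : j ≤ J := Nat.le_floor h1
    omega
  have hjj : j - 1 + 1 = j := by omega
  obtain ⟨hc1, hc2⟩ := hCle (j - 1) hjJ
  have hM1 := (hC1 (j - 1)).2
  have hM2 := (hC2 (j - 1)).2
  rw [hjj] at hM1 hM2
  -- the budget
  have hbud : 6 * C * (X + 2) * Real.exp (δ * v) ≤ Real.exp (η * X) := by
    have h1 := hX₀ X hX
    have h2 : Real.exp (δ * v) ≤ Real.exp (η / 2 * X) := Real.exp_le_exp.2 (by
      rw [hδ]; nlinarith)
    calc 6 * C * (X + 2) * Real.exp (δ * v) ≤ Real.exp (η / 2 * X) * Real.exp (η / 2 * X) :=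
          mul_le_mul h1 h2 (Real.exp_pos _).le (Real.exp_pos _).le
      _ = Real.exp (η * X) := by rw [← Real.exp_add]; congr 1; ring
  have hbud1 : 6 * C * Real.exp (δ * v) ≤ Real.exp (η * X) := by
    refine le_trans ?_ hbud
    have : 0 ≤ 6 * C * Real.exp (δ * v) := by positivity
    nlinarith
  have hQ0 : (0 : ℝ) < (b : ℝ) ^ m' := by positivity
  have hQ1 : 1 ≤ b ^ m' := Nat.one_le_pow _ _ (by omega)
  have hQQ : ((b ^ m' : ℕ) : ℝ) = (b : ℝ) ^ m' := by push_cast; ring
  set A : ℝ := j * v with hAd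
  have hA0 : 0 < A := by positivity
  have hLX : 0 < L * X := by positivity
  have hηX : 0 < η * X := by positivity
  have hηε : η * X ≤ ε / 4 * X := mul_le_mul_of_nonneg_right hη1 hX0.le
  have hηf : η * X ≤ f / 10 * X := mul_le_mul_of_nonneg_right hη2 hX0.le
  have hfLX : f * X ≤ 5 / 6 * L * X := mul_le_mul_of_nonneg_right hfL.le hX0.le
  set V : ℝ := Real.exp (-(u * v)) with hVd
  have hV0 : 0 < V := Real.exp_pos _
  have hVp : V ^ (2 * j) = Real.exp (-(2 * A * u)) := by
    rw [hVd, ← Real.exp_nat_mul]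
    congr 1
    push_cast
    rw [hAd]; ring
  have hVi : (V ^ (2 * j))⁻¹ = Real.exp (2 * A * u) := by
    rw [hVp, ← Real.exp_neg, neg_neg]
  have hAu : 2 * A * u ≤ 2 * L * X * u := by
    have := mul_le_mul_of_nonneg_right hA2 hu
    linarith
  rcases le_or_gt u (1 / 4) with hu4 | hu4
  · -- Halasz-Montgomery with subdivision
    set d : ℝ := 2 * A * (1 - 2 * u) - 2 * η * X with hd
    have hdA : A - 2 * η * X ≤ d := by
      rw [hd]
      have : 0 ≤ A * (1 - 4 * u) := mul_nonneg hA0.le (by linarith)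
      linarith
    have hdf : f * X / 2 ≤ d := by
      linarith
    have hQd : (b : ℝ) ^ m' ≤ Real.exp d := by
      have h1 : ((b : ℝ) ^ m') ^ 2 ≤ Real.exp (f * X) := by
        calc ((b : ℝ) ^ m') ^ 2 = (b : ℝ) ^ m' * (b : ℝ) ^ m' := by ring
          _ ≤ (b : ℝ) ^ m' * T := mul_le_mul_of_nonneg_left hTQ hQ0.le
          _ ≤ _ := hD
      have h2 : Real.exp (f * X) ≤ Real.exp d ^ 2 := by
        rw [← Real.exp_nat_mul]
        refine Real.exp_le_exp.2 ?_
        push_cast
        linarith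
      exact (pow_le_pow_iff_left₀ hQ0.le (Real.exp_pos _).le (by norm_num)).1 (h1.trans h2)
    set T0 : ℝ := min T (Real.exp d / (b : ℝ) ^ m') with hT0
    have hT01 : 1 ≤ T0 := le_min hT1 (by rwa [le_div_iff₀ hQ0, one_mul])
    have hT0T : T0 ≤ T := min_le_left _ _
    have hQT0 : (b : ℝ) ^ m' * T0 ≤ Real.exp d := by
      have : T0 ≤ Real.exp d / (b : ℝ) ^ m' := min_le_right _ _
      rw [le_div_iff₀ hQ0] at this
      linarith
    have hsq : Real.sqrt ((b : ℝ) ^ m' * T0) ≤ Real.exp (d / 2) := by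
      refine Real.sqrt_le_iff.2 ⟨(Real.exp_pos _).le, ?_⟩
      rw [← Real.exp_nat_mul]
      refine hQT0.trans (le_of_eq ?_)
      congr 1
      push_cast
      ring
    have hlog : Real.log ((b : ℝ) ^ m' * (2 + T0)) ≤ X + 2 :=
      log_QT hb (by linarith) hX0.le hT01 hT0T hD
    have hlog0 : 0 ≤ Real.log ((b : ℝ) ^ m' * (2 + T0)) := by
      refine Real.log_nonneg ?_
      have h1 : (1 : ℝ) ≤ (b : ℝ) ^ m' := by exact_mod_cast hQ1
      nlinarith
    have hcond : C2 (j - 1) * Real.exp (δ * v) * Real.sqrt ((b : ℝ) ^ m' * T0) *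
        Real.log ((b : ℝ) ^ m' * (2 + T0)) ≤ V ^ (2 * j) * Real.exp (j * v) := by
      have h1 : C2 (j - 1) * Real.exp (δ * v) * (X + 2) ≤ Real.exp (η * X) := by
        refine le_trans ?_ hbud
        have h3 : 0 ≤ Real.exp (δ * v) * (X + 2) := by positivity
        nlinarith
      have hC2n : 0 ≤ C2 (j - 1) := by linarith [(hC2 (j - 1)).1]
      calc C2 (j - 1) * Real.exp (δ * v) * Real.sqrt ((b : ℝ) ^ m' * T0) *
            Real.log ((b : ℝ) ^ m' * (2 + T0))
          ≤ C2 (j - 1) * Real.exp (δ * v) * Real.exp (d / 2) * (X + 2) := by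
            refine mul_le_mul (mul_le_mul_of_nonneg_left hsq (by positivity)) hlog hlog0
              (by positivity)
        _ = C2 (j - 1) * Real.exp (δ * v) * (X + 2) * Real.exp (d / 2) := by ring
        _ ≤ Real.exp (η * X) * Real.exp (d / 2) :=
            mul_le_mul_of_nonneg_right h1 (Real.exp_pos _).le
        _ = V ^ (2 * j) * Real.exp (j * v) := by
            rw [hVp, ← Real.exp_add, ← Real.exp_add]
            congr 1
            rw [hd]
            ring
    have hB : ∀ t₀ : ℝ, LM (fun _ : DirichletCharacter ℂ (b ^ m') => Set.Icc t₀ (t₀ + T0))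
        (nt F v) V ≤ C2 (j - 1) * Real.exp (δ * v) * (V ^ (2 * j))⁻¹ :=
      fun t₀ => hM2 m' F hF v t₀ T0 V hT01 hV0 hcond
    refine (LM_cover (by linarith) hT0T hB).trans ?_
    rw [hVi]
    have hTT : T / T0 ≤ max 1 (Real.exp (f * X - d)) := by
      rcases le_total T (Real.exp d / (b : ℝ) ^ m') with h | h
      · rw [hT0, min_eq_left h, div_self (by linarith)]
        exact le_max_left _ _
      · rw [hT0, min_eq_right h]
        refine le_trans ?_ (le_max_right _ _)
        rw [div_div_eq_mul_div, div_le_iff₀ (Real.exp_pos _), ← Real.exp_add]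
        calc T * (b : ℝ) ^ m' = (b : ℝ) ^ m' * T := by ring
          _ ≤ Real.exp (f * X) := hD
          _ = _ := by congr 1; ring
    have h5 : 3 * (T / T0) * (C2 (j - 1) * Real.exp (δ * v) * Real.exp (2 * A * u)) ≤
        max 1 (Real.exp (f * X - d)) * (Real.exp (η * X) * Real.exp (2 * A * u)) := by
      have h6 : 3 * (C2 (j - 1) * Real.exp (δ * v)) ≤ Real.exp (η * X) := by
        refine le_trans ?_ hbud1
        have h7 : C2 (j - 1) * Real.exp (δ * v) ≤ C * Real.exp (δ * v) :=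
          mul_le_mul_of_nonneg_right hc2 (Real.exp_pos _).le
        have h8 : 0 ≤ C * Real.exp (δ * v) := by positivity
        linarith
      have h9 : 0 ≤ T / T0 := by positivity
      calc 3 * (T / T0) * (C2 (j - 1) * Real.exp (δ * v) * Real.exp (2 * A * u))
          = (T / T0) * (3 * (C2 (j - 1) * Real.exp (δ * v)) * Real.exp (2 * A * u)) := by ring
        _ ≤ (T / T0) * (Real.exp (η * X) * Real.exp (2 * A * u)) :=
            mul_le_mul_of_nonneg_left (mul_le_mul_of_nonneg_right h6 (Real.exp_pos _).le) h9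
        _ ≤ _ := mul_le_mul_of_nonneg_right hTT (by positivity)
    refine h5.trans ?_
    rw [← Real.exp_add]
    rcases le_total (Real.exp (f * X - d)) 1 with h6 | h6
    · rw [max_eq_left h6, one_mul]
      refine Real.exp_le_exp.2 ?_
      linarith
    · rw [max_eq_right h6, ← Real.exp_add]
      refine Real.exp_le_exp.2 ?_
      rw [hd]
      have k2 : 5 / 6 * (L * X) ≤ 2 * A - 6 * A * u + 2 * L * X * u := by
        have k3 : 0 ≤ (A - 2 / 3 * L * X) * (1 - 3 * u) :=
          mul_nonneg (by linarith) (by linarith)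
        have k4 : 0 ≤ L * X * (1 / 4 - u) := mul_nonneg hLX.le (by linarith)
        linarith
      linarith
  · -- mean value theorem
    have h1 : LM (fun _ : DirichletCharacter ℂ (b ^ m') => Set.Icc (0 - T) (0 + T)) (nt F v) V ≤
        C1 (j - 1) * Real.exp (δ * v) * (V ^ (2 * j))⁻¹ *
          (1 + (b ^ m' : ℕ) * T * Real.exp (-(j * v))) :=
      hM1 (b ^ m') hQ1 F hF v 0 T V hT1 hV0
    rw [zero_sub, zero_add, hVi, hQQ] at h1
    refine h1.trans ?_
    have h2 : 1 + (b : ℝ) ^ m' * T * Real.exp (-A) ≤ 2 * max 1 (Real.exp (f * X - A)) := by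
      have h3 : (b : ℝ) ^ m' * T * Real.exp (-A) ≤ Real.exp (f * X - A) := by
        rw [sub_eq_add_neg, Real.exp_add]
        exact mul_le_mul_of_nonneg_right hD (Real.exp_pos _).le
      have h4 := le_max_left 1 (Real.exp (f * X - A))
      have h5 := le_max_right 1 (Real.exp (f * X - A))
      linarith
    have h6 : 2 * (C1 (j - 1) * Real.exp (δ * v)) ≤ Real.exp (η * X) := by
      refine le_trans ?_ hbud1
      have h7 : C1 (j - 1) * Real.exp (δ * v) ≤ C * Real.exp (δ * v) :=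
        mul_le_mul_of_nonneg_right hc1 (Real.exp_pos _).le
      have h8 : 0 ≤ C * Real.exp (δ * v) := by positivity
      linarith
    have hC1n : 0 ≤ C1 (j - 1) := by linarith [(hC1 (j - 1)).1]
    calc C1 (j - 1) * Real.exp (δ * v) * Real.exp (2 * A * u) *
          (1 + (b : ℝ) ^ m' * T * Real.exp (-(j * v)))
        ≤ C1 (j - 1) * Real.exp (δ * v) * Real.exp (2 * A * u) *
          (2 * max 1 (Real.exp (f * X - A))) :=
          mul_le_mul_of_nonneg_left h2 (by positivity)
      _ = 2 * (C1 (j - 1) * Real.exp (δ * v)) * Real.exp (2 * A * u) *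
          max 1 (Real.exp (f * X - A)) := by ring
      _ ≤ Real.exp (η * X) * Real.exp (2 * A * u) * max 1 (Real.exp (f * X - A)) := by
          refine mul_le_mul_of_nonneg_right
            (mul_le_mul_of_nonneg_right h6 (Real.exp_pos _).le) ?_
          exact le_trans zero_le_one (le_max_left _ _)
      _ ≤ _ := by
          rw [← Real.exp_add]
          rcases le_total (Real.exp (f * X - A)) 1 with h7 | h7
          · rw [max_eq_left h7, mul_one]
            refine Real.exp_le_exp.2 ?_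
            linarith
          · rw [max_eq_right h7, ← Real.exp_add]
            refine Real.exp_le_exp.2 ?_
            have k3 : 0 ≤ (L * X - A) * (u - 1 / 4) := mul_nonneg (by linarith) (by linarith)
            linarith

end Pool.Agent.HPP
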