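import Pool.Agent.HPP.Iface

/-!
# HPP/VDefs: definitions of Part V (large values of prime polynomials)

A smooth partition of unity in `log n` (instead of Gaussians) makes all factors finite sums:
`uw (y) = S (y + 1) - S (y)`, `S = Real.smoothTransition`, is `C^∞`, supported in `[-1, 1]`, and
`∑_v uw (y - v) = 1`. Factors: `pc F v` (the piece `n ≈ exp v` of `F`), `F` one of the three types
`tyf Z`: `1`, `log n`, `μ(n) 1_{n ≤ Z}`; `DP F χ t = ∑ F(n) χ(n) n^(it)`;
`nt F v χ t = exp (-v) ‖DP (pc F v) χ t‖` the normalised factor.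
-/

namespace Pool.Agent.HPP

open Complex MeasureTheory

/-- smooth partition of unity -/
noncomputable def uw (y : ℝ) : ℝ := Real.smoothTransition (y + 1) - Real.smoothTransition y

theorem uw_contDiff : ContDiff ℝ ((⊤ : ℕ∞) : WithTop ℕ∞) uw := by
  unfold uw
  exact (Real.smoothTransition.contDiff.comp (contDiff_id.add contDiff_const)).sub
    Real.smoothTransition.contDiff

theorem uw_continuous : Continuous uw := uw_contDiff.continuous

theorem uw_nonneg (y : ℝ) : 0 ≤ uw y := by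
  unfold uw
  have := Real.smoothTransition.monotone (by linarith : y ≤ y + 1)
  linarith

theorem uw_le_one (y : ℝ) : uw y ≤ 1 := by
  unfold uw
  have h1 := Real.smoothTransition.le_one (y + 1)
  have h2 := Real.smoothTransition.nonneg y
  linarith

theorem uw_zero {y : ℝ} (h : 1 ≤ |y|) : uw y = 0 := by
  unfold uw
  rcases le_abs'.1 h with h | h
  · rw [Real.smoothTransition.zero_of_nonpos (by linarith),
      Real.smoothTransition.zero_of_nonpos (by linarith)]
    ring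
  · rw [Real.smoothTransition.one_of_one_le (by linarith),
      Real.smoothTransition.one_of_one_le (by linarith)]
    ring

theorem uw_abs_lt {y : ℝ} (h : uw y ≠ 0) : |y| < 1 := by
  by_contra h'
  exact h (uw_zero (not_lt.1 h'))

theorem sum_uw {y : ℝ} {M : ℕ} (h0 : 0 ≤ y) (h1 : y + 1 ≤ M) :
    ∑ v ∈ Finset.range M, uw (y - v) = 1 := by
  have h2 : ∀ N : ℕ, ∑ v ∈ Finset.range N, uw (y - v) =
      Real.smoothTransition (y + 1) - Real.smoothTransition (y + 1 - N) := by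
    intro N
    induction N with
    | zero => simp
    | succ N ih =>
      rw [Finset.sum_range_succ, ih]
      unfold uw
      push_cast
      have e1 : y - (N : ℝ) + 1 = y + 1 - N := by ring
      have e2 : y + 1 - ((N : ℝ) + 1) = y - N := by ring
      rw [e1, e2]
      ring
  rw [h2, Real.smoothTransition.one_of_one_le (by linarith),
    Real.smoothTransition.zero_of_nonpos (by linarith)]
  ring

/-- the truncated Moebius function -/
noncomputable def mz (Z : ℝ) : ArithmeticFunction ℝ :=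
  ⟨fun n => if (n : ℝ) ≤ Z then (ArithmeticFunction.moebius n : ℝ) else 0, by simp⟩

/-- the three types of factors: `0`: `1`, `1`: `log n`, `2`: `μ(n) 1_{n ≤ Z}` -/
noncomputable def tyf (Z : ℝ) : Fin 3 → ArithmeticFunction ℝ
  | 0 => (ArithmeticFunction.zeta : ArithmeticFunction ℝ)
  | 1 => ArithmeticFunction.log
  | 2 => mz Z

/-- the hypothesis on coefficients used everywhere -/
def Sm (F : ArithmeticFunction ℝ) : Prop := ∀ n : ℕ, |F n| ≤ 1 + Real.log n

theorem tyf_sm (Z : ℝ) (k : Fin 3) : Sm (tyf Z k) := by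
  intro n
  have hl : 0 ≤ Real.log n := Real.log_natCast_nonneg n
  fin_cases k
  · show |((ArithmeticFunction.zeta : ArithmeticFunction ℝ) n)| ≤ _
    rw [ArithmeticFunction.natCoe_apply, ArithmeticFunction.zeta_apply]
    split_ifs <;> simp <;> linarith
  · show |ArithmeticFunction.log n| ≤ _
    rw [ArithmeticFunction.log_apply, abs_of_nonneg hl]
    linarith
  · show |if (n : ℝ) ≤ Z then (ArithmeticFunction.moebius n : ℝ) else 0| ≤ _
    split_ifs
    · have h := ArithmeticFunction.abs_moebius_le_one (n := n)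
      have h' : |(ArithmeticFunction.moebius n : ℝ)| ≤ 1 := by exact_mod_cast h
      linarith
    · simp
      linarith

/-- the piece `n ≈ exp v` of `F` -/
noncomputable def pc (F : ArithmeticFunction ℝ) (v : ℕ) : ArithmeticFunction ℝ :=
  ⟨fun n => F n * uw (Real.log n - v), by simp⟩

theorem pc_apply (F : ArithmeticFunction ℝ) (v n : ℕ) :
    pc F v n = F n * uw (Real.log n - v) := rfl

/-- Dirichlet series `∑ F(n) χ(n) n^(it)` of an arithmetic function (finitely supported in all uses) -/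
noncomputable def DP {Q : ℕ} (F : ArithmeticFunction ℝ) (χ : DirichletCharacter ℂ Q) (t : ℝ) : ℂ :=
  SS (fun n => ((F n : ℝ) : ℂ)) χ t

/-- the normalised factor -/
noncomputable def nt {Q : ℕ} (F : ArithmeticFunction ℝ) (v : ℕ) (χ : DirichletCharacter ℂ Q)
    (t : ℝ) : ℝ := Real.exp (-v) * ‖DP (pc F v) χ t‖

/-- total measure of the level sets `{(χ, t) : t ∈ G χ, h(χ, t) ≥ V}` -/
noncomputable def LM {Q : ℕ} (G : DirichletCharacter ℂ Q → Set ℝ)
    (h : DirichletCharacter ℂ Q → ℝ → ℝ) (V : ℝ) : ℝ :=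
  ∑ χ : DirichletCharacter ℂ Q, volume.real (G χ ∩ {t | V ≤ h χ t})

/-- types of the factors of the `j`-th term of the Heath-Brown identity:
`j` times `μ_Z`, `j - 1` times `1`, one `log` -/
def fac (j : ℕ) (i : Fin (2 * j)) : Fin 3 :=
  if i.val < j then 2 else if i.val + 1 < 2 * j then 0 else 1

/-- the relevant vectors of lengths -/
noncomputable def VV (e x : ℝ) (j : ℕ) : Finset (Fin (2 * j) → ℕ) :=
  (Fintype.piFinset fun _ => Finset.range (⌊2 * Real.log x⌋₊ + 3)).filter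
    fun v => |(∑ i, (v i : ℝ)) - Real.log x| ≤ e * Real.log x

/-- the kernel with `exp (-y²) = ∫ gk ξ exp (iξy) dξ` -/
noncomputable def gk (ξ : ℝ) : ℝ := Real.exp (-ξ ^ 2 / 4) / (2 * Real.sqrt Real.pi)

/-- level set bound: for factors of length `exp v`, `v ≥ νm log x`, and levels `x^(-u) ≤ V ≤ 1` -/
def LSAt (f L u νm : ℝ) : Prop :=
  ∀ b : ℕ, 2 ≤ b → ∀ ε : ℝ, 0 < ε → ∀ κ : ℝ, 0 < κ → ∃ x₀ : ℝ, ∀ x : ℝ, x₀ ≤ x →
  ∀ (m' : ℕ) (T : ℝ), 1 ≤ m' → (b : ℝ) ^ m' ≤ T → (b : ℝ) ^ m' * T ≤ x ^ f →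
  ∀ (k : Fin 3) (v : ℕ), νm * Real.log x ≤ v → (v : ℝ) ≤ 3 * Real.log x →
  ∀ V : ℝ, x ^ (-u) ≤ V → V ≤ 1 →
  LM (fun χ : DirichletCharacter ℂ (b ^ m') => Gt χ (x ^ κ) T) (nt (tyf (x ^ (1 / 20 : ℝ)) k) v) V ≤
    x ^ ε * V ^ (-(2 * L * Real.log x / v))

/-- moment bound above the level `x^(-u)` -/
def MomAt (f p u : ℝ) : Prop :=
  ∀ b : ℕ, 2 ≤ b → ∀ ε : ℝ, 0 < ε → ∀ κ : ℝ, 0 < κ → ∃ x₀ : ℝ, ∀ x : ℝ, x₀ ≤ x → ∀ (m' : ℕ) (T : ℝ),
  1 ≤ m' → (b : ℝ) ^ m' ≤ T → (b : ℝ) ^ m' * T ≤ x ^ f →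
  ∑ χ : DirichletCharacter ℂ (b ^ m'),
    ∫ t in Gt χ (x ^ κ) T ∩ {t | x ^ (-u) ≤ ‖PP χ t x‖ / x}, (‖PP χ t x‖ / x) ^ p ≤ x ^ ε

end Pool.Agent.HPP
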