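import Pool.Agent.HPP.VPow

/-!
# HPP/VHBa: algebra of the Heath-Brown identity (helper72)

Products of arithmetic functions: agreement below a bound, support, `ℓ¹` bound, Dirichlet series;
the identity `Λ n = ∑_{j=1}^{40} (-1)^(j-1) C(40,j) (∏_{i < 2j} tyf Z (fac j i)) n` for `n ≤ Z^40`.
-/

namespace Pool.Agent.HPP

open Complex MeasureTheory ArithmeticFunction

/-- evaluation at `n` -/
noncomputable def evAF (n : ℕ) : ArithmeticFunction ℝ →+ ℝ where
  toFun F := F n
  map_zero' := rfl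
  map_add' _ _ := rfl

theorem evAF_apply (n : ℕ) (F : ArithmeticFunction ℝ) : evAF n F = F n := rfl

theorem af_sum_apply {ι : Type*} (s : Finset ι) (F : ι → ArithmeticFunction ℝ) (n : ℕ) :
    (∑ i ∈ s, F i) n = ∑ i ∈ s, F i n := map_sum (evAF n) F s

theorem af_mul_agree {F G F' G' : ArithmeticFunction ℝ} {X : ℕ}
    (h1 : ∀ d ≤ X, F d = F' d) (h2 : ∀ d ≤ X, G d = G' d) : ∀ n ≤ X, (F * G) n = (F' * G') n := by
  intro n hn
  rw [mul_apply, mul_apply]
  refine Finset.sum_congr rfl fun p hp => ?_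
  obtain ⟨h3, h4⟩ := Nat.mem_divisorsAntidiagonal.1 hp
  have a1 : p.1 ≤ n := Nat.le_of_dvd (Nat.pos_of_ne_zero h4) ⟨p.2, h3.symm⟩
  have a2 : p.2 ≤ n := Nat.le_of_dvd (Nat.pos_of_ne_zero h4) ⟨p.1, by rw [mul_comm]; exact h3.symm⟩
  rw [h1 _ (a1.trans hn), h2 _ (a2.trans hn)]

theorem af_prod_agree {ι : Type*} (s : Finset ι) {F F' : ι → ArithmeticFunction ℝ} {X : ℕ}
    (h : ∀ i ∈ s, ∀ d ≤ X, F i d = F' i d) : ∀ n ≤ X, (∏ i ∈ s, F i) n = (∏ i ∈ s, F' i) n := by
  classical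
  induction s using Finset.induction_on with
  | empty => intro n _; simp
  | insert a s ha ih =>
    rw [Finset.prod_insert ha, Finset.prod_insert ha]
    exact af_mul_agree (h a (Finset.mem_insert_self a s))
      (ih fun i hi => h i (Finset.mem_insert_of_mem hi))

theorem af_mul_ne {F G : ArithmeticFunction ℝ} {n : ℕ} (h : (F * G) n ≠ 0) :
    ∃ a b : ℕ, a * b = n ∧ n ≠ 0 ∧ F a ≠ 0 ∧ G b ≠ 0 := by
  rw [mul_apply] at h
  obtain ⟨p, hp, hne⟩ := Finset.exists_ne_zero_of_sum_ne_zero h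
  obtain ⟨h3, h4⟩ := Nat.mem_divisorsAntidiagonal.1 hp
  exact ⟨p.1, p.2, h3, h4, left_ne_zero_of_mul hne, right_ne_zero_of_mul hne⟩

/-- support of a product of pieces -/
theorem prod_supp {ι : Type*} (s : Finset ι) (f : ι → ArithmeticFunction ℝ) (v : ι → ℕ) :
    ∀ {n : ℕ}, (∏ i ∈ s, pc (f i) (v i)) n ≠ 0 →
      1 ≤ n ∧ |Real.log n - ∑ i ∈ s, (v i : ℝ)| ≤ s.card := by
  classical
  induction s using Finset.induction_on with
  | empty =>
    intro n hn
    have h1 : n = 1 := by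
      by_contra hc
      apply hn
      simp [one_apply, hc]
    subst h1
    simp
  | insert a s ha ih =>
    intro n hn
    rw [Finset.prod_insert ha] at hn
    obtain ⟨c, d, hcd, hn0, h1, h2⟩ := af_mul_ne hn
    obtain ⟨h3, h4⟩ := ih h2
    obtain ⟨h5, h6⟩ := pc_supp h1
    have hc0 : (0 : ℝ) < c := (Real.exp_pos _).trans h5
    have hd0 : (0 : ℝ) < d := by exact_mod_cast (show 0 < d by omega)
    have l1 : (v a : ℝ) - 1 < Real.log c := (Real.lt_log_iff_exp_lt hc0).2 h5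
    have l2 : Real.log c < (v a : ℝ) + 1 := (Real.log_lt_iff_lt_exp hc0).2 h6
    refine ⟨Nat.one_le_iff_ne_zero.2 hn0, ?_⟩
    have hl : Real.log n = Real.log c + Real.log d := by
      rw [← hcd]; push_cast
      exact Real.log_mul hc0.ne' hd0.ne'
    rw [Finset.sum_insert ha, Finset.card_insert_of_notMem ha, hl]
    push_cast
    rw [abs_le] at h4 ⊢
    constructor <;> linarith [h4.1, h4.2]

/-- `ℓ¹` norms are submultiplicative -/
theorem af_l1_mul (F G : ArithmeticFunction ℝ) (N : ℕ) :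
    ∑ n ∈ Finset.Icc 1 N, |(F * G) n| ≤
      (∑ n ∈ Finset.Icc 1 N, |F n|) * ∑ n ∈ Finset.Icc 1 N, |G n| := by
  classical
  have h1 : ∀ n ∈ Finset.Icc 1 N, |(F * G) n| ≤
      ∑ p ∈ (Finset.Icc 1 N ×ˢ Finset.Icc 1 N).filter (fun p => p.1 * p.2 = n),
        |F p.1| * |G p.2| := by
    intro n hn
    obtain ⟨n1, n2⟩ := Finset.mem_Icc.1 hn
    rw [mul_apply]
    refine (Finset.abs_sum_le_sum_abs _ _).trans ?_
    simp only [abs_mul]
    refine Finset.sum_le_sum_of_subset_of_nonneg ?_ fun _ _ _ => by positivity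
    intro p hp
    obtain ⟨h3, h4⟩ := Nat.mem_divisorsAntidiagonal.1 hp
    have a1 : p.1 ≤ n := Nat.le_of_dvd (Nat.pos_of_ne_zero h4) ⟨p.2, h3.symm⟩
    have a2 : p.2 ≤ n :=
      Nat.le_of_dvd (Nat.pos_of_ne_zero h4) ⟨p.1, by rw [mul_comm]; exact h3.symm⟩
    have b1 : p.1 ≠ 0 := by rintro h0; rw [h0, zero_mul] at h3; omega
    have b2 : p.2 ≠ 0 := by rintro h0; rw [h0, mul_zero] at h3; omega
    rw [Finset.mem_filter, Finset.mem_product, Finset.mem_Icc, Finset.mem_Icc]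
    exact ⟨⟨⟨by omega, by omega⟩, ⟨by omega, by omega⟩⟩, h3⟩
  calc _ ≤ ∑ n ∈ Finset.Icc 1 N,
        ∑ p ∈ (Finset.Icc 1 N ×ˢ Finset.Icc 1 N).filter (fun p => p.1 * p.2 = n),
          |F p.1| * |G p.2| := Finset.sum_le_sum h1
    _ ≤ ∑ p ∈ Finset.Icc 1 N ×ˢ Finset.Icc 1 N, |F p.1| * |G p.2| := by
        rw [Finset.sum_comm' (t' := Finset.Icc 1 N ×ˢ Finset.Icc 1 N)
          (s' := fun p => (Finset.Icc 1 N).filter fun n => p.1 * p.2 = n)
          (by
            intro n p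
            simp only [Finset.mem_filter]
            tauto)]
        refine Finset.sum_le_sum fun p _ => ?_
        rw [Finset.sum_const, nsmul_eq_mul]
        have h2 : ((Finset.Icc 1 N).filter fun n => p.1 * p.2 = n).card ≤ 1 := by
          rw [Finset.card_le_one]
          intro a ha b hb
          rw [Finset.mem_filter] at ha hb
          rw [← ha.2, ← hb.2]
        have h3 : (((Finset.Icc 1 N).filter fun n => p.1 * p.2 = n).card : ℝ) ≤ 1 := by
          exact_mod_cast h2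
        have h4 : 0 ≤ |F p.1| * |G p.2| := by positivity
        nlinarith
    _ = _ := by rw [Finset.sum_product, Finset.sum_mul_sum]

theorem af_l1_prod {ι : Type*} (s : Finset ι) (F : ι → ArithmeticFunction ℝ) (N : ℕ) :
    ∑ n ∈ Finset.Icc 1 N, |(∏ i ∈ s, F i) n| ≤ ∏ i ∈ s, ∑ n ∈ Finset.Icc 1 N, |F i n| := by
  classical
  induction s using Finset.induction_on with
  | empty =>
    rw [Finset.prod_empty, Finset.prod_empty]
    have h1 : ∀ n ∈ Finset.Icc 1 N, |(1 : ArithmeticFunction ℝ) n| = if n = 1 then 1 else 0 := by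
      intro n _
      rw [one_apply]
      split <;> simp
    rw [Finset.sum_congr rfl h1, Finset.sum_ite_eq']
    split <;> simp
  | insert a s ha ih =>
    rw [Finset.prod_insert ha, Finset.prod_insert ha]
    refine (af_l1_mul _ _ N).trans ?_
    exact mul_le_mul_of_nonneg_left ih (Finset.sum_nonneg fun _ _ => abs_nonneg _)

theorem dp_one {Q : ℕ} (χ : DirichletCharacter ℂ Q) (t : ℝ) :
    DP (1 : ArithmeticFunction ℝ) χ t = 1 := by
  rw [dp_eq_sum {1} (by
    intro n hn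
    rw [Finset.mem_singleton]
    by_contra hc
    apply hn
    simp [one_apply, hc])]
  simp

theorem dp_prod {ι : Type*} (s : Finset ι) {F : ι → ArithmeticFunction ℝ}
    (h : ∀ i ∈ s, (Function.support (F i)).Finite) {Q : ℕ} (χ : DirichletCharacter ℂ Q) (t : ℝ) :
    (Function.support ((∏ i ∈ s, F i : ArithmeticFunction ℝ) : ℕ → ℝ)).Finite ∧ DP (∏ i ∈ s, F i) χ t = ∏ i ∈ s, DP (F i) χ t := by
  classical
  induction s using Finset.induction_on with
  | empty =>
    rw [Finset.prod_empty, Finset.prod_empty]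
    refine ⟨Set.Finite.subset (Set.finite_singleton 1) ?_, dp_one χ t⟩
    intro n hn
    by_contra hc
    apply hn
    have hc' : n ≠ 1 := fun h => hc h
    simp [one_apply, hc']
  | insert a s ha ih =>
    obtain ⟨h1, h2⟩ := ih fun i hi => h i (Finset.mem_insert_of_mem hi)
    have h3 := h a (Finset.mem_insert_self a s)
    rw [Finset.prod_insert ha, Finset.prod_insert ha]
    exact ⟨fin_mul h3 h1, by rw [dp_mul h3 h1, h2]⟩

/-! ### the identity -/

theorem mz_zeta {Z : ℝ} {n : ℕ} (hZ : (n : ℝ) ≤ Z) :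
    (mz Z * (zeta : ArithmeticFunction ℝ)) n = (1 : ArithmeticFunction ℝ) n := by
  rw [← coe_moebius_mul_coe_zeta (R := ℝ)]
  refine af_mul_agree (X := n) ?_ (fun _ _ => rfl) n le_rfl
  intro d hd
  have h1 : (d : ℝ) ≤ Z := le_trans (by exact_mod_cast hd) hZ
  show (if (d : ℝ) ≤ Z then ((moebius d : ℤ) : ℝ) else 0) = _
  rw [if_pos h1, intCoe_apply]

theorem upow_supp {Z : ℝ} (hZ : 0 < Z) (k : ℕ) : ∀ {n : ℕ},
    ((1 - mz Z * (zeta : ArithmeticFunction ℝ)) ^ (k + 1)) n ≠ 0 → Z ^ (k + 1) < n := by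
  have h0 : ∀ {n : ℕ}, (1 - mz Z * (zeta : ArithmeticFunction ℝ)) n ≠ 0 → Z < n := by
    intro n hn
    by_contra hc
    push Not at hc
    apply hn
    have h1 := mz_zeta hc
    have h2 : (1 - mz Z * (zeta : ArithmeticFunction ℝ)) n =
        (1 : ArithmeticFunction ℝ) n - (mz Z * (zeta : ArithmeticFunction ℝ)) n :=
      map_sub (evAF n) _ _
    rw [h2, h1, sub_self]
  induction k with
  | zero =>
    intro n hn
    rw [zero_add, pow_one] at hn
    rw [zero_add, pow_one]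
    exact h0 hn
  | succ k ih =>
    intro n hn
    rw [pow_succ] at hn
    obtain ⟨a, b, hab, _, h1, h2⟩ := af_mul_ne hn
    have h3 := ih h1
    have h4 := h0 h2
    have h5 : Z ^ (k + 1) * Z < (a : ℝ) * b :=
      mul_lt_mul'' h3 h4 (by positivity) hZ.le
    rw [← hab]
    push_cast
    calc Z ^ (k + 1 + 1) = Z ^ (k + 1) * Z := pow_succ _ _
      _ < _ := h5

theorem prod_fac (Z : ℝ) (k : ℕ) : ∏ i : Fin (2 * (k + 1)), tyf Z (fac (k + 1) i) =
    (mz Z) ^ (k + 1) * (zeta : ArithmeticFunction ℝ) ^ k * ArithmeticFunction.log := by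
  set g : ℕ → ArithmeticFunction ℝ := fun i =>
    if i < k + 1 then mz Z else if i + 1 < 2 * (k + 1) then (zeta : ArithmeticFunction ℝ)
    else ArithmeticFunction.log
    with hg
  have h1 : ∀ i : Fin (2 * (k + 1)), tyf Z (fac (k + 1) i) = g i := by
    intro i
    rw [hg]
    unfold fac
    by_cases c1 : (i : ℕ) < k + 1
    · simp only [c1, if_true]; rfl
    · by_cases c2 : (i : ℕ) + 1 < 2 * (k + 1)
      · simp only [c1, c2, if_true, if_false]; rfl
      · simp only [c1, c2, if_false]; rfl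
  rw [Finset.prod_congr rfl fun i _ => h1 i, Fin.prod_univ_eq_prod_range g (2 * (k + 1)),
    show 2 * (k + 1) = (k + 1) + k + 1 by ring, Finset.prod_range_succ, Finset.prod_range_add]
  have e1 : ∏ i ∈ Finset.range (k + 1), g i = (mz Z) ^ (k + 1) := by
    rw [Finset.prod_congr rfl (g := fun _ => mz Z) (fun i hi => by
      rw [hg]; simp only [Finset.mem_range.1 hi, if_true]), Finset.prod_const, Finset.card_range]
  have e2 : ∏ i ∈ Finset.range k, g (k + 1 + i) = (zeta : ArithmeticFunction ℝ) ^ k := by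
    rw [Finset.prod_congr rfl (g := fun _ => (zeta : ArithmeticFunction ℝ)) (fun i hi => by
      have := Finset.mem_range.1 hi
      rw [hg]
      simp only [show ¬ (k + 1 + i < k + 1) by omega, show k + 1 + i + 1 < 2 * (k + 1) by omega,
        if_true, if_false]), Finset.prod_const, Finset.card_range]
  have e3 : g (k + 1 + k) = ArithmeticFunction.log := by
    rw [hg]
    simp only [show ¬ (k + 1 + k < k + 1) by omega, show ¬ (k + 1 + k + 1 < 2 * (k + 1)) by omega,
      if_false]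
  rw [e1, e2, e3]

theorem lam_pow (Z : ℝ) (k : ℕ) :
    (vonMangoldt : ArithmeticFunction ℝ) * (mz Z * (zeta : ArithmeticFunction ℝ)) ^ (k + 1) =
      ∏ i : Fin (2 * (k + 1)), tyf Z (fac (k + 1) i) := by
  rw [prod_fac, ← vonMangoldt_mul_zeta, mul_pow, pow_succ (zeta : ArithmeticFunction ℝ) k]
  ring

/-- the Heath-Brown identity -/
theorem hb_alg {Z : ℝ} (hZ : 1 ≤ Z) {n : ℕ} (hn : (n : ℝ) ≤ Z ^ 40) :
    vonMangoldt n = ∑ j ∈ Finset.Icc 1 40, (-1 : ℝ) ^ (j - 1) * (Nat.choose 40 j : ℝ) *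
      (∏ i : Fin (2 * j), tyf Z (fac j i)) n := by
  set A := mz Z * (zeta : ArithmeticFunction ℝ) with hA
  have h0 : (vonMangoldt * (1 - A) ^ 40 : ArithmeticFunction ℝ) n = 0 := by
    by_contra hc
    obtain ⟨a, b, hab, hn0, h1, h2⟩ := af_mul_ne hc
    have h3 := upow_supp (by linarith : 0 < Z) 39 h2
    have ha : 1 ≤ a := by
      rcases Nat.eq_zero_or_pos a with h | h
      · rw [h, zero_mul] at hab; exact absurd hab.symm hn0
      · exact h
    have h4 : (b : ℝ) ≤ n := by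
      have : b ≤ n := by rw [← hab]; exact Nat.le_mul_of_pos_left b ha
      exact_mod_cast this
    have h5 : Z ^ (39 + 1) = Z ^ 40 := by norm_num
    rw [h5] at h3
    linarith
  have h1 : (vonMangoldt : ArithmeticFunction ℝ) * (1 - A) ^ 40 =
      ∑ m ∈ Finset.range 41, ((-1 : ℤ) ^ m * (Nat.choose 40 m : ℤ)) •
        ((vonMangoldt : ArithmeticFunction ℝ) * A ^ m) := by
    rw [show (1 - A) = -A + 1 by ring, add_pow, Finset.mul_sum]
    refine Finset.sum_congr rfl fun m _ => ?_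
    rw [zsmul_eq_mul, one_pow, mul_one, neg_pow]
    push_cast
    ring
  rw [h1, ← evAF_apply, map_sum, Finset.sum_range_succ'] at h0
  have hlam : ∀ k : ℕ, (vonMangoldt : ArithmeticFunction ℝ) * A ^ (k + 1) =
      ∏ i : Fin (2 * (k + 1)), tyf Z (fac (k + 1) i) := fun k => lam_pow Z k
  simp only [map_zsmul, evAF_apply, pow_zero, mul_one, Nat.choose_zero_right,
    Nat.cast_one, one_smul, hlam] at h0
  have h2 : ∑ j ∈ Finset.Icc 1 40, (-1 : ℝ) ^ (j - 1) * (Nat.choose 40 j : ℝ) *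
      (∏ i : Fin (2 * j), tyf Z (fac j i)) n =
      ∑ k ∈ Finset.range 40, (-1 : ℝ) ^ k * (Nat.choose 40 (k + 1) : ℝ) *
        (∏ i : Fin (2 * (k + 1)), tyf Z (fac (k + 1) i)) n := by
    rw [show Finset.Icc 1 40 = Finset.Ico 1 41 by rfl, Finset.sum_Ico_eq_sum_range]
    refine Finset.sum_congr rfl fun k _ => ?_
    rw [add_comm 1 k, Nat.add_sub_cancel]
  rw [h2]
  have h3 : ∑ k ∈ Finset.range 40, ((-1 : ℤ) ^ (k + 1) * (Nat.choose 40 (k + 1) : ℤ)) •
        (∏ i : Fin (2 * (k + 1)), tyf Z (fac (k + 1) i)) n =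
      -∑ k ∈ Finset.range 40, (-1 : ℝ) ^ k * (Nat.choose 40 (k + 1) : ℝ) *
        (∏ i : Fin (2 * (k + 1)), tyf Z (fac (k + 1) i)) n := by
    rw [← Finset.sum_neg_distrib]
    refine Finset.sum_congr rfl fun k _ => ?_
    rw [zsmul_eq_mul]
    push_cast
    ring
  rw [h3] at h0
  linarith

end Pool.Agent.HPP
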