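import Pool.Agent.HPP.VDefs
import Pool.Agent.Pal.Divisor

/-!
# HPP/VPow: powers of the factors

PROOF. `dp_mul`: Dirichlet series with finitely supported coefficients multiply (`F 0 = G 0 = 0`; e.g. finite double sum over
`divisorsAntidiagonal`, or Mathlib `LSeries_convolution'`/`LSeries.convolution` with `s = - t I`).
`pw_bd`: `pc F v n ≠ 0` implies `|log n - v| < 1`, `n ≥ 1`, so a product of `j` such `n_i` lies in
`[exp (j (v-1)), exp (j (v+1))]`; `|(pc F v)^j n| ≤ (ζ^j) n * (v + 2)^j` by induction (`|pc F v n| ≤ 1 + log n ≤ v + 2` on the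
support), the `j`-fold divisor function is `≤ C_δ n^δ` (any `δ > 0`; induction from the bound for the number of divisors), and
`n^δ ≤ exp (δ j (v+1))`, `(v+2)^j ≤ C exp (ε v/2)`.
-/

namespace Pool.Agent.HPP

open Complex MeasureTheory

/-- the support of a piece -/
theorem pc_supp {F : ArithmeticFunction ℝ} {v n : ℕ} (h : pc F v n ≠ 0) :
    Real.exp ((v : ℝ) - 1) < n ∧ (n : ℝ) < Real.exp ((v : ℝ) + 1) := by
  have hn : n ≠ 0 := by
    rintro rfl
    simp at h
  have hn' : (0 : ℝ) < n := by exact_mod_cast Nat.pos_of_ne_zero hn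
  rw [pc_apply] at h
  have h2 := uw_abs_lt (right_ne_zero_of_mul h)
  rw [abs_lt] at h2
  exact ⟨(Real.lt_log_iff_exp_lt hn').1 (by linarith [h2.1]),
    (Real.log_lt_iff_lt_exp hn').1 (by linarith [h2.2])⟩

theorem pc_fin (F : ArithmeticFunction ℝ) (v : ℕ) : (Function.support (pc F v)).Finite := by
  refine (Set.finite_Iio ⌈Real.exp ((v : ℝ) + 1)⌉₊).subset ?_
  intro n hn
  rw [Function.mem_support] at hn
  exact Nat.lt_ceil.2 (pc_supp hn).2

/-- a finitely supported Dirichlet series is a finite sum -/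
theorem dp_eq_sum {Q : ℕ} {F : ArithmeticFunction ℝ} (s : Finset ℕ)
    (hF : ∀ n, F n ≠ 0 → n ∈ s) (χ : DirichletCharacter ℂ Q) (t : ℝ) :
    DP F χ t = ∑ n ∈ s, (F n : ℂ) * χ (n : ZMod Q) * (n : ℂ) ^ (t * I) := by
  unfold DP SS
  refine tsum_eq_sum fun n hn => ?_
  have h0 : F n = 0 := by
    by_contra h
    exact hn (hF n h)
  simp [h0]

/-- product of two finitely supported functions as a fibre sum -/
theorem vp_mul_fib {F G : ArithmeticFunction ℝ} {sF sG : Finset ℕ} (hF : ∀ n, F n ≠ 0 ↔ n ∈ sF)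
    (hG : ∀ n, G n ≠ 0 ↔ n ∈ sG) (n : ℕ) :
    (F * G) n = ∑ p ∈ (sF ×ˢ sG).filter (fun p => p.1 * p.2 = n), F p.1 * G p.2 := by
  rw [ArithmeticFunction.mul_apply]
  symm
  refine Finset.sum_subset_zero_on_sdiff ?_ ?_ (fun _ _ => rfl)
  · intro p hp
    rw [Finset.mem_filter, Finset.mem_product] at hp
    rw [Nat.mem_divisorsAntidiagonal]
    refine ⟨hp.2, ?_⟩
    have h1 : p.1 ≠ 0 := by
      intro h
      have := (hF p.1).2 hp.1.1
      rw [h] at this
      simp at this
    have h2 : p.2 ≠ 0 := by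
      intro h
      have := (hG p.2).2 hp.1.2
      rw [h] at this
      simp at this
    rw [← hp.2]
    exact mul_ne_zero h1 h2
  · intro p hp
    rw [Finset.mem_sdiff, Nat.mem_divisorsAntidiagonal, Finset.mem_filter, Finset.mem_product] at hp
    by_contra h
    exact hp.2 ⟨⟨(hF _).1 (left_ne_zero_of_mul h), (hG _).1 (right_ne_zero_of_mul h)⟩, hp.1.1⟩

theorem fin_mul {F G : ArithmeticFunction ℝ} (hF : (Function.support F).Finite)
    (hG : (Function.support G).Finite) : (Function.support (F * G)).Finite := by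
  refine ((hF.toFinset ×ˢ hG.toFinset).image fun p => p.1 * p.2).finite_toSet.subset ?_
  intro n hn
  rw [Function.mem_support, vp_mul_fib (sF := hF.toFinset) (sG := hG.toFinset) (by simp) (by simp)] at hn
  obtain ⟨p, hp, -⟩ := Finset.exists_ne_zero_of_sum_ne_zero hn
  rw [Finset.mem_filter] at hp
  rw [Finset.mem_coe, Finset.mem_image]
  exact ⟨p, hp.1, hp.2⟩

theorem dp_mul {Q : ℕ} {F G : ArithmeticFunction ℝ} (hF : (Function.support F).Finite)
    (hG : (Function.support G).Finite) (χ : DirichletCharacter ℂ Q) (t : ℝ) :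
    DP (F * G) χ t = DP F χ t * DP G χ t := by
  classical
  set sF := hF.toFinset with hsF
  set sG := hG.toFinset with hsG
  have hF' : ∀ n, F n ≠ 0 ↔ n ∈ sF := by intro n; simp [hsF]
  have hG' : ∀ n, G n ≠ 0 ↔ n ∈ sG := by intro n; simp [hsG]
  rw [dp_eq_sum sF (fun n h => (hF' n).1 h), dp_eq_sum sG (fun n h => (hG' n).1 h),
    dp_eq_sum ((sF ×ˢ sG).image fun p => p.1 * p.2), Finset.sum_mul_sum, ← Finset.sum_product',
    ← Finset.sum_fiberwise_of_maps_to (s := sF ×ˢ sG) (t := (sF ×ˢ sG).image fun p => p.1 * p.2)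
      (g := fun p => p.1 * p.2) (fun p hp => Finset.mem_image_of_mem _ hp)]
  · refine Finset.sum_congr rfl fun n _ => ?_
    rw [vp_mul_fib hF' hG' n]
    push_cast
    rw [Finset.sum_mul, Finset.sum_mul]
    refine Finset.sum_congr rfl fun p hp => ?_
    rw [Finset.mem_filter] at hp
    rw [← hp.2]
    push_cast
    rw [map_mul, Complex.natCast_mul_natCast_cpow]
    ring
  · intro n hn
    rw [vp_mul_fib hF' hG'] at hn
    obtain ⟨p, hp, -⟩ := Finset.exists_ne_zero_of_sum_ne_zero hn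
    rw [Finset.mem_filter] at hp
    rw [Finset.mem_image]
    exact ⟨p, hp.1, hp.2⟩

theorem vp_fin_one : (Function.support (1 : ArithmeticFunction ℝ)).Finite := by
  refine (Set.finite_singleton 1).subset fun n hn => ?_
  by_contra h
  exact hn (ArithmeticFunction.one_apply_ne h)

theorem fin_pow {F : ArithmeticFunction ℝ} (hF : (Function.support F).Finite) (j : ℕ) :
    (Function.support (F ^ j)).Finite := by
  induction j with
  | zero => rw [pow_zero]; exact vp_fin_one
  | succ j ih => rw [pow_succ]; exact fin_mul ih hF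

theorem dp_pow {Q : ℕ} {F : ArithmeticFunction ℝ} (hF : (Function.support F).Finite) (j : ℕ)
    (χ : DirichletCharacter ℂ Q) (t : ℝ) : DP (F ^ j) χ t = DP F χ t ^ j := by
  induction j with
  | zero =>
    rw [pow_zero, pow_zero, dp_eq_sum {1}]
    · simp
    · intro n hn
      rw [Finset.mem_singleton]
      by_contra h
      exact hn (ArithmeticFunction.one_apply_ne h)
  | succ j ih => rw [pow_succ, dp_mul (fin_pow hF j) hF, ih, pow_succ]

theorem dp_continuous {Q : ℕ} {F : ArithmeticFunction ℝ} (hF : (Function.support F).Finite)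
    (χ : DirichletCharacter ℂ Q) : Continuous fun t => DP F χ t := by
  have h1 : (fun t : ℝ => DP F χ t) = fun t : ℝ => ∑ n ∈ hF.toFinset,
      (F n : ℂ) * χ (n : ZMod Q) * (n : ℂ) ^ (t * I) := by
    funext t
    exact dp_eq_sum _ (by simp) χ t
  rw [h1]
  refine continuous_finsetSum _ fun n hn => ?_
  have hn0 : n ≠ 0 := by
    rintro rfl
    simp at hn
  refine continuous_const.mul ?_
  exact Continuous.const_cpow (by fun_prop) (Or.inl (by exact_mod_cast hn0))

theorem nt_continuous {Q : ℕ} (F : ArithmeticFunction ℝ) (v : ℕ) (χ : DirichletCharacter ℂ Q) :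
    Continuous fun t => nt F v χ t :=
  continuous_const.mul (dp_continuous (pc_fin F v) χ).norm

theorem nt_nonneg {Q : ℕ} (F : ArithmeticFunction ℝ) (v : ℕ) (χ : DirichletCharacter ℂ Q) (t : ℝ) :
    0 ≤ nt F v χ t := by
  unfold nt; positivity

/-- coefficient bound -/
theorem vp_pc_abs {F : ArithmeticFunction ℝ} (hF : Sm F) (v n : ℕ) : |pc F v n| ≤ v + 2 := by
  by_cases h : pc F v n = 0
  · rw [h, abs_zero]
    positivity
  have h1 := pc_supp h
  have hn : n ≠ 0 := by
    rintro rfl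
    simp at h
  have hn' : (0 : ℝ) < n := by exact_mod_cast Nat.pos_of_ne_zero hn
  have h2 : Real.log n < v + 1 := (Real.log_lt_iff_lt_exp hn').2 h1.2
  rw [pc_apply, abs_mul, abs_of_nonneg (uw_nonneg _)]
  calc |F n| * uw (Real.log n - v) ≤ |F n| * 1 :=
        mul_le_mul_of_nonneg_left (uw_le_one _) (abs_nonneg _)
    _ ≤ 1 + Real.log n := by rw [mul_one]; exact hF n
    _ ≤ v + 2 := by linarith

/-- trivial bound -/
theorem nt_triv {Q : ℕ} {F : ArithmeticFunction ℝ} (hF : Sm F) (v : ℕ)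
    (χ : DirichletCharacter ℂ Q) (t : ℝ) : nt F v χ t ≤ 3 * (v + 2) := by
  have hs : ∀ n, pc F v n ≠ 0 → n ∈ Finset.Icc 1 ⌊Real.exp ((v : ℝ) + 1)⌋₊ := by
    intro n hn
    rw [Finset.mem_Icc]
    have hn0 : n ≠ 0 := by
      rintro rfl
      simp at hn
    exact ⟨Nat.one_le_iff_ne_zero.2 hn0, Nat.le_floor (pc_supp hn).2.le⟩
  have h1 : ‖DP (pc F v) χ t‖ ≤ Real.exp ((v : ℝ) + 1) * (v + 2) := by
    rw [dp_eq_sum _ hs]
    refine (norm_sum_le _ _).trans ?_
    have h2 : ∀ n ∈ Finset.Icc 1 ⌊Real.exp ((v : ℝ) + 1)⌋₊,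
        ‖((pc F v n : ℝ) : ℂ) * χ (n : ZMod Q) * (n : ℂ) ^ (t * I)‖ ≤ (v + 2 : ℝ) := by
      intro n hn
      rw [Finset.mem_Icc] at hn
      have h3 : ‖(n : ℂ) ^ (t * I)‖ = 1 := by
        rw [Complex.norm_natCast_cpow_of_pos (by omega)]
        simp
      rw [norm_mul, norm_mul, h3, mul_one, Complex.norm_real, Real.norm_eq_abs]
      calc |pc F v n| * ‖χ (n : ZMod Q)‖ ≤ |pc F v n| * 1 :=
            mul_le_mul_of_nonneg_left (χ.norm_le_one _) (abs_nonneg _)
        _ ≤ v + 2 := by rw [mul_one]; exact vp_pc_abs hF v n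
    refine (Finset.sum_le_sum h2).trans ?_
    rw [Finset.sum_const, Nat.card_Icc, nsmul_eq_mul]
    refine mul_le_mul_of_nonneg_right ?_ (by positivity)
    rw [Nat.add_sub_cancel]
    exact Nat.floor_le (Real.exp_pos _).le
  unfold nt
  calc Real.exp (-v) * ‖DP (pc F v) χ t‖ ≤ Real.exp (-v) * (Real.exp ((v : ℝ) + 1) * (v + 2)) :=
        mul_le_mul_of_nonneg_left h1 (Real.exp_pos _).le
    _ = Real.exp 1 * (v + 2) := by
        rw [← mul_assoc, ← Real.exp_add]
        congr 2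
        ring
    _ ≤ 3 * (v + 2) := by
        refine mul_le_mul_of_nonneg_right ?_ (by positivity)
        linarith [Real.exp_one_lt_d9]

theorem pw_supp {F : ArithmeticFunction ℝ} {v j n : ℕ} (hj : 1 ≤ j) (h : (pc F v ^ j) n ≠ 0) :
    Real.exp (j * ((v : ℝ) - 1)) < n ∧ (n : ℝ) < Real.exp (j * ((v : ℝ) + 1)) := by
  induction j, hj using Nat.le_induction generalizing n with
  | base =>
    rw [pow_one] at h
    simpa using pc_supp h
  | succ j hj ih =>
    rw [pow_succ, ArithmeticFunction.mul_apply] at h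
    obtain ⟨p, hp, hp2⟩ := Finset.exists_ne_zero_of_sum_ne_zero h
    rw [Nat.mem_divisorsAntidiagonal] at hp
    have h1 := ih (left_ne_zero_of_mul hp2)
    have h2 := pc_supp (right_ne_zero_of_mul hp2)
    have e : (n : ℝ) = (p.1 : ℝ) * (p.2 : ℝ) := by rw [← hp.1]; push_cast; ring
    have e1 : Real.exp (((j + 1 : ℕ) : ℝ) * ((v : ℝ) - 1)) =
        Real.exp (j * ((v : ℝ) - 1)) * Real.exp ((v : ℝ) - 1) := by
      rw [← Real.exp_add]; congr 1; push_cast; ring
    have e2 : Real.exp (((j + 1 : ℕ) : ℝ) * ((v : ℝ) + 1)) =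
        Real.exp (j * ((v : ℝ) + 1)) * Real.exp ((v : ℝ) + 1) := by
      rw [← Real.exp_add]; congr 1; push_cast; ring
    rw [e, e1, e2]
    have p1 := Real.exp_pos (j * ((v : ℝ) - 1))
    have p2 := Real.exp_pos ((v : ℝ) - 1)
    exact ⟨mul_lt_mul'' h1.1 h2.1 p1.le p2.le,
      mul_lt_mul'' h1.2 h2.2 (p1.le.trans h1.1.le) (p2.le.trans h2.1.le)⟩

theorem vp_pw_aux (j : ℕ) : ∀ δ : ℝ, 0 < δ → ∃ C : ℝ, 1 ≤ C ∧
    ∀ F : ArithmeticFunction ℝ, Sm F → ∀ v n : ℕ,
      |(pc F v ^ j) n| ≤ C * ((v : ℝ) + 2) ^ j * (n : ℝ) ^ δ := by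
  induction j with
  | zero =>
    intro δ hδ
    refine ⟨1, le_rfl, fun F _ v n => ?_⟩
    rw [pow_zero, pow_zero]
    by_cases h : n = 1
    · subst h
      simp
    · rw [ArithmeticFunction.one_apply_ne h, abs_zero]
      positivity
  | succ j ih =>
    intro δ hδ
    obtain ⟨C, hC, hC'⟩ := ih (δ / 2) (by linarith)
    obtain ⟨D, hD, hD'⟩ := Pool.Agent.Pal.card_divisors_le_rpow (η := δ / 2) (by linarith)
    refine ⟨D * C, by nlinarith, fun F hF v n => ?_⟩
    have hv : (0 : ℝ) < (v : ℝ) + 2 := by positivity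
    rcases Nat.eq_zero_or_pos n with h0 | h0
    · subst h0
      rw [ArithmeticFunction.map_zero, abs_zero]
      positivity
    rw [pow_succ, ArithmeticFunction.mul_apply]
    refine (Finset.abs_sum_le_sum_abs _ _).trans ?_
    have h1 : ∀ p ∈ n.divisorsAntidiagonal, |(pc F v ^ j) p.1 * pc F v p.2| ≤
        C * ((v : ℝ) + 2) ^ j * (n : ℝ) ^ (δ / 2) * ((v : ℝ) + 2) := by
      intro p hp
      rw [Nat.mem_divisorsAntidiagonal] at hp
      rw [abs_mul]
      refine mul_le_mul ((hC' F hF v p.1).trans ?_) (vp_pc_abs hF v p.2) (abs_nonneg _) (by positivity)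
      refine mul_le_mul_of_nonneg_left ?_ (by positivity)
      refine Real.rpow_le_rpow (by positivity) ?_ (by linarith)
      have h2 : p.1 ≤ n := Nat.le_of_dvd h0 ⟨p.2, hp.1.symm⟩
      exact_mod_cast h2
    refine (Finset.sum_le_sum h1).trans ?_
    rw [Finset.sum_const, nsmul_eq_mul]
    have h3 : ((n.divisorsAntidiagonal).card : ℝ) ≤ D * (n : ℝ) ^ (δ / 2) := by
      have h4 : (n.divisorsAntidiagonal).card = n.divisors.card := by
        rw [← Nat.map_div_right_divisors, Finset.card_map]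
      rw [h4]
      exact hD' n h0
    have h5 : (n : ℝ) ^ δ = (n : ℝ) ^ (δ / 2) * (n : ℝ) ^ (δ / 2) := by
      rw [← Real.rpow_add (by exact_mod_cast h0)]
      congr 1
      ring
    calc ((n.divisorsAntidiagonal).card : ℝ) *
          (C * ((v : ℝ) + 2) ^ j * (n : ℝ) ^ (δ / 2) * ((v : ℝ) + 2)) ≤
          (D * (n : ℝ) ^ (δ / 2)) * (C * ((v : ℝ) + 2) ^ j * (n : ℝ) ^ (δ / 2) * ((v : ℝ) + 2)) :=
          mul_le_mul_of_nonneg_right h3 (by positivity)
      _ = D * C * ((v : ℝ) + 2) ^ (j + 1) * (n : ℝ) ^ δ := by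
          rw [h5, pow_succ]
          ring

theorem pw_bd {j : ℕ} (hj : 1 ≤ j) {ε : ℝ} (hε : 0 < ε) : ∃ C : ℝ, 1 ≤ C ∧
    ∀ F : ArithmeticFunction ℝ, Sm F → ∀ v n : ℕ, |(pc F v ^ j) n| ≤ C * Real.exp (ε * v) := by
  have hj' : (0 : ℝ) < j := by exact_mod_cast hj
  obtain ⟨C, hC, hC'⟩ := vp_pw_aux j (ε / (4 * j)) (by positivity)
  set D : ℝ := j.factorial * (2 / ε) ^ j * Real.exp ε with hD
  have hDp : 0 < D := by positivity
  refine ⟨max 1 (C * D * Real.exp (ε / 4)), le_max_left _ _, fun F hF v n => ?_⟩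
  by_cases h : (pc F v ^ j) n = 0
  · rw [h, abs_zero]
    positivity
  have hs := pw_supp hj h
  have hn0 : n ≠ 0 := by
    rintro rfl
    simp at h
  have hn' : (0 : ℝ) < n := by exact_mod_cast Nat.pos_of_ne_zero hn0
  have h1 : (n : ℝ) ^ (ε / (4 * j)) ≤ Real.exp (ε / 4) * Real.exp (ε * v / 4) := by
    calc (n : ℝ) ^ (ε / (4 * j)) ≤ (Real.exp (j * ((v : ℝ) + 1))) ^ (ε / (4 * j)) :=
          Real.rpow_le_rpow hn'.le hs.2.le (by positivity)
      _ = Real.exp (ε / 4) * Real.exp (ε * v / 4) := by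
          rw [← Real.exp_mul, ← Real.exp_add]
          congr 1
          field_simp
          ring
  have h2 : ((v : ℝ) + 2) ^ j ≤ D * Real.exp (ε * v / 2) := by
    have h3 := Real.pow_div_factorial_le_exp (ε / 2 * ((v : ℝ) + 2)) (by positivity) j
    rw [div_le_iff₀ (by positivity), mul_pow] at h3
    have h4 : Real.exp (ε / 2 * ((v : ℝ) + 2)) = Real.exp ε * Real.exp (ε * v / 2) := by
      rw [← Real.exp_add]
      congr 1
      ring
    rw [h4] at h3
    have h5 : (2 / ε) ^ j * ((ε / 2) ^ j * ((v : ℝ) + 2) ^ j) = ((v : ℝ) + 2) ^ j := by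
      rw [← mul_assoc, ← mul_pow]
      have : 2 / ε * (ε / 2) = 1 := by field_simp
      rw [this, one_pow, one_mul]
    calc ((v : ℝ) + 2) ^ j = (2 / ε) ^ j * ((ε / 2) ^ j * ((v : ℝ) + 2) ^ j) := h5.symm
      _ ≤ (2 / ε) ^ j * (Real.exp ε * Real.exp (ε * v / 2) * j.factorial) :=
          mul_le_mul_of_nonneg_left h3 (by positivity)
      _ = D * Real.exp (ε * v / 2) := by rw [hD]; ring
  have hv : (0 : ℝ) < ((v : ℝ) + 2) ^ j := by positivity
  calc |(pc F v ^ j) n| ≤ C * ((v : ℝ) + 2) ^ j * (n : ℝ) ^ (ε / (4 * j)) := hC' F hF v n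
    _ ≤ C * (D * Real.exp (ε * v / 2)) * (Real.exp (ε / 4) * Real.exp (ε * v / 4)) := by
        refine mul_le_mul (mul_le_mul_of_nonneg_left h2 (by linarith)) h1 (by positivity) (by positivity)
    _ = C * D * Real.exp (ε / 4) * (Real.exp (ε * v / 2) * Real.exp (ε * v / 4)) := by ring
    _ ≤ C * D * Real.exp (ε / 4) * Real.exp (ε * v) := by
        refine mul_le_mul_of_nonneg_left ?_ (by positivity)
        rw [← Real.exp_add]
        refine Real.exp_le_exp.2 ?_
        have : (0 : ℝ) ≤ ε * v := by positivity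
        linarith
    _ ≤ max 1 (C * D * Real.exp (ε / 4)) * Real.exp (ε * v) :=
        mul_le_mul_of_nonneg_right (le_max_right _ _) (Real.exp_pos _).le

end Pool.Agent.HPP
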