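import Pool.Agent.HPP.VMean
import Pool.Agent.HPP.VPow

/-!
# HPP/VLMv: level sets by the mean value theorem

PROOF. On the level set `V ≤ nt`, `V^(2j) exp (2jv) ≤ ‖DP (pc F v) χ t‖^(2j) = ‖DP (pc F v ^ j) χ t‖²` (`dp_pow`); integrate over
`[t₀ - T, t₀ + T]`, sum over `χ`, use `mv` with `c = (pc F v)^j`, `s = Icc 1 ⌊exp (j (v+1))⌋` (`dp_eq_sum`, `pw_supp`, `pw_bd` with `ε/2`..):
`V^(2j) exp (2jv) LM ≤ C (C exp (ε v/2))² exp (j (v+1)) (Q T + exp (j (v+1)))`.
-/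

namespace Pool.Agent.HPP

open Complex MeasureTheory

theorem ls_mv {j : ℕ} (hj : 1 ≤ j) {ε : ℝ} (hε : 0 < ε) : ∃ C : ℝ, 1 ≤ C ∧
    ∀ (Q : ℕ), 1 ≤ Q → ∀ F : ArithmeticFunction ℝ, Sm F → ∀ (v : ℕ) (t₀ T V : ℝ), 1 ≤ T → 0 < V →
    LM (fun _ : DirichletCharacter ℂ Q => Set.Icc (t₀ - T) (t₀ + T)) (nt F v) V ≤
      C * Real.exp (ε * v) * (V ^ (2 * j))⁻¹ * (1 + Q * T * Real.exp (-(j * v))) := by
  obtain ⟨C₁, hC₁, h1⟩ := mv
  obtain ⟨C₂, hC₂, h2⟩ := pw_bd hj (half_pos hε)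
  refine ⟨C₁ * C₂ ^ 2 * Real.exp (2 * j), ?_, ?_⟩
  · have e1 : (1 : ℝ) ≤ C₂ ^ 2 := one_le_pow₀ hC₂
    have e2 : (1 : ℝ) ≤ Real.exp (2 * j) := Real.one_le_exp (by positivity)
    exact one_le_mul_of_one_le_of_one_le (one_le_mul_of_one_le_of_one_le hC₁ e1) e2
  intro Q hQ F hF v t₀ T V hT hV
  set s : Finset ℕ := Finset.Icc 1 ⌊Real.exp (j * ((v : ℝ) + 1))⌋₊ with hs
  set c : ℕ → ℂ := fun n => (((pc F v ^ j) n : ℝ) : ℂ) with hc
  have hsupp : ∀ n, (pc F v ^ j) n ≠ 0 → n ∈ s := by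
    intro n hn
    obtain ⟨a1, a2⟩ := pw_supp hj hn
    rw [hs, Finset.mem_Icc]
    refine ⟨?_, Nat.le_floor a2.le⟩
    have : (0 : ℝ) < n := lt_trans (Real.exp_pos _) a1
    exact_mod_cast this
  have hs1 : ∀ n ∈ s, 1 ≤ n := fun n hn => (Finset.mem_Icc.1 hn).1
  have hVp : 0 < V ^ (2 * j) := by positivity
  have hle : t₀ - T ≤ t₀ + T := by linarith
  -- one character
  have key : ∀ χ : DirichletCharacter ℂ Q,
      V ^ (2 * j) * volume.real (Set.Icc (t₀ - T) (t₀ + T) ∩ {t | V ≤ nt F v χ t}) ≤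
        Real.exp (-(2 * j * v)) * ∫ t in (t₀ - T)..(t₀ + T),
          ‖∑ n ∈ s, c n * χ (n : ZMod Q) * (n : ℂ) ^ (t * I)‖ ^ 2 := by
    intro χ
    have hfe : ∀ t : ℝ, nt F v χ t ^ (2 * j) = Real.exp (-(2 * j * v)) *
        ‖∑ n ∈ s, c n * χ (n : ZMod Q) * (n : ℂ) ^ (t * I)‖ ^ 2 := by
      intro t
      have e1 : ∑ n ∈ s, c n * χ (n : ZMod Q) * (n : ℂ) ^ (t * I) = DP (pc F v) χ t ^ j := by
        rw [← dp_pow (pc_fin F v), dp_eq_sum s hsupp]
      rw [e1, norm_pow, ← pow_mul, mul_comm j 2]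
      unfold nt
      rw [mul_pow, ← Real.exp_nat_mul]
      congr 2
      push_cast
      ring
    have hcont : Continuous fun t => nt F v χ t ^ (2 * j) := (nt_continuous F v χ).pow _
    have hint : Integrable (fun t => nt F v χ t ^ (2 * j))
        (volume.restrict (Set.Icc (t₀ - T) (t₀ + T))) :=
      hcont.continuousOn.integrableOn_Icc
    have hm := mul_meas_ge_le_integral_of_nonneg (μ := volume.restrict (Set.Icc (t₀ - T) (t₀ + T)))
      (f := fun t => nt F v χ t ^ (2 * j))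
      (Filter.Eventually.of_forall fun t => pow_nonneg (nt_nonneg F v χ t) _) hint (V ^ (2 * j))
    have hset : volume.real (Set.Icc (t₀ - T) (t₀ + T) ∩ {t | V ≤ nt F v χ t}) ≤
        (volume.restrict (Set.Icc (t₀ - T) (t₀ + T))).real {t | V ^ (2 * j) ≤ nt F v χ t ^ (2 * j)} := by
      rw [measureReal_restrict_apply' measurableSet_Icc]
      apply measureReal_mono
      · intro t ht
        exact ⟨pow_le_pow_left₀ hV.le ht.2 _, ht.1⟩
      · exact ne_of_lt (lt_of_le_of_lt (measure_mono Set.inter_subset_right)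
          (by rw [Real.volume_Icc]; exact ENNReal.ofReal_lt_top))
    have hint2 : ∫ t, nt F v χ t ^ (2 * j) ∂(volume.restrict (Set.Icc (t₀ - T) (t₀ + T))) =
        Real.exp (-(2 * j * v)) * ∫ t in (t₀ - T)..(t₀ + T),
          ‖∑ n ∈ s, c n * χ (n : ZMod Q) * (n : ℂ) ^ (t * I)‖ ^ 2 := by
      rw [intervalIntegral.integral_of_le hle, ← integral_Icc_eq_integral_Ioc,
        ← integral_const_mul]
      exact integral_congr_ae (Filter.Eventually.of_forall fun t => hfe t)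
    calc _ ≤ V ^ (2 * j) * (volume.restrict (Set.Icc (t₀ - T) (t₀ + T))).real
          {t | V ^ (2 * j) ≤ nt F v χ t ^ (2 * j)} := mul_le_mul_of_nonneg_left hset hVp.le
      _ ≤ _ := hm
      _ = _ := hint2
  have hmv := h1 Q hQ s c t₀ T hT hs1
  have hcard : (s.card : ℝ) ≤ Real.exp (j * ((v : ℝ) + 1)) := by
    rw [hs, Nat.card_Icc, Nat.add_sub_cancel]
    exact Nat.floor_le (Real.exp_pos _).le
  have hTQ : (0 : ℝ) ≤ Q * T := by positivity
  have hsum : ∑ n ∈ s, ‖c n‖ ^ 2 * (Q * T + n) ≤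
      Real.exp (j * ((v : ℝ) + 1)) * ((C₂ * Real.exp (ε / 2 * v)) ^ 2 *
        (Q * T + Real.exp (j * ((v : ℝ) + 1)))) := by
    have h3 : ∀ n ∈ s, ‖c n‖ ^ 2 * (Q * T + n) ≤ (C₂ * Real.exp (ε / 2 * v)) ^ 2 *
        (Q * T + Real.exp (j * ((v : ℝ) + 1))) := by
      intro n hn
      have e1 : ‖c n‖ ≤ C₂ * Real.exp (ε / 2 * v) := by
        rw [hc]
        simp only [Complex.norm_real, Real.norm_eq_abs]
        exact h2 F hF v n
      have e2 : (n : ℝ) ≤ Real.exp (j * ((v : ℝ) + 1)) := by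
        have := (Finset.mem_Icc.1 hn).2
        exact le_trans (by exact_mod_cast this) (Nat.floor_le (Real.exp_pos _).le)
      have e3 := pow_le_pow_left₀ (norm_nonneg _) e1 2
      exact mul_le_mul e3 (by linarith) (by positivity) (by positivity)
    have h4 := Finset.sum_le_card_nsmul s _ _ h3
    rw [nsmul_eq_mul] at h4
    exact h4.trans (mul_le_mul_of_nonneg_right hcard (by positivity))
  have hLM : V ^ (2 * j) * LM (fun _ : DirichletCharacter ℂ Q => Set.Icc (t₀ - T) (t₀ + T))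
      (nt F v) V ≤ Real.exp (-(2 * j * v)) * (C₁ * (Real.exp (j * ((v : ℝ) + 1)) *
        ((C₂ * Real.exp (ε / 2 * v)) ^ 2 * (Q * T + Real.exp (j * ((v : ℝ) + 1)))))) := by
    unfold LM
    rw [Finset.mul_sum]
    refine (Finset.sum_le_sum fun χ _ => key χ).trans ?_
    rw [← Finset.mul_sum]
    refine mul_le_mul_of_nonneg_left (hmv.trans ?_) (Real.exp_pos _).le
    exact mul_le_mul_of_nonneg_left hsum (by linarith)
  -- rewrite the right-hand side
  have hE : Real.exp (-(2 * j * v)) * (C₁ * (Real.exp (j * ((v : ℝ) + 1)) *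
        ((C₂ * Real.exp (ε / 2 * v)) ^ 2 * (Q * T + Real.exp (j * ((v : ℝ) + 1)))))) ≤
      C₁ * C₂ ^ 2 * Real.exp (2 * j) * Real.exp (ε * v) * (1 + Q * T * Real.exp (-(j * v))) := by
    have a1 : Real.exp (-(2 * j * v)) * Real.exp (j * ((v : ℝ) + 1)) * Real.exp (j * ((v : ℝ) + 1)) =
        Real.exp (2 * j) := by
      rw [← Real.exp_add, ← Real.exp_add]
      congr 1
      ring
    have a2 : Real.exp (-(2 * j * v)) * Real.exp (j * ((v : ℝ) + 1)) =
        Real.exp (-(j * v)) * Real.exp j := by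
      rw [← Real.exp_add, ← Real.exp_add]
      congr 1
      ring
    have a3 : Real.exp (j : ℝ) ≤ Real.exp (2 * j) := Real.exp_le_exp.2 (by
      have : (0 : ℝ) ≤ j := by positivity
      linarith)
    have a4 : Real.exp (ε / 2 * v) ^ 2 = Real.exp (ε * v) := by
      rw [← Real.exp_nat_mul]
      congr 1
      push_cast
      ring
    have hpos : 0 ≤ C₁ * C₂ ^ 2 * Real.exp (ε * v) := by positivity
    calc _ = C₁ * C₂ ^ 2 * Real.exp (ε / 2 * v) ^ 2 * (
            (Real.exp (-(2 * j * v)) * Real.exp (j * ((v : ℝ) + 1)) *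
              Real.exp (j * ((v : ℝ) + 1))) +
            Q * T * (Real.exp (-(2 * j * v)) * Real.exp (j * ((v : ℝ) + 1)))) := by ring
      _ = C₁ * C₂ ^ 2 * Real.exp (ε * v) * (Real.exp (2 * j) +
            Q * T * (Real.exp (-(j * v)) * Real.exp j)) := by rw [a1, a2, a4]
      _ ≤ C₁ * C₂ ^ 2 * Real.exp (ε * v) * (Real.exp (2 * j) +
            Q * T * (Real.exp (-(j * v)) * Real.exp (2 * j))) := by
          refine mul_le_mul_of_nonneg_left ?_ hpos
          have := mul_le_mul_of_nonneg_left a3 (Real.exp_pos (-(j * v : ℝ))).le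
          have := mul_le_mul_of_nonneg_left this hTQ
          linarith
      _ = _ := by ring
  have hfin := hLM.trans hE
  calc LM (fun _ : DirichletCharacter ℂ Q => Set.Icc (t₀ - T) (t₀ + T)) (nt F v) V
      = (V ^ (2 * j))⁻¹ * (V ^ (2 * j) * LM (fun _ : DirichletCharacter ℂ Q =>
          Set.Icc (t₀ - T) (t₀ + T)) (nt F v) V) := by
        rw [← mul_assoc, inv_mul_cancel₀ hVp.ne', one_mul]
    _ ≤ (V ^ (2 * j))⁻¹ * (C₁ * C₂ ^ 2 * Real.exp (2 * j) * Real.exp (ε * v) *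
          (1 + Q * T * Real.exp (-(j * v)))) :=
        mul_le_mul_of_nonneg_left hfin (inv_nonneg.2 hVp.le)
    _ = _ := by ring

end Pool.Agent.HPP
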