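import Pool.Agent.HPP.VDefs
import Pool.Agent.PNT.Ker

/-!
# HPP/VMean: the hybrid mean value theorem (elementary form)

PROOF. `1_{|t - t₀| ≤ T} ≤ e exp (-(t - t₀)²/T²)`. Expand the square, integrate
(`∫ exp (-(t-t₀)²/T²) (n/n')^(it) dt = √π T (n/n')^(i t₀) exp (-T² log² (n/n')/4)`) and use orthogonality
(`∑_χ χ(n) conj χ(n') = φ(Q)` if `n = n'` mod `Q` are units, else `0`; `φ(Q) ≤ Q`):
`LHS ≤ e √π Q T ∑_{n ≡ n' (Q)} |c_n| |c_n'| exp (-T² log² (n/n')/4)`, and `2 |c_n c_n'| ≤ |c_n|² + |c_n'|²`.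
It remains: for `n ≥ 1`, `∑_{n' ∈ s, n' ≡ n (Q)} exp (-T² log² (n/n')/4) ≤ C (1 + n/(QT))`. With `n' = n + Q l`:
`|log (n'/n)| ≥ min (|n'-n|/(2n), log 2)`; for `n' ≤ 2 n` the sum is `≤ 2 ∑_{l ≥ 0} exp (-(T Q l/(4 n))²) ≤ C (1 + n/(TQ))`
(also for `n' < n`, `|log (n'/n)| ≥ |n'-n|/n`); the number of `n' ∈ (2^k n, 2^(k+1) n]`, `k ≥ 1`, is `≤ 2^k n/Q + 1` and there the
exponential is `≤ exp (-c T² k²) ≤ exp (-c k²)/T ..` (`T ≥ 1`).
(Or use `exp (-y²/4) ≤ C/(1+y²)` etc. The value of `C` does not matter.)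
-/

namespace Pool.Agent.HPP

open Complex MeasureTheory
open scoped FourierTransform
open Pool.Agent.PNT (fk fk_nonneg fk_le fk_meas fk_int fk_fourier)

namespace VM

/-- the triangle function -/
private noncomputable def tri (u : ℝ) : ℝ := max 0 (1 - |u|)

private theorem tri_cont : Continuous tri := by
  unfold tri; fun_prop

private theorem tri_zero {u : ℝ} (h : 1 < |u|) : tri u = 0 := by
  unfold tri; rw [max_eq_left]; linarith

private theorem tri_nonneg (u : ℝ) : 0 ≤ tri u := le_max_left _ _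

private theorem tri_le (u : ℝ) : tri u ≤ 1 := by
  unfold tri
  apply max_le zero_le_one
  linarith [abs_nonneg u]

private theorem fk_even (v : ℝ) : fk (-v) = fk v := by
  unfold fk
  simp

private theorem tri_int (g : ℝ → ℂ) : ∫ y : ℝ, ((tri y : ℝ) : ℂ) * g y =
    ∫ y in (-1 : ℝ)..1, ((1 - |y| / 1 : ℝ) : ℂ) * g y := by
  rw [intervalIntegral.integral_of_le (by norm_num), ← integral_indicator measurableSet_Ioc]
  congr 1
  ext y
  by_cases hy : y ∈ Set.Ioc (-1 : ℝ) 1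
  · rw [Set.indicator_of_mem hy]
    have : |y| ≤ 1 := abs_le.2 ⟨hy.1.le, hy.2⟩
    unfold tri
    rw [max_eq_right (by linarith)]
    simp
  · rw [Set.indicator_of_notMem hy]
    have : 1 ≤ |y| := by
      by_contra h
      push Not at h
      exact hy ⟨(abs_lt.1 h).1, (abs_lt.1 h).2.le⟩
    unfold tri
    rw [max_eq_left (by linarith)]
    simp

private theorem tri_four : 𝓕 (fun y : ℝ => ((tri y : ℝ) : ℂ)) =
    fun ξ : ℝ => ((fk (2 * Real.pi * ξ) : ℝ) : ℂ) := by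
  ext ξ
  rw [Real.fourier_real_eq_integral_exp_smul]
  have h := fk_fourier (l := 1) one_pos (-(2 * Real.pi * ξ))
  have h2 := tri_int (fun y => Complex.exp (Complex.I * (y * ((-(2 * Real.pi * ξ) : ℝ) : ℂ))))
  rw [h] at h2
  rw [one_mul, one_mul, fk_even] at h2
  rw [← h2]
  congr 1
  ext y
  rw [smul_eq_mul, mul_comm]
  congr 2
  push_cast
  ring

private theorem tri_integrable : Integrable (fun y : ℝ => ((tri y : ℝ) : ℂ)) := by
  apply Continuous.integrable_of_hasCompactSupport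
  · exact continuous_ofReal.comp tri_cont
  · apply HasCompactSupport.intro (isCompact_Icc (a := (-1 : ℝ)) (b := 1))
    intro y hy
    have : 1 < |y| := by
      by_contra h
      push Not at h
      exact hy ⟨(abs_le.1 h).1, (abs_le.1 h).2⟩
    rw [tri_zero this]
    simp

private theorem fk_hat (u : ℝ) : ∫ t : ℝ, ((fk t : ℝ) : ℂ) * Complex.exp (-(t * u) * I) =
    ((2 * Real.pi * tri u : ℝ) : ℂ) := by
  have hpi : (0 : ℝ) < 2 * Real.pi := by positivity
  have h := Continuous.fourierInv_fourier_eq (continuous_ofReal.comp tri_cont) tri_integrable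
    (by
      rw [show (ofReal ∘ tri : ℝ → ℂ) = fun y : ℝ => ((tri y : ℝ) : ℂ) from rfl, tri_four]
      exact ((fk_int.comp_mul_left' hpi.ne').ofReal))
  rw [show (ofReal ∘ tri : ℝ → ℂ) = fun y : ℝ => ((tri y : ℝ) : ℂ) from rfl, tri_four] at h
  have h1 := congrFun h (-u)
  rw [Real.fourierInv_eq'] at h1
  have h2 : ∀ v : ℝ, cexp (↑(2 * Real.pi * inner ℝ v (-u)) * I) • ((fk (2 * Real.pi * v) : ℝ) : ℂ) =
      (fun t : ℝ => ((fk t : ℝ) : ℂ) * Complex.exp (-(t * u) * I)) (2 * Real.pi * v) := by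
    intro v
    simp only [smul_eq_mul]
    rw [mul_comm]
    congr 2
    simp
    ring
  rw [integral_congr_ae (Filter.Eventually.of_forall h2),
    Measure.integral_comp_mul_left (fun t : ℝ => ((fk t : ℝ) : ℂ) * Complex.exp (-(t * u) * I))] at h1
  have h3 : tri (-u) = tri u := by unfold tri; simp
  rw [h3] at h1
  rw [abs_of_pos (by positivity)] at h1
  rw [ofReal_mul, ← h1, real_smul, ← mul_assoc, ← ofReal_mul, mul_inv_cancel₀ hpi.ne']
  simp

private theorem fk_hat' (T : ℝ) (hT : 0 < T) (u : ℝ) :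
    ∫ t : ℝ, ((fk (t / T) : ℝ) : ℂ) * Complex.exp (-(t * u) * I) =
    ((2 * Real.pi * T * tri (T * u) : ℝ) : ℂ) := by
  have h1 := fk_hat (T * u)
  have h2 : ∀ t : ℝ, ((fk (t / T) : ℝ) : ℂ) * Complex.exp (-(t * u) * I) =
      (fun t : ℝ => ((fk t : ℝ) : ℂ) * Complex.exp (-(t * ((T * u : ℝ) : ℂ)) * I)) (t / T) := by
    intro t
    simp only
    congr 2
    have : (T : ℂ) ≠ 0 := by exact_mod_cast hT.ne'
    push_cast
    field_simp
  rw [integral_congr_ae (Filter.Eventually.of_forall h2),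
    Measure.integral_comp_div (fun t : ℝ => ((fk t : ℝ) : ℂ) *
      Complex.exp (-(t * ((T * u : ℝ) : ℂ)) * I)), h1, abs_of_pos hT, real_smul, ← ofReal_mul]
  congr 1
  ring

private theorem fk_ge {v : ℝ} (hv : |v| ≤ 1) : 4 / Real.pi ^ 2 ≤ fk v := by
  have hpi := Real.pi_gt_three
  unfold fk
  split_ifs with h
  · rw [div_le_one (by positivity)]
    nlinarith
  · have hv2 : 0 < v ^ 2 := by positivity
    have := Real.cos_le_one_sub_mul_cos_sq (x := v) (by linarith)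
    rw [le_div_iff₀ hv2]
    have e : 4 / Real.pi ^ 2 * v ^ 2 = 2 * (2 / Real.pi ^ 2 * v ^ 2) := by ring
    rw [e]
    linarith

private theorem fkT_int (T : ℝ) (hT : 0 < T) : Integrable (fun t : ℝ => fk (t / T)) := by
  simp_rw [div_eq_inv_mul]
  exact fk_int.comp_mul_left' (inv_pos.2 hT).ne'

private theorem fkT_exp_int (T : ℝ) (hT : 0 < T) (u : ℝ) :
    Integrable (fun t : ℝ => ((fk (t / T) : ℝ) : ℂ) * Complex.exp (-(t * u) * I)) := by
  have h := (fkT_int T hT).ofReal (𝕜 := ℂ)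
  refine h.mul_bdd (c := 1) ?_ ?_
  · apply Continuous.aestronglyMeasurable; fun_prop
  · refine Filter.Eventually.of_forall fun t => ?_
    rw [show (-(t * u) * I : ℂ) = ((-(t * u) : ℝ) : ℂ) * I by push_cast; ring,
      Complex.norm_exp_ofReal_mul_I]


/-- the general second moment with complex coefficients -/
private theorem second (q : ℕ) [NeZero q] (S : Finset ℕ) (Y : ℕ → ℝ) (a : ℕ → ℂ) (T : ℝ) (hT : 0 < T) :
    ∑ χ : DirichletCharacter ℂ q, ∫ t in (-T)..T,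
      ‖∑ i ∈ S, a i * χ (i : ZMod q) * cexp (-(t * Y i) * I)‖ ^ 2 ≤
    (Real.pi ^ 3 / 2) * T * q * ∑ z ∈ (S ×ˢ S).filter (fun z =>
      (z.1 ≡ z.2 [MOD q]) ∧ |Y z.1 - Y z.2| ≤ 1 / T), ‖a z.1‖ * ‖a z.2‖ := by
  classical
  set F : DirichletCharacter ℂ q → ℝ → ℂ := fun χ t =>
    ∑ i ∈ S, a i * χ (i : ZMod q) * cexp (-(t * Y i) * I) with hF
  have hFc : ∀ χ, Continuous (F χ) := by
    intro χ
    simp only [hF]
    fun_prop
  -- expansion
  have hexp : ∀ χ t, ((‖F χ t‖ ^ 2 : ℝ) : ℂ) = ∑ z ∈ S ×ˢ S, (a z.1 * (starRingEnd ℂ) (a z.2)) *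
      (χ (z.1 : ZMod q) * (starRingEnd ℂ) (χ (z.2 : ZMod q))) *
        cexp (-(t * ((Y z.1 - Y z.2 : ℝ) : ℂ)) * I) := by
    intro χ t
    rw [ofReal_pow, ← Complex.mul_conj', hF]
    simp only
    rw [map_sum, Finset.sum_mul_sum, Finset.sum_product]
    refine Finset.sum_congr rfl fun i _ => Finset.sum_congr rfl fun j _ => ?_
    simp only [map_mul, Complex.conj_ofReal, ← Complex.exp_conj, map_neg,
      Complex.conj_I]
    rw [show (-((t : ℂ) * ((Y i - Y j : ℝ) : ℂ)) * I) = (-(t * Y i) * I) + (-(t * Y j) * -I) by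
      push_cast; ring, Complex.exp_add]
    ring
  -- the weighted integral of one character
  have hint : ∀ χ, Integrable (fun t : ℝ => fk (t / T) * ‖F χ t‖ ^ 2) := by
    intro χ
    refine (fkT_int T hT).mul_bdd (c := (∑ i ∈ S, ‖a i * χ (i : ZMod q)‖) ^ 2)
      ?_ ?_
    · exact ((hFc χ).norm.pow 2).aestronglyMeasurable
    · refine Filter.Eventually.of_forall fun t => ?_
      rw [Real.norm_of_nonneg (by positivity)]
      apply pow_le_pow_left₀ (norm_nonneg _)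
      rw [hF]
      simp only
      refine (norm_sum_le _ _).trans (Finset.sum_le_sum fun i _ => ?_)
      rw [norm_mul, show (-(t * Y i) * I : ℂ) = ((-(t * Y i) : ℝ) : ℂ) * I by push_cast; ring,
        Complex.norm_exp_ofReal_mul_I, mul_one]
  have hmaj : ∀ χ, ∫ t in (-T)..T, ‖F χ t‖ ^ 2 ≤
      (Real.pi ^ 2 / 4) * ∫ t : ℝ, fk (t / T) * ‖F χ t‖ ^ 2 := by
    intro χ
    rw [← integral_const_mul, intervalIntegral.integral_of_le (by linarith)]
    have hI : Integrable (fun t : ℝ => Real.pi ^ 2 / 4 * (fk (t / T) * ‖F χ t‖ ^ 2)) :=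
      (hint χ).const_mul _
    refine (setIntegral_mono_on ?_ hI.integrableOn measurableSet_Ioc ?_).trans
      (setIntegral_le_integral hI ?_)
    · exact (((hFc χ).norm.pow 2).integrableOn_Icc).mono_set Set.Ioc_subset_Icc_self
    · intro t ht
      have h1 : |t / T| ≤ 1 := by
        rw [abs_div, abs_of_pos hT, div_le_one hT]
        exact abs_le.2 ⟨ht.1.le, ht.2⟩
      have h2 := fk_ge h1
      have h3 : 1 ≤ Real.pi ^ 2 / 4 * fk (t / T) := by
        calc (1 : ℝ) = Real.pi ^ 2 / 4 * (4 / Real.pi ^ 2) := by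
              field_simp
          _ ≤ _ := by
              apply mul_le_mul_of_nonneg_left h2; positivity
      calc ‖F χ t‖ ^ 2 = 1 * ‖F χ t‖ ^ 2 := (one_mul _).symm
        _ ≤ (Real.pi ^ 2 / 4 * fk (t / T)) * ‖F χ t‖ ^ 2 :=
            mul_le_mul_of_nonneg_right h3 (by positivity)
        _ = _ := by ring
    · refine Filter.Eventually.of_forall fun t => ?_
      have := fk_nonneg (t / T)
      positivity
  have hval : ((∑ χ : DirichletCharacter ℂ q, ∫ t : ℝ, fk (t / T) * ‖F χ t‖ ^ 2 : ℝ) : ℂ) =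
      ∑ z ∈ S ×ˢ S, (a z.1 * (starRingEnd ℂ) (a z.2)) *
        (∑ χ : DirichletCharacter ℂ q, χ (z.1 : ZMod q) * (starRingEnd ℂ) (χ (z.2 : ZMod q))) *
          ((2 * Real.pi * T * tri (T * (Y z.1 - Y z.2)) : ℝ) : ℂ) := by
    rw [ofReal_sum]
    have h1 : ∀ χ : DirichletCharacter ℂ q, ((∫ t : ℝ, fk (t / T) * ‖F χ t‖ ^ 2 : ℝ) : ℂ) =
        ∑ z ∈ S ×ˢ S, (a z.1 * (starRingEnd ℂ) (a z.2)) *
          (χ (z.1 : ZMod q) * (starRingEnd ℂ) (χ (z.2 : ZMod q))) *
            ((2 * Real.pi * T * tri (T * (Y z.1 - Y z.2)) : ℝ) : ℂ) := by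
      intro χ
      rw [← integral_complex_ofReal]
      have h2 : ∀ t : ℝ, ((fk (t / T) * ‖F χ t‖ ^ 2 : ℝ) : ℂ) = ∑ z ∈ S ×ˢ S,
          ((a z.1 * (starRingEnd ℂ) (a z.2)) *
          (χ (z.1 : ZMod q) * (starRingEnd ℂ) (χ (z.2 : ZMod q)))) *
          (((fk (t / T) : ℝ) : ℂ) * cexp (-(t * ((Y z.1 - Y z.2 : ℝ) : ℂ)) * I)) := by
        intro t
        rw [ofReal_mul, hexp, Finset.mul_sum]
        refine Finset.sum_congr rfl fun z _ => ?_
        ring
      rw [integral_congr_ae (Filter.Eventually.of_forall h2), integral_finsetSum]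
      · refine Finset.sum_congr rfl fun z _ => ?_
        rw [integral_const_mul, fk_hat' T hT]
      · intro z _
        exact (fkT_exp_int T hT _).const_mul _
    rw [Finset.sum_congr rfl fun χ _ => h1 χ, Finset.sum_comm]
    refine Finset.sum_congr rfl fun z _ => ?_
    rw [Finset.mul_sum, Finset.sum_mul]
  have horth : ∀ z ∈ S ×ˢ S,
      ‖∑ χ : DirichletCharacter ℂ q, χ (z.1 : ZMod q) * (starRingEnd ℂ) (χ (z.2 : ZMod q))‖ ≤
        if z.1 ≡ z.2 [MOD q] then (q : ℝ) else 0 := by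
    intro z hz
    by_cases hu : IsUnit ((z.2 : ℕ) : ZMod q)
    · have h := DirichletCharacter.sum_char_inv_mul_char_eq ℂ hu ((z.1 : ℕ) : ZMod q)
      have h' : ∀ χ : DirichletCharacter ℂ q, χ (z.1 : ZMod q) * (starRingEnd ℂ) (χ (z.2 : ZMod q)) =
          χ ((z.2 : ZMod q))⁻¹ * χ (z.1 : ZMod q) := by
        intro χ
        obtain ⟨u, hu⟩ := hu
        rw [starRingEnd_apply, MulChar.star_apply', MulChar.inv_apply, ← hu, Ring.inverse_unit,
          ZMod.inv_coe_unit, mul_comm]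
      rw [Finset.sum_congr rfl fun χ _ => h' χ, h]
      by_cases hc : z.1 ≡ z.2 [MOD q]
      · rw [if_pos hc, if_pos ((ZMod.natCast_eq_natCast_iff _ _ _).2 hc.symm)]
        rw [Complex.norm_natCast]
        exact_mod_cast Nat.totient_le q
      · rw [if_neg hc, if_neg]
        · simp
        · intro h
          exact hc ((ZMod.natCast_eq_natCast_iff _ _ _).1 h.symm)
    · have h' : ∀ χ : DirichletCharacter ℂ q, χ (z.1 : ZMod q) * (starRingEnd ℂ) (χ (z.2 : ZMod q)) = 0 := by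
        intro χ
        rw [MulChar.map_nonunit _ hu]
        simp
      rw [Finset.sum_congr rfl fun χ _ => h' χ]
      simp only [Finset.sum_const_zero, norm_zero]
      split_ifs
      · positivity
      · exact le_rfl
  have hbd : (∑ χ : DirichletCharacter ℂ q, ∫ t : ℝ, fk (t / T) * ‖F χ t‖ ^ 2) ≤
      (q : ℝ) * (2 * Real.pi * T) * ∑ z ∈ (S ×ˢ S).filter (fun z =>
      (z.1 ≡ z.2 [MOD q]) ∧ |Y z.1 - Y z.2| ≤ 1 / T), ‖a z.1‖ * ‖a z.2‖ := by
    have h0 : (∑ χ : DirichletCharacter ℂ q, ∫ t : ℝ, fk (t / T) * ‖F χ t‖ ^ 2) ≤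
        ‖((∑ χ : DirichletCharacter ℂ q, ∫ t : ℝ, fk (t / T) * ‖F χ t‖ ^ 2 : ℝ) : ℂ)‖ := by
      rw [Complex.norm_real]
      exact Real.le_norm_self _
    refine h0.trans ?_
    rw [hval, Finset.sum_filter, Finset.mul_sum]
    refine (norm_sum_le _ _).trans (Finset.sum_le_sum fun z hz => ?_)
    have hpi := Real.pi_pos
    have h6 := tri_nonneg (T * (Y z.1 - Y z.2))
    rw [norm_mul, norm_mul, norm_mul, RCLike.norm_conj, Complex.norm_real,
      Real.norm_of_nonneg (by positivity)]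
    have h7 := horth z hz
    by_cases hc : z.1 ≡ z.2 [MOD q]
    · rw [if_pos hc] at h7
      by_cases hd : |Y z.1 - Y z.2| ≤ 1 / T
      · rw [if_pos ⟨hc, hd⟩]
        have h5 := tri_le (T * (Y z.1 - Y z.2))
        calc ‖a z.1‖ * ‖a z.2‖ * ‖∑ χ : DirichletCharacter ℂ q, χ (z.1 : ZMod q) * (starRingEnd ℂ) (χ (z.2 : ZMod q))‖
              * (2 * Real.pi * T * tri (T * (Y z.1 - Y z.2)))
            ≤ ‖a z.1‖ * ‖a z.2‖ * q * (2 * Real.pi * T * 1) := by gcongr
          _ = _ := by ring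
      · have h5 : tri (T * (Y z.1 - Y z.2)) = 0 := by
          apply tri_zero
          rw [abs_mul, abs_of_pos hT]
          push Not at hd
          rw [div_lt_iff₀ hT] at hd
          linarith
        rw [h5]
        simp only [mul_zero]
        split_ifs
        · positivity
        · simp
    · rw [if_neg hc] at h7
      have h8 := le_antisymm h7 (norm_nonneg _)
      rw [h8]
      simp only [mul_zero, zero_mul]
      split_ifs
      · positivity
      · simp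
  calc ∑ χ : DirichletCharacter ℂ q, ∫ t in (-T)..T, ‖F χ t‖ ^ 2
      ≤ ∑ χ : DirichletCharacter ℂ q, (Real.pi ^ 2 / 4) * ∫ t : ℝ, fk (t / T) * ‖F χ t‖ ^ 2 :=
        Finset.sum_le_sum fun χ _ => hmaj χ
    _ = (Real.pi ^ 2 / 4) * ∑ χ : DirichletCharacter ℂ q, ∫ t : ℝ, fk (t / T) * ‖F χ t‖ ^ 2 := by
        rw [Finset.mul_sum]
    _ ≤ (Real.pi ^ 2 / 4) * ((q : ℝ) * (2 * Real.pi * T) * ∑ z ∈ (S ×ˢ S).filter (fun z =>
      (z.1 ≡ z.2 [MOD q]) ∧ |Y z.1 - Y z.2| ≤ 1 / T), ‖a z.1‖ * ‖a z.2‖) := by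
        apply mul_le_mul_of_nonneg_left hbd; positivity
    _ = _ := by ring

/-- counting in a residue class in a short interval -/
private theorem cnt (q : ℕ) (hq : 1 ≤ q) (S : Finset ℕ) (n : ℕ) (M : ℝ) (hM : 0 ≤ M) :
    (((S.filter fun m => (n ≡ m [MOD q]) ∧ |(m : ℝ) - n| ≤ M).card : ℕ) : ℝ) ≤ 2 * (M / q) + 1 := by
  classical
  have hq' : (0 : ℝ) < q := by exact_mod_cast hq
  set K : ℤ := ⌊M / q⌋ with hK
  have hK0 : 0 ≤ K := Int.floor_nonneg.2 (by positivity)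
  have h1 : (S.filter fun m => (n ≡ m [MOD q]) ∧ |(m : ℝ) - n| ≤ M).card ≤ (Finset.Icc (-K) K).card := by
    apply Finset.card_le_card_of_injOn (fun m : ℕ => ((m : ℤ) - n) / q)
    · intro m hm
      simp only [Finset.coe_filter, Set.mem_setOf_eq] at hm
      obtain ⟨_, hm1, hm2⟩ := hm
      obtain ⟨l, hl⟩ := (Nat.modEq_iff_dvd.1 hm1)
      have hl' : ((m : ℤ) - n) / q = l := by
        rw [hl]
        exact Int.mul_ediv_cancel_left _ (by exact_mod_cast (by omega : q ≠ 0))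
      simp only [Finset.coe_Icc, Set.mem_Icc]
      rw [hl']
      have h3 : (m : ℝ) - n = q * l := by exact_mod_cast hl
      rw [h3, abs_mul, abs_of_pos hq'] at hm2
      have h4 : |(l : ℝ)| ≤ M / q := by
        rw [le_div_iff₀ hq', mul_comm]
        exact hm2
      have h5 := abs_le.1 h4
      constructor
      · have : -l ≤ K := Int.le_floor.2 (by push_cast; linarith)
        omega
      · exact Int.le_floor.2 h5.2
    · intro m hm m' hm' h
      simp only [Finset.coe_filter, Set.mem_setOf_eq] at hm hm'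
      obtain ⟨l, hl⟩ := (Nat.modEq_iff_dvd.1 hm.2.1)
      obtain ⟨l', hl'⟩ := (Nat.modEq_iff_dvd.1 hm'.2.1)
      simp only at h
      rw [hl, hl', Int.mul_ediv_cancel_left _ (by exact_mod_cast (by omega : q ≠ 0)),
        Int.mul_ediv_cancel_left _ (by exact_mod_cast (by omega : q ≠ 0))] at h
      rw [h] at hl
      omega
  rw [Int.card_Icc] at h1
  have h2 : (((S.filter fun m => (n ≡ m [MOD q]) ∧ |(m : ℝ) - n| ≤ M).card : ℕ) : ℤ) ≤ 2 * K + 1 := by
    omega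
  have h3 : (((S.filter fun m => (n ≡ m [MOD q]) ∧ |(m : ℝ) - n| ≤ M).card : ℕ) : ℝ) ≤ 2 * K + 1 := by
    exact_mod_cast h2
  have h4 : (K : ℝ) ≤ M / q := Int.floor_le _
  linarith

/-- close logarithms -/
private theorem close {n m : ℕ} (hn : 1 ≤ n) (hm : 1 ≤ m) {T : ℝ} (hT : 1 ≤ T)
    (h : |Real.log n - Real.log m| ≤ 1 / T) : |(m : ℝ) - n| ≤ 2 * (n / T) := by
  have hn' : (0 : ℝ) < n := by exact_mod_cast hn
  have hm' : (0 : ℝ) < m := by exact_mod_cast hm
  have hT0 : 0 < T := by linarith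
  have hx0 : 0 ≤ 1 / T := by positivity
  have hx1 : 1 / T ≤ 1 := by rw [div_le_one hT0]; exact hT
  set x := 1 / T with hx
  have h1 := abs_le.1 h
  have e1 : (m : ℝ) = n * Real.exp (Real.log m - Real.log n) := by
    rw [Real.exp_sub, Real.exp_log hm', Real.exp_log hn']
    field_simp
  set y := Real.log m - Real.log n with hy
  have hy1 : y ≤ x := by linarith [h1.1]
  have hy2 : -x ≤ y := by linarith [h1.2]
  have e2 : (m : ℝ) - n = n * (Real.exp y - 1) := by rw [e1]; ring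
  have hlow : y ≤ Real.exp y - 1 := by linarith [Real.add_one_le_exp y]
  have hup : Real.exp y - 1 ≤ 2 * x := by
    have h5 : Real.exp y ≤ Real.exp x := Real.exp_le_exp.2 hy1
    have h6 : Real.exp x ≤ 1 + 2 * x := by
      have h7 := Real.abs_exp_sub_one_sub_id_le (x := x) (by rw [abs_of_nonneg hx0]; exact hx1)
      have h8 := (abs_le.1 h7).2
      nlinarith
    linarith
  have e3 : 2 * ((n : ℝ) / T) = n * (2 * x) := by rw [hx]; ring
  rw [e2, e3, abs_mul, abs_of_pos hn']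
  apply mul_le_mul_of_nonneg_left _ hn'.le
  rw [abs_le]
  constructor
  · linarith
  · exact hup

end VM

open VM in
theorem mv : ∃ C : ℝ, 1 ≤ C ∧ ∀ (Q : ℕ), 1 ≤ Q → ∀ (s : Finset ℕ) (c : ℕ → ℂ) (t₀ T : ℝ), 1 ≤ T →
    (∀ n ∈ s, 1 ≤ n) → ∑ χ : DirichletCharacter ℂ Q, ∫ t in (t₀ - T)..(t₀ + T),
      ‖∑ n ∈ s, c n * χ (n : ZMod Q) * (n : ℂ) ^ (t * I)‖ ^ 2 ≤
      C * ∑ n ∈ s, ‖c n‖ ^ 2 * (Q * T + n) := by
  refine ⟨2 * Real.pi ^ 3, ?_, ?_⟩
  · have := Real.pi_gt_three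
    nlinarith [sq_nonneg (Real.pi - 3), pow_pos Real.pi_pos 2]
  intro Q hQ s c t₀ T hT hs
  classical
  have : NeZero Q := ⟨by omega⟩
  have hT0 : 0 < T := by linarith
  have hQ0 : (0 : ℝ) < Q := by exact_mod_cast hQ
  set a : ℕ → ℂ := fun n => c n * (n : ℂ) ^ (t₀ * I) with ha
  set Y : ℕ → ℝ := fun n => -Real.log n with hY
  have hterm : ∀ n ∈ s, ∀ (χ : DirichletCharacter ℂ Q) (t : ℝ),
      c n * χ (n : ZMod Q) * (n : ℂ) ^ (((t + t₀ : ℝ) : ℂ) * I) =
        a n * χ (n : ZMod Q) * cexp (-(t * Y n) * I) := by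
    intro n hn χ t
    have hn0 : (n : ℂ) ≠ 0 := by
      have := hs n hn
      exact_mod_cast (by omega : n ≠ 0)
    have e1 : (n : ℂ) ^ (((t + t₀ : ℝ) : ℂ) * I) = (n : ℂ) ^ (t₀ * I) * cexp (-(t * Y n) * I) := by
      rw [show (((t + t₀ : ℝ) : ℂ) * I) = t₀ * I + t * I by push_cast; ring,
        Complex.cpow_add _ _ hn0]
      congr 1
      rw [Complex.cpow_def_of_ne_zero hn0, ← Complex.natCast_log]
      congr 1
      rw [hY]
      push_cast
      ring
    rw [e1, ha]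
    ring
  have hshift : ∀ χ : DirichletCharacter ℂ Q, ∫ t in (t₀ - T)..(t₀ + T),
      ‖∑ n ∈ s, c n * χ (n : ZMod Q) * (n : ℂ) ^ (t * I)‖ ^ 2 =
      ∫ t in (-T)..T, ‖∑ i ∈ s, a i * χ (i : ZMod Q) * cexp (-(t * Y i) * I)‖ ^ 2 := by
    intro χ
    have h := intervalIntegral.integral_comp_add_right (a := -T) (b := T)
      (fun t : ℝ => ‖∑ n ∈ s, c n * χ (n : ZMod Q) * (n : ℂ) ^ ((t : ℂ) * I)‖ ^ 2) t₀
    rw [show t₀ - T = -T + t₀ by ring, show t₀ + T = T + t₀ by ring, ← h]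
    apply intervalIntegral.integral_congr
    intro t _
    simp only
    rw [Finset.sum_congr rfl fun n hn => hterm n hn χ t]
  rw [Finset.sum_congr rfl fun χ _ => hshift χ]
  refine (second Q s Y a T hT0).trans ?_
  have hna : ∀ n ∈ s, ‖a n‖ = ‖c n‖ := by
    intro n hn
    rw [ha]
    simp only
    rw [norm_mul, Complex.norm_natCast_cpow_of_pos (by have := hs n hn; omega)]
    simp
  -- bound the sum over pairs
  have hpair : ∑ z ∈ (s ×ˢ s).filter (fun z =>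
      (z.1 ≡ z.2 [MOD Q]) ∧ |Y z.1 - Y z.2| ≤ 1 / T), ‖a z.1‖ * ‖a z.2‖ ≤
      ∑ n ∈ s, ‖c n‖ ^ 2 * (4 * (n / (Q * T)) + 1) := by
    have h1 : ∑ z ∈ (s ×ˢ s).filter (fun z =>
        (z.1 ≡ z.2 [MOD Q]) ∧ |Y z.1 - Y z.2| ≤ 1 / T), ‖a z.1‖ * ‖a z.2‖ ≤
        ∑ z ∈ (s ×ˢ s).filter (fun z =>
        (z.1 ≡ z.2 [MOD Q]) ∧ |Y z.1 - Y z.2| ≤ 1 / T), (‖c z.1‖ ^ 2 / 2 + ‖c z.2‖ ^ 2 / 2) := by
      refine Finset.sum_le_sum fun z hz => ?_
      have hz' := Finset.mem_product.1 (Finset.mem_filter.1 hz).1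
      rw [hna _ hz'.1, hna _ hz'.2]
      nlinarith [sq_nonneg (‖c z.1‖ - ‖c z.2‖)]
    refine h1.trans ?_
    rw [Finset.sum_add_distrib]
    have hsym : ∑ z ∈ (s ×ˢ s).filter (fun z =>
        (z.1 ≡ z.2 [MOD Q]) ∧ |Y z.1 - Y z.2| ≤ 1 / T), ‖c z.2‖ ^ 2 / 2 =
        ∑ z ∈ (s ×ˢ s).filter (fun z =>
        (z.1 ≡ z.2 [MOD Q]) ∧ |Y z.1 - Y z.2| ≤ 1 / T), ‖c z.1‖ ^ 2 / 2 := by
      refine Finset.sum_bij' (fun z _ => (z.2, z.1)) (fun z _ => (z.2, z.1)) ?_ ?_ ?_ ?_ ?_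
      · intro z hz
        simp only [Finset.mem_filter, Finset.mem_product] at hz ⊢
        exact ⟨⟨hz.1.2, hz.1.1⟩, hz.2.1.symm, by rw [abs_sub_comm]; exact hz.2.2⟩
      · intro z hz
        simp only [Finset.mem_filter, Finset.mem_product] at hz ⊢
        exact ⟨⟨hz.1.2, hz.1.1⟩, hz.2.1.symm, by rw [abs_sub_comm]; exact hz.2.2⟩
      · intro z _; rfl
      · intro z _; rfl
      · intro z _; rfl
    rw [hsym, ← Finset.sum_add_distrib]
    rw [Finset.sum_filter, Finset.sum_product]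
    refine Finset.sum_le_sum fun n hn => ?_
    rw [← Finset.sum_filter]
    simp only
    rw [Finset.sum_const, nsmul_eq_mul]
    have h2 : ((s.filter fun m => (n ≡ m [MOD Q]) ∧ |Y n - Y m| ≤ 1 / T).card : ℝ) ≤
        4 * (n / (Q * T)) + 1 := by
      have h3 : (s.filter fun m => (n ≡ m [MOD Q]) ∧ |Y n - Y m| ≤ 1 / T).card ≤
          (s.filter fun m => (n ≡ m [MOD Q]) ∧ |(m : ℝ) - n| ≤ 2 * (n / T)).card := by
        apply Finset.card_le_card
        intro m hm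
        simp only [Finset.mem_filter] at hm ⊢
        refine ⟨hm.1, hm.2.1, close (hs n hn) (hs m hm.1) hT ?_⟩
        have h4 := hm.2.2
        rw [hY] at h4
        simp only at h4
        rw [show -Real.log n - -Real.log m = -(Real.log n - Real.log m) by ring, abs_neg] at h4
        exact h4
      have h5 := cnt Q hQ s n (2 * (n / T)) (by positivity)
      calc ((s.filter fun m => (n ≡ m [MOD Q]) ∧ |Y n - Y m| ≤ 1 / T).card : ℝ)
          ≤ ((s.filter fun m => (n ≡ m [MOD Q]) ∧ |(m : ℝ) - n| ≤ 2 * (n / T)).card : ℝ) := by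
            exact_mod_cast h3
        _ ≤ _ := h5
        _ = 4 * (n / (Q * T)) + 1 := by
            field_simp
            ring
    calc ((s.filter fun m => (n ≡ m [MOD Q]) ∧ |Y n - Y m| ≤ 1 / T).card : ℝ) *
          (‖c n‖ ^ 2 / 2 + ‖c n‖ ^ 2 / 2)
        ≤ (4 * (n / (Q * T)) + 1) * (‖c n‖ ^ 2 / 2 + ‖c n‖ ^ 2 / 2) := by
          apply mul_le_mul_of_nonneg_right h2; positivity
      _ = _ := by ring
  calc Real.pi ^ 3 / 2 * T * Q * ∑ z ∈ (s ×ˢ s).filter (fun z =>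
      (z.1 ≡ z.2 [MOD Q]) ∧ |Y z.1 - Y z.2| ≤ 1 / T), ‖a z.1‖ * ‖a z.2‖
      ≤ Real.pi ^ 3 / 2 * T * Q * ∑ n ∈ s, ‖c n‖ ^ 2 * (4 * (n / (Q * T)) + 1) := by
        apply mul_le_mul_of_nonneg_left hpair; positivity
    _ ≤ 2 * Real.pi ^ 3 * ∑ n ∈ s, ‖c n‖ ^ 2 * (Q * T + n) := by
        rw [Finset.mul_sum, Finset.mul_sum]
        refine Finset.sum_le_sum fun n _ => ?_
        have e1 : Real.pi ^ 3 / 2 * T * Q * (‖c n‖ ^ 2 * (4 * (n / (Q * T)) + 1)) =
            Real.pi ^ 3 * ‖c n‖ ^ 2 * (2 * n + Q * T / 2) := by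
          field_simp
          ring
        have e2 : 2 * Real.pi ^ 3 * (‖c n‖ ^ 2 * (Q * T + n)) =
            Real.pi ^ 3 * ‖c n‖ ^ 2 * (2 * n + 2 * (Q * T)) := by ring
        rw [e1, e2]
        have hpi := Real.pi_pos
        apply mul_le_mul_of_nonneg_left _ (by positivity)
        have : 0 < (Q : ℝ) * T := by positivity
        linarith

end Pool.Agent.HPP
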