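import Pool.Agent.HPP.VPow

/-!
# HPP/VMom: moments of the factors from the level sets

PROOF. Split `{x^(-u) ≤ nt}` into `{1 ≤ nt}` (there `nt ≤ 3 (v + 2) ≤ 3 (3 log x + 2)`, `nt^r ≤ (..)^R ≤ x^(ε/4)`, the measure is
`≤ x^(ε/4)` by `LSAt` with `V = 1`) and the sets `{exp (-l-1) ≤ nt < exp (-l)}`, `0 ≤ l ≤ u log x`, where `nt^r ≤ exp (-l r)` and the
measure of `{max (exp (-l-1), x^(-u)) ≤ nt}` is `≤ x^(ε/4) exp ((l+1) 2L log x/v) ≤ x^(ε/4) exp (2L/νm) exp (l r)`. There are
`≤ u log x + 1` values of `l`.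
-/

namespace Pool.Agent.HPP

open Complex MeasureTheory

/-- dyadic decomposition into level sets -/
private theorem vmom_layer {G : Set ℝ} (hGm : MeasurableSet G) {T : ℝ} (hG : G ⊆ Set.Icc (-T) T) {h : ℝ → ℝ}
    (hc : Continuous h) (h0 : ∀ t, 0 ≤ h t) {r M a : ℝ} (hr : 0 < r) (ha : 0 < a)
    (hM : ∀ t, h t ≤ M) (N : ℕ) (hN : -Real.log a < N) :
    ∫ t in G ∩ {t | a ≤ h t}, h t ^ r ≤
      M ^ r * volume.real (G ∩ {t | 1 ≤ h t}) +
        ∑ l ∈ Finset.range N, Real.exp (-(l * r)) *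
          volume.real (G ∩ {t | max (Real.exp (-l - 1)) a ≤ h t}) := by
  have hcl : ∀ V : ℝ, MeasurableSet (G ∩ {t | V ≤ h t}) := fun V =>
    hGm.inter (isClosed_le continuous_const hc).measurableSet
  have hfin : ∀ V : ℝ, volume (G ∩ {t | V ≤ h t}) ≠ ⊤ := fun V =>
    ((measure_mono (Set.inter_subset_left.trans hG)).trans_lt measure_Icc_lt_top).ne
  set φ : ℝ → ℝ := fun t => (G ∩ {t | 1 ≤ h t}).indicator (fun _ => M ^ r) t +
    ∑ l ∈ Finset.range N, (G ∩ {t | max (Real.exp (-l - 1)) a ≤ h t}).indicator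
      (fun _ => Real.exp (-(l * r))) t with hφ
  have hi1 : Integrable ((G ∩ {t | 1 ≤ h t}).indicator (fun _ => M ^ r) : ℝ → ℝ) := by
    rw [integrable_indicator_iff (hcl 1)]
    exact integrableOn_const (hfin 1)
  have hi2 : ∀ l ∈ Finset.range N, Integrable
      ((G ∩ {t | max (Real.exp (-l - 1)) a ≤ h t}).indicator
        (fun _ => Real.exp (-(l * r))) : ℝ → ℝ) := by
    intro l _
    rw [integrable_indicator_iff (hcl _)]
    exact integrableOn_const (hfin _)
  have hiφ : Integrable φ := hi1.add (integrable_finsetSum _ hi2)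
  have hM0 : 0 ≤ M := (h0 0).trans (hM 0)
  have hφ0 : ∀ t, 0 ≤ φ t := by
    intro t
    refine add_nonneg (Set.indicator_nonneg (fun _ _ => by positivity) t)
      (Finset.sum_nonneg fun l _ => Set.indicator_nonneg (fun _ _ => by positivity) t)
  have hint : ∫ t, φ t = M ^ r * volume.real (G ∩ {t | 1 ≤ h t}) +
        ∑ l ∈ Finset.range N, Real.exp (-(l * r)) *
          volume.real (G ∩ {t | max (Real.exp (-l - 1)) a ≤ h t}) := by
    rw [hφ, integral_add hi1 (integrable_finsetSum _ hi2), integral_finsetSum _ hi2,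
      integral_indicator_const _ (hcl 1)]
    congr 1
    · rw [smul_eq_mul, mul_comm]
    · refine Finset.sum_congr rfl fun l _ => ?_
      rw [integral_indicator_const _ (hcl _), smul_eq_mul, mul_comm]
  rw [← hint]
  have hcr : Continuous fun t => h t ^ r := hc.rpow_const fun _ => Or.inr hr.le
  calc ∫ t in G ∩ {t | a ≤ h t}, h t ^ r ≤ ∫ t in G ∩ {t | a ≤ h t}, φ t := by
        refine setIntegral_mono_on ?_ hiφ.integrableOn (hcl a) ?_
        · exact (hcr.continuousOn.integrableOn_Icc).mono_set (Set.inter_subset_left.trans hG)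
        · intro t ht
          have ht1 : t ∈ G := ht.1
          have ht2 : a ≤ h t := ht.2
          have hpos : 0 < h t := ha.trans_le ht2
          rcases le_or_gt 1 (h t) with h1 | h1
          · have e1 : (G ∩ {t | 1 ≤ h t}).indicator (fun _ => M ^ r) t = M ^ r :=
              Set.indicator_of_mem (show t ∈ G ∩ {t | 1 ≤ h t} from ⟨ht1, h1⟩) _
            have e2 : h t ^ r ≤ M ^ r := Real.rpow_le_rpow (h0 t) (hM t) hr.le
            have e3 : 0 ≤ ∑ l ∈ Finset.range N,
                (G ∩ {t | max (Real.exp (-l - 1)) a ≤ h t}).indicator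
                  (fun _ => Real.exp (-(l * r))) t :=
              Finset.sum_nonneg fun l _ => Set.indicator_nonneg (fun _ _ => by positivity) t
            rw [hφ]
            show _ ≤ (G ∩ {t | 1 ≤ h t}).indicator (fun _ => M ^ r) t + _
            rw [e1]
            linarith
          · have hlog : 0 < -Real.log (h t) := by
              have := Real.log_neg hpos h1
              linarith
            set l := ⌊-Real.log (h t)⌋₊ with hl
            have hl1 : (l : ℝ) ≤ -Real.log (h t) := Nat.floor_le hlog.le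
            have hl2 : -Real.log (h t) < l + 1 := Nat.lt_floor_add_one _
            have hlN : l < N := by
              have h3 : Real.log a ≤ Real.log (h t) := Real.log_le_log ha ht2
              have : (l : ℝ) < N := by linarith
              exact_mod_cast this
            have hmem : t ∈ G ∩ {t | max (Real.exp (-(l : ℝ) - 1)) a ≤ h t} := by
              refine ⟨ht1, ?_⟩
              show max _ a ≤ h t
              refine max_le ?_ ht2
              rw [← Real.le_log_iff_exp_le hpos]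
              linarith
            have e1 : (G ∩ {t | max (Real.exp (-(l : ℝ) - 1)) a ≤ h t}).indicator
                (fun _ => Real.exp (-((l : ℝ) * r))) t = Real.exp (-((l : ℝ) * r)) :=
              Set.indicator_of_mem hmem _
            have e2 : h t ^ r ≤ Real.exp (-((l : ℝ) * r)) := by
              rw [Real.rpow_def_of_pos hpos]
              apply Real.exp_le_exp.2
              nlinarith
            have e3 := Finset.single_le_sum (f := fun l : ℕ =>
              (G ∩ {t | max (Real.exp (-(l : ℝ) - 1)) a ≤ h t}).indicator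
                (fun _ => Real.exp (-((l : ℝ) * r))) t)
              (fun l _ => Set.indicator_nonneg (fun _ _ => by positivity) t)
              (Finset.mem_range.2 hlN)
            have e4 : 0 ≤ (G ∩ {t | 1 ≤ h t}).indicator (fun _ => M ^ r) t :=
              Set.indicator_nonneg (fun _ _ => by positivity) t
            rw [hφ]
            show _ ≤ (G ∩ {t | 1 ≤ h t}).indicator (fun _ => M ^ r) t + _
            rw [e1] at e3
            linarith
    _ ≤ ∫ t, φ t := setIntegral_le_integral hiφ (Filter.Eventually.of_forall hφ0)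

private theorem vmom_Gt_meas {Q : ℕ} (χ : DirichletCharacter ℂ Q) (κ T : ℝ) : MeasurableSet (Gt χ κ T) := by
  unfold Gt
  have h1 : MeasurableSet {t : ℝ | |t| ≤ T} := (isClosed_le continuous_abs continuous_const).measurableSet
  by_cases hχ : χ = 1
  · have h2 : MeasurableSet {t : ℝ | κ ≤ |t|} := (isClosed_le continuous_const continuous_abs).measurableSet
    have e : {t : ℝ | |t| ≤ T ∧ (χ = 1 → κ ≤ |t|)} = {t : ℝ | |t| ≤ T} ∩ {t : ℝ | κ ≤ |t|} := by
      ext t; simp [hχ]
    rw [e]; exact h1.inter h2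
  · have e : {t : ℝ | |t| ≤ T ∧ (χ = 1 → κ ≤ |t|)} = {t : ℝ | |t| ≤ T} := by
      ext t; simp [hχ]
    rw [e]; exact h1

private theorem vmom_Gt_sub {Q : ℕ} (χ : DirichletCharacter ℂ Q) (κ T : ℝ) : Gt χ κ T ⊆ Set.Icc (-T) T := by
  intro t ht
  exact abs_le.1 ht.1

theorem mom {f L u νm : ℝ} (h : LSAt f L u νm) (hL : 0 < L) (hu : 0 < u) (hν : 0 < νm) :
    ∀ b : ℕ, 2 ≤ b → ∀ ε : ℝ, 0 < ε → ∀ κ : ℝ, 0 < κ → ∀ R : ℝ, 0 < R → ∃ x₀ : ℝ, ∀ x : ℝ, x₀ ≤ x →
    ∀ (m' : ℕ) (T : ℝ), 1 ≤ m' → (b : ℝ) ^ m' ≤ T → (b : ℝ) ^ m' * T ≤ x ^ f →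
    ∀ (k : Fin 3) (v : ℕ), νm * Real.log x ≤ v → (v : ℝ) ≤ 3 * Real.log x →
    ∀ r : ℝ, 2 * L * Real.log x / v ≤ r → r ≤ R →
    ∑ χ : DirichletCharacter ℂ (b ^ m'),
      ∫ t in Gt χ (x ^ κ) T ∩ {t | x ^ (-u) ≤ nt (tyf (x ^ (1 / 20 : ℝ)) k) v χ t},
        nt (tyf (x ^ (1 / 20 : ℝ)) k) v χ t ^ r ≤ x ^ ε := by
  intro b hb ε hε κ hκ R hR
  obtain ⟨x₁, hx₁⟩ := h b hb (ε / 4) (by linarith) κ hκ
  set δ : ℝ := ε / 4 with hδ
  have hδ0 : 0 < δ := by rw [hδ]; linarith
  set E : ℝ := Real.exp (2 * L / νm) with hE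
  have hE0 : 0 < E := Real.exp_pos _
  -- large x
  have hev : ∀ᶠ x : ℝ in Filter.atTop, x₁ ≤ x ∧ Real.exp 1 ≤ x ∧
      9 * Real.log x + 6 ≤ x ^ (δ / R) ∧ (u * Real.log x + 2) * E ≤ x ^ δ ∧ 2 ≤ x ^ δ := by
    have hlit : ∀ s : ℝ, 0 < s → ∀ A B : ℝ, ∀ᶠ x : ℝ in Filter.atTop,
        A * Real.log x + B ≤ x ^ s := by
      intro s hs A B
      have h1 := (isLittleO_log_rpow_atTop hs).bound
        (show (0 : ℝ) < 1 / (2 * (|A| + 1)) by positivity)
      have h2 := (tendsto_rpow_atTop hs).eventually_ge_atTop (2 * |B|)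
      filter_upwards [h1, h2, Filter.eventually_ge_atTop 1] with x e1 e2 e3
      have hx : 0 ≤ Real.log x := Real.log_nonneg e3
      have hp : 0 ≤ x ^ s := Real.rpow_nonneg (by linarith) s
      rw [Real.norm_of_nonneg hx, Real.norm_of_nonneg hp] at e1
      have h3 : A * Real.log x ≤ (|A| + 1) * Real.log x := by
        have := le_abs_self A
        nlinarith
      have h4 : (|A| + 1) * Real.log x ≤ (|A| + 1) * (1 / (2 * (|A| + 1)) * x ^ s) :=
        mul_le_mul_of_nonneg_left e1 (by positivity)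
      have h5 : (|A| + 1) * (1 / (2 * (|A| + 1)) * x ^ s) = x ^ s / 2 := by
        have : (|A| + 1) ≠ 0 := by positivity
        field_simp
      have h6 := le_abs_self B
      linarith
    filter_upwards [Filter.eventually_ge_atTop x₁, Filter.eventually_ge_atTop (Real.exp 1),
      hlit (δ / R) (div_pos hδ0 hR) 9 6, hlit δ hδ0 (u * E) (2 * E), hlit δ hδ0 0 2]
      with x h1 h2 h3 h4 h5
    refine ⟨h1, h2, h3, ?_, by linarith⟩
    calc (u * Real.log x + 2) * E = u * E * Real.log x + 2 * E := by ring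
      _ ≤ _ := h4
  obtain ⟨x₀, hx₀⟩ := Filter.eventually_atTop.1 hev
  refine ⟨x₀, fun x hx m' T hm' hT hbT k v hv1 hv2 r hr1 hr2 => ?_⟩
  obtain ⟨hxx, hxe, hM, hEx, h2x⟩ := hx₀ x hx
  have hxp : 0 < x := (Real.exp_pos 1).trans_le hxe
  have hl1 : 1 ≤ Real.log x := by
    rw [← Real.log_exp 1]
    exact Real.log_le_log (Real.exp_pos 1) hxe
  have hl0 : 0 < Real.log x := by linarith
  have hv0 : (0 : ℝ) < v := (mul_pos hν hl0).trans_le hv1
  have hs0 : 0 < 2 * L * Real.log x / v := by positivity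
  have hr0 : 0 < r := hs0.trans_le hr1
  set F := tyf (x ^ (1 / 20 : ℝ)) k with hF
  set M : ℝ := 3 * ((v : ℝ) + 2) with hMd
  have hM1 : 1 ≤ M := by rw [hMd]; linarith
  have hMR : M ^ r ≤ x ^ δ := by
    calc M ^ r ≤ M ^ R := Real.rpow_le_rpow_of_exponent_le hM1 hr2
      _ ≤ (x ^ (δ / R)) ^ R := by
          apply Real.rpow_le_rpow (by linarith) _ hR.le
          rw [hMd]; linarith
      _ = x ^ δ := by
          rw [← Real.rpow_mul hxp.le, div_mul_cancel₀ _ hR.ne']
  have hxu : 0 < x ^ (-u) := Real.rpow_pos_of_pos hxp _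
  have hxu1 : x ^ (-u) ≤ 1 := by
    apply Real.rpow_le_one_of_one_le_of_nonpos _ (by linarith)
    have := Real.add_one_le_exp (1 : ℝ)
    linarith
  set N : ℕ := ⌊u * Real.log x⌋₊ + 1 with hN
  have hN1 : -Real.log (x ^ (-u)) < N := by
    rw [Real.log_rpow hxp, hN]
    push_cast
    have := Nat.lt_floor_add_one (u * Real.log x)
    linarith
  have hN2 : (N : ℝ) ≤ u * Real.log x + 2 := by
    rw [hN]
    push_cast
    have := Nat.floor_le (mul_pos hu hl0).le
    linarith
  have hLS := hx₁ x hxx m' T hm' hT hbT k v hv1 hv2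
  have hstep : ∀ χ : DirichletCharacter ℂ (b ^ m'),
      ∫ t in Gt χ (x ^ κ) T ∩ {t | x ^ (-u) ≤ nt F v χ t}, nt F v χ t ^ r ≤
      M ^ r * volume.real (Gt χ (x ^ κ) T ∩ {t | 1 ≤ nt F v χ t}) +
        ∑ l ∈ Finset.range N, Real.exp (-(l * r)) *
          volume.real (Gt χ (x ^ κ) T ∩ {t | max (Real.exp (-l - 1)) (x ^ (-u)) ≤ nt F v χ t}) :=
    fun χ => vmom_layer (vmom_Gt_meas χ _ T) (vmom_Gt_sub χ _ T) (nt_continuous F v χ) (nt_nonneg F v χ) hr0 hxu
      (fun t => nt_triv (tyf_sm _ k) v χ t) N hN1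
  have hLM1 : ∑ χ : DirichletCharacter ℂ (b ^ m'),
      volume.real (Gt χ (x ^ κ) T ∩ {t | 1 ≤ nt F v χ t}) ≤ x ^ δ := by
    have := hLS 1 hxu1 le_rfl
    unfold LM at this
    rw [Real.one_rpow, mul_one] at this
    exact this
  have hLMl : ∀ l : ℕ, Real.exp (-(l * r)) * ∑ χ : DirichletCharacter ℂ (b ^ m'),
      volume.real (Gt χ (x ^ κ) T ∩ {t | max (Real.exp (-l - 1)) (x ^ (-u)) ≤ nt F v χ t}) ≤
      x ^ δ * E := by
    intro l
    have hV0 : 0 < max (Real.exp (-(l : ℝ) - 1)) (x ^ (-u)) := lt_max_of_lt_right hxu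
    have hV1 : max (Real.exp (-(l : ℝ) - 1)) (x ^ (-u)) ≤ 1 := by
      refine max_le ?_ hxu1
      rw [Real.exp_le_one_iff]
      have : (0 : ℝ) ≤ l := Nat.cast_nonneg l
      linarith
    have h1 := hLS _ (le_max_right (Real.exp (-(l : ℝ) - 1)) (x ^ (-u))) hV1
    unfold LM at h1
    have h2 : max (Real.exp (-(l : ℝ) - 1)) (x ^ (-u)) ^ (-(2 * L * Real.log x / v)) ≤
        E * Real.exp (l * r) := by
      calc max (Real.exp (-(l : ℝ) - 1)) (x ^ (-u)) ^ (-(2 * L * Real.log x / v))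
          ≤ Real.exp (-(l : ℝ) - 1) ^ (-(2 * L * Real.log x / v)) :=
            Real.rpow_le_rpow_of_nonpos (Real.exp_pos _) (le_max_left _ _) (by linarith)
        _ = Real.exp ((l + 1) * (2 * L * Real.log x / v)) := by
            rw [← Real.exp_mul]; congr 1; ring
        _ ≤ Real.exp (2 * L / νm + l * r) := by
            apply Real.exp_le_exp.2
            have h3 : 2 * L * Real.log x / v ≤ 2 * L / νm := by
              rw [div_le_div_iff₀ hv0 hν]
              nlinarith
            have h4 : (l : ℝ) * (2 * L * Real.log x / v) ≤ l * r :=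
              mul_le_mul_of_nonneg_left hr1 (Nat.cast_nonneg l)
            linarith
        _ = E * Real.exp (l * r) := by rw [Real.exp_add]
    have hxδ : 0 ≤ x ^ δ := Real.rpow_nonneg hxp.le _
    calc _ ≤ Real.exp (-(l * r)) * (x ^ δ * (E * Real.exp (l * r))) := by
          apply mul_le_mul_of_nonneg_left _ (Real.exp_pos _).le
          exact h1.trans (mul_le_mul_of_nonneg_left h2 hxδ)
      _ = x ^ δ * E * (Real.exp (-(l * r)) * Real.exp (l * r)) := by ring
      _ = x ^ δ * E := by rw [← Real.exp_add]; simp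
  have hxδ : 0 ≤ x ^ δ := Real.rpow_nonneg hxp.le _
  calc _ ≤ ∑ χ : DirichletCharacter ℂ (b ^ m'),
      (M ^ r * volume.real (Gt χ (x ^ κ) T ∩ {t | 1 ≤ nt F v χ t}) +
        ∑ l ∈ Finset.range N, Real.exp (-(l * r)) *
          volume.real (Gt χ (x ^ κ) T ∩ {t | max (Real.exp (-l - 1)) (x ^ (-u)) ≤ nt F v χ t})) :=
        Finset.sum_le_sum fun χ _ => hstep χ
    _ = M ^ r * ∑ χ : DirichletCharacter ℂ (b ^ m'),
          volume.real (Gt χ (x ^ κ) T ∩ {t | 1 ≤ nt F v χ t}) +
        ∑ l ∈ Finset.range N, Real.exp (-(l * r)) * ∑ χ : DirichletCharacter ℂ (b ^ m'),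
          volume.real (Gt χ (x ^ κ) T ∩ {t | max (Real.exp (-l - 1)) (x ^ (-u)) ≤ nt F v χ t}) := by
        rw [Finset.sum_add_distrib, Finset.mul_sum, Finset.sum_comm]
        congr 1
        refine Finset.sum_congr rfl fun l _ => ?_
        rw [Finset.mul_sum]
    _ ≤ x ^ δ * x ^ δ + ∑ l ∈ Finset.range N, x ^ δ * E := by
        refine add_le_add ?_ (Finset.sum_le_sum fun l _ => hLMl l)
        refine mul_le_mul hMR hLM1 (Finset.sum_nonneg fun _ _ => measureReal_nonneg) hxδ
    _ = x ^ δ * (x ^ δ + N * E) := by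
        rw [Finset.sum_const, Finset.card_range, nsmul_eq_mul]; ring
    _ ≤ x ^ δ * (x ^ δ * x ^ δ) := by
        apply mul_le_mul_of_nonneg_left _ hxδ
        have h1 : (N : ℝ) * E ≤ x ^ δ :=
          (mul_le_mul_of_nonneg_right hN2 hE0.le).trans hEx
        nlinarith
    _ = x ^ (3 * δ) := by
        rw [← Real.rpow_add hxp, ← Real.rpow_add hxp]; congr 1; ring
    _ ≤ x ^ ε := by
        apply Real.rpow_le_rpow_of_exponent_le _ (by rw [hδ]; linarith)
        have := Real.add_one_le_exp (1 : ℝ)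
        linarith

end Pool.Agent.HPP
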